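import Pool.Agent.helper92.GFL.Defs2

/-!
Definitions, third part: active cells, layers with remainder, sign vectors.
-/

namespace Pool.H92.GFL

open Function Finset MeasureTheory ProbabilityTheory Pool.H92.GFF
open scoped Classical ENNReal

/-- extension of a sign vector by `false` -/
def ext (n : ℕ) (s : Fin n → Bool) (b : ℕ) : Bool := if h : b < n then s ⟨b, h⟩ else false

/-- largest allowed scale `< M` with a nice circuit around `v` (`0` if there is none) -/
noncomputable def kmx (U T : Finset V) (x : V → ℝ) (lam : ℝ) (C1 M : ℕ) (v : V) : ℕ :=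
  ((Finset.range M).filter (fun k => Allw U T k (cen k v) ∧ Nice x lam (cen k v) k C1)).sup id

/-- active cells: `E` is the explored set, `F` its open frontier -/
noncomputable def Act (I B U T : Finset V) (x : V → ℝ) (lam : ℝ) (C1 M : ℕ) (E F : Finset V) :
    Finset (ℕ × V) :=
  (F.filter (fun v => Allw U T 0 v ∧ 0 < lap (hx I E (eqp I B)) v)).image
    (fun v => (kmx U T x lam C1 M v, cen (kmx U T x lam C1 M v) v))

/-- supremum of `gE` around a cell -/
noncomputable def Gh (I B E : Finset V) (Q : ℕ × V) : ℝ :=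
  (ball Q.2 (8 * 2 ^ Q.1 + 1)).sup' ⟨Q.2, mem_ball_self _ _⟩ (gE I B E)

/-- flux through the corridor -/
noncomputable def kap1 (N κ : ℕ) (U : Finset V) (p e : V) (n : ℕ) : ℝ :=
  ∑ v ∈ ball (p + n • e) (2 ^ (κ - 2)), qw (inn N) (ball (p + n • e) (2 ^ (κ - 2))) v *
    eqp (core U κ) (ball p (2 ^ (κ - 2))) v

/-- independent layers `0, ..., J-1` and an independent remainder `Y` with covariance `Rc` -/
def IsLR (J : ℕ) (W : Finset V) {Ω : Type*} [MeasurableSpace Ω] (μ : Measure Ω)
    (X : ℕ → V → Ω → ℝ) (Y : V → Ω → ℝ) (Rc : V → V → ℝ) : Prop :=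
  GF μ (Sum.elim (fun p : Fin J × W => X p.1 p.2) (fun v : W => Y v))
    (Sum.elim
      (fun p => Sum.elim (fun q => if p.1 = q.1 then kap p.1 ((p.2 : V) - (q.2 : V)) else 0)
        (fun _ => 0))
      (fun v => Sum.elim (fun _ => 0) (fun v' => Rc v v')))

end Pool.H92.GFL
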