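import Pool.Agent.helper92.GFL.C1
import Pool.Agent.helper92.GFL.Defs3

namespace Pool.H92.GFL

open Function Finset MeasureTheory ProbabilityTheory Pool.H92.GFF
open scoped Classical ENNReal

/-- start of corridor `i` of the frame of scale `m` -/
def cpt (m : ℕ) : Fin 4 → V :=
  ![(-10 * 2 ^ (m - 2), 8 * 2 ^ (m - 2)), (-10 * 2 ^ (m - 2), -8 * 2 ^ (m - 2)),
    (8 * 2 ^ (m - 2), -10 * 2 ^ (m - 2)), (-8 * 2 ^ (m - 2), -10 * 2 ^ (m - 2))]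

/-- direction of corridor `i` -/
def cdir : Fin 4 → V := ![(1, 0), (1, 0), (0, 1), (0, 1)]

/-- corridor `i` -/
noncomputable def cU (m : ℕ) (i : Fin 4) : Finset V :=
  Finset.Icc ((cpt m i).1 - 2 ^ (m - 2) - (cdir i).1 * 2 ^ (m - 2))
      ((cpt m i).1 + 2 ^ (m - 2) + (cdir i).1 * (21 * 2 ^ (m - 2))) ×ˢ
    Finset.Icc ((cpt m i).2 - 2 ^ (m - 2) - (cdir i).2 * 2 ^ (m - 2))
      ((cpt m i).2 + 2 ^ (m - 2) + (cdir i).2 * (21 * 2 ^ (m - 2)))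

/-- membership in the corridors, `w = 2 ^ (m - 2)` -/
lemma bg_mem {m : ℕ} {v : V} (i : Fin 4) (w : ℤ) (hw : w = 2 ^ (m - 2)) : v ∈ cU m i ↔
    (![(-(12 * w) ≤ v.1 ∧ v.1 ≤ 12 * w) ∧ (7 * w ≤ v.2 ∧ v.2 ≤ 9 * w),
      (-(12 * w) ≤ v.1 ∧ v.1 ≤ 12 * w) ∧ (-(9 * w) ≤ v.2 ∧ v.2 ≤ -(7 * w)),
      (7 * w ≤ v.1 ∧ v.1 ≤ 9 * w) ∧ (-(12 * w) ≤ v.2 ∧ v.2 ≤ 12 * w),
      (-(9 * w) ≤ v.1 ∧ v.1 ≤ -(7 * w)) ∧ (-(12 * w) ≤ v.2 ∧ v.2 ≤ 12 * w)] : Fin 4 → Prop) i := by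
  unfold cU
  rw [Finset.mem_product, Finset.mem_Icc, Finset.mem_Icc, ← hw]
  fin_cases i <;> simp [cpt, cdir, ← hw] <;> constructor <;>
    (intro h; refine ⟨⟨?_, ?_⟩, ⟨?_, ?_⟩⟩ <;> omega)

theorem cor_geo {m : ℕ} (hm : 4 ≤ m) (i : Fin 4) :
    Geo 5 (m - 2) (2 ^ (m + 3)) (cU m i) (cpt m i) (cdir i) (20 * 2 ^ (m - 2)) := by
  obtain ⟨k, rfl⟩ : ∃ k, m = k + 2 := ⟨m - 2, by omega⟩
  have hk : 2 ≤ k := by omega
  simp only [Nat.add_sub_cancel]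
  set w : ℤ := 2 ^ k with hw
  have hw4 : 4 ≤ w := by
    have : (2 : ℤ) ^ 2 ≤ 2 ^ k := pow_le_pow_right₀ (by norm_num) hk
    simpa [hw] using this
  have hbig : ((2 ^ (k + 2 + 3) : ℕ) : ℤ) = 32 * w := by
    push_cast
    rw [hw]
    ring
  refine ⟨by rw [show k + 2 + 3 = k + 5 by ring], ?_, ?_, ?_, ?_, ?_⟩
  · exact ⟨((cpt (k + 2) i).1 - 2 ^ (k + 2 - 2) - (cdir i).1 * 2 ^ (k + 2 - 2),
      (cpt (k + 2) i).2 - 2 ^ (k + 2 - 2) - (cdir i).2 * 2 ^ (k + 2 - 2)),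
      ((cpt (k + 2) i).1 + 2 ^ (k + 2 - 2) + (cdir i).1 * (21 * 2 ^ (k + 2 - 2)),
      (cpt (k + 2) i).2 + 2 ^ (k + 2 - 2) + (cdir i).2 * (21 * 2 ^ (k + 2 - 2))), rfl⟩
  · intro v hv
    rw [bg_mem i w (by simp [hw])] at hv
    rw [mem_inn, hbig]
    fin_cases i <;> simp at hv <;> omega
  · fin_cases i <;> simp [cdir]
  · omega
  · intro j hj v hv
    rw [mem_ball] at hv
    rw [bg_mem i w (by simp [hw])]
    have hj' : (j : ℤ) ≤ 20 * w := by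
      have : ((j : ℕ) : ℤ) ≤ ((20 * 2 ^ k : ℕ) : ℤ) := by exact_mod_cast hj
      push_cast at this
      rw [hw]; exact this
    have hr : ((2 ^ k : ℕ) : ℤ) = w := by push_cast; rw [hw]
    rw [hr] at hv
    fin_cases i <;> simp [cpt, cdir, ← hw] at hv ⊢ <;>
      (refine ⟨⟨?_, ?_⟩, ⟨?_, ?_⟩⟩ <;> omega)

theorem cor_small {m k : ℕ} {i : Fin 4} {c : V} (h : ball c (2 ^ (k + 9)) ⊆ cU m i) : k ≤ m := by
  by_contra hlt
  push Not at hlt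
  set w : ℤ := 2 ^ (m - 2) with hw
  have h1 : (c.1 + 2 ^ (k + 9), c.2 + 2 ^ (k + 9)) ∈ cU m i := h (by
    rw [mem_ball]
    push_cast
    have : (0 : ℤ) < 2 ^ (k + 9) := by positivity
    refine ⟨⟨?_, ?_⟩, ⟨?_, ?_⟩⟩ <;> omega)
  have h2 : (c.1 - 2 ^ (k + 9), c.2 - 2 ^ (k + 9)) ∈ cU m i := h (by
    rw [mem_ball]
    push_cast
    have : (0 : ℤ) < 2 ^ (k + 9) := by positivity
    refine ⟨⟨?_, ?_⟩, ⟨?_, ?_⟩⟩ <;> omega)
  rw [bg_mem i w hw] at h1 h2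
  have h3 : w < 2 ^ (k + 9) := by
    rw [hw]
    exact pow_lt_pow_right₀ (by norm_num) (by omega)
  fin_cases i <;> simp at h1 h2 <;> omega

theorem cU_sub {m : ℕ} (hm : 4 ≤ m) (i : Fin 4) : cU m i ⊆ ball 0 (3 * 2 ^ m) := by
  obtain ⟨k, rfl⟩ : ∃ k, m = k + 2 := ⟨m - 2, by omega⟩
  set w : ℤ := 2 ^ k with hw
  have hw0 : 0 < w := by rw [hw]; positivity
  intro v hv
  rw [bg_mem i w (by simp [hw])] at hv
  rw [mem_ball]
  have h1 : ((3 * 2 ^ (k + 2) : ℕ) : ℤ) = 12 * w := by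
    push_cast
    rw [hw]; ring
  rw [h1]
  fin_cases i <;> simp at hv ⊢ <;> omega

theorem reach_conn {U S B : Finset V} (hS : S ⊆ U) {x : V → ℝ} {lam : ℝ} {R : ℕ}
    (h : Reach U S B x lam R) :
    ∃ a ∈ S, ∃ b ∈ B, Conn {v | v ∈ U ∧ x v ≤ lam} R a b := by
  obtain ⟨v, hvB, hvo, hvR⟩ := h
  obtain ⟨s, hs, hvs⟩ := mem_Fs_of_open (o := fun v => x v ≤ lam) hvR hvo
  have key : ∀ t : ℕ, ∀ v ∈ Fs U S (fun v => x v ≤ lam) t,
      ∃ a ∈ S, Conn {v | v ∈ U ∧ x v ≤ lam} t a v := by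
    intro t
    induction t with
    | zero =>
      intro v hv
      rw [Fs_zero, Finset.mem_filter] at hv
      refine ⟨v, hv.1, fun _ => v, rfl, rfl, fun i _ => ⟨hS hv.1, hv.2⟩, fun i hi => by omega⟩
    | succ t ih =>
      intro v hv
      have hvU : v ∈ U := Bs_subset hS _ (Fs_subset _ hv)
      have hvo : x v ≤ lam := Fs_open hv
      rw [Fs_succ, Finset.mem_filter, Finset.mem_sdiff, Bs_succ, Finset.mem_union,
        Finset.mem_inter, Finset.mem_biUnion] at hv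
      obtain ⟨⟨h1, h2⟩, -⟩ := hv
      rcases h1 with h1 | ⟨⟨u, hu, huv⟩, -⟩
      · exact absurd h1 h2
      · obtain ⟨a, ha, p, hp0, hpt, hpO, hps⟩ := ih u hu
        refine ⟨a, ha, fun i => if i ≤ t then p i else v, ?_, ?_, ?_, ?_⟩
        · simp [hp0]
        · simp
        · intro i hi
          by_cases hit : i ≤ t
          · simp only [hit, if_true]
            exact hpO i hit
          · simp only [hit, if_false]
            exact ⟨hvU, hvo⟩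
        · intro i hi
          by_cases hit : i < t
          · have h3 : i ≤ t := by omega
            have h4 : i + 1 ≤ t := by omega
            simp only [h3, h4, if_true]
            exact hps i hit
          · have h3 : i = t := by omega
            subst h3
            simp only [le_refl, if_true, show ¬ (i + 1 ≤ i) by omega, if_false]
            right
            rw [hpt]
            exact huv
  obtain ⟨a, ha, hc⟩ := key s v hvs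
  exact ⟨a, ha, v, hvB, hc.c1_pad hs⟩

theorem nice_of_reach {m C : ℕ} (hm : 4 ≤ m) {ψ : V → ℝ} {y : ℝ}
    (h : ∀ i : Fin 4, Reach (cU m i) (ball (cpt m i) (2 ^ (m - 2 - 2)))
      (ball (cpt m i + (20 * 2 ^ (m - 2) : ℕ) • cdir i) (2 ^ (m - 2 - 2))) ψ y
      (C * 2 ^ (m - 2))) : Nice ψ y 0 m C := by
  obtain ⟨k, rfl⟩ : ∃ k, m = k + 4 := ⟨m - 4, by omega⟩
  have e1 : k + 4 - 2 = k + 2 := by omega
  have e2 : k + 4 - 2 - 2 = k := by omega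
  rw [e2, e1] at h
  obtain ⟨w, hw⟩ : ∃ w : ℕ, w = 2 ^ (k + 2) := ⟨_, rfl⟩
  have hw1 : w = 4 * 2 ^ k := by rw [hw]; ring
  have hk0 : 0 < 2 ^ k := by positivity
  have hwZ : (w : ℤ) = 2 ^ (k + 4 - 2) := by rw [e1, hw]; push_cast; rfl
  have hwZ' : (2 : ℤ) ^ (k + 2) = w := by rw [hw]; push_cast; rfl
  have hr : (w : ℤ) = 4 * (2 : ℤ) ^ k := by rw [hw1]; push_cast; ring
  have hr0 : (0 : ℤ) < (2 : ℤ) ^ k := by positivity
  rw [← hw] at h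
  have hsub : ∀ i : Fin 4, ball (cpt (k + 4) i) (2 ^ k) ⊆ cU (k + 4) i := by
    intro i v hv
    rw [bg_mem i w hwZ]
    rw [mem_ball] at hv
    fin_cases i <;> simp [cpt, hwZ'] at hv ⊢ <;>
      (refine ⟨⟨?_, ?_⟩, ⟨?_, ?_⟩⟩ <;> omega)
  obtain ⟨Γ, F, h1, h2, h3, h4, h5, h6, h7⟩ := frame w (C * w) (by omega) {v | ψ v ≤ y}
    (by
      obtain ⟨a, ha, b, hb, hc⟩ := reach_conn (hsub 0) (h 0)
      rw [mem_ball] at ha hb
      simp [cpt, cdir, hwZ'] at ha hb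
      refine ⟨a, b, by omega, by omega, hc.c1_mono ?_⟩
      rintro v ⟨hv1, hv2⟩
      rw [bg_mem 0 w hwZ] at hv1
      simp at hv1
      refine ⟨hv2, ?_, ?_⟩ <;> rw [abs_le] <;> constructor <;> omega)
    (by
      obtain ⟨a, ha, b, hb, hc⟩ := reach_conn (hsub 1) (h 1)
      rw [mem_ball] at ha hb
      simp [cpt, cdir, hwZ'] at ha hb
      refine ⟨a, b, by omega, by omega, hc.c1_mono ?_⟩
      rintro v ⟨hv1, hv2⟩
      rw [bg_mem 1 w hwZ] at hv1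
      simp at hv1
      refine ⟨hv2, ?_, ?_⟩ <;> rw [abs_le] <;> constructor <;> omega)
    (by
      obtain ⟨a, ha, b, hb, hc⟩ := reach_conn (hsub 2) (h 2)
      rw [mem_ball] at ha hb
      simp [cpt, cdir, hwZ'] at ha hb
      refine ⟨a, b, by omega, by omega, hc.c1_mono ?_⟩
      rintro v ⟨hv1, hv2⟩
      rw [bg_mem 2 w hwZ] at hv1
      simp at hv1
      refine ⟨hv2, ?_, ?_⟩ <;> rw [abs_le] <;> constructor <;> omega)
    (by
      obtain ⟨a, ha, b, hb, hc⟩ := reach_conn (hsub 3) (h 3)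
      rw [mem_ball] at ha hb
      simp [cpt, cdir, hwZ'] at ha hb
      refine ⟨a, b, by omega, by omega, hc.c1_mono ?_⟩
      rintro v ⟨hv1, hv2⟩
      rw [bg_mem 3 w hwZ] at hv1
      simp at hv1
      refine ⟨hv2, ?_, ?_⟩ <;> rw [abs_le] <;> constructor <;> omega)
  have e4 : 4 * w = 2 ^ (k + 4) := by rw [hw]; ring
  have e12 : 12 * w = 3 * 2 ^ (k + 4) := by rw [hw]; ring
  have eR : 4 * (C * w) = C * 2 ^ (k + 4) := by rw [← e4]; ring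
  rw [e4] at h1 h4 h7
  rw [e12] at h2 h7
  refine ⟨Γ, F, h1, h2, h3, h4, h5, fun x hx => h6 x hx, fun x hx x' hx' => ?_⟩
  rw [← eR]
  refine Conn.c1_mono ?_ (h7 x hx x' hx')
  intro v hv
  exact ⟨⟨hv.2.1, hv.2.2⟩, hv.1⟩

end Pool.H92.GFL
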