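import Pool.Agent.helper92.GFL.Defs

/-!
Basic facts on Green functions `gr`, harmonic extensions `hx` and inradii `rad`.
-/

namespace Pool.H92.GFL

open Function Finset MeasureTheory ProbabilityTheory Pool.H92.GFF
open scoped Classical ENNReal

lemma fin_of_zero_off {W : Finset V} {f : V → ℝ} (hf : ∀ v ∉ W, f v = 0) :
    (support f).Finite :=
  (W.finite_toSet).subset (fun v hv => by
    by_contra h
    exact hv (hf v (by simpa using h)))

lemma gr_out {W : Finset V} {y v : V} (hv : v ∉ W) : gr W y v = 0 := (gr_spec W y).1 v hv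

lemma lap_gr {W : Finset V} {y v : V} (hv : v ∈ W) :
    lap (gr W y) v = if v = y then 1 else 0 := (gr_spec W y).2 v hv

lemma gr_nonneg (W : Finset V) (y v : V) : 0 ≤ gr W y v := by
  refine max_principle W _ (fun v hv => ?_) (fun v hv => by rw [gr_out hv]) v
  rw [lap_gr hv]; split_ifs <;> norm_num

/-- comparison principle -/
lemma cmp (W : Finset V) {f g : V → ℝ} (h1 : ∀ v ∈ W, lap f v ≤ lap g v)
    (h2 : ∀ v ∉ W, f v ≤ g v) (v : V) : f v ≤ g v := by
  have := max_principle W (fun v => g v - f v) (fun v hv => by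
    rw [lap_sub]; linarith [h1 v hv]) (fun v hv => by linarith [h2 v hv]) v
  linarith

lemma eq_of_lap (W : Finset V) {f g : V → ℝ} (h1 : ∀ v ∈ W, lap f v = lap g v)
    (h2 : ∀ v ∉ W, f v = g v) (v : V) : f v = g v :=
  le_antisymm (cmp W (fun v hv => (h1 v hv).le) (fun v hv => (h2 v hv).le) v)
    (cmp W (fun v hv => (h1 v hv).ge) (fun v hv => (h2 v hv).ge) v)

/-- pairing of two functions vanishing off finite sets -/
lemma D_eq_sum {W : Finset V} {f g : V → ℝ} (hg : ∀ v ∉ W, g v = 0) :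
    D f g = ∑ v ∈ W, lap f v * g v := by
  rw [← tsum_lap_mul (fin_of_zero_off hg), tsum_eq_sum (s := W)]
  intro v hv
  rw [hg v hv, mul_zero]

/-- representation of a function vanishing off `W` -/
lemma gr_repr_left {W : Finset V} {f : V → ℝ} (hf : ∀ v ∉ W, f v = 0) {x : V} (hx : x ∈ W) :
    f x = ∑ y ∈ W, gr W x y * lap f y := by
  have h1 : D f (gr W x) = ∑ v ∈ W, lap f v * gr W x v := D_eq_sum (fun v hv => gr_out hv)
  have h2 : D (gr W x) f = ∑ v ∈ W, lap (gr W x) v * f v := D_eq_sum hf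
  rw [D_comm, h2] at h1
  rw [Finset.sum_eq_single x] at h1
  · rw [lap_gr hx, if_pos rfl, one_mul] at h1
    rw [h1]
    exact Finset.sum_congr rfl (fun v _ => mul_comm _ _)
  · intro b hb hbx
    rw [lap_gr hb, if_neg hbx, zero_mul]
  · intro h; exact absurd hx h

lemma gr_pole_out {W : Finset V} {x y : V} (hy : y ∉ W) : gr W y x = 0 := by
  refine eq_zero_of_lap W _ (fun v hv => ?_) (fun v hv => gr_out hv) x
  have hvy : v ≠ y := fun h => hy (h ▸ hv)
  rw [lap_gr hv, if_neg hvy]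

lemma gr_symm (W : Finset V) (x y : V) : gr W x y = gr W y x := by
  by_cases hx : x ∈ W
  · by_cases hy : y ∈ W
    · have := gr_repr_left (W := W) (f := gr W y) (fun v hv => gr_out hv) hx
      rw [this, Finset.sum_eq_single y]
      · rw [lap_gr hy, if_pos rfl, mul_one]
      · intro b hb hby
        rw [lap_gr hb, if_neg hby, mul_zero]
      · intro h; exact absurd hy h
    · rw [gr_out hy, gr_pole_out hy]
  · rw [gr_pole_out hx, gr_out hx]

lemma gr_repr {W : Finset V} {f : V → ℝ} (hf : ∀ v ∉ W, f v = 0) (x : V) :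
    f x = ∑ y ∈ W, gr W y x * lap f y := by
  by_cases hx : x ∈ W
  · rw [gr_repr_left hf hx]
    exact Finset.sum_congr rfl (fun y _ => by rw [gr_symm])
  · rw [hf x hx, Finset.sum_eq_zero]
    intro y _
    rw [gr_out hx, zero_mul]

lemma gr_mono {W W' : Finset V} (h : W ⊆ W') (y x : V) : gr W y x ≤ gr W' y x := by
  refine cmp W (fun v hv => ?_) (fun v hv => ?_) x
  · rw [lap_gr hv, lap_gr (h hv)]
  · rw [gr_out hv]; exact gr_nonneg _ _ _

/-- the Laplacian at a local value -/
lemma lap_eq_sum (f : V → ℝ) (v : V) : lap f v = 4 * f v - ∑ w ∈ nb v, f w := by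
  unfold lap nb
  rw [Finset.sum_insert, Finset.sum_insert, Finset.sum_insert, Finset.sum_singleton]
  · ring
  · simp only [Finset.mem_singleton, Prod.mk.injEq]; omega
  · simp only [Finset.mem_insert, Finset.mem_singleton, Prod.mk.injEq]; omega
  · simp only [Finset.mem_insert, Finset.mem_singleton, Prod.mk.injEq]; omega

lemma lap_congr {f g : V → ℝ} {v : V} (h0 : f v = g v) (h : ∀ w ∈ nb v, f w = g w) :
    lap f v = lap g v := by
  rw [lap_eq_sum, lap_eq_sum, h0, Finset.sum_congr rfl h]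

lemma nb_symm {v w : V} : w ∈ nb v ↔ v ∈ nb w := by
  obtain ⟨a, b⟩ := v
  obtain ⟨c, d⟩ := w
  simp only [nb, Finset.mem_insert, Finset.mem_singleton, Prod.mk.injEq]
  omega

/-! ### harmonic extensions -/

lemma hx_on {I E : Finset V} {b : V → ℝ} {v : V} (hv : v ∈ E) : hx I E b v = b v := by
  rw [(hx_spec I E b).1 v (by simp [hv])]; simp [hv]

lemma hx_out {I E : Finset V} (hE : E ⊆ I) {b : V → ℝ} {v : V} (hv : v ∉ I) :
    hx I E b v = 0 := by
  rw [(hx_spec I E b).1 v (by simp [hv])]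
  rw [if_neg (fun h => hv (hE h))]

lemma lap_hx {I E : Finset V} {b : V → ℝ} {v : V} (hv : v ∈ I) (hv' : v ∉ E) :
    lap (hx I E b) v = 0 := (hx_spec I E b).2 v (by simp [hv, hv'])

lemma hx_unique {I E : Finset V} (hE : E ⊆ I) {b f : V → ℝ} (h1 : ∀ v ∈ E, f v = b v)
    (h2 : ∀ v ∉ I, f v = 0) (h3 : ∀ v ∈ I, v ∉ E → lap f v = 0) (v : V) :
    f v = hx I E b v := by
  refine eq_of_lap (I \ E) (fun v hv => ?_) (fun v hv => ?_) v
  · rw [Finset.mem_sdiff] at hv
    rw [h3 v hv.1 hv.2, lap_hx hv.1 hv.2]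
  · by_cases hvE : v ∈ E
    · rw [h1 v hvE, hx_on hvE]
    · have hvI : v ∉ I := fun h => hv (by simp [h, hvE])
      rw [h2 v hvI, hx_out hE hvI]

lemma hx_nonneg {I E : Finset V} {b : V → ℝ} (hb : ∀ v ∈ E, 0 ≤ b v) (v : V) :
    0 ≤ hx I E b v := by
  refine max_principle (I \ E) _ (fun v hv => ((hx_spec I E b).2 v hv).ge) (fun v hv => ?_) v
  rw [(hx_spec I E b).1 v hv]
  split_ifs with h
  · exact hb v h
  · exact le_rfl

lemma hx_mono {I E : Finset V} {b b' : V → ℝ} (hb : ∀ v ∈ E, b v ≤ b' v) (v : V) :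
    hx I E b v ≤ hx I E b' v := by
  refine cmp (I \ E) (fun v hv => ?_) (fun v hv => ?_) v
  · rw [(hx_spec I E b).2 v hv, (hx_spec I E b').2 v hv]
  · rw [(hx_spec I E b).1 v hv, (hx_spec I E b').1 v hv]
    split_ifs with h
    · exact hb v h
    · exact le_rfl

/-- `D (hx I E F) w = D F (hx I E w)`-type symmetry: for `F`, `w` vanishing off `I` the
projections are self-adjoint -/
lemma D_hx_symm {I E : Finset V} (hE : E ⊆ I) (F w : V → ℝ) :
    D (hx I E F) (hx I E w) = ∑ v ∈ E, lap (hx I E F) v * w v := by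
  rw [D_eq_sum (W := I) (fun v hv => hx_out hE hv), ← Finset.sum_subset hE]
  · exact Finset.sum_congr rfl (fun v hv => by rw [hx_on hv])
  · intro v hv hvE
    rw [lap_hx hv hvE, zero_mul]

lemma D_hx_left {I E : Finset V} (hE : E ⊆ I) {F w : V → ℝ} (hF : ∀ v ∉ I, F v = 0) :
    D F (hx I E w) = D (hx I E F) (hx I E w) := by
  rw [D_comm F, D_comm (hx I E F), D_eq_sum (W := I) hF,
    D_eq_sum (W := I) (g := hx I E F) (fun v hv => hx_out hE hv)]
  refine Finset.sum_congr rfl (fun v hv => ?_)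
  by_cases hvE : v ∈ E
  · rw [hx_on hvE]
  · rw [lap_hx hv hvE]; ring

/-! ### inradius -/

lemma exists_not_ball_subset (W : Finset V) (y : V) : ∃ r : ℕ, ¬ ball y r ⊆ W := by
  by_contra hcon
  push Not at hcon
  have h1 : ∀ n : ℕ, ((y.1 + n, y.2) : V) ∈ W := fun n => hcon n (by
    rw [mem_ball]; simp only; omega)
  have h2 : Set.Infinite (Set.range (fun n : ℕ => ((y.1 + n, y.2) : V))) := by
    apply Set.infinite_range_of_injective
    intro a b h
    simpa using h
  exact h2 ((W.finite_toSet).subset (by rintro _ ⟨n, rfl⟩; exact h1 n))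

lemma ball_mono {z : V} {r s : ℕ} (h : r ≤ s) : ball z r ⊆ ball z s := by
  intro v hv
  rw [mem_ball] at hv ⊢
  omega

lemma lt_rad {W : Finset V} {y : V} {r : ℕ} : r < rad W y ↔ ball y r ⊆ W := by
  constructor
  · intro h
    by_contra hcon
    exact absurd (Nat.sInf_le (show r ∈ {r : ℕ | ¬ ball y r ⊆ W} from hcon)) (not_le.2 h)
  · intro h
    by_contra hcon
    push Not at hcon
    have h1 : rad W y ∈ {r : ℕ | ¬ ball y r ⊆ W} := Nat.sInf_mem (exists_not_ball_subset W y)
    exact h1 ((ball_mono hcon).trans h)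

lemma rad_pos {W : Finset V} {y : V} : 0 < rad W y ↔ y ∈ W := by
  rw [lt_rad]
  constructor
  · intro h; exact h (by rw [mem_ball]; simp)
  · intro h v hv
    rw [mem_ball] at hv
    have : v = y := by ext <;> [(simp only [Nat.cast_zero] at hv; omega); (simp only [Nat.cast_zero] at hv; omega)]
    rw [this]; exact h

lemma mem_ball_symm {x y : V} {r : ℕ} : x ∈ ball y r ↔ y ∈ ball x r := by
  rw [mem_ball, mem_ball]; omega

lemma mem_ball_self (x : V) (r : ℕ) : x ∈ ball x r := by
  rw [mem_ball]; omega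

lemma mem_ball_trans {x y z : V} {r s : ℕ} (h1 : y ∈ ball x r) (h2 : z ∈ ball y s) :
    z ∈ ball x (r + s) := by
  rw [mem_ball] at *; push_cast; omega

lemma nb_ball {v w : V} (h : w ∈ nb v) : w ∈ ball v 1 := by
  obtain ⟨a, b⟩ := v
  obtain ⟨c, d⟩ := w
  simp only [nb, Finset.mem_insert, Finset.mem_singleton, Prod.mk.injEq] at h
  rw [mem_ball]
  simp only [Nat.cast_one]
  omega

end Pool.H92.GFL
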