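import Pool.Agent.helper92.GFL.K3
import Pool.Agent.helper92.GFL.G0

/-!
Green functions: Poincare inequality in dual form, finite range split, upper bound.
-/

namespace Pool.H92.GFL

open Function Finset MeasureTheory ProbabilityTheory Pool.H92.GFF
open scoped Classical ENNReal

namespace K5aux

lemma lap_sum {ι : Type*} (s : Finset ι) (f : ι → V → ℝ) (v : V) :
    lap (fun x => ∑ i ∈ s, f i x) v = ∑ i ∈ s, lap (f i) v := by
  unfold lap
  rw [Finset.sum_sub_distrib, Finset.mul_sum, Finset.sum_add_distrib, Finset.sum_add_distrib,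
    Finset.sum_add_distrib]

lemma lap_mul_right (g : V → ℝ) (c : ℝ) (v : V) :
    lap (fun x => g x * c) v = lap g v * c := by
  unfold lap; ring

/-- potential of a charge distribution -/
noncomputable def pot (I : Finset V) (a : V → ℝ) : V → ℝ := fun x => ∑ y ∈ I, a y * gr I y x

lemma pot_out {I : Finset V} {a : V → ℝ} {x : V} (hx : x ∉ I) : pot I a x = 0 := by
  unfold pot
  exact Finset.sum_eq_zero (fun y _ => by rw [gr_out hx, mul_zero])

lemma lap_pot {I : Finset V} {a : V → ℝ} {x : V} (hx : x ∈ I) : lap (pot I a) x = a x := by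
  unfold pot
  rw [lap_sum]
  have : ∀ y ∈ I, lap (fun x => a y * gr I y x) x = if x = y then a y else 0 := by
    intro y _
    rw [lap_smul, lap_gr hx]
    split_ifs <;> simp
  rw [Finset.sum_congr rfl this, Finset.sum_ite_eq I x a, if_pos hx]

lemma form_eq (I : Finset V) (a b : V → ℝ) :
    ∑ x ∈ I, ∑ y ∈ I, a x * b y * gr I y x = ∑ x ∈ I, a x * pot I b x := by
  refine Finset.sum_congr rfl (fun x _ => ?_)
  unfold pot
  rw [Finset.mul_sum]
  exact Finset.sum_congr rfl (fun y _ => by ring)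

lemma form_eq_D (I : Finset V) (a : V → ℝ) :
    ∑ x ∈ I, ∑ y ∈ I, a x * a y * gr I y x = D (pot I a) (pot I a) := by
  rw [form_eq, D_eq_sum (W := I) (fun v hv => pot_out hv)]
  exact Finset.sum_congr rfl (fun x hx => by rw [lap_pot hx])

lemma form_nonneg (I : Finset V) (a : V → ℝ) :
    0 ≤ ∑ x ∈ I, ∑ y ∈ I, a x * a y * gr I y x := by
  rw [form_eq_D]; exact D_self_nonneg _

/-- Poincare inequality -/
lemma poincare {F : V → ℝ} (hF : (support F).Finite) (n : ℕ)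
    (h0 : ∀ v : V, F v ≠ 0 → F (v + (n : ℤ) • ((1, 0) : V)) = 0) :
    ∑' v : V, F v ^ 2 ≤ (n : ℝ) ^ 2 * D F F := by
  have key : ∀ v : V, F v ^ 2 ≤ (n : ℝ) *
      ∑ k ∈ Finset.range n, (F (v + ((k + 1 : ℕ) : ℤ) • ((1, 0) : V)) -
        F (v + ((k : ℕ) : ℤ) • ((1, 0) : V))) ^ 2 := by
    intro v
    by_cases hv : F v = 0
    · rw [hv]
      have : 0 ≤ (n : ℝ) *
        ∑ k ∈ Finset.range n, (F (v + ((k + 1 : ℕ) : ℤ) • ((1, 0) : V)) -
          F (v + ((k : ℕ) : ℤ) • ((1, 0) : V))) ^ 2 :=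
        mul_nonneg (Nat.cast_nonneg _) (Finset.sum_nonneg (fun _ _ => sq_nonneg _))
      simpa using this
    · have h1 : ∑ k ∈ Finset.range n, (F (v + ((k + 1 : ℕ) : ℤ) • ((1, 0) : V)) -
          F (v + ((k : ℕ) : ℤ) • ((1, 0) : V))) = F (v + ((n : ℕ) : ℤ) • ((1, 0) : V)) -
            F (v + ((0 : ℕ) : ℤ) • ((1, 0) : V)) :=
        Finset.sum_range_sub (fun k : ℕ => F (v + ((k : ℕ) : ℤ) • ((1, 0) : V))) n
      rw [h0 v hv] at h1
      have h1' : v + ((0 : ℕ) : ℤ) • ((1, 0) : V) = v := by simp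
      rw [h1', zero_sub] at h1
      have h2 : F v ^ 2 = (∑ k ∈ Finset.range n, (F (v + ((k + 1 : ℕ) : ℤ) • ((1, 0) : V)) -
          F (v + ((k : ℕ) : ℤ) • ((1, 0) : V)))) ^ 2 := by
        rw [h1]; ring
      rw [h2]
      have h3 := sq_sum_le_card_mul_sum_sq (s := Finset.range n)
        (f := fun k : ℕ => (F (v + ((k + 1 : ℕ) : ℤ) • ((1, 0) : V)) -
          F (v + ((k : ℕ) : ℤ) • ((1, 0) : V))))
      rw [Finset.card_range] at h3
      exact h3
  have hsd : (support (fun v : V => F (v + (1, 0)) - F v)).Finite :=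
    fin_sub (fin_shift hF (1, 0)) hF
  have hs1 : Summable (fun v : V => (F (v + (1, 0)) - F v) ^ 2) := by
    have := summable_mul_right (f := fun v => F (v + (1, 0)) - F v) hsd
    exact this.congr (fun v => by ring)
  have hterm : ∀ k : ℕ, ∀ v : V, (F (v + ((k + 1 : ℕ) : ℤ) • ((1, 0) : V)) -
        F (v + ((k : ℕ) : ℤ) • ((1, 0) : V))) ^ 2 =
      (fun w : V => (F (w + (1, 0)) - F w) ^ 2) (v + (k : ℤ) • ((1, 0) : V)) := by
    intro k v
    simp only
    congr 3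
    push_cast
    rw [add_smul, one_smul, add_assoc]
  have hsk : ∀ k : ℕ, Summable (fun v : V => (F (v + ((k + 1 : ℕ) : ℤ) • ((1, 0) : V)) -
        F (v + ((k : ℕ) : ℤ) • ((1, 0) : V))) ^ 2) := by
    intro k
    have := (Equiv.addRight ((k : ℤ) • ((1, 0) : V))).summable_iff.2 hs1
    exact this.congr (fun v => by rw [hterm]; rfl)
  have htk : ∀ k : ℕ, ∑' v : V, (F (v + ((k + 1 : ℕ) : ℤ) • ((1, 0) : V)) -
        F (v + ((k : ℕ) : ℤ) • ((1, 0) : V))) ^ 2 = ∑' v : V, (F (v + (1, 0)) - F v) ^ 2 := by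
    intro k
    have := tsum_shift (fun w : V => (F (w + (1, 0)) - F w) ^ 2) ((k : ℤ) • ((1, 0) : V))
    rw [← this]
    exact tsum_congr (fun v => hterm k v)
  have hsF : Summable (fun v : V => F v ^ 2) := by
    have := summable_mul_right (f := F) hF
    exact this.congr (fun v => by ring)
  have hle1 : ∑' v : V, F v ^ 2 ≤ ∑' v : V, (n : ℝ) *
      ∑ k ∈ Finset.range n, (F (v + ((k + 1 : ℕ) : ℤ) • ((1, 0) : V)) -
        F (v + ((k : ℕ) : ℤ) • ((1, 0) : V))) ^ 2 :=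
    Summable.tsum_le_tsum key hsF ((summable_sum (fun k _ => hsk k)).mul_left _)
  have hle2 : ∑' v : V, (F (v + (1, 0)) - F v) ^ 2 ≤ D F F := by
    unfold D
    refine Summable.tsum_le_tsum (fun v => ?_) hs1 (D_summable hF)
    rw [e1_eq]
    nlinarith [sq_nonneg (F (v.1, v.2 + 1) - F v)]
  rw [tsum_mul_left, Summable.tsum_finsetSum (fun k _ => hsk k),
    Finset.sum_congr rfl (fun k _ => htk k), Finset.sum_const, Finset.card_range,
    nsmul_eq_mul] at hle1
  calc ∑' v : V, F v ^ 2 ≤ (n : ℝ) * ((n : ℝ) * ∑' v : V, (F (v + (1, 0)) - F v) ^ 2) := hle1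
    _ = (n : ℝ) ^ 2 * ∑' v : V, (F (v + (1, 0)) - F v) ^ 2 := by ring
    _ ≤ (n : ℝ) ^ 2 * D F F := mul_le_mul_of_nonneg_left hle2 (sq_nonneg _)

lemma poincare_ball {L : ℕ} {c : V} {I : Finset V} (hI : I ⊆ ball c (2 ^ L)) {F : V → ℝ}
    (hF : ∀ v ∉ I, F v = 0) : ∑ v ∈ I, F v ^ 2 ≤ 9 * 4 ^ L * D F F := by
  have h1 := poincare (F := F) (fin_of_zero_off hF) (3 * 2 ^ L) (by
    intro v hv
    have hvI : v ∈ I := by
      by_contra h; exact hv (hF v h)
    apply hF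
    intro h
    have h2 := hI hvI
    have h3 := hI h
    rw [mem_ball] at h2 h3
    have h4 : (0 : ℤ) < 2 ^ L := by positivity
    simp only [Prod.smul_mk, Prod.fst_add, Prod.snd_add, smul_eq_mul] at h3
    push_cast at h2 h3
    nlinarith [h2.1.1, h3.1.2])
  rw [tsum_eq_sum (s := I) (fun v hv => by rw [hF v hv]; ring)] at h1
  refine h1.trans (le_of_eq ?_)
  push_cast
  have : (4 : ℝ) ^ L = (2 ^ L) ^ 2 := by rw [← pow_mul, mul_comm, pow_mul]; norm_num
  rw [this]; ring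

lemma form_le {L : ℕ} {c : V} {I : Finset V} (hI : I ⊆ ball c (2 ^ L)) (a : V → ℝ) :
    ∑ x ∈ I, ∑ y ∈ I, a x * a y * gr I y x ≤ 9 * 4 ^ L * ∑ x ∈ I, a x ^ 2 := by
  set S := ∑ x ∈ I, ∑ y ∈ I, a x * a y * gr I y x with hS
  have h0 : 0 ≤ S := form_nonneg I a
  have h1 : ∑ x ∈ I, pot I a x ^ 2 ≤ 9 * 4 ^ L * S := by
    rw [hS, form_eq_D]
    exact poincare_ball hI (fun v hv => pot_out hv)
  have h2 : S ^ 2 ≤ (∑ x ∈ I, a x ^ 2) * ∑ x ∈ I, pot I a x ^ 2 := by
    rw [hS, form_eq]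
    exact Finset.sum_mul_sq_le_sq_mul_sq I a (pot I a)
  have h3 : 0 ≤ ∑ x ∈ I, a x ^ 2 := Finset.sum_nonneg (fun _ _ => sq_nonneg _)
  rcases h0.eq_or_lt with h | h
  · rw [← h]; positivity
  · have h4 : S * S ≤ (9 * 4 ^ L * ∑ x ∈ I, a x ^ 2) * S := by
      calc S * S = S ^ 2 := by ring
        _ ≤ (∑ x ∈ I, a x ^ 2) * ∑ x ∈ I, pot I a x ^ 2 := h2
        _ ≤ (∑ x ∈ I, a x ^ 2) * (9 * 4 ^ L * S) := mul_le_mul_of_nonneg_left h1 h3
        _ = (9 * 4 ^ L * ∑ x ∈ I, a x ^ 2) * S := by ring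
    exact le_of_mul_le_mul_right h4 h

lemma lap_eq_kI {I : Finset V} {H : V → ℝ} (hH : ∀ v ∉ I, H v = 0) {w : V} (hw : w ∈ I) :
    ∑ z ∈ I, 4 * kI I (1 - Polynomial.X) w z * H z = lap H w := by
  have h1 : ∀ z ∈ I, 4 * kI I (1 - Polynomial.X) w z * H z =
      lap (fun v => kI I 1 v z * H z) w := by
    intro z _
    rw [lap_mul_right (fun v => kI I 1 v z), kI_lap I 1 hw z, mul_one]
  rw [Finset.sum_congr rfl h1, ← lap_sum I (fun z v => kI I 1 v z * H z)]
  congr 1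
  ext v
  by_cases hv : v ∈ I
  · rw [Finset.sum_eq_single v]
    · rw [kI_one, if_pos ⟨rfl, hv⟩, one_mul]
    · intro z _ hz
      rw [kI_one, if_neg (fun h => hz h.1.symm), zero_mul]
    · intro h; exact absurd hv h
  · rw [hH v hv]
    refine Finset.sum_eq_zero (fun z _ => ?_)
    rw [kI_one, if_neg (fun h => hv h.2), zero_mul]

/-- the kernel of a polynomial commutes with the Laplacian -/
lemma lap_kI_conv {I : Finset V} (p : Polynomial ℝ) {H : V → ℝ} (hH : ∀ v ∉ I, H v = 0)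
    {x : V} (hx : x ∈ I) :
    lap (fun v => ∑ z ∈ I, kI I p v z * H z) x = ∑ w ∈ I, kI I p x w * lap H w := by
  rw [lap_sum I (fun z v => kI I p v z * H z)]
  have h1 : ∀ z ∈ I, lap (fun v => kI I p v z * H z) x =
      ∑ w ∈ I, kI I p x w * (4 * kI I (1 - Polynomial.X) w z * H z) := by
    intro z _
    rw [lap_mul_right (fun v => kI I p v z), kI_lap I p hx z,
      mul_comm (1 - Polynomial.X) p, ← kI_mul I p (1 - Polynomial.X), Finset.mul_sum,
      Finset.sum_mul]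
    exact Finset.sum_congr rfl (fun w _ => by ring)
  rw [Finset.sum_congr rfl h1, Finset.sum_comm]
  refine Finset.sum_congr rfl (fun w hw => ?_)
  rw [← Finset.mul_sum, lap_eq_kI hH hw]

lemma cpol_tele (J : ℕ) :
    ∑ j ∈ Finset.range J, 4 * ((1 - Polynomial.X) * cpol j) = 1 - (Ep J) ^ 2 := by
  rw [Finset.sum_congr rfl (fun j _ => cpol_lap j)]
  have := Finset.sum_range_sub' (fun j => (Ep j) ^ 2) J
  rw [this]
  simp [Ep]

lemma kI_four_mul (I : Finset V) (p : Polynomial ℝ) (x y : V) :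
    kI I (4 * p) x y = 4 * kI I p x y := by
  have : (4 : Polynomial ℝ) = Polynomial.C 4 := (map_ofNat Polynomial.C 4).symm
  rw [this, kI_C_mul]

lemma split (I : Finset V) (J : ℕ) (x y : V) :
    gr I y x = ∑ j ∈ Finset.range J, kI I (cpol j) x y +
      ∑ z ∈ I, ∑ z' ∈ I, kI I (Ep J) x z * gr I z' z * kI I (Ep J) z' y := by
  set H : V → ℝ := pot I (fun z' => kI I (Ep J) z' y) with hH
  have hH0 : ∀ v ∉ I, H v = 0 := fun v hv => pot_out hv
  have e : ∀ v, ∑ z ∈ I, ∑ z' ∈ I, kI I (Ep J) v z * gr I z' z * kI I (Ep J) z' y =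
      ∑ z ∈ I, kI I (Ep J) v z * H z := by
    intro v
    refine Finset.sum_congr rfl (fun z _ => ?_)
    rw [hH]
    unfold pot
    rw [Finset.mul_sum]
    exact Finset.sum_congr rfl (fun z' _ => by ring)
  rw [e]
  refine eq_of_lap I (f := gr I y) (g := fun v => ∑ j ∈ Finset.range J, kI I (cpol j) v y +
      ∑ z ∈ I, kI I (Ep J) v z * H z) (fun v hv => ?_) (fun v hv => ?_) x
  · rw [lap_gr hv, lap_add (fun v => ∑ j ∈ Finset.range J, kI I (cpol j) v y)
      (fun v => ∑ z ∈ I, kI I (Ep J) v z * H z), lap_kI_conv _ hH0 hv,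
      lap_sum (Finset.range J) (fun j v => kI I (cpol j) v y)]
    have h1 : ∀ j ∈ Finset.range J, lap (fun v => kI I (cpol j) v y) v =
        kI I (4 * ((1 - Polynomial.X) * cpol j)) v y := by
      intro j _
      rw [kI_lap I _ hv, kI_four_mul]
    rw [Finset.sum_congr rfl h1, ← kI_sum, cpol_tele, kI_sub]
    have h2 : ∀ w ∈ I, kI I (Ep J) v w * lap H w = kI I (Ep J) v w * kI I (Ep J) w y := by
      intro w hw
      rw [hH, lap_pot hw]
    rw [Finset.sum_congr rfl h2, kI_mul, kI_one, ← sq]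
    by_cases hvy : v = y
    · rw [if_pos hvy, if_pos ⟨hvy, hv⟩]; ring
    · rw [if_neg hvy, if_neg (fun h => hvy h.1)]; ring
  · rw [gr_out hv, Finset.sum_eq_zero (fun j _ => kI_out I _ (Or.inl hv)),
      Finset.sum_eq_zero (fun z _ => by rw [kI_out I _ (Or.inl hv), zero_mul]), add_zero]

lemma sq_sum_le (I : Finset V) (L : ℕ) (x : V) :
    ∑ z ∈ I, kI I (Ep L) x z ^ 2 ≤ 128 / 4 ^ L := by
  have h := kI_Ep_diag I L x
  rw [sq, ← kI_mul] at h
  refine le_trans (le_of_eq ?_) h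
  refine Finset.sum_congr rfl (fun z _ => ?_)
  rw [kI_symm I (Ep L) z x]; ring

/-- the remainder term at scale `L` -/
lemma rem_le {L : ℕ} {c : V} {I : Finset V} (hI : I ⊆ ball c (2 ^ L)) (x y : V) :
    ∑ z ∈ I, ∑ z' ∈ I, kI I (Ep L) x z * gr I z' z * kI I (Ep L) z' y ≤ 1152 := by
  set a : V → ℝ := fun z => kI I (Ep L) x z with ha
  set b : V → ℝ := fun z => kI I (Ep L) y z with hb
  have e1 : ∑ z ∈ I, ∑ z' ∈ I, kI I (Ep L) x z * gr I z' z * kI I (Ep L) z' y =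
      ∑ z ∈ I, ∑ z' ∈ I, a z * b z' * gr I z' z := by
    refine Finset.sum_congr rfl (fun z _ => Finset.sum_congr rfl (fun z' _ => ?_))
    rw [kI_symm I (Ep L) z' y]; ring
  have e2 : ∑ z ∈ I, ∑ z' ∈ I, a z * b z' * gr I z' z =
      ∑ z ∈ I, ∑ z' ∈ I, b z * a z' * gr I z' z := by
    rw [Finset.sum_comm]
    refine Finset.sum_congr rfl (fun z _ => Finset.sum_congr rfl (fun z' _ => ?_))
    rw [gr_symm I z z']; ring
  have h1 := form_nonneg I (fun z => a z - b z)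
  have h2 : ∑ z ∈ I, ∑ z' ∈ I, (a z - b z) * (a z' - b z') * gr I z' z =
      ∑ z ∈ I, ∑ z' ∈ I, a z * a z' * gr I z' z + ∑ z ∈ I, ∑ z' ∈ I, b z * b z' * gr I z' z -
        (∑ z ∈ I, ∑ z' ∈ I, a z * b z' * gr I z' z +
          ∑ z ∈ I, ∑ z' ∈ I, b z * a z' * gr I z' z) := by
    simp only [← Finset.sum_add_distrib, ← Finset.sum_sub_distrib]
    refine Finset.sum_congr rfl (fun z _ => Finset.sum_congr rfl (fun z' _ => ?_))
    ring
  rw [h2, ← e2] at h1
  have h3 := form_le hI a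
  have h4 := form_le hI b
  have h5 : ∑ z ∈ I, a z ^ 2 ≤ 128 / 4 ^ L := sq_sum_le I L x
  have h6 : ∑ z ∈ I, b z ^ 2 ≤ 128 / 4 ^ L := sq_sum_le I L y
  have h7 : (9 : ℝ) * 4 ^ L * ∑ z ∈ I, a z ^ 2 ≤ 1152 := by
    calc (9 : ℝ) * 4 ^ L * ∑ z ∈ I, a z ^ 2 ≤ 9 * 4 ^ L * (128 / 4 ^ L) :=
          mul_le_mul_of_nonneg_left h5 (by positivity)
      _ = 1152 := by field_simp; norm_num
  have h8 : (9 : ℝ) * 4 ^ L * ∑ z ∈ I, b z ^ 2 ≤ 1152 := by
    calc (9 : ℝ) * 4 ^ L * ∑ z ∈ I, b z ^ 2 ≤ 9 * 4 ^ L * (128 / 4 ^ L) :=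
          mul_le_mul_of_nonneg_left h6 (by positivity)
      _ = 1152 := by field_simp; norm_num
  rw [e1]
  linarith

end K5aux

open K5aux

/-- Poincare inequality in dual form -/
theorem gr_form_le : ∃ C : ℝ, 0 < C ∧ ∀ (L : ℕ) (c : V) (I : Finset V), I ⊆ ball c (2 ^ L) →
    ∀ a : V → ℝ, ∑ x ∈ I, ∑ y ∈ I, a x * a y * gr I y x ≤ C * 4 ^ L * ∑ x ∈ I, a x ^ 2 :=
  ⟨9, by norm_num, fun _ _ _ hI a => form_le hI a⟩

theorem gr_split (I : Finset V) (J : ℕ) {x y : V} (_hx : x ∈ I) (_hy : y ∈ I) :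
    gr I y x = ∑ j ∈ Finset.range J, kI I (cpol j) x y +
      ∑ z ∈ I, ∑ z' ∈ I, kI I (Ep J) x z * gr I z' z * kI I (Ep J) z' y :=
  split I J x y

/-- upper bound for the Green function -/
theorem gr_upper : ∃ C : ℝ, 0 < C ∧ ∀ (L j : ℕ) (c : V) (I : Finset V), I ⊆ ball c (2 ^ L) →
    j ≤ L → ∀ x y : V, (j = 0 ∨ x ∉ ball y (2 ^ j)) → gr I y x ≤ C * ((L : ℝ) - j + 1) := by
  refine ⟨1184, by norm_num, fun L j c I hI hj x y hxy => ?_⟩
  have hjL : (j : ℝ) ≤ L := by exact_mod_cast hj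
  have hpos : (1 : ℝ) ≤ (L : ℝ) - j + 1 := by linarith
  by_cases hx : x ∈ I
  swap
  · rw [gr_out hx]; positivity
  by_cases hy : y ∈ I
  swap
  · rw [gr_pole_out hy]; positivity
  rw [gr_split I L hx hy]
  have h1 := rem_le hI x y
  have h2 : ∑ i ∈ Finset.range L, kI I (cpol i) x y ≤ 32 * ((L : ℝ) - j + 1) := by
    have hb : ∀ i, kI I (cpol i) x y ≤ 32 := fun i =>
      (le_abs_self _).trans (kI_abs_le I (cpol i) (fun t ht => cpol_nonneg i ht)
        (fun v => kI_cpol_diag I i v) x y)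
    have hz : ∀ i, i + 2 ≤ j → kI I (cpol i) x y = 0 := by
      intro i hi
      apply kI_far
      rcases hxy with h | h
      · omega
      · have h3 := natDegree_cpol_lt i
        have h4 : (4 * 2 ^ i : ℕ) ≤ 2 ^ j := by
          calc (4 * 2 ^ i : ℕ) = 2 ^ (i + 2) := by ring
            _ ≤ 2 ^ j := Nat.pow_le_pow_right (by norm_num) hi
        have h5 : ((cpol i).natDegree : ℤ) < ((2 ^ j : ℕ) : ℤ) := by exact_mod_cast h3.trans_le h4
        refine h5.trans ?_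
        rw [mem_ball] at h
        by_contra hcon
        push Not at hcon
        apply h
        have h6 := abs_le.1 ((le_add_of_nonneg_right (abs_nonneg (x.2 - y.2))).trans hcon)
        have h7 := abs_le.1 ((le_add_of_nonneg_left (abs_nonneg (x.1 - y.1))).trans hcon)
        constructor <;> constructor <;> linarith [h6.1, h6.2, h7.1, h7.2]
    calc ∑ i ∈ Finset.range L, kI I (cpol i) x y
        = ∑ i ∈ (Finset.range L).filter (fun i => ¬ (i + 2 ≤ j)), kI I (cpol i) x y := by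
          rw [Finset.sum_filter_of_ne]
          intro i _ hne h
          exact hne (hz i h)
      _ ≤ ∑ i ∈ (Finset.range L).filter (fun i => ¬ (i + 2 ≤ j)), (32 : ℝ) :=
          Finset.sum_le_sum (fun i _ => hb i)
      _ = (((Finset.range L).filter (fun i => ¬ (i + 2 ≤ j))).card : ℝ) * 32 := by
          rw [Finset.sum_const, nsmul_eq_mul]
      _ ≤ ((L : ℝ) - j + 1) * 32 := by
          refine mul_le_mul_of_nonneg_right ?_ (by norm_num)
          have hsub : (Finset.range L).filter (fun i => ¬ (i + 2 ≤ j)) ⊆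
              Finset.Ico (j - 1) L := by
            intro i hi
            rw [Finset.mem_filter, Finset.mem_range] at hi
            rw [Finset.mem_Ico]; omega
          have hcard := Finset.card_le_card hsub
          rw [Nat.card_Ico] at hcard
          have h9 : ((Finset.range L).filter (fun i => ¬ (i + 2 ≤ j))).card + j ≤ L + 1 := by
            omega
          have h10 : (((Finset.range L).filter (fun i => ¬ (i + 2 ≤ j))).card : ℝ) + j ≤ L + 1 := by
            exact_mod_cast h9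
          linarith
      _ = 32 * ((L : ℝ) - j + 1) := by ring
  calc _ ≤ 32 * ((L : ℝ) - j + 1) + 1152 := add_le_add h2 h1
    _ ≤ 32 * ((L : ℝ) - j + 1) + 1152 * ((L : ℝ) - j + 1) := by nlinarith
    _ = 1184 * ((L : ℝ) - j + 1) := by ring

end Pool.H92.GFL
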