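import Pool.Agent.helper92.GFL.Defs
import Pool.Agent.helper92.GFL.G0

/-!
Lower bound for the Green function of a square in its bulk.
-/

namespace Pool.H92.GFL

open Function Finset MeasureTheory ProbabilityTheory Pool.H92.GFF
open scoped Classical ENNReal

namespace P2

/-- maximum principle on a half plane -/
lemma half (W : Finset V) (P : V → Prop) (h : V → ℝ) (h1 : ∀ v ∈ W, P v → 0 ≤ lap h v)
    (h2 : ∀ v ∉ W, P v → 0 ≤ h v) (h3 : ∀ v, P v → h v < 0 → ∀ w ∈ nb v, ¬ P w → 0 ≤ h w) :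
    ∀ v, P v → 0 ≤ h v := by
  intro v hv
  have hnp : ∀ w, (if P w then min (h w) 0 else 0) ≤ 0 := by
    intro w; split_ifs
    · exact min_le_right _ _
    · exact le_rfl
  have key := max_principle W (fun v => if P v then min (h v) 0 else 0) (fun v hv => by
    rw [lap_eq_sum]
    by_cases hP : P v ∧ h v < 0
    · have e : (if P v then min (h v) 0 else 0) = h v := by
        rw [if_pos hP.1, min_eq_left hP.2.le]
      have h4 : ∑ w ∈ nb v, (if P w then min (h w) 0 else 0) ≤ ∑ w ∈ nb v, h w := by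
        refine Finset.sum_le_sum (fun w hw => ?_)
        split_ifs with hw'
        · exact min_le_left _ _
        · exact h3 v hP.1 hP.2 w hw hw'
      have h5 := h1 v hv hP.1
      rw [lap_eq_sum] at h5
      simp only [e]
      linarith
    · have e : (if P v then min (h v) 0 else 0) = 0 := by
        split_ifs with h'
        · exact min_eq_right (not_lt.1 fun h6 => hP ⟨h', h6⟩)
        · rfl
      have h4 : ∑ w ∈ nb v, (if P w then min (h w) 0 else 0) ≤ 0 :=
        Finset.sum_nonpos (fun w _ => hnp w)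
      simp only [e]
      linarith) (fun v hv => by
    split_ifs with h'
    · rw [min_eq_right (h2 v hv h')]
    · exact le_rfl) v
  simp only [if_pos hv] at key
  exact le_trans key (min_le_left _ _)

variable {R : ℕ}

lemma zmem (R : ℕ) {v : V} : v ∈ ball 0 R ↔ (-(R : ℤ) ≤ v.1 ∧ v.1 ≤ R) ∧ (-(R : ℤ) ≤ v.2 ∧ v.2 ≤ R) := by
  rw [mem_ball]; simp

lemma ne_zero_of {v : V} (h : v.1 ≠ 0 ∨ v.2 ≠ 0) : v ≠ 0 := by
  rintro rfl; simp at h

/-- Green function of the square with pole at the centre -/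
noncomputable def g (R : ℕ) : V → ℝ := gr (ball 0 R) 0

lemma g_nonneg (v : V) : 0 ≤ g R v := gr_nonneg _ _ _

lemma g_out {v : V} (hv : v ∉ ball 0 R) : g R v = 0 := gr_out hv

lemma lap_g {v : V} (hv : v ∈ ball 0 R) : lap (g R) v = if v = 0 then 1 else 0 := lap_gr hv

lemma lap_g_nonneg {v : V} (hv : v ∈ ball 0 R) : 0 ≤ lap (g R) v := by
  rw [lap_g hv]; split_ifs <;> norm_num

lemma lap_g_nonpos {v : V} (hv : v ≠ 0) : lap (g R) v ≤ 0 := by
  by_cases h : v ∈ ball 0 R
  · rw [lap_g h, if_neg hv]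
  · rw [lap_eq_sum, g_out h]
    have := Finset.sum_nonneg (fun w (_ : w ∈ nb v) => g_nonneg (R := R) w)
    linarith

lemma g_swap (v : V) : g R (v.2, v.1) = g R v := by
  refine eq_of_lap (ball 0 R) (f := fun v : V => g R (v.2, v.1)) (fun v hv => ?_) (fun v hv => ?_) v
  · have h1 : ((v.2, v.1) : V) ∈ ball 0 R := by rw [zmem] at hv ⊢; exact ⟨hv.2, hv.1⟩
    have h2 : lap (fun v : V => g R (v.2, v.1)) v = lap (g R) (v.2, v.1) := by
      unfold lap; ring
    rw [h2, lap_g hv, lap_g h1]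
    congr 1
    simp only [Prod.ext_iff, Prod.fst_zero, Prod.snd_zero, eq_iff_iff]
    tauto
  · rw [zmem] at hv
    rw [g_out (by rw [zmem]; simp only; tauto), g_out (by rw [zmem]; exact hv)]

lemma g_neg1 (v : V) : g R (-v.1, v.2) = g R v := by
  refine eq_of_lap (ball 0 R) (f := fun v : V => g R (-v.1, v.2)) (fun v hv => ?_)
    (fun v hv => ?_) v
  · have h1 : ((-v.1, v.2) : V) ∈ ball 0 R := by rw [zmem] at hv ⊢; simp only; omega
    have h2 : lap (fun v : V => g R (-v.1, v.2)) v = lap (g R) (-v.1, v.2) := by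
      unfold lap
      simp only
      rw [show -(v.1 + 1) = -v.1 - 1 by ring, show -(v.1 - 1) = -v.1 + 1 by ring]
      ring
    rw [h2, lap_g hv, lap_g h1]
    congr 1
    simp only [Prod.ext_iff, Prod.fst_zero, Prod.snd_zero, neg_eq_zero]
  · rw [zmem] at hv
    rw [g_out (by rw [zmem]; simp only; omega), g_out (by rw [zmem]; exact hv)]

lemma g_step {v : V} (hv : 0 ≤ v.1) : g R (v.1 + 1, v.2) ≤ g R v := by
  have key := half (ball 0 R) (fun v => 0 ≤ v.1) (fun v => g R v - g R (v.1 + 1, v.2))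
    (fun v hv hP => by
      rw [lap_sub]
      have h2 : lap (fun v : V => g R (v.1 + 1, v.2)) v = lap (g R) (v.1 + 1, v.2) := by
        unfold lap
        simp only
        rw [show v.1 + 1 - 1 = v.1 - 1 + 1 by ring]
      rw [h2]
      have h3 := lap_g_nonneg hv
      have h4 := lap_g_nonpos (R := R) (v := ((v.1 + 1, v.2) : V))
        (ne_zero_of (by left; simp only; omega))
      linarith)
    (fun v hv hP => by
      rw [zmem] at hv
      rw [g_out (v := ((v.1 + 1, v.2) : V)) (by rw [zmem]; simp only; omega), sub_zero]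
      exact g_nonneg _)
    (fun v hP hv w hw hw' => by
      have e1 : w = (v.1 - 1, v.2) ∧ v.1 = 0 := by
        obtain ⟨a, b⟩ := v
        obtain ⟨c, d⟩ := w
        simp only [nb, Finset.mem_insert, Finset.mem_singleton, Prod.mk.injEq] at hw ⊢
        simp only at hw' hP
        omega
      obtain ⟨e1, e2⟩ := e1
      subst e1
      simp only
      have h5 := g_neg1 (R := R) (((v.1 + 1, v.2) : V))
      simp only at h5
      rw [show v.1 - 1 + 1 = v.1 by ring, show v.1 - 1 = -(v.1 + 1) by omega, h5]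
      have : g R (v.1, v.2) = g R v := rfl
      linarith) v hv
  linarith

lemma g_mono1 {a a' b : ℤ} (ha : 0 ≤ a) (h : a ≤ a') : g R (a', b) ≤ g R (a, b) := by
  obtain ⟨n, rfl⟩ := Int.le.dest h
  clear h
  induction n with
  | zero => simp
  | succ n ih =>
    have := g_step (R := R) (v := ((a + n, b) : V)) (by simp only; omega)
    simp only at this
    rw [show a + ((n + 1 : ℕ) : ℤ) = a + n + 1 by push_cast; ring]
    exact this.trans ih

lemma g_mono2 {a b b' : ℤ} (ha : 0 ≤ b) (h : b ≤ b') : g R (a, b') ≤ g R (a, b) := by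
  rw [← g_swap, ← g_swap (v := ((a, b) : V))]
  exact g_mono1 ha h

lemma g_diag {k : ℤ} (hk : 0 ≤ k) {v : V} (hv : k < v.1 - v.2) : g R v ≤ g R (v.2 + k, v.1 - k) := by
  have key := half (ball 0 R) (fun v => k < v.1 - v.2) (fun v => g R (v.2 + k, v.1 - k) - g R v)
    (fun v hv hP => by
      rw [lap_sub]
      have h2 : lap (fun v : V => g R (v.2 + k, v.1 - k)) v = lap (g R) (v.2 + k, v.1 - k) := by
        unfold lap
        simp only
        rw [show v.1 + 1 - k = v.1 - k + 1 by ring, show v.1 - 1 - k = v.1 - k - 1 by ring,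
          show v.2 + 1 + k = v.2 + k + 1 by ring, show v.2 - 1 + k = v.2 + k - 1 by ring]
        ring
      rw [h2]
      have h3 := lap_g_nonneg (R := R) (v := ((v.2 + k, v.1 - k) : V))
        (by rw [zmem] at hv ⊢; simp only; omega)
      have h4 := lap_g_nonpos (R := R) (v := v)
        (ne_zero_of (by omega))
      have h5 : lap (fun v => g R v) v = lap (g R) v := rfl
      rw [h5]
      linarith)
    (fun v hv hP => by
      rw [g_out hv, sub_zero]
      exact g_nonneg _)
    (fun v hP hv w hw hw' => by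
      have e1 : w.2 + k = w.1 := by
        obtain ⟨a, b⟩ := v
        obtain ⟨c, d⟩ := w
        simp only [nb, Finset.mem_insert, Finset.mem_singleton, Prod.mk.injEq] at hw ⊢
        simp only at hw' hP
        omega
      rw [e1, show w.1 - k = w.2 by omega]
      have : g R (w.1, w.2) = g R w := rfl
      rw [this, sub_self]) v hv
  linarith

lemma g_abs (v : V) : g R (|v.1|, |v.2|) = g R v := by
  have h1 : ∀ v : V, g R (|v.1|, v.2) = g R v := by
    intro v
    rcases abs_choice v.1 with h | h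
    · rw [h]
    · rw [h, g_neg1]
  rw [← g_swap, show ((((|v.1|, |v.2|) : V).2, ((|v.1|, |v.2|) : V).1) : V) = (|v.2|, |v.1|) from rfl]
  have h2 := h1 ((v.2, |v.1|) : V)
  simp only at h2
  rw [h2]
  have h3 := g_swap (R := R) ((|v.1|, v.2) : V)
  simp only at h3
  rw [h3, h1]

lemma g_near {n : ℕ} {v : V} (h1 : |v.1| ≤ n) (h2 : |v.2| ≤ n) : g R (n, n) ≤ g R v := by
  rw [← g_abs v]
  exact (g_mono1 (abs_nonneg _) h1).trans (g_mono2 (abs_nonneg _) h2)

lemma g_far {n : ℕ} {v : V} (h : (2 * n : ℤ) ≤ |v.1| ∨ (2 * n : ℤ) ≤ |v.2|) :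
    g R v ≤ g R (n, n) := by
  have key : ∀ a b : ℤ, 0 ≤ b → b ≤ a → (2 * n : ℤ) ≤ a → g R (a, b) ≤ g R (n, n) := by
    intro a b hb hba ha
    rcases le_or_gt (n : ℤ) b with h1 | h1
    · exact (g_mono1 (by positivity) (by omega : (n : ℤ) ≤ a)).trans (g_mono2 (by positivity) h1)
    · have h2 := g_diag (R := R) (k := n) (by positivity) (v := ((a, b) : V)) (by simp only; omega)
      simp only at h2
      exact h2.trans ((g_mono1 (by positivity) (by omega : (n : ℤ) ≤ b + n)).trans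
        (g_mono2 (by positivity) (by omega)))
  rw [← g_abs v]
  rcases le_total |v.2| |v.1| with h1 | h1
  · exact key _ _ (abs_nonneg _) h1 (by omega)
  · rw [← g_swap]
    exact key _ _ (abs_nonneg _) h1 (by simp only; omega)

lemma g_repr {f : V → ℝ} (hf : ∀ v ∉ ball 0 R, f v = 0) :
    f 0 = ∑ y ∈ ball 0 R, g R y * lap f y := by
  rw [gr_repr hf 0]
  exact Finset.sum_congr rfl (fun y _ => by rw [gr_symm]; rfl)

lemma sum_lower : ((R : ℝ) + 1) ^ 2 / 4 ≤ ∑ y ∈ ball 0 R, g R y := by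
  set q : V → ℝ := fun v => (((R : ℝ) + 1) ^ 2 - (v.1 : ℝ) ^ 2 - (v.2 : ℝ) ^ 2) / 4 with hq
  have hlq : ∀ v, lap q v = 1 := by
    intro v; simp only [lap, hq]; push_cast; ring
  have h0 : ∀ v ∉ ball 0 R, max (q v) 0 = 0 := by
    intro v hv
    rw [zmem] at hv
    apply max_eq_right
    have h1 : ((R : ℤ) + 1) ^ 2 ≤ v.1 ^ 2 + v.2 ^ 2 := by
      have : (R : ℤ) + 1 ≤ |v.1| ∨ (R : ℤ) + 1 ≤ |v.2| := by
        rw [le_abs, le_abs]; omega
      rcases this with h | h
      · have := pow_le_pow_left₀ (by positivity) h 2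
        rw [sq_abs] at this
        nlinarith [sq_nonneg v.2]
      · have := pow_le_pow_left₀ (by positivity) h 2
        rw [sq_abs] at this
        nlinarith [sq_nonneg v.1]
    have h2 : ((R : ℝ) + 1) ^ 2 ≤ (v.1 : ℝ) ^ 2 + (v.2 : ℝ) ^ 2 := by exact_mod_cast h1
    simp only [hq]
    linarith
  have h1 := g_repr (R := R) (f := fun v => max (q v) 0) h0
  have h2 : ∀ v, lap (fun v => max (q v) 0) v ≤ 1 := by
    intro v
    rw [lap_eq_sum]
    rcases le_total 0 (q v) with h | h
    · rw [max_eq_left h]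
      have h3 : ∑ w ∈ nb v, q w ≤ ∑ w ∈ nb v, max (q w) 0 :=
        Finset.sum_le_sum (fun w _ => le_max_left _ _)
      have h4 := hlq v
      rw [lap_eq_sum] at h4
      linarith
    · rw [max_eq_right h]
      have h3 : 0 ≤ ∑ w ∈ nb v, max (q w) 0 :=
        Finset.sum_nonneg (fun w _ => le_max_right _ _)
      linarith
  have h3 : ((R : ℝ) + 1) ^ 2 / 4 ≤ max (q 0) 0 := by
    refine le_trans (le_of_eq ?_) (le_max_left _ _)
    simp [hq]
  refine h3.trans ?_
  rw [h1]
  exact Finset.sum_le_sum (fun v _ => mul_le_of_le_one_right (g_nonneg v) (h2 v))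

/-- one-dimensional comparison function -/
noncomputable def w1 (m L : ℕ) (a : ℤ) : ℝ :=
  if |a| ≤ m then ((m : ℝ) + 1 / 2) * (L - m) + (m : ℝ) ^ 2 / 2 - (a : ℝ) ^ 2 / 2
  else ((m : ℝ) + 1 / 2) * (L - |(a : ℝ)|)

lemma w1_in {m L : ℕ} {a : ℤ} (h : |a| ≤ m + 1) :
    w1 m L a = ((m : ℝ) + 1 / 2) * (L - m) + (m : ℝ) ^ 2 / 2 - (a : ℝ) ^ 2 / 2 := by
  unfold w1
  split_ifs with h1
  · rfl
  · have h2 : |a| = m + 1 := by omega
    have h3 : |(a : ℝ)| = m + 1 := by exact_mod_cast h2
    rw [h3, ← sq_abs (a : ℝ), h3]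
    ring

lemma w1_out {m L : ℕ} {a : ℤ} (h : (m : ℤ) ≤ |a|) :
    w1 m L a = ((m : ℝ) + 1 / 2) * (L - |(a : ℝ)|) := by
  unfold w1
  split_ifs with h1
  · have h2 : |a| = m := by omega
    have h3 : |(a : ℝ)| = m := by exact_mod_cast h2
    rw [h3, ← sq_abs (a : ℝ), h3]
    ring
  · rfl

lemma w1_conc {m L : ℕ} (a : ℤ) : (if |a| ≤ m then (1 : ℝ) else 0) ≤
    2 * w1 m L a - w1 m L (a + 1) - w1 m L (a - 1) := by
  split_ifs with h
  · rw [abs_le] at h
    rw [w1_in (by rw [abs_le]; omega), w1_in (by rw [abs_le]; omega),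
      w1_in (by rw [abs_le]; omega)]
    push_cast
    apply le_of_eq
    ring
  · rw [not_le, lt_abs] at h
    rw [w1_out (by rw [le_abs]; omega), w1_out (by rw [le_abs]; omega),
      w1_out (by rw [le_abs]; omega)]
    rcases h with h | h
    · have h1 : (1 : ℝ) ≤ a := by exact_mod_cast (by omega : 1 ≤ a)
      push_cast
      rw [abs_of_nonneg (by linarith), abs_of_nonneg (by linarith), abs_of_nonneg (by linarith)]
      apply le_of_eq
      ring
    · have h1 : (a : ℝ) ≤ -1 := by exact_mod_cast (by omega : a ≤ -1)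
      push_cast
      rw [abs_of_nonpos (by linarith), abs_of_nonpos (by linarith), abs_of_nonpos (by linarith)]
      apply le_of_eq
      ring

lemma w1_nonneg {m L : ℕ} (hm : m ≤ L) {a : ℤ} (ha : |a| ≤ L) : 0 ≤ w1 m L a := by
  have hm' : (m : ℝ) ≤ L := by exact_mod_cast hm
  unfold w1
  split_ifs with h1
  · have h2 : |(a : ℝ)| ≤ m := by exact_mod_cast h1
    have h3 : (a : ℝ) ^ 2 ≤ (m : ℝ) ^ 2 := by
      rw [← sq_abs]; exact pow_le_pow_left₀ (abs_nonneg _) h2 2
    have h4 : 0 ≤ ((m : ℝ) + 1 / 2) * (L - m) := mul_nonneg (by positivity) (by linarith)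
    linarith
  · have h2 : |(a : ℝ)| ≤ L := by exact_mod_cast ha
    exact mul_nonneg (by positivity) (by linarith)

lemma sum_upper {m : ℕ} (hm : m ≤ R) : ∑ y ∈ ball 0 m, g R y ≤
    ((m : ℝ) + 1 / 2) * (R + 1 - m) + (m : ℝ) ^ 2 / 2 := by
  set f : V → ℝ := fun v => if v ∈ ball 0 R then w1 m (R + 1) v.1 else 0 with hf
  have h1 := g_repr (R := R) (f := f) (fun v hv => by simp only [hf, if_neg hv])
  have h2 : ∀ v ∈ ball 0 R, (if |v.1| ≤ m then (1 : ℝ) else 0) ≤ lap f v := by
    intro v hv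
    refine (w1_conc (m := m) (L := R + 1) v.1).trans ?_
    have h3 : ∀ w ∈ nb v, f w ≤ w1 m (R + 1) w.1 := by
      intro w hw
      simp only [hf]
      split_ifs with h
      · exact le_rfl
      · refine w1_nonneg (by omega) ?_
        obtain ⟨a, b⟩ := v
        obtain ⟨c, d⟩ := w
        rw [zmem] at hv
        simp only [nb, Finset.mem_insert, Finset.mem_singleton, Prod.mk.injEq] at hw
        simp only at hv ⊢
        rw [abs_le]
        push_cast
        omega
    have h4 : f v = w1 m (R + 1) v.1 := by simp only [hf, if_pos hv]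
    rw [lap_eq_sum, h4]
    have h5 : ∑ w ∈ nb v, f w ≤ ∑ w ∈ nb v, w1 m (R + 1) w.1 := Finset.sum_le_sum h3
    have h6 := lap_eq_sum (fun w : V => w1 m (R + 1) w.1) v
    simp only [lap] at h6
    linarith
  have h7 : f 0 = ((m : ℝ) + 1 / 2) * (R + 1 - m) + (m : ℝ) ^ 2 / 2 := by
    simp only [hf]
    rw [if_pos (by rw [zmem]; simp), w1_in (by simp; positivity)]
    push_cast
    simp
  rw [← h7, h1]
  have hsub : ball 0 m ⊆ ball 0 R := ball_mono hm
  refine le_trans ?_ (Finset.sum_le_sum_of_subset_of_nonneg hsub (fun v hv _ =>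
    mul_nonneg (g_nonneg v) (le_trans ?_ (h2 v hv))))
  · refine Finset.sum_le_sum (fun v hv => ?_)
    have h8 := h2 v (hsub hv)
    rw [zmem] at hv
    rw [if_pos (by rw [abs_le]; exact hv.1)] at h8
    exact le_mul_of_one_le_right (g_nonneg v) h8
  · split_ifs <;> norm_num

lemma card_ball (R : ℕ) : ((ball 0 R).card : ℝ) = (2 * R + 1) ^ 2 := by
  have : (ball 0 R).card = (2 * R + 1) ^ 2 := by
    unfold ball
    rw [Finset.card_product, Int.card_Icc]
    simp only [Prod.fst_zero, Prod.snd_zero, Int.card_Icc]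
    have : ((0 : ℤ) + R + 1 - (0 - R)).toNat = 2 * R + 1 := by omega
    rw [this]
    ring
  rw [this]; push_cast; ring

lemma g_lower {r : ℕ} (hr : 1 ≤ r) : 1 / 256 ≤ g (15 * r) (((2 * r : ℕ) : ℤ), ((2 * r : ℕ) : ℤ)) := by
  set γ := g (15 * r) (((2 * r : ℕ) : ℤ), ((2 * r : ℕ) : ℤ)) with hγ
  have h1 := sum_lower (R := 15 * r)
  have h2 := sum_upper (R := 15 * r) (m := 4 * r - 1) (by omega)
  have hsub : ball 0 (4 * r - 1) ⊆ ball 0 (15 * r) := ball_mono (by omega)
  have hγ0 : 0 ≤ γ := g_nonneg _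
  have h3 : ∑ y ∈ ball 0 (15 * r) \ ball 0 (4 * r - 1), g (15 * r) y ≤
      (2 * ((15 * r : ℕ) : ℝ) + 1) ^ 2 * γ := by
    rw [← card_ball]
    refine le_trans (Finset.sum_le_card_nsmul _ _ γ (fun v hv => ?_)) ?_
    · rw [Finset.mem_sdiff, zmem, zmem] at hv
      refine g_far (n := 2 * r) ?_
      rw [le_abs, le_abs]
      push_cast
      omega
    · rw [nsmul_eq_mul]
      refine mul_le_mul_of_nonneg_right ?_ hγ0
      exact_mod_cast Finset.card_le_card Finset.sdiff_subset
  have h4 := Finset.sum_sdiff hsub (f := g (15 * r))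
  have hr' : (1 : ℝ) ≤ r := by exact_mod_cast hr
  have hc : ((4 * r - 1 : ℕ) : ℝ) = 4 * r - 1 := by
    rw [Nat.cast_sub (by omega)]; push_cast; ring
  rw [hc] at h2
  push_cast at h1 h2 h3
  have h5 : (17 / 4 : ℝ) * r ^ 2 ≤ (2 * (15 * (r : ℝ)) + 1) ^ 2 * γ := by nlinarith
  have h6 : (2 * (15 * (r : ℝ)) + 1) ^ 2 ≤ 961 * r ^ 2 := by nlinarith
  have h7 : (17 / 4 : ℝ) * r ^ 2 ≤ 961 * r ^ 2 * γ :=
    h5.trans (mul_le_mul_of_nonneg_right h6 hγ0)
  have h8 : (0 : ℝ) < r ^ 2 := by positivity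
  have h9 : (17 / 4 : ℝ) ≤ 961 * γ := by
    by_contra hcon
    push Not at hcon
    nlinarith
  linarith

lemma gr_tr (y x : V) (R : ℕ) : gr (ball y R) y x = g R (x - y) := by
  refine eq_of_lap (ball y R) (g := fun x => g R (x - y)) (fun v hv => ?_) (fun v hv => ?_) x
  · have h1 : v - y ∈ ball 0 R := by
      rw [zmem]; rw [mem_ball] at hv; simp only [Prod.fst_sub, Prod.snd_sub]; omega
    have h2 : lap (fun x => g R (x - y)) v = lap (g R) (v - y) := by
      unfold lap
      simp only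
      have e1 : (((v.1 + 1, v.2) : V) - y) = ((v - y).1 + 1, (v - y).2) := by
        ext <;> simp; ring
      have e2 : (((v.1 - 1, v.2) : V) - y) = ((v - y).1 - 1, (v - y).2) := by
        ext <;> simp; ring
      have e3 : (((v.1, v.2 + 1) : V) - y) = ((v - y).1, (v - y).2 + 1) := by
        ext <;> simp; ring
      have e4 : (((v.1, v.2 - 1) : V) - y) = ((v - y).1, (v - y).2 - 1) := by
        ext <;> simp; ring
      rw [e1, e2, e3, e4]
    rw [h2, lap_gr hv, lap_g h1]
    congr 1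
    rw [sub_eq_zero]
  · have h1 : v - y ∉ ball 0 R := by
      rw [zmem]; rw [mem_ball] at hv; simp only [Prod.fst_sub, Prod.snd_sub]; omega
    rw [gr_out hv, g_out h1]

end P2

/-- lower bound for the Green function -/
theorem gr_lower : ∃ c : ℝ, 0 < c ∧ ∀ (z : V) (r : ℕ), 1 ≤ r → ∀ x ∈ ball z r, ∀ y ∈ ball z r,
    c ≤ gr (ball z (16 * r)) y x := by
  refine ⟨1 / 256, by norm_num, fun z r hr x hx y hy => ?_⟩
  have hsub : ball y (15 * r) ⊆ ball z (16 * r) := by
    intro v hv
    rw [mem_ball] at hv hy ⊢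
    push_cast at hv ⊢
    omega
  refine le_trans ?_ (gr_mono hsub y x)
  rw [P2.gr_tr]
  refine le_trans (P2.g_lower hr) (P2.g_near ?_ ?_)
  · rw [mem_ball] at hx hy
    simp only [Prod.fst_sub]
    rw [abs_le]
    push_cast
    omega
  · rw [mem_ball] at hx hy
    simp only [Prod.snd_sub]
    rw [abs_le]
    push_cast
    omega

end Pool.H92.GFL
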