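import Pool.Agent.helper92.GFL.G0
import Pool.Agent.helper92.GFL.K5
import Pool.Agent.helper92.GFL.P2

/-!
Connected sets are hit with probability bounded below.
-/

namespace Pool.H92.GFL

open Function Finset MeasureTheory ProbabilityTheory Pool.H92.GFF
open scoped Classical ENNReal

/-- discrete intermediate values for a sequence of integers with steps at most one -/
lemma div_int (f : ℕ → ℤ) (m : ℕ) (h0 : f 0 = 0) (hs : ∀ i < m, f (i + 1) ≤ f i + 1) (j : ℤ)
    (hj0 : 0 ≤ j) (hj : j < f m) : ∃ i < m, f i = j := by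
  induction m with
  | zero => omega
  | succ m ih =>
    by_cases h : j < f m
    · obtain ⟨i, hi, he⟩ := ih (fun i hi => hs i (by omega)) h
      exact ⟨i, by omega, he⟩
    · have := hs m (by omega)
      exact ⟨m, by omega, by omega⟩

/-- vertices with distinct coordinates on a connected set -/
lemma exists_family {E : Finset V} {a : V} {r : ℕ} (h : Reaches E a r) :
    ∃ X : ℕ → V, (∀ j ≤ r, X j ∈ E ∧ X j ∈ ball a r) ∧
      ∀ i ≤ r, ∀ j ≤ r, ∀ s : ℕ, X i ∈ ball (X j) s → (i : ℤ) - j ≤ s ∧ (j : ℤ) - i ≤ s := by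
  obtain ⟨n, b, ⟨p, hp0, hpn, hpE, hps⟩, hb⟩ := h
  have hex : ∃ m, m ≤ n ∧ p m ∉ ball a r := ⟨n, le_rfl, hpn ▸ hb⟩
  set m := Nat.find hex with hm
  have hmn : m ≤ n := (Nat.find_spec hex).1
  have hmb : p m ∉ ball a r := (Nat.find_spec hex).2
  have hlt : ∀ i < m, p i ∈ ball a r := by
    intro i hi
    by_contra hcon
    exact Nat.find_min hex hi ⟨by omega, hcon⟩
  -- a coordinate function
  have key : ∀ g : V → ℤ, (∀ u v : V, ∀ s : ℕ, u ∈ ball v s → g u - g v ≤ s) →
      g a = 0 → (r : ℤ) < g (p m) → ∃ X : ℕ → V, (∀ j ≤ r, X j ∈ E ∧ X j ∈ ball a r) ∧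
      ∀ i ≤ r, ∀ j ≤ r, ∀ s : ℕ, X i ∈ ball (X j) s → (i : ℤ) - j ≤ s ∧ (j : ℤ) - i ≤ s := by
    intro g hg hga hgm
    have hstep : ∀ i < m, g (p (i + 1)) ≤ g (p i) + 1 := by
      intro i hi
      have : p (i + 1) ∈ ball (p i) 1 := by
        rcases hps i (by omega) with h | h
        · rw [h]; exact mem_ball_self _ _
        · exact nb_ball h
      have := hg _ _ _ this
      push_cast at this
      omega
    have hdiv : ∀ j : ℕ, ∃ i, j ≤ r → i < m ∧ g (p i) = j := by
      intro j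
      by_cases hj : j ≤ r
      · obtain ⟨i, hi, he⟩ := div_int (fun i => g (p i)) m (by simp only [hp0, hga]) hstep j
          (by positivity) (by omega)
        exact ⟨i, fun _ => ⟨hi, he⟩⟩
      · exact ⟨0, fun h => absurd h hj⟩
    choose q hq using hdiv
    refine ⟨fun j => p (q j), fun j hj => ⟨hpE _ (by have := (hq j hj).1; omega), hlt _ (hq j hj).1⟩,
      fun i hi j hj s hs => ?_⟩
    have h1 := hg _ _ _ hs
    have h2 := hg _ _ _ (mem_ball_symm.1 hs)
    rw [(hq i hi).2, (hq j hj).2] at h1 h2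
    exact ⟨h1, h2⟩
  rw [mem_ball] at hmb
  by_cases c1 : (p m).1 ≤ a.1 + r
  · by_cases c2 : a.1 - r ≤ (p m).1
    · by_cases c3 : (p m).2 ≤ a.2 + r
      · have c4 : ¬ a.2 - r ≤ (p m).2 := fun h => hmb ⟨⟨c2, c1⟩, ⟨h, c3⟩⟩
        exact key (fun v => a.2 - v.2) (fun u v s hs => by rw [mem_ball] at hs; omega)
          (by simp) (by omega)
      · exact key (fun v => v.2 - a.2) (fun u v s hs => by rw [mem_ball] at hs; omega)
          (by simp) (by omega)
    · exact key (fun v => a.1 - v.1) (fun u v s hs => by rw [mem_ball] at hs; omega)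
        (by simp) (by omega)
  · exact key (fun v => v.1 - a.1) (fun u v s hs => by rw [mem_ball] at hs; omega)
      (by simp) (by omega)

/-- scale of the distance `d` -/
lemma scale_count (L d : ℕ) (hd : d ≤ 2 ^ L) : ∃ l ≤ L, (l = 0 ∨ 2 ^ l < d) ∧
    (L : ℝ) - l ≤ ∑ k ∈ Finset.range L, if d ≤ 2 * 2 ^ k then (1 : ℝ) else 0 := by
  have hL : ∀ l ≤ L, (∀ k, l ≤ k → k < L → d ≤ 2 * 2 ^ k) →
      (L : ℝ) - l ≤ ∑ k ∈ Finset.range L, if d ≤ 2 * 2 ^ k then (1 : ℝ) else 0 := by
    intro l hl hk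
    rw [← Finset.sum_filter, Finset.sum_const, nsmul_eq_mul, mul_one]
    have : Finset.Ico l L ⊆ (Finset.range L).filter (fun k => d ≤ 2 * 2 ^ k) := by
      intro k hk'
      rw [Finset.mem_Ico] at hk'
      rw [Finset.mem_filter, Finset.mem_range]
      exact ⟨hk'.2, hk k hk'.1 hk'.2⟩
    have := Finset.card_le_card this
    rw [Nat.card_Ico] at this
    rw [← Nat.cast_sub hl]
    exact_mod_cast this
  rcases Nat.lt_or_ge d 2 with h | h
  · refine ⟨0, Nat.zero_le _, Or.inl rfl, hL 0 (Nat.zero_le _) (fun k _ _ => ?_)⟩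
    have : 1 ≤ 2 ^ k := Nat.one_le_two_pow
    omega
  · refine ⟨Nat.log 2 (d - 1), ?_, ?_, hL _ ?_ ?_⟩
    · have h1 : 2 ^ Nat.log 2 (d - 1) ≤ d - 1 := Nat.pow_log_le_self 2 (by omega)
      by_contra hcon
      push Not at hcon
      have := Nat.pow_lt_pow_right (a := 2) (by norm_num) hcon
      omega
    · right
      have h1 : 2 ^ Nat.log 2 (d - 1) ≤ d - 1 := Nat.pow_log_le_self 2 (by omega)
      omega
    · have h1 : 2 ^ Nat.log 2 (d - 1) ≤ d - 1 := Nat.pow_log_le_self 2 (by omega)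
      by_contra hcon
      push Not at hcon
      have := Nat.pow_lt_pow_right (a := 2) (by norm_num) hcon
      omega
    · intro k hk _
      have h1 : d - 1 < 2 ^ (Nat.log 2 (d - 1) + 1) := Nat.lt_pow_succ_log_self (by norm_num) _
      have h2 : 2 ^ (Nat.log 2 (d - 1) + 1) ≤ 2 ^ (k + 1) :=
        Nat.pow_le_pow_right (by norm_num) (by omega)
      rw [pow_succ] at h2
      omega

/-- upper bound for a sum of Green functions over a family with distinct coordinates -/
lemma sum_gr_le {C : ℝ} (hC : 0 < C) (hgr : ∀ (L j : ℕ) (c : V) (I : Finset V),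
      I ⊆ ball c (2 ^ L) → j ≤ L → ∀ x y : V, (j = 0 ∨ x ∉ ball y (2 ^ j)) →
        gr I y x ≤ C * ((L : ℝ) - j + 1)) {c : V} {I : Finset V} {L r : ℕ}
    (hI : I ⊆ ball c (2 ^ L)) (hr : r ≤ 2 ^ L) {X : ℕ → V}
    (hX : ∀ i ≤ r, ∀ j ≤ r, ∀ s : ℕ, X i ∈ ball (X j) s → (i : ℤ) - j ≤ s ∧ (j : ℤ) - i ≤ s)
    {j : ℕ} (hj : j ≤ r) :
    ∑ i ∈ Finset.range (r + 1), gr I (X i) (X j) ≤ C * ((r : ℝ) + 1 + 5 * 2 ^ L) := by
  have h1 : ∀ i ∈ Finset.range (r + 1), gr I (X i) (X j) ≤
      C * (1 + ∑ k ∈ Finset.range L,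
        if ((i : ℤ) - j).natAbs ≤ 2 * 2 ^ k then (1 : ℝ) else 0) := by
    intro i hi
    rw [Finset.mem_range] at hi
    obtain ⟨l, hl, hl2, hl3⟩ := scale_count L ((i : ℤ) - j).natAbs (by omega)
    refine (hgr L l c I hI hl (X j) (X i) ?_).trans ?_
    · rcases hl2 with h | h
      · exact Or.inl h
      · right
        intro hmem
        have := hX j hj i (by omega) _ hmem
        push_cast at this
        zify at h
        rw [lt_abs] at h
        rcases h with h | h <;> omega
    · exact mul_le_mul_of_nonneg_left (by linarith) hC.le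
  refine (Finset.sum_le_sum h1).trans ?_
  rw [← Finset.mul_sum, Finset.sum_add_distrib, Finset.sum_const, Finset.card_range,
    Finset.sum_comm]
  refine mul_le_mul_of_nonneg_left ?_ hC.le
  have h2 : ∀ k ∈ Finset.range L, ∑ i ∈ Finset.range (r + 1),
      (if ((i : ℤ) - j).natAbs ≤ 2 * 2 ^ k then (1 : ℝ) else 0) ≤ 5 * 2 ^ k := by
    intro k _
    rw [← Finset.sum_filter, Finset.sum_const, nsmul_eq_mul, mul_one]
    have h3 : ((Finset.range (r + 1)).filter
        (fun i : ℕ => ((i : ℤ) - j).natAbs ≤ 2 * 2 ^ k)).card ≤ 4 * 2 ^ k + 1 := by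
      have : ((Finset.range (r + 1)).filter (fun i : ℕ => ((i : ℤ) - j).natAbs ≤ 2 * 2 ^ k)) ⊆
          Finset.Icc (j - 2 * 2 ^ k) (j + 2 * 2 ^ k) := by
        intro i hi
        rw [Finset.mem_filter] at hi
        rw [Finset.mem_Icc]
        omega
      refine (Finset.card_le_card this).trans ?_
      rw [Nat.card_Icc]
      omega
    have h4 : (1 : ℝ) ≤ 2 ^ k := one_le_pow₀ (by norm_num)
    have h5 : (((Finset.range (r + 1)).filter
        (fun i : ℕ => ((i : ℤ) - j).natAbs ≤ 2 * 2 ^ k)).card : ℝ) ≤ 4 * 2 ^ k + 1 := by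
      exact_mod_cast h3
    linarith
  have h6 := Finset.sum_le_sum h2
  have h7 : ∑ k ∈ Finset.range L, (5 : ℝ) * 2 ^ k ≤ 5 * 2 ^ L := by
    rw [← Finset.mul_sum]
    have := geom_sum_eq (show (2 : ℝ) ≠ 1 by norm_num) L
    rw [this]
    norm_num
  have h8 : ((r + 1 : ℕ) • (1 : ℝ)) = (r : ℝ) + 1 := by
    rw [nsmul_eq_mul]; push_cast; ring
  rw [h8]
  linarith

/-- connected sets are hit -/
theorem hitting : ∃ c : ℝ, 0 < c ∧ ∀ (a : V) (r : ℕ) (E : Finset V), 1 ≤ r → Reaches E a r →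
    ∀ x ∈ ball a (2 * r), c ≤ eqp (ball a (32 * r)) (E ∩ ball a (32 * r)) x := by
  obtain ⟨c, hc, hlow⟩ := gr_lower
  obtain ⟨C, hC, hup⟩ := gr_upper
  refine ⟨c / (321 * C), by positivity, fun a r E hr hE x hx => ?_⟩
  obtain ⟨X, hX1, hX2⟩ := exists_family hE
  set W := ball a (32 * r) with hW
  set L := Nat.clog 2 (32 * r) with hL
  have hL1 : 32 * r ≤ 2 ^ L := Nat.le_pow_clog (by norm_num) _
  have hL2 : 2 ^ L < 64 * r := by
    have h1 : 2 ^ (L - 1) < 32 * r := Nat.pow_pred_clog_lt_self (by norm_num) (by omega)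
    have h2 : 0 < L := Nat.clog_pos (by norm_num) (by omega)
    have h3 : 2 ^ L = 2 * 2 ^ (L - 1) := by
      rw [← pow_succ']; congr 1; omega
    omega
  have hWL : W ⊆ ball a (2 ^ L) := ball_mono hL1
  set h : V → ℝ := fun v => ∑ i ∈ Finset.range (r + 1), gr W (X i) v with hh
  set M : ℝ := 321 * C * ((r : ℝ) + 1) with hM
  have hMpos : 0 < M := by positivity
  have hXW : ∀ j ≤ r, X j ∈ W := fun j hj => ball_mono (by omega) (hX1 j hj).2
  -- value at the poles
  have hpole : ∀ j ≤ r, h (X j) ≤ M := by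
    intro j hj
    refine (sum_gr_le hC hup hWL (by omega) hX2 hj).trans ?_
    have : (2 : ℝ) ^ L ≤ 64 * r := by exact_mod_cast hL2.le
    rw [hM]
    nlinarith
  have hlap : ∀ v ∈ W, (∀ j ≤ r, v ≠ X j) → lap h v = 0 := by
    intro v hv hne
    have : lap h v = ∑ i ∈ Finset.range (r + 1), lap (gr W (X i)) v := by
      simp only [hh, lap, Finset.sum_sub_distrib, Finset.mul_sum, Finset.sum_add_distrib]
    rw [this]
    refine Finset.sum_eq_zero (fun i hi => ?_)
    rw [Finset.mem_range] at hi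
    rw [lap_gr hv, if_neg (hne i (by omega))]
  have hconst : ∀ v : V, lap (fun _ => M) v = 0 := by
    intro v; unfold lap; ring
  -- global bound
  have hglob : ∀ v, h v ≤ M := by
    refine cmp (W \ (Finset.range (r + 1)).image X) (fun v hv => ?_) (fun v hv => ?_)
    · rw [Finset.mem_sdiff, Finset.mem_image] at hv
      rw [hconst v, hlap v hv.1 (fun j hj he => hv.2 ⟨j, by simpa using (by omega), he.symm⟩)]
    · by_cases hvW : v ∈ W
      · have : v ∈ (Finset.range (r + 1)).image X := by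
          by_contra hcon
          exact hv (Finset.mem_sdiff.2 ⟨hvW, hcon⟩)
        rw [Finset.mem_image] at this
        obtain ⟨j, hj, rfl⟩ := this
        rw [Finset.mem_range] at hj
        exact hpole j (by omega)
      · have : h v = 0 := by
          simp only [hh]
          exact Finset.sum_eq_zero (fun i _ => gr_out hvW)
        rw [this]; exact hMpos.le
  -- comparison with the equilibrium potential
  have hEW : E ∩ W ⊆ W := Finset.inter_subset_right
  have hcmp : ∀ v, h v ≤ M * eqp W (E ∩ W) v := by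
    refine cmp (W \ (E ∩ W)) (fun v hv => ?_) (fun v hv => ?_)
    · have hv' := Finset.mem_sdiff.1 hv
      rw [lap_smul, lap_eqp hv'.1 hv'.2, mul_zero, hlap v hv'.1]
      intro j hj he
      exact hv'.2 (Finset.mem_inter.2 ⟨he ▸ (hX1 j hj).1, hv'.1⟩)
    · by_cases hvW : v ∈ W
      · have : v ∈ E ∩ W := by
          by_contra hcon
          exact hv (Finset.mem_sdiff.2 ⟨hvW, hcon⟩)
        rw [eqp_one this, mul_one]
        exact hglob v
      · have : h v = 0 := by
          simp only [hh]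
          exact Finset.sum_eq_zero (fun i _ => gr_out hvW)
        rw [this, eqp_zero hEW hvW, mul_zero]
  have hbelow : c * ((r : ℝ) + 1) ≤ h x := by
    have h1 : ∀ i ∈ Finset.range (r + 1), c ≤ gr W (X i) x := by
      intro i hi
      rw [Finset.mem_range] at hi
      have := hlow a (2 * r) (by omega) x hx (X i) (ball_mono (by omega) (hX1 i (by omega)).2)
      have he : 16 * (2 * r) = 32 * r := by ring
      rw [he] at this
      exact this
    have h2 := Finset.card_nsmul_le_sum _ _ _ h1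
    rw [Finset.card_range, nsmul_eq_mul] at h2
    push_cast at h2
    simp only [hh]
    linarith
  have hfin := hbelow.trans (hcmp x)
  rw [div_le_iff₀ (by positivity)]
  have hr1 : (0 : ℝ) < (r : ℝ) + 1 := by positivity
  rw [hM] at hfin
  have : c * ((r : ℝ) + 1) ≤ (eqp W (E ∩ W) x * (321 * C)) * ((r : ℝ) + 1) := by
    linarith
  exact le_of_mul_le_mul_right this hr1

end Pool.H92.GFL
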