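import Pool.Agent.helper92.GFL.Defs3
import Pool.Agent.helper92.GFL.P4

namespace Pool.H92.GFL

open Function Finset MeasureTheory ProbabilityTheory Pool.H92.GFF
open scoped Classical ENNReal

/-- one-dimensional tent -/
noncomputable def e1_g (r : ℕ) (q x : ℤ) : ℝ :=
  max 0 (min 1 (((4 * (r : ℤ) - |x - q| : ℤ) : ℝ) / (3 * r)))

/-- two-dimensional tent -/
noncomputable def e1_f (r : ℕ) (q v : V) : ℝ := e1_g r q.1 v.1 * e1_g r q.2 v.2

lemma e1_g_nonneg (r : ℕ) (q x : ℤ) : 0 ≤ e1_g r q x := le_max_left _ _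

lemma e1_g_le_one (r : ℕ) (q x : ℤ) : e1_g r q x ≤ 1 :=
  max_le zero_le_one (min_le_left _ _)

lemma e1_g_lip {r : ℕ} (hr : 1 ≤ r) (q x : ℤ) :
    |e1_g r q (x + 1) - e1_g r q x| ≤ 1 / (3 * r) := by
  have hd' : (0 : ℝ) < 3 * r := by
    have : (1 : ℝ) ≤ r := by exact_mod_cast hr
    linarith
  unfold e1_g
  set k' : ℤ := 4 * (r : ℤ) - |x + 1 - q| with hk'
  set k : ℤ := 4 * (r : ℤ) - |x - q| with hk
  have h1 := abs_max_sub_max_le_max (0 : ℝ) (min 1 ((k' : ℝ) / (3 * r))) 0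
    (min 1 ((k : ℝ) / (3 * r)))
  have h2 := abs_min_sub_min_le_max (1 : ℝ) ((k' : ℝ) / (3 * r)) 1 ((k : ℝ) / (3 * r))
  have h3 : |(k' : ℝ) / (3 * r) - (k : ℝ) / (3 * r)| ≤ 1 / (3 * r) := by
    rw [← sub_div, abs_div, abs_of_pos hd']
    apply div_le_div_of_nonneg_right _ hd'.le
    have : |k' - k| ≤ 1 := by
      rw [abs_le]
      rcases abs_cases (x + 1 - q) with h | h <;> rcases abs_cases (x - q) with h' | h' <;> omega
    have := (Int.cast_le (R := ℝ)).2 this
    push_cast at this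
    exact this
  have h0 : (0 : ℝ) ≤ 1 / (3 * r) := by positivity
  simp only [sub_self, abs_zero] at h1 h2
  refine h1.trans (max_le h0 (h2.trans (max_le h0 h3)))

lemma e1_g_zero {r : ℕ} {q x : ℤ} (h : 4 * (r : ℤ) ≤ |x - q|) : e1_g r q x = 0 := by
  unfold e1_g
  apply max_eq_left
  refine (min_le_right _ _).trans ?_
  apply div_nonpos_of_nonpos_of_nonneg
  · have : 4 * (r : ℤ) - |x - q| ≤ 0 := by omega
    exact_mod_cast this
  · positivity

lemma e1_g_one {r : ℕ} (hr : 1 ≤ r) {q x : ℤ} (h : |x - q| ≤ r) : e1_g r q x = 1 := by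
  have hd' : (0 : ℝ) < 3 * r := by
    have : (1 : ℝ) ≤ r := by exact_mod_cast hr
    linarith
  unfold e1_g
  have h1 : 1 ≤ ((4 * (r : ℤ) - |x - q| : ℤ) : ℝ) / (3 * r) := by
    rw [le_div_iff₀ hd', one_mul]
    have : 3 * (r : ℤ) ≤ 4 * (r : ℤ) - |x - q| := by omega
    exact_mod_cast this
  rw [min_eq_left h1]
  exact max_eq_right zero_le_one

lemma e1_f_zero {r : ℕ} (hr : 1 ≤ r) {q v : V} (hv : v ∉ ball q (4 * r - 1)) :
    e1_f r q v = 0 := by
  unfold e1_f
  rw [mem_ball] at hv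
  have h : 4 * (r : ℤ) ≤ |v.1 - q.1| ∨ 4 * (r : ℤ) ≤ |v.2 - q.2| := by
    rcases abs_cases (v.1 - q.1) with h | h <;> rcases abs_cases (v.2 - q.2) with h' | h' <;> omega
  rcases h with h | h
  · rw [e1_g_zero h, zero_mul]
  · rw [e1_g_zero h, mul_zero]

lemma e1_f_one {r : ℕ} (hr : 1 ≤ r) {q v : V} (hv : v ∈ ball q r) : e1_f r q v = 1 := by
  unfold e1_f
  rw [mem_ball] at hv
  rw [e1_g_one hr (by rw [abs_le]; omega), e1_g_one hr (by rw [abs_le]; omega), one_mul]

lemma e1_card_ball (z : V) (r : ℕ) : (ball z r).card = (2 * r + 1) ^ 2 := by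
  unfold ball
  rw [Finset.card_product, Int.card_Icc, Int.card_Icc, sq]
  congr 1 <;> omega

lemma e1_D_f {r : ℕ} (hr : 1 ≤ r) (q : V) : D (e1_f r q) (e1_f r q) ≤ 18 := by
  have hr1 : (1 : ℝ) ≤ r := by exact_mod_cast hr
  have hr' : (0 : ℝ) < 3 * r := by linarith
  unfold D
  rw [tsum_eq_sum (s := ball q (4 * r))]
  · calc ∑ v ∈ ball q (4 * r), ((e1_f r q (v.1 + 1, v.2) - e1_f r q v) *
          (e1_f r q (v.1 + 1, v.2) - e1_f r q v) +
          (e1_f r q (v.1, v.2 + 1) - e1_f r q v) * (e1_f r q (v.1, v.2 + 1) - e1_f r q v))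
        ≤ ∑ v ∈ ball q (4 * r), (2 * (1 / (3 * (r : ℝ))) ^ 2) := by
          refine Finset.sum_le_sum (fun v _ => ?_)
          have e1 : |e1_f r q (v.1 + 1, v.2) - e1_f r q v| ≤ 1 / (3 * r) := by
            unfold e1_f
            rw [← sub_mul, abs_mul, abs_of_nonneg (e1_g_nonneg r q.2 v.2)]
            exact (mul_le_of_le_one_right (abs_nonneg _) (e1_g_le_one _ _ _)).trans
              (e1_g_lip hr _ _)
          have e2 : |e1_f r q (v.1, v.2 + 1) - e1_f r q v| ≤ 1 / (3 * r) := by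
            unfold e1_f
            rw [← mul_sub, abs_mul, abs_of_nonneg (e1_g_nonneg r q.1 v.1)]
            exact (mul_le_of_le_one_left (abs_nonneg _) (e1_g_le_one _ _ _)).trans
              (e1_g_lip hr _ _)
          have f1 : (e1_f r q (v.1 + 1, v.2) - e1_f r q v) ^ 2 ≤ (1 / (3 * (r : ℝ))) ^ 2 := by
            rw [← sq_abs]; exact pow_le_pow_left₀ (abs_nonneg _) e1 2
          have f2 : (e1_f r q (v.1, v.2 + 1) - e1_f r q v) ^ 2 ≤ (1 / (3 * (r : ℝ))) ^ 2 := by
            rw [← sq_abs]; exact pow_le_pow_left₀ (abs_nonneg _) e2 2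
          nlinarith
      _ ≤ 18 := by
          rw [Finset.sum_const, e1_card_ball, nsmul_eq_mul]
          push_cast
          have h1 : 2 * (4 * (r : ℝ)) + 1 ≤ 9 * r := by linarith
          have h2 : (2 * (4 * (r : ℝ)) + 1) ^ 2 ≤ (9 * r) ^ 2 :=
            pow_le_pow_left₀ (by positivity) h1 2
          calc (2 * (4 * (r : ℝ)) + 1) ^ 2 * (2 * (1 / (3 * (r : ℝ))) ^ 2)
              ≤ (9 * r) ^ 2 * (2 * (1 / (3 * (r : ℝ))) ^ 2) :=
                mul_le_mul_of_nonneg_right h2 (by positivity)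
            _ = 18 := by field_simp; norm_num
  · intro v hv
    have hv' : ¬ ((q.1 - (4 * r : ℕ) ≤ v.1 ∧ v.1 ≤ q.1 + (4 * r : ℕ)) ∧
      (q.2 - (4 * r : ℕ) ≤ v.2 ∧ v.2 ≤ q.2 + (4 * r : ℕ))) := by rwa [mem_ball] at hv
    have h0 : e1_f r q v = 0 := e1_f_zero hr (by rw [mem_ball]; omega)
    have h1 : e1_f r q (v.1 + 1, v.2) = 0 := e1_f_zero hr (by rw [mem_ball]; simp only; omega)
    have h2 : e1_f r q (v.1, v.2 + 1) = 0 := e1_f_zero hr (by rw [mem_ball]; simp only; omega)
    rw [h0, h1, h2]; ring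

theorem cp_corridor : ∃ C : ℝ, 0 < C ∧ ∀ (N κ : ℕ) (q : V), 2 ≤ κ → ball q (2 ^ κ) ⊆ inn N →
    cp (inn N) (ball q (2 ^ (κ - 2))) ≤ C := by
  refine ⟨18, by norm_num, fun N κ q hκ hb => ?_⟩
  have hr : 1 ≤ 2 ^ (κ - 2) := Nat.one_le_two_pow
  have h4 : 4 * 2 ^ (κ - 2) = 2 ^ κ := by
    rw [show (4 : ℕ) = 2 ^ 2 by norm_num, ← pow_add]
    congr 1
    omega
  refine (cp_le (f := e1_f (2 ^ (κ - 2)) q) ?_ ?_ ?_).trans (e1_D_f hr q)
  · exact (ball_mono (by omega)).trans hb
  · intro v hv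
    refine e1_f_zero hr (fun h => hv (hb (ball_mono ?_ h)))
    omega
  · intro v hv
    exact e1_f_one hr hv

/-- lower bound of the capacity of a ball in a box -/
lemma e1_cp_lower {N r : ℕ} (z : V) (hB : ball z r ⊆ inn N) :
    (2 * (r : ℝ) + 1) / N ≤ cp (inn N) (ball z r) := by
  set f := eqp (inn N) (ball z r) with hf
  have hs := D_summable (f := f) (eqp_support hB)
  have hzN : (-(((N : ℤ) - 1) / 2) < z.1 + r ∧ z.1 + r < (N : ℤ) / 2) := by
    have : ((z.1 + r, z.2) : V) ∈ inn N := hB (by rw [mem_ball]; simp only; omega)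
    rw [mem_inn] at this
    exact this.1
  set m : ℕ := ((N : ℤ) / 2 - (z.1 + r)).toNat with hm
  have hmz : (m : ℤ) = (N : ℤ) / 2 - (z.1 + r) := by omega
  have hmpos : 0 < m := by omega
  have hmN : m ≤ N := by omega
  set Y : Finset ℤ := Finset.Icc (z.2 - r) (z.2 + r) with hY
  have hYc : Y.card = 2 * r + 1 := by rw [hY, Int.card_Icc]; omega
  have hrow : ∀ y ∈ Y, (1 : ℝ) / m ≤ ∑ i ∈ Finset.range m,
      (f (z.1 + r + (i : ℤ) + 1, y) - f (z.1 + r + (i : ℤ), y)) ^ 2 := by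
    intro y hy
    rw [hY, Finset.mem_Icc] at hy
    have h1 : f (z.1 + r, y) = 1 := by
      apply eqp_one
      rw [mem_ball]
      simp only
      omega
    have h0 : f (z.1 + r + (m : ℤ), y) = 0 := by
      apply eqp_zero hB
      rw [mem_inn]
      simp only
      omega
    have htel : ∑ i ∈ Finset.range m,
        (f (z.1 + r + (i : ℤ) + 1, y) - f (z.1 + r + (i : ℤ), y)) = -1 := by
      have := Finset.sum_range_sub (fun i : ℕ => f (z.1 + r + (i : ℤ), y)) m
      simp only [Nat.cast_zero, add_zero] at this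
      rw [h1, h0] at this
      rw [show (-1 : ℝ) = 0 - 1 by norm_num, ← this]
      refine Finset.sum_congr rfl (fun i _ => ?_)
      push_cast
      rw [add_assoc (z.1 + (r : ℤ))]
    have hcs := sq_sum_le_card_mul_sum_sq (s := Finset.range m)
      (f := fun i : ℕ => f (z.1 + r + (i : ℤ) + 1, y) - f (z.1 + r + (i : ℤ), y))
    rw [htel, Finset.card_range] at hcs
    have hmr : (0 : ℝ) < m := by exact_mod_cast hmpos
    rw [div_le_iff₀ hmr]
    nlinarith
  set A : Finset V := (Finset.range m ×ˢ Y).image (fun p => (z.1 + r + (p.1 : ℤ), p.2)) with hA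
  have hinj : Set.InjOn (fun p : ℕ × ℤ => ((z.1 + r + (p.1 : ℤ), p.2) : V))
      (Finset.range m ×ˢ Y : Finset (ℕ × ℤ)) := by
    rintro ⟨a, b⟩ _ ⟨c, d⟩ _ h
    simp only [Prod.mk.injEq] at h
    ext
    · simp only; omega
    · exact h.2
  have h1 : ∑ v ∈ A, ((f (v.1 + 1, v.2) - f v) * (f (v.1 + 1, v.2) - f v)
      + (f (v.1, v.2 + 1) - f v) * (f (v.1, v.2 + 1) - f v)) ≤ D f f :=
    hs.sum_le_tsum _ (fun v _ => add_nonneg (mul_self_nonneg _) (mul_self_nonneg _))
  have h2 : ∑ y ∈ Y, ∑ i ∈ Finset.range m,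
      (f (z.1 + r + (i : ℤ) + 1, y) - f (z.1 + r + (i : ℤ), y)) ^ 2 ≤
      ∑ v ∈ A, ((f (v.1 + 1, v.2) - f v) * (f (v.1 + 1, v.2) - f v)
      + (f (v.1, v.2 + 1) - f v) * (f (v.1, v.2 + 1) - f v)) := by
    rw [hA, Finset.sum_image hinj, Finset.sum_comm, Finset.sum_product]
    refine Finset.sum_le_sum (fun i _ => Finset.sum_le_sum (fun y _ => ?_))
    simp only
    nlinarith [mul_self_nonneg (f (z.1 + r + (i : ℤ), y + 1) - f (z.1 + r + (i : ℤ), y))]
  have h3 : (2 * (r : ℝ) + 1) / m ≤ ∑ y ∈ Y, ∑ i ∈ Finset.range m,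
      (f (z.1 + r + (i : ℤ) + 1, y) - f (z.1 + r + (i : ℤ), y)) ^ 2 := by
    calc (2 * (r : ℝ) + 1) / m = ∑ y ∈ Y, (1 : ℝ) / m := by
          rw [Finset.sum_const, hYc, nsmul_eq_mul]; push_cast; ring
      _ ≤ _ := Finset.sum_le_sum hrow
  have h4 : (2 * (r : ℝ) + 1) / N ≤ (2 * (r : ℝ) + 1) / m := by
    apply div_le_div_of_nonneg_left (by positivity) (by exact_mod_cast hmpos)
    exact_mod_cast hmN
  exact h4.trans (h3.trans (h2.trans h1))

/-- one step of the chain of balls -/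
lemma e1_step : ∃ c : ℝ, 0 < c ∧ c ≤ 1 ∧ ∀ (W S : Finset V) (a : V) (r : ℕ) (δ : ℝ), 2 ≤ r →
    0 ≤ δ → S ⊆ W → ball a (32 * r) ⊆ W → (∀ x ∈ ball a r, δ ≤ eqp W S x) →
    ∀ x ∈ ball a (2 * (r - 1)), c * δ ≤ eqp W S x := by
  obtain ⟨c, hc, hhit⟩ := hitting
  refine ⟨min c 1, lt_min hc one_pos, min_le_right _ _, ?_⟩
  intro W S a r δ hr hδ hS hW hδ' x hx
  have hE : Reaches (ball a r) a (r - 1) := by
    refine ⟨r, (a.1 + r, a.2), ⟨fun i => (a.1 + i, a.2), ?_, rfl, ?_, ?_⟩, ?_⟩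
    · simp
    · intro i hi
      simp only [Finset.mem_coe, mem_ball]
      omega
    · intro i hi
      right
      simp only [nb, Finset.mem_insert, Finset.mem_singleton, Prod.mk.injEq]
      left
      push_cast
      constructor
      · ring
      · trivial
    · rw [mem_ball]
      simp only
      omega
  have h1 := hhit a (r - 1) (ball a r) (by omega) hE x hx
  have hsub : ball a r ⊆ ball a (32 * (r - 1)) := ball_mono (by omega)
  rw [Finset.inter_eq_left.2 hsub] at h1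
  have h2 : ∀ v, δ * eqp (ball a (32 * (r - 1))) (ball a r) v ≤ eqp W S v := by
    intro v
    refine cmp (ball a (32 * (r - 1)) \ ball a r) (f := fun v =>
      δ * eqp (ball a (32 * (r - 1))) (ball a r) v) (fun v hv => ?_) (fun v hv => ?_) v
    · rw [Finset.mem_sdiff] at hv
      rw [lap_smul, lap_eqp hv.1 hv.2, mul_zero]
      have hvW : v ∈ W := hW (ball_mono (by omega) hv.1)
      by_cases hvS : v ∈ S
      · exact qw_nonneg hvS
      · rw [lap_eqp hvW hvS]
    · by_cases hvr : v ∈ ball a r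
      · rw [eqp_one hvr, mul_one]
        exact hδ' v hvr
      · have : v ∉ ball a (32 * (r - 1)) := fun h => hv (by simp [h, hvr])
        rw [eqp_zero hsub this, mul_zero]
        exact eqp_nonneg _ _ _
  calc min c 1 * δ ≤ δ * c := by
        rw [mul_comm]
        exact mul_le_mul_of_nonneg_left (min_le_left _ _) hδ
    _ ≤ δ * eqp (ball a (32 * (r - 1))) (ball a r) x := mul_le_mul_of_nonneg_left h1 hδ
    _ ≤ _ := h2 x

theorem kappa1 (n0 : ℕ) : ∃ c : ℝ, 0 < c ∧ ∀ (κ N : ℕ) (U : Finset V) (p e : V) (n : ℕ),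
    10 ≤ κ → Geo n0 κ N U p e n →
    c ≤ kap1 N κ U p e n := by
  obtain ⟨c, hc, hc1, hstep⟩ := e1_step
  refine ⟨c ^ (2 ^ (n0 + 7) + 32) * (1 / 2 ^ (n0 + 1)), by positivity, ?_⟩
  intro κ N U p e n hκ hG
  -- scales
  set h : ℕ := 2 ^ (κ - 7) with hh
  have hh1 : 8 ≤ h := by
    calc 8 = 2 ^ 3 := by norm_num
      _ ≤ 2 ^ (κ - 7) := Nat.pow_le_pow_right (by norm_num) (by omega)
  have hκh : 2 ^ κ = 128 * h := by
    rw [hh, show (128 : ℕ) = 2 ^ 7 by norm_num, ← pow_add]
    congr 1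
    omega
  have hκh2 : 2 ^ (κ - 2) = 32 * h := by
    rw [hh, show (32 : ℕ) = 2 ^ 5 by norm_num, ← pow_add]
    congr 1
    omega
  obtain ⟨hN, -, hUI, he, -, hseg⟩ := hG
  rw [hκh] at hseg
  unfold kap1
  rw [hκh2]
  have hpe : ∀ j : ℕ, (p + j • e = (p.1 + j, p.2) ∧ e = (1, 0)) ∨
      (p + j • e = (p.1, p.2 + j) ∧ e = (0, 1)) := by
    intro j
    rcases he with rfl | rfl
    · left
      refine ⟨?_, rfl⟩
      ext <;> simp
    · right
      refine ⟨?_, rfl⟩
      ext <;> simp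
  set W := core U κ with hW
  set S := ball p (32 * h) with hS
  have hcore : ∀ a : V, ball a (96 * h) ⊆ U → ball a (64 * h) ⊆ W := by
    intro a ha v hv
    rw [hW, core, Finset.mem_filter, hκh2]
    refine ⟨ha (ball_mono (by omega) hv), fun w hw => ha ?_⟩
    have := mem_ball_trans hv hw
    exact ball_mono (by omega) this
  have hpU : ball p (128 * h) ⊆ U := by
    have := hseg 0 (Nat.zero_le _)
    simpa using this
  have hSW : S ⊆ W := (ball_mono (by omega)).trans (hcore p ((ball_mono (by omega)).trans hpU))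
  -- first chain
  have chain1 : ∀ m j : ℕ, j ≤ n → j ≤ m * h → ∀ x ∈ ball (p + j • e) (2 * h),
      c ^ m ≤ eqp W S x := by
    intro m
    induction m with
    | zero =>
      intro j _ hj x hx
      have hj0 : j = 0 := by omega
      subst hj0
      rw [zero_smul, add_zero] at hx
      rw [pow_zero, eqp_one (ball_mono (by omega) hx)]
    | succ m ih =>
      intro j hjn hj x hx
      by_cases hjm : j ≤ m * h
      · refine le_trans ?_ (ih j hjn hjm x hx)
        exact pow_le_pow_of_le_one hc.le hc1 (Nat.le_succ m)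
      · have h1 : (m + 1) * h = m * h + h := by ring
        have h2 := ih (j - h) (by omega) (by omega)
        have h3 := hstep W S (p + (j - h) • e) (2 * h) (c ^ m) (by omega) (by positivity) hSW
          ((ball_mono (by omega)).trans (hcore _ ((ball_mono (by omega)).trans
            (hseg (j - h) (by omega))))) h2 x ?_
        · rw [pow_succ, mul_comm]
          exact h3
        · rw [mem_ball] at hx ⊢
          rcases hpe j with ⟨e1, e2⟩ | ⟨e1, e2⟩ <;> rcases hpe (j - h) with ⟨e3, e4⟩ | ⟨e3, e4⟩ <;>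
            rw [e1] at hx <;> rw [e3] <;> simp only at hx ⊢
          · omega
          · rw [e2] at e4
            simp at e4
          · rw [e2] at e4
            simp at e4
          · omega
  have hnN : n ≤ N := by
    have h1 : p ∈ inn N := hUI (hpU (mem_ball_self _ _))
    have h2 : p + n • e ∈ inn N := hUI (hseg n le_rfl (mem_ball_self _ _))
    rw [mem_inn] at h1 h2
    rcases hpe n with ⟨e1, e2⟩ | ⟨e1, e2⟩ <;> rw [e1] at h2 <;> simp only at h2 <;> omega
  have hNh : N ≤ 2 ^ (n0 + 7) * h := by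
    refine hN.trans (le_of_eq ?_)
    rw [hh, ← pow_add]
    congr 1
    omega
  set M := 2 ^ (n0 + 7) with hM
  set b0 := p + n • e with hb0
  have hb0U : ball b0 (128 * h) ⊆ U := hseg n le_rfl
  have chain2 : ∀ k : ℕ, k ≤ 32 → ∀ a ∈ ball b0 (k * h), ∀ x ∈ ball a (2 * h),
      c ^ (M + k) ≤ eqp W S x := by
    intro k
    induction k with
    | zero =>
      intro _ a ha x hx
      have hab : a = b0 := by
        rw [mem_ball] at ha
        ext <;> simp only [zero_mul, Nat.cast_zero] at ha <;> omega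
      rw [hab] at hx
      exact chain1 M n le_rfl (hnN.trans hNh) x hx
    | succ k ih =>
      intro hk a ha x hx
      have hkh : (k + 1) * h = k * h + h := by ring
      have hkh' : (k + 1) * h ≤ 32 * h := Nat.mul_le_mul_right h hk
      set a' : V := (max (b0.1 - (k * h : ℕ)) (min a.1 (b0.1 + (k * h : ℕ))),
        max (b0.2 - (k * h : ℕ)) (min a.2 (b0.2 + (k * h : ℕ)))) with ha'
      have h1 : a' ∈ ball b0 (k * h) := by
        rw [mem_ball, ha']
        simp only
        omega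
      have h2 := ih (by omega) a' h1
      have h3 := hstep W S a' (2 * h) (c ^ (M + k)) (by omega) (by positivity) hSW
          ((ball_mono (by omega)).trans (hcore _ (fun v hv => hb0U (ball_mono (by omega)
            (mem_ball_trans h1 hv))))) h2 x ?_
      · rw [← add_assoc, pow_succ, mul_comm]
        exact h3
      · rw [mem_ball] at hx ha ⊢
        rw [hkh] at ha
        rw [ha']
        simp only
        push_cast at ha hx ⊢
        omega
  have hBI : ball b0 (32 * h) ⊆ inn N := (ball_mono (by omega)).trans (hb0U.trans hUI)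
  have hN1 : 0 < N := by
    have h1 : p ∈ inn N := hUI (hpU (mem_ball_self _ _))
    rw [mem_inn] at h1
    omega
  have hcap := e1_cp_lower b0 hBI
  rw [cp_eq hBI] at hcap
  calc c ^ (M + 32) * (1 / 2 ^ (n0 + 1))
      ≤ c ^ (M + 32) * ((2 * ((32 * h : ℕ) : ℝ) + 1) / N) := by
        refine mul_le_mul_of_nonneg_left ?_ (by positivity)
        rw [div_le_div_iff₀ (by positivity) (by exact_mod_cast hN1)]
        have h1 : (N : ℝ) ≤ 2 ^ (n0 + 7) * h := by
          have := (Nat.cast_le (α := ℝ)).2 hNh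
          rw [hM] at this
          push_cast at this
          exact this
        have h2 : (2 : ℝ) ^ (n0 + 7) = 2 ^ (n0 + 1) * 64 := by
          rw [show n0 + 7 = n0 + 1 + 6 by ring, pow_add]
          norm_num
        have h3 : (0 : ℝ) < 2 ^ (n0 + 1) := by positivity
        push_cast
        rw [h2] at h1
        nlinarith
    _ ≤ c ^ (M + 32) * ∑ v ∈ ball b0 (32 * h), qw (inn N) (ball b0 (32 * h)) v :=
        mul_le_mul_of_nonneg_left hcap (by positivity)
    _ = ∑ v ∈ ball b0 (32 * h), qw (inn N) (ball b0 (32 * h)) v * c ^ (M + 32) := by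
        rw [Finset.mul_sum]
        exact Finset.sum_congr rfl (fun v _ => mul_comm _ _)
    _ ≤ _ := by
        refine Finset.sum_le_sum (fun v hv => ?_)
        refine mul_le_mul_of_nonneg_left ?_ (qw_nonneg hv)
        exact chain2 32 le_rfl v hv v (mem_ball_self _ _)

end Pool.H92.GFL
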