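import Pool.Agent.helper92.GFL.Defs2

namespace Pool.H92.GFL

open Function Finset MeasureTheory ProbabilityTheory Pool.H92.GFF
open scoped Classical ENNReal

lemma gbn_geom {r B : ℝ} (hr : 0 ≤ r) (hB : r * (B + 1) ≤ B) (hB0 : 0 ≤ B) (L : ℕ) :
    ∑ k ∈ Finset.range L, r ^ (L - k) ≤ B := by
  induction L with
  | zero => simpa using hB0
  | succ L ih =>
    have e : ∑ k ∈ Finset.range (L + 1), r ^ (L + 1 - k) =
        r * (∑ k ∈ Finset.range L, r ^ (L - k) + 1) := by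
      rw [Finset.sum_range_succ, mul_add, Finset.mul_sum]
      congr 1
      · refine Finset.sum_congr rfl (fun k hk => ?_)
        have hk' := Finset.mem_range.1 hk
        rw [← pow_succ']
        congr 1; omega
      · have : L + 1 - L = 1 := by omega
        rw [this]; ring
    rw [e]
    have := mul_le_mul_of_nonneg_left ih hr
    linarith

lemma gbn_sq {y : ℝ} (hy : 0 ≤ y) : y ^ 2 * Real.exp (-y) ≤ 4 := by
  have h1 := Real.add_one_le_exp (y / 2)
  have h2 : y ≤ 2 * Real.exp (y / 2) := by linarith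
  have h3 : y ^ 2 ≤ (2 * Real.exp (y / 2)) ^ 2 := pow_le_pow_left₀ hy h2 2
  have h4 : (2 * Real.exp (y / 2)) ^ 2 = 4 * Real.exp y := by
    rw [mul_pow, ← Real.exp_nat_mul]
    norm_num
    ring_nf
  rw [h4] at h3
  calc y ^ 2 * Real.exp (-y) ≤ 4 * Real.exp y * Real.exp (-y) :=
        mul_le_mul_of_nonneg_right h3 (Real.exp_pos _).le
    _ = 4 := by rw [mul_assoc, ← Real.exp_add]; simp

theorem gb_sum (c : ℝ) (hc : 0 < c) : ∃ C : ℝ, 0 < C ∧ ∀ (K : ℝ), 1 ≤ K → ∀ L : ℕ,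
    ∑ k ∈ Finset.range L, (2 : ℝ) ^ k * √(4 ^ (L - k) * Real.exp (-(c * ((L : ℝ) - k) / K ^ 2))) *
      ((L : ℝ) - k + 1) ^ 2 ≤ C * K ^ 6 * 2 ^ L := by
  refine ⟨1024 / c ^ 3, by positivity, ?_⟩
  intro K hK L
  have hK0 : 0 < K := by linarith
  set δ : ℝ := c / (2 * K ^ 2) with hδ
  have hδ0 : 0 < δ := by positivity
  set r : ℝ := Real.exp (-(δ / 2)) with hr
  have hr0 : 0 < r := Real.exp_pos _
  have hterm : ∀ k ∈ Finset.range L, (2 : ℝ) ^ k *
      √(4 ^ (L - k) * Real.exp (-(c * ((L : ℝ) - k) / K ^ 2))) * ((L : ℝ) - k + 1) ^ 2 ≤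
      2 ^ L * (64 / δ ^ 2) * r ^ (L - k) := by
    intro k hk
    have hk' := Finset.mem_range.1 hk
    obtain ⟨i, hi⟩ : ∃ i : ℕ, L = k + i := ⟨L - k, by omega⟩
    have hi1 : 1 ≤ i := by omega
    have hir : (1 : ℝ) ≤ i := by exact_mod_cast hi1
    have e1 : L - k = i := by omega
    have e2 : (L : ℝ) - k = i := by rw [hi]; push_cast; ring
    rw [e1, e2]
    have e3 : √(4 ^ i * Real.exp (-(c * (i : ℝ) / K ^ 2))) = 2 ^ i * Real.exp (-(δ * i)) := by
      have : (4 : ℝ) ^ i * Real.exp (-(c * (i : ℝ) / K ^ 2)) =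
          (2 ^ i * Real.exp (-(δ * i))) ^ 2 := by
        rw [mul_pow, ← pow_mul, mul_comm i 2, pow_mul, ← Real.exp_nat_mul]
        norm_num
        rw [hδ]
        field_simp
      rw [this, Real.sqrt_sq (by positivity)]
    rw [e3]
    have e4 : (2 : ℝ) ^ k * (2 ^ i * Real.exp (-(δ * i))) = 2 ^ L * Real.exp (-(δ * i)) := by
      rw [hi, pow_add]; ring
    rw [e4]
    have e5 : Real.exp (-(δ * i)) = Real.exp (-(δ * i / 2)) * r ^ i := by
      rw [hr, ← Real.exp_nat_mul, ← Real.exp_add]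
      congr 1; ring
    have e6 : ((i : ℝ) + 1) ^ 2 ≤ 4 * (i : ℝ) ^ 2 := by nlinarith
    have e7 : (i : ℝ) ^ 2 * Real.exp (-(δ * i / 2)) ≤ 16 / δ ^ 2 := by
      have h1 := gbn_sq (y := δ * i / 2) (by positivity)
      rw [le_div_iff₀ (by positivity)]
      nlinarith
    have hri : 0 < r ^ i := by positivity
    calc 2 ^ L * Real.exp (-(δ * i)) * ((i : ℝ) + 1) ^ 2
        ≤ 2 ^ L * Real.exp (-(δ * i)) * (4 * (i : ℝ) ^ 2) := by
          apply mul_le_mul_of_nonneg_left e6 (by positivity)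
      _ = 2 ^ L * (4 * ((i : ℝ) ^ 2 * Real.exp (-(δ * i / 2)))) * r ^ i := by rw [e5]; ring
      _ ≤ 2 ^ L * (4 * (16 / δ ^ 2)) * r ^ i := by gcongr
      _ = 2 ^ L * (64 / δ ^ 2) * r ^ i := by ring
  refine (Finset.sum_le_sum hterm).trans ?_
  rw [← Finset.mul_sum]
  have hB : ∑ k ∈ Finset.range L, r ^ (L - k) ≤ 2 / δ := by
    refine gbn_geom hr0.le ?_ (by positivity) L
    have h1 := Real.add_one_le_exp (δ / 2)
    have h2 : r * Real.exp (δ / 2) = 1 := by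
      rw [hr, ← Real.exp_add]; simp
    have h3 : r * (δ / 2 + 1) ≤ 1 :=
      (mul_le_mul_of_nonneg_left h1 hr0.le).trans h2.le
    have h4 : r * (2 / δ + 1) = (r * (δ / 2 + 1)) * (2 / δ) := by field_simp; ring
    rw [h4]
    have h5 : 0 < 2 / δ := by positivity
    nlinarith
  calc 2 ^ L * (64 / δ ^ 2) * ∑ k ∈ Finset.range L, r ^ (L - k)
      ≤ 2 ^ L * (64 / δ ^ 2) * (2 / δ) := mul_le_mul_of_nonneg_left hB (by positivity)
    _ = 1024 / c ^ 3 * K ^ 6 * 2 ^ L := by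
        rw [hδ]; field_simp; ring

end Pool.H92.GFL
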