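import Pool.Agent.helper92.GFL.Defs3
import Pool.Agent.helper92.GFL.K5

namespace Pool.H92.GFL

open Function Finset MeasureTheory ProbabilityTheory Pool.H92.GFF
open scoped Classical ENNReal

/-- if all vertices of the segment are open, the exploration runs along it -/
lemma gbs_run {U S : Finset V} {o : V → Prop} {p e : V} {n : ℕ} (hp : p ∈ S)
    (he : e = (1, 0) ∨ e = (0, 1)) (hU : ∀ i ≤ n, p + i • e ∈ U)
    (ho : ∀ i ≤ n, o (p + i • e)) : ∀ i ≤ n, p + i • e ∈ Bs U S o i := by
  intro i
  induction i with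
  | zero => intro _; simpa [Bs_zero] using hp
  | succ i ih =>
    intro hi
    obtain ⟨s, hs, hvs⟩ := mem_Fs_of_open (ih (by omega)) (ho i (by omega))
    refine Bs_mono (show s + 1 ≤ i + 1 by omega) ?_
    rw [Bs_succ, Finset.mem_union, Finset.mem_inter, Finset.mem_biUnion]
    right
    refine ⟨⟨_, hvs, ?_⟩, hU _ hi⟩
    obtain ⟨a, b⟩ := p
    rcases he with rfl | rfl
    · simp only [nb, Finset.mem_insert, Finset.mem_singleton, Prod.smul_mk, Prod.mk_add_mk,
        Prod.mk.injEq, nsmul_eq_mul, smul_zero, mul_one]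
      left
      push_cast
      exact ⟨by ring, trivial⟩
    · simp only [nb, Finset.mem_insert, Finset.mem_singleton, Prod.smul_mk, Prod.mk_add_mk,
        Prod.mk.injEq, nsmul_eq_mul, smul_zero, mul_one]
      right; right; left
      push_cast
      exact ⟨trivial, by ring⟩

/-- small corridors: all vertices open -/
theorem GB_small (n0 : ℕ) : ∃ C c : ℝ, 0 < c ∧ 0 < C ∧
    ∀ (κ N : ℕ) (U : Finset V) (p e : V) (n : ℕ), 2 ≤ κ → κ < 16 → Geo n0 κ N U p e n →
    ∀ {Ω : Type} [MeasurableSpace Ω] (μ : Measure Ω) (η : V → Ω → ℝ), IsDGFF N μ η →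
    (∀ v, Measurable (η v)) → ∀ (lam : ℝ) (R : ℕ), 1 ≤ lam → 1 ≤ R →
    μ {ω | ¬ Reach U (ball p (2 ^ (κ - 2))) (ball (p + n • e) (2 ^ (κ - 2)))
      (fun v => η v ω) lam R} ≤
      ENNReal.ofReal (C * Real.exp (-(c * lam ^ 2)) + C * 2 ^ κ / R) := by
  refine ⟨4 ^ (15 + n0), 1 / (2 * (17 + n0)), by positivity, by positivity, ?_⟩
  intro κ N U p e n hκ2 hκ hG Ω _ μ η hη hm lam R hlam hR
  have := hη.isProb
  have hR0 : (0 : ℝ) < R := by exact_mod_cast hR
  have hself : ∀ i ≤ n, p + i • e ∈ U := fun i hi => hG.hseg i hi (by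
    rw [mem_ball]; constructor <;> constructor <;> simp)
  have hN : N ≤ 2 ^ (15 + n0) := hG.hN.trans (Nat.pow_le_pow_right (by norm_num) (by omega))
  -- length of the corridor
  have hnN : n ≤ N := by
    have h0 := inn_subset_box N (hG.hUI (hself 0 (Nat.zero_le _)))
    have h1 := inn_subset_box N (hG.hUI (hself n le_rfl))
    rw [mem_box] at h0 h1
    obtain ⟨a, b⟩ := p
    rcases hG.he with rfl | rfl
    · simp only [Prod.smul_mk, Prod.mk_add_mk, nsmul_eq_mul, smul_zero, mul_one] at h0 h1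
      omega
    · simp only [Prod.smul_mk, Prod.mk_add_mk, nsmul_eq_mul, smul_zero, mul_one] at h0 h1
      omega
  by_cases hnR : n ≤ R
  · -- all vertices open
    have hincl : {ω | ¬ Reach U (ball p (2 ^ (κ - 2))) (ball (p + n • e) (2 ^ (κ - 2)))
        (fun v => η v ω) lam R} ⊆ ⋃ v ∈ U, {ω | lam ≤ η v ω} := by
      intro ω hω
      by_contra hcon
      simp only [Set.mem_iUnion, Set.mem_ofPred_eq, exists_prop, not_exists, not_and, not_le] at hcon
      refine hω ⟨p + n • e, ?_, (hcon _ (hself n le_rfl)).le, ?_⟩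
      · rw [mem_ball]; constructor <;> constructor <;> simp
      · refine Bs_mono hnR (gbs_run ?_ hG.he hself (fun i hi => (hcon _ (hself i hi)).le) n le_rfl)
        rw [mem_ball]; constructor <;> constructor <;> simp
    have hvar : ∀ v ∈ U, Var[η v; μ] ≤ 17 + n0 := by
      intro v hv
      have hvI := hG.hUI hv
      refine (hη.var_eta hvI).trans ?_
      have hN1 : 1 ≤ N := by
        rcases Nat.eq_zero_or_pos N with h | h
        · subst h
          rw [mem_inn] at hvI
          simp only [Nat.cast_zero] at hvI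
          omega
        · exact h
      have hN1' : (1 : ℝ) ≤ N := by exact_mod_cast hN1
      have hN2 : (N : ℝ) ≤ 2 ^ (15 + n0) := by exact_mod_cast hN
      have h1 : Real.log (2 * N) ≤ Real.log (2 ^ (16 + n0)) := by
        apply Real.log_le_log (by positivity)
        rw [show 16 + n0 = (15 + n0) + 1 by ring, pow_succ]
        linarith
      rw [Real.log_pow] at h1
      have h2 : Real.log 2 ≤ 1 := by
        have := Real.log_two_lt_d9
        linarith
      have h3 : ((16 + n0 : ℕ) : ℝ) * Real.log 2 ≤ ((16 + n0 : ℕ) : ℝ) * 1 :=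
        mul_le_mul_of_nonneg_left h2 (by positivity)
      push_cast at h1 h3
      linarith
    have hU1 : ∀ v ∈ U, μ {ω | lam ≤ η v ω} ≤
        ENNReal.ofReal (Real.exp (-(1 / (2 * (17 + n0)) * lam ^ 2))) := by
      intro v hv
      have hb := inn_subset_box N (hG.hUI hv)
      have h1 := chernoff (μ := μ) (hη.gaussian.hasGaussianLaw_eval ⟨v, hb⟩) (hm v)
        (hη.centred v hb) (v := 17 + n0) (A := lam) (by positivity) (hvar v hv)
      rcases h1 with h1 | h1
      · refine h1.trans (le_of_eq ?_)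
        congr 3
        field_simp
      · linarith
    have hcard : U.card ≤ 4 ^ (15 + n0) := by
      have h1 : U ⊆ Pool.H92.GFF.box N := hG.hUI.trans (inn_subset_box N)
      have h2 := Finset.card_le_card h1
      rw [card_box] at h2
      refine h2.trans ((Nat.pow_le_pow_left hN 2).trans (le_of_eq ?_))
      rw [← pow_mul, mul_comm, pow_mul]
      norm_num
    calc μ {ω | ¬ Reach U (ball p (2 ^ (κ - 2))) (ball (p + n • e) (2 ^ (κ - 2)))
          (fun v => η v ω) lam R} ≤ μ (⋃ v ∈ U, {ω | lam ≤ η v ω}) := measure_mono hincl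
      _ ≤ ∑ v ∈ U, μ {ω | lam ≤ η v ω} := measure_biUnion_finset_le _ _
      _ ≤ ∑ v ∈ U, ENNReal.ofReal (Real.exp (-(1 / (2 * (17 + n0)) * lam ^ 2))) :=
          Finset.sum_le_sum hU1
      _ = ENNReal.ofReal (U.card * Real.exp (-(1 / (2 * (17 + n0)) * lam ^ 2))) := by
          rw [Finset.sum_const, nsmul_eq_mul, ENNReal.ofReal_mul (by positivity),
            ENNReal.ofReal_natCast]
      _ ≤ _ := by
          apply ENNReal.ofReal_le_ofReal
          have h1 : (U.card : ℝ) ≤ 4 ^ (15 + n0) := by exact_mod_cast hcard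
          have h2 := mul_le_mul_of_nonneg_right h1
            (Real.exp_pos (-(1 / (2 * (17 + (n0 : ℝ))) * lam ^ 2))).le
          have h3 : (0 : ℝ) ≤ 4 ^ (15 + n0) * 2 ^ κ / R := by positivity
          linarith
  · -- the second term is at least one
    refine prob_le_one.trans ?_
    rw [← ENNReal.ofReal_one]
    apply ENNReal.ofReal_le_ofReal
    have h1 : (R : ℝ) ≤ 2 ^ (κ + n0) := by
      have : R ≤ 2 ^ (κ + n0) := by
        have := hG.hN
        omega
      exact_mod_cast this
    have h2 : (2 : ℝ) ^ n0 ≤ 4 ^ (15 + n0) := by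
      calc (2 : ℝ) ^ n0 ≤ 4 ^ n0 := pow_le_pow_left₀ (by norm_num) (by norm_num) _
        _ ≤ 4 ^ (15 + n0) := pow_le_pow_right₀ (by norm_num) (by omega)
    have h3 : 1 ≤ (4 : ℝ) ^ (15 + n0) * 2 ^ κ / R := by
      rw [le_div_iff₀ hR0, one_mul]
      refine h1.trans ?_
      rw [pow_add, mul_comm]
      exact mul_le_mul_of_nonneg_right h2 (by positivity)
    have h4 : 0 ≤ (4 : ℝ) ^ (15 + n0) * Real.exp (-(1 / (2 * (17 + (n0 : ℝ))) * lam ^ 2)) := by
      positivity
    linarith

end Pool.H92.GFL
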