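import Pool.Agent.helper92.GFL.G0

/-!
Jensen's inequality for local sets.
-/

namespace Pool.H92.GFL

open Function Finset MeasureTheory ProbabilityTheory Pool.H92.GFF
open scoped Classical ENNReal

/-- `X_{hx F}` is the functional `Mx` of the values on `E` -/
lemma XX_hx {N : ℕ} {Ω : Type*} {η : V → Ω → ℝ} {E : Finset V} (hE : E ⊆ inn N) (F : V → ℝ)
    (ω : Ω) : XX N η (hx (inn N) E F) ω = Mx (inn N) E F (fun v => η v ω) := by
  unfold XX Mx
  rw [← Finset.sum_subset hE]
  intro v hv hvE
  rw [lap_hx hv hvE]; ring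

/-- Jensen's inequality for local sets -/
theorem jensen_local {N : ℕ} {Ω : Type*} [MeasurableSpace Ω] {μ : Measure Ω} {η : V → Ω → ℝ}
    (h : IsDGFF N μ η) (hm : ∀ v, Measurable (η v)) (A : (V → ℝ) → Finset V)
    (hA : ∀ x, A x ⊆ inn N) (hloc : ∀ x x', (∀ v ∈ A x, x v = x' v) → A x' = A x)
    (hmeas : ∀ E, MeasurableSet {x | A x = E}) {F : V → ℝ} (hF : ∀ v ∉ inn N, F v = 0) (t : ℝ) :
    ∫⁻ ω, ENNReal.ofReal (Real.exp (t * Mx (inn N) (A (fun v => η v ω)) F (fun v => η v ω))) ∂μ
      ≤ ENNReal.ofReal (Real.exp (t ^ 2 * D F F / 2)) := by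
  have := h.isProb
  have hX := lintegral_exp_gauss (h.XX_gauss F) (h.XX_mean F) t
  rw [h.var_XX hF] at hX
  rw [← hX]
  have e1 : ∀ ω, ENNReal.ofReal (Real.exp (t * Mx (inn N) (A (fun v => η v ω)) F
      (fun v => η v ω))) = ∑ E ∈ (inn N).powerset, {ω | A (fun v => η v ω) = E}.indicator
        (fun ω => ENNReal.ofReal (Real.exp (t * Mx (inn N) E F (fun v => η v ω)))) ω := by
    intro ω
    rw [Finset.sum_eq_single (A (fun v => η v ω))]
    · rw [Set.indicator_of_mem]; rfl
    · intro E _ hE
      rw [Set.indicator_of_notMem]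
      intro hh; exact hE hh.symm
    · intro hh
      exact absurd (Finset.mem_powerset.2 (hA _)) hh
  have e2 : ∀ ω, ENNReal.ofReal (Real.exp (t * XX N η F ω)) =
      ∑ E ∈ (inn N).powerset, {ω | A (fun v => η v ω) = E}.indicator
        (fun ω => ENNReal.ofReal (Real.exp (t * XX N η F ω))) ω := by
    intro ω
    rw [Finset.sum_eq_single (A (fun v => η v ω))]
    · rw [Set.indicator_of_mem]; rfl
    · intro E _ hE
      rw [Set.indicator_of_notMem]
      intro hh; exact hE hh.symm
    · intro hh
      exact absurd (Finset.mem_powerset.2 (hA _)) hh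
  rw [lintegral_congr e1, lintegral_congr e2]
  have hXm : Measurable (XX N η F) := XX_measurable hm F
  have hηm : Measurable (fun ω (v : V) => η v ω) := measurable_pi_lambda _ (fun v => hm v)
  have hEm : ∀ E : Finset V, MeasurableSet {ω | A (fun v => η v ω) = E} := fun E =>
    hηm (hmeas E)
  have hMm : ∀ E : Finset V, Measurable (fun ω => Mx (inn N) E F (fun v => η v ω)) := by
    intro E; unfold Mx
    exact Finset.measurable_sum _ (fun u _ => (hm u).const_mul _)
  rw [lintegral_finsetSum, lintegral_finsetSum]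
  rotate_left
  · intro E _
    exact (ENNReal.measurable_ofReal.comp (Real.measurable_exp.comp (hXm.const_mul t))).indicator
      (hEm E)
  · intro E _
    exact (ENNReal.measurable_ofReal.comp (Real.measurable_exp.comp ((hMm E).const_mul t))).indicator
      (hEm E)
  refine Finset.sum_le_sum (fun E hE => ?_)
  have hEI : E ⊆ inn N := Finset.mem_powerset.1 hE
  set f : V → ℝ := fun v => F v - hx (inn N) E F v with hf
  have hf0 : ∀ v ∉ inn N, f v = 0 := by
    intro v hv; rw [hf]; show F v - hx (inn N) E F v = 0; rw [hF v hv, hx_out hEI hv]; ring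
  have hfE : ∀ v ∈ E, f v = 0 := by
    intro v hv; rw [hf]; show F v - hx (inn N) E F v = 0; rw [hx_on hv]; ring
  have hind := h.indep hEI hf0 hfE
  -- the two factors
  let ext : (E → ℝ) → V → ℝ := fun z v => if hv : v ∈ E then z ⟨v, hv⟩ else 0
  have hextm : ∀ v, Measurable (fun z : E → ℝ => ext z v) := by
    intro v
    by_cases hv : v ∈ E
    · have : (fun z : E → ℝ => ext z v) = fun z => z ⟨v, hv⟩ := by
        funext z; exact dif_pos hv
      rw [this]; exact measurable_pi_apply _
    · have : (fun z : E → ℝ => ext z v) = fun _ => 0 := by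
        funext z; exact dif_neg hv
      rw [this]; exact measurable_const
  have hextm' : Measurable ext := measurable_pi_lambda _ hextm
  let φ : (E → ℝ) → ℝ≥0∞ := {z | A (ext z) = E}.indicator
    (fun z => ENNReal.ofReal (Real.exp (t * Mx (inn N) E F (ext z))))
  have hφm : Measurable φ := by
    refine Measurable.indicator ?_ (hextm' (hmeas E))
    refine ENNReal.measurable_ofReal.comp (Real.measurable_exp.comp (Measurable.const_mul ?_ t))
    unfold Mx
    exact Finset.measurable_sum _ (fun u _ => (hextm u).const_mul _)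
  let ψ : (Unit → ℝ) → ℝ≥0∞ := fun z => ENNReal.ofReal (Real.exp (t * z ()))
  have hψm : Measurable ψ := by
    have h0 : Measurable (fun z : Unit → ℝ => z ()) := measurable_pi_apply ()
    exact ENNReal.measurable_ofReal.comp (Real.measurable_exp.comp (h0.const_mul t))
  have hφ : ∀ ω, φ (fun w : E => η w ω) = {ω | A (fun v => η v ω) = E}.indicator
        (fun ω => ENNReal.ofReal (Real.exp (t * Mx (inn N) E F (fun v => η v ω)))) ω := by
    intro ω
    have a1 : ∀ v ∈ E, ext (fun w : E => η w ω) v = η v ω := by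
      intro v hv; exact dif_pos hv
    have a2 : A (ext (fun w : E => η w ω)) = E ↔ A (fun v => η v ω) = E := by
      constructor
      · intro hA1
        have := hloc (ext (fun w : E => η w ω)) (fun v => η v ω) (fun v hv => by
          rw [hA1] at hv; exact a1 v hv)
        rw [this, hA1]
      · intro hA1
        have := hloc (fun v => η v ω) (ext (fun w : E => η w ω)) (fun v hv => by
          rw [hA1] at hv; exact (a1 v hv).symm)
        rw [this, hA1]
    have a3 : Mx (inn N) E F (ext (fun w : E => η w ω)) = Mx (inn N) E F (fun v => η v ω) := by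
      unfold Mx
      exact Finset.sum_congr rfl (fun v hv => by rw [a1 v hv])
    simp only [φ, Set.indicator_apply, Set.mem_ofPred_eq, a2, a3]
  have hprod := lintegral_mul_eq_lintegral_mul_lintegral_of_indepFun
    (μ := μ) (f := φ ∘ (fun ω (w : E) => η w ω)) (g := ψ ∘ (fun ω (_ : Unit) => XX N η f ω))
    (hφm.comp (measurable_pi_lambda _ (fun w => hm w)))
    (hψm.comp (measurable_pi_lambda _ (fun _ => XX_measurable hm f)))
    (hind.comp hφm hψm)
  have hone : 1 ≤ ∫⁻ ω, (ψ ∘ (fun ω (_ : Unit) => XX N η f ω)) ω ∂μ := by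
    have := lintegral_exp_gauss (h.XX_gauss f) (h.XX_mean f) t
    have e : ∫⁻ ω, (ψ ∘ (fun ω (_ : Unit) => XX N η f ω)) ω ∂μ =
      ∫⁻ ω, ENNReal.ofReal (Real.exp (t * XX N η f ω)) ∂μ := rfl
    rw [e, this]
    rw [show (1 : ℝ≥0∞) = ENNReal.ofReal 1 by simp]
    apply ENNReal.ofReal_le_ofReal
    apply Real.one_le_exp
    have := variance_nonneg (XX N η f) μ
    positivity
  calc ∫⁻ ω, {ω | A (fun v => η v ω) = E}.indicator
        (fun ω => ENNReal.ofReal (Real.exp (t * Mx (inn N) E F (fun v => η v ω)))) ω ∂μ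
      = (∫⁻ ω, (φ ∘ (fun ω (w : E) => η w ω)) ω ∂μ) * 1 := by
        rw [mul_one]
        refine lintegral_congr (fun ω => ?_)
        exact (hφ ω).symm
    _ ≤ (∫⁻ ω, (φ ∘ (fun ω (w : E) => η w ω)) ω ∂μ) *
        ∫⁻ ω, (ψ ∘ (fun ω (_ : Unit) => XX N η f ω)) ω ∂μ := by gcongr
    _ = ∫⁻ ω, {ω | A (fun v => η v ω) = E}.indicator
        (fun ω => ENNReal.ofReal (Real.exp (t * XX N η F ω))) ω ∂μ := by
        rw [← hprod]
        refine lintegral_congr (fun ω => ?_)
        show φ (fun w : E => η w ω) * ENNReal.ofReal (Real.exp (t * XX N η f ω)) = _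
        rw [hφ ω]
        by_cases hω : ω ∈ {ω | A (fun v => η v ω) = E}
        · rw [Set.indicator_of_mem hω, Set.indicator_of_mem hω,
            ← ENNReal.ofReal_mul (Real.exp_pos _).le, ← Real.exp_add]
          congr 2
          rw [hf, XX_sub, XX_hx hEI]; ring
        · rw [Set.indicator_of_notMem hω, Set.indicator_of_notMem hω, zero_mul]

end Pool.H92.GFL
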