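import Pool.Agent.helper92.GFL.K5
import Pool.Agent.helper92.GFL.G0

namespace Pool.H92.GFL

open Function Finset MeasureTheory ProbabilityTheory Pool.H92.GFF
open scoped Classical ENNReal

/-! ### Basic facts on the full plane kernels -/

/-- the kernel at any point is a matrix entry at `0` -/
lemma k6_zero_row (p : Polynomial ℝ) (N : ℕ) (h : p.natDegree ≤ N) (v : V) :
    kI (ball 0 N) p 0 v = kz p (-v) := by
  rw [kI_bulk (ball 0 N) p (x := 0) ?_ v, zero_sub]
  intro w hw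
  rw [mem_ball]
  simp only [Prod.fst_zero, Prod.snd_zero, sub_zero] at hw ⊢
  have h1 : (p.natDegree : ℤ) ≤ N := by exact_mod_cast h
  have h2 := abs_nonneg w.1
  have h3 := abs_nonneg w.2
  have h4 := abs_le.1 (show |w.1| ≤ (N : ℤ) by linarith)
  have h5 := abs_le.1 (show |w.2| ≤ (N : ℤ) by linarith)
  refine ⟨⟨?_, ?_⟩, ?_, ?_⟩ <;> linarith [h4.1, h4.2, h5.1, h5.2]

lemma k6_row (p : Polynomial ℝ) (N : ℕ) (x : V) (h : (p.natDegree : ℤ) + |x.1| + |x.2| ≤ N)
    (v : V) : kI (ball 0 N) p x v = kz p (x - v) := by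
  rw [kI_bulk (ball 0 N) p (x := x) ?_ v]
  intro w hw
  rw [mem_ball]
  simp only [Prod.fst_zero, Prod.snd_zero] at hw ⊢
  have h2 := abs_nonneg (w.1 - x.1)
  have h3 := abs_nonneg (w.2 - x.2)
  have h6 := abs_nonneg x.1
  have h7 := abs_nonneg x.2
  have h4 : |w.1| ≤ (N : ℤ) := by
    have := abs_add_le (w.1 - x.1) x.1
    rw [sub_add_cancel] at this
    linarith
  have h5 : |w.2| ≤ (N : ℤ) := by
    have := abs_add_le (w.2 - x.2) x.2
    rw [sub_add_cancel] at this
    linarith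
  rw [abs_le] at h4 h5
  refine ⟨⟨?_, ?_⟩, ?_, ?_⟩ <;> linarith [h4.1, h4.2, h5.1, h5.2]

lemma k6_neg (p : Polynomial ℝ) (x : V) : kz p (-x) = kz p x := by
  obtain ⟨N, hN⟩ : ∃ N : ℕ, (p.natDegree : ℤ) + |x.1| + |x.2| ≤ N :=
    ⟨((p.natDegree : ℤ) + |x.1| + |x.2|).toNat, Int.self_le_toNat _⟩
  have h1 : p.natDegree ≤ N := by
    have h2 := abs_nonneg x.1
    have h3 := abs_nonneg x.2
    have : (p.natDegree : ℤ) ≤ N := by linarith
    exact_mod_cast this
  rw [← k6_zero_row p N h1 x, kI_symm, k6_row p N x hN, sub_zero]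

lemma k6_lap (p : Polynomial ℝ) (x : V) :
    lap (kz p) x = 4 * kz ((1 - Polynomial.X) * p) x := by
  obtain ⟨N, hN⟩ : ∃ N : ℕ, (p.natDegree : ℤ) + 1 + |x.1| + |x.2| ≤ N :=
    ⟨((p.natDegree : ℤ) + 1 + |x.1| + |x.2|).toNat, Int.self_le_toNat _⟩
  have h2 := abs_nonneg x.1
  have h3 := abs_nonneg x.2
  have h1 : p.natDegree + 1 ≤ N := by
    have : (p.natDegree : ℤ) + 1 ≤ N := by linarith
    exact_mod_cast this
  have hd : ((1 - Polynomial.X) * p).natDegree ≤ N := by
    refine (Polynomial.natDegree_mul_le).trans ?_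
    have : (1 - Polynomial.X : Polynomial ℝ).natDegree ≤ 1 := by
      refine (Polynomial.natDegree_sub_le _ _).trans ?_
      simp
    omega
  have e1 : kz p = fun v => kI (ball 0 N) p v 0 := by
    ext v
    rw [kI_symm, k6_zero_row p N (by omega), k6_neg]
  have hx : x ∈ ball 0 N := by
    rw [mem_ball]
    simp only [Prod.fst_zero, Prod.snd_zero]
    have h0 : (0 : ℤ) ≤ p.natDegree := by positivity
    have h4 := abs_le.1 (show |x.1| ≤ (N : ℤ) by linarith)
    have h5 := abs_le.1 (show |x.2| ≤ (N : ℤ) by linarith)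
    refine ⟨⟨?_, ?_⟩, ?_, ?_⟩ <;> linarith [h4.1, h4.2, h5.1, h5.2]
  rw [e1, kI_lap _ _ hx, kI_symm, k6_zero_row _ N hd, k6_neg]

/-- two kernels convolved at `0` -/
lemma k6_conv (p q : Polynomial ℝ) (N M : ℕ) (hp : p.natDegree ≤ N) (hq : q.natDegree ≤ N)
    (hM : ∀ v : V, v ∉ ball 0 M → kz q v = 0) (hMN : M ≤ N) :
    ∑ v ∈ ball 0 M, kz p v * kz q v = kI (ball 0 N) (p * q) 0 0 := by
  rw [← kI_mul, ← Finset.sum_subset (ball_mono hMN)]
  · refine Finset.sum_congr rfl fun v _ => ?_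
    rw [kI_symm _ q, k6_zero_row p N hp, k6_zero_row q N hq, k6_neg, k6_neg]
  · intro v _ hv
    rw [kI_symm _ q, k6_zero_row q N hq, k6_neg, hM v hv, mul_zero]

lemma k6_natDegree (j : ℕ) : (Ep j ^ 2).natDegree < 2 * 2 ^ j := by
  refine (Polynomial.natDegree_pow_le).trans_lt ?_
  have := natDegree_Ep_lt j
  omega

theorem ek_far (j : ℕ) {x : V} (h : 2 * 2 ^ j ≤ |x.1| + |x.2|) : ek j x = 0 := by
  refine kz_far _ (lt_of_lt_of_le ?_ h)
  have := k6_natDegree j
  exact_mod_cast this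

lemma k6_far_ball (j n : ℕ) (hn : 2 * 2 ^ j ≤ n + 1) {x : V} (h : x ∉ ball 0 n) : ek j x = 0 := by
  refine ek_far j ?_
  rw [mem_ball] at h
  simp only [Prod.fst_zero, Prod.snd_zero] at h
  have h1 : ((2 * 2 ^ j : ℕ) : ℤ) ≤ ((n + 1 : ℕ) : ℤ) := by exact_mod_cast hn
  push_cast at h1
  have h2 := abs_nonneg x.1
  have h3 := abs_nonneg x.2
  by_contra hcon
  push Not at hcon
  apply h
  have h4 : |x.1| < (n : ℤ) + 1 := by linarith
  have h5 : |x.2| < (n : ℤ) + 1 := by linarith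
  have h6 := abs_lt.1 h4
  have h7 := abs_lt.1 h5
  omega

/-! ### mean value property -/

lemma k6_lap_sum {ι : Type*} (s : Finset ι) (c : ι → ℝ) (f : ι → V → ℝ) (x : V) :
    lap (fun v => ∑ i ∈ s, f i v * c i) x = ∑ i ∈ s, lap (f i) x * c i := by
  simp only [lap, Finset.mul_sum, ← Finset.sum_add_distrib, ← Finset.sum_sub_distrib]
  refine Finset.sum_congr rfl fun i _ => ?_
  ring

/-- iterated averages of a harmonic function -/
lemma k6_pow (I : Finset V) (y : V) (n : ℕ) (hI : ball y (n + 1) ⊆ I) (u : V → ℝ)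
    (hu : ∀ v ∈ ball y n, lap u v = 0) (k : ℕ) : ∀ m : ℕ, m + k ≤ n + 1 → ∀ x ∈ ball y m,
    ∑ w ∈ I, kI I (Polynomial.X ^ k) x w * u w = u x := by
  induction k with
  | zero =>
    intro m hm x hx
    have hxI : x ∈ I := hI (ball_mono (by omega) hx)
    rw [pow_zero, Finset.sum_eq_single x]
    · rw [kI_one, if_pos ⟨rfl, hxI⟩, one_mul]
    · intro w _ hw
      rw [kI_one, if_neg (fun h => hw h.1.symm), zero_mul]
    · intro h
      exact absurd hxI h
  | succ k ih =>
    intro m hm x hx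
    have hxI : x ∈ I := hI (ball_mono (by omega) hx)
    have h1 : lap (fun v => ∑ w ∈ I, kI I (Polynomial.X ^ k) v w * u w) x = lap u x := by
      refine lap_congr (ih m (by omega) x hx) fun w hw => ?_
      exact ih (m + 1) (by omega) w (mem_ball_trans hx (nb_ball hw))
    rw [hu x (ball_mono (by omega) hx), k6_lap_sum I u (fun w v => kI I (Polynomial.X ^ k) v w)]
      at h1
    have h2 : ∀ w, lap (fun v => kI I (Polynomial.X ^ k) v w) x =
        4 * (kI I (Polynomial.X ^ k) x w - kI I (Polynomial.X ^ (k + 1)) x w) := by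
      intro w
      rw [kI_lap I _ hxI, sub_mul, one_mul, ← pow_succ', kI_sub]
    simp only [h2] at h1
    have h3 : ∑ w ∈ I, 4 * (kI I (Polynomial.X ^ k) x w - kI I (Polynomial.X ^ (k + 1)) x w) * u w
        = 4 * (∑ w ∈ I, kI I (Polynomial.X ^ k) x w * u w -
          ∑ w ∈ I, kI I (Polynomial.X ^ (k + 1)) x w * u w) := by
      rw [← Finset.sum_sub_distrib, Finset.mul_sum]
      refine Finset.sum_congr rfl fun w _ => ?_
      ring
    rw [h3, ih m (by omega) x hx] at h1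
    linarith

lemma k6_poly (I : Finset V) (y : V) (n : ℕ) (hI : ball y (n + 1) ⊆ I) (u : V → ℝ)
    (hu : ∀ v ∈ ball y n, lap u v = 0) (p : Polynomial ℝ) (hp : p.natDegree ≤ n) :
    ∑ w ∈ I, kI I p y w * u w = p.eval 1 * u y := by
  conv_lhs => rw [p.as_sum_range_C_mul_X_pow]
  simp only [kI_sum, kI_C_mul, Finset.sum_mul]
  rw [Finset.sum_comm, Polynomial.eval_eq_sum_range, Finset.sum_mul]
  refine Finset.sum_congr rfl fun k hk => ?_
  rw [Finset.mem_range] at hk
  rw [one_pow, mul_one, ← k6_pow I y n hI u hu k 0 (by omega) y (mem_ball_self _ _),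
    Finset.mul_sum]
  refine Finset.sum_congr rfl fun w _ => ?_
  ring

/-- mean value property -/
theorem ek_mean (j : ℕ) (y : V) (u : V → ℝ) (hu : ∀ v ∈ ball y (2 * 2 ^ j), lap u v = 0) :
    u y = ∑ z ∈ ball 0 (2 * 2 ^ j), ek j z * u (y + z) := by
  set n := 2 * 2 ^ j with hn
  have h1 := k6_poly (ball y (n + 1)) y n (Finset.Subset.refl _) u hu (Ep j ^ 2)
    (k6_natDegree j).le
  rw [Polynomial.eval_pow, Ep_eval_one, one_pow, one_mul] at h1
  rw [← h1]
  have h2 : ∀ w, kI (ball y (n + 1)) (Ep j ^ 2) y w = ek j (w - y) := by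
    intro w
    rw [kI_bulk, ek, ← k6_neg, neg_sub]
    intro v hv
    have h3 : ((Ep j ^ 2).natDegree : ℤ) < n := by exact_mod_cast k6_natDegree j
    have h4 := abs_nonneg (v.1 - y.1)
    have h5 := abs_nonneg (v.2 - y.2)
    have h6 := abs_le.1 (show |v.1 - y.1| ≤ (n : ℤ) by linarith)
    have h7 := abs_le.1 (show |v.2 - y.2| ≤ (n : ℤ) by linarith)
    rw [mem_ball]
    push_cast
    refine ⟨⟨?_, ?_⟩, ?_, ?_⟩ <;> linarith [h6.1, h6.2, h7.1, h7.2]
  simp only [h2]
  symm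
  rw [← Finset.sum_subset (s₁ := ball y n) (ball_mono (by omega))]
  · refine Finset.sum_nbij' (fun z => y + z) (fun w => w - y) ?_ ?_ ?_ ?_ ?_
    · intro z hz
      rw [mem_ball] at hz ⊢
      simp only [Prod.fst_zero, Prod.snd_zero, Prod.fst_add, Prod.snd_add] at hz ⊢
      omega
    · intro z hz
      rw [mem_ball] at hz ⊢
      simp only [Prod.fst_zero, Prod.snd_zero, Prod.fst_sub, Prod.snd_sub] at hz ⊢
      omega
    · intro z _
      simp
    · intro z _
      simp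
    · intro z _
      simp
  · intro w _ hw
    rw [k6_far_ball j n (by omega), zero_mul]
    rw [mem_ball] at hw ⊢
    simp only [Prod.fst_zero, Prod.snd_zero, Prod.fst_sub, Prod.snd_sub]
    omega

/-! ### gradient of the averaging kernel -/

lemma k6_fin (j : ℕ) : (support (ek j)).Finite := by
  refine ((ball 0 (2 * 2 ^ j)).finite_toSet).subset fun v hv => ?_
  by_contra h
  exact hv (k6_far_ball j _ (by omega) h)

lemma k6_energy (j : ℕ) : D (ek j) (ek j) ≤ 1024 / 16 ^ j := by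
  set n := 2 * 2 ^ j with hn
  have hoff : ∀ v ∉ ball 0 n, ek j v = 0 := fun v hv => k6_far_ball j n (by omega) hv
  have hd := k6_natDegree j
  have hd2 : ((1 - Polynomial.X) * Ep j ^ 2 : Polynomial ℝ).natDegree ≤ n + 1 := by
    refine (Polynomial.natDegree_mul_le).trans ?_
    have : (1 - Polynomial.X : Polynomial ℝ).natDegree ≤ 1 := by
      refine (Polynomial.natDegree_sub_le _ _).trans ?_
      simp
    omega
  have h1 : D (ek j) (ek j) =
      4 * kI (ball 0 (n + 1)) ((1 - Polynomial.X) * Ep j ^ 2 * Ep j ^ 2) 0 0 := by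
    rw [D_eq_sum (W := ball 0 n) hoff,
      ← k6_conv ((1 - Polynomial.X) * Ep j ^ 2) (Ep j ^ 2) (n + 1) n hd2 (by omega) hoff (by omega),
      Finset.mul_sum]
    refine Finset.sum_congr rfl fun v _ => ?_
    change lap (kz (Ep j ^ 2)) v * kz (Ep j ^ 2) v = _
    rw [k6_lap]
    ring
  have h2 : kI (ball 0 (n + 1)) ((1 - Polynomial.X) * Ep j ^ 2 * Ep j ^ 2) 0 0 ≤
      kI (ball 0 (n + 1)) (Polynomial.C (2 / 4 ^ j) * Ep j ^ 2) 0 0 := by
    refine kI_diag_mono _ _ _ (fun x hx => ?_) 0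
    simp only [Polynomial.eval_mul, Polynomial.eval_pow, Polynomial.eval_sub, Polynomial.eval_one,
      Polynomial.eval_X, Polynomial.eval_C]
    have e0 := Ep_nonneg j hx
    have e1 := Ep_le_one j hx
    have e2 := Ep_mul_le j hx
    have e3 : 0 ≤ 2 / (4 : ℝ) ^ j := by positivity
    set a := (Ep j).eval x with ha
    have e4 : (1 - x) * a ^ 2 * a ^ 2 = (a * (1 - x)) * (a ^ 2 * a) := by ring
    rw [e4]
    have e5 : a ^ 2 * a ≤ a ^ 2 := by nlinarith [sq_nonneg a]
    have e6 : 0 ≤ a ^ 2 * a := by positivity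
    calc (a * (1 - x)) * (a ^ 2 * a) ≤ 2 / 4 ^ j * (a ^ 2 * a) :=
          mul_le_mul_of_nonneg_right e2 e6
      _ ≤ 2 / 4 ^ j * a ^ 2 := mul_le_mul_of_nonneg_left e5 e3
  rw [kI_C_mul] at h2
  have h3 := kI_Ep_diag (ball 0 (n + 1)) j 0
  have h4 : (2 : ℝ) / 4 ^ j * kI (ball 0 (n + 1)) (Ep j ^ 2) 0 0 ≤ 2 / 4 ^ j * (128 / 4 ^ j) :=
    mul_le_mul_of_nonneg_left h3 (by positivity)
  rw [h1]
  have h5 : (1024 : ℝ) / 16 ^ j = 4 * (2 / 4 ^ j * (128 / 4 ^ j)) := by
    rw [show (16 : ℝ) = 4 * 4 by norm_num, mul_pow]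
    field_simp
    norm_num
  rw [h5]
  linarith

lemma k6_grad_sq {f : V → ℝ} (hf : (support f).Finite) (B : Finset V) {e : V}
    (he : e ∈ nb (0 : V)) : ∑ z ∈ B, (f (z + e) - f z) ^ 2 ≤ D f f := by
  have hs := D_summable (f := f) hf
  have h1 : ∀ (B : Finset V) (e : V), (e = (1, 0) ∨ e = (0, 1)) →
      ∑ z ∈ B, (f (z + e) - f z) ^ 2 ≤ D f f := by
    intro B e he
    refine le_trans (Finset.sum_le_sum fun z _ => ?_) (hs.sum_le_tsum B fun z _ => ?_)
    · rw [e1_eq, e2_eq]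
      rcases he with rfl | rfl
      · nlinarith [mul_self_nonneg (f (z + (0, 1)) - f z)]
      · nlinarith [mul_self_nonneg (f (z + (1, 0)) - f z)]
    · exact add_nonneg (mul_self_nonneg _) (mul_self_nonneg _)
  have h2 : ∀ (e : V), (e = (1, 0) ∨ e = (0, 1)) →
      ∑ z ∈ B, (f (z + -e) - f z) ^ 2 ≤ D f f := by
    intro e he
    have h3 := h1 (B.map (Equiv.subRight e).toEmbedding) e he
    rw [Finset.sum_map] at h3
    refine le_trans (le_of_eq ?_) h3
    refine Finset.sum_congr rfl fun z _ => ?_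
    simp only [Equiv.coe_toEmbedding, Equiv.subRight_apply, sub_add_cancel]
    rw [sub_eq_add_neg z e]
    ring
  simp only [nb, Finset.mem_insert, Finset.mem_singleton] at he
  rcases he with h | h | h | h
  · refine h1 B e (Or.inl ?_)
    rw [h]; rfl
  · have : e = -((1, 0) : V) := by rw [h]; rfl
    rw [this]
    exact h2 (1, 0) (Or.inl rfl)
  · refine h1 B e (Or.inr ?_)
    rw [h]; rfl
  · have : e = -((0, 1) : V) := by rw [h]; rfl
    rw [this]
    exact h2 (0, 1) (Or.inr rfl)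

lemma k6_card_ball (z : V) (n : ℕ) : (ball z n).card = (2 * n + 1) ^ 2 := by
  rw [ball, Finset.card_product, Int.card_Icc, Int.card_Icc, pow_two]
  congr 1 <;> omega

theorem ek_grad : ∃ C : ℝ, 0 < C ∧ ∀ (j : ℕ), ∀ e ∈ nb (0 : V),
    ∑ z ∈ ball 0 (2 * 2 ^ j + 1), |ek j (z + e) - ek j z| ≤ C / 2 ^ j := by
  refine ⟨224, by norm_num, fun j e he => ?_⟩
  have h1 := sq_sum_le_card_mul_sum_sq (s := ball 0 (2 * 2 ^ j + 1))
    (f := fun z => |ek j (z + e) - ek j z|)
  simp only [sq_abs] at h1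
  have h2 := (k6_grad_sq (k6_fin j) (ball 0 (2 * 2 ^ j + 1)) he).trans (k6_energy j)
  have h3 : ((ball 0 (2 * 2 ^ j + 1)).card : ℝ) ≤ 49 * 4 ^ j := by
    rw [k6_card_ball]
    push_cast
    have h4 : (1 : ℝ) ≤ 2 ^ j := one_le_pow₀ (by norm_num)
    have h5 : (4 : ℝ) ^ j = 2 ^ j * 2 ^ j := by rw [← mul_pow]; norm_num
    rw [h5]
    nlinarith
  have h6 : (∑ z ∈ ball 0 (2 * 2 ^ j + 1), |ek j (z + e) - ek j z|) ^ 2 ≤ (224 / 2 ^ j) ^ 2 := by
    refine h1.trans ?_
    refine (mul_le_mul h3 h2 (Finset.sum_nonneg fun _ _ => sq_nonneg _) (by positivity)).trans ?_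
    rw [div_pow, ← pow_mul, mul_comm j 2, pow_mul]
    rw [show (16 : ℝ) = 4 * 4 by norm_num, mul_pow]
    norm_num
    have h7 : (0 : ℝ) < 4 ^ j := by positivity
    rw [mul_div_assoc', div_le_div_iff₀ (by positivity) h7]
    nlinarith
  exact le_of_sq_le_sq h6 (by positivity)

/-- gradient estimate for harmonic functions -/
theorem harm_grad : ∃ C : ℝ, 0 < C ∧ ∀ (j : ℕ) (y : V) (u : V → ℝ) (M : ℝ),
    (∀ v ∈ ball y (4 * 2 ^ j), lap u v = 0) → (∀ v ∈ ball y (4 * 2 ^ j), |u v| ≤ M) →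
    ∀ e ∈ nb (0 : V), |u (y + e) - u y| ≤ C / 2 ^ j * M := by
  obtain ⟨C, hC, hgrad⟩ := ek_grad
  refine ⟨C, hC, fun j y u M hu hM e he => ?_⟩
  have hj : 1 ≤ 2 ^ j := Nat.one_le_two_pow
  set n := 2 * 2 ^ j with hn
  have h4n : 4 * 2 ^ j = 2 * n := by omega
  have hn1 : 2 ≤ n := by omega
  rw [h4n] at hu hM
  have hne : -e ∈ nb (0 : V) := by
    simp only [nb, Finset.mem_insert, Finset.mem_singleton] at he ⊢
    rcases he with h | h | h | h <;> rw [h]
    · right; left; rfl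
    · left; rfl
    · right; right; right; rfl
    · right; right; left; rfl
  have heb : e ∈ ball 0 1 := nb_ball he
  rw [mem_ball] at heb
  simp only [Prod.fst_zero, Prod.snd_zero, Nat.cast_one] at heb
  have hM0 : 0 ≤ M := (abs_nonneg _).trans (hM y (mem_ball_self _ _))
  have h1 : u y = ∑ z ∈ ball 0 (n + 1), ek j z * u (y + z) := by
    rw [ek_mean j y u (fun v hv => hu v (ball_mono (by omega) hv))]
    refine Finset.sum_subset (ball_mono (by omega)) fun z _ hz => ?_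
    rw [k6_far_ball j n (by omega) hz, zero_mul]
  have h2 : u (y + e) = ∑ z ∈ ball 0 (n + 1), ek j (z + -e) * u (y + z) := by
    rw [ek_mean j (y + e) u (fun v hv => hu v ?_)]
    · have h3 : ∑ z ∈ ball 0 n, ek j z * u (y + e + z) =
          ∑ z ∈ (ball 0 n).map (Equiv.addRight e).toEmbedding, ek j (z + -e) * u (y + z) := by
        rw [Finset.sum_map]
        refine Finset.sum_congr rfl fun z _ => ?_
        simp only [Equiv.coe_toEmbedding, Equiv.coe_addRight, add_neg_cancel_right]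
        rw [add_assoc y e z, add_comm e z]
      rw [h3]
      refine Finset.sum_subset (fun z hz => ?_) fun z _ hz => ?_
      · rw [Finset.mem_map_equiv, mem_ball] at hz
        rw [mem_ball]
        simp only [Prod.fst_zero, Prod.snd_zero, Equiv.addRight_symm, Equiv.coe_addRight,
          Prod.fst_add, Prod.snd_add, Prod.fst_neg, Prod.snd_neg] at hz ⊢
        push_cast
        omega
      · rw [k6_far_ball j n (by omega), zero_mul]
        intro h
        apply hz
        rw [Finset.mem_map_equiv]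
        simpa using h
    · change v ∈ ball (y + e) n at hv
      rw [mem_ball] at hv ⊢
      simp only [Prod.fst_add, Prod.snd_add] at hv
      omega
  have h3 : u (y + e) - u y = ∑ z ∈ ball 0 (n + 1), (ek j (z + -e) - ek j z) * u (y + z) := by
    rw [h1, h2, ← Finset.sum_sub_distrib]
    refine Finset.sum_congr rfl fun z _ => ?_
    ring
  rw [h3]
  refine (Finset.abs_sum_le_sum_abs _ _).trans ?_
  refine le_trans (Finset.sum_le_sum fun z hz => ?_)
    (le_of_eq_of_le (Finset.sum_mul (ball 0 (n + 1)) (fun z => |ek j (z + -e) - ek j z|) M).symm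
      (mul_le_mul_of_nonneg_right (hgrad j (-e) hne) hM0))
  rw [abs_mul]
  refine mul_le_mul_of_nonneg_left (hM _ ?_) (abs_nonneg _)
  rw [mem_ball] at hz ⊢
  simp only [Prod.fst_zero, Prod.snd_zero, Prod.fst_add, Prod.snd_add] at hz ⊢
  push_cast at hz ⊢
  omega

end Pool.H92.GFL
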