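import Pool.Agent.helper92.GFL.K3
import Pool.Agent.helper92.GFL.G0

namespace Pool.H92.GFL

open Function Finset MeasureTheory ProbabilityTheory Pool.H92.GFF
open scoped Classical ENNReal

namespace K4

/-! ### symmetries -/

lemma kz_map (f : V ≃+ V) (hf : AddMonoidAlgebra.mapDomainAlgHom ℝ ℝ (f : V →+ V) PP = PP)
    (p : Polynomial ℝ) (x : V) : kz p (f x) = kz p x := by
  have h1 : AddMonoidAlgebra.mapDomainAlgHom ℝ ℝ (f : V →+ V) (Polynomial.aeval PP p)
      = Polynomial.aeval PP p := by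
    rw [← Polynomial.aeval_algHom_apply, hf]
  have h2 : (AddMonoidAlgebra.mapDomainAlgHom ℝ ℝ (f : V →+ V) (Polynomial.aeval PP p)).coeff (f x)
      = (Polynomial.aeval PP p).coeff x := by
    exact Finsupp.mapDomain_apply f.injective _ _
  rw [kz, kz, ← h2, h1]

lemma map_PP (f : V →+ V) : AddMonoidAlgebra.mapDomainAlgHom ℝ ℝ f PP =
    (1 / 4 : ℝ) • (AddMonoidAlgebra.single (f (1, 0)) 1 + AddMonoidAlgebra.single (f (-1, 0)) 1 +
      AddMonoidAlgebra.single (f (0, 1)) 1 + AddMonoidAlgebra.single (f (0, -1)) 1) := by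
  rw [PP, map_smul, map_add, map_add, map_add]
  have h : ∀ v : V, AddMonoidAlgebra.mapDomainAlgHom ℝ ℝ f (AddMonoidAlgebra.single v (1 : ℝ)) =
      AddMonoidAlgebra.single (f v) (1 : ℝ) := fun v => AddMonoidAlgebra.mapDomain_single
  rw [h, h, h, h]

/-- `x ↦ -x` -/
def fneg : V ≃+ V := AddEquiv.neg V

/-- swap -/
def fswap : V ≃+ V := AddEquiv.prodComm

/-- reflection of the first coordinate -/
def frefl : V ≃+ V := AddEquiv.prodCongr (AddEquiv.neg ℤ) (AddEquiv.refl ℤ)

lemma frefl_apply (v : V) : (frefl : V →+ V) v = (-v.1, v.2) := rfl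

end K4

theorem kz_neg (p : Polynomial ℝ) (x : V) : kz p (-x) = kz p x := by
  refine K4.kz_map K4.fneg ?_ p x
  rw [K4.map_PP, PP]
  simp only [K4.fneg, AddMonoidHom.coe_coe, AddEquiv.neg_apply, Prod.neg_mk, neg_neg, neg_zero]
  abel_nf

theorem kz_swap (p : Polynomial ℝ) (x : V) : kz p (x.2, x.1) = kz p x := by
  refine K4.kz_map K4.fswap ?_ p x
  rw [K4.map_PP, PP]
  simp only [K4.fswap, AddMonoidHom.coe_coe, AddEquiv.coe_prodComm, Prod.swap_prod_mk]
  abel_nf

theorem kz_refl (p : Polynomial ℝ) (x : V) : kz p (-x.1, x.2) = kz p x := by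
  refine K4.kz_map K4.frefl ?_ p x
  rw [K4.map_PP, PP]
  simp only [K4.frefl_apply, neg_neg, neg_zero]
  abel_nf

namespace K4

lemma kz_add (p q : Polynomial ℝ) (x : V) : kz (p + q) x = kz p x + kz q x := by
  simp [kz]

lemma kz_sub (p q : Polynomial ℝ) (x : V) : kz (p - q) x = kz p x - kz q x := by
  simp [kz]

lemma kz_C_mul (c : ℝ) (p : Polynomial ℝ) (x : V) : kz (Polynomial.C c * p) x = c * kz p x := by
  rw [kz, kz, ← Polynomial.smul_eq_C_mul, map_smul]
  simp

lemma kz_C (c : ℝ) (x : V) : kz (Polynomial.C c) x = if x = 0 then c else 0 := by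
  rw [kz, Polynomial.aeval_C, AddMonoidAlgebra.coe_algebraMap]
  simp only [comp_apply, Algebra.algebraMap_self, RingHom.id_apply,
    AddMonoidAlgebra.coeff_single_apply, eq_comm]

lemma kz_X_mul (p : Polynomial ℝ) (x : V) : kz (Polynomial.X * p) x =
    (1 / 4) * (kz p (x.1 - 1, x.2) + kz p (x.1 + 1, x.2) + kz p (x.1, x.2 - 1)
      + kz p (x.1, x.2 + 1)) := by
  obtain ⟨a, b⟩ := x
  simp only [kz, map_mul, Polynomial.aeval_X]
  generalize Polynomial.aeval PP p = A
  rw [PP]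
  simp only [smul_mul_assoc, add_mul, AddMonoidAlgebra.coeff_smul, AddMonoidAlgebra.coeff_add,
    Finsupp.smul_apply, Finsupp.add_apply, AddMonoidAlgebra.coeff_single_mul_apply, one_mul,
    smul_eq_mul, Prod.neg_mk, Prod.mk_add_mk, neg_neg, neg_zero, zero_add]
  rw [show (-1 + a : ℤ) = a - 1 by ring, show (1 + a : ℤ) = a + 1 by ring,
    show (-1 + b : ℤ) = b - 1 by ring, show (1 + b : ℤ) = b + 1 by ring]

/-! ### positive definiteness -/

lemma kz_psd (p : Polynomial ℝ) (hp : ∀ x : ℝ, |x| ≤ 1 → 0 ≤ p.eval x) (s : Finset V)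
    (a : V → ℝ) : 0 ≤ ∑ x ∈ s, ∑ y ∈ s, a x * a y * kz p (x - y) := by
  set I : Finset V := s.biUnion (fun x => ball x p.natDegree) with hI
  have hsI : s ⊆ I := by
    intro x hx
    rw [hI, Finset.mem_biUnion]
    exact ⟨x, hx, mem_ball_self x _⟩
  set a' : V → ℝ := fun x => if x ∈ s then a x else 0 with ha'
  have h1 := kI_psd I p hp a'
  have h2 : ∑ x ∈ I, ∑ y ∈ I, a' x * a' y * kI I p x y
      = ∑ x ∈ s, ∑ y ∈ s, a x * a y * kz p (x - y) := by
    rw [← Finset.sum_subset hsI (f := fun x => ∑ y ∈ I, a' x * a' y * kI I p x y)]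
    · refine Finset.sum_congr rfl fun x hx => ?_
      rw [← Finset.sum_subset hsI (f := fun y => a' x * a' y * kI I p x y)]
      · refine Finset.sum_congr rfl fun y hy => ?_
        rw [kI_bulk I p (fun v hv => ?_) y]
        · simp only [ha', if_pos hx, if_pos hy]
        · rw [hI, Finset.mem_biUnion]
          refine ⟨x, hx, mem_ball.2 ?_⟩
          have e1 := abs_nonneg (v.1 - x.1)
          have e2 := abs_nonneg (v.2 - x.2)
          have e3 := abs_le.1 (show |v.1 - x.1| ≤ (p.natDegree : ℤ) by omega)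
          have e4 := abs_le.1 (show |v.2 - x.2| ≤ (p.natDegree : ℤ) by omega)
          omega
      · intro y _ hy
        simp only [ha', if_neg hy, mul_zero, zero_mul]
    · intro x _ hx
      refine Finset.sum_eq_zero fun y _ => ?_
      simp only [ha', if_neg hx, zero_mul]
  rw [← h2]
  exact h1

lemma kz_zero_nonneg (p : Polynomial ℝ) (hp : ∀ x : ℝ, |x| ≤ 1 → 0 ≤ p.eval x) :
    0 ≤ kz p 0 := by
  have h := kz_psd p hp {0} (fun _ => 1)
  simpa using h

lemma kz_abs_le (p : Polynomial ℝ) (hp : ∀ x : ℝ, |x| ≤ 1 → 0 ≤ p.eval x) (x : V) :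
    |kz p x| ≤ kz p 0 := by
  by_cases hx : x = 0
  · rw [hx, abs_of_nonneg (kz_zero_nonneg p hp)]
  · have key : ∀ t : ℝ, t * t = 1 → 0 ≤ kz p 0 + t * kz p x := by
      intro t ht
      have h := kz_psd p hp {0, x} (fun v => if v = 0 then 1 else t)
      have hne : (0 : V) ≠ x := fun h => hx h.symm
      rw [Finset.sum_pair hne, Finset.sum_pair hne, Finset.sum_pair hne] at h
      simp only [if_true, if_neg hx, sub_self, zero_sub, sub_zero, kz_neg, ht, one_mul,
        mul_one] at h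
      linarith
    have h1 := key 1 (by norm_num)
    have h2 := key (-1) (by norm_num)
    rw [abs_le]
    constructor <;> linarith

/-! ### the total mass -/

lemma sum_kz (p : Polynomial ℝ) {n : ℕ} (hn : p.natDegree ≤ n) :
    ∑ x ∈ ball 0 n, kz p x = p.eval 1 := by
  have h1 : AddMonoidAlgebra.lift ℝ ℝ V 1 PP = 1 := by
    rw [PP, map_smul, map_add, map_add, map_add]
    simp only [AddMonoidAlgebra.lift_single, MonoidHom.one_apply, smul_eq_mul]
    norm_num
  have h2 : AddMonoidAlgebra.lift ℝ ℝ V 1 (Polynomial.aeval PP p) = p.eval 1 := by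
    rw [← Polynomial.aeval_algHom_apply, h1, Polynomial.coe_aeval_eq_eval]
  rw [← h2, AddMonoidAlgebra.lift_apply, Finsupp.sum]
  simp only [MonoidHom.one_apply, smul_eq_mul, mul_one]
  symm
  refine Finset.sum_subset ?_ ?_
  · intro x hx
    rw [Finsupp.mem_support_iff] at hx
    by_contra hcon
    refine hx (kz_far p ?_)
    rw [mem_ball] at hcon
    have e1 := abs_nonneg x.1
    have e2 := abs_nonneg x.2
    have e3 := neg_abs_le x.1
    have e4 := le_abs_self x.1
    have e5 := neg_abs_le x.2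
    have e6 := le_abs_self x.2
    simp only [Prod.fst_zero, Prod.snd_zero] at hcon
    by_contra hlt
    apply hcon
    omega
  · intro x _ hx
    rw [Finsupp.notMem_support_iff] at hx
    exact hx

/-! ### marginals -/

/-- nonnegative coefficients -/
def NN (a : AddMonoidAlgebra ℝ ℤ) : Prop := ∀ u, 0 ≤ a.coeff u

lemma NN.add {a b : AddMonoidAlgebra ℝ ℤ} (ha : NN a) (hb : NN b) : NN (a + b) := fun u => by
  rw [AddMonoidAlgebra.coeff_add, Finsupp.add_apply]
  exact add_nonneg (ha u) (hb u)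

lemma NN.smul {a : AddMonoidAlgebra ℝ ℤ} {c : ℝ} (hc : 0 ≤ c) (ha : NN a) : NN (c • a) :=
  fun u => by
  rw [AddMonoidAlgebra.coeff_smul, Finsupp.smul_apply, smul_eq_mul]
  exact mul_nonneg hc (ha u)

lemma NN.mul {a b : AddMonoidAlgebra ℝ ℤ} (ha : NN a) (hb : NN b) : NN (a * b) := fun u => by
  rw [AddMonoidAlgebra.coeff_mul]
  refine Finset.sum_nonneg fun i _ => Finset.sum_nonneg fun j _ => ?_
  dsimp only
  split_ifs
  · exact mul_nonneg (ha i) (hb j)
  · exact le_rfl

lemma NN.single (u : ℤ) {r : ℝ} (hr : 0 ≤ r) : NN (AddMonoidAlgebra.single u r) := fun v => by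
  rw [AddMonoidAlgebra.coeff_single_apply]
  split_ifs
  · exact hr
  · exact le_rfl

lemma NN.one : NN 1 := by
  rw [AddMonoidAlgebra.one_def]
  exact NN.single 0 zero_le_one

/-- the one dimensional step distribution -/
noncomputable def cc (n : ℤ) : AddMonoidAlgebra ℝ ℤ :=
  (1 / 2 : ℝ) • (AddMonoidAlgebra.single n 1 + AddMonoidAlgebra.single (-n) 1)

lemma cc_sq (n : ℤ) : 2 * cc n ^ 2 - 1 = cc (n + n) := by
  have h1 : cc n ^ 2 = (1 / 4 : ℝ) • (AddMonoidAlgebra.single (n + n) 1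
      + AddMonoidAlgebra.single (-(n + n)) 1 + (2 : ℝ) • AddMonoidAlgebra.single 0 1) := by
    rw [cc, smul_pow, pow_two (_ + _), add_mul, mul_add, mul_add]
    simp only [AddMonoidAlgebra.single_mul_single, mul_one, add_neg_cancel, neg_add_cancel]
    rw [show (1 / 2 : ℝ) ^ 2 = 1 / 4 by norm_num, show -n + -n = -(n + n) by ring]
    congr 1
    rw [two_smul]
    abel
  rw [h1, cc, AddMonoidAlgebra.one_def, show (2 : AddMonoidAlgebra ℝ ℤ) = (2 : ℝ) • 1 by
    rw [Algebra.smul_def, mul_one, map_ofNat], smul_one_mul, smul_smul, smul_add, smul_smul]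
  norm_num

lemma aeval_Tp (j : ℕ) : Polynomial.aeval (cc 1) (Tp j) = cc (2 ^ j) := by
  induction j with
  | zero => simp [Tp]
  | succ j ih =>
    rw [Tp, map_sub, map_mul, map_pow, ih, map_one, map_ofNat, cc_sq]
    congr 1
    ring

lemma NN_Ep (j : ℕ) : NN (Polynomial.aeval (cc 1) (Ep j)) := by
  induction j with
  | zero => simpa [Ep] using NN.one
  | succ j ih =>
    rw [Ep, map_mul, map_mul, map_add, map_one, aeval_Tp, Polynomial.aeval_C,
      ← Algebra.smul_def]
    refine NN.smul (by norm_num) (ih.mul (NN.one.add ?_))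
    exact NN.smul (by norm_num) ((NN.single _ zero_le_one).add (NN.single _ zero_le_one))

lemma NN_cpol (j : ℕ) : NN (Polynomial.aeval (cc 1) (cpol j)) := by
  rw [cpol, map_mul, map_mul, map_pow, map_add, Polynomial.aeval_C, ← Algebra.smul_def, pow_two]
  exact NN.smul (by positivity) (((NN_Ep j).mul (NN_Ep j)).mul ((NN_Ep j).add (NN_Ep (j + 1))))

/-- `(x, y) ↦ x + y` -/
def fsum : V →+ ℤ := AddMonoidHom.fst ℤ ℤ + AddMonoidHom.snd ℤ ℤ

lemma fsum_apply (v : V) : fsum v = v.1 + v.2 := rfl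

lemma map_PP_sum : AddMonoidAlgebra.mapDomainAlgHom ℝ ℝ fsum PP = cc 1 := by
  rw [PP, map_smul, map_add, map_add, map_add]
  have h : ∀ v : V, AddMonoidAlgebra.mapDomainAlgHom ℝ ℝ fsum (AddMonoidAlgebra.single v (1 : ℝ)) =
      AddMonoidAlgebra.single (fsum v) (1 : ℝ) := fun v => AddMonoidAlgebra.mapDomain_single
  rw [h, h, h, h]
  simp only [fsum_apply, add_zero, zero_add, cc]
  have h2 : ∀ A B : AddMonoidAlgebra ℝ ℤ, (1 / 4 : ℝ) • (A + B + A + B) = (1 / 2 : ℝ) • (A + B) := by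
    intro A B
    module
  exact h2 _ _

end K4

theorem kap_far (j : ℕ) {x : V} (h : 4 * 2 ^ j ≤ |x.1| + |x.2|) : kap j x = 0 := by
  refine kz_far _ ?_
  have h1 := natDegree_cpol_lt j
  have h2 : ((cpol j).natDegree : ℤ) < 4 * 2 ^ j := by exact_mod_cast h1
  omega

theorem kap_psd (j : ℕ) (s : Finset V) (a : V → ℝ) :
    0 ≤ ∑ x ∈ s, ∑ y ∈ s, a x * a y * kap j (x - y) :=
  K4.kz_psd _ (fun _ hx => cpol_nonneg j hx) s a

theorem kap_psd_le (j : ℕ) (s : Finset V) (a : V → ℝ) :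
    ∑ x ∈ s, ∑ y ∈ s, a x * a y * kap j (x - y) ≤ 4 ^ j / 4 * ∑ x ∈ s, a x ^ 2 := by
  have h := K4.kz_psd (Polynomial.C (4 ^ j / 4) - cpol j) (fun x hx => by
    rw [Polynomial.eval_sub, Polynomial.eval_C]
    linarith [cpol_le' j hx]) s a
  have h2 : ∑ x ∈ s, ∑ y ∈ s, a x * a y * kz (Polynomial.C (4 ^ j / 4) - cpol j) (x - y)
      = 4 ^ j / 4 * ∑ x ∈ s, a x ^ 2 - ∑ x ∈ s, ∑ y ∈ s, a x * a y * kap j (x - y) := by
    rw [Finset.mul_sum, ← Finset.sum_sub_distrib]
    refine Finset.sum_congr rfl fun x hx => ?_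
    have h3 : ∀ y, a x * a y * kz (Polynomial.C (4 ^ j / 4) - cpol j) (x - y) =
        (if x = y then a x * a y * (4 ^ j / 4) else 0) - a x * a y * kap j (x - y) := by
      intro y
      rw [K4.kz_sub, K4.kz_C, kap]
      by_cases hxy : x = y
      · simp only [hxy, sub_self, if_true]
        ring
      · rw [if_neg (sub_ne_zero.2 hxy), if_neg hxy]
        ring
    simp_rw [h3]
    rw [Finset.sum_sub_distrib, Finset.sum_ite_eq, if_pos hx]
    ring
  linarith

theorem kap_abs_le (j : ℕ) (x : V) : |kap j x| ≤ kap j 0 :=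
  K4.kz_abs_le _ (fun _ hx => cpol_nonneg j hx) x

theorem kap_zero_le (j : ℕ) : kap j 0 ≤ 32 := by
  have h := kI_bulk (ball 0 (cpol j).natDegree) (cpol j) (x := 0) (fun v hv => by
    rw [mem_ball]
    simp only [Prod.fst_zero, Prod.snd_zero, sub_zero] at hv ⊢
    have e1 := abs_nonneg v.1
    have e2 := abs_nonneg v.2
    have e3 := neg_abs_le v.1
    have e4 := le_abs_self v.1
    have e5 := neg_abs_le v.2
    have e6 := le_abs_self v.2
    omega) 0
  rw [sub_zero] at h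
  rw [kap, ← h]
  exact kI_cpol_diag _ j 0

theorem kap_grad (j : ℕ) {e : V} (he : e ∈ nb 0) : kap j 0 - kap j e ≤ 32 / 4 ^ j := by
  have s1 : kz (cpol j) (-1, 0) = kz (cpol j) (1, 0) := kz_refl (cpol j) (1, 0)
  have s2 : kz (cpol j) (0, 1) = kz (cpol j) (1, 0) := kz_swap (cpol j) (1, 0)
  have s3 : kz (cpol j) (0, -1) = kz (cpol j) (1, 0) := by
    rw [← s1]
    exact kz_swap (cpol j) (-1, 0)
  have h0 : kz (cpol j) e = kz (cpol j) (1, 0) := by
    simp only [nb, Finset.mem_insert, Finset.mem_singleton, Prod.fst_zero, Prod.snd_zero,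
      zero_add, zero_sub] at he
    rcases he with rfl | rfl | rfl | rfl
    · rfl
    · exact s1
    · exact s2
    · exact s3
  have h1 : kz ((1 - Polynomial.X) * cpol j) 0 = kap j 0 - kap j e := by
    rw [sub_mul, one_mul, K4.kz_sub, K4.kz_X_mul]
    simp only [Prod.fst_zero, Prod.snd_zero, zero_add, zero_sub]
    rw [s1, s2, s3, kap, kap, h0]
    ring
  have h2 : 4 * kz ((1 - Polynomial.X) * cpol j) 0 = kz ((Ep j) ^ 2) 0 - kz ((Ep (j + 1)) ^ 2) 0 := by
    rw [← K4.kz_sub, ← cpol_lap, show (4 : Polynomial ℝ) = Polynomial.C 4 from rfl, K4.kz_C_mul]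
  have h3 : 0 ≤ kz ((Ep (j + 1)) ^ 2) 0 := K4.kz_zero_nonneg _ (fun x _ => by
    rw [Polynomial.eval_pow]; positivity)
  have h4 : kz ((Ep j) ^ 2) 0 ≤ 128 / 4 ^ j := by
    have h := kI_bulk (ball 0 ((Ep j) ^ 2).natDegree) ((Ep j) ^ 2) (x := 0) (fun v hv => by
      rw [mem_ball]
      simp only [Prod.fst_zero, Prod.snd_zero, sub_zero] at hv ⊢
      have e1 := abs_nonneg v.1
      have e2 := abs_nonneg v.2
      have e3 := neg_abs_le v.1
      have e4 := le_abs_self v.1
      have e5 := neg_abs_le v.2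
      have e6 := le_abs_self v.2
      omega) 0
    rw [sub_zero] at h
    rw [← h]
    exact kI_Ep_diag _ j 0
  have h5 : (32 : ℝ) / 4 ^ j = 128 / 4 ^ j / 4 := by ring
  rw [← h1, h5]
  linarith

theorem kap_sum (j : ℕ) : ∑ x ∈ ball 0 (4 * 2 ^ j), kap j x = 4 ^ j / 4 := by
  have h := K4.sum_kz (cpol j) (natDegree_cpol_lt j).le
  simp only [kap]
  rw [h, cpol]
  simp only [Polynomial.eval_mul, Polynomial.eval_C, Polynomial.eval_pow, Polynomial.eval_add,
    Ep_eval_one]
  ring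

theorem kap_zero_ge (j : ℕ) : 1 / 400 ≤ kap j 0 := by
  have h1 := kap_sum j
  have h2 : ∑ x ∈ ball 0 (4 * 2 ^ j), kap j x ≤ ∑ _x ∈ ball 0 (4 * 2 ^ j), kap j 0 :=
    Finset.sum_le_sum fun x _ => (le_abs_self _).trans (kap_abs_le j x)
  rw [h1, Finset.sum_const, nsmul_eq_mul] at h2
  have h3 : ((ball 0 (4 * 2 ^ j)).card : ℝ) ≤ 81 * 4 ^ j := by
    have h4 : (ball 0 (4 * 2 ^ j)).card = (8 * 2 ^ j + 1) * (8 * 2 ^ j + 1) := by
      rw [ball, Finset.card_product]
      simp only [Int.card_Icc, Prod.fst_zero, Prod.snd_zero]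
      generalize 2 ^ j = m
      congr 1 <;> omega
    rw [h4]
    push_cast
    have h5 : (1 : ℝ) ≤ 2 ^ j := one_le_pow₀ (by norm_num)
    have h6 : (4 : ℝ) ^ j = 2 ^ j * 2 ^ j := by rw [← mul_pow]; norm_num
    rw [h6]
    nlinarith
  have h7 : (0 : ℝ) < 4 ^ j := by positivity
  have h8 : 0 ≤ kap j 0 := (abs_nonneg _).trans (kap_abs_le j 0)
  have h9 : (4 : ℝ) ^ j / 4 ≤ 81 * 4 ^ j * kap j 0 := h2.trans (mul_le_mul_of_nonneg_right h3 h8)
  by_contra hcon
  push Not at hcon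
  nlinarith

theorem kap_marg (j : ℕ) (u : ℤ) :
    0 ≤ ∑ x ∈ (ball 0 (4 * 2 ^ j)).filter (fun x => x.1 + x.2 = u), kap j x := by
  have h1 : AddMonoidAlgebra.mapDomainAlgHom ℝ ℝ K4.fsum (Polynomial.aeval PP (cpol j)) =
      Polynomial.aeval (K4.cc 1) (cpol j) := by
    rw [← Polynomial.aeval_algHom_apply, K4.map_PP_sum]
  have h2 := K4.NN_cpol j u
  rw [← h1] at h2
  have h3 : (AddMonoidAlgebra.mapDomainAlgHom ℝ ℝ K4.fsum
      (Polynomial.aeval PP (cpol j))).coeff u =
      ∑ x ∈ (ball 0 (4 * 2 ^ j)).filter (fun x => x.1 + x.2 = u), kap j x := by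
    change (Finsupp.mapDomain K4.fsum (Polynomial.aeval PP (cpol j)).coeff) u = _
    rw [Finsupp.mapDomain, Finsupp.sum_apply, Finsupp.sum]
    simp only [Finsupp.single_apply]
    rw [Finset.sum_filter]
    refine Finset.sum_subset ?_ ?_
    · intro x hx
      rw [Finsupp.mem_support_iff] at hx
      by_contra hcon
      refine hx (kap_far j ?_)
      rw [mem_ball] at hcon
      have e1 := abs_nonneg x.1
      have e2 := abs_nonneg x.2
      have e3 := neg_abs_le x.1
      have e4 := le_abs_self x.1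
      have e5 := neg_abs_le x.2
      have e6 := le_abs_self x.2
      simp only [Prod.fst_zero, Prod.snd_zero] at hcon
      by_contra hlt
      apply hcon
      push_cast
      omega
    · intro x _ hx
      rw [Finsupp.notMem_support_iff] at hx
      rw [hx]
      simp
  rwa [h3] at h2

end Pool.H92.GFL
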