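import Pool.Agent.helper92.GFL.K5
import Pool.Agent.helper92.GFL.K4

/-!
Dirichlet energy of the potential of an averaging kernel.
-/

namespace Pool.H92.GFL

open Function Finset MeasureTheory ProbabilityTheory Pool.H92.GFF
open scoped Classical ENNReal

namespace K7aux

lemma sum_comm4 (I : Finset V) (f : V → V → V → V → ℝ) :
    ∑ x ∈ I, ∑ x' ∈ I, ∑ z ∈ I, ∑ z' ∈ I, f x x' z z' =
      ∑ z ∈ I, ∑ z' ∈ I, ∑ x ∈ I, ∑ x' ∈ I, f x x' z z' := by
  calc ∑ x ∈ I, ∑ x' ∈ I, ∑ z ∈ I, ∑ z' ∈ I, f x x' z z'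
      = ∑ x ∈ I, ∑ z ∈ I, ∑ x' ∈ I, ∑ z' ∈ I, f x x' z z' :=
        Finset.sum_congr rfl (fun x _ => Finset.sum_comm)
    _ = ∑ z ∈ I, ∑ x ∈ I, ∑ x' ∈ I, ∑ z' ∈ I, f x x' z z' := Finset.sum_comm
    _ = ∑ z ∈ I, ∑ x ∈ I, ∑ z' ∈ I, ∑ x' ∈ I, f x x' z z' :=
        Finset.sum_congr rfl (fun z _ => Finset.sum_congr rfl (fun x _ => Finset.sum_comm))
    _ = ∑ z ∈ I, ∑ z' ∈ I, ∑ x ∈ I, ∑ x' ∈ I, f x x' z z' :=
        Finset.sum_congr rfl (fun z _ => Finset.sum_comm)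

lemma quad (I : Finset V) (p : Polynomial ℝ) (L : ℕ) (y : V) :
    ∑ x ∈ I, ∑ x' ∈ I, kI I p x y * kI I p x' y * gr I x' x =
      ∑ i ∈ Finset.range L, kI I (p * (cpol i * p)) y y +
      ∑ z ∈ I, ∑ z' ∈ I, kI I (p * Ep L) y z * kI I (p * Ep L) y z' * gr I z' z := by
  have e1 : ∑ x ∈ I, ∑ x' ∈ I, kI I p x y * kI I p x' y * gr I x' x =
      ∑ x ∈ I, ∑ x' ∈ I, kI I p x y * kI I p x' y * ∑ i ∈ Finset.range L, kI I (cpol i) x x' +
      ∑ x ∈ I, ∑ x' ∈ I, kI I p x y * kI I p x' y *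
        ∑ z ∈ I, ∑ z' ∈ I, kI I (Ep L) x z * gr I z' z * kI I (Ep L) z' x' := by
    rw [← Finset.sum_add_distrib]
    refine Finset.sum_congr rfl (fun x hx => ?_)
    rw [← Finset.sum_add_distrib]
    refine Finset.sum_congr rfl (fun x' hx' => ?_)
    rw [gr_split I L hx hx', mul_add]
  rw [e1]
  congr 1
  · have e2 : ∀ i, kI I (p * (cpol i * p)) y y =
        ∑ x ∈ I, ∑ x' ∈ I, kI I p x y * kI I p x' y * kI I (cpol i) x x' := by
      intro i
      rw [← kI_mul]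
      refine Finset.sum_congr rfl (fun x _ => ?_)
      rw [← kI_mul, Finset.mul_sum]
      refine Finset.sum_congr rfl (fun x' _ => ?_)
      rw [kI_symm I p y x]
      ring
    simp only [e2]
    rw [Finset.sum_comm (s := Finset.range L)]
    refine Finset.sum_congr rfl (fun x _ => ?_)
    rw [Finset.sum_comm (s := Finset.range L)]
    refine Finset.sum_congr rfl (fun x' _ => ?_)
    rw [Finset.mul_sum]
  · have e3 : ∀ z, kI I (p * Ep L) y z = ∑ x ∈ I, kI I p x y * kI I (Ep L) x z := by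
      intro z
      rw [← kI_mul]
      exact Finset.sum_congr rfl (fun x _ => by rw [kI_symm I p y x])
    simp only [e3]
    have e4 : ∀ z z', (∑ x ∈ I, kI I p x y * kI I (Ep L) x z) *
        (∑ x ∈ I, kI I p x y * kI I (Ep L) x z') * gr I z' z =
        ∑ x ∈ I, ∑ x' ∈ I, kI I p x y * kI I p x' y *
          (kI I (Ep L) x z * gr I z' z * kI I (Ep L) z' x') := by
      intro z z'
      rw [Finset.sum_mul_sum, Finset.sum_mul]
      refine Finset.sum_congr rfl (fun x _ => ?_)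
      rw [Finset.sum_mul]
      refine Finset.sum_congr rfl (fun x' _ => ?_)
      rw [kI_symm I (Ep L) z' x']
      ring
    simp only [e4]
    rw [← sum_comm4]
    refine Finset.sum_congr rfl (fun x _ => Finset.sum_congr rfl (fun x' _ => ?_))
    rw [Finset.mul_sum]
    refine Finset.sum_congr rfl (fun z _ => ?_)
    rw [Finset.mul_sum]

lemma natDegree_sq_lt (j : ℕ) : ((Ep j) ^ 2).natDegree < 2 * 2 ^ j := by
  have h1 := Polynomial.natDegree_pow_le (p := Ep j) (n := 2)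
  have h2 := natDegree_Ep_lt j
  omega

lemma inn_subset_ball {N L : ℕ} (h : N ≤ 2 ^ L) : inn N ⊆ ball 0 (2 ^ L) := by
  intro v hv
  rw [mem_inn] at hv
  rw [mem_ball]
  have h' : (N : ℤ) ≤ ((2 ^ L : ℕ) : ℤ) := by exact_mod_cast h
  simp only [Prod.fst_zero, Prod.snd_zero]
  omega

lemma geom_le (j : ℕ) : ∑ i ∈ Finset.range j, (4 : ℝ) ^ i / 4 * (128 / 4 ^ j) ≤ 32 := by
  rw [← Finset.sum_mul, ← Finset.sum_div, geom_sum_eq (by norm_num)]
  have h : (0 : ℝ) < 4 ^ j := by positivity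
  rw [div_div, div_mul_div_comm, div_le_iff₀ (by positivity)]
  nlinarith

end K7aux

open K7aux

theorem ek_var : ∃ C : ℝ, 0 < C ∧ ∀ (N L j : ℕ), N ≤ 2 ^ L → j ≤ L → ∀ y : V,
    ball y (2 * 2 ^ j) ⊆ inn N → ∀ F : V → ℝ, (∀ v ∉ inn N, F v = 0) →
    (∀ v ∈ inn N, lap F v = ek j (v - y)) → D F F ≤ C * ((L : ℝ) - j + 1) := by
  obtain ⟨C, hC, hform⟩ := gr_form_le
  refine ⟨32 + 128 * C, by positivity, fun N L j hN hj y hy F hF0 hF => ?_⟩
  set I := inn N with hI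
  have hjL : (j : ℝ) ≤ L := by exact_mod_cast hj
  -- the charge
  have ha : ∀ v ∈ I, lap F v = kI I ((Ep j) ^ 2) v y := by
    intro v hv
    rw [hF v hv, ek, ← kz_neg, neg_sub, kI_symm]
    refine (kI_bulk I _ (fun w hw => hy ?_) v).symm
    have h1 := natDegree_sq_lt j
    have h2 : (((Ep j) ^ 2).natDegree : ℤ) < ((2 * 2 ^ j : ℕ) : ℤ) := by exact_mod_cast h1
    rw [mem_ball]
    have h3 := abs_nonneg (w.1 - y.1)
    have h4 := abs_nonneg (w.2 - y.2)
    have h5 := le_abs_self (w.1 - y.1)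
    have h6 := neg_abs_le (w.1 - y.1)
    have h7 := le_abs_self (w.2 - y.2)
    have h8 := neg_abs_le (w.2 - y.2)
    omega
  have hD : D F F = ∑ x ∈ I, ∑ x' ∈ I, kI I ((Ep j) ^ 2) x y * kI I ((Ep j) ^ 2) x' y *
      gr I x' x := by
    rw [D_eq_sum (W := I) hF0]
    refine Finset.sum_congr rfl (fun x hx => ?_)
    rw [gr_repr hF0 x, Finset.mul_sum, ha x hx]
    refine Finset.sum_congr rfl (fun x' hx' => ?_)
    rw [ha x' hx']
    ring
  rw [hD, quad I _ L y]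
  -- the remainder
  have hR : ∑ z ∈ I, ∑ z' ∈ I, kI I ((Ep j) ^ 2 * Ep L) y z * kI I ((Ep j) ^ 2 * Ep L) y z' *
      gr I z' z ≤ 128 * C := by
    refine (hform L 0 I (inn_subset_ball hN) (fun z => kI I ((Ep j) ^ 2 * Ep L) y z)).trans ?_
    have h1 : ∑ x ∈ I, kI I ((Ep j) ^ 2 * Ep L) y x ^ 2 =
        kI I ((Ep j) ^ 2 * Ep L * ((Ep j) ^ 2 * Ep L)) y y := by
      rw [← kI_mul]
      refine Finset.sum_congr rfl (fun x _ => ?_)
      rw [kI_symm I _ x y, sq]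
    have h2 : kI I ((Ep j) ^ 2 * Ep L * ((Ep j) ^ 2 * Ep L)) y y ≤ kI I ((Ep L) ^ 2) y y := by
      refine kI_diag_mono I _ _ (fun x hx => ?_) y
      simp only [Polynomial.eval_mul, Polynomial.eval_pow]
      have h3 := Ep_nonneg j hx
      have h4 := Ep_le_one j hx
      have h5 : ((Ep j).eval x) ^ 4 ≤ 1 := pow_le_one₀ h3 h4
      nlinarith [sq_nonneg ((Ep L).eval x)]
    have h3 := kI_Ep_diag I L y
    calc C * 4 ^ L * ∑ x ∈ I, kI I ((Ep j) ^ 2 * Ep L) y x ^ 2 ≤ C * 4 ^ L * (128 / 4 ^ L) := by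
          refine mul_le_mul_of_nonneg_left ?_ (by positivity)
          rw [h1]
          exact h2.trans h3
      _ = 128 * C := by field_simp
  -- the layers
  have hS : ∑ i ∈ Finset.range L, kI I ((Ep j) ^ 2 * (cpol i * (Ep j) ^ 2)) y y ≤
      32 * ((L : ℝ) - j + 1) := by
    rw [← Finset.sum_range_add_sum_Ico _ hj]
    have h1 : ∑ i ∈ Finset.range j, kI I ((Ep j) ^ 2 * (cpol i * (Ep j) ^ 2)) y y ≤ 32 := by
      refine le_trans (Finset.sum_le_sum (fun i _ => ?_)) (geom_le j)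
      have h2 : kI I ((Ep j) ^ 2 * (cpol i * (Ep j) ^ 2)) y y ≤
          kI I (Polynomial.C ((4 : ℝ) ^ i / 4) * (Ep j) ^ 2) y y := by
        refine kI_diag_mono I _ _ (fun x hx => ?_) y
        simp only [Polynomial.eval_mul, Polynomial.eval_pow, Polynomial.eval_C]
        have h3 := Ep_nonneg j hx
        have h4 := Ep_le_one j hx
        have h5 := cpol_nonneg i hx
        have h6 := cpol_le' i hx
        have h7 : ((Ep j).eval x) ^ 2 ≤ 1 := pow_le_one₀ h3 h4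
        have h8 : 0 ≤ ((Ep j).eval x) ^ 2 := sq_nonneg _
        have h9 : (cpol i).eval x * ((Ep j).eval x) ^ 2 ≤ 4 ^ i / 4 * 1 :=
          mul_le_mul h6 h7 h8 (by positivity)
        rw [mul_one] at h9
        calc ((Ep j).eval x) ^ 2 * ((cpol i).eval x * ((Ep j).eval x) ^ 2)
            ≤ ((Ep j).eval x) ^ 2 * (4 ^ i / 4) := mul_le_mul_of_nonneg_left h9 h8
          _ = 4 ^ i / 4 * ((Ep j).eval x) ^ 2 := by ring
      refine h2.trans ?_
      rw [kI_C_mul]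
      exact mul_le_mul_of_nonneg_left (kI_Ep_diag I j y) (by positivity)
    have h2 : ∑ i ∈ Finset.Ico j L, kI I ((Ep j) ^ 2 * (cpol i * (Ep j) ^ 2)) y y ≤
        32 * ((L : ℝ) - j) := by
      have h3 : ∀ i ∈ Finset.Ico j L, kI I ((Ep j) ^ 2 * (cpol i * (Ep j) ^ 2)) y y ≤ 32 := by
        intro i _
        refine le_trans (kI_diag_mono I _ (cpol i) (fun x hx => ?_) y) (kI_cpol_diag I i y)
        simp only [Polynomial.eval_mul, Polynomial.eval_pow]
        have h3 := Ep_nonneg j hx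
        have h4 := Ep_le_one j hx
        have h5 := cpol_nonneg i hx
        have h7 : ((Ep j).eval x) ^ 4 ≤ 1 := pow_le_one₀ h3 h4
        nlinarith
      refine (Finset.sum_le_sum h3).trans ?_
      rw [Finset.sum_const, Nat.card_Ico, nsmul_eq_mul, Nat.cast_sub hj, mul_comm]
    linarith
  nlinarith [mul_nonneg hC.le (sub_nonneg.2 hjL)]

end Pool.H92.GFL
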