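import Pool.Agent.helper92.GFL.G0
import Pool.Agent.helper92.GFL.J1
import Pool.Agent.helper92.GFL.K6
import Pool.Agent.helper92.GFL.K7

namespace Pool.H92.GFL

open Function Finset MeasureTheory ProbabilityTheory Pool.H92.GFF
open scoped Classical ENNReal

namespace LB

/-! ### first time at which an observable is large -/

/-- the observable at time `t` is larger than `a` -/
def Big (I U S : Finset V) (lam a : ℝ) (F : V → ℝ) (t : ℕ) (x : V → ℝ) : Prop :=
  a < |Mx I (Bs U S (fun v => x v ≤ lam) t) F x|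

lemma exT (I U S : Finset V) (lam a : ℝ) (F : V → ℝ) (R : ℕ) (x : V → ℝ) :
    ∃ t, Big I U S lam a F t x ∨ t = R := ⟨R, Or.inr rfl⟩

noncomputable def tau (I U S : Finset V) (lam a : ℝ) (F : V → ℝ) (R : ℕ) (x : V → ℝ) : ℕ :=
  Nat.find (exT I U S lam a F R x)

lemma tau_eq_iff {I U S : Finset V} {lam a : ℝ} {F : V → ℝ} {R : ℕ} {x : V → ℝ} {t : ℕ} :
    tau I U S lam a F R x = t ↔
      (Big I U S lam a F t x ∨ t = R) ∧ ∀ s < t, ¬ (Big I U S lam a F s x ∨ s = R) :=
  Nat.find_eq_iff _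

lemma tau_le (I U S : Finset V) (lam a : ℝ) (F : V → ℝ) (R : ℕ) (x : V → ℝ) :
    tau I U S lam a F R x ≤ R := Nat.find_min' _ (Or.inr rfl)

lemma tau_big {I U S : Finset V} {lam a : ℝ} {F : V → ℝ} {R : ℕ} {x : V → ℝ}
    (h : ∃ t ≤ R, Big I U S lam a F t x) : Big I U S lam a F (tau I U S lam a F R x) x := by
  obtain ⟨t, ht, hb⟩ := h
  rcases Nat.find_spec (exT I U S lam a F R x) with h1 | h1
  · exact h1
  · have h2 : Nat.find (exT I U S lam a F R x) ≤ t := Nat.find_min' _ (Or.inl hb)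
    have h3 : Nat.find (exT I U S lam a F R x) = t := by omega
    rw [tau, h3]; exact hb

/-- the stopped explored set -/
noncomputable def Ax (I U S : Finset V) (lam a : ℝ) (F : V → ℝ) (R : ℕ) (x : V → ℝ) : Finset V :=
  Bs U S (fun v => x v ≤ lam) (tau I U S lam a F R x)

lemma Mx_congr {I E : Finset V} {F x x' : V → ℝ} (h : ∀ v ∈ E, x v = x' v) :
    Mx I E F x = Mx I E F x' := by
  unfold Mx
  exact Finset.sum_congr rfl (fun v hv => by rw [h v hv])

/-- locality of the stopped set -/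
lemma Ax_local {I U S : Finset V} {lam a : ℝ} {F : V → ℝ} {R : ℕ} (x x' : V → ℝ)
    (h : ∀ v ∈ Ax I U S lam a F R x, x v = x' v) :
    Ax I U S lam a F R x' = Ax I U S lam a F R x := by
  set T := tau I U S lam a F R x with hT
  have h1 : ∀ s ≤ T, Bs U S (fun v => x' v ≤ lam) s = Bs U S (fun v => x v ≤ lam) s := by
    intro s hs
    have h2 := st_congr (U := U) (S := S) (o := fun v => x v ≤ lam) (o' := fun v => x' v ≤ lam)
      (r := T) (fun v hv => by
        have := h v hv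
        show x v ≤ lam ↔ x' v ≤ lam
        rw [this]) s hs
    unfold Bs
    rw [h2]
  have h3 : ∀ s ≤ T, (Big I U S lam a F s x' ↔ Big I U S lam a F s x) := by
    intro s hs
    unfold Big
    rw [h1 s hs, Mx_congr (x := x') (x' := x)]
    intro v hv
    exact (h v (Bs_mono hs hv)).symm
  have h4 : tau I U S lam a F R x' = T := by
    rw [tau_eq_iff]
    have h5 := (tau_eq_iff (I := I) (U := U) (S := S) (lam := lam) (a := a) (F := F) (R := R)
      (x := x) (t := T)).1 rfl
    refine ⟨?_, fun s hs => ?_⟩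
    · rw [h3 T le_rfl]; exact h5.1
    · rw [h3 s hs.le]; exact h5.2 s hs
  unfold Ax
  rw [h4, h1 T le_rfl]

/-- measurability of an observable of a measurable random set -/
lemma meas_Mx {I U : Finset V} {A : (V → ℝ) → Finset V} (hA : ∀ x, A x ⊆ U)
    (hm : ∀ E, MeasurableSet {x | A x = E}) (F : V → ℝ) : Measurable (fun x => Mx I (A x) F x) := by
  have e1 : (fun x => Mx I (A x) F x) =
      fun x => ∑ E ∈ U.powerset, {x | A x = E}.indicator (fun x => Mx I E F x) x := by
    funext x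
    rw [Finset.sum_eq_single (A x)]
    · rw [Set.indicator_of_mem]; rfl
    · intro E _ hE
      rw [Set.indicator_of_notMem]
      intro hh; exact hE hh.symm
    · intro hh
      exact absurd (Finset.mem_powerset.2 (hA x)) hh
  rw [e1]
  refine Finset.measurable_sum _ (fun E _ => Measurable.indicator ?_ (hm E))
  unfold Mx
  exact Finset.measurable_sum _ (fun u _ => (measurable_pi_apply u).const_mul _)

lemma meas_Bs' {U S : Finset V} (hS : S ⊆ U) (lam : ℝ) (t : ℕ) (E : Finset V) :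
    MeasurableSet {x : V → ℝ | Bs U S (fun v => x v ≤ lam) t = E} :=
  meas_Bs (α := V → ℝ) hS (fun v x => x v) lam (fun v _ => measurable_pi_apply v) t E

lemma meas_Big {I U S : Finset V} (hS : S ⊆ U) (lam a : ℝ) (F : V → ℝ) (t : ℕ) :
    MeasurableSet {x : V → ℝ | Big I U S lam a F t x} := by
  have h1 := meas_Mx (I := I) (U := U) (A := fun x => Bs U S (fun v => x v ≤ lam) t)
    (fun x => Bs_subset hS t) (meas_Bs' hS lam t) F
  have h2 : Measurable (fun x : V → ℝ => |Mx I (Bs U S (fun v => x v ≤ lam) t) F x|) :=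
    h1.norm
  exact measurableSet_lt measurable_const h2

lemma meas_tau {I U S : Finset V} (hS : S ⊆ U) (lam a : ℝ) (F : V → ℝ) (R t : ℕ) :
    MeasurableSet {x : V → ℝ | tau I U S lam a F R x = t} := by
  have h1 : ∀ s, MeasurableSet {x : V → ℝ | Big I U S lam a F s x ∨ s = R} := by
    intro s
    by_cases hs : s = R
    · have : {x : V → ℝ | Big I U S lam a F s x ∨ s = R} = Set.univ := by
        ext x; simp [hs]
      rw [this]; exact MeasurableSet.univ
    · have : {x : V → ℝ | Big I U S lam a F s x ∨ s = R} = {x | Big I U S lam a F s x} := by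
        ext x; simp [hs]
      rw [this]; exact meas_Big hS lam a F s
  have h2 : {x : V → ℝ | tau I U S lam a F R x = t} =
      {x | Big I U S lam a F t x ∨ t = R} ∩
        ⋂ s ∈ Finset.range t, {x | Big I U S lam a F s x ∨ s = R}ᶜ := by
    ext x
    rw [Set.mem_ofPred_eq, tau_eq_iff]
    simp only [Set.mem_inter_iff, Set.mem_ofPred_eq, Set.mem_iInter, Finset.mem_range,
      Set.mem_compl_iff]
  rw [h2]
  exact (h1 t).inter (Finset.measurableSet_biInter _ (fun s _ => (h1 s).compl))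

lemma meas_Ax {I U S : Finset V} (hS : S ⊆ U) (lam a : ℝ) (F : V → ℝ) (R : ℕ) (E : Finset V) :
    MeasurableSet {x : V → ℝ | Ax I U S lam a F R x = E} := by
  have h2 : {x : V → ℝ | Ax I U S lam a F R x = E} =
      ⋃ t ∈ Finset.range (R + 1), {x | tau I U S lam a F R x = t} ∩
        {x | Bs U S (fun v => x v ≤ lam) t = E} := by
    ext x
    simp only [Set.mem_iUnion, Finset.mem_range, Set.mem_inter_iff, Set.mem_ofPred_eq,
      exists_prop]
    constructor
    · intro h
      exact ⟨_, Nat.lt_succ_of_le (tau_le I U S lam a F R x), rfl, h⟩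
    · rintro ⟨t, _, rfl, h⟩
      exact h
  rw [h2]
  exact Finset.measurableSet_biUnion _ (fun t _ =>
    (meas_tau hS lam a F R t).inter (meas_Bs' hS lam t E))

lemma exp_markov {Ω : Type*} [MeasurableSpace Ω] {μ : Measure Ω} {X : Ω → ℝ} (hX : Measurable X)
    {a v t d : ℝ} (hv : 0 < v) (ht : t = a / v) (hd : d ≤ v)
    (h : ∫⁻ ω, ENNReal.ofReal (Real.exp (t * X ω)) ∂μ ≤
      ENNReal.ofReal (Real.exp (t ^ 2 * d / 2))) (ha : 0 ≤ a) :
    μ {ω | a ≤ X ω} ≤ ENNReal.ofReal (Real.exp (-(a ^ 2 / (2 * v)))) := by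
  have ht0 : 0 ≤ t := by rw [ht]; positivity
  have h1 := markov_avg (μ := μ) ({()} : Finset Unit) (by simp) (fun _ ω => t * X ω)
    (fun _ _ => hX.const_mul _) _ (fun _ _ => h) (t * a)
  simp only [Finset.sum_singleton, Finset.card_singleton, Nat.cast_one, div_one] at h1
  rw [← ENNReal.ofReal_mul (Real.exp_pos _).le, ← Real.exp_add] at h1
  have h3 : {ω | a ≤ X ω} ⊆ {ω | t * a ≤ t * X ω} := by
    intro ω hω
    exact mul_le_mul_of_nonneg_left hω ht0
  refine (measure_mono h3).trans (h1.trans ?_)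
  apply ENNReal.ofReal_le_ofReal
  apply Real.exp_le_exp.2
  have h4 : t ^ 2 * d / 2 ≤ t ^ 2 * v / 2 := by
    have : 0 ≤ t ^ 2 := sq_nonneg _
    nlinarith
  have h5 : -(t * a) + t ^ 2 * v / 2 = -(a ^ 2 / (2 * v)) := by
    rw [ht]; field_simp; ring
  linarith

/-- tail bound for the maximum over time of an observable -/
lemma tail {N : ℕ} {Ω : Type*} [MeasurableSpace Ω] {μ : Measure Ω} {η : V → Ω → ℝ}
    (h : IsDGFF N μ η) (hm : ∀ v, Measurable (η v)) {U S : Finset V} (hS : S ⊆ U)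
    (hU : U ⊆ inn N) (lam : ℝ) (R : ℕ) {F : V → ℝ} (hF : ∀ v ∉ inn N, F v = 0) {a v : ℝ}
    (ha : 0 ≤ a) (hv : 0 < v) (hD : D F F ≤ v) :
    μ {ω | ∃ t ≤ R, a < |Mx (inn N) (Bs U S (fun v => η v ω ≤ lam) t) F (fun v => η v ω)|} ≤
      ENNReal.ofReal (2 * Real.exp (-(a ^ 2 / (2 * v)))) := by
  set A := Ax (inn N) U S lam a F R with hA
  have hAU : ∀ x, A x ⊆ U := fun x => Bs_subset hS _
  have hAm : ∀ E, MeasurableSet {x | A x = E} := meas_Ax hS lam a F R
  set X : Ω → ℝ := fun ω => Mx (inn N) (A (fun v => η v ω)) F (fun v => η v ω) with hX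
  have hXm : Measurable X := (meas_Mx (I := inn N) hAU hAm F).comp
    (measurable_pi_lambda _ (fun v => hm v))
  have hj := fun t => jensen_local h hm A (fun x => (hAU x).trans hU)
    (fun x x' hx => Ax_local x x' hx) hAm hF t
  have h1 : μ {ω | a ≤ X ω} ≤ ENNReal.ofReal (Real.exp (-(a ^ 2 / (2 * v)))) :=
    exp_markov hXm hv rfl hD (hj (a / v)) ha
  have h2 : μ {ω | a ≤ -X ω} ≤ ENNReal.ofReal (Real.exp (-(a ^ 2 / (2 * v)))) := by
    refine exp_markov (X := fun ω => -X ω) hXm.neg hv rfl hD ?_ ha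
    have := hj (-(a / v))
    rw [neg_sq] at this
    refine le_trans (le_of_eq ?_) this
    refine lintegral_congr (fun ω => ?_)
    congr 2
    show a / v * -X ω = -(a / v) * X ω
    ring
  have h3 : {ω | ∃ t ≤ R, a < |Mx (inn N) (Bs U S (fun v => η v ω ≤ lam) t) F
      (fun v => η v ω)|} ⊆ {ω | a ≤ X ω} ∪ {ω | a ≤ -X ω} := by
    intro ω hω
    have h4 := tau_big (I := inn N) (U := U) (S := S) (lam := lam) (a := a) (F := F) (R := R)
      (x := fun v => η v ω) hω
    have h5 : a < |X ω| := h4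
    rcases lt_abs.1 h5 with h6 | h6
    · exact Or.inl h6.le
    · exact Or.inr h6.le
  refine (measure_mono h3).trans ((measure_union_le _ _).trans ?_)
  rw [two_mul, ENNReal.ofReal_add (Real.exp_pos _).le (Real.exp_pos _).le]
  exact add_le_add h1 h2

/-! ### identities -/

lemma Mx_eq {I A : Finset V} (hA : A ⊆ I) {F w : V → ℝ} (hF : ∀ v ∉ I, F v = 0) :
    Mx I A F w = ∑ v ∈ I, lap F v * hx I A w v := by
  rw [← D_eq_sum (W := I) (g := hx I A w) (fun v hv => hx_out hA hv), D_hx_left hA hF,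
    D_hx_symm hA]
  rfl

lemma Mx_point {I A : Finset V} (hA : A ⊆ I) {y : V} (hy : y ∈ I) (w : V → ℝ) :
    Mx I A (gr I y) w = hx I A w y := by
  rw [Mx_eq hA (fun v hv => gr_out hv), Finset.sum_eq_single y]
  · rw [lap_gr hy, if_pos rfl, one_mul]
  · intro b hb hby
    rw [lap_gr hb, if_neg hby, zero_mul]
  · intro h; exact absurd hy h

lemma Mx_avg {I A : Finset V} (hA : A ⊆ I) {j : ℕ} {y : V} (hy : ball y (2 * 2 ^ j) ⊆ I \ A)
    {F : V → ℝ} (hF : ∀ v ∉ I, F v = 0) (hF' : ∀ v ∈ I, lap F v = ek j (v - y)) (w : V → ℝ) :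
    Mx I A F w = hx I A w y := by
  rw [Mx_eq hA hF, ek_mean j y (hx I A w) (fun v hv => by
    have := Finset.mem_sdiff.1 (hy hv)
    exact lap_hx this.1 this.2)]
  have h1 : ∑ v ∈ I, lap F v * hx I A w v = ∑ v ∈ ball y (2 * 2 ^ j), ek j (v - y) *
      hx I A w v := by
    rw [← Finset.sum_subset (fun v hv => (Finset.mem_sdiff.1 (hy hv)).1)]
    · refine Finset.sum_congr rfl (fun v hv => ?_)
      rw [hF' v (Finset.mem_sdiff.1 (hy hv)).1]
    · intro v hv hv'
      rw [hF' v hv, ek_far j, zero_mul]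
      rw [mem_ball] at hv'
      push_cast at hv'
      have e1 : (v - y).1 = v.1 - y.1 := rfl
      have e2 : (v - y).2 = v.2 - y.2 := rfl
      rw [e1, e2]
      by_contra hcon
      push Not at hcon
      apply hv'
      have a1 := abs_nonneg (v.1 - y.1)
      have a2 := abs_nonneg (v.2 - y.2)
      have b1 : |v.1 - y.1| < 2 * 2 ^ j := by linarith
      have b2 : |v.2 - y.2| < 2 * 2 ^ j := by linarith
      rw [abs_lt] at b1 b2
      refine ⟨⟨?_, ?_⟩, ?_, ?_⟩ <;> linarith [b1.1, b1.2, b2.1, b2.2]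
  rw [h1]
  refine Finset.sum_nbij' (fun v => v - y) (fun z => y + z) ?_ ?_ ?_ ?_ ?_
  · intro v hv
    rw [mem_ball] at hv ⊢
    have e1 : (v - y).1 = v.1 - y.1 := rfl
    have e2 : (v - y).2 = v.2 - y.2 := rfl
    have e3 : (0 : V).1 = 0 := rfl
    have e4 : (0 : V).2 = 0 := rfl
    rw [e1, e2, e3, e4]
    refine ⟨⟨?_, ?_⟩, ?_, ?_⟩ <;> linarith [hv.1.1, hv.1.2, hv.2.1, hv.2.2]
  · intro v hv
    rw [mem_ball] at hv ⊢
    have e1 : (y + v).1 = y.1 + v.1 := rfl
    have e2 : (y + v).2 = y.2 + v.2 := rfl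
    have e3 : (0 : V).1 = 0 := rfl
    have e4 : (0 : V).2 = 0 := rfl
    rw [e3, e4] at hv
    rw [e1, e2]
    refine ⟨⟨?_, ?_⟩, ?_, ?_⟩ <;> linarith [hv.1.1, hv.1.2, hv.2.1, hv.2.2]
  · intro v _; exact add_sub_cancel y v
  · intro v _; exact add_sub_cancel_left y v
  · intro v _
    rw [add_sub_cancel]

/-! ### deterministic step -/

lemma line (f : ℤ → ℝ) (g : ℝ) (a b : ℤ) (hab : a ≤ b)
    (h : ∀ i, a ≤ i → i < b → |f (i + 1) - f i| ≤ g) : |f b - f a| ≤ ((b : ℝ) - a) * g := by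
  induction b, hab using Int.leInduction with
  | base => simp
  | succ b hab ih =>
    have h1 := ih (fun i hi hib => h i hi (by omega))
    have h2 := h b hab (by omega)
    have h3 : f (b + 1) - f a = (f (b + 1) - f b) + (f b - f a) := by ring
    rw [h3]
    refine (abs_add_le _ _).trans ?_
    push_cast
    linarith

lemma line' (f : ℤ → ℝ) (g : ℝ) (hg : 0 ≤ g) (a b : ℤ) (r : ℕ) (h1 : a - r ≤ b) (h2 : b ≤ a + r)
    (h : ∀ i, a - r ≤ i → i < a + r → |f (i + 1) - f i| ≤ g) : |f b - f a| ≤ r * g := by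
  rcases le_total a b with hab | hab
  · refine (line f g a b hab (fun i hi hib => h i (by omega) (by omega))).trans ?_
    apply mul_le_mul_of_nonneg_right _ hg
    have : ((b - a : ℤ) : ℝ) ≤ ((r : ℤ) : ℝ) := by exact_mod_cast (by omega : b - a ≤ r)
    push_cast at this
    exact this
  · rw [abs_sub_comm]
    refine (line f g b a hab (fun i hi hib => h i (by omega) (by omega))).trans ?_
    apply mul_le_mul_of_nonneg_right _ hg
    have : ((a - b : ℤ) : ℝ) ≤ ((r : ℤ) : ℝ) := by exact_mod_cast (by omega : a - b ≤ r)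
    push_cast at this
    exact this

lemma path_bound (u : V → ℝ) (y : V) (r : ℕ) {g : ℝ} (hg0 : 0 ≤ g)
    (hg : ∀ x ∈ ball y r, ∀ e ∈ nb (0 : V), |u (x + e) - u x| ≤ g) {z : V} (hz : z ∈ ball y r) :
    |u z - u y| ≤ 2 * r * g := by
  rw [mem_ball] at hz
  have h1 : |u (z.1, y.2) - u y| ≤ r * g := by
    refine line' (fun i => u (i, y.2)) g hg0 y.1 z.1 r hz.1.1 hz.1.2 (fun i hi hi' => ?_)
    have := hg (i, y.2) (by rw [mem_ball]; simp only; omega) (1, 0) (by simp [nb])
    simpa using this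
  have h2 : |u z - u (z.1, y.2)| ≤ r * g := by
    refine line' (fun i => u (z.1, i)) g hg0 y.2 z.2 r hz.2.1 hz.2.2 (fun i hi hi' => ?_)
    have := hg (z.1, i) (by rw [mem_ball]; simp only; omega) (0, 1) (by simp [nb])
    simpa using this
  have h3 : u z - u y = (u z - u (z.1, y.2)) + (u (z.1, y.2) - u y) := by ring
  rw [h3]
  refine (abs_add_le _ _).trans ?_
  linarith

lemma inn_subset_ball {N L : ℕ} (hNL : N ≤ 2 ^ L) : inn N ⊆ ball 0 (2 ^ L) := by
  intro v hv
  rw [mem_inn] at hv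
  rw [mem_ball]
  have e3 : (0 : V).1 = 0 := rfl
  have e4 : (0 : V).2 = 0 := rfl
  rw [e3, e4]
  have : (N : ℤ) ≤ ((2 ^ L : ℕ) : ℤ) := by exact_mod_cast hNL
  omega

lemma rad_le {N L : ℕ} (hNL : N ≤ 2 ^ L) {W : Finset V} (hW : W ⊆ inn N) (y : V) :
    rad W y ≤ 2 ^ L := by
  by_contra hcon
  push Not at hcon
  rw [lt_rad] at hcon
  have h1 := hW (hcon (show ((y.1 + (2 ^ L : ℕ), y.2) : V) ∈ ball y (2 ^ L) by
    rw [mem_ball]; simp only; omega))
  have h2 := hW (hcon (show ((y.1 - (2 ^ L : ℕ), y.2) : V) ∈ ball y (2 ^ L) by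
    rw [mem_ball]; simp only; omega))
  rw [mem_inn] at h1 h2
  simp only at h1 h2
  have : (N : ℤ) ≤ ((2 ^ L : ℕ) : ℤ) := by exact_mod_cast hNL
  omega

lemma log_rad_le {N L : ℕ} (hNL : N ≤ 2 ^ L) {W : Finset V} (hW : W ⊆ inn N) (y : V) :
    Nat.log 2 (rad W y) ≤ L := by
  have := Nat.log_mono_right (b := 2) (rad_le hNL hW y)
  rwa [Nat.log_pow (by norm_num)] at this

lemma det_step : ∃ (K : ℝ) (c' : ℕ), 0 < K ∧ ∀ (N L : ℕ) (A : Finset V) (x : V → ℝ) (a : ℝ),
    N ≤ 2 ^ L → A ⊆ inn N → 0 ≤ a →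
    (∀ y ∈ inn N, |hx (inn N) A x y| ≤ a * (L + 1)) →
    (∀ j, c' ≤ j → j ≤ L → ∀ p q : ℤ,
      ball ((2 ^ (j - c') * p, 2 ^ (j - c') * q) : V) (2 * 2 ^ j) ⊆ inn N \ A →
      |hx (inn N) A x (2 ^ (j - c') * p, 2 ^ (j - c') * q)| ≤ a * ((L : ℝ) - j + 1)) →
    ∀ y ∈ inn N, |hx (inn N) A x y| ≤
      K * a * ((L : ℝ) + 2 - Nat.log 2 (rad (inn N \ A) y)) := by
  obtain ⟨C, hC, hgrad⟩ := harm_grad
  obtain ⟨c', hc'⟩ : ∃ c' : ℕ, 8 * C ≤ 2 ^ c' := by
    obtain ⟨n, hn⟩ := pow_unbounded_of_one_lt (8 * C) (by norm_num : (1 : ℝ) < 2)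
    exact ⟨n, hn.le⟩
  refine ⟨c' + 4, c', by positivity, ?_⟩
  intro N L A x a hNL hA ha h0 hj y1 hy1
  set u := hx (inn N) A x with hu
  set W := inn N \ A with hW
  set w : V → ℝ := fun y => (L : ℝ) + 2 - Nat.log 2 (rad W y) with hw
  have hw2 : ∀ y, 2 ≤ w y := by
    intro y
    have : ((Nat.log 2 (rad W y) : ℕ) : ℝ) ≤ L := by
      exact_mod_cast log_rad_le hNL (Finset.sdiff_subset) y
    simp only [hw]; linarith
  obtain ⟨y, hy, hmax⟩ := Finset.exists_max_image (inn N) (fun y => |u y| / w y) ⟨y1, hy1⟩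
  set M := |u y| / w y with hM
  have hM0 : 0 ≤ M := div_nonneg (abs_nonneg _) (by linarith [hw2 y])
  have hle : ∀ z ∈ inn N, |u z| ≤ M * w z := by
    intro z hz
    have h1 := hmax z hz
    have h2 : 0 < w z := by linarith [hw2 z]
    rwa [div_le_iff₀ h2] at h1
  have hMy : M * w y = |u y| := by
    rw [hM]; field_simp [(by linarith [hw2 y] : w y ≠ 0)]
  suffices hMa : M ≤ (c' + 4) * a by
    refine (hle y1 hy1).trans ?_
    apply mul_le_mul_of_nonneg_right hMa
    linarith [hw2 y1]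
  by_cases hsmall : Nat.log 2 (rad W y) < c' + 3
  · have h1 : (Nat.log 2 (rad W y) : ℝ) ≤ c' + 2 := by
      have : Nat.log 2 (rad W y) ≤ c' + 2 := by omega
      exact_mod_cast this
    have h2 : (L : ℝ) + 1 ≤ w y + c' + 1 := by simp only [hw]; linarith
    have h3 := hw2 y
    have h4 : (L : ℝ) + 1 ≤ (c' + 4) * w y := by
      have : (0 : ℝ) ≤ c' := Nat.cast_nonneg _
      nlinarith
    have h5 := h0 y hy
    have h6 : |u y| ≤ (c' + 4) * a * w y := by
      refine h5.trans ?_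
      calc a * ((L : ℝ) + 1) ≤ a * ((c' + 4) * w y) := mul_le_mul_of_nonneg_left h4 ha
        _ = _ := by ring
    rw [← hMy] at h6
    exact le_of_mul_le_mul_right h6 (by linarith)
  · push Not at hsmall
    obtain ⟨j, hj3⟩ : ∃ j, Nat.log 2 (rad W y) = j + 3 := ⟨Nat.log 2 (rad W y) - 3, by omega⟩
    have hcj : c' ≤ j := by omega
    have hjL : j + 3 ≤ L := by
      have := log_rad_le hNL (W := W) Finset.sdiff_subset y
      omega
    have hrad : 8 * 2 ^ j ≤ rad W y := by
      have h1 : rad W y ≠ 0 := by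
        intro h; rw [h] at hj3; simp at hj3
      have h2 := Nat.pow_log_le_self 2 h1
      rw [hj3] at h2
      calc 8 * 2 ^ j = 2 ^ (j + 3) := by ring
        _ ≤ _ := h2
    have hpos : 0 < 2 ^ j := by positivity
    have hsub : ∀ r, r < 8 * 2 ^ j → ball y r ⊆ W := fun r hr => lt_rad.1 (by omega)
    have hwy : w y = (L : ℝ) - j - 1 := by
      simp only [hw]; rw [hj3]; push_cast; ring
    have hjc : 2 ^ (j - c') ≤ 2 ^ j := Nat.pow_le_pow_right (by norm_num) (by omega)
    -- the grid point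
    set d : ℕ := 2 ^ (j - c') with hd
    have hd0 : 0 < d := by positivity
    set y0 : V := (2 ^ (j - c') * (y.1 / d), 2 ^ (j - c') * (y.2 / d)) with hy0
    have hdz : ((d : ℕ) : ℤ) = 2 ^ (j - c') := by rw [hd]; push_cast; rfl
    have hy0b : y0 ∈ ball y d := by
      rw [mem_ball, hy0, ← hdz]
      simp only
      have hdz' : (0 : ℤ) < (d : ℤ) := by exact_mod_cast hd0
      have e1 := Int.mul_ediv_add_emod y.1 d
      have e2 := Int.mul_ediv_add_emod y.2 d
      have e3 := Int.emod_nonneg y.1 (ne_of_gt hdz')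
      have e4 := Int.emod_nonneg y.2 (ne_of_gt hdz')
      have e5 := Int.emod_lt_of_pos y.1 hdz'
      have e6 := Int.emod_lt_of_pos y.2 hdz'
      refine ⟨⟨?_, ?_⟩, ?_, ?_⟩ <;> linarith
    have hball0 : ball y0 (2 * 2 ^ j) ⊆ W := by
      intro v hv
      exact hsub _ (by omega) (mem_ball_trans hy0b hv)
    have h1 : |u y0| ≤ a * (2 * w y) := by
      refine (hj j hcj (by omega) (y.1 / d) (y.2 / d) hball0).trans ?_
      apply mul_le_mul_of_nonneg_left _ ha
      have := hw2 y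
      linarith
    -- values in the ball
    have hval : ∀ v ∈ ball y (5 * 2 ^ j), v ∈ W ∧ |u v| ≤ M * (2 * w y) := by
      intro v hv
      have hvW : v ∈ W := hsub _ (by omega) hv
      refine ⟨hvW, (hle v (Finset.mem_sdiff.1 hvW).1).trans ?_⟩
      apply mul_le_mul_of_nonneg_left _ hM0
      have h2 : 2 * 2 ^ j < rad W v := by
        rw [lt_rad]
        intro z hz
        exact hsub _ (by omega) (mem_ball_trans hv hz)
      have h3 : j + 1 ≤ Nat.log 2 (rad W v) := by
        have := Nat.log_mono_right (b := 2) h2.le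
        rw [show 2 * 2 ^ j = 2 ^ (j + 1) by ring, Nat.log_pow (by norm_num)] at this
        exact this
      have h4 : ((j : ℝ) + 1) ≤ Nat.log 2 (rad W v) := by exact_mod_cast h3
      have h5 := hw2 y
      have h6 : w v ≤ w y + 2 := by
        rw [hwy]; simp only [hw]; linarith
      linarith
    have h2 : |u y0 - u y| ≤ 2 * d * (C / 2 ^ j * (M * (2 * w y))) := by
      refine path_bound u y d ?_ ?_ hy0b
      · have := hw2 y; positivity
      · intro z hz e he
        refine hgrad j z u (M * (2 * w y)) (fun v hv => ?_) (fun v hv => ?_) e he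
        · have hv' : v ∈ ball y (5 * 2 ^ j) :=
            ball_mono (by omega) (mem_ball_trans hz hv)
          have := Finset.mem_sdiff.1 (hval v hv').1
          exact lap_hx this.1 this.2
        · exact (hval v (ball_mono (by omega) (mem_ball_trans hz hv))).2
    have h3 : 2 * (d : ℝ) * (C / 2 ^ j * (M * (2 * w y))) ≤ M * w y / 2 := by
      have e1 : (d : ℝ) * 2 ^ c' = 2 ^ j := by
        rw [hd]; push_cast
        rw [← pow_add]; congr 1; omega
      have e2 : (0 : ℝ) < 2 ^ c' := by positivity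
      have e3 : (d : ℝ) / 2 ^ j = 1 / 2 ^ c' := by
        rw [← e1]
        have : (0 : ℝ) < d := by exact_mod_cast hd0
        field_simp
      calc 2 * (d : ℝ) * (C / 2 ^ j * (M * (2 * w y)))
          = 4 * ((d : ℝ) / 2 ^ j) * C * (M * w y) := by ring
        _ = (8 * C) / 2 ^ c' * (M * w y) / 2 := by rw [e3]; ring
        _ ≤ 1 * (M * w y) / 2 := by
            have : (8 * C) / 2 ^ c' ≤ 1 := by rw [div_le_one e2]; exact hc'
            have h7 : 0 ≤ M * w y := by rw [hMy]; exact abs_nonneg _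
            have := mul_le_mul_of_nonneg_right this h7
            linarith
        _ = _ := by ring
    have h4 : |u y| ≤ |u y0| + |u y0 - u y| := by
      have : u y = u y0 - (u y0 - u y) := by ring
      calc |u y| = |u y0 - (u y0 - u y)| := by rw [← this]
        _ ≤ _ := abs_sub _ _
    have h5 : M * w y ≤ 4 * a * w y := by
      rw [hMy] at h3
      rw [hMy]
      nlinarith
    have h6 : M ≤ 4 * a := le_of_mul_le_mul_right h5 (by linarith [hw2 y])
    have : (0 : ℝ) ≤ c' * a := by positivity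
    linarith

/-! ### union bound -/

lemma exp_pow (x : ℝ) (n : ℕ) : Real.exp (-(x * n)) = Real.exp (-x) ^ n := by
  rw [← Real.exp_nat_mul]; congr 1; ring

lemma geo {q : ℝ} (h0 : 0 ≤ q) (h1 : q ≤ 1 / 8) (n : ℕ) : (4 : ℝ) ^ n * q ^ (n + 1) ≤
    q * (1 / 2) ^ n := by
  calc (4 : ℝ) ^ n * q ^ (n + 1) = q * (4 * q) ^ n := by rw [mul_pow, pow_succ]; ring
    _ ≤ q * (1 / 2) ^ n := by
        apply mul_le_mul_of_nonneg_left _ h0
        exact pow_le_pow_left₀ (by positivity) (by linarith) n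

/-- the solution of the Poisson equation with the averaging kernel -/
noncomputable def Fk (N j : ℕ) (y : V) : V → ℝ :=
  Classical.choose (exists_dirichlet (inn N) (fun _ => 0) (fun v => ek j (v - y)))

lemma Fk_spec (N j : ℕ) (y : V) : (∀ v ∉ inn N, Fk N j y v = 0) ∧
    ∀ v ∈ inn N, lap (Fk N j y) v = ek j (v - y) :=
  Classical.choose_spec (exists_dirichlet (inn N) (fun _ => 0) (fun v => ek j (v - y)))

/-- the bad event at a grid point -/
def Tg (N R : ℕ) (U S : Finset V) (lam a : ℝ) (n j : ℕ) (y : V) {Ω : Type*} (η : V → Ω → ℝ) :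
    Set Ω :=
  {ω | ball y (2 * 2 ^ j) ⊆ inn N ∧ ∃ t ≤ R, a * ((n : ℝ) + 1) <
    |Mx (inn N) (Bs U S (fun v => η v ω ≤ lam) t) (Fk N j y) (fun v => η v ω)|}

end LB

open LB

/-- the harmonic extension of the explored field grows at most logarithmically -/
theorem logbound : ∃ c C s0 : ℝ, 0 < c ∧ 0 < C ∧ 0 < s0 ∧ ∀ (N L : ℕ), N ≤ 2 ^ L →
    ∀ {Ω : Type} [MeasurableSpace Ω] (μ : Measure Ω) (η : V → Ω → ℝ), IsDGFF N μ η →
    (∀ v, Measurable (η v)) → ∀ (U S : Finset V), S ⊆ U → U ⊆ inn N → ∀ (lam : ℝ) (R : ℕ) (s : ℝ),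
    s0 ≤ s →
    μ {ω | ¬ ∀ t ≤ R, ∀ y ∈ inn N,
      |hx (inn N) (Bs U S (fun v => η v ω ≤ lam) t) (fun v => η v ω) y| ≤
        s * ((L : ℝ) + 2 - Nat.log 2 (rad (inn N \ Bs U S (fun v => η v ω ≤ lam) t) y))}
      ≤ ENNReal.ofReal (C * Real.exp (-(c * s ^ 2))) := by
  obtain ⟨K, c', hK, hdet⟩ := det_step
  obtain ⟨C1, hC1, hgr⟩ := gr_upper
  obtain ⟨C2, hC2, hek⟩ := ek_var
  set C3 := max C1 C2 with hC3
  have hC3p : 0 < C3 := lt_max_of_lt_left hC1
  set c : ℝ := 1 / (2 * C3 * K ^ 2) with hc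
  have hcp : 0 < c := by positivity
  refine ⟨c, 2 + 36 * 4 ^ c', √(3 / c), hcp, by positivity, Real.sqrt_pos.2 (by positivity), ?_⟩
  intro N L hNL Ω _ μ η hη hm U S hS hU lam R s hs
  have hs0 : 0 ≤ s := (Real.sqrt_nonneg _).trans hs
  set a := s / K with ha
  have ha0 : 0 ≤ a := div_nonneg hs0 hK.le
  set q := Real.exp (-(c * s ^ 2)) with hq
  have hq0 : 0 < q := Real.exp_pos _
  have hcs : 3 ≤ c * s ^ 2 := by
    have h1 : 3 / c ≤ s ^ 2 := by
      have := pow_le_pow_left₀ (Real.sqrt_nonneg (3 / c)) hs 2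
      rwa [Real.sq_sqrt (by positivity)] at this
    rw [div_le_iff₀ hcp] at h1
    linarith
  have hq8 : q ≤ 1 / 8 := by
    have h1 : q ≤ Real.exp (-3) := Real.exp_le_exp.2 (by linarith)
    have h2 : Real.exp (-3) ≤ 1 / 8 := by
      rw [Real.exp_neg, one_div]
      apply inv_anti₀ (by norm_num)
      have : (2 : ℝ) ≤ Real.exp 1 := by
        have := Real.add_one_le_exp (1 : ℝ); linarith
      calc (8 : ℝ) = 2 ^ 3 := by norm_num
        _ ≤ Real.exp 1 ^ 3 := pow_le_pow_left₀ (by norm_num) this 3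
        _ = Real.exp 3 := by rw [← Real.exp_nat_mul]; norm_num
    exact h1.trans h2
  have htail : ∀ n : ℕ, Real.exp (-((a * ((n : ℝ) + 1)) ^ 2 / (2 * (C3 * ((n : ℝ) + 1))))) =
      q ^ (n + 1) := by
    intro n
    have hn : (0 : ℝ) < (n : ℝ) + 1 := by positivity
    have : (a * ((n : ℝ) + 1)) ^ 2 / (2 * (C3 * ((n : ℝ) + 1))) = (c * s ^ 2) * ((n + 1 : ℕ) : ℝ) := by
      rw [ha, hc]; push_cast
      field_simp
    rw [this, exp_pow]
  -- single points
  set T0 : Set Ω := ⋃ y ∈ inn N, {ω | ∃ t ≤ R, a * ((L : ℝ) + 1) <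
    |Mx (inn N) (Bs U S (fun v => η v ω ≤ lam) t) (gr (inn N) y) (fun v => η v ω)|} with hT0
  set Gn : ℕ → Finset (ℤ × ℤ) := fun n =>
    Finset.Icc (-(2 ^ (n + c') : ℤ)) (2 ^ (n + c')) ×ˢ Finset.Icc (-(2 ^ (n + c') : ℤ)) (2 ^ (n + c'))
    with hGn
  set T1 : Set Ω := ⋃ n ∈ Finset.range (L + 1), ⋃ p ∈ Gn n,
    Tg N R U S lam a n (L - n) (2 ^ (L - n - c') * p.1, 2 ^ (L - n - c') * p.2) η with hT1
  have hincl : {ω | ¬ ∀ t ≤ R, ∀ y ∈ inn N,
      |hx (inn N) (Bs U S (fun v => η v ω ≤ lam) t) (fun v => η v ω) y| ≤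
        s * ((L : ℝ) + 2 - Nat.log 2 (rad (inn N \ Bs U S (fun v => η v ω ≤ lam) t) y))} ⊆
      T0 ∪ T1 := by
    intro ω hω
    by_contra hcon
    apply hω
    rw [Set.mem_union, not_or] at hcon
    obtain ⟨g0, g1⟩ := hcon
    intro t ht y hy
    have hA : Bs U S (fun v => η v ω ≤ lam) t ⊆ inn N := (Bs_subset hS t).trans hU
    have hKa : s = K * a := by rw [ha]; field_simp
    rw [hKa]
    refine hdet N L _ _ a hNL hA ha0 ?_ ?_ y hy
    · intro z hz
      by_contra hz'
      push Not at hz'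
      apply g0
      rw [hT0]
      simp only [Set.mem_iUnion]
      refine ⟨z, hz, t, ht, ?_⟩
      rw [Mx_point hA hz]
      exact hz'
    · intro j hcj hjL p p' hb
      by_contra hz'
      push Not at hz'
      apply g1
      rw [hT1]
      simp only [Set.mem_iUnion]
      have hjj : L - (L - j) = j := by omega
      have hbI : ball ((2 ^ (j - c') * p, 2 ^ (j - c') * p') : V) (2 * 2 ^ j) ⊆ inn N :=
        hb.trans Finset.sdiff_subset
      have hcen := inn_subset_ball hNL (hbI (mem_ball_self _ _))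
      rw [mem_ball] at hcen
      have e3 : (0 : V).1 = 0 := rfl
      have e4 : (0 : V).2 = 0 := rfl
      rw [e3, e4] at hcen
      have hpw : ((2 : ℤ) ^ L) = 2 ^ (j - c') * 2 ^ (L - j + c') := by
        rw [← pow_add]; congr 1; omega
      have hp2 : (0 : ℤ) < 2 ^ (j - c') := by positivity
      have key : ∀ z : ℤ, 0 - ((2 ^ L : ℕ) : ℤ) ≤ 2 ^ (j - c') * z →
          2 ^ (j - c') * z ≤ 0 + ((2 ^ L : ℕ) : ℤ) →
          -(2 ^ (L - j + c') : ℤ) ≤ z ∧ z ≤ 2 ^ (L - j + c') := by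
        intro z h1 h2
        push_cast at h1 h2
        rw [hpw] at h1 h2
        constructor
        · have : 2 ^ (j - c') * (-(2 ^ (L - j + c') : ℤ)) ≤ 2 ^ (j - c') * z := by linarith
          exact le_of_mul_le_mul_left this hp2
        · have : 2 ^ (j - c') * z ≤ 2 ^ (j - c') * (2 ^ (L - j + c') : ℤ) := by linarith
          exact le_of_mul_le_mul_left this hp2
      refine ⟨L - j, Finset.mem_range.2 (by omega), (p, p'), ?_, ?_⟩
      · rw [hGn]
        simp only [Finset.mem_product, Finset.mem_Icc]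
        exact ⟨key p hcen.1.1 hcen.1.2, key p' hcen.2.1 hcen.2.2⟩
      · rw [hjj]
        refine ⟨hbI, t, ht, ?_⟩
        have hF := Fk_spec N j ((2 ^ (j - c') * p, 2 ^ (j - c') * p') : V)
        rw [Mx_avg hA hb hF.1 hF.2]
        have : ((L - j : ℕ) : ℝ) + 1 = (L : ℝ) - j + 1 := by
          rw [Nat.cast_sub hjL]
        rw [this]
        exact hz'
  refine (measure_mono hincl).trans ((measure_union_le _ _).trans ?_)
  have hb0 : μ T0 ≤ ENNReal.ofReal (2 * q) := by
    rw [hT0]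
    refine (measure_biUnion_finset_le _ _).trans ?_
    have h1 : ∀ y ∈ inn N, μ {ω | ∃ t ≤ R, a * ((L : ℝ) + 1) <
        |Mx (inn N) (Bs U S (fun v => η v ω ≤ lam) t) (gr (inn N) y) (fun v => η v ω)|} ≤
        ENNReal.ofReal (2 * q ^ (L + 1)) := by
      intro y hy
      rw [← htail L]
      refine tail hη hm hS hU lam R (fun v hv => gr_out hv) (by positivity) (by positivity) ?_
      have h2 : D (gr (inn N) y) (gr (inn N) y) = gr (inn N) y y := by
        rw [D_eq_sum (W := inn N) (fun v hv => gr_out hv), Finset.sum_eq_single y]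
        · rw [lap_gr hy, if_pos rfl, one_mul]
        · intro b hb hby
          rw [lap_gr hb, if_neg hby, zero_mul]
        · intro h; exact absurd hy h
      rw [h2]
      have h3 := hgr L 0 0 (inn N) (inn_subset_ball hNL) (Nat.zero_le _) y y (Or.inl rfl)
      refine h3.trans ?_
      have h4 : C1 ≤ C3 := le_max_left _ _
      have h5 : (0 : ℝ) ≤ (L : ℝ) + 1 := by positivity
      simp only [Nat.cast_zero, sub_zero]
      exact mul_le_mul_of_nonneg_right h4 h5
    refine (Finset.sum_le_sum h1).trans ?_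
    rw [Finset.sum_const, nsmul_eq_mul]
    rw [show ((inn N).card : ℝ≥0∞) = ENNReal.ofReal ((inn N).card : ℝ) by simp,
      ← ENNReal.ofReal_mul (by positivity)]
    apply ENNReal.ofReal_le_ofReal
    have hcard : ((inn N).card : ℝ) ≤ 4 ^ L := by
      have h2 : (inn N).card ≤ N ^ 2 := (Finset.card_le_card (inn_subset_box N)).trans
        (le_of_eq (card_box N))
      have h3 : N ^ 2 ≤ (2 ^ L) ^ 2 := Nat.pow_le_pow_left hNL 2
      have h4 : ((inn N).card : ℝ) ≤ (2 ^ L) ^ 2 := by exact_mod_cast h2.trans h3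
      calc ((inn N).card : ℝ) ≤ (2 ^ L) ^ 2 := h4
        _ = 4 ^ L := by rw [← pow_mul, mul_comm, pow_mul]; norm_num
    calc ((inn N).card : ℝ) * (2 * q ^ (L + 1)) ≤ 4 ^ L * (2 * q ^ (L + 1)) :=
          mul_le_mul_of_nonneg_right hcard (by positivity)
      _ = 2 * (4 ^ L * q ^ (L + 1)) := by ring
      _ ≤ 2 * (q * (1 / 2) ^ L) := by
          apply mul_le_mul_of_nonneg_left (geo hq0.le hq8 L) (by norm_num)
      _ ≤ 2 * (q * 1) := by
          apply mul_le_mul_of_nonneg_left _ (by norm_num)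
          apply mul_le_mul_of_nonneg_left _ hq0.le
          exact pow_le_one₀ (by norm_num) (by norm_num)
      _ = 2 * q := by ring
  have hb1 : μ T1 ≤ ENNReal.ofReal (36 * 4 ^ c' * q) := by
    rw [hT1]
    refine (measure_biUnion_finset_le _ _).trans ?_
    have h1 : ∀ n ∈ Finset.range (L + 1), μ (⋃ p ∈ Gn n,
        Tg N R U S lam a n (L - n) (2 ^ (L - n - c') * p.1, 2 ^ (L - n - c') * p.2) η) ≤
        ENNReal.ofReal (18 * 4 ^ c' * q * (1 / 2) ^ n) := by
      intro n hn
      rw [Finset.mem_range] at hn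
      refine (measure_biUnion_finset_le _ _).trans ?_
      have h2 : ∀ p ∈ Gn n,
          μ (Tg N R U S lam a n (L - n) (2 ^ (L - n - c') * p.1, 2 ^ (L - n - c') * p.2) η) ≤
          ENNReal.ofReal (2 * q ^ (n + 1)) := by
        intro p _
        set y : V := (2 ^ (L - n - c') * p.1, 2 ^ (L - n - c') * p.2) with hy
        by_cases hb : ball y (2 * 2 ^ (L - n)) ⊆ inn N
        · have h3 : Tg N R U S lam a n (L - n) y η ⊆ {ω | ∃ t ≤ R, a * ((n : ℝ) + 1) <
              |Mx (inn N) (Bs U S (fun v => η v ω ≤ lam) t) (Fk N (L - n) y)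
                (fun v => η v ω)|} := fun ω hω => hω.2
          refine (measure_mono h3).trans ?_
          rw [← htail n]
          have hF := Fk_spec N (L - n) y
          refine tail hη hm hS hU lam R hF.1 (by positivity) (by positivity) ?_
          have h4 := hek N L (L - n) hNL (by omega) y hb (Fk N (L - n) y) hF.1 hF.2
          refine h4.trans ?_
          rw [Nat.cast_sub (by omega : n ≤ L)]
          have h5 : C2 ≤ C3 := le_max_right _ _
          calc C2 * ((L : ℝ) - ((L : ℝ) - n) + 1) = C2 * ((n : ℝ) + 1) := by ring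
            _ ≤ C3 * ((n : ℝ) + 1) := mul_le_mul_of_nonneg_right h5 (by positivity)
        · have h3 : Tg N R U S lam a n (L - n) y η = ∅ := by
            ext ω
            simp only [Set.mem_empty_iff_false, iff_false]
            intro hω; exact hb hω.1
          rw [h3]; simp
      refine (Finset.sum_le_sum h2).trans ?_
      rw [Finset.sum_const, nsmul_eq_mul]
      rw [show ((Gn n).card : ℝ≥0∞) = ENNReal.ofReal ((Gn n).card : ℝ) by simp,
        ← ENNReal.ofReal_mul (by positivity)]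
      apply ENNReal.ofReal_le_ofReal
      have hcard : ((Gn n).card : ℝ) ≤ 9 * 4 ^ (n + c') := by
        have h3 : (Gn n).card = (2 * 2 ^ (n + c') + 1) ^ 2 := by
          rw [hGn]
          simp only [Finset.card_product, Int.card_Icc]
          have : ((2 : ℤ) ^ (n + c') + 1 - -(2 : ℤ) ^ (n + c')).toNat = 2 * 2 ^ (n + c') + 1 := by
            have h4 : ((2 : ℤ) ^ (n + c') + 1 - -(2 : ℤ) ^ (n + c')) =
              ((2 * 2 ^ (n + c') + 1 : ℕ) : ℤ) := by push_cast; ring
            rw [h4, Int.toNat_natCast]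
          rw [this]; ring
        rw [h3]; push_cast
        have h4 : (1 : ℝ) ≤ 2 ^ (n + c') := one_le_pow₀ (by norm_num)
        have h5 : (4 : ℝ) ^ (n + c') = (2 ^ (n + c')) ^ 2 := by
          rw [← pow_mul, mul_comm, pow_mul]; norm_num
        rw [h5]
        nlinarith
      calc ((Gn n).card : ℝ) * (2 * q ^ (n + 1)) ≤ 9 * 4 ^ (n + c') * (2 * q ^ (n + 1)) :=
            mul_le_mul_of_nonneg_right hcard (by positivity)
        _ = 18 * 4 ^ c' * (4 ^ n * q ^ (n + 1)) := by rw [pow_add]; ring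
        _ ≤ 18 * 4 ^ c' * (q * (1 / 2) ^ n) :=
            mul_le_mul_of_nonneg_left (geo hq0.le hq8 n) (by positivity)
        _ = _ := by ring
    refine (Finset.sum_le_sum h1).trans ?_
    rw [← ENNReal.ofReal_sum_of_nonneg (fun n _ => by positivity)]
    apply ENNReal.ofReal_le_ofReal
    rw [← Finset.mul_sum]
    have h3 : ∑ n ∈ Finset.range (L + 1), (1 / 2 : ℝ) ^ n ≤ 2 := by
      have := sum_geometric_two_le (L + 1)
      simpa using this
    calc 18 * 4 ^ c' * q * ∑ n ∈ Finset.range (L + 1), (1 / 2 : ℝ) ^ n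
        ≤ 18 * 4 ^ c' * q * 2 := mul_le_mul_of_nonneg_left h3 (by positivity)
      _ = _ := by ring
  refine (add_le_add hb0 hb1).trans ?_
  rw [← ENNReal.ofReal_add (by positivity) (by positivity)]
  apply ENNReal.ofReal_le_ofReal
  apply le_of_eq; ring

end Pool.H92.GFL
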