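import Pool.Agent.helper92.GFL.Defs

namespace Pool.H92.GFL

open Function Finset MeasureTheory ProbabilityTheory Pool.H92.GFF
open scoped Classical ENNReal

lemma Conn.mono_set {O O' : Set V} (hO : O ⊆ O') {n : ℕ} {x y : V} (h : Conn O n x y) :
    Conn O' n x y := by
  obtain ⟨p, h0, h1, h2, h3⟩ := h
  exact ⟨p, h0, h1, fun i hi => hO (h2 i hi), h3⟩

lemma Conn.mono_len {O : Set V} {n m : ℕ} (hnm : n ≤ m) {x y : V} (h : Conn O n x y) :
    Conn O m x y := by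
  obtain ⟨p, h0, h1, h2, h3⟩ := h
  refine ⟨fun i => p (min i n), by simpa using h0, by simpa [Nat.min_eq_right hnm] using h1,
    fun i _ => h2 _ (Nat.min_le_right _ _), fun i _ => ?_⟩
  by_cases hi : i < n
  · have e1 : min (i + 1) n = i + 1 := Nat.min_eq_left (by omega)
    have e2 : min i n = i := Nat.min_eq_left (by omega)
    simp only [e1, e2]
    exact h3 i hi
  · left
    have e1 : min (i + 1) n = n := Nat.min_eq_right (by omega)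
    have e2 : min i n = n := Nat.min_eq_right (by omega)
    simp only [e1, e2]

lemma mem_Ann_of {Γ F : Finset V} {z : V} {k : ℕ} (hF : F ⊆ ball z (3 * 2 ^ k)) (hΓ : Γ ⊆ F)
    (hd : Disjoint Γ (ball z (2 ^ k))) {x : V} (hx : x ∈ Γ) : x ∈ Ann z k :=
  ⟨hF (hΓ hx), fun h => (Finset.disjoint_left.1 hd hx) h⟩

theorem Nice.mono {ψ ψ' : V → ℝ} {y y' : ℝ} {z : V} {k C C' : ℕ} (hN : Nice ψ y z k C)
    (h : ∀ v, v ∈ Ann z k → ψ v ≤ y → ψ' v ≤ y') (hC : C ≤ C') : Nice ψ' y' z k C' := by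
  obtain ⟨Γ, F, h1, h2, h3, h4, h5, h6, h7⟩ := hN
  refine ⟨Γ, F, h1, h2, h3, h4, h5, fun x hx => h x (mem_Ann_of h2 h3 h4 hx) (h6 x hx),
    fun x hx x' hx' => ?_⟩
  have hsub : {v | v ∈ Ann z k ∧ ψ v ≤ y} ⊆ {v | v ∈ Ann z k ∧ ψ' v ≤ y'} :=
    fun v hv => ⟨hv.1, h v hv.1 hv.2⟩
  exact ((h7 x hx x' hx').mono_set hsub).mono_len (Nat.mul_le_mul_right _ hC)

theorem Nice.congr {ψ ψ' : V → ℝ} {y : ℝ} {z : V} {k C : ℕ}
    (h : ∀ v, v ∈ Ann z k → ψ v = ψ' v) (hN : Nice ψ y z k C) : Nice ψ' y z k C :=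
  hN.mono (fun v hv hv' => by rw [← h v hv]; exact hv') le_rfl

lemma mem_ball_add {z a v : V} {r : ℕ} : v + a ∈ ball (z + a) r ↔ v ∈ ball z r := by
  simp only [mem_ball, Prod.fst_add, Prod.snd_add]
  omega

lemma mem_Ann_add {z a v : V} {k : ℕ} : v + a ∈ Ann (z + a) k ↔ v ∈ Ann z k := by
  unfold Ann
  simp only [Set.mem_ofPred_eq, mem_ball_add]

lemma nb_add {v w a : V} : w + a ∈ nb (v + a) ↔ w ∈ nb v := by
  obtain ⟨v1, v2⟩ := v
  obtain ⟨w1, w2⟩ := w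
  obtain ⟨a1, a2⟩ := a
  simp only [nb, Prod.mk_add_mk, Finset.mem_insert, Finset.mem_singleton, Prod.mk.injEq]
  omega

lemma Conn.translate {O O' : Set V} {a : V} (hO : ∀ v, v ∈ O → v + a ∈ O') {n : ℕ} {x y : V}
    (h : Conn O n x y) : Conn O' n (x + a) (y + a) := by
  obtain ⟨p, h0, h1, h2, h3⟩ := h
  refine ⟨fun i => p i + a, by simp only [h0], by simp only [h1], fun i hi => hO _ (h2 i hi),
    fun i hi => ?_⟩
  rcases h3 i hi with h | h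
  · left; simp only [h]
  · right; exact nb_add.2 h

lemma Nice.translate_aux {ψ : V → ℝ} {y : ℝ} {z a : V} {k C : ℕ}
    (h : Nice (fun v => ψ (v + a)) y z k C) : Nice ψ y (z + a) k C := by
  obtain ⟨Γ, F, h1, h2, h3, h4, h5, h6, h7⟩ := h
  refine ⟨Γ.image (· + a), F.image (· + a), ?_, ?_, Finset.image_subset_image h3, ?_, ?_, ?_, ?_⟩
  · intro v hv
    rw [Finset.mem_image]
    refine ⟨v - a, h1 ?_, sub_add_cancel v a⟩
    rw [← mem_ball_add (a := a), sub_add_cancel]; exact hv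
  · intro v hv
    rw [Finset.mem_image] at hv
    obtain ⟨u, hu, rfl⟩ := hv
    exact mem_ball_add.2 (h2 hu)
  · rw [Finset.disjoint_left]
    intro v hv hv'
    rw [Finset.mem_image] at hv
    obtain ⟨u, hu, rfl⟩ := hv
    exact Finset.disjoint_left.1 h4 hu (mem_ball_add.1 hv')
  · intro x hx w hw hwF
    rw [Finset.mem_image] at hx ⊢
    obtain ⟨u, hu, rfl⟩ := hx
    refine ⟨u, h5 u hu (w - a) ?_ ?_, rfl⟩
    · rw [← nb_add (a := a), sub_add_cancel]; exact hw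
    · intro hh
      exact hwF (Finset.mem_image.2 ⟨w - a, hh, sub_add_cancel w a⟩)
  · intro x hx
    rw [Finset.mem_image] at hx
    obtain ⟨u, hu, rfl⟩ := hx
    exact h6 u hu
  · intro x hx x' hx'
    rw [Finset.mem_image] at hx hx'
    obtain ⟨u, hu, rfl⟩ := hx
    obtain ⟨u', hu', rfl⟩ := hx'
    have hO : ∀ v, v ∈ {v | v ∈ Ann z k ∧ ψ (v + a) ≤ y} →
        v + a ∈ {v | v ∈ Ann (z + a) k ∧ ψ v ≤ y} := fun v hv => ⟨mem_Ann_add.2 hv.1, hv.2⟩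
    exact (h7 u hu u' hu').translate hO

theorem Nice.translate {ψ : V → ℝ} {y : ℝ} {z a : V} {k C : ℕ} :
    Nice (fun v => ψ (v + a)) y z k C ↔ Nice ψ y (z + a) k C := by
  refine ⟨Nice.translate_aux, fun h => ?_⟩
  have h' : Nice (fun v => (fun w => ψ (w + a)) (v + -a)) y (z + a) k C := by
    have e : (fun v => (fun w => ψ (w + a)) (v + -a)) = ψ := by
      funext v; simp
    rw [e]; exact h
  have := Nice.translate_aux (ψ := fun w => ψ (w + a)) (a := -a) h'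
  simpa using this

theorem Blk.mono {ψ ψ' : V → ℝ} {y y' : ℝ} {z : V} {k : ℕ} (hN : Blk ψ y z k)
    (h : ∀ v, v ∈ Ann z k → y < ψ v → y' < ψ' v) : Blk ψ' y' z k := by
  obtain ⟨Γ, F, h1, h2, h3, h4, h5, h6⟩ := hN
  exact ⟨Γ, F, h1, h2, h3, h4, h5, fun x hx => h x (mem_Ann_of h2 h3 h4 hx) (h6 x hx)⟩

/-- `Nice` with an arbitrary set of open vertices -/
def NiceP (z : V) (k C : ℕ) (o : V → Prop) : Prop :=
  ∃ Γ F : Finset V, ball z (2 ^ k) ⊆ F ∧ F ⊆ ball z (3 * 2 ^ k) ∧ Γ ⊆ F ∧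
    Disjoint Γ (ball z (2 ^ k)) ∧ (∀ x ∈ F, ∀ w ∈ nb x, w ∉ F → x ∈ Γ) ∧ (∀ x ∈ Γ, o x) ∧
    ∀ x ∈ Γ, ∀ x' ∈ Γ, Conn {v | v ∈ Ann z k ∧ o v} (C * 2 ^ k) x x'

/-- `Blk` with an arbitrary set of open vertices -/
def BlkP (z : V) (k : ℕ) (o : V → Prop) : Prop :=
  ∃ Γ F : Finset V, ball z (2 ^ k) ⊆ F ∧ F ⊆ ball z (3 * 2 ^ k) ∧ Γ ⊆ F ∧
    Disjoint Γ (ball z (2 ^ k)) ∧ (∀ x ∈ F, ∀ w ∈ nb x, w ∉ F → x ∈ Γ) ∧ (∀ x ∈ Γ, ¬ o x)

lemma NiceP.congr {z : V} {k C : ℕ} {o o' : V → Prop}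
    (h : ∀ v ∈ ball z (3 * 2 ^ k), o v ↔ o' v) (hN : NiceP z k C o) : NiceP z k C o' := by
  obtain ⟨Γ, F, h1, h2, h3, h4, h5, h6, h7⟩ := hN
  have hsub : {v | v ∈ Ann z k ∧ o v} ⊆ {v | v ∈ Ann z k ∧ o' v} :=
    fun v hv => ⟨hv.1, (h v hv.1.1).1 hv.2⟩
  exact ⟨Γ, F, h1, h2, h3, h4, h5, fun x hx => (h x (h2 (h3 hx))).1 (h6 x hx),
    fun x hx x' hx' => (h7 x hx x' hx').mono_set hsub⟩

lemma BlkP.congr {z : V} {k : ℕ} {o o' : V → Prop}
    (h : ∀ v ∈ ball z (3 * 2 ^ k), o v ↔ o' v) (hN : BlkP z k o) : BlkP z k o' := by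
  obtain ⟨Γ, F, h1, h2, h3, h4, h5, h6⟩ := hN
  exact ⟨Γ, F, h1, h2, h3, h4, h5, fun x hx hh => h6 x hx ((h x (h2 (h3 hx))).2 hh)⟩

theorem meas_Nice (y : ℝ) (z : V) (k C : ℕ) :
    MeasurableSet {ψ : V → ℝ | Nice ψ y z k C} := by
  have := meas_set (U := ball z (3 * 2 ^ k)) (fun v (ψ : V → ℝ) => ψ v) y
    (fun v _ => measurable_pi_apply v) (NiceP z k C)
    (fun o o' h => ⟨NiceP.congr h, NiceP.congr (fun v hv => (h v hv).symm)⟩)
  exact this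

theorem meas_Blk (y : ℝ) (z : V) (k : ℕ) :
    MeasurableSet {ψ : V → ℝ | Blk ψ y z k} := by
  have := meas_set (U := ball z (3 * 2 ^ k)) (fun v (ψ : V → ℝ) => ψ v) y
    (fun v _ => measurable_pi_apply v) (BlkP z k)
    (fun o o' h => ⟨BlkP.congr h, BlkP.congr (fun v hv => (h v hv).symm)⟩)
  have e : {ψ : V → ℝ | Blk ψ y z k} = {ψ : V → ℝ | BlkP z k (fun v => ψ v ≤ y)} := by
    ext ψ
    simp only [Set.mem_ofPred_eq, Blk, BlkP, not_le]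
  rw [e]
  exact this

theorem meas_osc (z : V) (r : ℕ) : Measurable (fun ψ : V → ℝ => osc ψ z r) := by
  have hne : (ball z r).Nonempty := ⟨z, by rw [mem_ball]; omega⟩
  have h : Measurable ((ball z r).sup' hne
      (fun x (ψ : V → ℝ) => |ψ x - ψ z|)) := by
    refine Finset.measurable_sup' _ (fun x _ => ?_)
    exact ((measurable_pi_apply x).sub (measurable_pi_apply z)).abs
  have e : (fun ψ : V → ℝ => osc ψ z r) = (ball z r).sup' hne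
      (fun x (ψ : V → ℝ) => |ψ x - ψ z|) := by
    funext ψ
    rw [Finset.sup'_apply]
    rfl
  rw [e]; exact h

end Pool.H92.GFL
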