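import Pool.Agent.helper92.GFL.G0

namespace Pool.H92.GFL

open Function Finset MeasureTheory ProbabilityTheory Pool.H92.GFF
open scoped Classical ENNReal

theorem G_eq_gr {N : ℕ} {x y : V} (hx : x ∈ inn N) : G N x y / 4 = gr (inn N) y x := by
  have h := green_lap (gr (inn N) y) (fun v hv => gr_out hv) hx
  rw [← h]
  by_cases hy : y ∈ inn N
  · rw [Finset.sum_eq_single y]
    · rw [lap_gr hy, if_pos rfl, mul_one]
    · intro b hb hby
      rw [lap_gr hb, if_neg hby, mul_zero]
    · intro h'; exact absurd hy h'
  · rw [Finset.sum_eq_zero]
    · have hz : ∀ t (w : V), walk N t w y = 0 := by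
        intro t
        induction t with
        | zero =>
          intro w; unfold walk
          rw [if_neg]
          rintro ⟨rfl, h5⟩; exact hy h5
        | succ t ih =>
          intro w; rw [walk_succ]; unfold Kop; simp [ih]
      unfold G
      simp only [hz, tsum_zero, zero_div]
    · intro b hb
      have hby : b ≠ y := fun h' => hy (h' ▸ hb)
      rw [lap_gr hb, if_neg hby, mul_zero]

end Pool.H92.GFL
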