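import Pool.Agent.helper92.GFL.K5
import Pool.Agent.helper92.GFL.K4
import Pool.Agent.helper92.GFL.L4a
import Pool.Agent.helper92.GFL.G0

/-!
Decomposition of the DGFF covariance (module K5b, proofs by helper53).
-/

namespace Pool.H92.GFL

open Function Finset MeasureTheory ProbabilityTheory Pool.H92.GFF
open scoped Classical ENNReal

/-- the potential of a charge on `I` -/
noncomputable def potK (I : Finset V) (a : V → ℝ) (v : V) : ℝ := ∑ z ∈ I, a z * gr I z v

lemma lap_finsum_K5b {ι : Type*} (s : Finset ι) (f : ι → V → ℝ) (v : V) :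
    lap (fun v => ∑ i ∈ s, f i v) v = ∑ i ∈ s, lap (f i) v := by
  unfold lap
  rw [Finset.mul_sum, ← Finset.sum_add_distrib, ← Finset.sum_add_distrib,
    ← Finset.sum_add_distrib, ← Finset.sum_sub_distrib]

lemma pot_out_K5b {I : Finset V} {a : V → ℝ} {v : V} (hv : v ∉ I) : potK I a v = 0 :=
  Finset.sum_eq_zero (fun z _ => by rw [gr_out hv, mul_zero])

lemma lap_pot_K5b {I : Finset V} {a : V → ℝ} {v : V} (hv : v ∈ I) : lap (potK I a) v = a v := by
  have h1 : lap (potK I a) v = ∑ z ∈ I, lap (fun v => a z * gr I z v) v := lap_finsum_K5b I _ v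
  rw [h1, Finset.sum_eq_single v]
  · rw [lap_smul, lap_gr hv, if_pos rfl, mul_one]
  · intro b hb hbv
    rw [lap_smul, lap_gr hv, if_neg (Ne.symm hbv), mul_zero]
  · intro h; exact absurd hv h

lemma D_pot_K5b (I : Finset V) (a : V → ℝ) :
    D (potK I a) (potK I a) = ∑ z ∈ I, ∑ z' ∈ I, a z * a z' * gr I z' z := by
  rw [D_eq_sum (W := I) (fun v hv => pot_out_K5b hv)]
  refine Finset.sum_congr rfl (fun z hz => ?_)
  rw [lap_pot_K5b hz]
  unfold potK
  rw [Finset.mul_sum]
  exact Finset.sum_congr rfl (fun z' _ => by ring)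

/-- sum of squares of increments in one direction -/
lemma grad_sum_le_K5b {F : V → ℝ} (hF : (support F).Finite) {x w : V} (hw : w ∈ nb x)
    (B : Finset V) : ∑ v ∈ B, (F (x - v) - F (w - v)) ^ 2 ≤ D F F := by
  have key : ∀ c : V, ∑ v ∈ B, ((F ((c - v).1 + 1, (c - v).2) - F (c - v)) *
      (F ((c - v).1 + 1, (c - v).2) - F (c - v)) +
      (F ((c - v).1, (c - v).2 + 1) - F (c - v)) *
      (F ((c - v).1, (c - v).2 + 1) - F (c - v))) ≤ D F F := by
    intro c
    have hinj : Set.InjOn (fun v : V => c - v) (B : Set V) := by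
      intro a _ b _ h
      simpa using h
    have h1 := Finset.sum_image (s := B) (g := fun v : V => c - v)
      (f := fun u : V => ((F (u.1 + 1, u.2) - F u) * (F (u.1 + 1, u.2) - F u) +
        (F (u.1, u.2 + 1) - F u) * (F (u.1, u.2 + 1) - F u))) hinj
    rw [← h1]
    unfold D
    exact (D_summable hF).sum_le_tsum _
      (fun v _ => add_nonneg (mul_self_nonneg _) (mul_self_nonneg _))
  simp only [nb, Finset.mem_insert, Finset.mem_singleton] at hw
  rcases hw with rfl | rfl | rfl | rfl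
  · refine le_trans (Finset.sum_le_sum (fun v _ => ?_)) (key x)
    have e : ((x - v).1 + 1, (x - v).2) = ((x.1 + 1, x.2) : V) - v := by
      ext <;> simp; ring
    rw [e]
    nlinarith [mul_self_nonneg (F ((x - v).1, (x - v).2 + 1) - F (x - v))]
  · refine le_trans (Finset.sum_le_sum (fun v _ => ?_)) (key (x.1 - 1, x.2))
    have e : (((((x.1 - 1, x.2) : V) - v).1 + 1, (((x.1 - 1, x.2) : V) - v).2) : V) = x - v := by
      ext <;> simp; ring
    rw [e]
    nlinarith [mul_self_nonneg (F ((((x.1 - 1, x.2) : V) - v).1,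
      (((x.1 - 1, x.2) : V) - v).2 + 1) - F (((x.1 - 1, x.2) : V) - v))]
  · refine le_trans (Finset.sum_le_sum (fun v _ => ?_)) (key x)
    have e : ((x - v).1, (x - v).2 + 1) = ((x.1, x.2 + 1) : V) - v := by
      ext <;> simp; ring
    rw [e]
    nlinarith [mul_self_nonneg (F ((x - v).1 + 1, (x - v).2) - F (x - v))]
  · refine le_trans (Finset.sum_le_sum (fun v _ => ?_)) (key (x.1, x.2 - 1))
    have e : (((((x.1, x.2 - 1) : V) - v).1, (((x.1, x.2 - 1) : V) - v).2 + 1) : V) = x - v := by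
      ext <;> simp; ring
    rw [e]
    nlinarith [mul_self_nonneg (F ((((x.1, x.2 - 1) : V) - v).1 + 1,
      (((x.1, x.2 - 1) : V) - v).2) - F (((x.1, x.2 - 1) : V) - v))]

/-- the smooth remainder -/
noncomputable def Rcv (I : Finset V) (J : ℕ) (x y : V) : ℝ :=
  ∑ z ∈ I, ∑ z' ∈ I, kI I (Ep J) x z * gr I z' z * kI I (Ep J) z' y

lemma Rcv_symm (I : Finset V) (J : ℕ) (x y : V) : Rcv I J x y = Rcv I J y x := by
  unfold Rcv
  rw [Finset.sum_comm]
  refine Finset.sum_congr rfl (fun z _ => Finset.sum_congr rfl (fun z' _ => ?_))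
  rw [kI_symm I _ x z', kI_symm I _ z y, gr_symm I z z']
  ring

/-- bilinear form of the remainder -/
lemma Rcv_form (I : Finset V) (J : ℕ) (s : Finset V) (a : V → ℝ) :
    ∑ x ∈ s, ∑ y ∈ s, a x * a y * Rcv I J x y =
      D (potK I (fun z => ∑ x ∈ s, a x * kI I (Ep J) x z))
        (potK I (fun z => ∑ x ∈ s, a x * kI I (Ep J) x z)) := by
  rw [D_pot_K5b]
  have h1 : ∀ x ∈ s, ∀ y ∈ s, a x * a y * Rcv I J x y =
      ∑ z ∈ I, ∑ z' ∈ I, (a x * kI I (Ep J) x z) * (a y * kI I (Ep J) y z') * gr I z' z := by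
    intro x _ y _
    unfold Rcv
    rw [Finset.mul_sum]
    refine Finset.sum_congr rfl (fun z _ => ?_)
    rw [Finset.mul_sum]
    refine Finset.sum_congr rfl (fun z' _ => ?_)
    rw [kI_symm I _ z' y]; ring
  rw [Finset.sum_congr rfl (fun x hx => Finset.sum_congr rfl (fun y hy => h1 x hx y hy))]
  have h2 : ∀ x ∈ s, ∑ y ∈ s, ∑ z ∈ I, ∑ z' ∈ I,
      (a x * kI I (Ep J) x z) * (a y * kI I (Ep J) y z') * gr I z' z =
      ∑ z ∈ I, ∑ z' ∈ I, (a x * kI I (Ep J) x z) *
        (∑ y ∈ s, a y * kI I (Ep J) y z') * gr I z' z := by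
    intro x _
    rw [Finset.sum_comm]
    refine Finset.sum_congr rfl (fun z _ => ?_)
    rw [Finset.sum_comm]
    refine Finset.sum_congr rfl (fun z' _ => ?_)
    rw [Finset.mul_sum, Finset.sum_mul]
  rw [Finset.sum_congr rfl h2, Finset.sum_comm]
  refine Finset.sum_congr rfl (fun z _ => ?_)
  rw [Finset.sum_comm]
  refine Finset.sum_congr rfl (fun z' _ => ?_)
  rw [Finset.sum_mul, Finset.sum_mul]

lemma kI_sq_sum_K5b (I : Finset V) (J : ℕ) (x : V) :
    ∑ z ∈ I, kI I (Ep J) x z ^ 2 ≤ 128 / 4 ^ J := by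
  refine le_trans (le_of_eq ?_) (kI_Ep_diag I J x)
  rw [sq (Ep J), ← kI_mul]
  refine Finset.sum_congr rfl (fun z _ => ?_)
  rw [kI_symm I _ z x]; ring

/-- gradient bound -/
lemma Rcv_grad (I : Finset V) (J : ℕ) {x : V} (hb : ball x (2 * 2 ^ J) ⊆ I) {w : V}
    (hw : w ∈ nb x) :
    Rcv I J x x - 2 * Rcv I J x w + Rcv I J w w ≤ 128 / 4 ^ J := by
  set k : V → ℝ := kz (Ep J) with hk
  set a : V → ℝ := fun z => kI I (Ep J) x z - kI I (Ep J) w z with ha
  set F : V → ℝ := potK I a with hF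
  have hxw : x ≠ w := by
    intro h
    rw [← h] at hw
    obtain ⟨p, q⟩ := x
    simp only [nb, Finset.mem_insert, Finset.mem_singleton, Prod.mk.injEq] at hw
    omega
  -- the left side is D F F
  have h1 : Rcv I J x x - 2 * Rcv I J x w + Rcv I J w w = D F F := by
    rw [hF, D_pot_K5b]
    have e : ∀ p q : V, Rcv I J p q = ∑ z ∈ I, ∑ z' ∈ I,
        kI I (Ep J) p z * kI I (Ep J) q z' * gr I z' z := by
      intro p q
      unfold Rcv
      refine Finset.sum_congr rfl (fun z _ => Finset.sum_congr rfl (fun z' _ => ?_))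
      rw [kI_symm I _ z' q]; ring
    have e2 : Rcv I J x x - 2 * Rcv I J x w + Rcv I J w w =
        Rcv I J x x - Rcv I J x w - Rcv I J w x + Rcv I J w w := by
      rw [Rcv_symm I J w x]; ring
    rw [e2, e x x, e x w, e w x, e w w, ← Finset.sum_sub_distrib, ← Finset.sum_sub_distrib,
      ← Finset.sum_add_distrib]
    refine Finset.sum_congr rfl (fun z _ => ?_)
    rw [← Finset.sum_sub_distrib, ← Finset.sum_sub_distrib, ← Finset.sum_add_distrib]
    refine Finset.sum_congr rfl (fun z' _ => ?_)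
    simp only [ha]
    ring
  rw [h1]
  have hdeg : ((Ep J).natDegree : ℤ) < 2 ^ J := by exact_mod_cast natDegree_Ep_lt J
  have hpow : (1 : ℤ) ≤ 2 ^ J := one_le_pow₀ (by norm_num)
  -- bulk identities
  have bx : ∀ z, kI I (Ep J) x z = k (x - z) := by
    intro z
    refine kI_bulk I _ (fun v hv => hb ?_) z
    rw [mem_ball]
    push_cast
    have h2 := abs_le.1 (show |v.1 - x.1| ≤ 2 ^ J by linarith [abs_nonneg (v.2 - x.2)])
    have h3 := abs_le.1 (show |v.2 - x.2| ≤ 2 ^ J by linarith [abs_nonneg (v.1 - x.1)])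
    constructor <;> constructor <;> linarith
  have bw : ∀ z, kI I (Ep J) w z = k (w - z) := by
    intro z
    refine kI_bulk I _ (fun v hv => hb ?_) z
    have hwb := nb_ball hw
    rw [mem_ball] at hwb ⊢
    push_cast at *
    have h2 := abs_le.1 (show |v.1 - w.1| ≤ 2 ^ J by linarith [abs_nonneg (v.2 - w.2)])
    have h3 := abs_le.1 (show |v.2 - w.2| ≤ 2 ^ J by linarith [abs_nonneg (v.1 - w.1)])
    constructor <;> constructor <;> linarith
  -- support of k
  have ksupp : ∀ v : V, v ∉ ball (0 : V) (2 ^ J) → k v = 0 := by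
    intro v hv
    refine kz_far _ ?_
    refine lt_of_lt_of_le hdeg ?_
    rw [mem_ball] at hv
    simp only [Prod.fst_zero, Prod.snd_zero] at hv
    push_cast at hv
    by_contra hcon
    push Not at hcon
    apply hv
    have h2 := abs_le.1 (show |v.1| ≤ 2 ^ J by linarith [abs_nonneg (v.2)])
    have h3 := abs_le.1 (show |v.2| ≤ 2 ^ J by linarith [abs_nonneg (v.1)])
    constructor <;> constructor <;> linarith
  have Fout : ∀ v ∉ I, F v = 0 := fun v hv => pot_out_K5b hv
  -- convolution reindexing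
  have conv : ∀ c : V, ∑ z ∈ I, k (c - z) * F z =
      ∑ v ∈ ball (0 : V) (2 ^ J), k v * F (c - v) := by
    intro c
    have e1 : ∑ z ∈ I, k (c - z) * F z = ∑ z ∈ I ∪ (ball (0 : V) (2 ^ J)).image (fun v => c - v),
        k (c - z) * F z := by
      refine Finset.sum_subset Finset.subset_union_left (fun z _ hz => ?_)
      rw [Fout z hz, mul_zero]
    have e2 : ∑ z ∈ (ball (0 : V) (2 ^ J)).image (fun v => c - v), k (c - z) * F z =
        ∑ z ∈ I ∪ (ball (0 : V) (2 ^ J)).image (fun v => c - v), k (c - z) * F z := by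
      refine Finset.sum_subset Finset.subset_union_right (fun z _ hz => ?_)
      rw [ksupp (c - z), zero_mul]
      intro h
      exact hz (Finset.mem_image.2 ⟨c - z, h, by simp⟩)
    rw [e1, ← e2, Finset.sum_image]
    · refine Finset.sum_congr rfl (fun v _ => ?_)
      rw [sub_sub_cancel]
    · intro p _ q _ h
      simpa using h
  have h2 : D F F = ∑ v ∈ ball (0 : V) (2 ^ J), k v * (F (x - v) - F (w - v)) := by
    rw [D_eq_sum (W := I) Fout]
    have e1 : ∑ v ∈ I, lap F v * F v = ∑ z ∈ I, k (x - z) * F z - ∑ z ∈ I, k (w - z) * F z := by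
      rw [← Finset.sum_sub_distrib]
      refine Finset.sum_congr rfl (fun z hz => ?_)
      rw [hF, lap_pot_K5b hz, ← hF]
      simp only [ha]
      rw [bx z, bw z]; ring
    rw [e1, conv x, conv w, ← Finset.sum_sub_distrib]
    exact Finset.sum_congr rfl (fun v _ => by ring)
  have hsupp : (support F).Finite := fin_of_zero_off Fout
  have h3 : D F F ^ 2 ≤ (∑ v ∈ ball (0 : V) (2 ^ J), k v ^ 2) * D F F := by
    calc D F F ^ 2 = (∑ v ∈ ball (0 : V) (2 ^ J), k v * (F (x - v) - F (w - v))) ^ 2 := by rw [← h2]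
      _ ≤ (∑ v ∈ ball (0 : V) (2 ^ J), k v ^ 2) *
          ∑ v ∈ ball (0 : V) (2 ^ J), (F (x - v) - F (w - v)) ^ 2 :=
          Finset.sum_mul_sq_le_sq_mul_sq _ _ _
      _ ≤ _ := mul_le_mul_of_nonneg_left (grad_sum_le_K5b hsupp hw _)
          (Finset.sum_nonneg (fun v _ => sq_nonneg _))
  have h4 : ∑ v ∈ ball (0 : V) (2 ^ J), k v ^ 2 ≤ 128 / 4 ^ J := by
    refine le_trans ?_ (kI_sq_sum_K5b I J x)
    have e : ∑ v ∈ ball (0 : V) (2 ^ J), k v ^ 2 =
        ∑ z ∈ (ball (0 : V) (2 ^ J)).image (fun v => x - v), kI I (Ep J) x z ^ 2 := by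
      rw [Finset.sum_image]
      · refine Finset.sum_congr rfl (fun v _ => ?_)
        rw [bx, sub_sub_cancel]
      · intro p _ q _ h
        simpa using h
    rw [e]
    refine Finset.sum_le_sum_of_subset_of_nonneg ?_ (fun z _ _ => sq_nonneg _)
    intro z hz
    obtain ⟨v, hv, rfl⟩ := Finset.mem_image.1 hz
    apply hb
    rw [mem_ball] at hv ⊢
    simp only [Prod.fst_sub, Prod.snd_sub, Prod.fst_zero, Prod.snd_zero] at *
    push_cast at *
    constructor <;> constructor <;> linarith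
  have h5 := D_self_nonneg F
  rcases h5.eq_or_lt with h6 | h6
  · rw [← h6]; positivity
  · have h7 : D F F * D F F ≤ (∑ v ∈ ball (0 : V) (2 ^ J), k v ^ 2) * D F F := by
      rw [← sq]; exact h3
    exact (le_of_mul_le_mul_right h7 h6).trans h4

/-- decomposition of the DGFF covariance into layers and a smooth remainder -/
theorem dgff_split : ∃ C : ℝ, 0 < C ∧ ∀ N J L : ℕ, N ≤ 2 ^ L → ∃ Rc : V → V → ℝ,
    (∀ x y, Rc x y = Rc y x) ∧
    (∀ (s : Finset V) (a : V → ℝ), 0 ≤ ∑ x ∈ s, ∑ y ∈ s, a x * a y * Rc x y) ∧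
    (∀ x ∈ inn N, ∀ y ∈ inn N, ball x (4 * 2 ^ J) ⊆ inn N →
      G N x y / 4 = ∑ j ∈ Finset.range J, kap j (x - y) + Rc x y) ∧
    (∀ x, Rc x x ≤ C * 4 ^ L / 4 ^ J) ∧
    (∀ x, ball x (2 * 2 ^ J) ⊆ inn N → ∀ w ∈ nb x,
      Rc x x - 2 * Rc x w + Rc w w ≤ 128 / 4 ^ J) := by
  obtain ⟨C, hC, hform⟩ := gr_form_le
  refine ⟨128 * C, by positivity, fun N J L hN => ⟨Rcv (inn N) J, Rcv_symm _ _, ?_, ?_, ?_, ?_⟩⟩
  · intro s a
    rw [Rcv_form]
    exact D_self_nonneg _
  · intro x hx y hy hb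
    rw [G_eq_gr hx, gr_split (inn N) J hx hy]
    congr 1
    refine Finset.sum_congr rfl (fun j hj => ?_)
    unfold kap
    refine kI_bulk (inn N) _ (fun v hv => hb ?_) y
    have h1 : ((cpol j).natDegree : ℤ) < 4 * 2 ^ j := by exact_mod_cast natDegree_cpol_lt j
    have h2 : (2 : ℤ) ^ j ≤ 2 ^ J :=
      pow_le_pow_right₀ (by norm_num) (Finset.mem_range.1 hj).le
    rw [mem_ball]
    push_cast
    have h3 := abs_le.1 (show |v.1 - x.1| ≤ 4 * 2 ^ J by linarith [abs_nonneg (v.2 - x.2)])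
    have h4 := abs_le.1 (show |v.2 - x.2| ≤ 4 * 2 ^ J by linarith [abs_nonneg (v.1 - x.1)])
    constructor <;> constructor <;> linarith
  · intro x
    have hsub : inn N ⊆ ball (0 : V) (2 ^ L) := by
      intro v hv
      rw [mem_inn] at hv
      rw [mem_ball]
      have h1 : (N : ℤ) ≤ 2 ^ L := by exact_mod_cast hN
      simp only [Prod.fst_zero, Prod.snd_zero]
      push_cast
      constructor <;> constructor <;> omega
    have h1 := hform L 0 (inn N) hsub (fun z => kI (inn N) (Ep J) x z)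
    have h2 : Rcv (inn N) J x x = ∑ z ∈ inn N, ∑ z' ∈ inn N,
        kI (inn N) (Ep J) x z * kI (inn N) (Ep J) x z' * gr (inn N) z' z := by
      unfold Rcv
      refine Finset.sum_congr rfl (fun z _ => Finset.sum_congr rfl (fun z' _ => ?_))
      rw [kI_symm (inn N) _ z' x]; ring
    rw [h2]
    refine h1.trans ?_
    have h3 := kI_sq_sum_K5b (inn N) J x
    calc C * 4 ^ L * ∑ z ∈ inn N, kI (inn N) (Ep J) x z ^ 2 ≤ C * 4 ^ L * (128 / 4 ^ J) :=
          mul_le_mul_of_nonneg_left h3 (by positivity)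
      _ = 128 * C * 4 ^ L / 4 ^ J := by ring
  · intro x hb w hw
    exact Rcv_grad (inn N) J hb hw

end Pool.H92.GFL
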