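import Pool.Agent.helper92.GFL.Defs

namespace Pool.H92.GFL

open Function Finset MeasureTheory ProbabilityTheory Pool.H92.GFF
open scoped Classical ENNReal

lemma GF.isProb_L1 {ι : Type*} {c : ι → ι → ℝ} {Ω : Type*} [MeasurableSpace Ω] {μ : Measure Ω}
    {Z : ι → Ω → ℝ} (h : GF μ Z c) : IsProbabilityMeasure μ := h.gauss.isProbabilityMeasure

lemma GF.memLp_L1 {ι : Type*} {c : ι → ι → ℝ} {Ω : Type*} [MeasurableSpace Ω] {μ : Measure Ω}
    {Z : ι → Ω → ℝ} (h : GF μ Z c) (i : ι) : MemLp (Z i) 2 μ :=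
  (h.gauss.hasGaussianLaw_eval i).memLp_two

lemma GF.integrable_L1 {ι : Type*} {c : ι → ι → ℝ} {Ω : Type*} [MeasurableSpace Ω] {μ : Measure Ω}
    {Z : ι → Ω → ℝ} (h : GF μ Z c) (i : ι) : Integrable (Z i) μ :=
  (h.gauss.hasGaussianLaw_eval i).integrable

theorem exists_GF {ι : Type} [Fintype ι] (c : ι → ι → ℝ) (hs : ∀ i j, c i j = c j i)
    (hp : ∀ a : ι → ℝ, 0 ≤ ∑ i, ∑ j, a i * a j * c i j) :
    ∃ (Ω : Type) (_ : MeasurableSpace Ω) (μ : Measure Ω) (_ : IsProbabilityMeasure μ)
      (Z : ι → Ω → ℝ), GF μ Z c := by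
  have hS : (Matrix.of c).PosSemidef := by
    refine Matrix.PosSemidef.of_dotProduct_mulVec_nonneg ?_ ?_
    · ext i j
      simp [hs i j]
    · intro x
      have := hp x
      have e : dotProduct (star x) (Matrix.mulVec (Matrix.of c) x) = ∑ i, ∑ j, x i * x j * c i j := by
        simp only [dotProduct, Matrix.mulVec, Finset.mul_sum, Matrix.of_apply, Pi.star_apply,
          star_trivial]
        refine Finset.sum_congr rfl fun i _ => Finset.sum_congr rfl fun j _ => by ring
      rw [e]; exact this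
  refine ⟨EuclideanSpace ℝ ι, inferInstance, multivariateGaussian 0 (Matrix.of c), inferInstance,
    fun i x => x i, ⟨?_, ?_, ?_, ?_⟩⟩
  · constructor
    intro I
    let L : EuclideanSpace ℝ ι →L[ℝ] (I → ℝ) :=
      ContinuousLinearMap.pi fun i => EuclideanSpace.proj (i : ι)
    have h : HasGaussianLaw (id : EuclideanSpace ℝ ι → EuclideanSpace ℝ ι)
      (multivariateGaussian 0 (Matrix.of c)) := IsGaussian.hasGaussianLaw_id
    exact h.map L
  · intro i; fun_prop
  · intro i
    have h : Integrable (id : EuclideanSpace ℝ ι → EuclideanSpace ℝ ι)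
      (multivariateGaussian 0 (Matrix.of c)) := IsGaussian.integrable_id
    have := ContinuousLinearMap.integral_comp_comm (EuclideanSpace.proj i : EuclideanSpace ℝ ι →L[ℝ] ℝ) h
    simpa using this
  · intro i j
    have := covariance_eval_multivariateGaussian (μ := (0 : EuclideanSpace ℝ ι)) hS i j
    simpa using this

lemma GF.charFunDual_eq {ι : Type*} [Fintype ι] {c : ι → ι → ℝ} {Ω : Type*} [MeasurableSpace Ω]
    {μ : Measure Ω} {Z : ι → Ω → ℝ} (h : GF μ Z c) (L : StrongDual ℝ (ι → ℝ)) :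
    charFunDual (μ.map (fun ω i => Z i ω)) L
      = Complex.exp (-((∑ i, ∑ j, L (Pi.single i 1) * L (Pi.single j 1) * c i j : ℝ) : ℂ) / 2) := by
  have hp := h.isProb_L1
  have hG : HasGaussianLaw (fun ω i => Z i ω) μ := by
    have h1 := h.gauss.hasGaussianLaw Finset.univ
    let M : ({x // x ∈ (Finset.univ : Finset ι)} → ℝ) →L[ℝ] (ι → ℝ) :=
      ContinuousLinearMap.pi fun i => ContinuousLinearMap.proj (⟨i, Finset.mem_univ i⟩ : (Finset.univ : Finset ι))
    exact h1.map M
  rw [hG.charFunDual_map_eq]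
  have hL : (L ∘ fun ω i => Z i ω) = fun ω => ∑ i, L (Pi.single i 1) * Z i ω := by
    funext ω
    simp only [Function.comp]
    conv_lhs => rw [show (fun i => Z i ω) = ∑ i, Z i ω • (Pi.single i (1:ℝ) : ι → ℝ) from by
      funext j; simp [Finset.sum_apply, Pi.single_apply]]
    rw [map_sum]
    refine Finset.sum_congr rfl fun i _ => ?_
    rw [map_smul, smul_eq_mul, mul_comm]
  have h1 : μ[L ∘ fun ω i => Z i ω] = 0 := by
    rw [hL]
    show ∫ ω, ∑ i, L (Pi.single i 1) * Z i ω ∂μ = 0
    rw [integral_finsetSum _ (fun i _ => (h.integrable_L1 i).const_mul _)]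
    refine Finset.sum_eq_zero fun i _ => ?_
    rw [integral_const_mul, h.mean, mul_zero]
  have h2 : Var[L ∘ fun ω i => Z i ω; μ] = ∑ i, ∑ j, L (Pi.single i 1) * L (Pi.single j 1) * c i j := by
    rw [hL]
    rw [← covariance_self (by
      refine Finset.aemeasurable_fun_sum _ fun i _ => ?_
      exact ((h.meas i).const_mul _).aemeasurable)]
    rw [covariance_fun_sum_fun_sum (fun i => (h.memLp_L1 i).const_mul _) (fun i => (h.memLp_L1 i).const_mul _)]
    refine Finset.sum_congr rfl fun i _ => Finset.sum_congr rfl fun j _ => ?_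
    rw [covariance_const_mul_left, covariance_const_mul_right, h.cov]
    ring
  rw [h1, h2]
  congr 1
  push_cast
  ring

theorem GF.law_eq {ι : Type*} [Finite ι] {c : ι → ι → ℝ} {Ω Ω' : Type*} [MeasurableSpace Ω]
    [MeasurableSpace Ω'] {μ : Measure Ω} {μ' : Measure Ω'} {Z : ι → Ω → ℝ} {Z' : ι → Ω' → ℝ}
    (h : GF μ Z c) (h' : GF μ' Z' c) :
    μ.map (fun ω i => Z i ω) = μ'.map (fun ω i => Z' i ω) := by
  have := Fintype.ofFinite ι
  have hp := h.isProb_L1
  have hp' := h'.isProb_L1
  apply Measure.ext_of_charFunDual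
  · ext L
    rw [h.charFunDual_eq L, h'.charFunDual_eq L]

/-- restriction / relabelling of a family -/
theorem GF.comp {ι κ : Type*} {c : ι → ι → ℝ} {Ω : Type*} [MeasurableSpace Ω] {μ : Measure Ω}
    {Z : ι → Ω → ℝ} (h : GF μ Z c) (f : κ → ι) :
    GF μ (fun k => Z (f k)) (fun k l => c (f k) (f l)) :=
  ⟨h.gauss.comp_right f, fun _ => h.meas _, fun _ => h.mean _, fun _ _ => h.cov _ _⟩

/-- linear images -/
theorem GF.linear {ι κ : Type*} [Fintype ι] {c : ι → ι → ℝ} {Ω : Type*} [MeasurableSpace Ω]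
    {μ : Measure Ω} [IsProbabilityMeasure μ] {Z : ι → Ω → ℝ} (h : GF μ Z c) (A : κ → ι → ℝ) :
    GF μ (fun k ω => ∑ i, A k i * Z i ω) (fun k l => ∑ i, ∑ j, A k i * A l j * c i j) := by
  refine ⟨?_, ?_, ?_, ?_⟩
  · refine h.gauss.of_isGaussianProcess fun k => ⟨Finset.univ, ∑ i : ι, A k i • 
      ContinuousLinearMap.proj (⟨i, Finset.mem_univ i⟩ : (Finset.univ : Finset ι)), fun ω => ?_⟩
    simp [Finset.restrict]
  · intro k
    exact Finset.measurable_fun_sum _ fun i _ => (h.meas i).const_mul _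
  · intro k
    rw [integral_finsetSum _ (fun i _ => (h.integrable_L1 i).const_mul _)]
    refine Finset.sum_eq_zero fun i _ => ?_
    rw [integral_const_mul, h.mean, mul_zero]
  · intro k l
    rw [covariance_fun_sum_fun_sum (fun i => (h.memLp_L1 i).const_mul _) (fun i => (h.memLp_L1 i).const_mul _)]
    refine Finset.sum_congr rfl fun i _ => Finset.sum_congr rfl fun j _ => ?_
    rw [covariance_const_mul_left, covariance_const_mul_right, h.cov]
    ring

theorem GF.indep {ι α β : Type*} [Finite α] [Finite β] {c : ι → ι → ℝ} {Ω : Type*}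
    [MeasurableSpace Ω] {μ : Measure Ω} {Z : ι → Ω → ℝ} (h : GF μ Z c) (f : α → ι) (g : β → ι)
    (h0 : ∀ a b, c (f a) (g b) = 0) :
    IndepFun (fun ω a => Z (f a) ω) (fun ω b => Z (g b) ω) μ := by
  refine IsGaussianProcess.indepFun_of_covariance_eq_zero (X := fun a => Z (f a))
    (Y := fun b => Z (g b)) ?_ (fun a => (h.meas _).aemeasurable) (fun a => (h.meas _).aemeasurable)
    (fun a b => by rw [h.cov, h0])
  have h1 := h.gauss.comp_right (Sum.elim f g)
  have h2 : (Sum.elim (fun a => Z (f a)) fun b => Z (g b)) = Z ∘ Sum.elim f g := by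
    funext s
    rcases s with s | s <;> rfl
  rw [h2]
  exact h1

theorem GF.iIndep {ι α : Type*} [Finite α] {β : α → Type*} [∀ a, Finite (β a)]
    {c : ι → ι → ℝ} {Ω : Type*} [MeasurableSpace Ω] {μ : Measure Ω} {Z : ι → Ω → ℝ}
    (h : GF μ Z c) (f : (a : α) → β a → ι)
    (h0 : ∀ a a', a ≠ a' → ∀ b b', c (f a b) (f a' b') = 0) :
    iIndepFun (fun a ω (b : β a) => Z (f a b) ω) μ := by
  refine IsGaussianProcess.iIndepFun_of_covariance_eq_zero (X := fun a b => Z (f a b))
    ?_ (fun a b => (h.meas _).aemeasurable) (fun a a' haa b b' => by rw [h.cov, h0 a a' haa])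
  exact h.gauss.comp_right (fun p : (a : α) × β a => f p.1 p.2)

/-- joint law of two independent families on a product space -/
theorem GF.prod {ι κ : Type*} {c : ι → ι → ℝ} {d : κ → κ → ℝ} {Ω Ω' : Type*}
    [MeasurableSpace Ω] [MeasurableSpace Ω'] {μ : Measure Ω} {μ' : Measure Ω'}
    [IsProbabilityMeasure μ] [IsProbabilityMeasure μ'] {Z : ι → Ω → ℝ} {Y : κ → Ω' → ℝ}
    (h : GF μ Z c) (h' : GF μ' Y d) :
    GF (μ.prod μ') (Sum.elim (fun i (p : Ω × Ω') => Z i p.1) (fun k (p : Ω × Ω') => Y k p.2))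
      (Sum.elim (fun i => Sum.elim (c i) (fun _ => 0)) (fun k => Sum.elim (fun _ => 0) (d k))) := by
  have m1 : MeasurePreserving (Prod.fst : Ω × Ω' → Ω) (μ.prod μ') μ := measurePreserving_fst
  have m2 : MeasurePreserving (Prod.snd : Ω × Ω' → Ω') (μ.prod μ') μ' := measurePreserving_snd
  have hf : IndepFun (Prod.fst : Ω × Ω' → Ω) (Prod.snd : Ω × Ω' → Ω') (μ.prod μ') := by
    have := indepFun_prod (μ := μ) (ν := μ') (X := id) (Y := id) measurable_id measurable_id
    simpa using this
  refine ⟨?_, ?_, ?_, ?_⟩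
  · constructor
    intro I
    have g1 : HasGaussianLaw (fun p : Ω × Ω' => I.toLeft.restrict (fun i => Z i p.1)) (μ.prod μ') := by
      constructor
      have := (h.gauss.hasGaussianLaw I.toLeft).isGaussian_map
      have e : Measure.map (fun p : Ω × Ω' => I.toLeft.restrict (fun i => Z i p.1)) (μ.prod μ')
          = Measure.map (fun ω => I.toLeft.restrict (fun i => Z i ω)) μ := by
        conv_rhs => rw [← m1.map_eq]
        rw [Measure.map_map _ measurable_fst]
        · rfl
        · exact measurable_pi_lambda _ fun i => h.meas _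
      rw [e]; exact this
    have g2 : HasGaussianLaw (fun p : Ω × Ω' => I.toRight.restrict (fun i => Y i p.2)) (μ.prod μ') := by
      constructor
      have := (h'.gauss.hasGaussianLaw I.toRight).isGaussian_map
      have e : Measure.map (fun p : Ω × Ω' => I.toRight.restrict (fun i => Y i p.2)) (μ.prod μ')
          = Measure.map (fun ω => I.toRight.restrict (fun i => Y i ω)) μ' := by
        conv_rhs => rw [← m2.map_eq]
        rw [Measure.map_map _ measurable_snd]
        · rfl
        · exact measurable_pi_lambda _ fun i => h'.meas _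
      rw [e]; exact this
    have hi : IndepFun (fun p : Ω × Ω' => I.toLeft.restrict (fun i => Z i p.1))
        (fun p : Ω × Ω' => I.toRight.restrict (fun i => Y i p.2)) (μ.prod μ') :=
      hf.comp (φ := fun ω => I.toLeft.restrict (fun i => Z i ω))
        (ψ := fun ω => I.toRight.restrict (fun i => Y i ω))
        (measurable_pi_lambda _ fun i => h.meas _) (measurable_pi_lambda _ fun i => h'.meas _)
    have g3 := hi.hasGaussianLaw g1 g2
    let L : ((I.toLeft → ℝ) × (I.toRight → ℝ)) →L[ℝ] (I → ℝ) :=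
      ContinuousLinearMap.pi fun s => match s with
        | ⟨Sum.inl i, hi⟩ => (ContinuousLinearMap.proj (⟨i, Finset.mem_toLeft.2 hi⟩ : I.toLeft)).comp
            (ContinuousLinearMap.fst ℝ _ _)
        | ⟨Sum.inr i, hi⟩ => (ContinuousLinearMap.proj (⟨i, Finset.mem_toRight.2 hi⟩ : I.toRight)).comp
            (ContinuousLinearMap.snd ℝ _ _)
    refine (g3.map L).congr (ae_of_all _ fun p => ?_)
    funext s
    rcases s with ⟨s | s, hs⟩
    · rfl
    · rfl
  · rintro (i | i)
    · exact (h.meas i).comp measurable_fst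
    · exact (h'.meas i).comp measurable_snd
  · rintro (i | i)
    · show ∫ p : Ω × Ω', Z i p.1 ∂(μ.prod μ') = 0
      rw [← h.mean i]
      conv_rhs => rw [← m1.map_eq]
      rw [integral_map measurable_fst.aemeasurable]
      rw [m1.map_eq]; exact (h.integrable_L1 i).aestronglyMeasurable
    · show ∫ p : Ω × Ω', Y i p.2 ∂(μ.prod μ') = 0
      rw [← h'.mean i]
      conv_rhs => rw [← m2.map_eq]
      rw [integral_map measurable_snd.aemeasurable]
      rw [m2.map_eq]; exact (h'.integrable_L1 i).aestronglyMeasurable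
  · rintro (i | i) (j | j)
    · show cov[(fun p : Ω × Ω' => Z i p.1), (fun p : Ω × Ω' => Z j p.1); μ.prod μ'] = c i j
      rw [← h.cov i j]
      have := covariance_map (μ := μ.prod μ') (X := Z i) (Y := Z j) (Z := (Prod.fst : Ω × Ω' → Ω))
        (by rw [m1.map_eq]; exact (h.integrable_L1 i).aestronglyMeasurable)
        (by rw [m1.map_eq]; exact (h.integrable_L1 j).aestronglyMeasurable) measurable_fst.aemeasurable
      rw [m1.map_eq] at this
      rw [this]; rfl
    · show cov[(fun p : Ω × Ω' => Z i p.1), (fun p : Ω × Ω' => Y j p.2); μ.prod μ'] = 0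
      refine (hf.comp (h.meas i) (h'.meas j)).covariance_eq_zero ?_ ?_
      · exact (h.memLp_L1 i).comp_measurePreserving m1
      · exact (h'.memLp_L1 j).comp_measurePreserving m2
    · show cov[(fun p : Ω × Ω' => Y i p.2), (fun p : Ω × Ω' => Z j p.1); μ.prod μ'] = 0
      rw [covariance_comm]
      refine (hf.comp (h.meas j) (h'.meas i)).covariance_eq_zero ?_ ?_
      · exact (h.memLp_L1 j).comp_measurePreserving m1
      · exact (h'.memLp_L1 i).comp_measurePreserving m2
    · show cov[(fun p : Ω × Ω' => Y i p.2), (fun p : Ω × Ω' => Y j p.2); μ.prod μ'] = d i j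
      rw [← h'.cov i j]
      have := covariance_map (μ := μ.prod μ') (X := Y i) (Y := Y j) (Z := (Prod.snd : Ω × Ω' → Ω'))
        (by rw [m2.map_eq]; exact (h'.integrable_L1 i).aestronglyMeasurable)
        (by rw [m2.map_eq]; exact (h'.integrable_L1 j).aestronglyMeasurable) measurable_snd.aemeasurable
      rw [m2.map_eq] at this
      rw [this]; rfl

end Pool.H92.GFL
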