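import Pool.Agent.helper92.GFL.G0
import Pool.Agent.helper92.GFL.L1
import Pool.Agent.helper92.GFL.L3
import Pool.Agent.helper92.GFL.L4a
import Pool.Agent.helper92.GFL.K4

namespace Pool.H92.GFL

open Function Finset MeasureTheory ProbabilityTheory Pool.H92.GFF
open scoped Classical ENNReal

theorem dgff_gf {N : ℕ} {Ω : Type*} [MeasurableSpace Ω] {μ : Measure Ω} {η : V → Ω → ℝ}
    (h : IsDGFF N μ η) (hm : ∀ v, Measurable (η v)) :
    GF μ (fun v : inn N => η v) (fun x y => G N x y / 4) where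
  gauss := h.gaussian.comp_right (fun v : inn N => (⟨v, inn_subset_box N v.2⟩ : box N))
  meas := fun i => hm i
  mean := fun i => h.centred i (inn_subset_box N i.2)
  cov := fun i j => h.covariance i (inn_subset_box N i.2) j (inn_subset_box N j.2)

lemma lap_finset_sum {ι : Type*} (s : Finset ι) (f : ι → V → ℝ) (v : V) :
    lap (fun v => ∑ i ∈ s, f i v) v = ∑ i ∈ s, lap (f i) v := by
  unfold lap
  simp only [Finset.sum_sub_distrib, Finset.sum_add_distrib, Finset.mul_sum]

lemma gr_form_nonneg (W : Finset V) (a : W → ℝ) :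
    0 ≤ ∑ i : W, ∑ j : W, a i * a j * gr W (j : V) (i : V) := by
  set F : V → ℝ := fun v => ∑ j : W, a j * gr W (j : V) v with hF
  have hF0 : ∀ v ∉ W, F v = 0 := by
    intro v hv
    rw [hF]
    exact Finset.sum_eq_zero (fun j _ => by rw [gr_out hv, mul_zero])
  have hlap : ∀ i : W, lap F i = a i := by
    intro i
    rw [hF, lap_finset_sum Finset.univ (fun (j : W) v => a j * gr W (j : V) v)]
    rw [Finset.sum_eq_single i]
    · rw [lap_smul, lap_gr i.2, if_pos rfl, mul_one]
    · intro j _ hj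
      rw [lap_smul, lap_gr i.2, if_neg (fun h => hj (Subtype.ext h.symm)), mul_zero]
    · intro hh; exact absurd (Finset.mem_univ i) hh
  have h1 : D F F = ∑ i : W, ∑ j : W, a i * a j * gr W (j : V) (i : V) := by
    rw [D_eq_sum hF0, ← Finset.sum_coe_sort W (fun v => lap F v * F v)]
    refine Finset.sum_congr rfl (fun i _ => ?_)
    rw [hlap i, hF, Finset.mul_sum]
    exact Finset.sum_congr rfl (fun j _ => by ring)
  rw [← h1]
  exact D_self_nonneg F

/-- extension by zero of a gaussian process -/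
lemma gauss_ext {ι κ : Type*} {Ω : Type*} [MeasurableSpace Ω] {μ : Measure Ω} {Z : ι → Ω → ℝ}
    (h : IsGaussianProcess Z μ) {Y : κ → Ω → ℝ} (hY : ∀ k, (∃ i, Y k = Z i) ∨ Y k = fun _ => 0) :
    IsGaussianProcess Y μ := by
  refine h.of_isGaussianProcess (fun k => ?_)
  rcases hY k with ⟨i, hi⟩ | hk
  · refine ⟨{i}, ContinuousLinearMap.proj (R := ℝ) (φ := fun _ : ({i} : Finset ι) => ℝ)
      ⟨i, Finset.mem_singleton_self i⟩, fun ω => ?_⟩
    rw [hi]
    rfl
  · refine ⟨∅, 0, fun ω => ?_⟩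
    rw [hk]
    rfl

theorem exists_dgff (N : ℕ) : ∃ (Ω : Type) (_ : MeasurableSpace Ω) (μ : Measure Ω)
    (_ : IsProbabilityMeasure μ) (η : V → Ω → ℝ), IsDGFF N μ η ∧ ∀ v, Measurable (η v) := by
  obtain ⟨Ω, mΩ, μ, hμ, Z, hZ⟩ := exists_GF (ι := inn N)
    (fun i j => gr (inn N) (j : V) (i : V)) (fun i j => gr_symm _ _ _) (gr_form_nonneg (inn N))
  set η : V → Ω → ℝ := fun v => if h : v ∈ inn N then Z ⟨v, h⟩ else fun _ => 0 with hη
  have h1 : ∀ v (h : v ∈ inn N), η v = Z ⟨v, h⟩ := fun v h => by rw [hη]; simp only [dif_pos h]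
  have h2 : ∀ v, v ∉ inn N → η v = fun _ => 0 := fun v h => by rw [hη]; simp only [dif_neg h]
  refine ⟨Ω, mΩ, μ, hμ, η, ⟨?_, ?_, ?_, ?_⟩, ?_⟩
  · refine gauss_ext hZ.gauss (fun k => ?_)
    by_cases hk : (k : V) ∈ inn N
    · left; exact ⟨⟨k, hk⟩, h1 k hk⟩
    · right; exact h2 k hk
  · intro v _
    by_cases hv : v ∈ inn N
    · rw [h1 v hv]; exact hZ.mean _
    · rw [h2 v hv]; simp
  · intro v hv
    have : v ∉ inn N := fun h => (Finset.mem_sdiff.1 h).2 hv
    rw [h2 v this]
    exact Filter.Eventually.of_forall (fun _ => rfl)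
  · intro u _ v _
    by_cases hu : u ∈ inn N
    · rw [G_eq_gr hu]
      by_cases hv : v ∈ inn N
      · rw [h1 u hu, h1 v hv]; exact hZ.cov _ _
      · rw [h2 v hv, gr_pole_out hv]
        exact covariance_const_right (X := η u) (0 : ℝ)
    · have hG : G N u v = 0 := by
        unfold G
        simp only [walk_out hu, tsum_zero]
      rw [hG, h2 u hu, zero_div]
      exact covariance_const_left (0 : ℝ)
  · intro v
    by_cases hv : v ∈ inn N
    · rw [h1 v hv]; exact hZ.meas _
    · rw [h2 v hv]; exact measurable_const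

/-- existence of independent layers -/
theorem exists_lay (J : ℕ) (W : Finset V) : ∃ (Ω : Type) (_ : MeasurableSpace Ω)
    (μ : Measure Ω) (_ : IsProbabilityMeasure μ) (X : ℕ → V → Ω → ℝ),
    IsLay J W μ X ∧ ∀ j v, Measurable (X j v) := by
  obtain ⟨Ω, mΩ, μ, hμ, Z, hZ⟩ := exists_GF (ι := Fin J × W)
    (fun p q => if p.1 = q.1 then kap p.1 ((p.2 : V) - (q.2 : V)) else 0)
    (fun p q => by
      by_cases h : p.1 = q.1
      · rw [if_pos h, if_pos h.symm, h, ← neg_sub (q.2 : V) (p.2 : V)]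
        exact kz_neg _ _
      · rw [if_neg h, if_neg (fun h' => h h'.symm)])
    (fun a => by
      have e : ∑ p : Fin J × W, ∑ q : Fin J × W, a p * a q *
          (if p.1 = q.1 then kap p.1 ((p.2 : V) - (q.2 : V)) else 0) =
          ∑ j : Fin J, ∑ x : W, ∑ y : W, a (j, x) * a (j, y) * kap j ((x : V) - (y : V)) := by
        rw [Fintype.sum_prod_type]
        refine Finset.sum_congr rfl (fun j _ => Finset.sum_congr rfl (fun x _ => ?_))
        rw [Fintype.sum_prod_type, Finset.sum_eq_single j]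
        · simp
        · intro i _ hi
          refine Finset.sum_eq_zero (fun y _ => ?_)
          rw [if_neg (fun h => hi h.symm), mul_zero]
        · intro hh; exact absurd (Finset.mem_univ j) hh
      rw [e]
      refine Finset.sum_nonneg (fun j _ => ?_)
      have := kap_psd j W (fun v => if h : v ∈ W then a (j, ⟨v, h⟩) else 0)
      rw [← Finset.sum_coe_sort W] at this
      refine this.trans_eq (Finset.sum_congr rfl (fun x _ => ?_))
      rw [← Finset.sum_coe_sort W]
      refine Finset.sum_congr rfl (fun y _ => ?_)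
      rw [dif_pos x.2, dif_pos y.2])
  set X : ℕ → V → Ω → ℝ := fun j v => if h : j < J ∧ v ∈ W then Z (⟨j, h.1⟩, ⟨v, h.2⟩)
    else fun _ => 0 with hX
  refine ⟨Ω, mΩ, μ, hμ, X, ?_, ?_⟩
  · have e : (fun p : Fin J × W => X p.1 p.2) = Z := by
      funext p
      rw [hX]
      simp only [p.1.2, p.2.2, and_self, dite_true]
    unfold IsLay
    rw [e]; exact hZ
  · intro j v
    rw [hX]
    simp only
    split_ifs with h
    · exact hZ.meas _
    · exact measurable_const

lemma sum_sel {J : ℕ} {W : Finset V} {n : ℕ} (hn : n ≤ J) {k : V} (hk : k ∈ W)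
    (f : ℕ → V → ℝ) :
    ∑ p : Fin J × W, (if (p.1 : ℕ) < n ∧ (p.2 : V) = k then (1 : ℝ) else 0) * f p.1 p.2 =
      ∑ j ∈ Finset.range n, f j k := by
  rw [Fintype.sum_prod_type]
  have e : ∀ j : Fin J, ∑ w : W, (if ((j : ℕ) < n ∧ (w : V) = k) then (1 : ℝ) else 0) * f j w =
      if (j : ℕ) < n then f j k else 0 := by
    intro j
    rw [Finset.sum_eq_single (⟨k, hk⟩ : W)]
    · by_cases hj : (j : ℕ) < n
      · simp [hj]
      · simp [hj]
    · intro w _ hw
      rw [if_neg (fun h => hw (Subtype.ext h.2)), zero_mul]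
    · intro hh; exact absurd (Finset.mem_univ _) hh
  simp only [e]
  rw [Fin.sum_univ_eq_sum_range (fun j => if j < n then f j k else 0) J, ← Finset.sum_filter]
  refine Finset.sum_congr ?_ (fun _ _ => rfl)
  ext j
  simp only [Finset.mem_filter, Finset.mem_range]
  omega

/-- a sum of layers is a field -/
theorem lay_sum {J : ℕ} {W : Finset V} {Ω : Type*} [MeasurableSpace Ω] {μ : Measure Ω}
    [IsProbabilityMeasure μ] {X : ℕ → V → Ω → ℝ} (h : IsLay J W μ X) {n : ℕ} (hn : n ≤ J)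
    {W' : Finset V} (hW : W' ⊆ W) :
    IsFld n W' μ (fun v ω => ∑ j ∈ Finset.range n, X j v ω) := by
  have h1 := GF.linear h (fun (k : W') (p : Fin J × W) =>
    if (p.1 : ℕ) < n ∧ (p.2 : V) = k then (1 : ℝ) else 0)
  have e1 : (fun (k : W') ω => ∑ p : Fin J × W,
      (if (p.1 : ℕ) < n ∧ (p.2 : V) = k then (1 : ℝ) else 0) * X p.1 p.2 ω) =
      fun (v : W') ω => ∑ j ∈ Finset.range n, X j v ω := by
    funext k ω
    exact sum_sel hn (hW k.2) (fun j v => X j v ω)
  have e2 : (fun (k l : W') => ∑ p : Fin J × W, ∑ q : Fin J × W,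
      (if (p.1 : ℕ) < n ∧ (p.2 : V) = k then (1 : ℝ) else 0) *
      (if (q.1 : ℕ) < n ∧ (q.2 : V) = l then (1 : ℝ) else 0) *
      (if p.1 = q.1 then kap p.1 ((p.2 : V) - (q.2 : V)) else 0)) =
      fun (x y : W') => ∑ j ∈ Finset.range n, kap j ((x : V) - (y : V)) := by
    funext k l
    have a1 : ∀ p : Fin J × W, ∑ q : Fin J × W,
        (if (p.1 : ℕ) < n ∧ (p.2 : V) = k then (1 : ℝ) else 0) *
        (if (q.1 : ℕ) < n ∧ (q.2 : V) = l then (1 : ℝ) else 0) *
        (if p.1 = q.1 then kap p.1 ((p.2 : V) - (q.2 : V)) else 0) =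
        (if (p.1 : ℕ) < n ∧ (p.2 : V) = k then (1 : ℝ) else 0) *
          ∑ j ∈ Finset.range n, if (p.1 : ℕ) = j then kap p.1 ((p.2 : V) - (l : V)) else 0 := by
      intro p
      rw [← sum_sel hn (hW l.2)
        (fun j w => if (p.1 : ℕ) = j then kap p.1 ((p.2 : V) - w) else 0), Finset.mul_sum]
      refine Finset.sum_congr rfl (fun q _ => ?_)
      rw [mul_assoc]
      congr 2
      by_cases hpq : p.1 = q.1
      · rw [if_pos hpq, if_pos (congrArg Fin.val hpq)]
      · rw [if_neg hpq, if_neg (fun hh => hpq (Fin.ext hh))]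
    simp only [a1]
    rw [sum_sel hn (hW k.2) (fun i v => ∑ j ∈ Finset.range n,
      if i = j then kap i (v - (l : V)) else 0)]
    refine Finset.sum_congr rfl (fun i hi => ?_)
    rw [Finset.sum_ite_eq, if_pos hi]
  unfold IsFld
  rw [e1, e2] at h1
  exact h1

/-- a GF has a concrete copy on a type in `Type` -/
lemma exists_fld (n : ℕ) (W : Finset V) : ∃ (Ω : Type) (_ : MeasurableSpace Ω)
    (μ : Measure Ω) (_ : IsProbabilityMeasure μ) (φ : V → Ω → ℝ), IsFld n W μ φ := by
  obtain ⟨Ω, mΩ, μ, hμ, X, hX, _⟩ := exists_lay n W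
  exact ⟨Ω, mΩ, μ, hμ, _, lay_sum hX le_rfl (subset_refl W)⟩

/-- `PF` at an arbitrary centre, for the sum of the first `n ≥ m - c0` ... layers -/
theorem PF.use {m C : ℕ} {y q : ℝ} (h : PF m y C q) {Ω : Type*} [MeasurableSpace Ω]
    {μ : Measure Ω} [IsProbabilityMeasure μ] {φ : V → Ω → ℝ} {z : V}
    (hφ : IsFld (m - c0) (ball z (3 * 2 ^ m)) μ φ) :
    μ {ω | ¬ Nice (fun v => φ v ω) y z m C} ≤ ENNReal.ofReal q := by
  obtain ⟨Ω', mΩ', μ', hμ', φ', hφ'⟩ := exists_fld (m - c0) (ball 0 (3 * 2 ^ m))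
  set W := ball (0 : V) (3 * 2 ^ m) with hW
  -- the shifted family
  have hsh : GF μ (fun v : W => φ ((v : V) + z))
      (fun x y => ∑ j ∈ Finset.range (m - c0), kap j ((x : V) - (y : V))) := by
    have := GF.comp hφ (fun v : W => (⟨(v : V) + z, by
      have h1 := (mem_ball_add (z := 0) (a := z)).2 v.2
      rwa [zero_add] at h1⟩ : ball z (3 * 2 ^ m)))
    simpa only [add_sub_add_right_eq_sub] using this
  have hlaw := GF.law_eq hsh hφ'
  set ext : (W → ℝ) → V → ℝ := fun x v => if hv : v ∈ W then x ⟨v, hv⟩ else 0 with hext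
  have hextm : Measurable ext := by
    refine measurable_pi_iff.2 (fun v => ?_)
    rw [hext]
    by_cases hv : v ∈ W
    · simp only [dif_pos hv]; exact measurable_pi_apply _
    · simp only [dif_neg hv]; exact measurable_const
  have hS : MeasurableSet {x : W → ℝ | ¬ Nice (ext x) y 0 m C} :=
    (hextm (meas_Nice y 0 m C)).compl
  have key : ∀ ψ : V → ℝ, Nice ψ y 0 m C ↔ Nice (ext (fun v : W => ψ v)) y 0 m C := by
    intro ψ
    have hag : ∀ v, v ∈ Ann 0 m → ψ v = ext (fun v : W => ψ v) v := by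
      intro v hv
      have hvW : v ∈ W := hv.1
      rw [hext]
      simp only [dif_pos hvW]
    exact ⟨Nice.congr hag, Nice.congr (fun v hv => (hag v hv).symm)⟩
  have m1 : Measurable (fun ω (v : W) => φ ((v : V) + z) ω) := measurable_pi_iff.2 hsh.meas
  have m2 : Measurable (fun ω (v : W) => φ' v ω) := measurable_pi_iff.2 hφ'.meas
  have e1 : μ {ω | ¬ Nice (fun v => φ v ω) y z m C} =
      (μ.map (fun ω (v : W) => φ ((v : V) + z) ω)) {x : W → ℝ | ¬ Nice (ext x) y 0 m C} := by
    rw [Measure.map_apply m1 hS]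
    congr 1
    ext ω
    simp only [Set.mem_ofPred_eq, Set.mem_preimage]
    rw [← key (fun v => φ (v + z) ω)]
    have := Nice.translate (ψ := fun v => φ v ω) (y := y) (z := 0) (a := z) (k := m) (C := C)
    rw [zero_add] at this
    rw [this]
  have e2 : μ' {ω | ¬ Nice (fun v => φ' v ω) y 0 m C} =
      (μ'.map (fun ω (v : W) => φ' v ω)) {x : W → ℝ | ¬ Nice (ext x) y 0 m C} := by
    rw [Measure.map_apply m2 hS]
    congr 1
    ext ω
    simp only [Set.mem_ofPred_eq, Set.mem_preimage]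
    rw [← key (fun v => φ' v ω)]
  rw [e1, hlaw, ← e2]
  exact h Ω' μ' φ' hφ'

end Pool.H92.GFL
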