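import Pool.Agent.helper92.GFL.Defs3
import Pool.Agent.helper92.GFL.K5b
import Pool.Agent.helper92.GFL.L4

namespace Pool.H92.GFL

open Function Finset MeasureTheory ProbabilityTheory Pool.H92.GFF
open scoped Classical ENNReal

/-- layers plus remainder form a Gaussian family -/
lemma bl_sum {J : ℕ} {W : Finset V} {Ω : Type*} [MeasurableSpace Ω] {μ : Measure Ω}
    [IsProbabilityMeasure μ] {X : ℕ → V → Ω → ℝ} {Y : V → Ω → ℝ} {Rc : V → V → ℝ}
    (h : IsLR J W μ X Y Rc) :
    GF μ (fun (v : W) ω => ∑ j ∈ Finset.range J, X j v ω + Y v ω)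
      (fun x y => ∑ j ∈ Finset.range J, kap j ((x : V) - (y : V)) + Rc x y) := by
  have h1 := GF.linear h (fun (k : W) => Sum.elim
    (fun p : Fin J × W => if (p.1 : ℕ) < J ∧ (p.2 : V) = k then (1 : ℝ) else 0)
    (fun v : W => if v = k then (1 : ℝ) else 0))
  have e1 : (fun (k : W) ω => ∑ i, (Sum.elim
      (fun p : Fin J × W => if (p.1 : ℕ) < J ∧ (p.2 : V) = k then (1 : ℝ) else 0)
      (fun v : W => if v = k then (1 : ℝ) else 0)) i *
        (Sum.elim (fun p : Fin J × W => X p.1 p.2) (fun v : W => Y v)) i ω) =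
      fun (v : W) ω => ∑ j ∈ Finset.range J, X j v ω + Y v ω := by
    funext k ω
    rw [Fintype.sum_sum_type]
    simp only [Sum.elim_inl, Sum.elim_inr]
    congr 1
    · exact sum_sel le_rfl k.2 (fun j v => X j v ω)
    · rw [Finset.sum_eq_single k]
      · simp
      · intro b _ hb
        rw [if_neg hb, zero_mul]
      · intro hh; exact absurd (Finset.mem_univ k) hh
  have e2 : (fun (k l : W) => ∑ i, ∑ i', (Sum.elim
      (fun p : Fin J × W => if (p.1 : ℕ) < J ∧ (p.2 : V) = k then (1 : ℝ) else 0)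
      (fun v : W => if v = k then (1 : ℝ) else 0)) i * (Sum.elim
      (fun p : Fin J × W => if (p.1 : ℕ) < J ∧ (p.2 : V) = l then (1 : ℝ) else 0)
      (fun v : W => if v = l then (1 : ℝ) else 0)) i' *
      (Sum.elim
      (fun p => Sum.elim (fun q => if p.1 = q.1 then kap p.1 ((p.2 : V) - (q.2 : V)) else 0)
        (fun _ => 0))
      (fun v => Sum.elim (fun _ => 0) (fun v' => Rc v v')) : (Fin J × W) ⊕ W →
        (Fin J × W) ⊕ W → ℝ) i i') =
      fun (x y : W) => ∑ j ∈ Finset.range J, kap j ((x : V) - (y : V)) + Rc x y := by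
    funext k l
    rw [Fintype.sum_sum_type]
    simp only [Fintype.sum_sum_type, Sum.elim_inl, Sum.elim_inr, mul_zero, Finset.sum_const_zero,
      add_zero, zero_add]
    congr 1
    · have a1 : ∀ p : Fin J × W, ∑ q : Fin J × W,
          (if (p.1 : ℕ) < J ∧ (p.2 : V) = k then (1 : ℝ) else 0) *
          (if (q.1 : ℕ) < J ∧ (q.2 : V) = l then (1 : ℝ) else 0) *
          (if p.1 = q.1 then kap p.1 ((p.2 : V) - (q.2 : V)) else 0) =
          (if (p.1 : ℕ) < J ∧ (p.2 : V) = k then (1 : ℝ) else 0) *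
            ∑ j ∈ Finset.range J, if (p.1 : ℕ) = j then kap p.1 ((p.2 : V) - (l : V)) else 0 := by
        intro p
        rw [← sum_sel le_rfl l.2
          (fun j w => if (p.1 : ℕ) = j then kap p.1 ((p.2 : V) - w) else 0), Finset.mul_sum]
        refine Finset.sum_congr rfl (fun q _ => ?_)
        rw [mul_assoc]
        congr 2
        by_cases hpq : p.1 = q.1
        · rw [if_pos hpq, if_pos (congrArg Fin.val hpq)]
        · rw [if_neg hpq, if_neg (fun hh => hpq (Fin.ext hh))]
      simp only [a1]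
      rw [sum_sel le_rfl k.2 (fun i v => ∑ j ∈ Finset.range J,
        if i = j then kap i (v - (l : V)) else 0)]
      refine Finset.sum_congr rfl (fun i hi => ?_)
      rw [Finset.sum_ite_eq, if_pos hi]
    · rw [Finset.sum_eq_single k]
      · rw [Finset.sum_eq_single l]
        · simp
        · intro b _ hb
          rw [if_neg hb, mul_zero, zero_mul]
        · intro hh; exact absurd (Finset.mem_univ l) hh
      · intro b _ hb
        refine Finset.sum_eq_zero (fun b' _ => ?_)
        rw [if_neg hb, zero_mul, zero_mul]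
      · intro hh; exact absurd (Finset.mem_univ k) hh
  rw [e1, e2] at h1
  exact h1

/-- coupling of the DGFF with layers and a smooth remainder -/
theorem dgff_layers : ∃ C : ℝ, 0 < C ∧ ∀ (N J L : ℕ) (z : V) (w : ℕ), N ≤ 2 ^ L →
    (∀ x ∈ ball z w, ball x (4 * 2 ^ J) ⊆ inn N) →
    ∃ (Ω' : Type) (_ : MeasurableSpace Ω') (μ' : Measure Ω') (_ : IsProbabilityMeasure μ')
      (X : ℕ → V → Ω' → ℝ) (Y : V → Ω' → ℝ) (Rc : V → V → ℝ),
      IsLR J (ball z w) μ' X Y Rc ∧ (∀ j v, Measurable (X j v)) ∧ (∀ v, Measurable (Y v)) ∧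
      (∀ x, Rc x x ≤ C * 4 ^ L / 4 ^ J) ∧
      (∀ x ∈ ball z w, ∀ v ∈ nb x, Rc x x - 2 * Rc x v + Rc v v ≤ 128 / 4 ^ J) ∧
      ∀ {Ω : Type} [MeasurableSpace Ω] (μ : Measure Ω) (η : V → Ω → ℝ), IsDGFF N μ η →
        (∀ v, Measurable (η v)) →
        μ.map (fun ω (v : ball z w) => η v ω) =
          μ'.map (fun ω (v : ball z w) => ∑ j ∈ Finset.range J, X j v ω + Y v ω) := by
  obtain ⟨C, hC, hsplit⟩ := dgff_split
  refine ⟨C, hC, fun N J L z w hN hb => ?_⟩
  obtain ⟨Rc, hs, hp, heq, hd, hg⟩ := hsplit N J L hN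
  set W : Finset V := ball z w with hW
  obtain ⟨Ω1, mΩ1, μ1, hμ1, X1, hX1, hm1⟩ := exists_lay J W
  obtain ⟨Ω2, mΩ2, μ2, hμ2, Z, hZ⟩ := exists_GF (ι := W) (fun x y => Rc x y)
    (fun x y => hs x y) (fun a => by
      have := hp W (fun v => if h : v ∈ W then a ⟨v, h⟩ else 0)
      rw [← Finset.sum_coe_sort W] at this
      refine this.trans_eq (Finset.sum_congr rfl (fun x _ => ?_))
      rw [← Finset.sum_coe_sort W]
      refine Finset.sum_congr rfl (fun y _ => ?_)
      rw [dif_pos x.2, dif_pos y.2])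
  set Y : V → Ω1 × Ω2 → ℝ := fun v => if h : v ∈ W then fun p => Z ⟨v, h⟩ p.2 else fun _ => 0
    with hY
  have hY1 : ∀ v : W, Y v = fun p => Z v p.2 := by
    intro v
    rw [hY]
    simp only [v.2, dite_true]
  have hprod := GF.prod hX1 hZ
  have hLR : IsLR J W (μ1.prod μ2) (fun j v p => X1 j v p.1) Y Rc := by
    unfold IsLR
    have e : (fun v : W => Y v) = fun (v : W) p => Z v p.2 := by
      funext v
      rw [hY1 v]
    rw [e]
    exact hprod
  refine ⟨Ω1 × Ω2, inferInstance, μ1.prod μ2, inferInstance, fun j v p => X1 j v p.1, Y, Rc,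
    hLR, fun j v => (hm1 j v).comp measurable_fst, ?_, hd, ?_, ?_⟩
  · intro v
    rw [hY]
    simp only
    split_ifs with h
    · exact (hZ.meas _).comp measurable_snd
    · exact measurable_const
  · intro x hx v hv
    refine hg x (fun y hy => hb x hx ?_) v hv
    rw [mem_ball] at hy ⊢
    push_cast at hy ⊢
    have : (0 : ℤ) < 2 ^ J := by positivity
    omega
  · intro Ω _ μ η hη hmη
    have hWI : ∀ v ∈ W, v ∈ inn N := fun v hv => hb v hv (by
      rw [mem_ball]; push_cast; have : (0 : ℤ) < 2 ^ J := by positivity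
      omega)
    have h1 := (dgff_gf hη hmη).comp (fun v : W => (⟨v, hWI v v.2⟩ : inn N))
    have h2 := bl_sum hLR
    have e : (fun (k l : W) => G N ((⟨(k : V), hWI k k.2⟩ : inn N) : V)
        ((⟨(l : V), hWI l l.2⟩ : inn N) : V) / 4) =
        fun (x y : W) => ∑ j ∈ Finset.range J, kap j ((x : V) - (y : V)) + Rc x y := by
      funext k l
      exact heq k (hWI k k.2) l (hWI l l.2) (hb k k.2)
    rw [e] at h1
    exact h1.law_eq h2

end Pool.H92.GFL
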