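import Pool.Agent.helper92.GFL.Defs3
import Pool.Agent.helper92.GFL.L1
import Pool.Agent.helper92.GFL.L3
import Pool.Agent.helper92.GFL.L4
import Pool.Agent.helper92.GFL.K4

namespace Pool.H92.GFL

open Function Finset MeasureTheory ProbabilityTheory Pool.H92.GFF
open scoped Classical ENNReal

/-- the negative of a field is a field -/
lemma d1a_neg {n : ℕ} {W : Finset V} {Ω : Type*} [MeasurableSpace Ω] {μ : Measure Ω}
    [IsProbabilityMeasure μ] {φ : V → Ω → ℝ} (h : IsFld n W μ φ) :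
    IsFld n W μ (fun v ω => -φ v ω) := by
  have h1 := GF.linear h (fun (k i : W) => if i = k then (-1 : ℝ) else 0)
  have e1 : (fun (k : W) ω => ∑ i : W, (if i = k then (-1 : ℝ) else 0) * φ i ω) =
      fun (v : W) ω => -φ v ω := by
    funext k ω
    simp only [ite_mul, neg_mul, one_mul, zero_mul, Finset.sum_ite_eq', Finset.mem_univ, if_true]
  have e2 : (fun (k l : W) => ∑ i : W, ∑ j : W, (if i = k then (-1 : ℝ) else 0) *
      (if j = l then (-1 : ℝ) else 0) *
        ∑ a ∈ Finset.range n, kap a ((i : V) - (j : V))) =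
      fun (x y : W) => ∑ j ∈ Finset.range n, kap j ((x : V) - (y : V)) := by
    funext k l
    rw [Finset.sum_eq_single k, Finset.sum_eq_single l]
    · simp
    · intro b _ hb; simp [hb]
    · intro hb; exact absurd (Finset.mem_univ _) hb
    · intro b _ hb; simp [hb]
    · intro hb; exact absurd (Finset.mem_univ _) hb
  unfold IsFld
  rw [e1, e2] at h1
  exact h1

/-- vertices of annuli at separated scales are far -/
lemma d1a_far {ki kl : ℕ} (h8 : ki + 8 ≤ kl) {a b v w : V} (hab : a ∈ ball b (2 ^ kl / 2))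
    (hv : v ∈ ball a (3 * 2 ^ ki)) (hw : w ∉ ball b (2 ^ kl)) {j : ℕ} (hj : j + 1 ≤ ki - c0) :
    4 * (2 : ℤ) ^ j ≤ |(v - w).1| + |(v - w).2| := by
  have e1 : (2 : ℤ) ^ kl ≥ 256 * 2 ^ ki := by
    have : (2 : ℤ) ^ (ki + 8) ≤ 2 ^ kl := pow_le_pow_right₀ (by norm_num) h8
    rw [pow_add] at this
    linarith
  have e2 : (2 : ℤ) ^ j ≤ 2 ^ ki := pow_le_pow_right₀ (by norm_num) (by omega)
  have e3 : (0 : ℤ) < 2 ^ ki := by positivity
  rw [mem_ball] at hab hv hw
  push_cast at hab hv hw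
  have h1 := abs_nonneg (v - w).1
  have h2 := abs_nonneg (v - w).2
  have h3 := neg_abs_le (v - w).1
  have h4 := le_abs_self (v - w).1
  have h5 := neg_abs_le (v - w).2
  have h6 := le_abs_self (v - w).2
  simp only [Prod.fst_sub, Prod.snd_sub] at *
  by_contra hcon
  push Not at hcon
  apply hw
  omega

/-- sum over pairs of layers -/
lemma d1a_cov {J : ℕ} {W : Finset V} {n m : ℕ} (hn : n ≤ J) (hm : m ≤ J) {k l : V} (hk : k ∈ W)
    (hl : l ∈ W) : ∑ p : Fin J × W, ∑ q : Fin J × W,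
      (if (p.1 : ℕ) < n ∧ (p.2 : V) = k then (1 : ℝ) else 0) *
      (if (q.1 : ℕ) < m ∧ (q.2 : V) = l then (1 : ℝ) else 0) *
      (if p.1 = q.1 then kap p.1 ((p.2 : V) - (q.2 : V)) else 0) =
      ∑ i ∈ Finset.range n, if i < m then kap i (k - l) else 0 := by
  have a1 : ∀ p : Fin J × W, ∑ q : Fin J × W,
      (if (p.1 : ℕ) < n ∧ (p.2 : V) = k then (1 : ℝ) else 0) *
      (if (q.1 : ℕ) < m ∧ (q.2 : V) = l then (1 : ℝ) else 0) *
      (if p.1 = q.1 then kap p.1 ((p.2 : V) - (q.2 : V)) else 0) =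
      (if (p.1 : ℕ) < n ∧ (p.2 : V) = k then (1 : ℝ) else 0) *
        ∑ j ∈ Finset.range m, if (p.1 : ℕ) = j then kap p.1 ((p.2 : V) - (l : V)) else 0 := by
    intro p
    rw [← sum_sel hm hl
      (fun j w => if (p.1 : ℕ) = j then kap p.1 ((p.2 : V) - w) else 0), Finset.mul_sum]
    refine Finset.sum_congr rfl (fun q _ => ?_)
    rw [mul_assoc]
    congr 2
    by_cases hpq : p.1 = q.1
    · rw [if_pos hpq, if_pos (congrArg Fin.val hpq)]
    · rw [if_neg hpq, if_neg (fun hh => hpq (Fin.ext hh))]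
  simp only [a1]
  rw [sum_sel hn hk (fun i v => ∑ j ∈ Finset.range m,
    if i = j then kap i (v - (l : V)) else 0)]
  refine Finset.sum_congr rfl (fun i hi => ?_)
  rw [Finset.sum_ite_eq]
  simp only [Finset.mem_range]

/-- circuits at well separated scales -/
theorem fine_fail {J : ℕ} {W : Finset V} {Ω : Type} [MeasurableSpace Ω] {μ : Measure Ω}
    [IsProbabilityMeasure μ] {X : ℕ → V → Ω → ℝ} {Y : V → Ω → ℝ} {Rc : V → V → ℝ}
    (h : IsLR J W μ X Y Rc) {n : ℕ} (k : ℕ → ℕ) (z : ℕ → V)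
    (hk : ∀ i j, i < j → j < n → k i + 8 ≤ k j) (hc : ∀ i < n, c0 ≤ k i ∧ k i ≤ J + c0)
    (hz : ∀ i j, i ≤ j → j < n → z i ∈ ball (z j) (2 ^ k j / 2))
    (hW : ∀ i < n, ball (z i) (3 * 2 ^ k i) ⊆ W) {K q : ℝ} {C1 : ℕ} (hq : 0 ≤ q)
    (hPF : ∀ i < n, PF (k i) K C1 q) (T : Finset ℕ) (hT : ∀ i ∈ T, i < n) :
    μ {ω | ∀ i ∈ T, ¬ Nice (fun v => ∑ j ∈ Finset.range (k i - c0), X j v ω) K (z i) (k i) C1 ∨
        ¬ Nice (fun v => -∑ j ∈ Finset.range (k i - c0), X j v ω) K (z i) (k i) C1} ≤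
      ENNReal.ofReal ((2 * q) ^ T.card) := by
  have hL : IsLay J W μ X := GF.comp h Sum.inl
  -- annuli
  set A : ℕ → Finset V := fun i => ball (z i) (3 * 2 ^ k i) \ ball (z i) (2 ^ k i) with hA
  have hAW : ∀ i < n, A i ⊆ W := fun i hi => (Finset.sdiff_subset).trans (hW i hi)
  -- the family
  have hG := GF.linear hL (fun (s : (i : T) × A i) (p : Fin J × W) =>
    if (p.1 : ℕ) < k s.1 - c0 ∧ (p.2 : V) = s.2 then (1 : ℝ) else 0)
  have hind := GF.iIndep hG (α := T) (β := fun i => A i) (fun i b => ⟨i, b⟩) (by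
    intro i l hil b b'
    have hi := hc i (hT i i.2)
    have hl := hc l (hT l l.2)
    refine (d1a_cov (n := k i - c0) (m := k l - c0) (by omega) (by omega)
      (hAW i (hT i i.2) b.2) (hAW l (hT l l.2) b'.2)).trans ?_
    refine Finset.sum_eq_zero (fun j hj => ?_)
    rw [Finset.mem_range] at hj
    split_ifs with hjl
    · apply kap_far
      have hb := b.2
      have hb' := b'.2
      simp only [hA, Finset.mem_sdiff] at hb hb'
      rcases Nat.lt_or_gt_of_ne (fun hh => hil (Subtype.ext hh) : (i : ℕ) ≠ l) with hlt | hlt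
      · exact d1a_far (hk i l hlt (hT l l.2)) (hz i l hlt.le (hT l l.2)) hb.1 hb'.2
          (j := j) (by omega)
      · have := d1a_far (hk l i hlt (hT i i.2)) (hz l i hlt.le (hT i i.2)) hb'.1 hb.2
          (j := j) (by omega)
        rw [← neg_sub (b' : V) (b : V)]
        simpa only [Prod.fst_neg, Prod.snd_neg, abs_neg] using this
    · rfl)
  -- events
  set ext : (i : T) → (A i → ℝ) → V → ℝ :=
    fun i x v => if hv : v ∈ A i then x ⟨v, hv⟩ else 0 with hext
  have hextm : ∀ i, Measurable (ext i) := by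
    intro i
    refine measurable_pi_iff.2 (fun v => ?_)
    rw [hext]
    by_cases hv : v ∈ A i
    · simp only [dif_pos hv]; exact measurable_pi_apply _
    · simp only [dif_neg hv]; exact measurable_const
  set S : (i : T) → Set (A i → ℝ) := fun i => {x | ¬ Nice (ext i x) K (z i) (k i) C1 ∨
    ¬ Nice (fun v => -ext i x v) K (z i) (k i) C1} with hS
  have hSm : ∀ i, MeasurableSet (S i) := by
    intro i
    have m1 : MeasurableSet {x | ¬ Nice (ext i x) K (z i) (k i) C1} :=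
      (hextm i (meas_Nice K (z i) (k i) C1)).compl
    have hm2 : Measurable (fun (x : A i → ℝ) (v : V) => -ext i x v) :=
      measurable_pi_iff.2 fun v => ((measurable_pi_apply v).comp (hextm i)).neg
    have m2 : MeasurableSet {x | ¬ Nice (fun v => -ext i x v) K (z i) (k i) C1} :=
      (hm2 (meas_Nice K (z i) (k i) C1)).compl
    exact m1.union m2
  have hfam : ∀ (i : T) (ω : Ω) (b : A i), ∑ p : Fin J × W,
      (if (p.1 : ℕ) < k i - c0 ∧ (p.2 : V) = b then (1 : ℝ) else 0) * X p.1 p.2 ω =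
      ∑ j ∈ Finset.range (k i - c0), X j b ω := by
    intro i ω b
    exact sum_sel (by have := hc i (hT i i.2); omega) (hAW i (hT i i.2) b.2) (fun j v => X j v ω)
  have hev : ∀ (i : T) (ω : Ω), (fun b : A i => ∑ p : Fin J × W,
      (if (p.1 : ℕ) < k i - c0 ∧ (p.2 : V) = b then (1 : ℝ) else 0) * X p.1 p.2 ω) ∈ S i ↔
      (¬ Nice (fun v => ∑ j ∈ Finset.range (k i - c0), X j v ω) K (z i) (k i) C1 ∨
        ¬ Nice (fun v => -∑ j ∈ Finset.range (k i - c0), X j v ω) K (z i) (k i) C1) := by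
    intro i ω
    simp only [hfam]
    have hag : ∀ v, v ∈ Ann (z i) (k i) → ext i (fun b : A i => ∑ j ∈ Finset.range (k i - c0),
        X j b ω) v = ∑ j ∈ Finset.range (k i - c0), X j v ω := by
      intro v hv
      have hvA : v ∈ A i := by
        simp only [hA, Finset.mem_sdiff]
        exact hv
      simp only [hext, dif_pos hvA]
    have c1 : Nice (ext i (fun b : A i => ∑ j ∈ Finset.range (k i - c0), X j b ω)) K (z i) (k i)
        C1 ↔ Nice (fun v => ∑ j ∈ Finset.range (k i - c0), X j v ω) K (z i) (k i) C1 :=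
      ⟨Nice.congr hag, Nice.congr fun v hv => (hag v hv).symm⟩
    have c2 : Nice (fun v => -ext i (fun b : A i => ∑ j ∈ Finset.range (k i - c0), X j b ω) v) K
        (z i) (k i) C1 ↔
        Nice (fun v => -∑ j ∈ Finset.range (k i - c0), X j v ω) K (z i) (k i) C1 :=
      ⟨Nice.congr fun v hv => by rw [hag v hv], Nice.congr fun v hv => by rw [hag v hv]⟩
    simp only [hS, Set.mem_ofPred_eq, c1, c2]
  have hprod := hind.measure_inter_preimage_eq_mul (S := Finset.univ) (sets := S)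
    (fun i _ => hSm i)
  have hset : {ω | ∀ i ∈ T, ¬ Nice (fun v => ∑ j ∈ Finset.range (k i - c0), X j v ω) K (z i)
      (k i) C1 ∨ ¬ Nice (fun v => -∑ j ∈ Finset.range (k i - c0), X j v ω) K (z i) (k i) C1} =
      ⋂ i ∈ (Finset.univ : Finset T), (fun ω (b : A i) => ∑ p : Fin J × W,
      (if (p.1 : ℕ) < k i - c0 ∧ (p.2 : V) = b then (1 : ℝ) else 0) * X p.1 p.2 ω) ⁻¹' S i := by
    ext ω
    simp only [Set.mem_ofPred_eq, Finset.mem_univ, Set.iInter_true, Set.mem_iInter,
      Set.mem_preimage, hev]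
    exact ⟨fun hh i => hh i i.2, fun hh i hi => hh ⟨i, hi⟩⟩
  rw [hset]
  refine (le_of_eq hprod).trans ?_
  have hone : ∀ i ∈ (Finset.univ : Finset T), μ ((fun ω (b : A i) => ∑ p : Fin J × W,
      (if (p.1 : ℕ) < k i - c0 ∧ (p.2 : V) = b then (1 : ℝ) else 0) * X p.1 p.2 ω) ⁻¹' S i) ≤
      ENNReal.ofReal (2 * q) := by
    intro i _
    have hfld : IsFld (k i - c0) (ball (z i) (3 * 2 ^ k i)) μ
        (fun v ω => ∑ j ∈ Finset.range (k i - c0), X j v ω) :=
      lay_sum hL (by have := hc i (hT i i.2); omega) (hW i (hT i i.2))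
    have b1 := (hPF i (hT i i.2)).use hfld
    have b2 := (hPF i (hT i i.2)).use (d1a_neg hfld)
    have e1 : (fun ω (b : A i) => ∑ p : Fin J × W,
      (if (p.1 : ℕ) < k i - c0 ∧ (p.2 : V) = b then (1 : ℝ) else 0) * X p.1 p.2 ω) ⁻¹' S i =
      {ω | ¬ Nice (fun v => ∑ j ∈ Finset.range (k i - c0), X j v ω) K (z i) (k i) C1} ∪
      {ω | ¬ Nice (fun v => -∑ j ∈ Finset.range (k i - c0), X j v ω) K (z i) (k i) C1} := by
      ext ω
      simp only [Set.mem_preimage, hev, Set.mem_union, Set.mem_ofPred_eq]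
    rw [e1]
    refine (measure_union_le _ _).trans ((add_le_add b1 b2).trans ?_)
    rw [← ENNReal.ofReal_add hq hq, two_mul]
  refine (Finset.prod_le_prod' hone).trans ?_
  rw [Finset.prod_const, ENNReal.ofReal_pow (by positivity), Finset.card_univ,
    Fintype.card_coe]

end Pool.H92.GFL
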