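import Pool.Agent.helper92.GFL.L1

/-!
Chaining: exponential moment of the oscillation of a Gaussian field on a ball.
-/

namespace Pool.H92.GFL

open Function Finset MeasureTheory ProbabilityTheory Pool.H92.GFF
open scoped Classical ENNReal

/-! ### Rounding -/

/-- rounding down to multiples of `2^i` -/
def rd (i : ℕ) (a : ℤ) : ℤ := 2 ^ i * (a / 2 ^ i)

lemma rd_zero (a : ℤ) : rd 0 a = a := by simp [rd]

lemma rd_top {n : ℕ} {a : ℤ} (h0 : 0 ≤ a) (h : a < 2 ^ n) : rd n a = 0 := by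
  simp [rd, Int.ediv_eq_zero_of_lt h0 h]

lemma rd_nonneg (i : ℕ) {a : ℤ} (h0 : 0 ≤ a) : 0 ≤ rd i a := by
  unfold rd
  exact mul_nonneg (by positivity) (Int.ediv_nonneg h0 (by positivity))

lemma rd_le (i : ℕ) (a : ℤ) : rd i a ≤ a := Int.mul_ediv_self_le (by positivity)

lemma rd_succ_eq (i : ℕ) (a : ℤ) : rd (i + 1) a = 2 ^ i * (2 * (a / 2 ^ i / 2)) := by
  unfold rd
  rw [pow_succ, Int.ediv_ediv_of_nonneg (by positivity)]
  ring

lemma rd_succ_rd (i : ℕ) (a : ℤ) : rd (i + 1) (rd i a) = rd (i + 1) a := by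
  rw [rd_succ_eq, rd_succ_eq]
  unfold rd
  rw [Int.mul_ediv_cancel_left _ (by positivity)]

lemma rd_sub (i : ℕ) (a : ℤ) : 0 ≤ rd i a - rd (i + 1) a ∧ rd i a - rd (i + 1) a ≤ 2 ^ i := by
  rw [rd_succ_eq]
  unfold rd
  set A := a / 2 ^ i
  have h1 : (0 : ℤ) < 2 ^ i := by positivity
  have h2 : 0 ≤ A - 2 * (A / 2) := by omega
  have h3 : A - 2 * (A / 2) ≤ 1 := by omega
  constructor
  · nlinarith
  · nlinarith

/-- rounding in the plane, relative to the corner `o` -/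
def rho (o : V) (i : ℕ) (x : V) : V := (o.1 + rd i (x.1 - o.1), o.2 + rd i (x.2 - o.2))

lemma rho_zero (o x : V) : rho o 0 x = x := by
  unfold rho
  rw [rd_zero, rd_zero]
  ext <;> simp

lemma rho_succ_rho (o : V) (i : ℕ) (x : V) : rho o (i + 1) (rho o i x) = rho o (i + 1) x := by
  unfold rho
  simp only [add_sub_cancel_left, rd_succ_rd]

/-! ### A convexity inequality -/

lemma exp_sum_le {n : ℕ} (w u L S : ℕ → ℝ) (hw : ∀ i ∈ range n, 0 ≤ w i)
    (hw1 : ∑ i ∈ range n, w i ≤ 1) (hS : ∀ i ∈ range n, Real.exp (u i) ≤ S i) :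
    Real.exp (∑ i ∈ range n, w i * u i) ≤ Real.exp (∑ i ∈ range n, w i * L i) *
      (1 + ∑ i ∈ range n, w i * (Real.exp (-L i) * S i)) := by
  have hS0 : ∀ i ∈ range n, 0 ≤ Real.exp (-L i) * S i := fun i hi =>
    mul_nonneg (Real.exp_pos _).le ((Real.exp_pos _).le.trans (hS i hi))
  set b : ℕ → ℝ := fun i => Real.log (1 + Real.exp (-L i) * S i) with hb
  have hbe : ∀ i ∈ range n, Real.exp (b i) = 1 + Real.exp (-L i) * S i := fun i hi =>
    Real.exp_log (by linarith [hS0 i hi])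
  have hub : ∀ i ∈ range n, u i ≤ L i + b i := by
    intro i hi
    rw [← Real.exp_le_exp, Real.exp_add, hbe i hi]
    have h1 : Real.exp (L i) * Real.exp (-L i) = 1 := by rw [← Real.exp_add]; simp
    calc Real.exp (u i) ≤ S i := hS i hi
      _ = Real.exp (L i) * (Real.exp (-L i) * S i) := by rw [← mul_assoc, h1, one_mul]
      _ ≤ Real.exp (L i) * (1 + Real.exp (-L i) * S i) :=
        mul_le_mul_of_nonneg_left (by linarith) (Real.exp_pos _).le
  have h1 : ∑ i ∈ range n, w i * u i ≤ ∑ i ∈ range n, w i * L i + ∑ i ∈ range n, w i * b i := by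
    rw [← Finset.sum_add_distrib]
    refine Finset.sum_le_sum (fun i hi => ?_)
    rw [← mul_add]
    exact mul_le_mul_of_nonneg_left (hub i hi) (hw i hi)
  have h2 : Real.exp (∑ i ∈ range n, w i * b i) ≤
      1 + ∑ i ∈ range n, w i * (Real.exp (-L i) * S i) := by
    have h3 := convexOn_exp.map_add_sum_le (t := range n) (w := w) (p := b)
      (v := 1 - ∑ i ∈ range n, w i) (q := 0) hw (by ring) (fun i _ => Set.mem_univ _)
      (by linarith) (Set.mem_univ _)
    simp only [smul_eq_mul, mul_zero, zero_add, Real.exp_zero, mul_one] at h3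
    refine h3.trans (le_of_eq ?_)
    have h4 : ∑ i ∈ range n, w i * Real.exp (b i) =
        ∑ i ∈ range n, w i + ∑ i ∈ range n, w i * (Real.exp (-L i) * S i) := by
      rw [← Finset.sum_add_distrib]
      refine Finset.sum_congr rfl (fun i hi => ?_)
      rw [hbe i hi]
      ring
    rw [h4]
    ring
  calc Real.exp (∑ i ∈ range n, w i * u i)
      ≤ Real.exp (∑ i ∈ range n, w i * L i + ∑ i ∈ range n, w i * b i) := Real.exp_le_exp.2 h1
    _ = Real.exp (∑ i ∈ range n, w i * L i) * Real.exp (∑ i ∈ range n, w i * b i) :=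
        Real.exp_add _ _
    _ ≤ _ := mul_le_mul_of_nonneg_left h2 (Real.exp_pos _).le

lemma sum_two_pow (n : ℕ) : ∑ i ∈ range n, (2 : ℝ) ^ i = 2 ^ n - 1 := by
  induction n with
  | zero => simp
  | succ n ih => rw [Finset.sum_range_succ, ih, pow_succ]; ring

lemma sum_two_pow_mul (n : ℕ) : ∑ i ∈ range n, (2 : ℝ) ^ i * ((n : ℝ) - i) = 2 ^ (n + 1) - n - 2 := by
  induction n with
  | zero => norm_num
  | succ n ih =>
    have h1 : ∑ i ∈ range (n + 1), (2 : ℝ) ^ i * (((n + 1 : ℕ) : ℝ) - i) =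
        ∑ i ∈ range n, (2 : ℝ) ^ i * ((n : ℝ) - i) + ∑ i ∈ range (n + 1), (2 : ℝ) ^ i := by
      have h2 : ∑ i ∈ range n, (2 : ℝ) ^ i * ((n : ℝ) - i) =
          ∑ i ∈ range (n + 1), (2 : ℝ) ^ i * ((n : ℝ) - i) := by
        rw [Finset.sum_range_succ]; simp
      rw [h2, ← Finset.sum_add_distrib]
      refine Finset.sum_congr rfl (fun i _ => ?_)
      push_cast
      ring
    rw [h1, ih, sum_two_pow]
    push_cast
    ring

/-! ### Second moments of increments -/

section var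

set_option linter.unusedSectionVars false

variable {Ω : Type} [MeasurableSpace Ω] {μ : Measure Ω} [IsProbabilityMeasure μ] {z : V} {r : ℕ}
  {Z : V → Ω → ℝ} {c : V → V → ℝ}

omit [IsProbabilityMeasure μ] in
lemma path_var (f : ℕ → Ω → ℝ) (S : ℝ) (K : ℕ) (hf : ∀ k ≤ K, MemLp (f k) 2 μ)
    (h : ∀ k < K, ∫ ω, (f (k + 1) ω - f k ω) ^ 2 ∂μ ≤ S) :
    ∫ ω, (f K ω - f 0 ω) ^ 2 ∂μ ≤ (K : ℝ) ^ 2 * S := by
  have hint : ∀ k ∈ range K, Integrable (fun ω => (f (k + 1) ω - f k ω) ^ 2) μ := by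
    intro k hk
    have hk' := Finset.mem_range.1 hk
    exact ((hf (k + 1) (by omega)).sub (hf k (by omega))).integrable_sq
  have h1 : ∀ ω, (f K ω - f 0 ω) ^ 2 ≤ (K : ℝ) * ∑ k ∈ range K, (f (k + 1) ω - f k ω) ^ 2 := by
    intro ω
    have h2 := sq_sum_le_card_mul_sum_sq (s := range K) (f := fun k => f (k + 1) ω - f k ω)
    rw [Finset.sum_range_sub (fun k => f k ω), Finset.card_range] at h2
    exact h2
  calc ∫ ω, (f K ω - f 0 ω) ^ 2 ∂μ
      ≤ ∫ ω, (K : ℝ) * ∑ k ∈ range K, (f (k + 1) ω - f k ω) ^ 2 ∂μ := by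
        refine integral_mono ((hf K le_rfl).sub (hf 0 (by omega))).integrable_sq ?_ h1
        exact (integrable_finsetSum _ hint).const_mul _
    _ = (K : ℝ) * ∑ k ∈ range K, ∫ ω, (f (k + 1) ω - f k ω) ^ 2 ∂μ := by
        rw [integral_const_mul, integral_finsetSum _ hint]
    _ ≤ (K : ℝ) * ∑ _k ∈ range K, S := by
        refine mul_le_mul_of_nonneg_left ?_ (Nat.cast_nonneg _)
        exact Finset.sum_le_sum (fun k hk => h k (Finset.mem_range.1 hk))
    _ = (K : ℝ) ^ 2 * S := by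
        rw [Finset.sum_const, Finset.card_range, nsmul_eq_mul]
        ring

lemma GF.memLp' (h : GF μ (fun v : ball z r => Z v) (fun x y => c x y)) {x : V}
    (hx : x ∈ ball z r) : MemLp (Z x) 2 μ :=
  (h.gauss.hasGaussianLaw_eval ⟨x, hx⟩).memLp_two

lemma GF.integrable' (h : GF μ (fun v : ball z r => Z v) (fun x y => c x y)) {x : V}
    (hx : x ∈ ball z r) : Integrable (Z x) μ :=
  (h.gauss.hasGaussianLaw_eval ⟨x, hx⟩).integrable

lemma GF.sub_law (h : GF μ (fun v : ball z r => Z v) (fun x y => c x y)) {x y : V}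
    (hx : x ∈ ball z r) (hy : y ∈ ball z r) : HasGaussianLaw (Z x - Z y) μ :=
  h.gauss.hasGaussianLaw_sub (s := ⟨x, hx⟩) (t := ⟨y, hy⟩)

lemma GF.sub_mean (h : GF μ (fun v : ball z r => Z v) (fun x y => c x y)) {x y : V}
    (hx : x ∈ ball z r) (hy : y ∈ ball z r) : ∫ ω, (Z x - Z y) ω ∂μ = 0 := by
  have h1 : ∫ ω, (Z x - Z y) ω ∂μ = ∫ ω, Z x ω ∂μ - ∫ ω, Z y ω ∂μ :=
    integral_sub (h.integrable' hx) (h.integrable' hy)
  have h2 : ∫ ω, Z x ω ∂μ = 0 := h.mean ⟨x, hx⟩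
  have h3 : ∫ ω, Z y ω ∂μ = 0 := h.mean ⟨y, hy⟩
  rw [h1, h2, h3, sub_zero]

lemma GF.sub_var (h : GF μ (fun v : ball z r => Z v) (fun x y => c x y)) {x y : V}
    (hx : x ∈ ball z r) (hy : y ∈ ball z r) :
    Var[Z x - Z y; μ] = ∫ ω, (Z x ω - Z y ω) ^ 2 ∂μ :=
  variance_of_integral_eq_zero (h.sub_law hx hy).aemeasurable (h.sub_mean hx hy)

lemma GF.sub_sq (h : GF μ (fun v : ball z r => Z v) (fun x y => c x y)) {x y : V}
    (hx : x ∈ ball z r) (hy : y ∈ ball z r) :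
    ∫ ω, (Z x ω - Z y ω) ^ 2 ∂μ = c x x - 2 * c x y + c y y := by
  rw [← h.sub_var hx hy, variance_sub (h.memLp' hx) (h.memLp' hy),
    ← covariance_self (h.memLp' hx).aestronglyMeasurable.aemeasurable,
    ← covariance_self (h.memLp' hy).aestronglyMeasurable.aemeasurable]
  have h1 : cov[Z x, Z x; μ] = c x x := h.cov ⟨x, hx⟩ ⟨x, hx⟩
  have h2 : cov[Z y, Z y; μ] = c y y := h.cov ⟨y, hy⟩ ⟨y, hy⟩
  have h3 : cov[Z x, Z y; μ] = c x y := h.cov ⟨x, hx⟩ ⟨y, hy⟩
  rw [h1, h2, h3]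

lemma hor_var (h : GF μ (fun v : ball z r => Z v) (fun x y => c x y)) {S : ℝ}
    (hg : ∀ x ∈ ball z r, ∀ w ∈ nb x, w ∈ ball z r → c x x - 2 * c x w + c w w ≤ S)
    {a b : ℤ} {K : ℕ} (h0 : ((a, b) : V) ∈ ball z r) (h1 : ((a + K, b) : V) ∈ ball z r) :
    ∫ ω, (Z (a + K, b) ω - Z (a, b) ω) ^ 2 ∂μ ≤ (K : ℝ) ^ 2 * S := by
  rw [mem_ball] at h0 h1
  simp only at h0 h1
  have hm : ∀ k : ℕ, k ≤ K → ((a + k, b) : V) ∈ ball z r := by
    intro k hk
    rw [mem_ball]
    simp only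
    omega
  have h2 := path_var (μ := μ) (fun k : ℕ => Z (a + k, b)) S K (fun k hk => h.memLp' (hm k hk)) ?_
  · simpa using h2
  · intro k hk
    have h3 := h.sub_sq (hm k (by omega)) (hm (k + 1) (by omega))
    have h4 := hg _ (hm k (by omega)) ((a + ((k + 1 : ℕ) : ℤ), b) : V) (by
      simp [nb, add_assoc]) (hm (k + 1) (by omega))
    rw [← h3] at h4
    refine le_trans (le_of_eq ?_) h4
    refine integral_congr_ae (Filter.Eventually.of_forall (fun ω => ?_))
    simp only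
    ring

lemma ver_var (h : GF μ (fun v : ball z r => Z v) (fun x y => c x y)) {S : ℝ}
    (hg : ∀ x ∈ ball z r, ∀ w ∈ nb x, w ∈ ball z r → c x x - 2 * c x w + c w w ≤ S)
    {a b : ℤ} {K : ℕ} (h0 : ((a, b) : V) ∈ ball z r) (h1 : ((a, b + K) : V) ∈ ball z r) :
    ∫ ω, (Z (a, b + K) ω - Z (a, b) ω) ^ 2 ∂μ ≤ (K : ℝ) ^ 2 * S := by
  rw [mem_ball] at h0 h1
  simp only at h0 h1
  have hm : ∀ k : ℕ, k ≤ K → ((a, b + k) : V) ∈ ball z r := by
    intro k hk
    rw [mem_ball]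
    simp only
    omega
  have h2 := path_var (μ := μ) (fun k : ℕ => Z (a, b + k)) S K (fun k hk => h.memLp' (hm k hk)) ?_
  · simpa using h2
  · intro k hk
    have h3 := h.sub_sq (hm k (by omega)) (hm (k + 1) (by omega))
    have h4 := hg _ (hm k (by omega)) ((a, b + ((k + 1 : ℕ) : ℤ)) : V) (by
      simp [nb, add_assoc]) (hm (k + 1) (by omega))
    rw [← h3] at h4
    refine le_trans (le_of_eq ?_) h4
    refine integral_congr_ae (Filter.Eventually.of_forall (fun ω => ?_))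
    simp only
    ring

lemma box_var (h : GF μ (fun v : ball z r => Z v) (fun x y => c x y)) {S : ℝ} (hS : 0 ≤ S)
    (hg : ∀ x ∈ ball z r, ∀ w ∈ nb x, w ∈ ball z r → c x x - 2 * c x w + c w w ≤ S)
    {x y : V} {q : ℕ} (hx : x ∈ ball z r) (hy : y ∈ ball z r)
    (h1 : 0 ≤ x.1 - y.1 ∧ x.1 - y.1 ≤ q) (h2 : 0 ≤ x.2 - y.2 ∧ x.2 - y.2 ≤ q) :
    ∫ ω, (Z x ω - Z y ω) ^ 2 ∂μ ≤ 4 * (q : ℝ) ^ 2 * S := by
  obtain ⟨x1, x2⟩ := x
  obtain ⟨y1, y2⟩ := y
  simp only at h1 h2
  obtain ⟨K, hK⟩ := Int.eq_ofNat_of_zero_le h1.1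
  obtain ⟨M, hM⟩ := Int.eq_ofNat_of_zero_le h2.1
  have hKq : K ≤ q := by omega
  have hMq : M ≤ q := by omega
  have hx1 : x1 = y1 + K := by omega
  have hx2 : x2 = y2 + M := by omega
  subst hx1 hx2
  have hp : ((y1, y2 + M) : V) ∈ ball z r := by
    rw [mem_ball] at hx hy ⊢
    simp only at hx hy ⊢
    omega
  have e1 := hor_var h hg hp hx
  have e2 := ver_var h hg hy hp
  have hKr : (K : ℝ) ≤ q := by exact_mod_cast hKq
  have hMr : (M : ℝ) ≤ q := by exact_mod_cast hMq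
  have e1' : ∫ ω, (Z (y1 + K, y2 + M) ω - Z (y1, y2 + M) ω) ^ 2 ∂μ ≤ (q : ℝ) ^ 2 * S :=
    e1.trans (mul_le_mul_of_nonneg_right (pow_le_pow_left₀ (Nat.cast_nonneg _) hKr 2) hS)
  have e2' : ∫ ω, (Z (y1, y2 + M) ω - Z (y1, y2) ω) ^ 2 ∂μ ≤ (q : ℝ) ^ 2 * S :=
    e2.trans (mul_le_mul_of_nonneg_right (pow_le_pow_left₀ (Nat.cast_nonneg _) hMr 2) hS)
  have i1 : Integrable (fun ω => (Z (y1 + K, y2 + M) ω - Z (y1, y2 + M) ω) ^ 2) μ :=
    ((h.memLp' hx).sub (h.memLp' hp)).integrable_sq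
  have i2 : Integrable (fun ω => (Z (y1, y2 + M) ω - Z (y1, y2) ω) ^ 2) μ :=
    ((h.memLp' hp).sub (h.memLp' hy)).integrable_sq
  calc ∫ ω, (Z (y1 + K, y2 + M) ω - Z (y1, y2) ω) ^ 2 ∂μ
      ≤ ∫ ω, (2 * (Z (y1 + K, y2 + M) ω - Z (y1, y2 + M) ω) ^ 2 +
          2 * (Z (y1, y2 + M) ω - Z (y1, y2) ω) ^ 2) ∂μ := by
        refine integral_mono ((h.memLp' hx).sub (h.memLp' hy)).integrable_sq
          ((i1.const_mul 2).add (i2.const_mul 2)) (fun ω => ?_)
        simp only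
        nlinarith [sq_nonneg ((Z (y1 + K, y2 + M) ω - Z (y1, y2 + M) ω) -
          (Z (y1, y2 + M) ω - Z (y1, y2) ω))]
    _ = 2 * ∫ ω, (Z (y1 + K, y2 + M) ω - Z (y1, y2 + M) ω) ^ 2 ∂μ +
          2 * ∫ ω, (Z (y1, y2 + M) ω - Z (y1, y2) ω) ^ 2 ∂μ := by
        rw [integral_add (i1.const_mul 2) (i2.const_mul 2), integral_const_mul, integral_const_mul]
    _ ≤ 4 * (q : ℝ) ^ 2 * S := by linarith

omit [IsProbabilityMeasure μ] in
lemma exp_gauss {Y : Ω → ℝ} (hY : HasGaussianLaw Y μ) (h0 : ∫ ω, Y ω ∂μ = 0) (t : ℝ) :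
    Integrable (fun ω => Real.exp (t * Y ω)) μ ∧
      ∫ ω, Real.exp (t * Y ω) ∂μ = Real.exp (t ^ 2 * Var[Y; μ] / 2) := by
  have hlaw := law_of_gauss hY h0
  have hmgf := mgf_gaussianReal hlaw t
  have hint : Integrable (fun ω => Real.exp (t * Y ω)) μ := by
    have h1 := integrable_exp_mul_gaussianReal (μ := 0) (v := (Var[Y; μ]).toNNReal) t
    rw [← hlaw] at h1
    exact (integrable_map_measure (by fun_prop) hY.aemeasurable).1 h1
  refine ⟨hint, ?_⟩
  rw [mgf] at hmgf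
  rw [hmgf, Real.coe_toNNReal _ (variance_nonneg _ _)]
  ring_nf

end var

lemma card_image_rho {z o : V} {r n i : ℕ} (ho : o = (z.1 - r, z.2 - r)) (hn : 2 * r < 2 ^ n)
    (hi : i ≤ n) : ((ball z r).image (rho o i)).card ≤ 4 ^ (n - i) := by
  set J : Finset V := (Finset.Ico (0 : ℤ) (2 ^ (n - i))) ×ˢ (Finset.Ico (0 : ℤ) (2 ^ (n - i))) with hJ
  have h1 : (ball z r).image (rho o i) ⊆
      J.image (fun q : V => ((o.1 + 2 ^ i * q.1, o.2 + 2 ^ i * q.2) : V)) := by
    intro y hy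
    obtain ⟨x, hx, rfl⟩ := Finset.mem_image.1 hy
    refine Finset.mem_image.2 ⟨((x.1 - o.1) / 2 ^ i, (x.2 - o.2) / 2 ^ i), ?_, rfl⟩
    rw [mem_ball] at hx
    have hp : (2 : ℤ) ^ (n - i) * 2 ^ i = 2 ^ n := by
      rw [← pow_add, Nat.sub_add_cancel hi]
    have hn' : (2 * r : ℤ) < 2 ^ n := by exact_mod_cast hn
    have h2i : (0 : ℤ) < 2 ^ i := by positivity
    have ho1 : o.1 = z.1 - r := by rw [ho]
    have ho2 : o.2 = z.2 - r := by rw [ho]
    rw [hJ, Finset.mem_product, Finset.mem_Ico, Finset.mem_Ico]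
    refine ⟨⟨Int.ediv_nonneg (by omega) h2i.le, Int.ediv_lt_of_lt_mul h2i ?_⟩,
      ⟨Int.ediv_nonneg (by omega) h2i.le, Int.ediv_lt_of_lt_mul h2i ?_⟩⟩
    · rw [hp]; omega
    · rw [hp]; omega
  refine (Finset.card_le_card h1).trans (Finset.card_image_le.trans ?_)
  rw [hJ, Finset.card_product, Int.card_Ico, sub_zero]
  have h3 : ((2 : ℤ) ^ (n - i)).toNat = 2 ^ (n - i) := by
    have : ((2 : ℤ) ^ (n - i)) = ((2 ^ (n - i) : ℕ) : ℤ) := by push_cast; rfl
    rw [this, Int.toNat_natCast]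
  rw [h3, ← mul_pow]
  norm_num

theorem osc_moment : ∃ C : ℝ, 0 < C ∧ ∀ {Ω : Type} [MeasurableSpace Ω] (μ : Measure Ω)
    [IsProbabilityMeasure μ] (z : V) (r : ℕ) (σ : ℝ) (Z : V → Ω → ℝ) (c : V → V → ℝ),
    1 ≤ r → 0 < σ → GF μ (fun v : ball z r => Z v) (fun x y => c x y) →
    (∀ x ∈ ball z r, ∀ w ∈ nb x, w ∈ ball z r → c x x - 2 * c x w + c w w ≤ (σ / r) ^ 2) →
    ∫⁻ ω, ENNReal.ofReal (Real.exp (osc (fun v => Z v ω) z r / σ)) ∂μ ≤ ENNReal.ofReal C := by
  refine ⟨2 * Real.exp 133, by positivity, ?_⟩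
  intro Ω _ μ _ z r σ Z c hr hσ h hgrad
  have hr0 : (0 : ℝ) < r := by exact_mod_cast hr
  obtain ⟨n, hn1, hn2⟩ : ∃ n : ℕ, 2 * r < 2 ^ n ∧ 2 ^ n ≤ 4 * r := by
    refine ⟨Nat.log 2 (2 * r) + 1, Nat.lt_pow_succ_log_self (by norm_num) _, ?_⟩
    have h1 := Nat.pow_log_le_self 2 (x := 2 * r) (by omega)
    rw [pow_succ]
    omega
  have hn2r : (2 : ℝ) ^ n ≤ 4 * r := by exact_mod_cast hn2
  set o : V := (z.1 - r, z.2 - r) with ho
  have ho1 : o.1 = z.1 - r := rfl
  have ho2 : o.2 = z.2 - r := rfl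
  have hoball : o ∈ ball z r := by
    rw [mem_ball]
    omega
  have hrho : ∀ i, ∀ x ∈ ball z r, rho o i x ∈ ball z r := by
    intro i x hx
    rw [mem_ball] at hx ⊢
    have h1 := rd_nonneg i (a := x.1 - o.1) (by omega)
    have h2 := rd_nonneg i (a := x.2 - o.2) (by omega)
    have h3 := rd_le i (x.1 - o.1)
    have h4 := rd_le i (x.2 - o.2)
    simp only [rho]
    omega
  have hrn : ∀ x ∈ ball z r, rho o n x = o := by
    intro x hx
    rw [mem_ball] at hx
    have hn' : (2 * r : ℤ) < 2 ^ n := by exact_mod_cast hn1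
    have h1 := rd_top (n := n) (a := x.1 - o.1) (by omega) (by omega)
    have h2 := rd_top (n := n) (a := x.2 - o.2) (by omega) (by omega)
    simp only [rho, h1, h2, add_zero]
  set Y : ℕ → Finset V := fun i => (ball z r).image (rho o i) with hY
  have hYmem : ∀ i, ∀ x ∈ ball z r, rho o i x ∈ Y i := fun i x hx => Finset.mem_image_of_mem _ hx
  have hYball : ∀ i, ∀ y ∈ Y i, y ∈ ball z r := by
    intro i y hy
    obtain ⟨x, hx, rfl⟩ := Finset.mem_image.1 hy
    exact hrho i x hx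
  have hYcard : ∀ i, i < n → (((Y i).card : ℕ) : ℝ) ≤ 4 ^ (n - i) := by
    intro i hi
    exact_mod_cast card_image_rho ho hn1 hi.le
  set G : ℕ → V → Ω → ℝ := fun i y => Z y - Z (rho o (i + 1) y) with hG
  have hGvar : ∀ i, ∀ y ∈ Y i, Var[G i y; μ] ≤ 4 * ((2 : ℝ) ^ i) ^ 2 * (σ / r) ^ 2 := by
    intro i y hy
    have hyb := hYball i y hy
    obtain ⟨x, hx, rfl⟩ := Finset.mem_image.1 hy
    simp only [hG]
    rw [h.sub_var hyb (hrho _ _ hyb)]
    have h1 := rd_sub i (x.1 - o.1)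
    have h2 := rd_sub i (x.2 - o.2)
    have h3 := box_var h (sq_nonneg (σ / r)) hgrad (x := rho o i x) (y := rho o (i + 1) (rho o i x))
      (q := 2 ^ i) hyb (hrho _ _ hyb) (by
        rw [rho_succ_rho]
        simp only [rho]
        push_cast
        omega) (by
        rw [rho_succ_rho]
        simp only [rho]
        push_cast
        omega)
    push_cast at h3
    exact h3
  set w : ℕ → ℝ := fun i => 2 ^ i / 2 ^ n with hw
  have hwpos : ∀ i, 0 < w i := fun i => by simp only [hw]; positivity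
  have hwsum : ∑ i ∈ range n, w i ≤ 1 := by
    simp only [hw]
    rw [← Finset.sum_div, sum_two_pow, div_le_one (by positivity)]
    linarith
  set t : ℕ → ℝ := fun i => 2 / (σ * w i) with ht
  have htw : ∀ i, w i * t i = 2 / σ := by
    intro i
    have := (hwpos i).ne'
    simp only [ht]
    field_simp
  have hexp : ∀ i, ∀ y ∈ Y i, ∀ s : ℝ, s ^ 2 = (t i) ^ 2 →
      Integrable (fun ω => Real.exp (s * G i y ω)) μ ∧
      ∫ ω, Real.exp (s * G i y ω) ∂μ ≤ Real.exp 128 := by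
    intro i y hy s hs
    have hyb := hYball i y hy
    obtain ⟨e1, e2⟩ := exp_gauss (h.sub_law hyb (hrho (i + 1) _ hyb))
      (h.sub_mean hyb (hrho (i + 1) _ hyb)) s
    refine ⟨e1, ?_⟩
    simp only [hG]
    rw [e2, Real.exp_le_exp, hs]
    have h1 := hGvar i y hy
    simp only [hG] at h1
    have h2 : (t i) ^ 2 * (4 * ((2 : ℝ) ^ i) ^ 2 * (σ / r) ^ 2) / 2 = 8 * ((2 : ℝ) ^ n / r) ^ 2 := by
      simp only [ht, hw]
      have h2i : ((2 : ℝ) ^ i) ≠ 0 := by positivity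
      have h2n : ((2 : ℝ) ^ n) ≠ 0 := by positivity
      field_simp
      ring
    have h3 : (2 : ℝ) ^ n / r ≤ 4 := by
      rw [div_le_iff₀ hr0]
      exact hn2r
    have h4 : (0 : ℝ) ≤ (2 : ℝ) ^ n / r := by positivity
    calc (t i) ^ 2 * Var[Z y - Z (rho o (i + 1) y); μ] / 2
        ≤ (t i) ^ 2 * (4 * ((2 : ℝ) ^ i) ^ 2 * (σ / r) ^ 2) / 2 := by
          have := mul_le_mul_of_nonneg_left h1 (sq_nonneg (t i))
          linarith
      _ = 8 * ((2 : ℝ) ^ n / r) ^ 2 := h2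
      _ ≤ 128 := by nlinarith
  set L : ℕ → ℝ := fun i => 129 + 2 * ((n : ℝ) - i) with hL
  have hwL : ∑ i ∈ range n, w i * L i ≤ 133 := by
    have h1 : ∑ i ∈ range n, w i * L i = 129 * ∑ i ∈ range n, w i +
        2 / 2 ^ n * ∑ i ∈ range n, (2 : ℝ) ^ i * ((n : ℝ) - i) := by
      rw [Finset.mul_sum, Finset.mul_sum, ← Finset.sum_add_distrib]
      refine Finset.sum_congr rfl (fun i _ => ?_)
      simp only [hL, hw]
      ring
    rw [h1, sum_two_pow_mul]
    have h2 : 2 / (2 : ℝ) ^ n * (2 ^ (n + 1) - n - 2) ≤ 4 := by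
      have h3 : (0 : ℝ) < 2 ^ n := by positivity
      rw [div_mul_eq_mul_div, div_le_iff₀ h3, pow_succ]
      have : (0 : ℝ) ≤ n := Nat.cast_nonneg n
      nlinarith
    linarith
  set SS : ℕ → Ω → ℝ := fun i ω =>
    ∑ y ∈ Y i, (Real.exp (t i * G i y ω) + Real.exp (-(t i) * G i y ω)) with hSS
  have hSSint : ∀ i, Integrable (SS i) μ ∧ ∫ ω, SS i ω ∂μ ≤ (Y i).card * (2 * Real.exp 128) := by
    intro i
    have hi1 : ∀ y ∈ Y i, Integrable
        (fun ω => Real.exp (t i * G i y ω) + Real.exp (-(t i) * G i y ω)) μ := fun y hy =>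
      (hexp i y hy (t i) rfl).1.add (hexp i y hy (-(t i)) (by ring)).1
    refine ⟨integrable_finsetSum _ hi1, ?_⟩
    simp only [hSS]
    rw [integral_finsetSum _ hi1]
    calc ∑ y ∈ Y i, ∫ ω, (Real.exp (t i * G i y ω) + Real.exp (-(t i) * G i y ω)) ∂μ
        ≤ ∑ _y ∈ Y i, (2 * Real.exp 128) := by
          refine Finset.sum_le_sum (fun y hy => ?_)
          rw [integral_add (hexp i y hy (t i) rfl).1 (hexp i y hy (-(t i)) (by ring)).1]
          have e1 := (hexp i y hy (t i) rfl).2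
          have e2 := (hexp i y hy (-(t i)) (by ring)).2
          linarith
      _ = (Y i).card * (2 * Real.exp 128) := by
          rw [Finset.sum_const, nsmul_eq_mul]
  set R : Ω → ℝ := fun ω => Real.exp 133 *
    (1 + ∑ i ∈ range n, w i * (Real.exp (-L i) * SS i ω)) with hR
  have hSS0 : ∀ i ω, 0 ≤ SS i ω := by
    intro i ω
    simp only [hSS]
    exact Finset.sum_nonneg (fun y _ => by positivity)
  have hR0 : ∀ ω, 0 ≤ 1 + ∑ i ∈ range n, w i * (Real.exp (-L i) * SS i ω) := by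
    intro ω
    have : 0 ≤ ∑ i ∈ range n, w i * (Real.exp (-L i) * SS i ω) :=
      Finset.sum_nonneg (fun i _ => mul_nonneg (hwpos i).le
        (mul_nonneg (Real.exp_pos _).le (hSS0 i ω)))
    linarith
  -- pointwise bound relative to the corner
  have hpt : ∀ ω, ∀ x ∈ ball z r, Real.exp (2 * |Z x ω - Z o ω| / σ) ≤ R ω := by
    intro ω x hx
    have h1 : |Z x ω - Z o ω| ≤ ∑ i ∈ range n, |G i (rho o i x) ω| := by
      have h2 : Z x ω - Z o ω = ∑ i ∈ range n, G i (rho o i x) ω := by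
        have h3 := Finset.sum_range_sub' (fun i => Z (rho o i x) ω) n
        rw [rho_zero, hrn x hx] at h3
        rw [← h3]
        refine Finset.sum_congr rfl (fun i _ => ?_)
        simp only [hG, Pi.sub_apply, rho_succ_rho]
      rw [h2]
      exact Finset.abs_sum_le_sum_abs _ _
    have h4 : 2 * |Z x ω - Z o ω| / σ ≤
        ∑ i ∈ range n, w i * (t i * |G i (rho o i x) ω|) := by
      have h5 : ∑ i ∈ range n, w i * (t i * |G i (rho o i x) ω|) =
          2 / σ * ∑ i ∈ range n, |G i (rho o i x) ω| := by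
        rw [Finset.mul_sum]
        refine Finset.sum_congr rfl (fun i _ => ?_)
        rw [← mul_assoc, htw]
      rw [h5]
      have h6 : 2 * |Z x ω - Z o ω| / σ = 2 / σ * |Z x ω - Z o ω| := by ring
      rw [h6]
      exact mul_le_mul_of_nonneg_left h1 (by positivity)
    have h7 := exp_sum_le (n := n) w (fun i => t i * |G i (rho o i x) ω|) L (fun i => SS i ω)
      (fun i _ => (hwpos i).le) hwsum (by
        intro i _
        simp only [hSS]
        have h8 : Real.exp (t i * |G i (rho o i x) ω|) ≤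
            Real.exp (t i * G i (rho o i x) ω) + Real.exp (-(t i) * G i (rho o i x) ω) := by
          rcases abs_cases (G i (rho o i x) ω) with ⟨h9, _⟩ | ⟨h9, _⟩
          · rw [h9]
            have := Real.exp_pos (-(t i) * G i (rho o i x) ω)
            linarith
          · rw [h9]
            have := Real.exp_pos (t i * G i (rho o i x) ω)
            have e : t i * -G i (rho o i x) ω = -(t i) * G i (rho o i x) ω := by ring
            rw [e]
            linarith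
        refine h8.trans ?_
        exact Finset.single_le_sum (f := fun y => Real.exp (t i * G i y ω) +
          Real.exp (-(t i) * G i y ω)) (fun y _ => by positivity) (hYmem i x hx))
    calc Real.exp (2 * |Z x ω - Z o ω| / σ)
        ≤ Real.exp (∑ i ∈ range n, w i * (t i * |G i (rho o i x) ω|)) := Real.exp_le_exp.2 h4
      _ ≤ _ := h7
      _ ≤ R ω := mul_le_mul_of_nonneg_right (Real.exp_le_exp.2 hwL) (hR0 ω)
  have hosc : ∀ ω, Real.exp (osc (fun v => Z v ω) z r / σ) ≤ R ω := by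
    intro ω
    obtain ⟨x, hx, hxe⟩ := Finset.exists_mem_eq_sup' (s := ball z r)
      ⟨z, by rw [mem_ball]; omega⟩ (fun x => |Z x ω - Z z ω|)
    have h1 : osc (fun v => Z v ω) z r = |Z x ω - Z z ω| := hxe
    rw [h1]
    have hz : z ∈ ball z r := by rw [mem_ball]; omega
    have h2 : |Z x ω - Z z ω| ≤ |Z x ω - Z o ω| + |Z z ω - Z o ω| := by
      have := abs_sub_le (Z x ω) (Z o ω) (Z z ω)
      rwa [abs_sub_comm (Z o ω)] at this
    rcases le_total (|Z x ω - Z o ω|) (|Z z ω - Z o ω|) with h3 | h3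
    · refine le_trans (Real.exp_le_exp.2 ?_) (hpt ω z hz)
      exact div_le_div_of_nonneg_right (by linarith) hσ.le
    · refine le_trans (Real.exp_le_exp.2 ?_) (hpt ω x hx)
      exact div_le_div_of_nonneg_right (by linarith) hσ.le
  have hRi : ∀ i ∈ range n, Integrable (fun ω => w i * (Real.exp (-L i) * SS i ω)) μ :=
    fun i _ => ((hSSint i).1.const_mul _).const_mul _
  have hRint : Integrable R μ :=
    (((integrable_const (1 : ℝ)).add (integrable_finsetSum _ hRi)).const_mul _)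
  have hRle : ∫ ω, R ω ∂μ ≤ 2 * Real.exp 133 := by
    simp only [hR]
    rw [integral_const_mul, integral_add (integrable_const _) (integrable_finsetSum _ hRi),
      integral_finsetSum _ hRi, integral_const]
    have h1 : ∀ i ∈ range n, ∫ ω, w i * (Real.exp (-L i) * SS i ω) ∂μ ≤ w i := by
      intro i hi
      have hi' := Finset.mem_range.1 hi
      rw [integral_const_mul, integral_const_mul]
      have h2 : Real.exp (-L i) * ∫ ω, SS i ω ∂μ ≤ 1 := by
        have h3 : ∫ ω, SS i ω ∂μ ≤ Real.exp (L i) := by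
          refine (hSSint i).2.trans ?_
          have h4 : (2 : ℝ) ≤ Real.exp 1 := by
            have := Real.add_one_le_exp (1 : ℝ)
            linarith
          have h5 : (4 : ℝ) ≤ Real.exp 2 := by
            have : Real.exp 2 = Real.exp 1 * Real.exp 1 := by rw [← Real.exp_add]; norm_num
            rw [this]
            nlinarith
          have h6 : Real.exp (L i) = Real.exp 2 ^ (n - i) * (Real.exp 1 * Real.exp 128) := by
            rw [← Real.exp_nat_mul, ← Real.exp_add, ← Real.exp_add]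
            congr 1
            simp only [hL]
            rw [Nat.cast_sub hi'.le]
            ring
          rw [h6]
          refine mul_le_mul ((hYcard i hi').trans (pow_le_pow_left₀ (by norm_num) h5 _)) ?_
            (by positivity) (by positivity)
          exact mul_le_mul_of_nonneg_right h4 (Real.exp_pos _).le
        calc Real.exp (-L i) * ∫ ω, SS i ω ∂μ ≤ Real.exp (-L i) * Real.exp (L i) :=
              mul_le_mul_of_nonneg_left h3 (Real.exp_pos _).le
          _ = 1 := by rw [← Real.exp_add]; simp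
      calc w i * (Real.exp (-L i) * ∫ ω, SS i ω ∂μ) ≤ w i * 1 :=
            mul_le_mul_of_nonneg_left h2 (hwpos i).le
        _ = w i := mul_one _
    have h7 : ∑ i ∈ range n, ∫ ω, w i * (Real.exp (-L i) * SS i ω) ∂μ ≤ 1 :=
      (Finset.sum_le_sum h1).trans hwsum
    have h8 := Real.exp_pos (133 : ℝ)
    simp only [probReal_univ, smul_eq_mul, mul_one]
    nlinarith
  calc ∫⁻ ω, ENNReal.ofReal (Real.exp (osc (fun v => Z v ω) z r / σ)) ∂μ
      ≤ ∫⁻ ω, ENNReal.ofReal (R ω) ∂μ :=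
        lintegral_mono (fun ω => ENNReal.ofReal_le_ofReal (hosc ω))
    _ = ENNReal.ofReal (∫ ω, R ω ∂μ) :=
        (ofReal_integral_eq_lintegral_ofReal hRint (Filter.Eventually.of_forall
          (fun ω => (Real.exp_pos _).le.trans (hosc ω)))).symm
    _ ≤ ENNReal.ofReal (2 * Real.exp 133) := ENNReal.ofReal_le_ofReal hRle

end Pool.H92.GFL
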