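import Pool.Agent.helper92.GFL.Defs3
import Pool.Agent.helper92.GFL.L1
import Pool.Agent.helper92.GFL.L2
import Pool.Agent.helper92.GFL.L3
import Pool.Agent.helper92.GFL.K4

namespace Pool.H92.GFL

open Function Finset MeasureTheory ProbabilityTheory Pool.H92.GFF
open scoped Classical ENNReal

/-- Jensen with a defect at `0` -/
lemma d1b_exp (S : Finset ℕ) (w a : ℕ → ℝ) (hw : ∀ i ∈ S, 0 ≤ w i) (h1 : ∑ i ∈ S, w i ≤ 1) :
    Real.exp (∑ i ∈ S, w i * a i) ≤ 1 + ∑ i ∈ S, w i * Real.exp (a i) := by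
  have h := convexOn_exp.map_add_sum_le (t := S) (w := w) (p := a) (v := 1 - ∑ i ∈ S, w i)
    (q := 0) hw (by ring) (fun _ _ => Set.mem_univ _) (by linarith) (Set.mem_univ _)
  simp only [smul_eq_mul, mul_zero, zero_add, Real.exp_zero, mul_one] at h
  have : 0 ≤ ∑ i ∈ S, w i := Finset.sum_nonneg hw
  linarith

lemma d1b_osc_congr {ψ ψ' : V → ℝ} {z : V} {r : ℕ} (h : ∀ v ∈ ball z r, ψ v = ψ' v) :
    osc ψ z r = osc ψ' z r := by
  unfold osc
  apply Finset.sup'_congr _ rfl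
  intro x hx
  rw [h x hx, h z (by rw [mem_ball]; omega)]

lemma d1b_meas {Ω : Type*} [MeasurableSpace Ω] {W : Finset V} {Z : V → Ω → ℝ}
    (hm : ∀ v ∈ W, Measurable (Z v)) {z : V} {r : ℕ} (hb : ball z r ⊆ W) :
    Measurable (fun ω => osc (fun v => Z v ω) z r) := by
  have h1 : (fun ω => osc (fun v => Z v ω) z r) =
      fun ω => osc (fun v => if v ∈ W then Z v ω else 0) z r := by
    funext ω
    apply d1b_osc_congr
    intro v hv
    rw [if_pos (hb hv)]
  rw [h1]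
  refine (meas_osc z r).comp (measurable_pi_lambda _ fun v => ?_)
  by_cases hv : v ∈ W
  · simp only [hv, if_true]; exact hm v hv
  · simp only [hv, if_false]; exact measurable_const

/-- exponential moment of a weighted sum of oscillations of one field -/
lemma d1b_layer {C : ℝ} (hC0 : 0 < C)
    (hC : ∀ {Ω : Type} [MeasurableSpace Ω] (μ : Measure Ω)
    [IsProbabilityMeasure μ] (z : V) (r : ℕ) (σ : ℝ) (Z : V → Ω → ℝ) (c : V → V → ℝ),
    1 ≤ r → 0 < σ → GF μ (fun v : ball z r => Z v) (fun x y => c x y) →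
    (∀ x ∈ ball z r, ∀ w ∈ nb x, w ∈ ball z r → c x x - 2 * c x w + c w w ≤ (σ / r) ^ 2) →
    ∫⁻ ω, ENNReal.ofReal (Real.exp (osc (fun v => Z v ω) z r / σ)) ∂μ ≤ ENNReal.ofReal C)
    {W : Finset V} {Ω : Type} [MeasurableSpace Ω] {μ : Measure Ω} [IsProbabilityMeasure μ]
    {Z : V → Ω → ℝ} {c : V → V → ℝ} (hZ : GF μ (fun v : W => Z v) (fun x y => c x y))
    (S : Finset ℕ) (z : ℕ → V) (r : ℕ → ℕ) (σ : ℕ → ℝ) {θ : ℝ} (hθ : 0 ≤ θ)
    (hr : ∀ i ∈ S, 1 ≤ r i) (hσ : ∀ i ∈ S, 0 < σ i) (hb : ∀ i ∈ S, ball (z i) (r i) ⊆ W)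
    (hg : ∀ i ∈ S, ∀ x ∈ W, ∀ w ∈ nb x, w ∈ W → c x x - 2 * c x w + c w w ≤ (σ i / r i) ^ 2)
    (hw : ∑ i ∈ S, θ * σ i ≤ 1) :
    ∫⁻ ω, ENNReal.ofReal (Real.exp (θ * ∑ i ∈ S, osc (fun v => Z v ω) (z i) (r i))) ∂μ ≤
      ENNReal.ofReal (Real.exp (C * ∑ i ∈ S, θ * σ i)) := by
  have hw0 : ∀ i ∈ S, 0 ≤ θ * σ i := fun i hi => mul_nonneg hθ (hσ i hi).le
  have hmeas : ∀ i ∈ S, Measurable (fun ω => osc (fun v => Z v ω) (z i) (r i)) := fun i hi =>
    d1b_meas (fun v hv => hZ.meas ⟨v, hv⟩) (hb i hi)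
  have hpt : ∀ ω, ENNReal.ofReal (Real.exp (θ * ∑ i ∈ S, osc (fun v => Z v ω) (z i) (r i))) ≤
      1 + ∑ i ∈ S, ENNReal.ofReal (θ * σ i) *
        ENNReal.ofReal (Real.exp (osc (fun v => Z v ω) (z i) (r i) / σ i)) := by
    intro ω
    have h1 := d1b_exp S (fun i => θ * σ i) (fun i => osc (fun v => Z v ω) (z i) (r i) / σ i)
      hw0 hw
    have h2 : ∑ i ∈ S, θ * σ i * (osc (fun v => Z v ω) (z i) (r i) / σ i) =
        θ * ∑ i ∈ S, osc (fun v => Z v ω) (z i) (r i) := by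
      rw [Finset.mul_sum]
      apply Finset.sum_congr rfl
      intro i hi
      have := (hσ i hi).ne'
      field_simp
    rw [h2] at h1
    refine (ENNReal.ofReal_le_ofReal h1).trans ?_
    rw [ENNReal.ofReal_add zero_le_one (Finset.sum_nonneg fun i hi =>
      mul_nonneg (hw0 i hi) (Real.exp_nonneg _)), ENNReal.ofReal_one,
      ENNReal.ofReal_sum_of_nonneg (fun i hi => mul_nonneg (hw0 i hi) (Real.exp_nonneg _))]
    gcongr with i hi
    rw [ENNReal.ofReal_mul (hw0 i hi)]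
  refine (lintegral_mono hpt).trans ?_
  rw [lintegral_add_left measurable_const, lintegral_const, measure_univ, mul_one,
    lintegral_finsetSum' S (fun i hi => by
      refine (AEMeasurable.const_mul ?_ _)
      exact (((hmeas i hi).div_const _).exp.ennreal_ofReal).aemeasurable)]
  have h3 : ∀ i ∈ S, ∫⁻ ω, ENNReal.ofReal (θ * σ i) *
      ENNReal.ofReal (Real.exp (osc (fun v => Z v ω) (z i) (r i) / σ i)) ∂μ ≤
      ENNReal.ofReal (θ * σ i * C) := by
    intro i hi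
    rw [lintegral_const_mul' _ _ ENNReal.ofReal_ne_top, ENNReal.ofReal_mul (hw0 i hi)]
    gcongr
    refine hC μ (z i) (r i) (σ i) Z c (hr i hi) (hσ i hi) ?_ ?_
    · exact hZ.comp (fun v : ball (z i) (r i) => (⟨v, hb i hi v.2⟩ : W))
    · intro x hx w hw hw2
      exact hg i hi x (hb i hi hx) w hw (hb i hi hw2)
  refine (add_le_add_right (Finset.sum_le_sum h3) _).trans ?_
  rw [← ENNReal.ofReal_sum_of_nonneg (fun i hi => mul_nonneg (hw0 i hi) hC0.le),
    ← ENNReal.ofReal_one, ← ENNReal.ofReal_add zero_le_one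
      (Finset.sum_nonneg fun i hi => mul_nonneg (hw0 i hi) hC0.le)]
  apply ENNReal.ofReal_le_ofReal
  rw [← Finset.sum_mul, mul_comm _ C]
  have := Real.add_one_le_exp (C * ∑ i ∈ S, θ * σ i)
  linarith

lemma d1b_sum_pow (S : Finset ℕ) (k : ℕ → ℕ) (hinj : Set.InjOn k S) (M : ℕ)
    (hM : ∀ i ∈ S, k i ≤ M) : ∑ i ∈ S, (2 : ℝ) ^ k i ≤ 2 ^ (M + 1) := by
  rw [← Finset.sum_image (f := fun m => (2 : ℝ) ^ m) hinj]
  calc ∑ m ∈ S.image k, (2 : ℝ) ^ m ≤ ∑ m ∈ Finset.range (M + 1), (2 : ℝ) ^ m := by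
        apply Finset.sum_le_sum_of_subset_of_nonneg
        · intro m hm
          obtain ⟨i, hi, rfl⟩ := Finset.mem_image.1 hm
          rw [Finset.mem_range]
          have := hM i hi
          omega
        · intros; positivity
    _ ≤ 2 ^ (M + 1) := by
        rw [geom_sum_eq (by norm_num)]
        norm_num

lemma d1b_sum_inv (m J : ℕ) : ∑ j ∈ Finset.Ico m J, (1 : ℝ) / 2 ^ j ≤ 2 / 2 ^ m := by
  rw [Finset.sum_Ico_eq_sum_range]
  have h1 : ∀ i ∈ Finset.range (J - m), (1 : ℝ) / 2 ^ (m + i) = 1 / 2 ^ m * (1 / 2) ^ i := by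
    intro i _
    rw [pow_add, one_div_pow]
    field_simp
  rw [Finset.sum_congr rfl h1, ← Finset.mul_sum]
  have h2 := sum_geometric_two_le (J - m)
  calc 1 / 2 ^ m * ∑ i ∈ Finset.range (J - m), (1 / 2 : ℝ) ^ i ≤ 1 / 2 ^ m * 2 := by gcongr
    _ = 2 / 2 ^ m := by ring

lemma d1b_sum_ite {M : Type*} [AddCommMonoid M] (m J : ℕ) (F : ℕ → M) :
    ∑ j : Fin J, (if m ≤ (j : ℕ) then F j else 0) = ∑ j ∈ Finset.Ico m J, F j := by
  rw [Fin.sum_univ_eq_sum_range (fun j => if m ≤ j then F j else 0) J, ← Finset.sum_filter]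
  apply Finset.sum_congr _ fun _ _ => rfl
  ext j
  simp only [Finset.mem_filter, Finset.mem_range, Finset.mem_Ico]
  omega

section

variable {J : ℕ} {W : Finset V} {Ω : Type} [MeasurableSpace Ω] {μ : Measure Ω}
    [IsProbabilityMeasure μ] {X : ℕ → V → Ω → ℝ} {Y : V → Ω → ℝ} {Rc : V → V → ℝ}

/-- the fields: layers and remainder -/
def d1bF (J : ℕ) (X : ℕ → V → Ω → ℝ) (Y : V → Ω → ℝ) : Option (Fin J) → V → Ω → ℝ
  | some j => X j
  | none => Y

/-- the scales relevant for a field -/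
def d1bT (J : ℕ) (k : ℕ → ℕ) (T : Finset ℕ) : Option (Fin J) → Finset ℕ
  | some j => T.filter (fun i => k i - c0 ≤ j)
  | none => T

/-- the scale parameters -/
noncomputable def d1bS (J : ℕ) (k : ℕ → ℕ) : Option (Fin J) → ℕ → ℝ
  | some j => fun i => 24 * 2 ^ k i * (1 / 2 ^ (j : ℕ))
  | none => fun i => 36 * 2 ^ k i * (1 / 2 ^ J)

/-- index map -/
def d1bI (J : ℕ) (W : Finset V) : Option (Fin J) → W → (Fin J × W) ⊕ W
  | some j => fun v => Sum.inl (j, v)
  | none => fun v => Sum.inr v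

/-- the functional of one field, as a function of its values on `W` -/
noncomputable def d1bG (W : Finset V) (z : ℕ → V) (r : ℕ → ℕ) (θ : ℝ) (S : Finset ℕ)
    (x : W → ℝ) : ℝ≥0∞ :=
  ENNReal.ofReal (Real.exp (θ * ∑ i ∈ S,
    osc (fun v => if h : v ∈ W then x ⟨v, h⟩ else 0) (z i) (r i)))

lemma d1bG_meas (W : Finset V) (z : ℕ → V) (r : ℕ → ℕ) (θ : ℝ) (S : Finset ℕ) :
    Measurable (d1bG W z r θ S) := by
  unfold d1bG
  refine ((Finset.measurable_sum _ fun i _ => ?_).const_mul θ).exp.ennreal_ofReal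
  refine (meas_osc (z i) (r i)).comp (measurable_pi_lambda _ fun v => ?_)
  by_cases hv : v ∈ W
  · simp only [hv, dite_true]; exact measurable_pi_apply _
  · simp only [hv, dite_false]; exact measurable_const

lemma d1bG_eq {W : Finset V} {z : ℕ → V} {r : ℕ → ℕ} {θ : ℝ} {S : Finset ℕ}
    (hb : ∀ i ∈ S, ball (z i) (r i) ⊆ W) (ψ : V → ℝ) :
    d1bG W z r θ S (fun v => ψ v) =
      ENNReal.ofReal (Real.exp (θ * ∑ i ∈ S, osc ψ (z i) (r i))) := by
  unfold d1bG
  congr 3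
  apply Finset.sum_congr rfl
  intro i hi
  apply d1b_osc_congr
  intro v hv
  rw [dif_pos (hb i hi hv)]

/-- independence of the fields -/
lemma d1b_prod (h : IsLR J W μ X Y Rc) (z : ℕ → V) (r : ℕ → ℕ) (θ : ℝ)
    (S : Option (Fin J) → Finset ℕ) (hb : ∀ a, ∀ i ∈ S a, ball (z i) (r i) ⊆ W) :
    ∫⁻ ω, ENNReal.ofReal (Real.exp (θ * ∑ a, ∑ i ∈ S a,
      osc (fun v => d1bF J X Y a v ω) (z i) (r i))) ∂μ =
    ∏ a, ∫⁻ ω, ENNReal.ofReal (Real.exp (θ * ∑ i ∈ S a,
      osc (fun v => d1bF J X Y a v ω) (z i) (r i))) ∂μ := by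
  have h1 := h.iIndep (d1bI J W) (by
    intro a a' ha b b'
    cases a with
    | none =>
      cases a' with
      | none => exact absurd rfl ha
      | some j => rfl
    | some j =>
      cases a' with
      | none => rfl
      | some j' =>
        have hj : j ≠ j' := fun hjj => ha (by rw [hjj])
        simp only [d1bI, Sum.elim_inl]
        rw [if_neg hj])
  have h2 := h1.comp (fun a => d1bG W z r θ (S a)) (fun a => d1bG_meas W z r θ (S a))
  have h3 : ∀ a ω, (d1bG W z r θ (S a) ∘ fun ω (b : W) =>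
      (Sum.elim (fun p : Fin J × W => X p.1 p.2) (fun v : W => Y v) (d1bI J W a b)) ω) ω =
      ENNReal.ofReal (Real.exp (θ * ∑ i ∈ S a,
        osc (fun v => d1bF J X Y a v ω) (z i) (r i))) := by
    intro a ω
    rw [← d1bG_eq (hb a)]
    cases a <;> rfl
  have h4 := lintegral_prod_eq_prod_lintegral_of_indepFun Finset.univ _ h2 (fun a =>
    (d1bG_meas W z r θ (S a)).comp (measurable_pi_lambda _ fun b => h.meas _))
  simp only [h3] at h4
  rw [← h4]
  congr 1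
  funext ω
  rw [← ENNReal.ofReal_prod_of_nonneg (fun a _ => (Real.exp_nonneg _)), ← Real.exp_sum,
    ← Finset.mul_sum]

lemma d1b_kap {j : ℕ} {x w : V} (hw : w ∈ nb x) :
    kap j (x - x) - 2 * kap j (x - w) + kap j (w - w) ≤ 64 / 4 ^ j := by
  rw [sub_self, sub_self]
  have h1 : w - x ∈ nb 0 := by
    have h2 : (w - x) + x ∈ nb (0 + x) := by simpa using hw
    exact nb_add.1 h2
  have h3 : kap j (x - w) = kap j (w - x) := by
    rw [← neg_sub w x]
    exact kz_neg _ _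
  have h4 := kap_grad j h1
  rw [h3]
  have h5 : (64 : ℝ) / 4 ^ j = 2 * (32 / 4 ^ j) := by ring
  rw [h5]
  linarith

/-- exponential moment of all oscillations -/
lemma d1b_moment {C : ℝ} (hC0 : 0 < C)
    (hC : ∀ {Ω : Type} [MeasurableSpace Ω] (μ : Measure Ω)
    [IsProbabilityMeasure μ] (z : V) (r : ℕ) (σ : ℝ) (Z : V → Ω → ℝ) (c : V → V → ℝ),
    1 ≤ r → 0 < σ → GF μ (fun v : ball z r => Z v) (fun x y => c x y) →
    (∀ x ∈ ball z r, ∀ w ∈ nb x, w ∈ ball z r → c x x - 2 * c x w + c w w ≤ (σ / r) ^ 2) →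
    ∫⁻ ω, ENNReal.ofReal (Real.exp (osc (fun v => Z v ω) z r / σ)) ∂μ ≤ ENNReal.ofReal C)
    (h : IsLR J W μ X Y Rc)
    (hRc : ∀ x ∈ W, ∀ v ∈ nb x, Rc x x - 2 * Rc x v + Rc v v ≤ 128 / 4 ^ J)
    (k : ℕ → ℕ) (z : ℕ → V) (T : Finset ℕ) (hk : Set.InjOn k T)
    (hkJ : ∀ i ∈ T, c0 ≤ k i ∧ k i ≤ J) (hb : ∀ i ∈ T, ball (z i) (3 * 2 ^ k i) ⊆ W) :
    ∫⁻ ω, ENNReal.ofReal (Real.exp (1 / 1600 * ∑ a, ∑ i ∈ d1bT J k T a,
      osc (fun v => d1bF J X Y a v ω) (z i) (3 * 2 ^ k i))) ∂μ ≤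
    ENNReal.ofReal (Real.exp (C * T.card)) := by
  have hsub : ∀ a, d1bT J k T a ⊆ T := by
    intro a
    cases a with
    | none => exact Finset.Subset.refl _
    | some j => exact Finset.filter_subset _ _
  rw [d1b_prod h z (fun i => 3 * 2 ^ k i) (1 / 1600) (d1bT J k T)
    (fun a i hi => hb i (hsub a hi))]
  -- each factor
  have hfac : ∀ a, ∫⁻ ω, ENNReal.ofReal (Real.exp (1 / 1600 * ∑ i ∈ d1bT J k T a,
      osc (fun v => d1bF J X Y a v ω) (z i) (3 * 2 ^ k i))) ∂μ ≤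
      ENNReal.ofReal (Real.exp (C * ∑ i ∈ d1bT J k T a, 1 / 1600 * d1bS J k a i)) := by
    intro a
    cases a with
    | none =>
      have hGF : GF μ (fun v : W => Y v) (fun x y => Rc x y) := h.comp (fun v : W => Sum.inr v)
      refine d1b_layer hC0 hC hGF _ z (fun i => 3 * 2 ^ k i) (d1bS J k none) (by norm_num)
        (fun i _ => by have := Nat.one_le_two_pow (n := k i); omega)
        (fun i _ => by unfold d1bS; positivity) (fun i hi => hb i hi) ?_ ?_
      · intro i _ x hx w hw _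
        refine (hRc x hx w hw).trans ?_
        have e1 : d1bS J k none i / ((3 * 2 ^ k i : ℕ) : ℝ) = 12 * (1 / 2 ^ J) := by
          unfold d1bS
          push_cast
          field_simp
          norm_num
        rw [e1, mul_pow, one_div_pow, ← pow_mul, mul_comm J 2, pow_mul,
          show ((2 : ℝ) ^ 2) = 4 by norm_num, mul_one_div]
        gcongr
        norm_num
      · change ∑ i ∈ T, 1 / 1600 * (36 * 2 ^ k i * (1 / 2 ^ J)) ≤ 1
        have e1 : ∀ i ∈ T, (1 : ℝ) / 1600 * (36 * 2 ^ k i * (1 / 2 ^ J)) =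
            (36 / 1600 * (1 / 2 ^ J)) * 2 ^ k i := by
          intro i _; ring
        rw [Finset.sum_congr rfl e1, ← Finset.mul_sum]
        have e2 := d1b_sum_pow T k hk J (fun i hi => (hkJ i hi).2)
        calc (36 / 1600 * (1 / 2 ^ J)) * ∑ i ∈ T, (2 : ℝ) ^ k i ≤
            (36 / 1600 * (1 / 2 ^ J)) * 2 ^ (J + 1) := by gcongr
          _ = 72 / 1600 := by rw [pow_succ]; field_simp; norm_num
          _ ≤ 1 := by norm_num
    | some j =>
      have hGF : GF μ (fun v : W => X j v) (fun x y => kap j ((x : V) - (y : V))) := by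
        have h1 := h.comp (fun v : W => Sum.inl (j, v))
        simpa using h1
      refine d1b_layer (c := fun x y => kap j (x - y)) hC0 hC hGF _ z (fun i => 3 * 2 ^ k i)
        (d1bS J k (some j)) (by norm_num)
        (fun i _ => by have := Nat.one_le_two_pow (n := k i); omega)
        (fun i _ => by unfold d1bS; positivity) (fun i hi => hb i (hsub (some j) hi)) ?_ ?_
      · intro i _ x _ w hw _
        refine (d1b_kap hw).trans ?_
        have e1 : d1bS J k (some j) i / ((3 * 2 ^ k i : ℕ) : ℝ) = 8 * (1 / 2 ^ (j : ℕ)) := by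
          unfold d1bS
          push_cast
          field_simp
          norm_num
        rw [e1, mul_pow, one_div_pow, ← pow_mul, mul_comm (j : ℕ) 2, pow_mul]
        norm_num
        rw [div_eq_mul_inv]
      · change ∑ i ∈ T.filter (fun i => k i - c0 ≤ j),
          1 / 1600 * (24 * 2 ^ k i * (1 / 2 ^ (j : ℕ))) ≤ 1
        have e1 : ∀ i ∈ T.filter (fun i => k i - c0 ≤ j),
            (1 : ℝ) / 1600 * (24 * 2 ^ k i * (1 / 2 ^ (j : ℕ))) =
            (24 / 1600 * (1 / 2 ^ (j : ℕ))) * 2 ^ k i := by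
          intro i _; ring
        rw [Finset.sum_congr rfl e1, ← Finset.mul_sum]
        have e2 := d1b_sum_pow (T.filter (fun i => k i - c0 ≤ j)) k
          (hk.mono (by intro i hi; exact (Finset.mem_filter.1 hi).1)) (j + 4) (fun i hi => by
            have h1 := (Finset.mem_filter.1 hi).2
            have h2 : c0 = 4 := rfl
            omega)
        calc (24 / 1600 * (1 / 2 ^ (j : ℕ))) * ∑ i ∈ T.filter (fun i => k i - c0 ≤ j),
              (2 : ℝ) ^ k i ≤ (24 / 1600 * (1 / 2 ^ (j : ℕ))) * 2 ^ ((j : ℕ) + 4 + 1) := by gcongr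
          _ = 768 / 1600 := by rw [pow_succ, pow_add]; field_simp; norm_num
          _ ≤ 1 := by norm_num
  refine (Finset.prod_le_prod' fun a _ => hfac a).trans ?_
  rw [← ENNReal.ofReal_prod_of_nonneg (fun a _ => (Real.exp_nonneg _)), ← Real.exp_sum,
    ← Finset.mul_sum]
  apply ENNReal.ofReal_le_ofReal
  apply Real.exp_le_exp.2
  apply mul_le_mul_of_nonneg_left _ hC0.le
  rw [Fintype.sum_option]
  have e1 : ∑ i ∈ d1bT J k T none, 1 / 1600 * d1bS J k none i ≤ ∑ i ∈ T, (36 : ℝ) / 1600 := by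
    apply Finset.sum_le_sum
    intro i hi
    have h1 : (2 : ℝ) ^ k i ≤ 2 ^ J := pow_le_pow_right₀ (by norm_num) (hkJ i hi).2
    change 1 / 1600 * (36 * 2 ^ k i * (1 / 2 ^ J)) ≤ _
    have h2 : (2 : ℝ) ^ k i * (1 / 2 ^ J) ≤ 1 := by
      rw [mul_one_div, div_le_one (by positivity)]; exact h1
    linarith
  have e2 : ∑ j : Fin J, ∑ i ∈ d1bT J k T (some j), 1 / 1600 * d1bS J k (some j) i =
      ∑ i ∈ T, ∑ j ∈ Finset.Ico (k i - c0) J, 1 / 1600 * (24 * 2 ^ k i * ((1 : ℝ) / 2 ^ j)) := by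
    have e3 : ∀ j : Fin J, ∑ i ∈ d1bT J k T (some j), 1 / 1600 * d1bS J k (some j) i =
        ∑ i ∈ T, if k i - c0 ≤ (j : ℕ) then 1 / 1600 * (24 * 2 ^ k i * ((1 : ℝ) / 2 ^ (j : ℕ)))
          else 0 := by
      intro j
      exact Finset.sum_filter _ _
    rw [Finset.sum_congr rfl fun j _ => e3 j, Finset.sum_comm]
    apply Finset.sum_congr rfl
    intro i _
    exact d1b_sum_ite (k i - c0) J (fun j => 1 / 1600 * (24 * 2 ^ k i * ((1 : ℝ) / 2 ^ j)))
  have e4 : ∑ i ∈ T, ∑ j ∈ Finset.Ico (k i - c0) J,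
      1 / 1600 * (24 * 2 ^ k i * ((1 : ℝ) / 2 ^ j)) ≤ ∑ i ∈ T, (768 : ℝ) / 1600 := by
    apply Finset.sum_le_sum
    intro i hi
    have h1 := d1b_sum_inv (k i - c0) J
    have h2 : ∑ j ∈ Finset.Ico (k i - c0) J, 1 / 1600 * (24 * 2 ^ k i * ((1 : ℝ) / 2 ^ j)) =
        (24 / 1600 * 2 ^ k i) * ∑ j ∈ Finset.Ico (k i - c0) J, (1 : ℝ) / 2 ^ j := by
      rw [Finset.mul_sum]
      apply Finset.sum_congr rfl
      intro j _
      ring
    rw [h2]
    have h3 : (2 : ℝ) ^ k i = 16 * 2 ^ (k i - c0) := by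
      have h4 := (hkJ i hi).1
      have h5 : c0 = 4 := rfl
      have h6 : k i = (k i - c0) + 4 := by omega
      conv_lhs => rw [h6, pow_add]
      norm_num
      ring
    calc (24 / 1600 * 2 ^ k i) * ∑ j ∈ Finset.Ico (k i - c0) J, (1 : ℝ) / 2 ^ j ≤
        (24 / 1600 * 2 ^ k i) * (2 / 2 ^ (k i - c0)) := by gcongr
      _ = 768 / 1600 := by
        rw [h3]
        field_simp
        norm_num
  rw [e2]
  rw [Finset.sum_const, nsmul_eq_mul] at e1 e4
  have h0 : (0 : ℝ) ≤ T.card := Nat.cast_nonneg _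
  linarith

end

/-- large oscillations at many scales -/
theorem osc_fail : ∃ K0 : ℝ, 1 ≤ K0 ∧ ∀ K : ℝ, K0 ≤ K → ∀ {J : ℕ} {W : Finset V} {Ω : Type}
    [MeasurableSpace Ω] {μ : Measure Ω} [IsProbabilityMeasure μ] {X : ℕ → V → Ω → ℝ}
    {Y : V → Ω → ℝ} {Rc : V → V → ℝ}, IsLR J W μ X Y Rc →
    (∀ x ∈ W, ∀ v ∈ nb x, Rc x x - 2 * Rc x v + Rc v v ≤ 128 / 4 ^ J) →
    ∀ {n : ℕ} (k : ℕ → ℕ) (z : ℕ → V), (∀ i j, i < j → j < n → k i < k j) →
    (∀ i < n, c0 ≤ k i ∧ k i ≤ J) → (∀ i < n, ball (z i) (3 * 2 ^ k i) ⊆ W) →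
    ∀ (T : Finset ℕ), (∀ i ∈ T, i < n) →
    μ {ω | ∀ i ∈ T, K < ∑ j ∈ Finset.Ico (k i - c0) J, osc (fun v => X j v ω) (z i) (3 * 2 ^ k i) +
        osc (fun v => Y v ω) (z i) (3 * 2 ^ k i)} ≤
      ENNReal.ofReal ((1 / 216) ^ T.card) := by
  obtain ⟨C, hC0, hC⟩ := osc_moment
  refine ⟨max 1 (1600 * (C + Real.log 216)), le_max_left _ _, ?_⟩
  intro K hK J W Ω _ μ _ X Y Rc h hRc n k z hk hkJ hb T hT
  have hKC : 1600 * (C + Real.log 216) ≤ K := (le_max_right _ _).trans hK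
  have hinj : Set.InjOn k T := by
    intro i hi j hj hij
    rcases lt_trichotomy i j with h1 | h1 | h1
    · exact absurd hij (hk i j h1 (hT j hj)).ne
    · exact h1
    · exact absurd hij.symm (hk j i h1 (hT i hi)).ne
  have key := d1b_moment hC0 hC h hRc k z T hinj (fun i hi => hkJ i (hT i hi))
    (fun i hi => hb i (hT i hi))
  set f : Ω → ℝ≥0∞ := fun ω => ENNReal.ofReal (Real.exp (1 / 1600 * ∑ a, ∑ i ∈ d1bT J k T a,
      osc (fun v => d1bF J X Y a v ω) (z i) (3 * 2 ^ k i))) with hf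
  have hsum : ∀ ω, ∑ a, ∑ i ∈ d1bT J k T a,
      osc (fun v => d1bF J X Y a v ω) (z i) (3 * 2 ^ k i) =
      ∑ i ∈ T, (∑ j ∈ Finset.Ico (k i - c0) J, osc (fun v => X j v ω) (z i) (3 * 2 ^ k i) +
        osc (fun v => Y v ω) (z i) (3 * 2 ^ k i)) := by
    intro ω
    rw [Fintype.sum_option, Finset.sum_add_distrib, add_comm]
    congr 1
    have e3 : ∀ j : Fin J, ∑ i ∈ d1bT J k T (some j),
        osc (fun v => d1bF J X Y (some j) v ω) (z i) (3 * 2 ^ k i) =
        ∑ i ∈ T, if k i - c0 ≤ (j : ℕ) then osc (fun v => X j v ω) (z i) (3 * 2 ^ k i)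
          else 0 := by
      intro j
      exact Finset.sum_filter _ _
    rw [Finset.sum_congr rfl fun j _ => e3 j, Finset.sum_comm]
    apply Finset.sum_congr rfl
    intro i _
    exact d1b_sum_ite (k i - c0) J (fun j => osc (fun v => X j v ω) (z i) (3 * 2 ^ k i))
  have hfm : Measurable f := by
    have hW1 : ∀ a, ∀ v ∈ W, Measurable (d1bF J X Y a v) := by
      intro a v hv
      cases a with
      | none => exact h.meas (Sum.inr ⟨v, hv⟩)
      | some j => exact h.meas (Sum.inl (j, ⟨v, hv⟩))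
    have hsub : ∀ a, d1bT J k T a ⊆ T := by
      intro a
      cases a with
      | none => exact Finset.Subset.refl _
      | some j => exact Finset.filter_subset _ _
    refine ((Finset.measurable_sum _ fun a _ => Finset.measurable_sum _ fun i hi => ?_).const_mul
      _).exp.ennreal_ofReal
    exact d1b_meas (hW1 a) (hb i (hT i (hsub a hi)))
  have hsubset : {ω | ∀ i ∈ T, K < ∑ j ∈ Finset.Ico (k i - c0) J,
      osc (fun v => X j v ω) (z i) (3 * 2 ^ k i) + osc (fun v => Y v ω) (z i) (3 * 2 ^ k i)} ⊆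
      {ω | ENNReal.ofReal (Real.exp (1 / 1600 * (T.card * K))) ≤ f ω} := by
    intro ω hω
    apply ENNReal.ofReal_le_ofReal
    apply Real.exp_le_exp.2
    apply mul_le_mul_of_nonneg_left _ (by norm_num)
    rw [hsum]
    calc (T.card : ℝ) * K = ∑ i ∈ T, K := by rw [Finset.sum_const, nsmul_eq_mul]
      _ ≤ _ := Finset.sum_le_sum fun i hi => (hω i hi).le
  refine (measure_mono hsubset).trans ?_
  refine (meas_ge_le_lintegral_div hfm.aemeasurable
    (ENNReal.ofReal_pos.2 (Real.exp_pos _)).ne' ENNReal.ofReal_ne_top).trans ?_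
  refine (ENNReal.div_le_div_right key _).trans ?_
  rw [← ENNReal.ofReal_div_of_pos (Real.exp_pos _), ← Real.exp_sub]
  apply ENNReal.ofReal_le_ofReal
  have h216 : (1 / 216 : ℝ) ^ T.card = Real.exp (-(Real.log 216) * T.card) := by
    rw [mul_comm, Real.exp_nat_mul]
    congr 1
    rw [Real.exp_neg, Real.exp_log (by norm_num)]
    norm_num
  rw [h216]
  apply Real.exp_le_exp.2
  have h0 : (0 : ℝ) ≤ T.card := Nat.cast_nonneg _
  nlinarith

end Pool.H92.GFL
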