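import Pool.Agent.helper92.GFL.Defs

namespace Pool.H92.GFL

open Function Finset MeasureTheory ProbabilityTheory Pool.H92.GFF
open scoped Classical ENNReal NNReal

/-- anti-concentration -/
theorem gauss_anti {Ω : Type*} [MeasurableSpace Ω] {μ : Measure Ω} {Y : Ω → ℝ}
    (hY : HasGaussianLaw Y μ) (h0 : ∫ ω, Y ω ∂μ = 0) {v a b : ℝ} (hv : 0 < v)
    (hvar : v ≤ Var[Y; μ]) (hab : a ≤ b) :
    μ {ω | Y ω ∈ Set.Icc a b} ≤ ENNReal.ofReal ((b - a) / √v) := by
  have hm : AEMeasurable Y μ := hY.aemeasurable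
  have e1 : μ {ω | Y ω ∈ Set.Icc a b} = (μ.map Y) (Set.Icc a b) := by
    rw [Measure.map_apply_of_aemeasurable hm measurableSet_Icc]; rfl
  rw [e1, hY.map_eq_gaussianReal, h0]
  have hvn : (Var[Y; μ]).toNNReal ≠ 0 := by
    rw [Ne, Real.toNNReal_eq_zero, not_le]; linarith
  rw [gaussianReal_apply _ hvn]
  have hb : ∀ x, gaussianPDF 0 (Var[Y; μ]).toNNReal x ≤ ENNReal.ofReal (1 / √v) := by
    intro x
    rw [gaussianPDF]
    apply ENNReal.ofReal_le_ofReal
    rw [gaussianPDFReal]
    have h1 : Real.exp (-(x - 0) ^ 2 / (2 * ((Var[Y; μ]).toNNReal : ℝ))) ≤ 1 := by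
      rw [Real.exp_le_one_iff]
      apply div_nonpos_of_nonpos_of_nonneg
      · nlinarith [sq_nonneg (x - 0)]
      · positivity
    have h2 : (√(2 * Real.pi * ((Var[Y; μ]).toNNReal : ℝ)))⁻¹ ≤ 1 / √v := by
      rw [one_div]
      apply inv_anti₀ (Real.sqrt_pos.2 hv)
      apply Real.sqrt_le_sqrt
      rw [Real.coe_toNNReal _ (by linarith)]
      nlinarith [Real.pi_gt_three]
    calc _ ≤ (√(2 * Real.pi * ((Var[Y; μ]).toNNReal : ℝ)))⁻¹ * 1 :=
          mul_le_mul_of_nonneg_left h1 (by positivity)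
      _ ≤ 1 / √v := by rw [mul_one]; exact h2
  calc ∫⁻ x in Set.Icc a b, gaussianPDF 0 (Var[Y; μ]).toNNReal x
      ≤ ∫⁻ x in Set.Icc a b, ENNReal.ofReal (1 / √v) := lintegral_mono fun x => hb x
    _ = ENNReal.ofReal (1 / √v) * volume (Set.Icc a b) := by rw [setLIntegral_const]
    _ = ENNReal.ofReal ((b - a) / √v) := by
        rw [Real.volume_Icc, ← ENNReal.ofReal_mul (by positivity)]
        congr 1
        ring

lemma gaussianReal_Iic_zero {v : ℝ≥0} (hv : v ≠ 0) : gaussianReal 0 v (Set.Iic 0) = 1 / 2 := by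
  have := nullSingletonClass_gaussianReal (μ := 0) hv
  have h1 : gaussianReal 0 v (Set.Iic 0) = gaussianReal 0 v (Set.Ioi 0) := by
    have e : gaussianReal 0 v = (gaussianReal 0 v).map (fun x => -x) := by
      rw [gaussianReal_map_neg]; simp
    conv_lhs => rw [e]
    rw [Measure.map_apply measurable_neg measurableSet_Iic]
    have : (fun x : ℝ => -x) ⁻¹' Set.Iic 0 = Set.Ici 0 := by ext x; simp
    rw [this]
    exact (measure_congr Ioi_ae_eq_Ici).symm
  have h2 : gaussianReal 0 v (Set.Iic 0) + gaussianReal 0 v (Set.Ioi 0) = 1 := by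
    rw [← measure_union (by rw [Set.disjoint_left]; intro x hx hx'; simp at hx hx'; linarith) measurableSet_Ioi,
      Set.Iic_union_Ioi, measure_univ]
  rw [← h1] at h2
  have h3 : 2 * gaussianReal 0 v (Set.Iic 0) = 1 := by rw [two_mul]; exact h2
  rw [ENNReal.eq_div_iff (by norm_num) (by norm_num)]
  exact h3

lemma gaussianReal_tail {v : ℝ≥0} (hv : v ≠ 0) {x : ℝ} (hx : 0 ≤ x) (hx1 : x ≤ 1) {m : ℝ}
    (hm : x * √(v : ℝ) ≤ m) : gaussianReal m v (Set.Iic 0) ≤ ENNReal.ofReal (1 / 2 - x / 5) := by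
  have hv0 : (0 : ℝ) < v := by
    have := pos_iff_ne_zero.2 hv
    exact_mod_cast this
  set s := √(v : ℝ) with hs
  have hs0 : 0 < s := Real.sqrt_pos.2 hv0
  have hs2 : s ^ 2 = v := Real.sq_sqrt hv0.le
  have e1 : gaussianReal m v (Set.Iic 0) = gaussianReal 0 v (Set.Iic (-m)) := by
    have := gaussianReal_map_add_const (μ := 0) (v := v) m
    rw [zero_add] at this
    rw [← this, Measure.map_apply (measurable_add_const m) measurableSet_Iic]
    congr 1
    ext y; simp
  rw [e1]
  have h1 : gaussianReal 0 v (Set.Iic (-m)) ≤ gaussianReal 0 v (Set.Iic (-(x * s))) :=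
    measure_mono (Set.Iic_subset_Iic.2 (by linarith))
  refine h1.trans ?_
  have h2 : gaussianReal 0 v (Set.Iic (-(x * s))) + gaussianReal 0 v (Set.Ioc (-(x * s)) 0) = 1 / 2 := by
    rw [← gaussianReal_Iic_zero hv, ← measure_union _ measurableSet_Ioc, Set.Iic_union_Ioc_eq_Iic]
    · have := mul_nonneg hx hs0.le; linarith
    · rw [Set.disjoint_left]; intro y hy hy'; simp at hy hy'; linarith [hy'.1]
  have h3 : ENNReal.ofReal (x / 5) ≤ gaussianReal 0 v (Set.Ioc (-(x * s)) 0) := by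
    rw [gaussianReal_apply _ hv]
    have hb : ∀ y ∈ Set.Ioc (-(x * s)) 0, ENNReal.ofReal (1 / (5 * s)) ≤ gaussianPDF 0 v y := by
      intro y hy
      rw [gaussianPDF]
      apply ENNReal.ofReal_le_ofReal
      rw [gaussianPDFReal]
      have hy2 : y ^ 2 ≤ s ^ 2 := by
        have : -s ≤ y := by nlinarith [hy.1]
        nlinarith [hy.2]
      have h1 : Real.exp (-(1/2 : ℝ)) ≤ Real.exp (-(y - 0) ^ 2 / (2 * (v : ℝ))) := by
        apply Real.exp_le_exp.2
        rw [sub_zero, le_div_iff₀ (by positivity), ← hs2]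
        nlinarith
      have h2 : √(2 * Real.pi * (v : ℝ)) = √(2 * Real.pi) * s := by
        rw [Real.sqrt_mul (by positivity)]
      rw [h2]
      have h4 : √(2 * Real.pi) ≤ 2.6 := by
        rw [Real.sqrt_le_left (by norm_num)]
        nlinarith [Real.pi_lt_d2]
      have h5 : Real.exp (1/2 : ℝ) ≤ 1.7 := by
        have h := Real.exp_one_lt_d9
        have h6 : Real.exp (1/2 : ℝ) ^ 2 = Real.exp 1 := by
          rw [← Real.exp_nat_mul]; norm_num
        nlinarith [Real.exp_pos (1/2 : ℝ)]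
      have h6 : (1 : ℝ) / 1.7 ≤ Real.exp (-(1/2 : ℝ)) := by
        rw [Real.exp_neg, one_div]
        exact inv_anti₀ (Real.exp_pos _) h5
      calc 1 / (5 * s) ≤ (2.6 * s)⁻¹ * (1 / 1.7) := by
            rw [one_div, mul_inv, mul_inv]
            have : 0 < s⁻¹ := inv_pos.2 hs0
            nlinarith
        _ ≤ (√(2 * Real.pi) * s)⁻¹ * Real.exp (-(y - 0) ^ 2 / (2 * (v : ℝ))) := by
            apply mul_le_mul
            · apply inv_anti₀ (by positivity)
              exact mul_le_mul_of_nonneg_right h4 hs0.le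
            · exact h6.trans h1
            · positivity
            · positivity
    calc ENNReal.ofReal (x / 5) = ENNReal.ofReal (1 / (5 * s)) * volume (Set.Ioc (-(x * s)) 0) := by
          rw [Real.volume_Ioc, ← ENNReal.ofReal_mul (by positivity)]
          congr 1
          field_simp
          ring
      _ = ∫⁻ y in Set.Ioc (-(x * s)) 0, ENNReal.ofReal (1 / (5 * s)) := by rw [setLIntegral_const]
      _ ≤ _ := setLIntegral_mono (measurable_gaussianPDF 0 v) hb
  have h4 : gaussianReal 0 v (Set.Iic (-(x * s))) + ENNReal.ofReal (x / 5) ≤ 1 / 2 := by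
    rw [← h2]; gcongr
  have h5 : ENNReal.ofReal (1 / 2 - x / 5) = 1 / 2 - ENNReal.ofReal (x / 5) := by
    rw [ENNReal.ofReal_sub _ (by positivity)]
    congr 1
    rw [ENNReal.ofReal_div_of_pos (by norm_num)]; simp
  rw [h5]
  exact ENNReal.le_sub_of_add_le_right ENNReal.ofReal_ne_top h4

/-- the exponential tilting estimate -/
theorem half_girsanov {Ω : Type*} [MeasurableSpace Ω] {μ : Measure Ω} {X g : Ω → ℝ}
    (hXg : HasGaussianLaw (fun ω => (X ω, g ω)) μ) (hX0 : ∫ ω, X ω ∂μ = 0)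
    (hg0 : ∫ ω, g ω ∂μ = 0) {θ β : ℝ} (hθ : 0 ≤ θ) (hβ : 0 ≤ β) (hg : 0 < Var[g; μ])
    (hc : β * √(Var[g; μ]) ≤ cov[X, g; μ]) (h1 : θ * β ≤ 1) :
    ∫⁻ ω in {ω | g ω ≤ 0}, ENNReal.ofReal (Real.exp (θ * X ω)) ∂μ ≤
      ENNReal.ofReal (Real.exp (θ ^ 2 * Var[X; μ] / 2) * (1 / 2 - θ * β / 5)) := by
  have := hXg.isProbabilityMeasure
  have hXG := hXg.fst
  have hgG := hXg.snd
  set V := Var[g; μ] with hV
  set c := cov[X, g; μ] with hcdef
  set b := c / V with hb
  set W : Ω → ℝ := fun ω => X ω - b * g ω with hW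
  have hXm := hXG.memLp_two
  have hgm := hgG.memLp_two
  -- W and g independent
  have hWg : HasGaussianLaw (fun ω => (W ω, g ω)) μ := by
    let L : ℝ × ℝ →L[ℝ] ℝ × ℝ :=
      (ContinuousLinearMap.fst ℝ ℝ ℝ - b • ContinuousLinearMap.snd ℝ ℝ ℝ).prod
        (ContinuousLinearMap.snd ℝ ℝ ℝ)
    exact hXg.map L
  have hWG := hWg.fst
  have hcov : cov[W, g; μ] = 0 := by
    rw [hW, covariance_fun_sub_left hXm (hgm.const_mul b) hgm, covariance_const_mul_left,
      covariance_self hgm.aestronglyMeasurable.aemeasurable, ← hV, ← hcdef, hb]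
    field_simp
    ring
  have hind : IndepFun W g μ := hWg.indepFun_of_covariance_eq_zero hcov
  have hW0 : ∫ ω, W ω ∂μ = 0 := by
    rw [hW, integral_sub hXG.integrable (hgG.integrable.const_mul b), integral_const_mul, hX0, hg0]
    ring
  have hVW : Var[W; μ] = Var[X; μ] - b * c := by
    rw [hW, variance_fun_sub hXm (hgm.const_mul b), variance_const_mul, covariance_const_mul_right,
      ← hV, ← hcdef, hb]
    field_simp
    ring
  -- the two factors
  have hWmap := hWG.map_eq_gaussianReal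
  have hgmap := hgG.map_eq_gaussianReal
  rw [hW0] at hWmap
  rw [hg0, ← hV] at hgmap
  have hgae : AEMeasurable g μ := hgG.aemeasurable
  have hWae : AEMeasurable W μ := hWG.aemeasurable
  have hVpos : V.toNNReal ≠ 0 := by
    rw [Ne, Real.toNNReal_eq_zero, not_le]; exact hg
  have hVcoe : ((V.toNNReal : ℝ≥0) : ℝ) = V := Real.coe_toNNReal _ hg.le
  have F1 : ∫⁻ ω, ENNReal.ofReal (Real.exp (θ * W ω)) ∂μ = ENNReal.ofReal (Real.exp (θ ^ 2 * Var[W; μ] / 2)) := by
    have hm := mgf_gaussianReal hWmap θ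
    have hi : Integrable (fun ω => Real.exp (θ * W ω)) μ := by
      have h2 := integrable_exp_mul_gaussianReal (μ := 0) (v := Var[W; μ].toNNReal) θ
      rw [← hWmap] at h2
      exact h2.comp_aemeasurable hWae
    rw [← ofReal_integral_eq_lintegral_ofReal hi (ae_of_all _ fun _ => (Real.exp_pos _).le)]
    congr 1
    rw [mgf] at hm
    rw [hm, Real.coe_toNNReal _ (variance_nonneg _ _)]
    congr 1
    ring
  have F2 : ∫⁻ ω, (Set.Iic (0:ℝ)).indicator (fun y => ENNReal.ofReal (Real.exp (θ * b * y))) (g ω) ∂μ ≤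
      ENNReal.ofReal (Real.exp ((θ * b) ^ 2 * V / 2) * (1 / 2 - θ * β / 5)) := by
    have hmeas : Measurable ((Set.Iic (0:ℝ)).indicator
        (fun y => ENNReal.ofReal (Real.exp (θ * b * y)))) := by
      apply Measurable.indicator _ measurableSet_Iic
      fun_prop
    have e1 : ∫⁻ ω, (Set.Iic (0:ℝ)).indicator (fun y => ENNReal.ofReal (Real.exp (θ * b * y))) (g ω) ∂μ
        = ∫⁻ y, (Set.Iic (0:ℝ)).indicator (fun y => ENNReal.ofReal (Real.exp (θ * b * y))) y
            ∂(μ.map g) := by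
      rw [lintegral_map' hmeas.aemeasurable hgae]
    rw [e1, hgmap, gaussianReal_of_var_ne_zero _ hVpos,
      lintegral_withDensity_eq_lintegral_mul _ (measurable_gaussianPDF _ _) hmeas]
    have e2 : ∀ y, (gaussianPDF 0 V.toNNReal * (Set.Iic (0:ℝ)).indicator
        (fun y => ENNReal.ofReal (Real.exp (θ * b * y)))) y =
        ENNReal.ofReal (Real.exp ((θ * b) ^ 2 * V / 2)) *
          (Set.Iic (0:ℝ)).indicator (gaussianPDF (θ * c) V.toNNReal) y := by
      intro y
      by_cases hy : y ∈ Set.Iic (0:ℝ)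
      · rw [Pi.mul_apply, Set.indicator_of_mem hy, Set.indicator_of_mem hy, gaussianPDF, gaussianPDF,
          ← ENNReal.ofReal_mul (gaussianPDFReal_nonneg _ _ _), ← ENNReal.ofReal_mul (Real.exp_pos _).le]
        congr 1
        rw [gaussianPDFReal, gaussianPDFReal, mul_assoc, ← Real.exp_add, mul_left_comm,
          ← Real.exp_add]
        congr 2
        rw [hVcoe, hb]
        field_simp
        ring
      · rw [Pi.mul_apply, Set.indicator_of_notMem hy, Set.indicator_of_notMem hy, mul_zero, mul_zero]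
    rw [lintegral_congr e2, lintegral_const_mul _
      ((measurable_gaussianPDF _ _).indicator measurableSet_Iic), lintegral_indicator measurableSet_Iic,
      ← gaussianReal_apply _ hVpos, ENNReal.ofReal_mul (Real.exp_pos _).le]
    gcongr
    apply gaussianReal_tail hVpos (mul_nonneg hθ hβ) h1
    rw [hVcoe, mul_assoc]
    exact mul_le_mul_of_nonneg_left hc hθ
  have F3 : ∫⁻ ω in {ω | g ω ≤ 0}, ENNReal.ofReal (Real.exp (θ * X ω)) ∂μ =
      (∫⁻ ω, ENNReal.ofReal (Real.exp (θ * W ω)) ∂μ) *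
      ∫⁻ ω, (Set.Iic (0:ℝ)).indicator (fun y => ENNReal.ofReal (Real.exp (θ * b * y))) (g ω) ∂μ := by
    have hmeas : Measurable ((Set.Iic (0:ℝ)).indicator
        (fun y => ENNReal.ofReal (Real.exp (θ * b * y)))) := by
      apply Measurable.indicator _ measurableSet_Iic
      fun_prop
    have hmeas2 : Measurable (fun y : ℝ => ENNReal.ofReal (Real.exp (θ * y))) := by fun_prop
    have hns : NullMeasurableSet {ω | g ω ≤ 0} μ :=
      nullMeasurableSet_le hgae aemeasurable_const
    rw [← lintegral_indicator₀ hns]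
    have hi2 := hind.comp hmeas2 hmeas
    have := lintegral_mul_eq_lintegral_mul_lintegral_of_indepFun''
      (μ := μ) (f := fun ω => ENNReal.ofReal (Real.exp (θ * W ω)))
      (g := fun ω => (Set.Iic (0:ℝ)).indicator (fun y => ENNReal.ofReal (Real.exp (θ * b * y))) (g ω))
      (hmeas2.comp_aemeasurable hWae) (hmeas.comp_aemeasurable hgae) hi2
    rw [← this]
    apply lintegral_congr
    intro ω
    by_cases hy : g ω ≤ 0
    · rw [Set.indicator_of_mem (show ω ∈ {ω | g ω ≤ 0} from hy)]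
      rw [Set.indicator_of_mem (show g ω ∈ Set.Iic (0:ℝ) from hy), ← ENNReal.ofReal_mul (Real.exp_pos _).le,
        ← Real.exp_add]
      congr 2
      simp only [hW]
      ring
    · rw [Set.indicator_of_notMem (show ω ∉ {ω | g ω ≤ 0} from hy)]
      rw [Set.indicator_of_notMem (show g ω ∉ Set.Iic (0:ℝ) from hy), mul_zero]
  rw [F3, F1]
  calc _ ≤ ENNReal.ofReal (Real.exp (θ ^ 2 * Var[W; μ] / 2)) *
        ENNReal.ofReal (Real.exp ((θ * b) ^ 2 * V / 2) * (1 / 2 - θ * β / 5)) := by gcongr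
    _ = _ := by
        rw [← ENNReal.ofReal_mul (Real.exp_pos _).le, ← mul_assoc, ← Real.exp_add]
        congr 3
        rw [hVW, hb]
        field_simp
        ring

end Pool.H92.GFL
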