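import Pool.Agent.helper92.GFL.Defs3
import Pool.Agent.helper92.GFL.L1
import Pool.Agent.helper92.GFL.L1b
import Pool.Agent.helper92.GFL.K4

namespace Pool.H92.GFL

open Function Finset MeasureTheory ProbabilityTheory Pool.H92.GFF
open scoped Classical ENNReal

/-- conditioning on an independent variable -/
lemma d1c_indep {Ω β : Type*} [MeasurableSpace Ω] [MeasurableSpace β] {μ : Measure Ω}
    [IsProbabilityMeasure μ] {A : Ω → ℝ} {R : Ω → β} (hA : Measurable A) (hR : Measurable R)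
    (hi : IndepFun A R μ) {f : β → ℝ} (hf : Measurable f) {O : Set β} (hO : MeasurableSet O)
    {a b : ℝ} {q : ℝ≥0∞} (hq : ∀ d : ℝ, μ {ω | A ω ∈ Set.Icc (a - d) (b - d)} ≤ q) :
    μ {ω | A ω + f (R ω) ∈ Set.Icc a b ∧ R ω ∈ O} ≤ q * μ {ω | R ω ∈ O} := by
  set S : Set (ℝ × β) := {p | p.1 + f p.2 ∈ Set.Icc a b ∧ p.2 ∈ O} with hS
  have hSm : MeasurableSet S :=
    ((measurable_fst.add (hf.comp measurable_snd)) measurableSet_Icc).inter (measurable_snd hO)
  have h1 : μ {ω | A ω + f (R ω) ∈ Set.Icc a b ∧ R ω ∈ O} =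
      (μ.map (fun ω => (A ω, R ω))) S := by
    rw [Measure.map_apply (hA.prodMk hR) hSm]
    rfl
  have h2 := (indepFun_iff_map_prod_eq_prod_map_map hA.aemeasurable hR.aemeasurable).1 hi
  have : IsProbabilityMeasure (μ.map A) := Measure.isProbabilityMeasure_map hA.aemeasurable
  have : IsProbabilityMeasure (μ.map R) := Measure.isProbabilityMeasure_map hR.aemeasurable
  rw [h1, h2, Measure.prod_apply_symm hSm]
  calc ∫⁻ y, (μ.map A) ((fun x => (x, y)) ⁻¹' S) ∂(μ.map R)
      ≤ ∫⁻ y, O.indicator (fun _ => q) y ∂(μ.map R) := by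
        apply lintegral_mono
        intro y
        by_cases hy : y ∈ O
        · rw [Set.indicator_of_mem hy]
          have h3 : (fun x => (x, y)) ⁻¹' S = Set.Icc (a - f y) (b - f y) := by
            ext x
            change (a ≤ x + f y ∧ x + f y ≤ b) ∧ y ∈ O ↔ _
            rw [Set.mem_Icc]
            constructor
            · rintro ⟨⟨h4, h5⟩, -⟩
              constructor <;> linarith
            · rintro ⟨h4, h5⟩
              exact ⟨⟨by linarith, by linarith⟩, hy⟩
          change (μ.map A) ((fun x => (x, y)) ⁻¹' S) ≤ q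
          rw [h3, Measure.map_apply hA measurableSet_Icc]
          exact hq (f y)
        · rw [Set.indicator_of_notMem hy]
          have h3 : (fun x => (x, y)) ⁻¹' S = ∅ := by
            rw [Set.eq_empty_iff_forall_notMem]
            exact fun x hx => hy hx.2
          change (μ.map A) ((fun x => (x, y)) ⁻¹' S) ≤ 0
          rw [h3, measure_empty]
    _ = q * μ {ω | R ω ∈ O} := by
        rw [lintegral_indicator hO, setLIntegral_const, Measure.map_apply hR hO]
        rfl

/-- index set of the layers from `m` on and of the remainder -/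
def D1cIdx (J m : ℕ) (W : Finset V) : Type :=
  {p : (Fin J × W) ⊕ W // ∀ q, p = Sum.inl q → m ≤ (q.1 : ℕ)}

instance (J m : ℕ) (W : Finset V) : Finite (D1cIdx J m W) := by
  unfold D1cIdx; infer_instance

/-- the layers as functions of the restricted family -/
noncomputable def d1cX {J m : ℕ} {W : Finset V} (r : D1cIdx J m W → ℝ) (j : ℕ) (v : V) : ℝ :=
  if h : j < J ∧ v ∈ W ∧ m ≤ j then
    r ⟨Sum.inl (⟨j, h.1⟩, ⟨v, h.2.1⟩), by rintro q hq; rw [← Sum.inl.inj hq]; exact h.2.2⟩ else 0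

/-- the remainder as a function of the restricted family -/
noncomputable def d1cY {J m : ℕ} {W : Finset V} (r : D1cIdx J m W → ℝ) (v : V) : ℝ :=
  if h : v ∈ W then r ⟨Sum.inr ⟨v, h⟩, by rintro q hq; cases hq⟩ else 0

lemma d1c_measX {J m : ℕ} {W : Finset V} (j : ℕ) (v : V) :
    Measurable (fun r : D1cIdx J m W → ℝ => d1cX r j v) := by
  unfold d1cX
  split_ifs with h
  · exact measurable_pi_apply _
  · exact measurable_const

lemma d1c_measY {J m : ℕ} {W : Finset V} (v : V) :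
    Measurable (fun r : D1cIdx J m W → ℝ => d1cY r v) := by
  unfold d1cY
  split_ifs with h
  · exact measurable_pi_apply _
  · exact measurable_const

section

variable {J : ℕ} {W : Finset V} {Ω : Type} [MeasurableSpace Ω] {μ : Measure Ω}
    [IsProbabilityMeasure μ] {X : ℕ → V → Ω → ℝ} {Y : V → Ω → ℝ} {Rc : V → V → ℝ}

/-- the block of `g` layers -/
lemma d1c_block (h : IsLR J W μ X Y Rc) {m0 g : ℕ} (hg : 1 ≤ g) (hm : m0 + g ≤ J) {z : V}
    (hz : z ∈ W) {a b : ℝ} (hab : a ≤ b) (d : ℝ) :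
    μ {ω | ∑ i : Fin g, X (m0 + i) z ω ∈ Set.Icc (a - d) (b - d)} ≤
      ENNReal.ofReal ((b - a) / √((g : ℝ) / 400)) := by
  let f : Fin g → (Fin J × W) ⊕ W := fun i => Sum.inl (⟨m0 + i, by omega⟩, ⟨z, hz⟩)
  have h1 := h.comp f
  have h2 := h1.linear (fun (_ : Unit) (_ : Fin g) => (1 : ℝ))
  have e1 : (fun ω => ∑ i : Fin g, X (m0 + i) z ω) =
      (fun (k : Unit) ω => ∑ i : Fin g, (fun (_ : Unit) (_ : Fin g) => (1 : ℝ)) k i *
        (Sum.elim (fun p : Fin J × W => X p.1 p.2) (fun v : W => Y v) (f i)) ω) () := by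
    funext ω
    simp only [one_mul]
    rfl
  have h3 : HasGaussianLaw (fun ω => ∑ i : Fin g, X (m0 + i) z ω) μ := by
    rw [e1]
    exact h2.gauss.hasGaussianLaw_eval ()
  have h4 : ∫ ω, ∑ i : Fin g, X (m0 + i) z ω ∂μ = 0 := by
    have := h2.mean ()
    rw [← this]
    congr 1
  have h5 : (g : ℝ) / 400 ≤ Var[fun ω => ∑ i : Fin g, X (m0 + i) z ω; μ] := by
    have h6 := h2.cov () ()
    rw [← covariance_self h3.aemeasurable, e1, h6]
    have h7 : ∀ i j : Fin g, (fun (_ : Unit) (_ : Fin g) => (1 : ℝ)) () i *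
        (fun (_ : Unit) (_ : Fin g) => (1 : ℝ)) () j *
        Sum.elim (fun p : Fin J × W => Sum.elim
          (fun q : Fin J × W => if p.1 = q.1 then kap p.1 ((p.2 : V) - (q.2 : V)) else 0)
          (fun _ : W => 0)) (fun v : W => Sum.elim (fun _ : Fin J × W => 0)
          (fun v' : W => Rc v v')) (f i) (f j) = if i = j then kap (m0 + i) 0 else 0 := by
      intro i j
      simp only [f, Sum.elim_inl, one_mul, sub_self]
      by_cases hij : i = j
      · subst hij; simp
      · rw [if_neg, if_neg hij]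
        intro h8
        apply hij
        have := congrArg Fin.val h8
        exact Fin.ext (by simpa using this)
    rw [Finset.sum_congr rfl fun i _ => Finset.sum_congr rfl fun j _ => h7 i j]
    simp only [Finset.sum_ite_eq, Finset.mem_univ, if_true]
    calc (g : ℝ) / 400 = ∑ i : Fin g, (1 / 400 : ℝ) := by
          rw [Finset.sum_const, Finset.card_univ, Fintype.card_fin, nsmul_eq_mul]; ring
      _ ≤ _ := Finset.sum_le_sum fun i _ => kap_zero_ge _
  have hg0 : (0 : ℝ) < (g : ℝ) / 400 := by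
    have : (1 : ℝ) ≤ g := by exact_mod_cast hg
    linarith
  have h8 := gauss_anti h3 h4 hg0 h5 (a := a - d) (b := b - d) (by linarith)
  rwa [show b - d - (a - d) = b - a by ring] at h8

/-- one step of the induction -/
lemma d1c_step (h : IsLR J W μ X Y Rc) {m0 g : ℕ} (hg : 1 ≤ g) (hm : m0 + g ≤ J) {z0 : V}
    (hz0 : z0 ∈ W) {a b : ℝ} (hab : a ≤ b) (T : Finset ℕ) (m : ℕ → ℕ) (z : ℕ → V)
    (hT : ∀ i ∈ T, m0 + g ≤ m i ∧ z i ∈ W) :
    μ {ω | (∑ j ∈ Finset.Ico m0 J, X j z0 ω + Y z0 ω ∈ Set.Icc a b) ∧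
      ∀ i ∈ T, ∑ j ∈ Finset.Ico (m i) J, X j (z i) ω + Y (z i) ω ∈ Set.Icc a b} ≤
    ENNReal.ofReal ((b - a) / √((g : ℝ) / 400)) *
      μ {ω | ∀ i ∈ T, ∑ j ∈ Finset.Ico (m i) J, X j (z i) ω + Y (z i) ω ∈ Set.Icc a b} := by
  let f : Fin g → (Fin J × W) ⊕ W := fun i => Sum.inl (⟨m0 + i, by omega⟩, ⟨z0, hz0⟩)
  let ZZ : (Fin J × W) ⊕ W → Ω → ℝ :=
    Sum.elim (fun p : Fin J × W => X p.1 p.2) (fun v : W => Y v)
  let R : Ω → D1cIdx J (m0 + g) W → ℝ := fun ω b => ZZ b.1 ω
  let U : Ω → Fin g → ℝ := fun ω i => ZZ (f i) ω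
  have hind : IndepFun U R μ := by
    refine h.indep f (fun b : D1cIdx J (m0 + g) W => b.1) ?_
    intro i b
    obtain ⟨p, hp⟩ := b
    cases p with
    | inl q =>
      simp only [f, Sum.elim_inl]
      rw [if_neg]
      intro h1
      have h2 := hp q rfl
      have h3 := congrArg Fin.val h1
      simp only at h3
      have := i.isLt
      omega
    | inr v => rfl
  have hR : Measurable R := measurable_pi_lambda _ fun b => h.meas b.1
  have hU : Measurable U := measurable_pi_lambda _ fun i => h.meas (f i)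
  have hsum : Measurable (fun u : Fin g → ℝ => ∑ i, u i) :=
    Finset.measurable_sum _ fun i _ => measurable_pi_apply i
  have hA : Measurable (fun ω => ∑ i, U ω i) := hsum.comp hU
  have hind2 : IndepFun (fun ω => ∑ i, U ω i) R μ := hind.comp hsum measurable_id
  -- the other variables as functions of `R`
  have hX : ∀ ω j v, j < J → v ∈ W → m0 + g ≤ j → d1cX (R ω) j v = X j v ω := by
    intro ω j v h1 h2 h3
    unfold d1cX
    rw [dif_pos ⟨h1, h2, h3⟩]
    rfl
  have hY : ∀ ω v, v ∈ W → d1cY (R ω) v = Y v ω := by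
    intro ω v h1
    unfold d1cY
    rw [dif_pos h1]
    rfl
  let Fi : ℕ → V → (D1cIdx J (m0 + g) W → ℝ) → ℝ := fun n v r =>
    ∑ j ∈ Finset.Ico n J, d1cX r j v + d1cY r v
  have hFi : ∀ n v, Measurable (Fi n v) := fun n v =>
    (Finset.measurable_sum _ fun j _ => d1c_measX j v).add (d1c_measY v)
  have hFiR : ∀ n v ω, v ∈ W → m0 + g ≤ n →
      Fi n v (R ω) = ∑ j ∈ Finset.Ico n J, X j v ω + Y v ω := by
    intro n v ω hv hn
    simp only [Fi]
    rw [hY ω v hv]
    congr 1
    apply Finset.sum_congr rfl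
    intro j hj
    rw [Finset.mem_Ico] at hj
    exact hX ω j v hj.2 hv (hn.trans hj.1)
  set O : Set (D1cIdx J (m0 + g) W → ℝ) := {r | ∀ i ∈ T, Fi (m i) (z i) r ∈ Set.Icc a b} with hO
  have hOm : MeasurableSet O := by
    have : O = ⋂ i ∈ T, (Fi (m i) (z i)) ⁻¹' Set.Icc a b := by
      ext r
      simp [hO]
    rw [this]
    exact Finset.measurableSet_biInter T fun i _ => hFi _ _ measurableSet_Icc
  have key := d1c_indep hA hR hind2 (hFi (m0 + g) z0) hOm (a := a) (b := b)
    (q := ENNReal.ofReal ((b - a) / √((g : ℝ) / 400)))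
    (fun d => d1c_block h hg hm hz0 hab d)
  have e1 : {ω | R ω ∈ O} = {ω | ∀ i ∈ T, ∑ j ∈ Finset.Ico (m i) J, X j (z i) ω + Y (z i) ω ∈
      Set.Icc a b} := by
    ext ω
    constructor
    · intro h1 i hi
      have h2 := h1 i hi
      rwa [hFiR _ _ _ (hT i hi).2 (hT i hi).1] at h2
    · intro h1 i hi
      rw [hFiR _ _ _ (hT i hi).2 (hT i hi).1]
      exact h1 i hi
  have e2 : ∀ ω, ∑ i, U ω i + Fi (m0 + g) z0 (R ω) =
      ∑ j ∈ Finset.Ico m0 J, X j z0 ω + Y z0 ω := by
    intro ω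
    rw [hFiR _ _ _ hz0 le_rfl, ← add_assoc]
    congr 1
    rw [← Finset.sum_Ico_consecutive (fun j => X j z0 ω) (Nat.le_add_right m0 g) hm]
    congr 1
    rw [Finset.sum_Ico_eq_sum_range, Nat.add_sub_cancel_left, Finset.sum_range]
    rfl
  rw [e1] at key
  refine le_trans (measure_mono ?_) key
  rintro ω ⟨h1, h2⟩
  refine ⟨?_, ?_⟩
  · rw [e2]; exact h1
  · have : ω ∈ {ω | R ω ∈ O} := by rw [e1]; exact h2
    exact this

end

/-- sequential anti-concentration -/
theorem anti_fail {J : ℕ} {W : Finset V} {Ω : Type} [MeasurableSpace Ω] {μ : Measure Ω}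
    [IsProbabilityMeasure μ] {X : ℕ → V → Ω → ℝ} {Y : V → Ω → ℝ} {Rc : V → V → ℝ}
    (h : IsLR J W μ X Y Rc) {n g : ℕ} (hg : 1 ≤ g) (k : ℕ → ℕ) (z : ℕ → V)
    (hk : ∀ i j, i < j → j < n → k i + g ≤ k j) (hc : ∀ i < n, c0 ≤ k i ∧ k i + g ≤ J + c0)
    (hW : ∀ i < n, z i ∈ W) {a b : ℝ} (hab : a ≤ b) (T : Finset ℕ) (hT : ∀ i ∈ T, i < n) :
    μ {ω | ∀ i ∈ T, ∑ j ∈ Finset.Ico (k i - c0) J, X j (z i) ω + Y (z i) ω ∈ Set.Icc a b} ≤
      ENNReal.ofReal (((b - a) / √((g : ℝ) / 400)) ^ T.card) := by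
  have hq : 0 ≤ (b - a) / √((g : ℝ) / 400) :=
    div_nonneg (by linarith) (Real.sqrt_nonneg _)
  induction T using Finset.induction_on_min with
  | empty => simp
  | insert i T hi ih =>
    have hiT : i ∉ T := fun h1 => lt_irrefl _ (hi i h1)
    rw [Finset.card_insert_of_notMem hiT, pow_succ', ENNReal.ofReal_mul hq]
    have hin := hT i (Finset.mem_insert_self _ _)
    have hci := hc i hin
    have h1 := d1c_step h hg (m0 := k i - c0) (by omega) (hW i hin) hab T (fun i => k i - c0) z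
      (fun j hj => by
        have h2 := hi j hj
        have h3 := hT j (Finset.mem_insert_of_mem hj)
        have h4 := hk i j h2 h3
        exact ⟨by omega, hW j h3⟩)
    refine le_trans (le_trans (measure_mono ?_) h1)
      (mul_le_mul_right (ih fun j hj => hT j (Finset.mem_insert_of_mem hj)) _)
    intro ω hω
    exact ⟨hω i (Finset.mem_insert_self _ _), fun j hj => hω j (Finset.mem_insert_of_mem hj)⟩

end Pool.H92.GFL
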