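import Pool.Agent.helper92.GFL.D0
import Pool.Agent.helper92.GFL.BL
import Pool.Agent.helper92.GFL.D1a
import Pool.Agent.helper92.GFL.D1b
import Pool.Agent.helper92.GFL.D1c
import Pool.Agent.helper92.GFL.L3

namespace Pool.H92.GFL

open Function Finset MeasureTheory ProbabilityTheory Pool.H92.GFF
open scoped Classical ENNReal

/-- extension of a field on `W` by zero -/
noncomputable def d1ext (W : Finset V) (ψ : W → ℝ) (v : V) : ℝ :=
  if h : v ∈ W then ψ ⟨v, h⟩ else 0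

lemma d1ext_meas (W : Finset V) : Measurable (d1ext W) := by
  refine measurable_pi_lambda _ (fun v => ?_)
  unfold d1ext
  by_cases h : v ∈ W
  · simp only [h, dif_pos]
    exact measurable_pi_apply _
  · simp only [h, dif_neg, not_false_iff]
    exact measurable_const

lemma d1ext_of {W : Finset V} {ψ : V → ℝ} {v : V} (h : v ∈ W) :
    d1ext W (fun w : W => ψ w) v = ψ v := by
  simp [d1ext, h]

/-- values near the centre differ from the value at the centre by at most the oscillation -/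
lemma d1_osc {ψ : V → ℝ} {z v : V} {r : ℕ} (hv : v ∈ ball z r) : |ψ v - ψ z| ≤ osc ψ z r :=
  Finset.le_sup' (fun x => |ψ x - ψ z|) hv

/-- failure at one scale -/
lemma d1_fail {φ Wc ψ : V → ℝ} {z : V} {k C1 : ℕ} {K O lam : ℝ}
    (hψ : ∀ v ∈ ball z (3 * 2 ^ k), ψ v = φ v + Wc v)
    (hO : ∀ v ∈ ball z (3 * 2 ^ k), |Wc v - Wc z| ≤ O)
    (h1 : ¬ Nice ψ lam z k C1) (h2 : ¬ Blk ψ lam z k) :
    (¬ Nice φ K z k C1 ∨ ¬ Nice (fun v => -φ v) K z k C1) ∨ K < O ∨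
      Wc z ∈ Set.Icc (lam - 2 * K) (lam + 2 * K) := by
  by_contra hcon
  push Not at hcon
  obtain ⟨⟨ha, hb⟩, hO', hW⟩ := hcon
  have hd : ∀ v ∈ ball z (3 * 2 ^ k), |Wc v - Wc z| ≤ K := fun v hv => (hO v hv).trans hO'
  by_cases hc : Wc z < lam - 2 * K
  · apply h1
    refine ha.mono (fun v hv hv' => ?_) le_rfl
    rw [hψ v hv.1]
    have := abs_le.1 (hd v hv.1)
    linarith [this.2]
  · have hc' : lam + 2 * K < Wc z := by
      by_contra hcc
      exact hW ⟨not_lt.1 hc, not_lt.1 hcc⟩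
    apply h2
    obtain ⟨Γ, F, g1, g2, g3, g4, g5, g6, g7⟩ := hb
    refine ⟨Γ, F, g1, g2, g3, g4, g5, fun x hx => ?_⟩
    have hx' : x ∈ ball z (3 * 2 ^ k) := g2 (g3 hx)
    rw [hψ x hx']
    have := abs_le.1 (hd x hx')
    have := g6 x hx
    linarith [(abs_le.1 (hd x hx')).1]

/-- the three kinds of failure at scale `k i` -/
noncomputable def d1A {Ω : Type} (J : ℕ) (X : ℕ → V → Ω → ℝ) (Y : V → Ω → ℝ) (k : ℕ → ℕ)
    (z : ℕ → V) (K lam : ℝ) (C1 : ℕ) (i : ℕ) (c : Fin 3) : Set Ω :=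
  if c = 0 then {ω | ¬ Nice (fun v => ∑ j ∈ Finset.range (k i - c0), X j v ω) K (z i) (k i) C1 ∨
        ¬ Nice (fun v => -∑ j ∈ Finset.range (k i - c0), X j v ω) K (z i) (k i) C1}
  else if c = 1 then {ω | K < ∑ j ∈ Finset.Ico (k i - c0) J,
        osc (fun v => X j v ω) (z i) (3 * 2 ^ k i) + osc (fun v => Y v ω) (z i) (3 * 2 ^ k i)}
  else {ω | ∑ j ∈ Finset.Ico (k i - c0) J, X j (z i) ω + Y (z i) ω ∈
        Set.Icc (lam - 2 * K) (lam + 2 * K)}

lemma d1_sub {Ω : Type} {J : ℕ} {X : ℕ → V → Ω → ℝ} {Y : V → Ω → ℝ} {n : ℕ} (k : ℕ → ℕ)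
    (z : ℕ → V) {K lam : ℝ} {C1 : ℕ} (hc : ∀ i < n, k i - c0 ≤ J) :
    {ω | ∀ i < n, ¬ Nice (fun v => ∑ j ∈ Finset.range J, X j v ω + Y v ω) lam (z i) (k i) C1 ∧
      ¬ Blk (fun v => ∑ j ∈ Finset.range J, X j v ω + Y v ω) lam (z i) (k i)} ⊆
      ⋂ i : Fin n, ⋃ c : Fin 3, d1A J X Y k z K lam C1 i c := by
  intro ω hω
  rw [Set.mem_iInter]
  intro i
  obtain ⟨h1, h2⟩ := hω i i.2
  rw [Set.mem_iUnion]
  have hsum : ∀ v, ∑ j ∈ Finset.range J, X j v ω + Y v ω =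
      ∑ j ∈ Finset.range (k i - c0), X j v ω +
        (∑ j ∈ Finset.Ico (k i - c0) J, X j v ω + Y v ω) := by
    intro v
    rw [← Finset.sum_range_add_sum_Ico _ (hc i i.2)]
    ring
  have hO : ∀ v ∈ ball (z i) (3 * 2 ^ k i),
      |(∑ j ∈ Finset.Ico (k i - c0) J, X j v ω + Y v ω) -
        (∑ j ∈ Finset.Ico (k i - c0) J, X j (z i) ω + Y (z i) ω)| ≤
      ∑ j ∈ Finset.Ico (k i - c0) J,
        osc (fun v => X j v ω) (z i) (3 * 2 ^ k i) + osc (fun v => Y v ω) (z i) (3 * 2 ^ k i) := by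
    intro v hv
    have e : (∑ j ∈ Finset.Ico (k i - c0) J, X j v ω + Y v ω) -
        (∑ j ∈ Finset.Ico (k i - c0) J, X j (z i) ω + Y (z i) ω) =
        ∑ j ∈ Finset.Ico (k i - c0) J, (X j v ω - X j (z i) ω) + (Y v ω - Y (z i) ω) := by
      rw [Finset.sum_sub_distrib]; ring
    rw [e]
    refine (abs_add_le _ _).trans (add_le_add ((Finset.abs_sum_le_sum_abs _ _).trans ?_) ?_)
    · exact Finset.sum_le_sum (fun j _ => d1_osc (ψ := fun v => X j v ω) hv)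
    · exact d1_osc (ψ := fun v => Y v ω) hv
  rcases d1_fail (K := K) (fun v _ => hsum v) hO h1 h2 with h | h | h
  · exact ⟨0, by simpa [d1A] using h⟩
  · exact ⟨1, by simpa [d1A] using h⟩
  · exact ⟨2, by simpa [d1A] using h⟩

lemma d1_core {J : ℕ} {W : Finset V} {Ω : Type} [MeasurableSpace Ω] {μ : Measure Ω}
    [IsProbabilityMeasure μ] {X : ℕ → V → Ω → ℝ} {Y : V → Ω → ℝ} {Rc : V → V → ℝ}
    (h : IsLR J W μ X Y Rc) {n g : ℕ} (k : ℕ → ℕ) (z : ℕ → V) {K lam : ℝ} {C1 : ℕ}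
    (hg : 8 ≤ g) (hgK : 864 * K ≤ √((g : ℝ) / 400)) (hK : 0 ≤ K)
    (hk : ∀ i j, i < j → j < n → k i + g ≤ k j)
    (hc : ∀ i < n, c0 ≤ k i ∧ k i + g ≤ J + c0)
    (hz : ∀ i j, i ≤ j → j < n → z i ∈ ball (z j) (2 ^ k j / 2))
    (hW : ∀ i < n, ball (z i) (3 * 2 ^ k i) ⊆ W)
    (hPF : ∀ i < n, PF (k i) K C1 q1)
    (hosc : ∀ (T : Finset ℕ), (∀ i ∈ T, i < n) →
      μ {ω | ∀ i ∈ T, K < ∑ j ∈ Finset.Ico (k i - c0) J,
        osc (fun v => X j v ω) (z i) (3 * 2 ^ k i) +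
        osc (fun v => Y v ω) (z i) (3 * 2 ^ k i)} ≤ ENNReal.ofReal ((1 / 216) ^ T.card)) :
    μ {ω | ∀ i < n, ¬ Nice (fun v => ∑ j ∈ Finset.range J, X j v ω + Y v ω) lam (z i) (k i) C1 ∧
      ¬ Blk (fun v => ∑ j ∈ Finset.range J, X j v ω + Y v ω) lam (z i) (k i)} ≤
      ENNReal.ofReal ((1 / 2) ^ n) := by
  refine (measure_mono (d1_sub k z (K := K) (fun i hi => ?_))).trans
    (three_union μ n (fun i c => d1A J X Y k z K lam C1 i c) (fun c T => ?_))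
  · have := (hc i hi).2
    omega
  have hT : ∀ i ∈ T.map Fin.valEmbedding, i < n := by
    intro i hi
    obtain ⟨a, _, rfl⟩ := Finset.mem_map.1 hi
    exact a.2
  have hcard : (T.map Fin.valEmbedding).card = T.card := Finset.card_map _
  fin_cases c
  · have hf := fine_fail h k z (fun i j h1 h2 => by have := hk i j h1 h2; omega)
      (fun i hi => ⟨(hc i hi).1, by have := (hc i hi).2; omega⟩) hz hW
      (show (0 : ℝ) ≤ q1 by unfold q1; norm_num) hPF (T.map Fin.valEmbedding) hT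
    rw [hcard] at hf
    refine (measure_mono ?_).trans (hf.trans (ENNReal.ofReal_le_ofReal ?_))
    · intro ω hω i hi
      obtain ⟨a, ha, rfl⟩ := Finset.mem_map.1 hi
      have := Set.mem_iInter₂.1 hω a ha
      simpa [d1A] using this
    · refine pow_le_pow_left₀ (by unfold q1; norm_num) (by unfold q1; norm_num) _
  · have hf := hosc (T.map Fin.valEmbedding) hT
    rw [hcard] at hf
    refine (measure_mono ?_).trans hf
    intro ω hω i hi
    obtain ⟨a, ha, rfl⟩ := Finset.mem_map.1 hi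
    have := Set.mem_iInter₂.1 hω a ha
    simpa [d1A] using this
  · have hf := anti_fail h (by omega) k z hk hc
      (fun i hi => hW i hi (mem_ball_self _ _)) (show lam - 2 * K ≤ lam + 2 * K by linarith)
      (T.map Fin.valEmbedding) hT
    rw [hcard] at hf
    refine (measure_mono ?_).trans (hf.trans (ENNReal.ofReal_le_ofReal ?_))
    · intro ω hω i hi
      obtain ⟨a, ha, rfl⟩ := Finset.mem_map.1 hi
      have := Set.mem_iInter₂.1 hω a ha
      simpa [d1A] using this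
    · have hgpos : 0 < √((g : ℝ) / 400) := by
        apply Real.sqrt_pos.2
        have : (0 : ℝ) < g := by exact_mod_cast (by omega : 0 < g)
        positivity
      refine pow_le_pow_left₀ (div_nonneg (by linarith) hgpos.le) ?_ _
      rw [div_le_iff₀ hgpos]
      linarith

lemma d1_num {K : ℝ} (hK : 1 ≤ K) {k1 k2 : ℕ} (h : k1 ≤ k2) {g n : ℕ}
    (hg : g = ⌈400 * (864 * K) ^ 2⌉₊ + 8) (hn : n = (k2 - k1 - 1) / g) :
    (1 / 2 : ℝ) ^ n ≤
      4 * Real.exp (-(Real.log 2 / (400 * 864 ^ 2 + 9) * ((k2 : ℝ) - k1) / K ^ 2)) := by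
  have hl : 0 < Real.log 2 := Real.log_pos (by norm_num)
  have hg0 : 0 < g := by omega
  have h1 : k2 - k1 ≤ g * (n + 1) := by
    have := Nat.lt_div_mul_add (a := k2 - k1 - 1) hg0
    rw [← hn] at this
    have e : g * (n + 1) = n * g + g := by ring
    rw [e]; omega
  have h2 : (k2 : ℝ) - k1 ≤ g * (n + 1) := by
    have : ((k2 - k1 : ℕ) : ℝ) ≤ ((g * (n + 1) : ℕ) : ℝ) := by exact_mod_cast h1
    rw [Nat.cast_sub h] at this
    push_cast at this
    exact this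
  have h3 : (g : ℝ) ≤ (400 * 864 ^ 2 + 9) * K ^ 2 := by
    have h4 : (⌈400 * (864 * K) ^ 2⌉₊ : ℝ) < 400 * (864 * K) ^ 2 + 1 :=
      Nat.ceil_lt_add_one (by positivity)
    rw [hg]
    push_cast
    nlinarith [h4, one_le_pow₀ hK (n := 2)]
  have h5 : ((k2 : ℝ) - k1) / ((400 * 864 ^ 2 + 9) * K ^ 2) ≤ n + 1 := by
    rw [div_le_iff₀ (by positivity)]
    have : (g : ℝ) * (n + 1) ≤ (400 * 864 ^ 2 + 9) * K ^ 2 * (n + 1) := by gcongr
    linarith
  have e1 : (1 / 2 : ℝ) ^ n = Real.exp (-(Real.log 2 * n)) := by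
    rw [Real.exp_neg, mul_comm, Real.exp_nat_mul, Real.exp_log (by norm_num)]
    simp
  have e2 : (4 : ℝ) = Real.exp (2 * Real.log 2) := by
    rw [mul_comm, Real.exp_mul, Real.exp_log (by norm_num)]
    norm_num
  rw [e1, e2, ← Real.exp_add]
  apply Real.exp_le_exp.2
  have e3 : Real.log 2 / (400 * 864 ^ 2 + 9) * ((k2 : ℝ) - k1) / K ^ 2 =
      Real.log 2 * (((k2 : ℝ) - k1) / ((400 * 864 ^ 2 + 9) * K ^ 2)) := by
    have : K ≠ 0 := by positivity
    field_simp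
  rw [e3]
  nlinarith [mul_le_mul_of_nonneg_left h5 hl.le]

/-- probability that there is neither a nice nor a blocking circuit around a point at all scales
in `(k1,k2]` -/
theorem Dbound : ∃ K0 C c : ℝ, 0 < c ∧ 0 < C ∧ 1 ≤ K0 ∧ ∀ K : ℝ, K0 ≤ K →
    ∀ (C1 N k1 k2 : ℕ), k1 ≤ k2 → (∀ k, k1 < k → k ≤ k2 → PF k K C1 q1) →
    ∀ {Ω : Type} [MeasurableSpace Ω] (μ : Measure Ω) (η : V → Ω → ℝ), IsDGFF N μ η →
    (∀ v, Measurable (η v)) → ∀ (lam : ℝ) (z : ℕ → V),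
    (∀ k, k1 < k → k ≤ k2 → ball (z k) (2 ^ (k + 9)) ⊆ inn N) →
    (∀ k k', k1 < k → k ≤ k' → k' ≤ k2 → z k ∈ ball (z k') (2 ^ k' / 2)) →
    μ {ω | ∀ k, k1 < k → k ≤ k2 → ¬ Nice (fun v => η v ω) lam (z k) k C1 ∧
      ¬ Blk (fun v => η v ω) lam (z k) k} ≤
      ENNReal.ofReal (C * Real.exp (-(c * ((k2 : ℝ) - k1) / K ^ 2))) := by
  obtain ⟨K0, hK0, hosc⟩ := osc_fail
  obtain ⟨CL, hCL, hlay⟩ := dgff_layers
  have hl : 0 < Real.log 2 := Real.log_pos (by norm_num)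
  refine ⟨K0, 4, Real.log 2 / (400 * 864 ^ 2 + 9), by positivity, by norm_num, hK0, ?_⟩
  intro K hK C1 N k1 k2 hk12 hPF Ω _ μ η hη hm lam z hz hzz
  have := hη.isProb
  have hK1 : 1 ≤ K := hK0.trans hK
  obtain ⟨g, hg⟩ : ∃ g : ℕ, g = ⌈400 * (864 * K) ^ 2⌉₊ + 8 := ⟨_, rfl⟩
  obtain ⟨n, hn⟩ : ∃ n : ℕ, n = (k2 - k1 - 1) / g := ⟨_, rfl⟩
  have hnum := d1_num hK1 hk12 hg hn
  refine le_trans ?_ (ENNReal.ofReal_le_ofReal hnum)
  rcases Nat.eq_zero_or_pos n with hn0 | hn0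
  · rw [hn0]; simpa using prob_le_one
  have hg0 : 0 < g := by omega
  have hng : n * g ≤ k2 - k1 - 1 := by rw [hn]; exact Nat.div_mul_le_self _ _
  have hpos : 1 * g ≤ n * g := Nat.mul_le_mul_right _ hn0
  -- scales
  have hki : ∀ i < n, k1 + c0 + 1 + i * g + g ≤ k2 + c0 := by
    intro i hi
    have : (i + 1) * g ≤ n * g := Nat.mul_le_mul_right _ hi
    rw [Nat.add_mul, one_mul] at this
    unfold c0
    omega
  have hki1 : ∀ i < n, k1 < k1 + c0 + 1 + i * g := by intro i _; omega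
  have hki2 : ∀ i < n, k1 + c0 + 1 + i * g ≤ k2 := by
    intro i hi
    have := hki i hi
    unfold c0 at this ⊢
    omega
  have hkk : ∀ i j, i < j → j < n → k1 + c0 + 1 + i * g + g ≤ k1 + c0 + 1 + j * g := by
    intro i j hij _
    have : (i + 1) * g ≤ j * g := Nat.mul_le_mul_right _ hij
    rw [Nat.add_mul, one_mul] at this
    omega
  have hlt : k1 < k2 := by omega
  -- the window
  have hbig : ∀ x ∈ ball (z k2) (8 * 2 ^ k2), ball x (4 * 2 ^ k2) ⊆ inn N := by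
    intro x hx y hy
    have h1 := mem_ball_trans hx hy
    have h2 : 8 * 2 ^ k2 + 4 * 2 ^ k2 ≤ 2 ^ (k2 + 9) := by rw [pow_add]; omega
    exact hz k2 hlt le_rfl (ball_mono h2 h1)
  obtain ⟨Ω', mΩ', μ', hμ', X, Y, Rc, hLR, hXm, hYm, -, hRc, hlaw⟩ :=
    hlay N k2 N (z k2) (8 * 2 ^ k2) (Nat.lt_two_pow_self.le) hbig
  have hWi : ∀ i < n, ball (z (k1 + c0 + 1 + i * g)) (3 * 2 ^ (k1 + c0 + 1 + i * g)) ⊆
      ball (z k2) (8 * 2 ^ k2) := by
    intro i hi y hy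
    have h1 := mem_ball_trans (hzz _ k2 (hki1 i hi) (hki2 i hi) le_rfl) hy
    have h3 := Nat.pow_le_pow_right (show 0 < 2 by norm_num) (hki2 i hi)
    have h2 : 2 ^ k2 / 2 + 3 * 2 ^ (k1 + c0 + 1 + i * g) ≤ 8 * 2 ^ k2 := by omega
    exact ball_mono h2 h1
  have hcore := d1_core hLR (n := n) (g := g) (fun i => k1 + c0 + 1 + i * g)
    (fun i => z (k1 + c0 + 1 + i * g)) (K := K) (lam := lam) (C1 := C1) (by omega)
    (by
      apply Real.le_sqrt_of_sq_le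
      rw [le_div_iff₀ (by norm_num)]
      have := Nat.le_ceil (400 * (864 * K) ^ 2)
      rw [hg]
      push_cast
      linarith) (by linarith) hkk
    (fun i hi => ⟨by omega, hki i hi⟩)
    (fun i j hij hj => hzz _ _ (hki1 i (by omega)) (by
      have : i * g ≤ j * g := Nat.mul_le_mul_right _ hij
      omega) (hki2 j hj)) hWi
    (fun i hi => hPF _ (hki1 i hi) (hki2 i hi))
    (fun T hT => hosc K hK hLR hRc (fun i => k1 + c0 + 1 + i * g)
      (fun i => z (k1 + c0 + 1 + i * g)) (fun i j h1 h2 => by have := hkk i j h1 h2; omega)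
      (fun i hi => ⟨by omega, hki2 i hi⟩) hWi T hT)
  -- the event in terms of the restriction to the window
  obtain ⟨S, hS⟩ : ∃ S : Set (ball (z k2) (8 * 2 ^ k2) → ℝ), S = {ψ | ∀ i < n,
      ¬ Nice (d1ext (ball (z k2) (8 * 2 ^ k2)) ψ) lam (z (k1 + c0 + 1 + i * g))
        (k1 + c0 + 1 + i * g) C1 ∧
      ¬ Blk (d1ext (ball (z k2) (8 * 2 ^ k2)) ψ) lam (z (k1 + c0 + 1 + i * g))
        (k1 + c0 + 1 + i * g)} := ⟨_, rfl⟩
  have hSm : MeasurableSet S := by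
    have e : S = ⋂ i ∈ Finset.range n,
        ((d1ext (ball (z k2) (8 * 2 ^ k2))) ⁻¹' ({ψ : V → ℝ | Nice ψ lam
          (z (k1 + c0 + 1 + i * g)) (k1 + c0 + 1 + i * g) C1}ᶜ) ∩
        (d1ext (ball (z k2) (8 * 2 ^ k2))) ⁻¹' ({ψ : V → ℝ | Blk ψ lam
          (z (k1 + c0 + 1 + i * g)) (k1 + c0 + 1 + i * g)}ᶜ)) := by
      ext ψ
      simp [hS]
    rw [e]
    refine Finset.measurableSet_biInter _ (fun i _ => ?_)
    exact ((d1ext_meas _) (meas_Nice _ _ _ _).compl).inter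
      ((d1ext_meas _) (meas_Blk _ _ _).compl)
  have hNc : ∀ (ψ : V → ℝ), ∀ i < n, (Nice (d1ext (ball (z k2) (8 * 2 ^ k2))
      (fun w => ψ w)) lam (z (k1 + c0 + 1 + i * g)) (k1 + c0 + 1 + i * g) C1 ↔
      Nice ψ lam (z (k1 + c0 + 1 + i * g)) (k1 + c0 + 1 + i * g) C1) := by
    intro ψ i hi
    constructor
    · exact Nice.congr (fun v hv => d1ext_of (hWi i hi hv.1))
    · exact Nice.congr (fun v hv => (d1ext_of (hWi i hi hv.1)).symm)
  have hBc : ∀ (ψ : V → ℝ), ∀ i < n, (Blk (d1ext (ball (z k2) (8 * 2 ^ k2))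
      (fun w => ψ w)) lam (z (k1 + c0 + 1 + i * g)) (k1 + c0 + 1 + i * g) ↔
      Blk ψ lam (z (k1 + c0 + 1 + i * g)) (k1 + c0 + 1 + i * g)) := by
    intro ψ i hi
    constructor
    · exact fun h => h.mono (fun v hv hv' => by rwa [d1ext_of (hWi i hi hv.1)] at hv')
    · exact fun h => h.mono (fun v hv hv' => by rwa [d1ext_of (hWi i hi hv.1)])
  have hlaw' := hlaw μ η hη hm
  have hm1 : Measurable (fun ω (v : ball (z k2) (8 * 2 ^ k2)) => η v ω) :=
    measurable_pi_lambda _ (fun v => hm v)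
  have hm2 : Measurable (fun ω (v : ball (z k2) (8 * 2 ^ k2)) =>
      ∑ j ∈ Finset.range k2, X j v ω + Y v ω) :=
    measurable_pi_lambda _ (fun v =>
      (Finset.measurable_sum _ (fun j _ => hXm j v)).add (hYm v))
  calc μ {ω | ∀ k, k1 < k → k ≤ k2 → ¬ Nice (fun v => η v ω) lam (z k) k C1 ∧
      ¬ Blk (fun v => η v ω) lam (z k) k}
      ≤ μ ((fun ω (v : ball (z k2) (8 * 2 ^ k2)) => η v ω) ⁻¹' S) := by
        refine measure_mono (fun ω hω => ?_)
        rw [hS]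
        intro i hi
        obtain ⟨h1, h2⟩ := hω _ (hki1 i hi) (hki2 i hi)
        exact ⟨fun h => h1 ((hNc (fun v => η v ω) i hi).1 h),
          fun h => h2 ((hBc (fun v => η v ω) i hi).1 h)⟩
    _ = μ.map (fun ω (v : ball (z k2) (8 * 2 ^ k2)) => η v ω) S := by
        rw [Measure.map_apply hm1 hSm]
    _ = μ'.map (fun ω (v : ball (z k2) (8 * 2 ^ k2)) =>
          ∑ j ∈ Finset.range k2, X j v ω + Y v ω) S := by rw [hlaw']
    _ = μ' ((fun ω (v : ball (z k2) (8 * 2 ^ k2)) =>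
          ∑ j ∈ Finset.range k2, X j v ω + Y v ω) ⁻¹' S) := by
        rw [Measure.map_apply hm2 hSm]
    _ ≤ _ := by
        refine (measure_mono (fun ω hω => ?_)).trans hcore
        rw [hS] at hω
        intro i hi
        obtain ⟨h1, h2⟩ := hω i hi
        exact ⟨fun h => h1 ((hNc (fun v => ∑ j ∈ Finset.range k2, X j v ω + Y v ω) i hi).2 h),
          fun h => h2 ((hBc (fun v => ∑ j ∈ Finset.range k2, X j v ω + Y v ω) i hi).2 h)⟩

end Pool.H92.GFL
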