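import Pool.Agent.helper92.GFL.Defs3
import Pool.Agent.helper92.GFL.D1

namespace Pool.H92.GFL

open Function Finset MeasureTheory ProbabilityTheory Pool.H92.GFF
open scoped Classical ENNReal

/-! ### centres of cells -/

/-- one dimensional centre -/
def nbx_c (k : ℕ) (x : ℤ) : ℤ := 2 ^ k * (x / 2 ^ k) + 2 ^ k / 2

lemma nbx_cen (k : ℕ) (v : V) : cen k v = (nbx_c k v.1, nbx_c k v.2) := rfl

lemma nbx_div (k : ℕ) (x : ℤ) : nbx_c k x / 2 ^ k = x / 2 ^ k := by
  unfold nbx_c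
  have h : (0 : ℤ) < 2 ^ k := by positivity
  rw [Int.mul_add_ediv_left _ _ h.ne']
  have : ((2 : ℤ) ^ k / 2) / 2 ^ k = 0 := by
    apply Int.ediv_eq_zero_of_lt
    · positivity
    · omega
  rw [this]; ring

lemma nbx_cc {k k' : ℕ} (h : k ≤ k') (x : ℤ) : nbx_c k' (nbx_c k x) = nbx_c k' x := by
  obtain ⟨d, rfl⟩ := Nat.exists_eq_add_of_le h
  have h1 : nbx_c k x / 2 ^ (k + d) = x / 2 ^ (k + d) := by
    rw [pow_add, ← Int.ediv_ediv_of_nonneg (by positivity : (0 : ℤ) ≤ 2 ^ k), nbx_div,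
      Int.ediv_ediv_of_nonneg (by positivity : (0 : ℤ) ≤ 2 ^ k)]
  show 2 ^ (k + d) * (nbx_c k x / 2 ^ (k + d)) + _ = 2 ^ (k + d) * (x / 2 ^ (k + d)) + _
  rw [h1]

lemma nbx_near (k : ℕ) (x : ℤ) : nbx_c k x - 2 ^ k / 2 ≤ x ∧ x ≤ nbx_c k x + 2 ^ k / 2 := by
  unfold nbx_c
  have h : (0 : ℤ) < 2 ^ k := by positivity
  have h1 := Int.emod_nonneg x h.ne'
  have h2 := Int.emod_lt_of_pos x h
  have h3 := Int.mul_ediv_add_emod x (2 ^ k)
  constructor <;> omega

lemma nbx_cen_cen {k k' : ℕ} (h : k ≤ k') (v : V) : cen k' (cen k v) = cen k' v := by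
  simp only [nbx_cen, nbx_cc h]

lemma nbx_cast (k : ℕ) : (((2 ^ k / 2 : ℕ)) : ℤ) = 2 ^ k / 2 := by push_cast; rfl

lemma nbx_mem (k : ℕ) (v : V) : v ∈ ball (cen k v) (2 ^ k / 2) := by
  rw [mem_ball, nbx_cast, nbx_cen]
  have h1 := nbx_near k v.1
  have h2 := nbx_near k v.2
  simp only
  omega

lemma nbx_nest {k k' : ℕ} (h : k ≤ k') (v : V) : cen k v ∈ ball (cen k' v) (2 ^ k' / 2) := by
  rw [← nbx_cen_cen h v]
  exact nbx_mem k' _

/-! ### rectangles of centres -/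

/-- cells of scale `k` meeting a rectangle -/
noncomputable def nbx_R (k : ℕ) (x y : ℤ) (P Q : ℕ) : Finset V :=
  Finset.Icc (x / 2 ^ k) ((x + P) / 2 ^ k) ×ˢ Finset.Icc (y / 2 ^ k) ((y + Q) / 2 ^ k)

lemma nbx_mem_R {k : ℕ} {x y : ℤ} {P Q : ℕ} {c : V} (h1 : x ≤ c.1) (h2 : c.1 ≤ x + P)
    (h3 : y ≤ c.2) (h4 : c.2 ≤ y + Q) : (c.1 / 2 ^ k, c.2 / 2 ^ k) ∈ nbx_R k x y P Q := by
  have h : (0 : ℤ) < 2 ^ k := by positivity
  simp only [nbx_R, Finset.mem_product, Finset.mem_Icc]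
  exact ⟨⟨Int.ediv_le_ediv h h1, Int.ediv_le_ediv h h2⟩,
    ⟨Int.ediv_le_ediv h h3, Int.ediv_le_ediv h h4⟩⟩

lemma nbx_card1 {k p : ℕ} (x : ℤ) :
    (Finset.Icc (x / 2 ^ k) ((x + (2 ^ (k + p) : ℕ)) / 2 ^ k)).card ≤ 2 ^ p + 2 := by
  rw [Int.card_Icc]
  have h : (0 : ℤ) < 2 ^ k := by positivity
  have h1 : (x + (2 ^ (k + p) : ℕ)) / 2 ^ k = x / 2 ^ k + 2 ^ p := by
    push_cast
    rw [pow_add, Int.add_mul_ediv_left _ _ h.ne']
  rw [h1]
  have h2 : (x / 2 ^ k + 2 ^ p + 1 - x / 2 ^ k : ℤ) = ((2 ^ p + 1 : ℕ) : ℤ) := by push_cast; ring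
  rw [h2, Int.toNat_natCast]
  omega

lemma nbx_cardR {k p q : ℕ} (x y : ℤ) :
    (nbx_R k x y (2 ^ (k + p)) (2 ^ (k + q))).card ≤ (2 ^ p + 2) * (2 ^ q + 2) := by
  rw [nbx_R, Finset.card_product]
  exact Nat.mul_le_mul (nbx_card1 x) (nbx_card1 y)

/-- four strips along the boundary of a rectangle -/
noncomputable def nbx_F (k : ℕ) (x x' y y' : ℤ) (P Q : ℕ) : Finset V :=
  (nbx_R k x y P Q ∪ nbx_R k x' y P Q) ∪ (nbx_R k x y Q P ∪ nbx_R k x y' Q P)

lemma nbx_cardF {k p q : ℕ} (x x' y y' : ℤ) :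
    (nbx_F k x x' y y' (2 ^ (k + p)) (2 ^ (k + q))).card ≤ 4 * ((2 ^ p + 2) * (2 ^ q + 2)) := by
  unfold nbx_F
  have h1 := nbx_cardR (k := k) (p := p) (q := q) x y
  have h2 := nbx_cardR (k := k) (p := p) (q := q) x' y
  have h3 := nbx_cardR (k := k) (p := q) (q := p) x y
  have h4 := nbx_cardR (k := k) (p := q) (q := p) x y'
  refine (Finset.card_union_le _ _).trans ?_
  have h5 := Finset.card_union_le (nbx_R k x y (2 ^ (k + p)) (2 ^ (k + q)))
    (nbx_R k x' y (2 ^ (k + p)) (2 ^ (k + q)))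
  have h6 := Finset.card_union_le (nbx_R k x y (2 ^ (k + q)) (2 ^ (k + p)))
    (nbx_R k x y' (2 ^ (k + q)) (2 ^ (k + p)))
  nlinarith

/-- cells `c` of scale `k` such that the scales in `(k,l]` are allowed and `l+1` is not -/
noncomputable def nbx_S (U T : Finset V) (k l : ℕ) : Finset V :=
  (U.image (cen k)).filter (fun c => Allw U T k c ∧
    (∀ k', k < k' → k' ≤ l → Allw U T k' (cen k' c)) ∧ ¬ Allw U T (l + 1) (cen (l + 1) c))

lemma nbx_cardS {n0 κ N : ℕ} {U : Finset V} {p e : V} {n : ℕ} (hG : Geo n0 κ N U p e n)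
    {k l : ℕ} (hk : k ≤ l) (hl : l ≤ κ + n0) :
    (nbx_S U (ball p (2 ^ (κ - 2)) ∪ ball (p + n • e) (2 ^ (κ - 2))) k l).card ≤
      2 ^ 30 * (2 ^ (l - k) * 2 ^ (κ + n0 - k)) := by
  obtain ⟨a, b, hU⟩ := hG.hU
  set q : V := p + n • e with hq
  obtain ⟨i, rfl⟩ := Nat.exists_eq_add_of_le hk
  obtain ⟨m, hm⟩ := Nat.exists_eq_add_of_le hl
  set L := κ + n0 with hL
  have hL' : L = k + (i + m) := by omega
  set D : ℕ := 2 ^ (k + (i + 11)) with hD
  set M : ℕ := 2 ^ (k + (i + m + 13)) with hM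
  set ρ : ℕ := 2 ^ (κ - 2) with hρ
  have hDM : 4 * D ≤ M := by
    rw [hD, hM]
    calc 4 * 2 ^ (k + (i + 11)) = 2 ^ (k + (i + 11) + 2) := by rw [pow_add]; ring
      _ ≤ 2 ^ (k + (i + m + 13)) := Nat.pow_le_pow_right (by norm_num) (by omega)
  have hρM : 4 * ρ ≤ M := by
    rw [hρ, hM]
    calc 4 * 2 ^ (κ - 2) = 2 ^ (κ - 2 + 2) := by rw [pow_add]; ring
      _ ≤ 2 ^ (k + (i + m + 13)) := Nat.pow_le_pow_right (by norm_num) (by omega)
  have hNM : 2 * N ≤ M := by
    have h1 := hG.hN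
    rw [hM]
    calc 2 * N ≤ 2 * 2 ^ L := by rw [hL]; omega
      _ = 2 ^ (L + 1) := by rw [pow_add]; ring
      _ ≤ 2 ^ (k + (i + m + 13)) := Nat.pow_le_pow_right (by norm_num) (by omega)
  set X : Finset V := nbx_F k a.1 (b.1 - D) a.2 (b.2 - D) D M ∪
    (nbx_F k (p.1 - ρ - D) (p.1 + ρ) (p.2 - ρ - D) (p.2 + ρ) D M ∪
      nbx_F k (q.1 - ρ - D) (q.1 + ρ) (q.2 - ρ - D) (q.2 + ρ) D M) with hX
  have hXc : X.card ≤ 12 * ((2 ^ (i + 11) + 2) * (2 ^ (i + m + 13) + 2)) := by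
    rw [hX]
    refine (Finset.card_union_le _ _).trans ?_
    refine (Nat.add_le_add_left (Finset.card_union_le _ _) _).trans ?_
    have h1 := nbx_cardF (k := k) (p := i + 11) (q := i + m + 13) a.1 (b.1 - D) a.2 (b.2 - D)
    have h2 := nbx_cardF (k := k) (p := i + 11) (q := i + m + 13) (p.1 - ρ - D) (p.1 + ρ)
      (p.2 - ρ - D) (p.2 + ρ)
    have h3 := nbx_cardF (k := k) (p := i + 11) (q := i + m + 13) (q.1 - ρ - D) (q.1 + ρ)
      (q.2 - ρ - D) (q.2 + ρ)
    rw [hD, hM]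
    rw [hD] at h1 h2 h3
    omega
  have hinj : (nbx_S U (ball p ρ ∪ ball q ρ) k (k + i)).card ≤ X.card := by
    apply Finset.card_le_card_of_injOn (fun c => (c.1 / 2 ^ k, c.2 / 2 ^ k))
    · intro c hc
      rw [nbx_S, Finset.coe_filter] at hc
      obtain ⟨hc1, hc2, -, hc4⟩ := hc
      have hcU : c ∈ U := hc2.1 (mem_ball_self _ _)
      have hcT : c ∉ ball p ρ ∪ ball q ρ := fun h =>
        (Finset.disjoint_left.1 hc2.2 (mem_ball_self _ _)) h
      have hnear : c ∈ ball (cen (k + i + 1) c) (2 ^ (k + i + 1) / 2) := nbx_mem _ _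
      -- a bad vertex
      have hv : ∃ v, v ∈ ball (cen (k + i + 1) c) (2 ^ (k + i + 1 + 9)) ∧
          (v ∉ U ∨ v ∈ ball p ρ ∪ ball q ρ) := by
        by_contra hcon
        push Not at hcon
        apply hc4
        refine ⟨fun v hv => (hcon v hv).1, ?_⟩
        rw [Finset.disjoint_left]
        intro v hv
        exact (hcon v hv).2
      obtain ⟨v, hv1, hv2⟩ := hv
      have hDD : 2 ^ (k + i + 1) / 2 + 2 ^ (k + i + 1 + 9) ≤ D := by
        have e1 : 2 ^ (k + i + 1) / 2 = 2 ^ (k + i) := by rw [pow_succ]; omega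
        have e2 : 2 ^ (k + i + 1 + 9) = 2 ^ 10 * 2 ^ (k + i) := by
          rw [← pow_add]; congr 1; omega
        have e3 : D = 2 ^ 11 * 2 ^ (k + i) := by
          rw [hD, ← pow_add]; congr 1; omega
        rw [e1, e2, e3]
        have : 0 < 2 ^ (k + i) := by positivity
        omega
      have hcv : v ∈ ball c D := by
        have := mem_ball_trans (mem_ball_symm.1 hnear) hv1
        exact ball_mono hDD this
      rw [mem_ball] at hcv
      -- dimensions of U
      have hUc : (a.1 ≤ c.1 ∧ c.1 ≤ b.1) ∧ (a.2 ≤ c.2 ∧ c.2 ≤ b.2) := by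
        have := hcU
        rw [hU] at this
        simpa [Finset.mem_product] using this
      have hdim : b.1 - a.1 ≤ 2 * N ∧ b.2 - a.2 ≤ 2 * N := by
        have h1 : (a.1, a.2) ∈ inn N := hG.hUI (by
          rw [hU]; simp only [Finset.mem_product, Finset.mem_Icc]; omega)
        have h2 : (b.1, b.2) ∈ inn N := hG.hUI (by
          rw [hU]; simp only [Finset.mem_product, Finset.mem_Icc]; omega)
        rw [mem_inn] at h1 h2
        simp only at h1 h2
        omega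
      have hDM' : (4 : ℤ) * D ≤ M := by exact_mod_cast hDM
      have hρM' : (4 : ℤ) * ρ ≤ M := by exact_mod_cast hρM
      have hNM' : (2 : ℤ) * N ≤ M := by exact_mod_cast hNM
      have hD0 : (0 : ℤ) < D := by rw [hD]; positivity
      show ((c.1 / 2 ^ k, c.2 / 2 ^ k) : V) ∈ (X : Set V)
      rw [Finset.mem_coe, hX, Finset.mem_union, Finset.mem_union]
      have key : ∀ r : V, v ∈ ball r ρ → c ∉ ball r ρ →
          ((c.1 / 2 ^ k, c.2 / 2 ^ k) : V) ∈
            nbx_F k (r.1 - ρ - D) (r.1 + ρ) (r.2 - ρ - D) (r.2 + ρ) D M := by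
        intro r h1 h2
        rw [mem_ball] at h1
        rw [mem_ball] at h2
        simp only [nbx_F, Finset.mem_union]
        by_cases g1 : c.1 < r.1 - ρ
        · left; left
          apply nbx_mem_R <;> omega
        by_cases g2 : r.1 + ρ < c.1
        · left; right
          apply nbx_mem_R <;> omega
        by_cases g3 : c.2 < r.2 - ρ
        · right; left
          apply nbx_mem_R <;> omega
        have g4 : r.2 + ρ < c.2 := by omega
        right; right
        apply nbx_mem_R <;> omega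
      rcases hv2 with hv2 | hv2
      · left
        rw [hU] at hv2
        simp only [Finset.mem_product, Finset.mem_Icc] at hv2
        simp only [nbx_F, Finset.mem_union]
        by_cases g1 : v.1 < a.1
        · left; left
          apply nbx_mem_R <;> omega
        by_cases g2 : b.1 < v.1
        · left; right
          apply nbx_mem_R <;> omega
        by_cases g3 : v.2 < a.2
        · right; left
          apply nbx_mem_R <;> omega
        have g4 : b.2 < v.2 := by omega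
        right; right
        apply nbx_mem_R <;> omega
      · right
        rw [Finset.mem_union] at hv2 hcT
        push Not at hcT
        rcases hv2 with hv2 | hv2
        · left; exact key p hv2 hcT.1
        · right; exact key q hv2 hcT.2
    · intro c hc c' hc' h
      rw [nbx_S, Finset.coe_filter] at hc hc'
      obtain ⟨u, -, hu⟩ := Finset.mem_image.1 hc.1
      obtain ⟨u', -, hu'⟩ := Finset.mem_image.1 hc'.1
      simp only [Prod.mk.injEq] at h
      have e1 : c = cen k c := by rw [← hu, nbx_cen_cen le_rfl]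
      have e2 : c' = cen k c' := by rw [← hu', nbx_cen_cen le_rfl]
      rw [e1, e2]
      unfold cen
      rw [h.1, h.2]
  refine hinj.trans (hXc.trans ?_)
  have e1 : k + i - k = i := by omega
  have e2 : L - k = i + m := by omega
  rw [e1, e2]
  have h1 : 2 ^ (i + 11) + 2 ≤ 2 ^ 12 * 2 ^ i := by
    rw [pow_add]
    have : 0 < 2 ^ i := by positivity
    omega
  have h2 : 2 ^ (i + m + 13) + 2 ≤ 2 ^ 14 * 2 ^ (i + m) := by
    rw [pow_add 2 (i + m) 13]
    have : 0 < 2 ^ (i + m) := by positivity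
    omega
  calc 12 * ((2 ^ (i + 11) + 2) * (2 ^ (i + m + 13) + 2))
      ≤ 12 * ((2 ^ 12 * 2 ^ i) * (2 ^ 14 * 2 ^ (i + m))) :=
        Nat.mul_le_mul_left _ (Nat.mul_le_mul h1 h2)
    _ = (12 * 2 ^ 26) * (2 ^ i * 2 ^ (i + m)) := by ring
    _ ≤ 2 ^ 30 * (2 ^ i * 2 ^ (i + m)) := Nat.mul_le_mul_right _ (by norm_num)

lemma nbx_geom {r : ℝ} (hr : 4 / 3 ≤ r) (m : ℕ) :
    ∑ i ∈ Finset.range (m + 1), r ^ i ≤ 4 * r ^ m := by
  induction m with
  | zero => simp
  | succ m ih =>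
    rw [Finset.sum_range_succ, pow_succ]
    have : 0 < r ^ m := by positivity
    nlinarith

/-- the largest scale up to which all scales are allowed -/
lemma nbx_exists_l {n0 κ N : ℕ} {U : Finset V} {p e : V} {n : ℕ} (hG : Geo n0 κ N U p e n)
    {T : Finset V} {k : ℕ} (hk : k < κ + n0) (c : V) :
    ∃ l, k ≤ l ∧ l ≤ κ + n0 ∧ (∀ k', k < k' → k' ≤ l → Allw U T k' (cen k' c)) ∧
      ¬ Allw U T (l + 1) (cen (l + 1) c) := by
  have hbig : ¬ Allw U T (κ + n0) (cen (κ + n0) c) := by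
    intro h
    have h1 := h.1
    have h4 := hG.hN
    have h5 : (2 : ℕ) ^ (κ + n0) ≤ 2 ^ (κ + n0 + 9) := Nat.pow_le_pow_right (by norm_num) (by omega)
    generalize 2 ^ (κ + n0 + 9) = D at h1 h5
    generalize cen (κ + n0) c = z at h1
    have h2 : (z.1 + (D : ℤ), z.2) ∈ inn N := hG.hUI (h1 (by
      rw [mem_ball]; simp only; omega))
    have h3 : (z.1 - (D : ℤ), z.2) ∈ inn N := hG.hUI (h1 (by
      rw [mem_ball]; simp only; omega))
    rw [mem_inn] at h2 h3
    simp only at h2 h3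
    omega
  have hex : ∃ j, ¬ Allw U T (k + 1 + j) (cen (k + 1 + j) c) := by
    obtain ⟨d, hd⟩ := Nat.exists_eq_add_of_le (Nat.succ_le_of_lt hk)
    refine ⟨d, ?_⟩
    have : k + 1 + d = κ + n0 := by omega
    rw [this]
    exact hbig
  classical
  refine ⟨k + Nat.find hex, by omega, ?_, ?_, ?_⟩
  · obtain ⟨d, hd⟩ := Nat.exists_eq_add_of_le (Nat.succ_le_of_lt hk)
    have : Nat.find hex ≤ d := Nat.find_min' hex (by
      have : k + 1 + d = κ + n0 := by omega
      rw [this]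
      exact hbig)
    omega
  · intro k' h1 h2
    by_contra hcon
    have := Nat.find_min' hex (m := k' - (k + 1)) (by
      have : k + 1 + (k' - (k + 1)) = k' := by omega
      rw [this]
      exact hcon)
    omega
  · have := Nat.find_spec hex
    have e : k + 1 + Nat.find hex = k + Nat.find hex + 1 := by omega
    rw [e] at this
    exact this

/-- expected number of bad cells -/
theorem nb_expect (n0 : ℕ) : ∃ K0 C c : ℝ, 0 < c ∧ 0 < C ∧ 1 ≤ K0 ∧ ∀ K : ℝ, K0 ≤ K →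
    ∀ (C1 κ N : ℕ) (U : Finset V) (p e : V) (n : ℕ), 16 ≤ κ →
    (∀ k, (∃ c, ball c (2 ^ (k + 9)) ⊆ U) → PF k K C1 q1) → Geo n0 κ N U p e n →
    ∀ {Ω : Type} [MeasurableSpace Ω] (μ : Measure Ω) (η : V → Ω → ℝ), IsDGFF N μ η →
    (∀ v, Measurable (η v)) → ∀ (lam : ℝ) (k : ℕ), k < κ + n0 →
    ∫⁻ ω, (NB U (ball p (2 ^ (κ - 2)) ∪ ball (p + n • e) (2 ^ (κ - 2))) (fun v => η v ω) lam C1 k
      : ℝ≥0∞) ∂μ ≤
      ENNReal.ofReal (C * 4 ^ (κ + n0 - k) * Real.exp (-(c * ((κ + n0 : ℝ) - k) / K ^ 2))) := by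
  obtain ⟨K0, C, c, hc, hC, hK0, hD⟩ := Dbound
  refine ⟨K0, 2 ^ 32 * C, min c (1 / 3), by positivity, by positivity, hK0, ?_⟩
  intro K hK C1 κ N U p e n hκ hPF hG Ω _ μ η hη hηm lam k hk
  set T : Finset V := ball p (2 ^ (κ - 2)) ∪ ball (p + n • e) (2 ^ (κ - 2)) with hT
  set x : Ω → V → ℝ := fun ω v => η v ω with hx
  -- probability of a bad cell
  have hK1 : 1 ≤ K := hK0.trans hK
  have hbad : ∀ l, k ≤ l → ∀ z ∈ nbx_S U T k l,
      μ {ω | Bad U T (x ω) lam C1 k z} ≤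
        ENNReal.ofReal (C * Real.exp (-(c * ((l : ℝ) - k) / K ^ 2))) := by
    intro l hl z hz
    rw [nbx_S, Finset.mem_filter] at hz
    obtain ⟨hz1, hz2, hz3, -⟩ := hz
    refine le_trans (measure_mono ?_) (hD K hK C1 N k l hl ?_ μ η hη hηm lam
      (fun k' => cen k' z) ?_ ?_)
    · intro ω hω k' h1 h2
      exact hω k' h1 (hz3 k' h1 h2)
    · intro k' h1 h2
      exact hPF k' ⟨_, (hz3 k' h1 h2).1⟩
    · intro k' h1 h2
      exact (hz3 k' h1 h2).1.trans hG.hUI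
    · intro k' k'' h1 h2 h3
      exact nbx_nest h2 z
  -- the sum
  have hsum : ∀ ω, (NB U T (x ω) lam C1 k : ℝ≥0∞) ≤
      ∑ l ∈ Finset.Icc k (κ + n0), ∑ z ∈ nbx_S U T k l,
        (toMeasurable μ {ω | Bad U T (x ω) lam C1 k z}).indicator (fun _ => (1 : ℝ≥0∞)) ω := by
    intro ω
    have h1 : (((U.image (cen k)).filter (fun c => Allw U T k c ∧ Bad U T (x ω) lam C1 k c))) ⊆
        (Finset.Icc k (κ + n0)).biUnion (fun l =>
          (nbx_S U T k l).filter (fun c => Bad U T (x ω) lam C1 k c)) := by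
      intro z hz
      rw [Finset.mem_filter] at hz
      obtain ⟨hz1, hz2, hz3⟩ := hz
      obtain ⟨l, h1, h2, h3, h4⟩ := nbx_exists_l (T := T) hG hk z
      rw [Finset.mem_biUnion]
      exact ⟨l, Finset.mem_Icc.2 ⟨h1, h2⟩, Finset.mem_filter.2
        ⟨Finset.mem_filter.2 ⟨hz1, hz2, h3, h4⟩, hz3⟩⟩
    have h2 : NB U T (x ω) lam C1 k ≤ ∑ l ∈ Finset.Icc k (κ + n0),
        ((nbx_S U T k l).filter (fun c => Bad U T (x ω) lam C1 k c)).card :=
      (Finset.card_le_card h1).trans Finset.card_biUnion_le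
    have h3 : (NB U T (x ω) lam C1 k : ℝ≥0∞) ≤ ((∑ l ∈ Finset.Icc k (κ + n0),
        ((nbx_S U T k l).filter (fun c => Bad U T (x ω) lam C1 k c)).card : ℕ) : ℝ≥0∞) := by
      exact_mod_cast h2
    refine h3.trans ?_
    rw [Nat.cast_sum]
    refine Finset.sum_le_sum (fun l _ => ?_)
    rw [Finset.card_filter, Nat.cast_sum]
    refine Finset.sum_le_sum (fun z _ => ?_)
    by_cases hz : Bad U T (x ω) lam C1 k z
    · rw [if_pos hz, Set.indicator_of_mem]
      · simp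
      · exact subset_toMeasurable μ _ hz
    · rw [if_neg hz]
      simp
  have hstep : ∫⁻ ω, (NB U T (x ω) lam C1 k : ℝ≥0∞) ∂μ ≤
      ∑ l ∈ Finset.Icc k (κ + n0), ∑ z ∈ nbx_S U T k l, μ {ω | Bad U T (x ω) lam C1 k z} := by
    refine (lintegral_mono hsum).trans (le_of_eq ?_)
    rw [lintegral_finsetSum]
    · refine Finset.sum_congr rfl (fun l _ => ?_)
      rw [lintegral_finsetSum]
      · refine Finset.sum_congr rfl (fun z _ => ?_)
        rw [lintegral_indicator_const (measurableSet_toMeasurable _ _), one_mul,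
          measure_toMeasurable]
      · intro z _
        exact measurable_const.indicator (measurableSet_toMeasurable _ _)
    · intro l _
      refine Finset.measurable_sum _ (fun z _ => ?_)
      exact measurable_const.indicator (measurableSet_toMeasurable _ _)
  refine hstep.trans ?_
  -- numerics
  obtain ⟨m, hm⟩ := Nat.exists_eq_add_of_le hk.le
  set δ : ℝ := min c (1 / 3) / K ^ 2 with hδ
  have hmin : 0 < min c (1 / 3) := by positivity
  have hK2 : 1 ≤ K ^ 2 := by nlinarith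
  have hδ0 : 0 ≤ δ := by positivity
  have hδ1 : δ ≤ 1 / 3 := by
    rw [hδ, div_le_iff₀ (by positivity)]
    have := min_le_right c (1 / 3)
    nlinarith
  have hterm : ∀ l ∈ Finset.Icc k (κ + n0),
      ∑ z ∈ nbx_S U T k l, μ {ω | Bad U T (x ω) lam C1 k z} ≤
        ENNReal.ofReal (2 ^ 30 * 2 ^ m * C * (2 * Real.exp (-δ)) ^ (l - k)) := by
    intro l hl
    rw [Finset.mem_Icc] at hl
    refine (Finset.sum_le_card_nsmul _ _ _ (hbad l hl.1)).trans ?_
    rw [nsmul_eq_mul, ← ENNReal.ofReal_natCast, ← ENNReal.ofReal_mul (by positivity)]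
    apply ENNReal.ofReal_le_ofReal
    have h1 := nbx_cardS hG hl.1 hl.2
    rw [← hT] at h1
    have e1 : κ + n0 - k = m := by omega
    rw [e1] at h1
    have h2 : ((nbx_S U T k l).card : ℝ) ≤ 2 ^ 30 * (2 ^ (l - k) * 2 ^ m) := by exact_mod_cast h1
    have h3 : Real.exp (-(c * ((l : ℝ) - k) / K ^ 2)) ≤ (Real.exp (-δ)) ^ (l - k) := by
      rw [← Real.exp_nat_mul]
      apply Real.exp_le_exp.2
      rw [Nat.cast_sub hl.1, hδ]
      have h4 : (0 : ℝ) ≤ (l : ℝ) - k := by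
        have : (k : ℝ) ≤ l := by exact_mod_cast hl.1
        linarith
      have h5 : min c (1 / 3) * ((l : ℝ) - k) / K ^ 2 ≤ c * ((l : ℝ) - k) / K ^ 2 := by
        apply div_le_div_of_nonneg_right _ (by positivity)
        exact mul_le_mul_of_nonneg_right (min_le_left _ _) h4
      have h6 : ((l : ℝ) - k) * -(min c (1 / 3) / K ^ 2) =
          -(min c (1 / 3) * ((l : ℝ) - k) / K ^ 2) := by ring
      rw [h6]
      linarith
    calc ((nbx_S U T k l).card : ℝ) * (C * Real.exp (-(c * ((l : ℝ) - k) / K ^ 2)))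
        ≤ (2 ^ 30 * (2 ^ (l - k) * 2 ^ m)) * (C * (Real.exp (-δ)) ^ (l - k)) := by
          apply mul_le_mul h2 _ (by positivity) (by positivity)
          exact mul_le_mul_of_nonneg_left h3 hC.le
      _ = 2 ^ 30 * 2 ^ m * C * (2 * Real.exp (-δ)) ^ (l - k) := by rw [mul_pow]; ring
  refine (Finset.sum_le_sum hterm).trans ?_
  rw [← ENNReal.ofReal_sum_of_nonneg (fun l _ => by positivity)]
  apply ENNReal.ofReal_le_ofReal
  rw [← Finset.mul_sum]
  have e2 : ∑ l ∈ Finset.Icc k (κ + n0), (2 * Real.exp (-δ)) ^ (l - k) =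
      ∑ i ∈ Finset.range (m + 1), (2 * Real.exp (-δ)) ^ i := by
    have e3 : Finset.Icc k (κ + n0) = Finset.Ico k (k + (m + 1)) := by
      ext t; simp only [Finset.mem_Icc, Finset.mem_Ico]; omega
    rw [e3, Finset.sum_Ico_eq_sum_range]
    have e4 : k + (m + 1) - k = m + 1 := by omega
    rw [e4]
    refine Finset.sum_congr rfl (fun i _ => ?_)
    congr 1
    omega
  rw [e2]
  have hr : 4 / 3 ≤ 2 * Real.exp (-δ) := by
    have := Real.add_one_le_exp (-δ)
    linarith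
  have h7 := nbx_geom hr m
  have e5 : κ + n0 - k = m := by omega
  rw [e5]
  have e6 : ((κ : ℝ) + n0) - k = m := by
    have : ((κ + n0 : ℕ) : ℝ) = k + m := by rw [hm]; push_cast; ring
    push_cast at this
    linarith
  rw [e6]
  have e7 : Real.exp (-(min c (1 / 3) * (m : ℝ) / K ^ 2)) = (Real.exp (-δ)) ^ m := by
    rw [← Real.exp_nat_mul, hδ]
    congr 1
    ring
  rw [e7]
  calc 2 ^ 30 * 2 ^ m * C * ∑ i ∈ Finset.range (m + 1), (2 * Real.exp (-δ)) ^ i
      ≤ 2 ^ 30 * 2 ^ m * C * (4 * (2 * Real.exp (-δ)) ^ m) :=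
        mul_le_mul_of_nonneg_left h7 (by positivity)
    _ = 2 ^ 32 * C * 4 ^ m * (Real.exp (-δ)) ^ m := by
        have e8 : (4 : ℝ) ^ m = 2 ^ m * 2 ^ m := by rw [← mul_pow]; norm_num
        rw [mul_pow, e8]; ring

end Pool.H92.GFL
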