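import Pool.Agent.helper92.GFL.AC7
import Pool.Agent.helper92.GFL.E1
import Pool.Agent.helper92.GFL.NBX
import Pool.Agent.helper92.GFL.J1
import Pool.Agent.helper92.GFL.J2
import Pool.Agent.helper92.GFL.GBs
import Pool.Agent.helper92.GFL.GBn
import Pool.Agent.helper92.GFL.L3

/-!
Crossing of corridors.
-/

namespace Pool.H92.GFL

open Function Finset MeasureTheory ProbabilityTheory Pool.H92.GFF
open scoped Classical ENNReal

lemma gb_meas_Mx {Ω : Type*} [MeasurableSpace Ω] {η : V → Ω → ℝ} (hm : ∀ v, Measurable (η v))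
    {U S : Finset V} (hS : S ⊆ U) (I : Finset V) (F : V → ℝ) (lam : ℝ) (r : ℕ) :
    Measurable (fun ω => Mx I (Bs U S (fun v => η v ω ≤ lam) r) F (fun v => η v ω)) := by
  have e1 : (fun ω => Mx I (Bs U S (fun v => η v ω ≤ lam) r) F (fun v => η v ω)) =
      fun ω => ∑ E ∈ U.powerset, {ω | Bs U S (fun v => η v ω ≤ lam) r = E}.indicator
        (fun ω => Mx I E F (fun v => η v ω)) ω := by
    funext ω
    rw [Finset.sum_eq_single (Bs U S (fun v => η v ω ≤ lam) r)]
    · rw [Set.indicator_of_mem]; rfl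
    · intro E _ hE
      rw [Set.indicator_of_notMem]
      intro hh; exact hE hh.symm
    · intro hh
      exact absurd (Finset.mem_powerset.2 (Bs_subset hS r)) hh
  rw [e1]
  refine Finset.measurable_sum _ (fun E _ => Measurable.indicator ?_
    (meas_Bs hS η lam (fun v _ => hm v) r E))
  unfold Mx
  exact Finset.measurable_sum _ (fun u _ => (hm u).const_mul _)

lemma gb_meas_Bad {Ω : Type*} [MeasurableSpace Ω] {η : V → Ω → ℝ} (hm : ∀ v, Measurable (η v))
    (U T : Finset V) (lam : ℝ) (C1 k : ℕ) (c : V) :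
    MeasurableSet {ω | Bad U T (fun v => η v ω) lam C1 k c} := by
  have hη : Measurable (fun ω (v : V) => η v ω) := measurable_pi_lambda _ hm
  have e : {ω | Bad U T (fun v => η v ω) lam C1 k c} = ⋂ k' : ℕ,
      {ω | k < k' → Allw U T k' (cen k' c) → ¬ Nice (fun v => η v ω) lam (cen k' c) k' C1 ∧
        ¬ Blk (fun v => η v ω) lam (cen k' c) k'} := by
    ext ω
    simp only [Bad, Set.mem_ofPred_eq, Set.mem_iInter]
  rw [e]
  refine MeasurableSet.iInter (fun k' => ?_)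
  by_cases h1 : k < k' ∧ Allw U T k' (cen k' c)
  · have e2 : {ω | k < k' → Allw U T k' (cen k' c) →
        ¬ Nice (fun v => η v ω) lam (cen k' c) k' C1 ∧
        ¬ Blk (fun v => η v ω) lam (cen k' c) k'} =
        ((fun ω (v : V) => η v ω) ⁻¹' {ψ : V → ℝ | Nice ψ lam (cen k' c) k' C1})ᶜ ∩
        ((fun ω (v : V) => η v ω) ⁻¹' {ψ : V → ℝ | Blk ψ lam (cen k' c) k'})ᶜ := by
      ext ω
      simp only [Set.mem_ofPred_eq, Set.mem_inter_iff, Set.mem_compl_iff, Set.mem_preimage]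
      constructor
      · intro h; exact h h1.1 h1.2
      · intro h _ _; exact h
    rw [e2]
    exact ((hη (meas_Nice _ _ _ _)).compl).inter ((hη (meas_Blk _ _ _)).compl)
  · have e2 : {ω | k < k' → Allw U T k' (cen k' c) →
        ¬ Nice (fun v => η v ω) lam (cen k' c) k' C1 ∧
        ¬ Blk (fun v => η v ω) lam (cen k' c) k'} = Set.univ := by
      ext ω
      simp only [Set.mem_ofPred_eq, Set.mem_univ, iff_true]
      intro h2 h3; exact absurd ⟨h2, h3⟩ h1
    rw [e2]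
    exact MeasurableSet.univ

lemma gb_meas_NB {Ω : Type*} [MeasurableSpace Ω] {η : V → Ω → ℝ} (hm : ∀ v, Measurable (η v))
    (U T : Finset V) (lam : ℝ) (C1 k : ℕ) :
    Measurable (fun ω => (NB U T (fun v => η v ω) lam C1 k : ℝ)) := by
  have e : (fun ω => (NB U T (fun v => η v ω) lam C1 k : ℝ)) = fun ω =>
      ∑ c ∈ U.image (cen k), (if Allw U T k c ∧ Bad U T (fun v => η v ω) lam C1 k c then (1 : ℝ)
        else 0) := by
    funext ω
    unfold NB
    rw [Finset.card_filter]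
    push_cast
    rfl
  rw [e]
  refine Finset.measurable_sum _ (fun c _ => ?_)
  refine Measurable.ite ?_ measurable_const measurable_const
  by_cases h1 : Allw U T k c
  · simp only [h1, true_and]
    exact gb_meas_Bad hm U T lam C1 k c
  · simp only [h1, false_and]
    exact MeasurableSet.empty

lemma gb_hit {n0 κ N : ℕ} {U : Finset V} {p e : V} {n : ℕ} (h : Geo n0 κ N U p e n) :
    ball p (2 ^ (κ - 2)) ⊆ U ∧ ball (p + n • e) (2 ^ (κ - 2)) ⊆ U ∧
      ball (p + n • e) (2 ^ κ) ⊆ inn N := by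
  have h2 : 2 ^ (κ - 2) ≤ 2 ^ κ := Nat.pow_le_pow_right (by norm_num) (by omega)
  refine ⟨?_, ?_, ?_⟩
  · have := h.hseg 0 (Nat.zero_le _)
    rw [zero_smul, add_zero] at this
    exact (ball_mono h2).trans this
  · exact (ball_mono h2).trans (h.hseg n le_rfl)
  · exact (h.hseg n le_rfl).trans h.hUI

/-- Markov bound for the number of bad cells -/
lemma gb_markov {Ω : Type*} [MeasurableSpace Ω] {μ : Measure Ω} [IsProbabilityMeasure μ]
    (L : ℕ) (Nb : ℕ → Ω → ℝ) (hNb : ∀ k, Measurable (Nb k)) (hNb0 : ∀ k ω, 0 ≤ Nb k ω)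
    (b : ℕ → ℝ) (hb : ∀ k, 0 < b k)
    (hE : ∀ k < L, ∫⁻ ω, ENNReal.ofReal (Nb k ω) ∂μ ≤ ENNReal.ofReal (b k)) (w : ℕ → ℝ)
    (hw : ∀ k < L, 0 ≤ w k) {M A : ℝ} (hM : 0 ≤ M) (hA : 0 < A) :
    μ {ω | A ≤ M + ∑ k ∈ Finset.range L, w k * √(Nb k ω)} ≤
      ENNReal.ofReal ((M + ∑ k ∈ Finset.range L, w k * √(b k)) / A) := by
  set f : Ω → ℝ := fun ω => M + ∑ k ∈ Finset.range L,
    (w k * (1 / (2 * √(b k))) * Nb k ω + w k * (√(b k) / 2)) with hf
  have hsb : ∀ k, 0 < √(b k) := fun k => Real.sqrt_pos.2 (hb k)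
  have hfm : Measurable (fun ω => ENNReal.ofReal (f ω)) := by
    apply ENNReal.measurable_ofReal.comp
    refine measurable_const.add (Finset.measurable_sum _ (fun k _ => ?_))
    exact ((hNb k).const_mul _).add measurable_const
  have h1 : {ω | A ≤ M + ∑ k ∈ Finset.range L, w k * √(Nb k ω)} ⊆
      {ω | ENNReal.ofReal A ≤ ENNReal.ofReal (f ω)} := by
    intro ω hω
    have hω' : A ≤ M + ∑ k ∈ Finset.range L, w k * √(Nb k ω) := hω
    apply ENNReal.ofReal_le_ofReal
    refine hω'.trans ?_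
    rw [hf]
    refine add_le_add le_rfl (Finset.sum_le_sum (fun k hk => ?_))
    have hw' := hw k (Finset.mem_range.1 hk)
    rw [mul_assoc, ← mul_add]
    refine mul_le_mul_of_nonneg_left ?_ hw'
    have h2 : √(Nb k ω) ^ 2 = Nb k ω := Real.sq_sqrt (hNb0 k ω)
    have h3 := hsb k
    have h4 : 0 ≤ (√(Nb k ω) - √(b k)) ^ 2 / (2 * √(b k)) := by positivity
    have h5 : (√(Nb k ω) - √(b k)) ^ 2 / (2 * √(b k)) =
        1 / (2 * √(b k)) * √(Nb k ω) ^ 2 + √(b k) / 2 - √(Nb k ω) := by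
      field_simp
      ring
    rw [h2] at h5
    linarith
  have h2 : ∫⁻ ω, ENNReal.ofReal (f ω) ∂μ ≤
      ENNReal.ofReal (M + ∑ k ∈ Finset.range L, w k * √(b k)) := by
    have e1 : ∀ ω, ENNReal.ofReal (f ω) = ENNReal.ofReal M + ∑ k ∈ Finset.range L,
        (ENNReal.ofReal (w k * (1 / (2 * √(b k)))) * ENNReal.ofReal (Nb k ω) +
          ENNReal.ofReal (w k * (√(b k) / 2))) := by
      intro ω
      rw [hf]
      simp only
      rw [ENNReal.ofReal_add hM (Finset.sum_nonneg (fun k hk => ?_)),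
        ENNReal.ofReal_sum_of_nonneg (fun k hk => ?_)]
      · congr 1
        refine Finset.sum_congr rfl (fun k hk => ?_)
        have hw' := hw k (Finset.mem_range.1 hk)
        have h3 := hsb k
        have h4 := hNb0 k ω
        rw [ENNReal.ofReal_add (by positivity) (by positivity),
          ENNReal.ofReal_mul (p := w k * (1 / (2 * √(b k)))) (by positivity)]
      · have hw' := hw k (Finset.mem_range.1 hk)
        have h3 := hsb k
        have h4 := hNb0 k ω
        positivity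
      · have hw' := hw k (Finset.mem_range.1 hk)
        have h3 := hsb k
        have h4 := hNb0 k ω
        positivity
    simp only [e1]
    have hmk : ∀ k, Measurable (fun ω => ENNReal.ofReal (w k * (1 / (2 * √(b k)))) *
        ENNReal.ofReal (Nb k ω)) := fun k =>
      (ENNReal.measurable_ofReal.comp (hNb k)).const_mul _
    have hmk' : ∀ k ∈ Finset.range L, Measurable (fun ω =>
        ENNReal.ofReal (w k * (1 / (2 * √(b k)))) * ENNReal.ofReal (Nb k ω) +
          ENNReal.ofReal (w k * (√(b k) / 2))) := fun k _ => (hmk k).add measurable_const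
    rw [lintegral_add_left measurable_const, lintegral_finsetSum _ hmk']
    simp only [lintegral_const, measure_univ, mul_one]
    rw [ENNReal.ofReal_add hM (Finset.sum_nonneg (fun k hk =>
      mul_nonneg (hw k (Finset.mem_range.1 hk)) (hsb k).le)),
      ENNReal.ofReal_sum_of_nonneg (fun k hk =>
      mul_nonneg (hw k (Finset.mem_range.1 hk)) (hsb k).le)]
    gcongr with k hk
    have hw' := hw k (Finset.mem_range.1 hk)
    have h3 := hsb k
    have hmN : Measurable (fun ω => ENNReal.ofReal (Nb k ω)) :=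
      ENNReal.measurable_ofReal.comp (hNb k)
    rw [lintegral_add_left (hmk k), lintegral_const_mul _ hmN]
    simp only [lintegral_const, measure_univ, mul_one]
    calc ENNReal.ofReal (w k * (1 / (2 * √(b k)))) * ∫⁻ ω, ENNReal.ofReal (Nb k ω) ∂μ +
          ENNReal.ofReal (w k * (√(b k) / 2))
        ≤ ENNReal.ofReal (w k * (1 / (2 * √(b k)))) * ENNReal.ofReal (b k) +
          ENNReal.ofReal (w k * (√(b k) / 2)) := by
          gcongr
          exact hE k (Finset.mem_range.1 hk)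
      _ = ENNReal.ofReal (w k * √(b k)) := by
          rw [← ENNReal.ofReal_mul (by positivity), ← ENNReal.ofReal_add
            (by have := (hb k).le; positivity) (by positivity)]
          congr 1
          have h4 : √(b k) * √(b k) = b k := Real.mul_self_sqrt (hb k).le
          have h5 : w k * (1 / (2 * √(b k))) * b k = w k * (√(b k) / 2) := by
            rw [← h4]
            rw [Real.sqrt_mul_self (hsb k).le]
            field_simp
          rw [h5]; ring
  have h3 := mul_meas_ge_le_lintegral (μ := μ) hfm (ENNReal.ofReal A)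
  have hA' : ENNReal.ofReal A ≠ 0 := by
    rw [ne_eq, ENNReal.ofReal_eq_zero, not_le]; exact hA
  have h4 : μ {ω | ENNReal.ofReal A ≤ ENNReal.ofReal (f ω)} ≤
      ENNReal.ofReal (M + ∑ k ∈ Finset.range L, w k * √(b k)) / ENNReal.ofReal A := by
    rw [ENNReal.le_div_iff_mul_le (Or.inl hA') (Or.inl ENNReal.ofReal_ne_top), mul_comm]
    exact h3.trans h2
  refine (measure_mono h1).trans (h4.trans ?_)
  rw [ENNReal.ofReal_div_of_pos hA]

/-- large corridors -/
theorem GB_large (n0 : ℕ) : ∃ K0 C c lam0 : ℝ, 0 < c ∧ 0 < C ∧ 1 ≤ K0 ∧ 0 < lam0 ∧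
    ∀ K : ℝ, K0 ≤ K →
    ∀ (C1 κ N : ℕ) (U : Finset V) (p e : V) (n : ℕ), 1 ≤ C1 → 16 ≤ κ →
    (∀ k, (∃ c, ball c (2 ^ (k + 9)) ⊆ U) → PF k K C1 q1) → Geo n0 κ N U p e n →
    ∀ {Ω : Type} [MeasurableSpace Ω] (μ : Measure Ω) (η : V → Ω → ℝ), IsDGFF N μ η →
    (∀ v, Measurable (η v)) → ∀ (lam : ℝ) (R : ℕ), lam0 ≤ lam → 1 ≤ R →
    μ {ω | ¬ Reach U (ball p (2 ^ (κ - 2))) (ball (p + n • e) (2 ^ (κ - 2)))
      (fun v => η v ω) lam R} ≤
      ENNReal.ofReal (C * Real.exp (-(c * lam ^ 2)) + C * C1 * K ^ 6 * 2 ^ κ / R) := by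
  obtain ⟨k1, hk1, H1⟩ := kappa1 n0
  obtain ⟨Ca, Cb, hCa, hCb, H2⟩ := accounting n0
  obtain ⟨Cc, hCc, H3⟩ := cp_corridor
  obtain ⟨K0, Cn, cn, hcn, hCn, hK0, H4⟩ := nb_expect n0
  obtain ⟨cl, Cl, s0, hcl, hCl, hs0, H5⟩ := logbound
  obtain ⟨Cg, hCg, H6⟩ := gb_sum cn hcn
  set cs : ℝ := k1 / (2 * Ca) with hcs
  have hcs0 : 0 < cs := by positivity
  set C2 : ℝ := (1 + √Cn * Cg * 2 ^ n0) * (4 * Cb * (1 + cs) / k1) with hC2
  have hC20 : 0 < C2 := by positivity
  refine ⟨K0, 1 + Cl + C2, min (k1 ^ 2 / (32 * Cc)) (cl * cs ^ 2), s0 / cs, ?_, by positivity,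
    hK0, by positivity, ?_⟩
  · apply lt_min <;> positivity
  intro K hK C1 κ N U p e n hC1 hκ hPF hG Ω _ μ η hη hm lam R hlam hR
  have := hη.isProb
  have hK1 : 1 ≤ K := hK0.trans hK
  have hlam0 : 0 < lam := lt_of_lt_of_le (by positivity) hlam
  set s : ℝ := cs * lam with hs
  have hss0 : s0 ≤ s := by
    rw [div_le_iff₀ hcs0] at hlam; rw [hs]; linarith
  have hs' : 0 ≤ s := by positivity
  obtain ⟨hSU, hBU, hBI⟩ := gb_hit hG
  set S := ball p (2 ^ (κ - 2)) with hS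
  set B := ball (p + n • e) (2 ^ (κ - 2)) with hB
  have hBI' : B ⊆ inn N := hBU.trans hG.hUI
  have hcp : cp (inn N) B ≤ Cc := H3 N κ _ (by omega) hBI
  set Mt : ℕ → Ω → ℝ := fun t ω => Mx (inn N) (Bs U S (fun v => η v ω ≤ lam) t)
    (eqp (inn N) B) (fun v => η v ω) with hMt
  set Nb : ℕ → Ω → ℝ := fun k ω => (NB U (S ∪ B) (fun v => η v ω) lam C1 k : ℝ) with hNb
  set w : ℕ → ℝ := fun k => 2 ^ k * ((κ + n0 : ℝ) - k + 1) ^ 2 with hw
  set A : ℝ := R * k1 / (4 * Cb * C1 * (1 + cs)) with hA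
  have hC1r : (1 : ℝ) ≤ C1 := by exact_mod_cast hC1
  have hRr : (1 : ℝ) ≤ R := by exact_mod_cast hR
  have hA0 : 0 < A := by
    rw [hA]; positivity
  -- inclusion of events
  have hincl : {ω | ¬ Reach U S B (fun v => η v ω) lam R} ⊆
      {ω | ¬ LogB N (κ + n0) U S (fun v => η v ω) lam R s} ∪
      ({ω | k1 * lam / (4 * Cc) * (R * (lam * k1 / 4)) ≤
        ∑ t ∈ Finset.Icc 1 R, k1 * lam / (4 * Cc) * Mt t ω} ∪
      {ω | A ≤ 2 ^ κ + ∑ k ∈ Finset.range (κ + n0), w k * √(Nb k ω)}) := by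
    intro ω hω
    have hω' : ¬ Reach U S B (fun v => η v ω) lam R := hω
    by_cases hL : LogB N (κ + n0) U S (fun v => η v ω) lam R s
    · right
      have h1 := H2 κ N U p e n hκ hG (fun v => η v ω) lam s R C1 hlam0 hs' hC1 hω' hL
      have h2 := H1 κ N U p e n (by omega) hG
      have h3 : (R : ℝ) * (lam * k1 / 2) ≤ R * (lam * kap1 N κ U p e n - Ca * s) := by
        apply mul_le_mul_of_nonneg_left _ (by positivity)
        have h4 : Ca * s = lam * k1 / 2 := by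
          rw [hs, hcs]; field_simp
        rw [h4]
        nlinarith
      by_cases h5 : R * (lam * k1 / 4) ≤ ∑ t ∈ Finset.Icc 1 R, Mt t ω
      · left
        show k1 * lam / (4 * Cc) * (R * (lam * k1 / 4)) ≤
          ∑ t ∈ Finset.Icc 1 R, k1 * lam / (4 * Cc) * Mt t ω
        rw [← Finset.mul_sum]
        exact mul_le_mul_of_nonneg_left h5 (by positivity)
      · right
        push Not at h5
        show A ≤ 2 ^ κ + ∑ k ∈ Finset.range (κ + n0), w k * √(Nb k ω)
        have h6 : ∑ k ∈ Finset.range (κ + n0), 2 ^ k * √(NB U (S ∪ B) (fun v => η v ω) lam C1 k : ℝ) *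
            ((κ + n0 : ℝ) - k + 1) ^ 2 = ∑ k ∈ Finset.range (κ + n0), w k * √(Nb k ω) := by
          refine Finset.sum_congr rfl (fun k _ => ?_)
          simp only [hw, hNb]; ring
        rw [← hS, ← hB] at h1
        rw [h6] at h1
        have h7 : (R : ℝ) * (lam * k1 / 4) ≤ Cb * C1 * (lam + s) *
            (2 ^ κ + ∑ k ∈ Finset.range (κ + n0), w k * √(Nb k ω)) := by
          have h8 : (R : ℝ) * (lam * k1 / 2) = R * (lam * k1 / 4) + R * (lam * k1 / 4) := by ring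
          simp only [hMt] at h5
          linarith
        have h9 : Cb * C1 * (lam + s) = lam * (Cb * C1 * (1 + cs)) := by rw [hs]; ring
        rw [h9] at h7
        rw [hA, div_le_iff₀ (by positivity)]
        have h10 : lam * (R * k1) ≤ lam * ((2 ^ κ + ∑ k ∈ Finset.range (κ + n0), w k * √(Nb k ω)) *
            (4 * Cb * C1 * (1 + cs))) := by nlinarith
        exact le_of_mul_le_mul_left h10 hlam0
    · left; exact hL
  refine (measure_mono hincl).trans ((measure_union_le _ _).trans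
    (add_le_add le_rfl (measure_union_le _ _) |>.trans ?_))
  -- the three probabilities
  have p1 : μ {ω | ¬ LogB N (κ + n0) U S (fun v => η v ω) lam R s} ≤
      ENNReal.ofReal (Cl * Real.exp (-(cl * cs ^ 2 * lam ^ 2))) := by
    have := H5 N (κ + n0) hG.hN μ η hη hm U S hSU hG.hUI lam R s hss0
    have e : cl * s ^ 2 = cl * cs ^ 2 * lam ^ 2 := by rw [hs]; ring
    rw [e] at this
    exact this
  have p2 : μ {ω | k1 * lam / (4 * Cc) * (R * (lam * k1 / 4)) ≤
        ∑ t ∈ Finset.Icc 1 R, k1 * lam / (4 * Cc) * Mt t ω} ≤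
      ENNReal.ofReal (Real.exp (-(k1 ^ 2 / (32 * Cc) * lam ^ 2))) := by
    have hJ : (Finset.Icc 1 R).Nonempty := ⟨1, Finset.mem_Icc.2 ⟨le_rfl, hR⟩⟩
    have h1 := markov_avg (μ := μ) (Finset.Icc 1 R) hJ (fun t ω => k1 * lam / (4 * Cc) * Mt t ω)
      (fun t _ => (gb_meas_Mx hm hSU _ _ _ _).const_mul _)
      (ENNReal.ofReal (Real.exp ((k1 * lam / (4 * Cc)) ^ 2 *
        D (eqp (inn N) B) (eqp (inn N) B) / 2))) (fun t _ => ?_)
      (k1 * lam / (4 * Cc) * (R * (lam * k1 / 4)))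
    · refine h1.trans ?_
      rw [← ENNReal.ofReal_mul (Real.exp_pos _).le, ← Real.exp_add]
      apply ENNReal.ofReal_le_ofReal
      apply Real.exp_le_exp.2
      rw [Nat.card_Icc]
      have e1 : ((R + 1 - 1 : ℕ) : ℝ) = R := by simp
      rw [e1]
      have e2 : k1 * lam / (4 * Cc) * (R * (lam * k1 / 4)) / R = k1 ^ 2 * lam ^ 2 / (16 * Cc) := by
        field_simp; norm_num
      rw [e2]
      have e3 : (k1 * lam / (4 * Cc)) ^ 2 * D (eqp (inn N) B) (eqp (inn N) B) / 2 ≤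
          (k1 * lam / (4 * Cc)) ^ 2 * Cc / 2 := by
        have : D (eqp (inn N) B) (eqp (inn N) B) ≤ Cc := hcp
        have := mul_le_mul_of_nonneg_left this (sq_nonneg (k1 * lam / (4 * Cc)))
        linarith
      have e4 : (k1 * lam / (4 * Cc)) ^ 2 * Cc / 2 = k1 ^ 2 * lam ^ 2 / (32 * Cc) := by
        field_simp; norm_num
      have e5 : k1 ^ 2 * lam ^ 2 / (16 * Cc) = 2 * (k1 ^ 2 * lam ^ 2 / (32 * Cc)) := by
        field_simp; norm_num
      have e6 : k1 ^ 2 / (32 * Cc) * lam ^ 2 = k1 ^ 2 * lam ^ 2 / (32 * Cc) := by ring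
      rw [e6]
      linarith
    · have := jensen_local hη hm (fun x => Bs U S (fun v => x v ≤ lam) t)
        (fun x => (Bs_subset hSU t).trans hG.hUI) (fun x x' hx => ?_) (fun E => ?_)
        (F := eqp (inn N) B) (fun v hv => eqp_zero hBI' hv) (k1 * lam / (4 * Cc))
      · exact this
      · exact (Bs_eq_iff (fun v hv => by rw [hx v hv])).1 rfl
      · exact meas_Bs hSU (fun v (x : V → ℝ) => x v) lam (fun v _ => measurable_pi_apply v) t E
  have p3 : μ {ω | A ≤ 2 ^ κ + ∑ k ∈ Finset.range (κ + n0), w k * √(Nb k ω)} ≤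
      ENNReal.ofReal (C2 * C1 * K ^ 6 * 2 ^ κ / R) := by
    set b : ℕ → ℝ := fun k => Cn * 4 ^ (κ + n0 - k) *
      Real.exp (-(cn * ((κ + n0 : ℝ) - k) / K ^ 2)) with hb
    have hb0 : ∀ k, 0 < b k := fun k => by
      rw [hb]; positivity
    have h1 := gb_markov (μ := μ) (κ + n0) Nb (fun k => gb_meas_NB hm U (S ∪ B) lam C1 k)
      (fun k ω => by rw [hNb]; positivity) b hb0 (fun k hk => ?_) w
      (fun k _ => by rw [hw]; positivity) (M := 2 ^ κ) (A := A) (by positivity) hA0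
    · refine h1.trans (ENNReal.ofReal_le_ofReal ?_)
      have h2 : ∑ k ∈ Finset.range (κ + n0), w k * √(b k) ≤
          √Cn * (Cg * K ^ 6 * 2 ^ (κ + n0)) := by
        have h3 := H6 K hK1 (κ + n0)
        refine le_trans (le_of_eq ?_) (mul_le_mul_of_nonneg_left h3 (Real.sqrt_nonneg Cn))
        rw [Finset.mul_sum]
        refine Finset.sum_congr rfl (fun k _ => ?_)
        simp only [hw, hb]
        rw [mul_assoc Cn, Real.sqrt_mul hCn.le]
        push_cast
        ring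
      have h4 : (1 : ℝ) ≤ K ^ 6 := one_le_pow₀ hK1
      have h5 : (2 : ℝ) ^ κ ≤ K ^ 6 * 2 ^ κ := by
        have : (0 : ℝ) < 2 ^ κ := by positivity
        nlinarith
      have h6 : 2 ^ κ + ∑ k ∈ Finset.range (κ + n0), w k * √(b k) ≤
          (1 + √Cn * Cg * 2 ^ n0) * K ^ 6 * 2 ^ κ := by
        have : √Cn * (Cg * K ^ 6 * 2 ^ (κ + n0)) = √Cn * Cg * 2 ^ n0 * K ^ 6 * 2 ^ κ := by
          rw [pow_add]; ring
        rw [this] at h2
        nlinarith
      calc (2 ^ κ + ∑ k ∈ Finset.range (κ + n0), w k * √(b k)) / A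
          ≤ (1 + √Cn * Cg * 2 ^ n0) * K ^ 6 * 2 ^ κ / A :=
            div_le_div_of_nonneg_right h6 hA0.le
        _ = C2 * C1 * K ^ 6 * 2 ^ κ / R := by
            rw [hA, hC2]; field_simp
    · have h2 := H4 K hK C1 κ N U p e n hκ hPF hG μ η hη hm lam k hk
      have e1 : ∀ ω, ENNReal.ofReal (Nb k ω) =
          (NB U (S ∪ B) (fun v => η v ω) lam C1 k : ℝ≥0∞) := fun ω => by
        simp only [hNb]
        exact ENNReal.ofReal_natCast _
      simp only [e1]
      exact h2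
  refine (add_le_add p1 (add_le_add p2 p3)).trans ?_
  rw [← ENNReal.ofReal_add (by positivity) (by positivity),
    ← ENNReal.ofReal_add (by positivity) (by positivity)]
  apply ENNReal.ofReal_le_ofReal
  set c : ℝ := min (k1 ^ 2 / (32 * Cc)) (cl * cs ^ 2) with hc
  have hc1 : c ≤ k1 ^ 2 / (32 * Cc) := min_le_left _ _
  have hc2 : c ≤ cl * cs ^ 2 := min_le_right _ _
  have e1 : Real.exp (-(cl * cs ^ 2 * lam ^ 2)) ≤ Real.exp (-(c * lam ^ 2)) := by
    apply Real.exp_le_exp.2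
    have := mul_le_mul_of_nonneg_right hc2 (sq_nonneg lam)
    linarith
  have e2 : Real.exp (-(k1 ^ 2 / (32 * Cc) * lam ^ 2)) ≤ Real.exp (-(c * lam ^ 2)) := by
    apply Real.exp_le_exp.2
    have := mul_le_mul_of_nonneg_right hc1 (sq_nonneg lam)
    linarith
  have e3 : 0 < Real.exp (-(c * lam ^ 2)) := Real.exp_pos _
  have e4 : Cl * Real.exp (-(cl * cs ^ 2 * lam ^ 2)) ≤ Cl * Real.exp (-(c * lam ^ 2)) :=
    mul_le_mul_of_nonneg_left e1 hCl.le
  have e5 : C2 * C1 * K ^ 6 * 2 ^ κ / R ≤ (1 + Cl + C2) * C1 * K ^ 6 * 2 ^ κ / R := by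
    apply div_le_div_of_nonneg_right _ (by positivity)
    have : C2 ≤ 1 + Cl + C2 := by linarith
    gcongr
  have e6 : 0 ≤ C2 * Real.exp (-(c * lam ^ 2)) := by positivity
  nlinarith

theorem GB (n0 : ℕ) : ∃ K0 C c lam0 : ℝ, 0 < c ∧ 0 < C ∧ 1 ≤ K0 ∧ 0 < lam0 ∧ ∀ K : ℝ, K0 ≤ K →
    ∀ (C1 κ N : ℕ) (U : Finset V) (p e : V) (n : ℕ), 1 ≤ C1 → 2 ≤ κ →
    (∀ k, (∃ c, ball c (2 ^ (k + 9)) ⊆ U) → PF k K C1 q1) → Geo n0 κ N U p e n →
    ∀ {Ω : Type} [MeasurableSpace Ω] (μ : Measure Ω) (η : V → Ω → ℝ), IsDGFF N μ η →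
    (∀ v, Measurable (η v)) → ∀ (lam : ℝ) (R : ℕ), lam0 ≤ lam → 1 ≤ R →
    μ {ω | ¬ Reach U (ball p (2 ^ (κ - 2))) (ball (p + n • e) (2 ^ (κ - 2)))
      (fun v => η v ω) lam R} ≤
      ENNReal.ofReal (C * Real.exp (-(c * lam ^ 2)) + C * C1 * K ^ 6 * 2 ^ κ / R) := by
  obtain ⟨K0, C, c, lam0, hc, hC, hK0, hlam0, H⟩ := GB_large n0
  obtain ⟨C', c', hc', hC', H'⟩ := GB_small n0
  refine ⟨K0, C + C', min c c', max lam0 1, lt_min hc hc', by positivity, hK0,
    lt_max_of_lt_left hlam0, ?_⟩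
  intro K hK C1 κ N U p e n hC1 hκ hPF hG Ω _ μ η hη hm lam R hlam hR
  have hK1 : 1 ≤ K := hK0.trans hK
  have h1 : lam0 ≤ lam := (le_max_left _ _).trans hlam
  have h2 : 1 ≤ lam := (le_max_right _ _).trans hlam
  have hC1r : (1 : ℝ) ≤ C1 := by exact_mod_cast hC1
  have hRr : (1 : ℝ) ≤ R := by exact_mod_cast hR
  have h4 : (1 : ℝ) ≤ K ^ 6 := one_le_pow₀ hK1
  have h5 : (1 : ℝ) ≤ C1 * K ^ 6 := by nlinarith
  have e1 : Real.exp (-(c * lam ^ 2)) ≤ Real.exp (-(min c c' * lam ^ 2)) := by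
    apply Real.exp_le_exp.2
    have := mul_le_mul_of_nonneg_right (min_le_left c c') (sq_nonneg lam)
    linarith
  have e2 : Real.exp (-(c' * lam ^ 2)) ≤ Real.exp (-(min c c' * lam ^ 2)) := by
    apply Real.exp_le_exp.2
    have := mul_le_mul_of_nonneg_right (min_le_right c c') (sq_nonneg lam)
    linarith
  have e0 : 0 < Real.exp (-(min c c' * lam ^ 2)) := Real.exp_pos _
  by_cases hκ' : 16 ≤ κ
  · refine (H K hK C1 κ N U p e n hC1 hκ' hPF hG μ η hη hm lam R h1 hR).trans ?_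
    apply ENNReal.ofReal_le_ofReal
    have e3 : C * C1 * K ^ 6 * 2 ^ κ / R ≤ (C + C') * C1 * K ^ 6 * 2 ^ κ / R := by
      apply div_le_div_of_nonneg_right _ (by positivity)
      have : C ≤ C + C' := by linarith
      gcongr
    nlinarith [mul_le_mul_of_nonneg_left e1 hC.le, mul_pos hC' e0]
  · refine (H' κ N U p e n hκ (by omega) hG μ η hη hm lam R h2 hR).trans ?_
    apply ENNReal.ofReal_le_ofReal
    have e3 : C' * 2 ^ κ / R ≤ (C + C') * C1 * K ^ 6 * 2 ^ κ / R := by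
      apply div_le_div_of_nonneg_right _ (by positivity)
      have h6 : (0 : ℝ) < 2 ^ κ := by positivity
      have h7 : C' ≤ (C + C') * (C1 * K ^ 6) := by nlinarith
      have h8 : (C + C') * C1 * K ^ 6 * 2 ^ κ = ((C + C') * (C1 * K ^ 6)) * 2 ^ κ := by ring
      rw [h8]
      exact mul_le_mul_of_nonneg_right h7 h6.le
    nlinarith [mul_le_mul_of_nonneg_left e2 hC'.le, mul_pos hC e0]

end Pool.H92.GFL
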