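import Pool.Agent.helper92.GFL.PFX
import Pool.Agent.helper92.GFL.GB
import Pool.Agent.helper92.GFL.BG
import Pool.Agent.helper92.GFL.L4

/-!
The linear bound for the chemical distance.
-/

namespace Pool.H92.GFL

open Function MeasureTheory ProbabilityTheory Pool.H92.GFF
open Finset hiding box
open scoped Classical ENNReal

/-! ### from a path to the chemical distance -/

lemma fin_walk {N : ℕ} {x : V → ℝ} {lam : ℝ} {p : ℕ → V} {n : ℕ}
    (hp : ∀ i ≤ n, p i ∈ openSet N x lam) (hs : ∀ i < n, p (i + 1) = p i ∨ p (i + 1) ∈ nb (p i)) :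
    ∀ j ≤ n, ∀ i ≤ j, ∀ (hi : p i ∈ openSet N x lam) (hj : p j ∈ openSet N x lam),
      (Z2.induce (openSet N x lam)).edist ⟨_, hi⟩ ⟨_, hj⟩ ≤ ((j - i : ℕ) : ℕ∞) := by
  intro j
  induction j with
  | zero =>
    intro _ i hi h1 h2
    have : i = 0 := by omega
    subst this
    simp
  | succ j ih =>
    intro hj i hi h1 h2
    rcases Nat.lt_or_ge j i with h | h
    · have : i = j + 1 := by omega
      subst this
      simp
    · have h3 := ih (by omega) i h h1 (hp j (by omega))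
      have h4 : (Z2.induce (openSet N x lam)).edist ⟨_, hp j (by omega)⟩ ⟨_, h2⟩ ≤ 1 := by
        rcases hs j (by omega) with h5 | h5
        · have : (⟨_, hp j (by omega)⟩ : openSet N x lam) = ⟨_, h2⟩ := by
            apply Subtype.ext; exact h5.symm
          rw [this]; simp
        · have hadj : (Z2.induce (openSet N x lam)).Adj ⟨_, hp j (by omega)⟩ ⟨_, h2⟩ := by
            rw [SimpleGraph.induce_adj, adj_iff]
            exact h5
          rw [SimpleGraph.edist_eq_one_iff_adj.2 hadj]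
      refine (SimpleGraph.edist_triangle (v := ⟨_, hp j (by omega)⟩)).trans
        ((add_le_add h3 h4).trans ?_)
      have : j + 1 - i = (j - i) + 1 := by omega
      rw [this]
      push_cast
      exact le_rfl

lemma fin_bd {M : ℕ} {v w : V} (hv : v ∈ box M) (hw : w ∉ box M)
    (h : w = v ∨ w ∈ nb v) : v ∈ bd M := by
  rcases h with h | h
  · exact absurd (h ▸ hv) hw
  · by_contra hcon
    exact hw (nb_subset_box hv hcon h)

/-- a path from `V_M` to the outside of `V_K` contains a crossing from `∂V_M` to `∂V_K` -/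
lemma fin_chem {N M K n : ℕ} {x : V → ℝ} {lam : ℝ} (hMK : M ≤ K) {a b : V}
    (ha : a ∈ box M) (hb : b ∉ box K) (hc : Conn (openSet N x lam) n a b) :
    chem N x lam (bd M) (bd K) ≤ (n : ℕ∞) := by
  obtain ⟨p, hp0, hpn, hpO, hps⟩ := hc
  -- last time in `box M`
  have h1 : ∃ i ≤ n, p i ∈ box M ∧ ∀ j ≤ n, i < j → p j ∉ box M := by
    let s := (Finset.range (n + 1)).filter (fun i => p i ∈ box M)
    have hs : s.Nonempty := ⟨0, by simp [s, hp0, ha]⟩
    have hmem : ∀ j, j ∈ s ↔ j < n + 1 ∧ p j ∈ box M := fun j => by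
      simp only [s, Finset.mem_filter, Finset.mem_range]
    obtain ⟨i, hi, hmax⟩ : ∃ i ∈ s, ∀ j ∈ s, j ≤ i := ⟨s.max' hs, s.max'_mem hs, s.le_max'⟩
    have hi' := (hmem i).1 hi
    refine ⟨i, by omega, hi'.2, ?_⟩
    intro j hj hij hjM
    have : j ≤ i := hmax j ((hmem j).2 ⟨by omega, hjM⟩)
    omega
  obtain ⟨i, hi, hiM, hlast⟩ := h1
  have hin : i < n := by
    rcases Nat.lt_or_ge i n with h | h
    · exact h
    · have : i = n := by omega
      subst this
      rw [hpn] at hiM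
      exact absurd (box_mono hMK hiM) hb
  have hibd : p i ∈ bd M := fin_bd hiM (hlast (i + 1) (by omega) (by omega)) (hps i hin)
  -- first exit from `box K` after `i`
  have h2 : ∃ j, i ≤ j ∧ j < n ∧ p j ∈ box K ∧ p (j + 1) ∉ box K := by
    by_contra hcon
    push Not at hcon
    have h3 : ∀ j, i ≤ j → j ≤ n → p j ∈ box K := by
      intro j hij
      induction j, hij using Nat.le_induction with
      | base => intro _; exact box_mono hMK hiM
      | succ j hij ih =>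
        intro hj
        exact hcon j hij (by omega) (ih (by omega))
    exact hb (hpn ▸ h3 n hi le_rfl)
  obtain ⟨j, hij, hjn, hjK, hjK'⟩ := h2
  have hjbd : p j ∈ bd K := fin_bd hjK hjK' (hps j hjn)
  have h4 := fin_walk hpO hps j (by omega) i hij (hpO i hi) (hpO j (by omega))
  unfold chem
  refine iInf_le_of_le ⟨_, hpO i hi⟩ (iInf_le_of_le ⟨_, hpO j (by omega)⟩
    (iInf_le_of_le (by exact_mod_cast hibd) (iInf_le_of_le (by exact_mod_cast hjbd)
      (h4.trans ?_))))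
  exact_mod_cast (show j - i ≤ n by omega)

/-! ### transfer of the law -/

lemma fin_transfer {N : ℕ} {Ω Ω' : Type*} [MeasurableSpace Ω] [MeasurableSpace Ω']
    {μ : Measure Ω} {μ' : Measure Ω'} {η : V → Ω → ℝ} {η' : V → Ω' → ℝ}
    (h : IsDGFF N μ η) (hm : ∀ v, Measurable (η v)) (h' : IsDGFF N μ' η')
    (hm' : ∀ v, Measurable (η' v)) {U S T : Finset V} (hU : U ⊆ inn N) (hS : S ⊆ U) (hT : T ⊆ U)
    (lam : ℝ) (R : ℕ) :
    μ {ω | ¬ Reach U S T (fun v => η v ω) lam R} =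
      μ' {ω | ¬ Reach U S T (fun v => η' v ω) lam R} := by
  have hlaw := GF.law_eq (dgff_gf h hm) (dgff_gf h' hm')
  let ex : (inn N → ℝ) → V → ℝ := fun z v => if hv : v ∈ inn N then z ⟨v, hv⟩ else 0
  have hexm : ∀ v, Measurable (fun z : inn N → ℝ => ex z v) := by
    intro v
    by_cases hv : v ∈ inn N
    · simp only [ex, hv, dif_pos]; exact measurable_pi_apply _
    · simp only [ex, hv, dif_neg, not_false_eq_true]; exact measurable_const
  have hset : MeasurableSet {z : inn N → ℝ | ¬ Reach U S T (ex z) lam R} :=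
    (meas_Reach hS hT (fun v z => ex z v) lam (fun v _ => hexm v) R).compl
  have hgen : ∀ (Ω₁ : Type _) [MeasurableSpace Ω₁] (ζ : V → Ω₁ → ℝ),
      {ω | ¬ Reach U S T (fun v => ζ v ω) lam R} =
        (fun ω (v : inn N) => ζ v ω) ⁻¹' {z : inn N → ℝ | ¬ Reach U S T (ex z) lam R} := by
    intro Ω₁ _ ζ
    ext ω
    simp only [Set.mem_ofPred_eq, Set.mem_preimage, not_iff_not]
    constructor
    · intro hr
      refine hr.mono hS hT (fun v hv hv' => ?_)
      simp only [ex, dif_pos (hU hv)]; exact hv'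
    · intro hr
      refine hr.mono hS hT (fun v hv hv' => ?_)
      simp only [ex, dif_pos (hU hv)] at hv'; exact hv'
  have hgen' : ∀ (ζ : V → Ω' → ℝ),
      {ω | ¬ Reach U S T (fun v => ζ v ω) lam R} =
        (fun ω (v : inn N) => ζ v ω) ⁻¹' {z : inn N → ℝ | ¬ Reach U S T (ex z) lam R} := by
    intro ζ
    ext ω
    simp only [Set.mem_ofPred_eq, Set.mem_preimage, not_iff_not]
    constructor
    · intro hr
      refine hr.mono hS hT (fun v hv hv' => ?_)
      simp only [ex, dif_pos (hU hv)]; exact hv'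
    · intro hr
      refine hr.mono hS hT (fun v hv hv' => ?_)
      simp only [ex, dif_pos (hU hv)] at hv'; exact hv'
  have hme : Measurable (fun ω (v : inn N) => η v ω) := measurable_pi_lambda _ (fun v => hm v)
  have hme' : Measurable (fun ω (v : inn N) => η' v ω) := measurable_pi_lambda _ (fun v => hm' v)
  rw [hgen Ω η, hgen' η', ← Measure.map_apply hme hset, ← Measure.map_apply hme' hset, hlaw]

/-! ### the corridor -/

lemma fin_corridor {κ N M K : ℕ} (hκ : 2 ≤ κ) (h1 : 16 * 2 ^ κ ≤ M + 1) (hMK : M ≤ K)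
    (h3 : K + 16 * 2 ^ κ ≤ N + 1) {n0 : ℕ} (hN : N ≤ 2 ^ (κ + n0)) :
    ∃ (U : Finset V) (p e : V) (n : ℕ), Geo n0 κ N U p e n ∧
      (∀ v ∈ ball p (2 ^ (κ - 2)), v ∈ box M) ∧ (∀ v ∈ ball (p + n • e) (2 ^ (κ - 2)), v ∉ box K) := by
  obtain ⟨j, rfl⟩ : ∃ j, κ = j + 2 := ⟨κ - 2, by omega⟩
  have e2 : 2 ^ (j + 2) = 4 * 2 ^ j := by ring
  have hj : 1 ≤ 2 ^ j := Nat.one_le_two_pow
  have hjj : j + 2 - 2 = j := by omega
  rw [e2] at h1 h3
  rw [hjj]
  set q : ℕ := 2 ^ j with hq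
  have hqz : ((2 : ℤ) ^ j) = (q : ℤ) := by rw [hq]; push_cast; rfl
  have hqz' : ((2 : ℤ) ^ (j + 2)) = 4 * (q : ℤ) := by rw [← hqz]; ring
  have hcast : (((2 : ℕ) ^ (j + 2) : ℕ) : ℤ) = 4 * (q : ℤ) := by push_cast; exact hqz'
  have hsm : ∀ i : ℕ, (i • ((1, 0) : V)) = ((i : ℤ), 0) := fun i => by ext <;> simp
  refine ⟨Finset.Icc (-(4 * q : ℤ)) ((K / 2 + q + 1 : ℕ) + 4 * q : ℤ) ×ˢ
    Finset.Icc (-(4 * q : ℤ)) (4 * q : ℤ), (0, 0), (1, 0), K / 2 + q + 1, ?_, ?_, ?_⟩
  · refine ⟨hN, ⟨(-(4 * q : ℤ), -(4 * q : ℤ)), (((K / 2 + q + 1 : ℕ) + 4 * q : ℤ), (4 * q : ℤ)),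
      rfl⟩, ?_, Or.inl rfl, ?_, ?_⟩
    · intro v hv
      rw [Finset.mem_product, Finset.mem_Icc, Finset.mem_Icc] at hv
      rw [mem_inn]
      push_cast at hv
      omega
    · rw [e2]; omega
    · intro i hi v hv
      rw [mem_ball, hcast] at hv
      rw [Finset.mem_product, Finset.mem_Icc, Finset.mem_Icc]
      rw [hsm] at hv
      simp only [Prod.fst_add, Prod.snd_add] at hv
      push_cast at hv ⊢
      omega
  · intro v hv
    rw [mem_ball] at hv
    rw [mem_box]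
    push_cast at hv
    omega
  · intro v hv hv'
    rw [mem_ball] at hv
    rw [mem_box] at hv'
    rw [hsm] at hv
    simp only [Prod.fst_add, Prod.snd_add] at hv
    push_cast at hv
    omega

/-- small boxes: all vertices are open -/
lemma fin_small {N M K : ℕ} (hM : 1 ≤ M) (hMK : M ≤ K) (hKN : K ≤ N) {S : ℝ}
    (hS : 1 + 2 * (N : ℝ) ≤ S) {lam t : ℝ} (hlam : 0 ≤ lam) (ht : 1 ≤ t)
    {Ω : Type*} [MeasurableSpace Ω] {μ : Measure Ω} {η : V → Ω → ℝ} (h : IsDGFF N μ η) :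
    μ {ω | ENNReal.ofReal (t * N) <
        (chem N (fun v => η v ω) lam (bd M) (bd K) : ℝ≥0∞)} ≤
      ENNReal.ofReal ((N : ℝ) ^ 2 * Real.exp (-(1 / (2 * S) * lam ^ 2))) := by
  have hprob := h.isProb
  have hNpos : 1 ≤ N := by omega
  have hNr : (1 : ℝ) ≤ N := by exact_mod_cast hNpos
  obtain ⟨η', h', hm', hae⟩ := h.modify
  have hSpos : 0 < S := by linarith
  have hσ : ∀ v ∈ inn N, Var[η' v; μ] ≤ S := by
    intro v hv
    have h1 := h'.var_eta hv
    have h2 : Real.log (2 * N) ≤ 2 * N := by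
      have := Real.log_le_sub_one_of_pos (show (0 : ℝ) < 2 * N by positivity)
      linarith
    linarith
  have hincl : μ {ω | ENNReal.ofReal (t * N) <
        (chem N (fun v => η v ω) lam (bd M) (bd K) : ℝ≥0∞)} ≤
      μ (⋃ v ∈ inn N, {ω | lam ≤ η' v ω}) := by
    have hbd : ∀ᵐ ω ∂μ, ∀ v ∈ bd N, η v ω = 0 := by
      rw [Finset.eventually_all]; exact h.boundary
    apply measure_mono_ae
    filter_upwards [hae, hbd] with ω hω hω0
    intro h1
    have h1' : ENNReal.ofReal (t * N) <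
      (chem N (fun v => η v ω) lam (bd M) (bd K) : ℝ≥0∞) := h1
    show ω ∈ (⋃ v ∈ inn N, {ω | lam ≤ η' v ω})
    by_contra hcon
    have hall : ∀ v ∈ box N, η v ω ≤ lam := by
      intro v hv
      by_cases hvi : v ∈ inn N
      · have : ¬ lam ≤ η' v ω := fun hh => hcon (Set.mem_biUnion hvi hh)
        rw [hω v hv]
        exact (not_le.1 this).le
      · have hvb : v ∈ bd N := by
          by_contra hh
          exact hvi (Finset.mem_sdiff.2 ⟨hv, hh⟩)
        rw [hω0 v hvb]; exact hlam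
    have h2 := chem_le_all_open (N := N) (x := fun v => η v ω) hM hMK hKN hall
    have h3 : ((chem N (fun v => η v ω) lam (bd M) (bd K) : ℕ∞) : ℝ≥0∞) ≤
      ((N : ℕ∞) : ℝ≥0∞) := by exact_mod_cast h2
    have h4 : ((N : ℕ∞) : ℝ≥0∞) ≤ ENNReal.ofReal (t * N) := by
      rw [ENat.toENNReal_coe, show (N : ℝ≥0∞) = ENNReal.ofReal (N : ℝ) by simp]
      apply ENNReal.ofReal_le_ofReal
      nlinarith
    exact absurd (h3.trans h4) (not_le.2 h1')
  refine hincl.trans ((measure_biUnion_finset_le _ _).trans ?_)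
  calc ∑ v ∈ inn N, μ {ω | lam ≤ η' v ω}
      ≤ ∑ v ∈ inn N, ENNReal.ofReal (Real.exp (-(1 / (2 * S) * lam ^ 2))) := by
        refine Finset.sum_le_sum (fun v hv => ?_)
        have h1 := chernoff (h'.gaussian.hasGaussianLaw_eval ⟨v, inn_subset_box N hv⟩) (hm' v)
          (h'.centred v (inn_subset_box N hv)) (v := S) (A := lam) hSpos (hσ v hv)
        rcases h1 with h1 | h1
        · refine h1.trans (ENNReal.ofReal_le_ofReal (Real.exp_le_exp.2 (neg_le_neg ?_)))
          rw [div_eq_inv_mul (lam ^ 2), ← one_div]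
        · exact absurd h1 (not_lt.2 hlam)
    _ = ENNReal.ofReal ((inn N).card * Real.exp (-(1 / (2 * S) * lam ^ 2))) := by
        rw [Finset.sum_const, nsmul_eq_mul, ENNReal.ofReal_mul (by positivity)]
        simp
    _ ≤ _ := by
        apply ENNReal.ofReal_le_ofReal
        apply mul_le_mul_of_nonneg_right _ (Real.exp_pos _).le
        have := Finset.card_le_card (inn_subset_box N)
        rw [card_box] at this
        exact_mod_cast this

/-- the linear bound -/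
theorem main_bound (α β : ℝ) (hα : 0 < α) (hαβ : α < β) (hβ : β < 1) :
    ∃ C c lam0 : ℝ, 0 < C ∧ 0 < c ∧ 0 < lam0 ∧ ∀ N : ℕ, 1 ≤ α * N → ∀ lam t : ℝ, lam0 ≤ lam →
      0 < t → ∀ (Ω : Type*) [MeasurableSpace Ω] (μ : Measure Ω) (η : V → Ω → ℝ), IsDGFF N μ η →
      μ {ω | ENNReal.ofReal (t * N) <
        (chem N (fun v => η v ω) lam (bd ⌊α * N⌋₊) (bd ⌊β * N⌋₊) : ℝ≥0∞)} ≤
      ENNReal.ofReal (C * Real.exp (-(c * lam ^ 2)) + C / t) := by
  set δ : ℝ := min α (1 - β) / 16 with hδ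
  have hδ0 : 0 < δ := by
    rw [hδ]; have : 0 < min α (1 - β) := lt_min hα (by linarith)
    positivity
  have hδα : 16 * δ ≤ α := by rw [hδ]; linarith [min_le_left α (1 - β)]
  have hδβ : 16 * δ ≤ 1 - β := by rw [hδ]; linarith [min_le_right α (1 - β)]
  obtain ⟨n1, hn1⟩ := pow_unbounded_of_one_lt (1 / δ) (one_lt_two (α := ℝ))
  obtain ⟨K0, C0, c', lam0, hc', hC0, hK0, hlam0, HG⟩ := GB (n1 + 1)
  obtain ⟨Kc, C1, hKc, hC1, HP⟩ := thmPF K0
  have hKc1 : 1 ≤ Kc := hK0.trans hKc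
  set S : ℝ := 1 + 8 / δ with hS
  have hS0 : 0 < S := by positivity
  set C : ℝ := C0 + 2 * C0 * C1 * Kc ^ 6 + 16 / δ ^ 2 + 1 with hC
  have hC1r : (1 : ℝ) ≤ C1 := by exact_mod_cast hC1
  have hCpos : 1 ≤ C := by
    have : 0 < C0 + 2 * C0 * C1 * Kc ^ 6 + 16 / δ ^ 2 := by positivity
    linarith
  refine ⟨C, min c' (1 / (2 * S)), lam0, by linarith, lt_min hc' (by positivity), hlam0, ?_⟩
  intro N hN lam t hlam ht Ω _ μ η h
  have hprob := h.isProb
  have hlampos : 0 < lam := hlam0.trans_le hlam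
  by_cases ht1 : t < 1
  · refine prob_le_one.trans ?_
    rw [show (1 : ℝ≥0∞) = ENNReal.ofReal 1 by simp]
    apply ENNReal.ofReal_le_ofReal
    have h1 : 1 ≤ C / t := by rw [le_div_iff₀ ht]; linarith
    have h2 : 0 < Real.exp (-(min c' (1 / (2 * S)) * lam ^ 2)) := Real.exp_pos _
    nlinarith
  push Not at ht1
  have hα1 : α < 1 := by linarith
  have hNpos : 1 ≤ N := by
    by_contra hcon
    have : N = 0 := by omega
    rw [this] at hN; norm_num at hN
  have hNr : (1 : ℝ) ≤ N := by exact_mod_cast hNpos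
  have hβN : 0 ≤ β * N := by
    have : 0 < β := by linarith
    positivity
  have hM1 : 1 ≤ ⌊α * N⌋₊ := Nat.le_floor (by simpa using hN)
  have hMK : ⌊α * N⌋₊ ≤ ⌊β * N⌋₊ :=
    Nat.floor_le_floor (mul_le_mul_of_nonneg_right hαβ.le (by positivity))
  have hKr : (⌊β * N⌋₊ : ℝ) ≤ β * N := Nat.floor_le hβN
  have hKN : ⌊β * N⌋₊ ≤ N := by
    have : (⌊β * N⌋₊ : ℝ) ≤ N := by nlinarith
    exact_mod_cast this
  by_cases hbig : 4 ≤ δ * N
  · -- large boxes
    set q : ℕ := ⌊δ * N⌋₊ with hq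
    have hq4 : 4 ≤ q := Nat.le_floor (by exact_mod_cast hbig)
    set κ : ℕ := Nat.log 2 q with hκ
    have hκ1 : 2 ^ κ ≤ q := Nat.pow_log_le_self 2 (by omega)
    have hκ2 : q < 2 ^ (κ + 1) := Nat.lt_pow_succ_log_self (by norm_num) q
    have hκ3 : 2 ≤ κ := by
      by_contra hcon
      have : 2 ^ (κ + 1) ≤ 2 ^ 2 := Nat.pow_le_pow_right (by norm_num) (by omega)
      omega
    have hqr : (q : ℝ) ≤ δ * N := Nat.floor_le (by positivity)
    have hκr : (2 : ℝ) ^ κ ≤ δ * N := by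
      have : ((2 ^ κ : ℕ) : ℝ) ≤ q := by exact_mod_cast hκ1
      push_cast at this
      linarith
    have a1 : 16 * 2 ^ κ ≤ ⌊α * N⌋₊ + 1 := by
      have h1 : α * N < ⌊α * N⌋₊ + 1 := Nat.lt_floor_add_one _
      have h2 : (16 : ℝ) * 2 ^ κ ≤ ⌊α * N⌋₊ + 1 := by nlinarith
      exact_mod_cast h2
    have a2 : ⌊β * N⌋₊ + 16 * 2 ^ κ ≤ N + 1 := by
      have h2 : (⌊β * N⌋₊ : ℝ) + 16 * 2 ^ κ ≤ N + 1 := by nlinarith
      exact_mod_cast h2
    have a3 : N ≤ 2 ^ (κ + (n1 + 1)) := by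
      have h1 : δ * N < q + 1 := Nat.lt_floor_add_one _
      have h2 : (q : ℝ) + 1 ≤ 2 ^ (κ + 1) := by exact_mod_cast hκ2
      have h3 : δ * N < 2 ^ (κ + 1) := by linarith
      have h4 : 1 < 2 ^ n1 * δ := by
        rw [div_lt_iff₀ hδ0] at hn1; exact hn1
      have h5 : (N : ℝ) ≤ 2 ^ (κ + (n1 + 1)) := by
        have h6 : (2 : ℝ) ^ (κ + (n1 + 1)) = 2 ^ (κ + 1) * 2 ^ n1 := by ring
        rw [h6]
        have h7 : (N : ℝ) * 1 ≤ N * (2 ^ n1 * δ) :=
          mul_le_mul_of_nonneg_left h4.le (by positivity)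
        have h8 : (0 : ℝ) < 2 ^ n1 := by positivity
        nlinarith
      exact_mod_cast h5
    obtain ⟨U, p, e, n, hG, hSM, hBK⟩ := fin_corridor hκ3 a1 hMK a2 a3
    obtain ⟨hSU, hBU, _⟩ := gb_hit hG
    set R : ℕ := ⌊t * N⌋₊ with hR
    have htN : 1 ≤ t * N := by nlinarith
    have hR1 : 1 ≤ R := Nat.le_floor (by simpa using htN)
    have hR2 : t * N / 2 ≤ R := floor_half htN
    obtain ⟨η', h', hm', hae⟩ := h.modify
    obtain ⟨Ω0, _, μ0, _, η0, h0, hm0⟩ := exists_dgff N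
    have hb := HG Kc hKc C1 κ N U p e n hC1 hκ3 (fun k _ => HP k) hG μ0 η0 h0 hm0 lam R hlam hR1
    rw [← fin_transfer h' hm' h0 hm0 hG.hUI hSU hBU lam R] at hb
    have hincl : μ {ω | ENNReal.ofReal (t * N) <
        (chem N (fun v => η v ω) lam (bd ⌊α * N⌋₊) (bd ⌊β * N⌋₊) : ℝ≥0∞)} ≤
        μ {ω | ¬ Reach U (ball p (2 ^ (κ - 2))) (ball (p + n • e) (2 ^ (κ - 2)))
          (fun v => η' v ω) lam R} := by
      apply measure_mono_ae
      filter_upwards [hae] with ω hω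
      intro h1 h2
      have h1' : ENNReal.ofReal (t * N) <
        (chem N (fun v => η v ω) lam (bd ⌊α * N⌋₊) (bd ⌊β * N⌋₊) : ℝ≥0∞) := h1
      have h2' : Reach U (ball p (2 ^ (κ - 2))) (ball (p + n • e) (2 ^ (κ - 2)))
          (fun v => η v ω) lam R := by
        refine Reach.mono hSU hBU h2 (fun v hv hv' => ?_)
        rw [hω v (inn_subset_box N (hG.hUI hv))]; exact hv'
      obtain ⟨a, ha, b, hb, hc⟩ := reach_conn hSU h2'
      have hc' : Conn (openSet N (fun v => η v ω) lam) R a b := by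
        obtain ⟨p', e1, e2, e3, e4⟩ := hc
        exact ⟨p', e1, e2, fun i hi => ⟨inn_subset_box N (hG.hUI (e3 i hi).1), (e3 i hi).2⟩, e4⟩
      have h3 := fin_chem hMK (hSM a ha) (hBK b hb) hc'
      have h4 : ((chem N (fun v => η v ω) lam (bd ⌊α * N⌋₊) (bd ⌊β * N⌋₊) : ℕ∞) : ℝ≥0∞) ≤
        ((R : ℕ∞) : ℝ≥0∞) := by exact_mod_cast h3
      have h5 : ((R : ℕ∞) : ℝ≥0∞) ≤ ENNReal.ofReal (t * N) := by
        rw [ENat.toENNReal_coe, show (R : ℝ≥0∞) = ENNReal.ofReal (R : ℝ) by simp]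
        exact ENNReal.ofReal_le_ofReal (Nat.floor_le (by positivity))
      exact absurd (h4.trans h5) (not_le.2 h1')
    refine hincl.trans (hb.trans (ENNReal.ofReal_le_ofReal ?_))
    have e1 : Real.exp (-(c' * lam ^ 2)) ≤ Real.exp (-(min c' (1 / (2 * S)) * lam ^ 2)) := by
      apply Real.exp_le_exp.2
      have := mul_le_mul_of_nonneg_right (min_le_left c' (1 / (2 * S))) (sq_nonneg lam)
      linarith
    have e2 : C0 ≤ C := by
      have : 0 < 2 * C0 * C1 * Kc ^ 6 + 16 / δ ^ 2 := by positivity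
      rw [hC]; linarith
    have e3 : C0 * Real.exp (-(c' * lam ^ 2)) ≤
        C * Real.exp (-(min c' (1 / (2 * S)) * lam ^ 2)) :=
      mul_le_mul e2 e1 (Real.exp_pos _).le (by linarith)
    have e4 : C0 * C1 * Kc ^ 6 * 2 ^ κ / R ≤ C / t := by
      have hRpos : (0 : ℝ) < R := by exact_mod_cast hR1
      rw [div_le_div_iff₀ hRpos ht]
      have h1 : δ ≤ 1 := by linarith
      have h2 : (2 : ℝ) ^ κ ≤ N := by nlinarith
      have h3 : 2 ^ κ * t ≤ 2 * R := by nlinarith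
      have h4 : 0 < C0 * C1 * Kc ^ 6 := by positivity
      have h5 : C0 * C1 * Kc ^ 6 * (2 ^ κ * t) ≤ C0 * C1 * Kc ^ 6 * (2 * R) :=
        mul_le_mul_of_nonneg_left h3 h4.le
      have h6 : 2 * C0 * C1 * Kc ^ 6 ≤ C := by
        have : 0 < 16 / δ ^ 2 := by positivity
        rw [hC]; linarith
      have h7 : 2 * C0 * C1 * Kc ^ 6 * R ≤ C * R := mul_le_mul_of_nonneg_right h6 hRpos.le
      linarith
    linarith
  · -- small boxes
    push Not at hbig
    have hNle : (N : ℝ) ≤ 4 / δ := by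
      rw [le_div_iff₀ hδ0]; linarith
    have h1 := fin_small (N := N) hM1 hMK hKN (S := S) (by
      rw [hS]; have : 8 / δ = 2 * (4 / δ) := by ring
      rw [this]; linarith) hlampos.le ht1 h
    refine h1.trans (ENNReal.ofReal_le_ofReal ?_)
    have e1 : Real.exp (-(1 / (2 * S) * lam ^ 2)) ≤
        Real.exp (-(min c' (1 / (2 * S)) * lam ^ 2)) := by
      apply Real.exp_le_exp.2
      have := mul_le_mul_of_nonneg_right (min_le_right c' (1 / (2 * S))) (sq_nonneg lam)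
      linarith
    have e2 : (N : ℝ) ^ 2 ≤ C := by
      have h3 : (N : ℝ) ^ 2 ≤ (4 / δ) ^ 2 := pow_le_pow_left₀ (by positivity) hNle 2
      have h4 : (4 / δ) ^ 2 = 16 / δ ^ 2 := by rw [div_pow]; norm_num
      have h5 : 0 < C0 + 2 * C0 * C1 * Kc ^ 6 := by positivity
      rw [hC]; linarith
    have e3 := mul_le_mul e2 e1 (Real.exp_pos _).le (by linarith)
    have e4 : 0 ≤ C / t := by positivity
    linarith

end Pool.H92.GFL
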