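import Pool.Agent.helper92.GFL.Defs2

/-!
The hierarchical curves: number of levels, slopes, locality of the signs, nearest neighbour paths.
-/

namespace Pool.H92.GFL

open Function Finset MeasureTheory ProbabilityTheory Pool.H92.GFF
open scoped Classical ENNReal

lemma A1_lb_mono {b0 b b' : ℕ} (h : b ≤ b') : lb b0 b ≤ lb b0 b' :=
  Nat.log_mono_right (by omega)

lemma A1_eb_mono {b0 b b' : ℕ} (h : b ≤ b') : eb b0 b ≤ eb b0 b' := by
  have := A1_lb_mono (b0 := b0) h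
  unfold eb; omega

lemma A1_filter (k0 b0 : ℕ) : ∃ n, ∀ b, 8 * b + eb b0 b + 6 ≤ k0 ↔ b < n := by
  have hex : ∃ n, ¬ (8 * n + eb b0 n + 6 ≤ k0) := ⟨k0 + 1, by omega⟩
  refine ⟨Nat.find hex, fun b => ?_⟩
  constructor
  · intro hb
    by_contra hcon
    rw [not_lt] at hcon
    apply Nat.find_spec hex
    have := A1_eb_mono (b0 := b0) hcon
    omega
  · intro hb
    have := Nat.find_min hex hb
    exact not_not.1 this

theorem lt_nlev {k0 b0 b : ℕ} : b < nlev k0 b0 ↔ 8 * b + eb b0 b + 6 ≤ k0 := by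
  obtain ⟨n, hn⟩ := A1_filter k0 b0
  have h1 : nlev k0 b0 = n := by
    unfold nlev
    have h2 : (Finset.range (k0 + 1)).filter (fun b => 8 * b + eb b0 b + 6 ≤ k0) =
        Finset.range n := by
      ext b
      rw [mem_filter, mem_range, mem_range, hn]
      constructor
      · exact fun h => h.2
      · intro h
        exact ⟨by have := (hn b).2 h; omega, h⟩
    rw [h2, card_range]
  rw [h1, hn]

lemma A1_lb_ge {b0 b : ℕ} (hb0 : 16 ^ 10 ≤ b0) : 10 ≤ lb b0 b :=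
  Nat.le_log_of_pow_le (by norm_num) (by omega)

lemma A1_eb_ge {b0 b : ℕ} (hb0 : 16 ^ 10 ≤ b0) : 30 ≤ eb b0 b := by
  have := A1_lb_ge (b := b) hb0
  unfold eb; omega

lemma A1_cc_abs (k0 b u : ℕ) : |(cc k0 b u : ℝ)| ≤ 1 := by
  unfold cc
  split_ifs <;> simp

/-- without violations the slope is at most `1/4` -/
theorem slope_ok {k0 b0 n : ℕ} (hb0 : 16 ^ 10 ≤ b0) {s : ℕ → Bool} {u : ℕ}
    (h : ∀ b < n, ¬ viol k0 b0 s u b) :
    |∑ b ∈ Finset.range n, if s b then 8 / 2 ^ eb b0 b * (cc k0 b u : ℝ) else 0| ≤ 1 / 4 := by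
  set f : ℕ → ℝ := fun b => if s b then 8 / 2 ^ eb b0 b * (cc k0 b u : ℝ) else 0 with hf
  have hmaps : ∀ b ∈ Finset.range n, lb b0 b ∈ Finset.Ico 10 (lb b0 n + 1) := by
    intro b hb
    rw [Finset.mem_range] at hb
    rw [Finset.mem_Ico]
    have := A1_lb_mono (b0 := b0) hb.le
    exact ⟨A1_lb_ge hb0, by omega⟩
  rw [← Finset.sum_fiberwise_of_maps_to hmaps]
  have hblock : ∀ i ∈ Finset.Ico 10 (lb b0 n + 1),
      |∑ b ∈ (Finset.range n).filter (fun b => lb b0 b = i), f b| ≤ 8 * (5 / 8 : ℝ) ^ i := by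
    intro i _
    have key : ∑ b ∈ (Finset.range n).filter (fun b => lb b0 b = i), f b = 8 / 8 ^ i *
        ((∑ b ∈ (Finset.range n).filter (fun b => lb b0 b = i),
          (if s b then cc k0 b u else 0) : ℤ) : ℝ) := by
      push_cast
      rw [Finset.mul_sum]
      apply Finset.sum_congr rfl
      intro b hb
      rw [Finset.mem_filter] at hb
      simp only [hf]
      split_ifs with hs
      · rw [eb, hb.2, pow_mul]; norm_num
      · simp
    rw [key, abs_mul, abs_of_pos (by positivity : (0 : ℝ) < 8 / 8 ^ i)]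
    have h8 : (8 : ℝ) * (5 / 8) ^ i = 8 / 8 ^ i * 5 ^ i := by
      rw [div_pow]; ring
    rw [h8]
    apply mul_le_mul_of_nonneg_left _ (by positivity)
    rcases ((Finset.range n).filter (fun b => lb b0 b = i)).eq_empty_or_nonempty with h0 | h0
    · rw [h0]; simp
    · obtain ⟨m, hm, hmax⟩ := Finset.exists_max_image _ id h0
      rw [Finset.mem_filter, Finset.mem_range] at hm
      have hB : (Finset.range n).filter (fun b => lb b0 b = i) =
          (Finset.range (m + 1)).filter (fun b' => lb b0 b' = lb b0 m) := by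
        ext b
        simp only [Finset.mem_filter, Finset.mem_range]
        constructor
        · intro hb
          have := hmax b (by rw [Finset.mem_filter, Finset.mem_range]; exact hb)
          simp only [id] at this
          exact ⟨by omega, by rw [hb.2, hm.2]⟩
        · intro hb
          exact ⟨by omega, by rw [hb.2, hm.2]⟩
      have h1 := h m hm.1
      unfold viol at h1
      rw [not_lt, hm.2] at h1
      rw [hB, hm.2]
      have h2 : ((|∑ b' ∈ (Finset.range (m + 1)).filter (fun b' => lb b0 b' = i),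
          (if s b' then cc k0 b' u else 0)| : ℤ) : ℝ) ≤ (((5 : ℤ) ^ i : ℤ) : ℝ) := by
        exact_mod_cast h1
      rw [Int.cast_abs] at h2
      simpa using h2
  calc |∑ i ∈ Finset.Ico 10 (lb b0 n + 1),
        ∑ b ∈ (Finset.range n).filter (fun b => lb b0 b = i), f b|
      ≤ ∑ i ∈ Finset.Ico 10 (lb b0 n + 1),
        |∑ b ∈ (Finset.range n).filter (fun b => lb b0 b = i), f b| :=
        Finset.abs_sum_le_sum_abs _ _
    _ ≤ ∑ i ∈ Finset.Ico 10 (lb b0 n + 1), 8 * (5 / 8 : ℝ) ^ i := Finset.sum_le_sum hblock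
    _ = 8 * ∑ i ∈ Finset.Ico 10 (lb b0 n + 1), (5 / 8 : ℝ) ^ i := (Finset.mul_sum _ _ _).symm
    _ ≤ 8 * ((5 / 8 : ℝ) ^ 10 / (1 - 5 / 8)) := by
        apply mul_le_mul_of_nonneg_left _ (by norm_num)
        exact geom_sum_Ico_le_of_lt_one (by norm_num) (by norm_num)
    _ ≤ 1 / 4 := by norm_num

lemma A1_trap (q r r' : ℕ) (hq : 0 < q) (hr : r < 8 * q) (h : r / q = r' / q) :
    ((min (min r' q) (8 * q - r') : ℕ) : ℝ) - ((min (min r q) (8 * q - r) : ℕ) : ℝ) =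
      ((r' : ℝ) - r) * (if r / q = 0 then 1 else if r / q = 7 then -1 else 0) := by
  have h1 := Nat.mul_div_le r q
  have h2 := Nat.lt_mul_div_succ r hq
  have h3 := Nat.mul_div_le r' q
  have h4 := Nat.lt_mul_div_succ r' hq
  rw [← h] at h3 h4
  have h5 : r / q < 8 := Nat.div_lt_of_lt_mul (by rwa [mul_comm])
  generalize r / q = o at *
  by_cases ho : o = 0
  · subst ho
    have e1 : min (min r' q) (8 * q - r') = r' := by omega
    have e2 : min (min r q) (8 * q - r) = r := by omega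
    rw [e1, e2, if_pos rfl, mul_one]
  · by_cases ho7 : o = 7
    · subst ho7
      have e1 : min (min r' q) (8 * q - r') = 8 * q - r' := by omega
      have e2 : min (min r q) (8 * q - r) = 8 * q - r := by omega
      have hr' : r' < 8 * q := by omega
      rw [e1, e2, Nat.cast_sub hr'.le, Nat.cast_sub hr.le]
      simp only [if_neg ho, if_true]
      ring
    · rw [if_neg ho, if_neg ho7, mul_zero]
      have e1 : min (min r' q) (8 * q - r') = q := by interval_cases o <;> omega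
      have e2 : min (min r q) (8 * q - r) = q := by interval_cases o <;> omega
      rw [e1, e2, sub_self]

lemma A1_trap_step (q r : ℕ) (hq : 0 < q) (hr : r + 1 < 8 * q) :
    ((min (min (r + 1) q) (8 * q - (r + 1)) : ℕ) : ℝ) - ((min (min r q) (8 * q - r) : ℕ) : ℝ) =
      (if r / q = 0 then 1 else if r / q = 7 then -1 else 0) := by
  have h1 := Nat.mul_div_le r q
  have h2 := Nat.lt_mul_div_succ r hq
  have h5 : r / q < 8 := Nat.div_lt_of_lt_mul (by rw [mul_comm]; omega)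
  generalize r / q = o at *
  by_cases ho : o = 0
  · subst ho
    have e1 : min (min (r + 1) q) (8 * q - (r + 1)) = r + 1 := by omega
    have e2 : min (min r q) (8 * q - r) = r := by omega
    rw [e1, e2, if_pos rfl]
    push_cast; ring
  · by_cases ho7 : o = 7
    · subst ho7
      have e1 : min (min (r + 1) q) (8 * q - (r + 1)) = 8 * q - (r + 1) := by omega
      have e2 : min (min r q) (8 * q - r) = 8 * q - r := by omega
      rw [e1, e2, Nat.cast_sub hr.le, Nat.cast_sub (by omega)]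
      simp only [if_neg ho, if_true]
      push_cast; ring
    · rw [if_neg ho, if_neg ho7]
      have e1 : min (min (r + 1) q) (8 * q - (r + 1)) = q := by interval_cases o <;> omega
      have e2 : min (min r q) (8 * q - r) = q := by interval_cases o <;> omega
      rw [e1, e2, sub_self]

lemma A1_two_pow {k : ℕ} (hk : 3 ≤ k) : 2 ^ k = 8 * 2 ^ (k - 3) := by
  obtain ⟨j, rfl⟩ := Nat.exists_eq_add_of_le hk
  rw [Nat.add_sub_cancel_left, pow_add]; norm_num

lemma A1_hb_eq {k0 b0 b u : ℕ} (hk : 3 ≤ kb k0 b) : hb k0 b0 b u = 8 / 2 ^ eb b0 b *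
    ((min (min (u % (8 * 2 ^ (kb k0 b - 3))) (2 ^ (kb k0 b - 3)))
      (8 * 2 ^ (kb k0 b - 3) - u % (8 * 2 ^ (kb k0 b - 3))) : ℕ) : ℝ) := by
  unfold hb
  have h1 := A1_two_pow hk
  have h2 : 2 ^ kb k0 b / 8 = 2 ^ (kb k0 b - 3) := by
    rw [h1]; exact Nat.mul_div_cancel_left _ (by norm_num)
  rw [h2, h1]

lemma A1_cc_eq (k0 b u : ℕ) : (cc k0 b u : ℝ) =
    if u % (8 * 2 ^ (kb k0 b - 3)) / 2 ^ (kb k0 b - 3) = 0 then 1
    else if u % (8 * 2 ^ (kb k0 b - 3)) / 2 ^ (kb k0 b - 3) = 7 then -1 else 0 := by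
  have h1 : u % (8 * 2 ^ (kb k0 b - 3)) / 2 ^ (kb k0 b - 3) = oc k0 b u := by
    rw [mul_comm 8, Nat.mod_mul_right_div_self]; rfl
  rw [h1]
  unfold cc
  split_ifs <;> simp

lemma A1_hb_diff {k0 b0 b u u' : ℕ} (hk : 3 ≤ kb k0 b)
    (h : u / 2 ^ (kb k0 b - 3) = u' / 2 ^ (kb k0 b - 3)) :
    hb k0 b0 b u' - hb k0 b0 b u = ((u' : ℝ) - u) * (8 / 2 ^ eb b0 b * (cc k0 b u : ℝ)) := by
  rw [A1_hb_eq hk, A1_hb_eq hk, A1_cc_eq]
  set q := 2 ^ (kb k0 b - 3) with hq
  have hq0 : 0 < q := by positivity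
  have hdiv : u / (8 * q) = u' / (8 * q) := by
    rw [mul_comm 8 q, ← Nat.div_div_eq_div_mul, ← Nat.div_div_eq_div_mul, h]
  have hr : u % (8 * q) / q = u' % (8 * q) / q := by
    rw [mul_comm 8 q, Nat.mod_mul_right_div_self, Nat.mod_mul_right_div_self, h]
  have hlt : u % (8 * q) < 8 * q := Nat.mod_lt _ (by positivity)
  have ht := A1_trap q (u % (8 * q)) (u' % (8 * q)) hq0 hlt hr
  have hsub : ((u' : ℝ) - u) = ((u' % (8 * q) : ℕ) : ℝ) - ((u % (8 * q) : ℕ) : ℝ) := by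
    have e1 := Nat.div_add_mod u (8 * q)
    have e2 := Nat.div_add_mod u' (8 * q)
    rw [← hdiv] at e2
    have e3 : (u' : ℤ) - u = ((u' % (8 * q) : ℕ) : ℤ) - ((u % (8 * q) : ℕ) : ℤ) := by
      omega
    exact_mod_cast e3
  rw [hsub]
  linear_combination (8 / 2 ^ eb b0 b) * ht

/-- the curves are affine on the octants of the last level -/
theorem gg_lin {k0 b0 n : ℕ} (hn : ∀ b < n, 8 * b + 3 ≤ k0) {s : ℕ → Bool} {u u' : ℕ}
    (h : ∀ b < n, u / 2 ^ (kb k0 b - 3) = u' / 2 ^ (kb k0 b - 3)) :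
    gg k0 b0 n s u' - gg k0 b0 n s u =
      ((u' : ℝ) - u) * ∑ b ∈ Finset.range n, if s b then 8 / 2 ^ eb b0 b * (cc k0 b u : ℝ) else 0 := by
  unfold gg
  rw [← Finset.sum_sub_distrib, Finset.mul_sum]
  apply Finset.sum_congr rfl
  intro b hb'
  rw [Finset.mem_range] at hb'
  have hk : 3 ≤ kb k0 b := by
    have := hn b hb'
    unfold kb; omega
  split_ifs with hs
  · exact A1_hb_diff hk (h b hb')
  · simp

lemma A1_cc_congr {k0 b u u' : ℕ} (h : u / 2 ^ (kb k0 b - 3) = u' / 2 ^ (kb k0 b - 3)) :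
    cc k0 b u = cc k0 b u' := by
  unfold cc oc
  rw [h]

lemma A1_viol_congr {k0 b0 b u u' : ℕ} {s s' : ℕ → Bool} (hs : ∀ b' ≤ b, s b' = s' b')
    (h : ∀ b' ≤ b, u / 2 ^ (kb k0 b' - 3) = u' / 2 ^ (kb k0 b' - 3)) :
    viol k0 b0 s u b ↔ viol k0 b0 s' u' b := by
  unfold viol
  have : ∑ b' ∈ (Finset.range (b + 1)).filter (fun b' => lb b0 b' = lb b0 b),
      (if s b' then cc k0 b' u else 0) =
      ∑ b' ∈ (Finset.range (b + 1)).filter (fun b' => lb b0 b' = lb b0 b),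
      (if s' b' then cc k0 b' u' else 0) := by
    apply Finset.sum_congr rfl
    intro b' hb'
    rw [Finset.mem_filter, Finset.mem_range] at hb'
    rw [hs b' (by omega), A1_cc_congr (h b' (by omega))]
  rw [this]

/-- locality of the signs -/
theorem sg_cell (X : ℕ → V → ℝ) {k0 b0 n u u' : ℕ}
    (h : ∀ b < n, u / 2 ^ kb k0 b = u' / 2 ^ kb k0 b)
    (h' : ∀ b, b + 1 < n → u / 2 ^ (kb k0 b - 3) = u' / 2 ^ (kb k0 b - 3)) :
    sg X k0 b0 u n = sg X k0 b0 u' n := by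
  induction n with
  | zero => rfl
  | succ n ih =>
    have ih' := ih (fun b hb => h b (by omega)) (fun b hb => h' b (by omega))
    have hv : (∀ b' < n, ¬ viol k0 b0 (sg X k0 b0 u n) u b') ↔
        ∀ b' < n, ¬ viol k0 b0 (sg X k0 b0 u n) u' b' := by
      refine forall_congr' fun b' => forall_congr' fun hb' => not_congr ?_
      exact A1_viol_congr (fun _ _ => rfl) (fun b'' hb'' => h' b'' (by omega))
    simp only [sg]
    rw [← ih', h n (by omega)]
    simp only [hv]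

theorem sg_false (X : ℕ → V → ℝ) {k0 b0 u n b : ℕ} (h : n ≤ b) : sg X k0 b0 u n b = false := by
  induction n with
  | zero => rfl
  | succ n ih =>
    simp only [sg]
    rw [Function.update_of_ne (by omega)]
    exact ih (by omega)

theorem sg_stable (X : ℕ → V → ℝ) {k0 b0 u n n' b : ℕ} (h : b < n) (h' : n ≤ n') :
    sg X k0 b0 u n' b = sg X k0 b0 u n b := by
  obtain ⟨k, rfl⟩ := Nat.exists_eq_add_of_le h'
  induction k with
  | zero => rfl
  | succ k ih =>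
    have : n + (k + 1) = (n + k) + 1 := by omega
    rw [this]
    simp only [sg]
    rw [Function.update_of_ne (by omega)]
    exact ih (by omega)

/-- the random curves have small slopes -/
lemma A1_slope (X : ℕ → V → ℝ) {k0 b0 u n : ℕ} (hb0 : 16 ^ 10 ≤ b0) :
    |∑ b ∈ Finset.range n,
      if sg X k0 b0 u n b then 8 / 2 ^ eb b0 b * (cc k0 b u : ℝ) else 0| ≤ 1 / 4 + 8 / 2 ^ 30 := by
  by_cases hall : ∀ b < n, ¬ viol k0 b0 (sg X k0 b0 u n) u b
  · have := slope_ok hb0 hall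
    have h30 : (0 : ℝ) ≤ 8 / 2 ^ 30 := by positivity
    linarith
  · have hex : ∃ b, b < n ∧ viol k0 b0 (sg X k0 b0 u n) u b := by
      by_contra hcon
      apply hall
      intro b hb hv
      exact hcon ⟨b, hb, hv⟩
    set b1 := Nat.find hex with hb1
    obtain ⟨h1, h2⟩ := Nat.find_spec hex
    rw [← hb1] at h1 h2
    have hmin : ∀ b < b1, ¬ viol k0 b0 (sg X k0 b0 u n) u b := by
      intro b hb hv
      exact Nat.find_min hex hb ⟨by omega, hv⟩
    have hzero : ∀ b, b1 < b → b < n → sg X k0 b0 u n b = false := by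
      intro b hb hbn
      rw [sg_stable X (Nat.lt_succ_self b) (by omega : b + 1 ≤ n)]
      simp only [sg]
      rw [Function.update_self, decide_eq_false_iff_not]
      rintro ⟨h3, -⟩
      apply h3 b1 hb
      rw [A1_viol_congr (s' := sg X k0 b0 u n) (u' := u) _ (fun _ _ => rfl)]
      · exact h2
      · intro b' hb'
        exact (sg_stable X (by omega : b' < b) (by omega : b ≤ n)).symm
    have hsum : ∑ b ∈ Finset.range n,
        (if sg X k0 b0 u n b then 8 / 2 ^ eb b0 b * (cc k0 b u : ℝ) else 0) =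
        ∑ b ∈ Finset.range (b1 + 1),
        (if sg X k0 b0 u n b then 8 / 2 ^ eb b0 b * (cc k0 b u : ℝ) else 0) := by
      symm
      apply Finset.sum_subset
      · intro b hb
        rw [Finset.mem_range] at *
        omega
      · intro b hb hb'
        rw [Finset.mem_range] at *
        rw [hzero b (by omega) hb]
        simp
    rw [hsum, Finset.sum_range_succ]
    have h3 := slope_ok hb0 hmin
    have h4 : |if sg X k0 b0 u n b1 then 8 / 2 ^ eb b0 b1 * (cc k0 b1 u : ℝ) else 0| ≤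
        8 / 2 ^ 30 := by
      split_ifs
      · rw [abs_mul, abs_of_pos (by positivity : (0 : ℝ) < 8 / 2 ^ eb b0 b1)]
        calc 8 / 2 ^ eb b0 b1 * |(cc k0 b1 u : ℝ)| ≤ 8 / 2 ^ eb b0 b1 * 1 :=
              mul_le_mul_of_nonneg_left (A1_cc_abs _ _ _) (by positivity)
          _ = 8 / 2 ^ eb b0 b1 := mul_one _
          _ ≤ 8 / 2 ^ 30 := by
              apply div_le_div_of_nonneg_left (by norm_num) (by positivity)
              exact pow_le_pow_right₀ (by norm_num) (A1_eb_ge hb0)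
      · rw [abs_zero]; positivity
    exact (abs_add_le _ _).trans (add_le_add h3 h4)

lemma A1_kb_ge {k0 b0 b : ℕ} (h : b < nlev k0 b0) : 3 ≤ kb k0 b := by
  have := lt_nlev.1 h
  unfold kb; omega

lemma A1_hb_zero {k0 b0 b u : ℕ} (h : 2 ^ kb k0 b ∣ u) : hb k0 b0 b u = 0 := by
  unfold hb
  rw [Nat.eq_zero_of_dvd_of_lt (Nat.dvd_mod_iff (dvd_refl _) |>.2 h)
    (Nat.mod_lt _ (by positivity))]
  simp

lemma A1_step {k0 b0 b u : ℕ} (hk : 3 ≤ kb k0 b) (s s' : Bool)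
    (hs : ¬ 2 ^ kb k0 b ∣ u + 1 → s = s') :
    (if s' then hb k0 b0 b (u + 1) else 0) - (if s then hb k0 b0 b u else 0) =
      if s then 8 / 2 ^ eb b0 b * (cc k0 b u : ℝ) else 0 := by
  have hpow := A1_two_pow hk
  set q := 2 ^ (kb k0 b - 3) with hq
  have hq0 : 0 < q := by positivity
  have hlt : u % (8 * q) < 8 * q := Nat.mod_lt _ (by positivity)
  by_cases hd : 2 ^ kb k0 b ∣ u + 1
  · rw [A1_hb_zero hd]
    have hr : u % (8 * q) = 8 * q - 1 := by
      rw [hpow] at hd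
      have h1 : (u % (8 * q) + 1) % (8 * q) = 0 := by
        rw [Nat.mod_add_mod]
        exact Nat.mod_eq_zero_of_dvd hd
      have h2 : 8 * q ≤ u % (8 * q) + 1 := by
        by_contra hcon
        rw [not_le] at hcon
        rw [Nat.mod_eq_of_lt hcon] at h1
        omega
      omega
    have h7 : (8 * q - 1) / q = 7 := by
      apply Nat.div_eq_of_lt_le
      · omega
      · omega
    rw [A1_hb_eq hk, A1_cc_eq, ← hq, hr, h7]
    have e1 : min (min (8 * q - 1) q) (8 * q - (8 * q - 1)) = 1 := by omega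
    rw [e1]
    cases s <;> cases s' <;> simp
  · have hs' := hs hd
    subst hs'
    have hr : (u + 1) % (8 * q) = u % (8 * q) + 1 := by
      rw [hpow] at hd
      have h1 : (u % (8 * q) + 1) % (8 * q) = (u + 1) % (8 * q) := Nat.mod_add_mod _ _ _
      have h2 : u % (8 * q) + 1 ≠ 8 * q := by
        intro hcon
        apply hd
        rw [hcon, Nat.mod_self] at h1
        exact Nat.dvd_of_mod_eq_zero h1.symm
      rw [← h1, Nat.mod_eq_of_lt (by omega)]
    have hlt' : u % (8 * q) + 1 < 8 * q := by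
      have := Nat.mod_lt (u + 1) (by positivity : 0 < 8 * q)
      omega
    rw [A1_hb_eq hk, A1_hb_eq hk, A1_cc_eq, ← hq, hr]
    have ht := A1_trap_step q (u % (8 * q)) hq0 hlt'
    cases s
    · simp
    · simp only [if_true]
      linear_combination (8 / 2 ^ eb b0 b) * ht

lemma A1_sign_eq (X : ℕ → V → ℝ) {k0 b0 b u : ℕ} (hb : b < nlev k0 b0)
    (hd : ¬ 2 ^ kb k0 b ∣ u + 1) :
    sg X k0 b0 u (nlev k0 b0) b = sg X k0 b0 (u + 1) (nlev k0 b0) b := by
  rw [sg_stable X (Nat.lt_succ_self b) (by omega : b + 1 ≤ nlev k0 b0),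
    sg_stable X (Nat.lt_succ_self b) (by omega : b + 1 ≤ nlev k0 b0)]
  have h8 := lt_nlev.1 hb
  have hnd : ∀ j, kb k0 b ≤ j → ¬ 2 ^ j ∣ u + 1 := by
    intro j hj hcon
    exact hd ((pow_dvd_pow 2 hj).trans hcon)
  rw [sg_cell X (u' := u + 1)]
  · intro b' hb'
    rw [Nat.succ_div_of_not_dvd (hnd _ (by unfold kb; omega))]
  · intro b' hb'
    rw [Nat.succ_div_of_not_dvd (hnd _ (by unfold kb; omega))]

lemma A1_gg_step (X : ℕ → V → ℝ) (k0 b0 u : ℕ) :
    gg k0 b0 (nlev k0 b0) (sg X k0 b0 (u + 1) (nlev k0 b0)) (u + 1) -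
      gg k0 b0 (nlev k0 b0) (sg X k0 b0 u (nlev k0 b0)) u =
    ∑ b ∈ Finset.range (nlev k0 b0),
      if sg X k0 b0 u (nlev k0 b0) b then 8 / 2 ^ eb b0 b * (cc k0 b u : ℝ) else 0 := by
  unfold gg
  rw [← Finset.sum_sub_distrib]
  apply Finset.sum_congr rfl
  intro b hb
  rw [Finset.mem_range] at hb
  exact A1_step (A1_kb_ge hb) _ _ (A1_sign_eq X hb)

lemma A1_pt_nb (u : ℤ) (g g' : ℝ) (h : |g' - g| ≤ 1) : pt (u + 1) g' ∈ nb (pt u g) := by
  unfold pt nb
  rw [abs_le] at h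
  have h1 := Int.floor_le ((g - u) / 2)
  have h2 := Int.lt_floor_add_one ((g - u) / 2)
  have h3 := Int.floor_le ((g' - ((u + 1 : ℤ) : ℝ)) / 2)
  have h4 := Int.lt_floor_add_one ((g' - ((u + 1 : ℤ) : ℝ)) / 2)
  generalize ⌊(g - u) / 2⌋ = m at *
  generalize ⌊(g' - ((u + 1 : ℤ) : ℝ)) / 2⌋ = m' at *
  push_cast at h3 h4
  have h5 : (m' : ℝ) < m + 1 := by linarith [h.1, h.2]
  have h6 : (m : ℝ) - 2 < m' := by linarith [h.1, h.2]
  have h7 : m' < m + 1 := by exact_mod_cast h5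
  have h8 : m - 2 < m' := by exact_mod_cast h6
  have h9 : m' = m ∨ m' = m - 1 := by omega
  simp only [Finset.mem_insert, Finset.mem_singleton, Prod.mk.injEq]
  rcases h9 with h9 | h9
  · left; constructor <;> omega
  · right; right; left; constructor <;> omega

lemma A1_loc_nlev (X : ℕ → V → ℝ) (k0 b0 u : ℕ) : loc X k0 b0 (nlev k0 b0) u =
    pt u (gg k0 b0 (nlev k0 b0) (sg X k0 b0 u (nlev k0 b0)) u) := by
  have h1 : jb k0 b0 (nlev k0 b0) = 0 := if_neg (lt_irrefl _)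
  have h2 : nd k0 b0 (nlev k0 b0) = nlev k0 b0 := by unfold nd; omega
  have h3 : rdn 0 u = u := by unfold rdn; simp
  unfold loc zz
  rw [h1, h2, h3]

/-- the random path is a nearest neighbour path -/
theorem path_adj (X : ℕ → V → ℝ) {k0 b0 u : ℕ} (hk0 : 1 ≤ k0) (hb0 : 16 ^ 10 ≤ b0)
    (hu : u < 2 ^ k0) :
    (if u + 1 < 2 ^ k0 then loc X k0 b0 (nlev k0 b0) (u + 1) else ((2 ^ k0 / 2, 2 ^ k0 / 2) : V)) ∈
      nb (loc X k0 b0 (nlev k0 b0) u) := by
  have hslope := A1_slope X (k0 := k0) (u := u) (n := nlev k0 b0) hb0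
  rw [← A1_gg_step] at hslope
  have h1 : |gg k0 b0 (nlev k0 b0) (sg X k0 b0 (u + 1) (nlev k0 b0)) (u + 1) -
      gg k0 b0 (nlev k0 b0) (sg X k0 b0 u (nlev k0 b0)) u| ≤ 1 :=
    hslope.trans (by norm_num)
  have h2 := A1_pt_nb u _ _ h1
  rw [A1_loc_nlev, A1_loc_nlev]
  split_ifs with hlt
  · push_cast
    exact h2
  · have hu1 : u + 1 = 2 ^ k0 := by omega
    have hz : gg k0 b0 (nlev k0 b0) (sg X k0 b0 (u + 1) (nlev k0 b0)) (u + 1) = 0 := by
      unfold gg
      apply Finset.sum_eq_zero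
      intro b _
      have : hb k0 b0 b (u + 1) = 0 := by
        apply A1_hb_zero
        rw [hu1]
        exact pow_dvd_pow 2 (by unfold kb; omega)
      rw [this]; simp
    rw [hz] at h2
    have h3 : pt (u + 1) 0 = ((2 ^ k0 / 2, 2 ^ k0 / 2) : V) := by
      obtain ⟨k, rfl⟩ := Nat.exists_eq_add_of_le hk0
      have h4 : ((u : ℤ) + 1) = 2 * 2 ^ k := by
        have : ((u + 1 : ℕ) : ℤ) = ((2 ^ (1 + k) : ℕ) : ℤ) := by rw [hu1]
        push_cast at this
        rw [this, pow_add, pow_one]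
      have h5 : ⌊((0 : ℝ) - (((u : ℤ) + 1 : ℤ) : ℝ)) / 2⌋ = -2 ^ k := by
        rw [h4]
        have : ((0 : ℝ) - ((2 * 2 ^ k : ℤ) : ℝ)) / 2 = ((-2 ^ k : ℤ) : ℝ) := by
          push_cast; ring
        rw [this, Int.floor_intCast]
      unfold pt
      rw [h5, h4]
      have h6 : (2 : ℤ) ^ (1 + k) / 2 = 2 ^ k := by
        rw [pow_add, pow_one]
        exact Int.mul_ediv_cancel_left _ (by norm_num)
      rw [h6]
      ext <;> simp
      ring
    rw [← h3]
    exact h2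

theorem path_zero (X : ℕ → V → ℝ) (k0 b0 : ℕ) : loc X k0 b0 (nlev k0 b0) 0 = 0 := by
  rw [A1_loc_nlev]
  have hz : gg k0 b0 (nlev k0 b0) (sg X k0 b0 0 (nlev k0 b0)) 0 = 0 := by
    unfold gg
    apply Finset.sum_eq_zero
    intro b _
    rw [A1_hb_zero (dvd_zero _)]; simp
  rw [hz]
  unfold pt
  simp

lemma A1_hb_nonneg (k0 b0 b u : ℕ) : 0 ≤ hb k0 b0 b u := by
  unfold hb; positivity

lemma A1_hb_le {k0 b0 b u : ℕ} (hb' : b < nlev k0 b0) : hb k0 b0 b u ≤ 64 * 2 ^ ib k0 b0 b := by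
  have h8 := lt_nlev.1 hb'
  have hk := A1_kb_ge hb'
  rw [A1_hb_eq hk]
  set q := 2 ^ (kb k0 b - 3) with hq
  have h1 : ((min (min (u % (8 * q)) q) (8 * q - u % (8 * q)) : ℕ) : ℝ) ≤ (q : ℝ) := by
    have : min (min (u % (8 * q)) q) (8 * q - u % (8 * q)) ≤ q := by omega
    exact_mod_cast this
  calc 8 / 2 ^ eb b0 b * ((min (min (u % (8 * q)) q) (8 * q - u % (8 * q)) : ℕ) : ℝ)
      ≤ 8 / 2 ^ eb b0 b * (q : ℝ) := mul_le_mul_of_nonneg_left h1 (by positivity)
    _ = 64 * 2 ^ ib k0 b0 b := by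
        rw [hq]
        have e1 : kb k0 b - 3 = ib k0 b0 b + 3 + eb b0 b := by
          unfold kb ib; omega
        rw [e1]
        push_cast
        rw [pow_add, pow_add]
        field_simp
        norm_num

lemma A1_geom (n : ℕ) : ∑ l ∈ Finset.range n, (1 / 256 : ℝ) ^ l ≤ 256 / 255 := by
  have h : ∑ l ∈ Finset.Ico 0 n, (1 / 256 : ℝ) ^ l ≤ (1 / 256 : ℝ) ^ 0 / (1 - 1 / 256) :=
    geom_sum_Ico_le_of_lt_one (by norm_num) (by norm_num)
  rw [← Finset.range_eq_Ico] at h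
  exact h.trans (by norm_num)

lemma A1_ib_le {k0 b0 m l : ℕ} (h : m ≤ l) (hl : l < nlev k0 b0) :
    ib k0 b0 l + 8 * (l - m) ≤ ib k0 b0 m := by
  have h1 := lt_nlev.1 hl
  have h2 := A1_eb_mono (b0 := b0) h
  unfold ib
  omega

/-- the levels from `m` on contribute little -/
lemma A1_tail {k0 b0 m n u : ℕ} (s : ℕ → Bool) (hn : n ≤ nlev k0 b0) :
    ∑ l ∈ Finset.Ico m n, (if s l then hb k0 b0 l u else 0) ≤
      64 * 2 ^ ib k0 b0 m * (256 / 255) := by
  rw [Finset.sum_Ico_eq_sum_range]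
  calc ∑ k ∈ Finset.range (n - m), (if s (m + k) then hb k0 b0 (m + k) u else 0)
      ≤ ∑ k ∈ Finset.range (n - m), 64 * 2 ^ ib k0 b0 m * (1 / 256 : ℝ) ^ k := by
        apply Finset.sum_le_sum
        intro k hk
        rw [Finset.mem_range] at hk
        have hlt : m + k < nlev k0 b0 := by omega
        have h1 : (if s (m + k) then hb k0 b0 (m + k) u else 0) ≤ hb k0 b0 (m + k) u := by
          split_ifs
          · exact le_refl _
          · exact A1_hb_nonneg _ _ _ _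
        have h2 := A1_hb_le (u := u) hlt
        have h3 := A1_ib_le (m := m) (by omega) hlt
        have h4 : (2 : ℝ) ^ ib k0 b0 (m + k) ≤ 2 ^ ib k0 b0 m * (1 / 256 : ℝ) ^ k := by
          have h5 : (2 : ℝ) ^ (ib k0 b0 (m + k) + 8 * k) ≤ 2 ^ ib k0 b0 m :=
            pow_le_pow_right₀ (by norm_num) (by omega)
          rw [pow_add, pow_mul] at h5
          norm_num at h5
          rw [one_div, inv_pow, ← div_eq_mul_inv, le_div_iff₀ (by positivity)]
          exact h5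
        calc (if s (m + k) then hb k0 b0 (m + k) u else 0) ≤ 64 * 2 ^ ib k0 b0 (m + k) :=
              h1.trans h2
          _ ≤ 64 * (2 ^ ib k0 b0 m * (1 / 256 : ℝ) ^ k) :=
              mul_le_mul_of_nonneg_left h4 (by norm_num)
          _ = 64 * 2 ^ ib k0 b0 m * (1 / 256 : ℝ) ^ k := by ring
    _ = 64 * 2 ^ ib k0 b0 m * ∑ k ∈ Finset.range (n - m), (1 / 256 : ℝ) ^ k :=
        (Finset.mul_sum _ _ _).symm
    _ ≤ 64 * 2 ^ ib k0 b0 m * (256 / 255) :=
        mul_le_mul_of_nonneg_left (A1_geom _) (by positivity)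

lemma A1_gg_nonneg (k0 b0 n : ℕ) (s : ℕ → Bool) (u : ℕ) : 0 ≤ gg k0 b0 n s u := by
  unfold gg
  apply Finset.sum_nonneg
  intro b _
  split_ifs
  · exact A1_hb_nonneg _ _ _ _
  · exact le_refl _

lemma A1_gg_le {k0 b0 n : ℕ} (hb0 : 16 ^ 10 ≤ b0) (s : ℕ → Bool) (u : ℕ)
    (hn : n ≤ nlev k0 b0) : gg k0 b0 n s u ≤ 2 ^ k0 := by
  rcases Nat.eq_zero_or_pos n with h0 | h0
  · subst h0
    unfold gg
    simp
  · have h1 := A1_tail (m := 0) (u := u) s hn
    rw [← Finset.range_eq_Ico] at h1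
    have h2 : 0 < nlev k0 b0 := by omega
    have h3 := lt_nlev.1 h2
    have h4 := A1_eb_ge (b := 0) hb0
    have h5 : ib k0 b0 0 + 36 ≤ k0 := by unfold ib; omega
    have h6 : (2 : ℝ) ^ (ib k0 b0 0 + 36) ≤ 2 ^ k0 := pow_le_pow_right₀ (by norm_num) h5
    rw [pow_add] at h6
    have h7 : (0 : ℝ) < 2 ^ ib k0 b0 0 := by positivity
    unfold gg
    refine h1.trans (le_trans ?_ h6)
    have h8 : (64 : ℝ) * (256 / 255) ≤ 2 ^ 36 := by norm_num
    nlinarith

theorem path_uv (X : ℕ → V → ℝ) {k0 b0 u : ℕ} (hb0 : 16 ^ 10 ≤ b0) (hu : u < 2 ^ k0) :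
    (loc X k0 b0 (nlev k0 b0) u).1 + (loc X k0 b0 (nlev k0 b0) u).2 = u ∧
      -1 ≤ (loc X k0 b0 (nlev k0 b0) u).1 - (loc X k0 b0 (nlev k0 b0) u).2 ∧
      (loc X k0 b0 (nlev k0 b0) u).1 - (loc X k0 b0 (nlev k0 b0) u).2 ≤ 2 ^ k0 := by
  rw [A1_loc_nlev]
  have h1 := A1_gg_nonneg k0 b0 (nlev k0 b0) (sg X k0 b0 u (nlev k0 b0)) u
  have h2 := A1_gg_le hb0 (sg X k0 b0 u (nlev k0 b0)) u (le_refl (nlev k0 b0))
  generalize gg k0 b0 (nlev k0 b0) (sg X k0 b0 u (nlev k0 b0)) u = g at *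
  unfold pt
  have h3 := Int.floor_le ((g - ((u : ℤ) : ℝ)) / 2)
  have h4 := Int.lt_floor_add_one ((g - ((u : ℤ) : ℝ)) / 2)
  generalize ⌊(g - ((u : ℤ) : ℝ)) / 2⌋ = m at *
  have h5 : ((u : ℤ) : ℝ) + 2 * m ≤ 2 ^ k0 := by linarith
  have h6 : (-2 : ℝ) < ((u : ℤ) : ℝ) + 2 * m := by linarith
  have h7 : (u : ℤ) + 2 * m ≤ 2 ^ k0 := by exact_mod_cast h5
  have h8 : (-2 : ℤ) < (u : ℤ) + 2 * m := by exact_mod_cast h6
  refine ⟨by ring, ?_, ?_⟩
  · simp only
    omega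
  · simp only
    linarith

lemma A1_rdn_div {j j' u : ℕ} (h : j ≤ j') : rdn j u / 2 ^ j' = u / 2 ^ j' := by
  obtain ⟨d, rfl⟩ := Nat.exists_eq_add_of_le h
  unfold rdn
  rw [pow_add, ← Nat.div_div_eq_div_mul, ← Nat.div_div_eq_div_mul,
    Nat.mul_div_cancel_left _ (by positivity)]

lemma A1_rdn_rdn {j j' u : ℕ} (h : j ≤ j') : rdn j' (rdn j u) = rdn j' u := by
  unfold rdn
  have := A1_rdn_div (u := u) h
  unfold rdn at this
  rw [this]

lemma A1_jb_le {k0 b0 b b' : ℕ} (h : b' ≤ b) (hb : b ≤ nlev k0 b0) :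
    jb k0 b0 b ≤ jb k0 b0 b' := by
  unfold jb
  by_cases h1 : b < nlev k0 b0
  · rw [if_pos h1, if_pos (by omega)]
    have := A1_ib_le h h1
    omega
  · rw [if_neg h1]
    omega

lemma A1_kb_jb {k0 b0 l b : ℕ} (h : l ≤ b) (hb : b < nlev k0 b0) :
    jb k0 b0 b ≤ kb k0 l - 3 ∧ 8 * l + 3 ≤ k0 := by
  have h1 := lt_nlev.1 hb
  unfold jb
  rw [if_pos hb]
  unfold kb ib
  constructor <;> omega

/-- positions of different levels are close -/
theorem loc_close (X : ℕ → V → ℝ) {k0 b0 b b' u : ℕ} (hb0 : 16 ^ 10 ≤ b0) (hu : u < 2 ^ k0)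
    (h : b' ≤ b) (hb : b ≤ nlev k0 b0) :
    loc X k0 b0 b u ∈ ball (loc X k0 b0 b' u) (2 * 2 ^ jb k0 b0 b') := by
  rename' hb => hbn
  rcases h.eq_or_lt with h | h
  · subst h
    rw [mem_ball]
    simp
  have hb' : b' < nlev k0 b0 := by omega
  have hjj := A1_jb_le h.le hbn
  have hnd' : nd k0 b0 b' = b' + 1 := by unfold nd; omega
  have hnd : b' + 1 ≤ nd k0 b0 b ∧ nd k0 b0 b ≤ nlev k0 b0 := by unfold nd; omega
  have hjb' : jb k0 b0 b' = ib k0 b0 b' := if_pos hb'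
  unfold loc zz
  rw [hnd']
  set u1 := rdn (jb k0 b0 b) u with hu1
  set u2 := rdn (jb k0 b0 b') u with hu2
  set n := nd k0 b0 b with hn
  have hdiv : ∀ j, jb k0 b0 b' ≤ j → u1 / 2 ^ j = u2 / 2 ^ j := by
    intro j hj
    rw [hu1, hu2, A1_rdn_div (hjj.trans hj), A1_rdn_div hj]
  have hsg : sg X k0 b0 u1 (b' + 1) = sg X k0 b0 u2 (b' + 1) := by
    apply sg_cell
    · intro l hl
      have := A1_kb_jb (k0 := k0) (b0 := b0) (by omega : l ≤ b') hb'
      exact hdiv _ (by omega)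
    · intro l hl
      have := A1_kb_jb (k0 := k0) (b0 := b0) (by omega : l ≤ b') hb'
      exact hdiv _ (by omega)
  -- the difference of the curves
  have hsplit : gg k0 b0 n (sg X k0 b0 u1 n) u1 =
      gg k0 b0 (b' + 1) (sg X k0 b0 u2 (b' + 1)) u1 +
      ∑ l ∈ Finset.Ico (b' + 1) n, (if sg X k0 b0 u1 n l then hb k0 b0 l u1 else 0) := by
    unfold gg
    rw [← Finset.sum_range_add_sum_Ico _ hnd.1]
    congr 1
    apply Finset.sum_congr rfl
    intro l hl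
    rw [Finset.mem_range] at hl
    rw [sg_stable X hl hnd.1, hsg]
  have hlin := gg_lin (k0 := k0) (b0 := b0) (n := b' + 1)
    (fun l hl => (A1_kb_jb (b0 := b0) (by omega : l ≤ b') hb').2)
    (s := sg X k0 b0 u2 (b' + 1)) (u := u2) (u' := u1)
    (fun l hl => (hdiv _ (A1_kb_jb (b0 := b0) (by omega : l ≤ b') hb').1).symm)
  have hslope := A1_slope X (k0 := k0) (u := u2) (n := b' + 1) hb0
  have htail0 : 0 ≤ ∑ l ∈ Finset.Ico (b' + 1) n,
      (if sg X k0 b0 u1 n l then hb k0 b0 l u1 else 0) := by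
    apply Finset.sum_nonneg
    intro l _
    split_ifs
    · exact A1_hb_nonneg _ _ _ _
    · exact le_refl _
  set J : ℝ := 2 ^ jb k0 b0 b' with hJ
  have hJ1 : 1 ≤ J := one_le_pow₀ (by norm_num)
  have htail1 : ∑ l ∈ Finset.Ico (b' + 1) n,
      (if sg X k0 b0 u1 n l then hb k0 b0 l u1 else 0) ≤ 64 / 255 * J := by
    by_cases hlt : b' + 1 < nlev k0 b0
    · have h1 := A1_tail (m := b' + 1) (u := u1) (sg X k0 b0 u1 n) hnd.2
      have h2 := A1_ib_le (by omega : b' ≤ b' + 1) hlt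
      have h3 : (2 : ℝ) ^ (ib k0 b0 (b' + 1) + 8) ≤ J := by
        rw [hJ, hjb']
        exact pow_le_pow_right₀ (by norm_num) (by omega)
      rw [pow_add] at h3
      norm_num at h3
      refine h1.trans ?_
      linarith
    · have : n = b' + 1 := by omega
      rw [this, Finset.Ico_self, Finset.sum_empty]
      positivity
  -- the difference of the parameters
  have hle : u2 ≤ u1 ∧ u1 < u2 + 2 ^ jb k0 b0 b' := by
    have h1 := hdiv _ (le_refl _)
    have h2 := Nat.div_add_mod u1 (2 ^ jb k0 b0 b')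
    have h3 := Nat.mod_lt u1 (by positivity : 0 < 2 ^ jb k0 b0 b')
    have h4 : u2 = 2 ^ jb k0 b0 b' * (u2 / 2 ^ jb k0 b0 b') := by
      rw [hu2, A1_rdn_div (le_refl _)]; rfl
    rw [h1, ← h4] at h2
    omega
  have hd0 : (0 : ℝ) ≤ (u1 : ℝ) - u2 := by
    have : (u2 : ℝ) ≤ u1 := by exact_mod_cast hle.1
    linarith
  have hd1 : (u1 : ℝ) - u2 ≤ J := by
    have : ((u1 : ℕ) : ℝ) ≤ ((u2 + 2 ^ jb k0 b0 b' : ℕ) : ℝ) := by exact_mod_cast hle.2.le
    push_cast at this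
    linarith
  set g1 := gg k0 b0 n (sg X k0 b0 u1 n) u1 with hg1
  set g2 := gg k0 b0 (b' + 1) (sg X k0 b0 u2 (b' + 1)) u2 with hg2
  have hdg : |g1 - g2| ≤ 51 / 100 * J + 1 / 100 * J := by
    have e : g1 - g2 = ((u1 : ℝ) - u2) * (∑ b ∈ Finset.range (b' + 1),
        if sg X k0 b0 u2 (b' + 1) b then 8 / 2 ^ eb b0 b * (cc k0 b u2 : ℝ) else 0) +
        ∑ l ∈ Finset.Ico (b' + 1) n, (if sg X k0 b0 u1 n l then hb k0 b0 l u1 else 0) := by
      rw [hsplit]
      linarith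
    rw [e]
    refine (abs_add_le _ _).trans ?_
    rw [abs_mul, abs_of_nonneg hd0, abs_of_nonneg htail0]
    have h5 : ((u1 : ℝ) - u2) * |∑ b ∈ Finset.range (b' + 1),
        if sg X k0 b0 u2 (b' + 1) b then 8 / 2 ^ eb b0 b * (cc k0 b u2 : ℝ) else 0| ≤
        J * (1 / 4 + 8 / 2 ^ 30) :=
      mul_le_mul hd1 hslope (abs_nonneg _) (by linarith)
    have h6 : (1 / 4 + 8 / 2 ^ 30 : ℝ) ≤ 26 / 100 := by norm_num
    nlinarith
  rw [abs_le] at hdg
  rw [mem_ball]
  unfold pt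
  have e1 := Int.floor_le ((g1 - ((u1 : ℤ) : ℝ)) / 2)
  have e2 := Int.lt_floor_add_one ((g1 - ((u1 : ℤ) : ℝ)) / 2)
  have e3 := Int.floor_le ((g2 - ((u2 : ℤ) : ℝ)) / 2)
  have e4 := Int.lt_floor_add_one ((g2 - ((u2 : ℤ) : ℝ)) / 2)
  generalize ⌊(g1 - ((u1 : ℤ) : ℝ)) / 2⌋ = m1 at *
  generalize ⌊(g2 - ((u2 : ℤ) : ℝ)) / 2⌋ = m2 at *
  rw [Int.cast_natCast] at e1 e2 e3 e4
  have f1 : ((m1 : ℤ) : ℝ) - m2 < 2 * J := by linarith [hdg.1, hdg.2]
  have f2 : ((m2 : ℤ) : ℝ) - m1 < 2 * J := by linarith [hdg.1, hdg.2]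
  have f3 : ((u1 : ℝ) + m1) - (u2 + m2) < 2 * J := by linarith [hdg.1, hdg.2]
  have f4 : ((u2 : ℝ) + m2) - (u1 + m1) < 2 * J := by linarith [hdg.1, hdg.2]
  rw [hJ] at f1 f2 f3 f4
  have k1 : m1 - m2 < 2 * 2 ^ jb k0 b0 b' := by exact_mod_cast f1
  have k2 : m2 - m1 < 2 * 2 ^ jb k0 b0 b' := by exact_mod_cast f2
  have k3 : ((u1 : ℤ) + m1) - (u2 + m2) < 2 * 2 ^ jb k0 b0 b' := by exact_mod_cast f3
  have k4 : ((u2 : ℤ) + m2) - (u1 + m1) < 2 * 2 ^ jb k0 b0 b' := by exact_mod_cast f4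
  simp only
  push_cast
  refine ⟨⟨?_, ?_⟩, ?_, ?_⟩ <;> linarith

lemma A1_Gd_congr (X : ℕ → V → ℝ) {k0 b0 b u u' : ℕ} {K : ℝ}
    (h : ∀ j, jb k0 b0 b ≤ j → u / 2 ^ j = u' / 2 ^ j) :
    Gd X k0 b0 K b u ↔ Gd X k0 b0 K b u' := by
  have hloc : loc X k0 b0 b u = loc X k0 b0 b u' := by
    unfold loc
    have : rdn (jb k0 b0 b) u = rdn (jb k0 b0 b) u' := by
      unfold rdn
      rw [h _ (le_refl _)]
    rw [this]
  have h3 : Gd3 X k0 b0 b u ↔ Gd3 X k0 b0 b u' := by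
    unfold Gd3
    refine imp_congr_right fun hlt => not_congr ?_
    have hk : ∀ l ≤ b, u / 2 ^ (kb k0 l - 3) = u' / 2 ^ (kb k0 l - 3) :=
      fun l hl => h _ (A1_kb_jb hl hlt).1
    rw [sg_cell X (u' := u') (fun l hl => h _ ?_) (fun l hl => hk l (by omega))]
    · exact A1_viol_congr (fun _ _ => rfl) hk
    · have := A1_kb_jb (k0 := k0) (b0 := b0) (by omega : l ≤ b) hlt
      omega
  unfold Gd Gd1 Gd2
  rw [hloc, h3]

/-- level `b` only depends on the cell of size `2^(jb b)` -/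
theorem Gd_cell (X : ℕ → V → ℝ) {k0 b0 b u : ℕ} {K : ℝ} (hb : b ≤ nlev k0 b0) :
    (loc X k0 b0 b (rdn (jb k0 b0 b) u) = loc X k0 b0 b u) ∧
      (Gd X k0 b0 K b (rdn (jb k0 b0 b) u) ↔ Gd X k0 b0 K b u) ∧
      (FB X k0 b0 K b (rdn (jb k0 b0 b) u) ↔ FB X k0 b0 K b u) := by
  have hG : ∀ b' ≤ b, (Gd X k0 b0 K b' (rdn (jb k0 b0 b) u) ↔ Gd X k0 b0 K b' u) := by
    intro b' hb'
    apply A1_Gd_congr
    intro j hj
    exact A1_rdn_div ((A1_jb_le hb' hb).trans hj)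
  refine ⟨?_, hG b (le_refl _), ?_⟩
  · unfold loc
    rw [A1_rdn_rdn (le_refl _)]
  · unfold FB
    rw [hG b (le_refl _)]
    refine and_congr_left fun _ => ?_
    refine forall_congr' fun b' => forall_congr' fun hb' => hG b' hb'.le

end Pool.H92.GFL
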