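import Pool.Agent.helper92.GFL.A1
import Pool.Agent.helper92.GFL.K4

namespace Pool.H92.GFL

open Function Finset MeasureTheory ProbabilityTheory Pool.H92.GFF
open scoped Classical ENNReal

lemma a2_ib {k0 b0 b : ℕ} (h : b < nlev k0 b0) :
    kb k0 b = ib k0 b0 b + eb b0 b + 6 ∧ 8 * b + eb b0 b + 6 ≤ k0 := by
  have := lt_nlev.1 h
  unfold kb ib
  omega

lemma a2_two {k0 b0 b : ℕ} (h : b < nlev k0 b0) :
    2 ^ kb k0 b = 64 * (2 ^ eb b0 b * 2 ^ ib k0 b0 b) := by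
  rw [(a2_ib h).1, pow_add, pow_add]; ring

lemma a2_D {k0 b0 b : ℕ} (h : b < nlev k0 b0) :
    kb k0 b - eb b0 b = ib k0 b0 b + 6 := by
  rw [(a2_ib h).1]; omega

lemma a2_eb_mono {b0 b b' : ℕ} (h : b ≤ b') : eb b0 b ≤ eb b0 b' := by
  unfold eb lb
  have := Nat.log_mono_right (b := 16) (show b + b0 ≤ b' + b0 by omega)
  omega

lemma a2_mono {k0 b0 b b' : ℕ} (hbb : b ≤ b') (h : b' < nlev k0 b0) :
    ib k0 b0 b' + 8 * (b' - b) ≤ ib k0 b0 b := by
  have h1 := lt_nlev.1 h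
  have h2 := a2_eb_mono (b0 := b0) hbb
  unfold ib
  omega

lemma a2_oc {k0 b0 b : ℕ} (h : b < nlev k0 b0) (u : ℕ) :
    ∃ t, t < 8 * (2 ^ eb b0 b * 2 ^ ib k0 b0 b) ∧ oc k0 b u < 8 ∧
      u = 64 * (2 ^ eb b0 b * 2 ^ ib k0 b0 b) * (u / 2 ^ kb k0 b) +
        8 * (2 ^ eb b0 b * 2 ^ ib k0 b0 b) * oc k0 b u + t ∧
      u % 2 ^ kb k0 b = 8 * (2 ^ eb b0 b * 2 ^ ib k0 b0 b) * oc k0 b u + t := by
  have hM := a2_two h
  have h3 : 2 ^ (kb k0 b - 3) = 8 * (2 ^ eb b0 b * 2 ^ ib k0 b0 b) := by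
    have : kb k0 b - 3 = ib k0 b0 b + eb b0 b + 3 := by rw [(a2_ib h).1]; omega
    rw [this, pow_add, pow_add]; ring
  have hX : 0 < 2 ^ eb b0 b * 2 ^ ib k0 b0 b := by positivity
  rw [hM]
  unfold oc
  rw [h3]
  generalize 2 ^ eb b0 b * 2 ^ ib k0 b0 b = X at *
  have e1 : u / (64 * X) = u / (8 * X) / 8 := by
    rw [Nat.div_div_eq_div_mul]; congr 1; ring
  have e2 := Nat.div_add_mod u (8 * X)
  have e3 := Nat.div_add_mod (u / (8 * X)) 8
  have e4 : u % (8 * X) < 8 * X := Nat.mod_lt _ (by omega)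
  have e5 := Nat.div_add_mod u (64 * X)
  have key : u = 64 * X * (u / (64 * X)) + 8 * X * (u / (8 * X) % 8) + u % (8 * X) := by
    rw [e1]
    calc u = 8 * X * (u / (8 * X)) + u % (8 * X) := e2.symm
      _ = 8 * X * (8 * (u / (8 * X) / 8) + u / (8 * X) % 8) + u % (8 * X) := by rw [e3]
      _ = _ := by ring
  refine ⟨u % (8 * X), e4, Nat.mod_lt _ (by norm_num), key, ?_⟩
  omega

lemma a2_hb_bd {k0 b0 b : ℕ} (h : b < nlev k0 b0) (u : ℕ) :
    0 ≤ hb k0 b0 b u ∧ hb k0 b0 b u ≤ 64 * 2 ^ ib k0 b0 b := by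
  have hM := a2_two h
  have h8 : 2 ^ kb k0 b / 8 = 8 * (2 ^ eb b0 b * 2 ^ ib k0 b0 b) := by omega
  unfold hb
  constructor
  · positivity
  · have h1 : (min (min (u % 2 ^ kb k0 b) (2 ^ kb k0 b / 8)) (2 ^ kb k0 b - u % 2 ^ kb k0 b) : ℕ) ≤
        8 * (2 ^ eb b0 b * 2 ^ ib k0 b0 b) := by
      rw [← h8]
      exact (min_le_left _ _).trans (min_le_right _ _)
    have h2 : ((min (min (u % 2 ^ kb k0 b) (2 ^ kb k0 b / 8)) (2 ^ kb k0 b - u % 2 ^ kb k0 b) : ℕ) : ℝ)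
        ≤ 8 * (2 ^ eb b0 b * 2 ^ ib k0 b0 b) := by exact_mod_cast h1
    calc 8 / 2 ^ eb b0 b * ((min (min (u % 2 ^ kb k0 b) (2 ^ kb k0 b / 8))
          (2 ^ kb k0 b - u % 2 ^ kb k0 b) : ℕ) : ℝ)
        ≤ 8 / 2 ^ eb b0 b * (8 * (2 ^ eb b0 b * 2 ^ ib k0 b0 b)) := by gcongr
      _ = 64 * 2 ^ ib k0 b0 b := by field_simp; ring

lemma a2_hb_eq {k0 b0 b : ℕ} (h : b < nlev k0 b0) {u : ℕ} (h1 : 1 ≤ oc k0 b u)
    (h2 : oc k0 b u ≤ 6) : hb k0 b0 b u = 64 * 2 ^ ib k0 b0 b := by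
  have hM := a2_two h
  obtain ⟨t, ht, -, -, hr⟩ := a2_oc h u
  have h8 : 2 ^ kb k0 b / 8 = 8 * (2 ^ eb b0 b * 2 ^ ib k0 b0 b) := by omega
  have hmin : (min (min (u % 2 ^ kb k0 b) (2 ^ kb k0 b / 8)) (2 ^ kb k0 b - u % 2 ^ kb k0 b) : ℕ) =
      8 * (2 ^ eb b0 b * 2 ^ ib k0 b0 b) := by
    rw [h8, hr, hM]
    generalize 2 ^ eb b0 b * 2 ^ ib k0 b0 b = X at *
    have e1 : 8 * X * 1 ≤ 8 * X * oc k0 b u := Nat.mul_le_mul_left _ h1
    have e2 : 8 * X * oc k0 b u ≤ 8 * X * 6 := Nat.mul_le_mul_left _ h2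
    generalize 8 * X * oc k0 b u = Y at *
    omega
  unfold hb
  rw [hmin]
  push_cast
  field_simp
  ring

/-- geometric bound -/
lemma a2_geom (k : ℕ) : ∑ i ∈ Finset.range k, (1 / 256 : ℝ) ^ (i + 1) ≤ 1 / 255 := by
  have : ∀ k : ℕ, ∑ i ∈ Finset.range k, (1 / 256 : ℝ) ^ (i + 1) = 1 / 255 * (1 - (1 / 256) ^ k) := by
    intro k
    induction k with
    | zero => simp
    | succ k ih => rw [Finset.sum_range_succ, ih]; ring
  rw [this]
  have h : (0 : ℝ) ≤ (1 / 256) ^ k := by positivity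
  linarith

lemma a2_pow_le {k0 b0 b b' : ℕ} (hbb : b ≤ b') (h : b' < nlev k0 b0) :
    (2 : ℝ) ^ ib k0 b0 b' ≤ 2 ^ ib k0 b0 b * (1 / 256) ^ (b' - b) := by
  have h1 := a2_mono hbb h
  have h2 : (2 : ℝ) ^ (ib k0 b0 b' + 8 * (b' - b)) ≤ 2 ^ ib k0 b0 b :=
    pow_le_pow_right₀ (by norm_num) h1
  rw [pow_add, pow_mul] at h2
  have h3 : ((2 : ℝ) ^ 8) = 256 := by norm_num
  rw [h3] at h2
  have h4 : (0 : ℝ) < 256 ^ (b' - b) := by positivity
  rw [one_div, inv_pow, ← div_eq_mul_inv, le_div_iff₀ h4]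
  exact h2

/-- the tail of the curve -/
lemma a2_tail {k0 b0 b n u : ℕ} {s : ℕ → Bool} (hn : b < n) (hn' : n ≤ nlev k0 b0) :
    0 ≤ gg k0 b0 n s u - gg k0 b0 b s u - (if s b then hb k0 b0 b u else 0) ∧
    gg k0 b0 n s u - gg k0 b0 b s u - (if s b then hb k0 b0 b u else 0) ≤
      64 / 255 * 2 ^ ib k0 b0 b := by
  have e : gg k0 b0 n s u - gg k0 b0 b s u - (if s b then hb k0 b0 b u else 0) =
      ∑ i ∈ Finset.range (n - (b + 1)), if s (b + 1 + i) then hb k0 b0 (b + 1 + i) u else 0 := by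
    unfold gg
    rw [← Finset.sum_Ico_eq_sum_range (fun b' => if s b' then hb k0 b0 b' u else 0) (b + 1) n,
      ← Finset.sum_range_add_sum_Ico (fun b' => if s b' then hb k0 b0 b' u else 0) hn,
      Finset.sum_range_succ]
    ring
  rw [e]
  constructor
  · refine Finset.sum_nonneg fun i hi => ?_
    rw [Finset.mem_range] at hi
    split_ifs
    · exact (a2_hb_bd (by omega) u).1
    · exact le_rfl
  · calc ∑ i ∈ Finset.range (n - (b + 1)), (if s (b + 1 + i) then hb k0 b0 (b + 1 + i) u else 0)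
        ≤ ∑ i ∈ Finset.range (n - (b + 1)), 64 * 2 ^ ib k0 b0 b * (1 / 256 : ℝ) ^ (i + 1) := by
          refine Finset.sum_le_sum fun i hi => ?_
          rw [Finset.mem_range] at hi
          have hlt : b + 1 + i < nlev k0 b0 := by omega
          have h1 := a2_pow_le (show b ≤ b + 1 + i by omega) hlt
          have h2 : b + 1 + i - b = i + 1 := by omega
          rw [h2] at h1
          split_ifs
          · have := (a2_hb_bd hlt u).2
            nlinarith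
          · positivity
      _ = 64 * 2 ^ ib k0 b0 b * ∑ i ∈ Finset.range (n - (b + 1)), (1 / 256 : ℝ) ^ (i + 1) := by
          rw [Finset.mul_sum]
      _ ≤ 64 * 2 ^ ib k0 b0 b * (1 / 255) := by
          gcongr
          exact a2_geom _
      _ = _ := by ring

/-- bounds of the curve -/
lemma a2_gg_bd {k0 b0 n u : ℕ} {s : ℕ → Bool} (hn' : n ≤ nlev k0 b0) :
    0 ≤ gg k0 b0 n s u ∧ gg k0 b0 n s u ≤ 2 * 2 ^ k0 := by
  constructor
  · unfold gg
    refine Finset.sum_nonneg fun i hi => ?_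
    rw [Finset.mem_range] at hi
    split_ifs
    · exact (a2_hb_bd (by omega) u).1
    · exact le_rfl
  · unfold gg
    calc ∑ b ∈ Finset.range n, (if s b then hb k0 b0 b u else 0)
        ≤ ∑ b ∈ Finset.range n, 2 ^ k0 * 256 * (1 / 256 : ℝ) ^ (b + 1) := by
          refine Finset.sum_le_sum fun i hi => ?_
          rw [Finset.mem_range] at hi
          have hlt : i < nlev k0 b0 := by omega
          have h1 := a2_pow_le (show 0 ≤ i by omega) hlt
          have h0 : (2 : ℝ) ^ ib k0 b0 0 * 64 ≤ 2 ^ k0 := by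
            have h2 := lt_nlev.1 (show 0 < nlev k0 b0 by omega)
            have h3 : ib k0 b0 0 + 6 ≤ k0 := by unfold ib; omega
            calc (2 : ℝ) ^ ib k0 b0 0 * 64 = 2 ^ (ib k0 b0 0 + 6) := by rw [pow_add]; norm_num
              _ ≤ 2 ^ k0 := pow_le_pow_right₀ (by norm_num) h3
          have h4 : (0 : ℝ) ≤ (1 / 256) ^ i := by positivity
          have h5 : (2 : ℝ) ^ k0 * 256 * (1 / 256 : ℝ) ^ (i + 1) = 2 ^ k0 * (1 / 256) ^ i := by
            rw [pow_succ]; ring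
          rw [h5]
          simp only [Nat.sub_zero] at h1
          split_ifs
          · have h6 := (a2_hb_bd hlt u).2
            calc hb k0 b0 i u ≤ 64 * 2 ^ ib k0 b0 i := h6
              _ ≤ 64 * (2 ^ ib k0 b0 0 * (1 / 256) ^ i) := by gcongr
              _ = (2 ^ ib k0 b0 0 * 64) * (1 / 256) ^ i := by ring
              _ ≤ _ := by gcongr
          · positivity
      _ = 2 ^ k0 * 256 * ∑ b ∈ Finset.range n, (1 / 256 : ℝ) ^ (b + 1) := by
          rw [Finset.mul_sum]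
      _ ≤ 2 ^ k0 * 256 * (1 / 255) := by
          gcongr
          exact a2_geom _
      _ ≤ 2 * 2 ^ k0 := by
          have : (0 : ℝ) < 2 ^ k0 := by positivity
          linarith

/-- in one cell of level `b` the curve of the levels `< b` has slope at most `1/4` -/
lemma a2_lip {k0 b0 b u u' : ℕ} {s : ℕ → Bool} (hb0 : 16 ^ 10 ≤ b0) (hb : b < nlev k0 b0)
    (hs : ∀ b' < b, ¬ viol k0 b0 s u b') (hc : u / 2 ^ kb k0 b = u' / 2 ^ kb k0 b) :
    |gg k0 b0 b s u' - gg k0 b0 b s u| ≤ |(u' : ℝ) - u| / 4 := by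
  have h0 := lt_nlev.1 hb
  have h1 : ∀ b' < b, u / 2 ^ (kb k0 b' - 3) = u' / 2 ^ (kb k0 b' - 3) := by
    intro b' hb'
    obtain ⟨d, hd⟩ : ∃ d, kb k0 b' - 3 = kb k0 b + d := ⟨kb k0 b' - 3 - kb k0 b, by
      unfold kb; omega⟩
    rw [hd, pow_add, ← Nat.div_div_eq_div_mul, ← Nat.div_div_eq_div_mul, hc]
  rw [gg_lin (fun b' hb' => by omega) h1, abs_mul]
  have h2 := slope_ok hb0 hs
  calc |(u' : ℝ) - u| * _ ≤ |(u' : ℝ) - u| * (1 / 4) := by gcongr
    _ = _ := by ring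

lemma a2_pt (u : ℤ) (g : ℝ) : (pt u g).1 + (pt u g).2 = u ∧
    g - 2 < (((pt u g).1 - (pt u g).2 : ℤ) : ℝ) ∧ (((pt u g).1 - (pt u g).2 : ℤ) : ℝ) ≤ g := by
  have h1 := Int.floor_le ((g - u) / 2)
  have h2 := Int.lt_floor_add_one ((g - u) / 2)
  unfold pt
  refine ⟨by simp, ?_, ?_⟩
  · push_cast
    linarith
  · push_cast
    linarith

/-- membership in the strip, in terms of `X` -/
lemma a2_strip {k0 b0 b a c : ℕ} {s : ℕ → Bool} (h : b < nlev k0 b0) {v : V} :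
    v ∈ strip k0 b0 b a s c ↔ v ∈ ball 0 (2 ^ (k0 + 2)) ∧ ∃ u : ℕ,
      64 * (2 ^ eb b0 b * 2 ^ ib k0 b0 b) * a + 12 * (2 ^ eb b0 b * 2 ^ ib k0 b0 b) ≤ u ∧
      u < 64 * (2 ^ eb b0 b * 2 ^ ib k0 b0 b) * a + 52 * (2 ^ eb b0 b * 2 ^ ib k0 b0 b) ∧
      v.1 + v.2 = u ∧
      |((v.1 - v.2 : ℤ) : ℝ) - (gg k0 b0 b s u + c * (64 * 2 ^ ib k0 b0 b))| ≤
        16 * 2 ^ ib k0 b0 b := by
  have hM := a2_two h
  have h1 : a * 2 ^ kb k0 b + 3 * 2 ^ kb k0 b / 16 =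
      64 * (2 ^ eb b0 b * 2 ^ ib k0 b0 b) * a + 12 * (2 ^ eb b0 b * 2 ^ ib k0 b0 b) := by
    rw [hM]
    have : 3 * (64 * (2 ^ eb b0 b * 2 ^ ib k0 b0 b)) / 16 = 12 * (2 ^ eb b0 b * 2 ^ ib k0 b0 b) := by
      omega
    rw [this]; ring
  have h2 : a * 2 ^ kb k0 b + 13 * 2 ^ kb k0 b / 16 =
      64 * (2 ^ eb b0 b * 2 ^ ib k0 b0 b) * a + 52 * (2 ^ eb b0 b * 2 ^ ib k0 b0 b) := by
    rw [hM]
    have : 13 * (64 * (2 ^ eb b0 b * 2 ^ ib k0 b0 b)) / 16 =
        52 * (2 ^ eb b0 b * 2 ^ ib k0 b0 b) := by omega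
    rw [this]; ring
  have h3 : (2 : ℝ) ^ (kb k0 b - eb b0 b) = 64 * 2 ^ ib k0 b0 b := by
    rw [a2_D h, pow_add]; ring
  unfold strip
  rw [Finset.mem_filter, h1, h2, h3]

theorem strip_card {k0 b0 b a c : ℕ} {s : ℕ → Bool} (hb : b < nlev k0 b0) :
    (strip k0 b0 b a s c).card ≤ 11 * 2 ^ (kb k0 b + ib k0 b0 b) := by
  have hM := a2_two hb
  have hm : 1 ≤ 2 ^ ib k0 b0 b := Nat.one_le_two_pow
  rw [pow_add, hM]
  have key := Finset.card_le_mul_card_image_of_maps_to (s := strip k0 b0 b a s c)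
    (t := Finset.Ico (((64 * (2 ^ eb b0 b * 2 ^ ib k0 b0 b) * a +
      12 * (2 ^ eb b0 b * 2 ^ ib k0 b0 b) : ℕ) : ℤ))
      ((64 * (2 ^ eb b0 b * 2 ^ ib k0 b0 b) * a + 52 * (2 ^ eb b0 b * 2 ^ ib k0 b0 b) : ℕ) : ℤ))
    (f := fun v => v.1 + v.2) (by
      intro v hv
      obtain ⟨-, u, h1, h2, h3, -⟩ := (a2_strip hb).1 hv
      rw [Finset.mem_Ico, h3]
      exact ⟨by exact_mod_cast h1, by exact_mod_cast h2⟩) (16 * 2 ^ ib k0 b0 b + 1) (by
      intro w hw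
      rw [Finset.mem_Ico] at hw
      obtain ⟨G, hG⟩ : ∃ G : ℝ, ∀ v ∈ (strip k0 b0 b a s c).filter (fun v => v.1 + v.2 = w),
          |((v.1 - v.2 : ℤ) : ℝ) - G| ≤ 16 * 2 ^ ib k0 b0 b := by
        refine ⟨gg k0 b0 b s w.toNat + c * (64 * 2 ^ ib k0 b0 b), fun v hv => ?_⟩
        rw [Finset.mem_filter] at hv
        obtain ⟨-, u, h1, h2, h3, h4⟩ := (a2_strip hb).1 hv.1
        have : w.toNat = u := by rw [← hv.2, h3]; simp
        rw [this]; exact h4
      refine (Finset.card_le_card_of_injOn (t := Finset.Icc ⌈((w : ℝ) + G) / 2 - 8 * 2 ^ ib k0 b0 b⌉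
        ⌊((w : ℝ) + G) / 2 + 8 * 2 ^ ib k0 b0 b⌋) (fun v => v.1) ?_ ?_).trans ?_
      · intro v hv
        have h1 := hG v hv
        have h2 : v.1 + v.2 = w := (Finset.mem_filter.1 hv).2
        have h3 : (v.2 : ℝ) = w - v.1 := by
          have : v.2 = w - v.1 := by omega
          rw [this]; push_cast; ring
        rw [abs_le] at h1
        push_cast at h1
        rw [h3] at h1
        rw [Finset.mem_coe, Finset.mem_Icc, Int.ceil_le, Int.le_floor]
        constructor <;> linarith [h1.1, h1.2]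
      · intro v hv v' hv' hvv
        have h2 : v.1 + v.2 = w := (Finset.mem_filter.1 hv).2
        have h2' : v'.1 + v'.2 = w := (Finset.mem_filter.1 hv').2
        have h3 : v.1 = v'.1 := hvv
        exact Prod.ext h3 (by omega)
      · rw [Int.card_Icc]
        have h1 := Int.floor_le (((w : ℝ) + G) / 2 + 8 * 2 ^ ib k0 b0 b)
        have h2 := Int.le_ceil (((w : ℝ) + G) / 2 - 8 * 2 ^ ib k0 b0 b)
        have h3 : ⌊((w : ℝ) + G) / 2 + 8 * 2 ^ ib k0 b0 b⌋ -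
            ⌈((w : ℝ) + G) / 2 - 8 * 2 ^ ib k0 b0 b⌉ ≤ ((16 * 2 ^ ib k0 b0 b : ℕ) : ℤ) := by
          have h4 : (((⌊((w : ℝ) + G) / 2 + 8 * 2 ^ ib k0 b0 b⌋ -
            ⌈((w : ℝ) + G) / 2 - 8 * 2 ^ ib k0 b0 b⌉ : ℤ)) : ℝ) ≤
              (((16 * 2 ^ ib k0 b0 b : ℕ) : ℤ) : ℝ) := by
            push_cast
            linarith
          exact_mod_cast h4
        omega)
  refine key.trans ?_
  rw [Int.card_Ico]
  generalize hX : 2 ^ eb b0 b * 2 ^ ib k0 b0 b = X at *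
  generalize hmm : 2 ^ ib k0 b0 b = m at *
  have e1 : (((64 * X * a + 52 * X : ℕ) : ℤ) - ((64 * X * a + 12 * X : ℕ) : ℤ)).toNat = 40 * X := by
    push_cast
    have : (64 * (X : ℤ) * a + 52 * X - (64 * X * a + 12 * X)) = ((40 * X : ℕ) : ℤ) := by
      push_cast; ring
    rw [this]
    exact Int.toNat_natCast _
  rw [e1]
  nlinarith

/-- membership in the ball of `z - v` -/
lemma a2_near {j : ℕ} {x : V} (h : kap j x ≠ 0) : |x.1| + |x.2| < 4 * 2 ^ j := by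
  by_contra hc
  push Not at hc
  exact h (kap_far j hc)

/-- sums over unions of antidiagonals are nonnegative -/
lemma a2_marg (j : ℕ) (P : ℤ → Prop) :
    0 ≤ ∑ x ∈ (ball 0 (4 * 2 ^ j)).filter (fun x => P (x.1 + x.2)), kap j x := by
  have h : ∑ x ∈ (ball 0 (4 * 2 ^ j)).filter (fun x => P (x.1 + x.2)), kap j x =
      ∑ w ∈ Finset.Icc (-(8 * 2 ^ j) : ℤ) (8 * 2 ^ j),
        ∑ x ∈ ((ball 0 (4 * 2 ^ j)).filter (fun x => P (x.1 + x.2))).filter
          (fun x => x.1 + x.2 = w), kap j x := by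
    symm
    apply Finset.sum_fiberwise_of_maps_to
    intro x hx
    have h1 := mem_ball.1 (Finset.mem_filter.1 hx).1
    push_cast at h1
    simp only [Prod.fst_zero, Prod.snd_zero] at h1
    rw [Finset.mem_Icc]
    omega
  rw [h]
  refine Finset.sum_nonneg fun w _ => ?_
  by_cases hw : P w
  · have e : ((ball 0 (4 * 2 ^ j)).filter (fun x : V => P (x.1 + x.2))).filter
        (fun x => x.1 + x.2 = w) = (ball 0 (4 * 2 ^ j)).filter (fun x => x.1 + x.2 = w) := by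
      ext x
      simp only [Finset.mem_filter]
      constructor
      · rintro ⟨⟨h1, -⟩, h3⟩; exact ⟨h1, h3⟩
      · rintro ⟨h1, h3⟩; exact ⟨⟨h1, by rw [h3]; exact hw⟩, h3⟩
    rw [e]
    exact kap_marg j w
  · have e : ((ball 0 (4 * 2 ^ j)).filter (fun x : V => P (x.1 + x.2))).filter
        (fun x => x.1 + x.2 = w) = ∅ := by
      ext x
      simp only [Finset.mem_filter, Finset.notMem_empty, iff_false, not_and]
      rintro ⟨-, h2⟩ h3
      rw [h3] at h2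
      exact hw h2
    rw [e, Finset.sum_empty]

theorem strip_cov {k0 b0 b n u : ℕ} {s : ℕ → Bool} (hb0 : 16 ^ 10 ≤ b0) (hb : b < nlev k0 b0)
    (hn : b < n) (hn' : n ≤ nlev k0 b0) (hu : u < 2 ^ k0) (hs : ∀ b' < b, ¬ viol k0 b0 s u b') :
    (∑ v ∈ strip k0 b0 b (u / 2 ^ kb k0 b) s (if s b then 0 else 1),
        kap (ib k0 b0 b) (zz k0 b0 n s u - v) = 0) ∧
      (0 ≤ ∑ v ∈ strip k0 b0 b (u / 2 ^ kb k0 b) s (if s b then 1 else 0),
        kap (ib k0 b0 b) (zz k0 b0 n s u - v)) ∧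
      (oc k0 b u ∈ ({2, 3, 4, 5} : Finset ℕ) →
        ∑ v ∈ strip k0 b0 b (u / 2 ^ kb k0 b) s (if s b then 1 else 0),
          kap (ib k0 b0 b) (zz k0 b0 n s u - v) = 4 ^ ib k0 b0 b / 4) := by
  obtain ⟨t, ht, ho8, huX, -⟩ := a2_oc hb u
  have hM := a2_two hb
  obtain ⟨hz1, hz2, hz3⟩ := a2_pt (u : ℤ) (gg k0 b0 n s u)
  obtain ⟨ht1, ht2⟩ := a2_tail (u := u) (s := s) hn hn'
  obtain ⟨hg1, hg2⟩ := a2_gg_bd (u := u) (s := s) hn'
  have hzdef : zz k0 b0 n s u = pt u (gg k0 b0 n s u) := rfl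
  rw [hzdef]
  obtain ⟨z, hz⟩ : ∃ z, z = pt (u : ℤ) (gg k0 b0 n s u) := ⟨_, rfl⟩
  rw [← hz] at hz1 hz2 hz3 ⊢
  have hmN : 1 ≤ 2 ^ ib k0 b0 b := Nat.one_le_two_pow
  have hEN : 1 ≤ 2 ^ eb b0 b := Nat.one_le_two_pow
  have hmX : 2 ^ ib k0 b0 b ≤ 2 ^ eb b0 b * 2 ^ ib k0 b0 b := Nat.le_mul_of_pos_left _ hEN
  have hmR : (1 : ℝ) ≤ 2 ^ ib k0 b0 b := one_le_pow₀ (by norm_num)
  -- consequences of nearness
  have near : ∀ v : V, kap (ib k0 b0 b) (z - v) ≠ 0 →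
      |(u : ℤ) - (v.1 + v.2)| < 4 * 2 ^ ib k0 b0 b ∧
      |((u : ℤ) : ℝ) - ((v.1 + v.2 : ℤ) : ℝ)| < 4 * 2 ^ ib k0 b0 b ∧
      |(z.1 - z.2) - (v.1 - v.2)| < 4 * 2 ^ ib k0 b0 b ∧
      |(((z.1 - z.2 : ℤ)) : ℝ) - ((v.1 - v.2 : ℤ) : ℝ)| < 4 * 2 ^ ib k0 b0 b := by
    intro v hv
    have h1 := a2_near hv
    have h2 : |(z - v).1 + (z - v).2| ≤ |(z - v).1| + |(z - v).2| := abs_add_le _ _
    have h3 : |(z - v).1 - (z - v).2| ≤ |(z - v).1| + |(z - v).2| := abs_sub _ _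
    have e2 : (z - v).1 + (z - v).2 = (u : ℤ) - (v.1 + v.2) := by
      rw [← hz1]; simp only [Prod.fst_sub, Prod.snd_sub]; ring
    have e3 : (z - v).1 - (z - v).2 = (z.1 - z.2) - (v.1 - v.2) := by
      simp only [Prod.fst_sub, Prod.snd_sub]; ring
    rw [e2] at h2
    rw [e3] at h3
    refine ⟨by omega, ?_, by omega, ?_⟩
    · have h4 : |(u : ℤ) - (v.1 + v.2)| < 4 * 2 ^ ib k0 b0 b := by omega
      have h5 : ((|(u : ℤ) - (v.1 + v.2)| : ℤ) : ℝ) < ((4 * 2 ^ ib k0 b0 b : ℤ) : ℝ) := by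
        exact_mod_cast h4
      push_cast at h5 ⊢
      exact h5
    · have h4 : |(z.1 - z.2) - (v.1 - v.2)| < 4 * 2 ^ ib k0 b0 b := by omega
      have h5 : ((|(z.1 - z.2) - (v.1 - v.2)| : ℤ) : ℝ) < ((4 * 2 ^ ib k0 b0 b : ℤ) : ℝ) := by
        exact_mod_cast h4
      push_cast at h5 ⊢
      exact h5
  -- lower levels
  have lip : ∀ u' : ℕ, 64 * (2 ^ eb b0 b * 2 ^ ib k0 b0 b) * (u / 2 ^ kb k0 b) ≤ u' →
      u' < 64 * (2 ^ eb b0 b * 2 ^ ib k0 b0 b) * (u / 2 ^ kb k0 b) +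
        64 * (2 ^ eb b0 b * 2 ^ ib k0 b0 b) →
      |gg k0 b0 b s u' - gg k0 b0 b s u| ≤ |(u' : ℝ) - u| / 4 := by
    intro u' h1 h2
    apply a2_lip hb0 hb hs
    symm
    rw [← hM] at h1 h2
    rw [Nat.div_eq_iff (by positivity)]
    constructor
    · rw [mul_comm]; exact h1
    · rw [mul_comm]; omega
  -- far octants
  have far : (oc k0 b u = 0 ∨ oc k0 b u = 7) → ∀ c,
      ∀ v ∈ strip k0 b0 b (u / 2 ^ kb k0 b) s c, kap (ib k0 b0 b) (z - v) = 0 := by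
    intro ho c v hv
    by_contra hne
    obtain ⟨h1, -⟩ := near v hne
    obtain ⟨-, u', h3, h4, h5, -⟩ := (a2_strip hb).1 hv
    rw [h5, abs_lt] at h1
    have hmX' : ((2 : ℤ) ^ ib k0 b0 b) ≤ ((2 ^ eb b0 b * 2 ^ ib k0 b0 b : ℕ) : ℤ) := by
      exact_mod_cast hmX
    have hm' : (1 : ℤ) ≤ 2 ^ ib k0 b0 b := by exact_mod_cast hmN
    rcases ho with ho | ho
    · rw [ho] at huX
      generalize 2 ^ eb b0 b * 2 ^ ib k0 b0 b = X at *
      generalize 64 * X * (u / 2 ^ kb k0 b) = Y at *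
      generalize (2 : ℤ) ^ ib k0 b0 b = m at *
      omega
    · rw [ho] at huX
      generalize 2 ^ eb b0 b * 2 ^ ib k0 b0 b = X at *
      generalize 64 * X * (u / 2 ^ kb k0 b) = Y at *
      generalize (2 : ℤ) ^ ib k0 b0 b = m at *
      omega
  have hoc : (oc k0 b u = 0 ∨ oc k0 b u = 7) ∨ (1 ≤ oc k0 b u ∧ oc k0 b u ≤ 6) := by omega
  -- comparison of the positions in the middle octants
  have cmpg : ∀ u' : ℕ, 64 * (2 ^ eb b0 b * 2 ^ ib k0 b0 b) * (u / 2 ^ kb k0 b) ≤ u' →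
      u' < 64 * (2 ^ eb b0 b * 2 ^ ib k0 b0 b) * (u / 2 ^ kb k0 b) +
        64 * (2 ^ eb b0 b * 2 ^ ib k0 b0 b) → |((u : ℤ) : ℝ) - u'| < 4 * 2 ^ ib k0 b0 b →
      |gg k0 b0 b s u' - gg k0 b0 b s u| ≤ 2 ^ ib k0 b0 b := by
    intro u' h1 h2 h3
    refine (lip u' h1 h2).trans ?_
    push_cast at h3
    rw [abs_sub_comm] at h3
    linarith
  refine ⟨?_, ?_⟩
  · refine Finset.sum_eq_zero fun v hv => ?_
    rcases hoc with ho | ⟨ho1, ho6⟩
    · exact far ho _ v hv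
    · by_contra hne
      obtain ⟨-, h1, -, h2⟩ := near v hne
      obtain ⟨-, u', h3, h4, h5, h6⟩ := (a2_strip hb).1 hv
      rw [h5] at h1
      have h7 := cmpg u' (by omega) (by omega) (by simpa using h1)
      have h8 := a2_hb_eq hb ho1 ho6
      rw [abs_le] at h7 h6
      rw [abs_lt] at h2
      rw [h8] at ht1 ht2
      generalize (((z.1 - z.2 : ℤ)) : ℝ) = Z at *
      generalize (((v.1 - v.2 : ℤ)) : ℝ) = W at *
      cases hsb : s b with
      | true =>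
        rw [hsb] at h6 ht1 ht2
        simp only [if_true] at h6 ht1 ht2
        push_cast at h6
        linarith [h6.1, h6.2, h7.1, h7.2, h2.1, h2.2]
      | false =>
        rw [hsb] at h6 ht1 ht2
        simp only [Bool.false_eq_true, if_false] at h6 ht1 ht2
        push_cast at h6
        linarith [h6.1, h6.2, h7.1, h7.2, h2.1, h2.2]
  · have eqsum : 1 ≤ oc k0 b u → oc k0 b u ≤ 6 →
        ∑ v ∈ strip k0 b0 b (u / 2 ^ kb k0 b) s (if s b then 1 else 0),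
          kap (ib k0 b0 b) (z - v) =
        ∑ x ∈ (ball 0 (4 * 2 ^ ib k0 b0 b)).filter (fun x =>
          ((64 * (2 ^ eb b0 b * 2 ^ ib k0 b0 b) * (u / 2 ^ kb k0 b) +
            12 * (2 ^ eb b0 b * 2 ^ ib k0 b0 b) : ℕ) : ℤ) ≤ (u : ℤ) - (x.1 + x.2) ∧
          (u : ℤ) - (x.1 + x.2) < ((64 * (2 ^ eb b0 b * 2 ^ ib k0 b0 b) * (u / 2 ^ kb k0 b) +
            52 * (2 ^ eb b0 b * 2 ^ ib k0 b0 b) : ℕ) : ℤ)), kap (ib k0 b0 b) x := by
      intro ho1 ho6
      have h8 := a2_hb_eq hb ho1 ho6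
      rw [h8] at ht1 ht2
      refine Finset.sum_bij_ne_zero (fun v _ _ => z - v) ?_ ?_ ?_ ?_
      · intro v hv hne
        obtain ⟨-, u', h3, h4, h5, -⟩ := (a2_strip hb).1 hv
        have h1 := a2_near hne
        rw [Finset.mem_filter]
        constructor
        · rw [mem_ball]
          have h9 := le_abs_self (z - v).1
          have h10 := neg_abs_le (z - v).1
          have h11 := le_abs_self (z - v).2
          have h12 := neg_abs_le (z - v).2
          have h13 := abs_nonneg (z - v).1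
          have h14 := abs_nonneg (z - v).2
          push_cast
          simp only [Prod.fst_zero, Prod.snd_zero]
          omega
        · have e : (u : ℤ) - ((z - v).1 + (z - v).2) = u' := by
            rw [← h5, ← hz1]; simp only [Prod.fst_sub, Prod.snd_sub]; ring
          rw [e]
          exact ⟨by exact_mod_cast h3, by exact_mod_cast h4⟩
      · intro v _ _ w _ _ h
        exact sub_right_injective h
      · intro x hx hne
        rw [Finset.mem_filter] at hx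
        obtain ⟨-, hx1, hx2⟩ := hx
        have hne' : kap (ib k0 b0 b) (z - (z - x)) ≠ 0 := by rwa [sub_sub_cancel]
        refine ⟨z - x, ?_, hne', sub_sub_cancel _ _⟩
        obtain ⟨h1, h1', h2, h2'⟩ := near _ hne'
        rw [a2_strip hb]
        have esum : (z - x).1 + (z - x).2 = (u : ℤ) - (x.1 + x.2) := by
          rw [← hz1]; simp only [Prod.fst_sub, Prod.snd_sub]; ring
        obtain ⟨u', hu'⟩ : ∃ u' : ℕ, (u : ℤ) - (x.1 + x.2) = u' := by
          refine ⟨((u : ℤ) - (x.1 + x.2)).toNat, ?_⟩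
          rw [Int.toNat_of_nonneg]
          exact le_trans (by positivity) hx1
        rw [hu'] at hx1 hx2 esum
        have hx1' := Int.ofNat_le.1 hx1
        have hx2' := Int.ofNat_lt.1 hx2
        rw [esum] at h1 h1'
        have h7 := cmpg u' (by omega) (by omega) (by simpa using h1')
        constructor
        · -- ball
          have hk6 : ib k0 b0 b + 6 ≤ k0 := by
            have := a2_ib hb
            unfold ib at this ⊢
            omega
          have hk : 64 * 2 ^ ib k0 b0 b ≤ 2 ^ k0 := by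
            calc 64 * 2 ^ ib k0 b0 b = 2 ^ (ib k0 b0 b + 6) := by rw [pow_add]; ring
              _ ≤ 2 ^ k0 := Nat.pow_le_pow_right (by norm_num) hk6
          have hk' : 64 * (2 : ℤ) ^ ib k0 b0 b ≤ 2 ^ k0 := by exact_mod_cast hk
          have hZ1 : -2 ≤ z.1 - z.2 := by
            have : (-2 : ℝ) < ((z.1 - z.2 : ℤ) : ℝ) := by linarith
            have h' : (-2 : ℤ) < z.1 - z.2 := by exact_mod_cast this
            omega
          have hZ2 : z.1 - z.2 ≤ 2 * 2 ^ k0 := by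
            have : ((z.1 - z.2 : ℤ) : ℝ) ≤ ((2 * 2 ^ k0 : ℤ) : ℝ) := by push_cast at hz3 ⊢; linarith
            exact_mod_cast this
          have hu2 : (u : ℤ) < 2 ^ k0 := by exact_mod_cast hu
          have h4k : (2 : ℤ) ^ (k0 + 2) = 4 * 2 ^ k0 := by rw [pow_add]; ring
          have hm1 : (1 : ℤ) ≤ 2 ^ ib k0 b0 b := by exact_mod_cast hmN
          rw [mem_ball]
          push_cast
          simp only [Prod.fst_zero, Prod.snd_zero]
          rw [h4k]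
          rw [abs_lt] at h1 h2
          obtain ⟨v, hv⟩ : ∃ v, v = z - x := ⟨_, rfl⟩
          rw [← hv] at esum h2 ⊢
          generalize (2 : ℤ) ^ k0 = K at *
          generalize (2 : ℤ) ^ ib k0 b0 b = m at *
          omega
        · refine ⟨u', hx1', hx2', esum, ?_⟩
          rw [abs_le] at h7 ⊢
          rw [abs_lt] at h2'
          generalize (((z.1 - z.2 : ℤ)) : ℝ) = Z at *
          generalize ((((z - x).1 - (z - x).2 : ℤ)) : ℝ) = W at *
          cases hsb : s b with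
          | true =>
            rw [hsb] at ht1 ht2
            simp only [if_true] at ht1 ht2 ⊢
            push_cast
            constructor <;> linarith [h7.1, h7.2, h2'.1, h2'.2]
          | false =>
            rw [hsb] at ht1 ht2
            simp only [Bool.false_eq_true, if_false] at ht1 ht2 ⊢
            push_cast
            constructor <;> linarith [h7.1, h7.2, h2'.1, h2'.2]
      · intro v _ _
        rfl
    constructor
    · rcases hoc with ho | ⟨ho1, ho6⟩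
      · exact (Finset.sum_eq_zero fun v hv => far ho _ v hv).ge
      · rw [eqsum ho1 ho6]
        convert a2_marg (ib k0 b0 b) (fun w =>
          ((64 * (2 ^ eb b0 b * 2 ^ ib k0 b0 b) * (u / 2 ^ kb k0 b) +
            12 * (2 ^ eb b0 b * 2 ^ ib k0 b0 b) : ℕ) : ℤ) ≤ (u : ℤ) - w ∧
          (u : ℤ) - w < ((64 * (2 ^ eb b0 b * 2 ^ ib k0 b0 b) * (u / 2 ^ kb k0 b) +
            52 * (2 ^ eb b0 b * 2 ^ ib k0 b0 b) : ℕ) : ℤ))
    · intro ho
      simp only [Finset.mem_insert, Finset.mem_singleton] at ho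
      rw [eqsum (by omega) (by omega), ← kap_sum]
      refine Finset.sum_filter_of_ne fun x _ hne => ?_
      have h1 := a2_near hne
      have h2 : |x.1 + x.2| ≤ |x.1| + |x.2| := abs_add_le _ _
      have h3 : |x.1 + x.2| < 4 * 2 ^ ib k0 b0 b := lt_of_le_of_lt h2 h1
      rw [abs_lt] at h3
      have hmX' : ((2 : ℤ) ^ ib k0 b0 b) ≤ ((2 ^ eb b0 b * 2 ^ ib k0 b0 b : ℕ) : ℤ) := by
        exact_mod_cast hmX
      have hm' : (1 : ℤ) ≤ 2 ^ ib k0 b0 b := by exact_mod_cast hmN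
      generalize 2 ^ eb b0 b * 2 ^ ib k0 b0 b = X at *
      have e1 : 8 * X * 2 ≤ 8 * X * oc k0 b u := Nat.mul_le_mul_left _ (by omega)
      have e2 : 8 * X * oc k0 b u ≤ 8 * X * 5 := Nat.mul_le_mul_left _ (by omega)
      generalize 64 * X * (u / 2 ^ kb k0 b) = Y at *
      generalize 8 * X * oc k0 b u = Q at *
      generalize (2 : ℤ) ^ ib k0 b0 b = m at *
      omega

end Pool.H92.GFL
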