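import Pool.Agent.helper92.GFL.A1

namespace Pool.H92.GFL

open Function Finset MeasureTheory ProbabilityTheory Pool.H92.GFF
open scoped Classical ENNReal

lemma a3_inner (M : ℕ) (hM : 0 < M) (K : ℕ) (H : ℕ → ℝ) :
    ∑ s ∈ Finset.range (K * M), H (s / M) = M * ∑ o ∈ Finset.range K, H o := by
  induction K with
  | zero => simp
  | succ K ih =>
    rw [Nat.succ_mul, Finset.sum_range_add, ih, Finset.sum_range_succ, mul_add]
    congr 1
    have : ∀ x ∈ Finset.range M, H ((K * M + x) / M) = H K := by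
      intro x hx
      have hx' := Finset.mem_range.1 hx
      rw [Nat.add_comm, Nat.add_mul_div_right _ _ hM, Nat.div_eq_of_lt hx', zero_add]
    rw [Finset.sum_congr rfl this, Finset.sum_const, Finset.card_range, nsmul_eq_mul]

lemma a3_step (j N : ℕ) (G H : ℕ → ℝ) :
    ∑ u ∈ Finset.range (N * 2 ^ (j + 3)), G (u / 2 ^ (j + 3)) * H ((u / 2 ^ j) % 8) =
      (∑ u ∈ Finset.range (N * 2 ^ (j + 3)), G (u / 2 ^ (j + 3))) *
        ((∑ o ∈ Finset.range 8, H o) / 8) := by
  have hM : 0 < 2 ^ (j + 3) := by positivity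
  have h8 : 2 ^ (j + 3) = 8 * 2 ^ j := by rw [pow_add]; ring
  induction N with
  | zero => simp
  | succ N ih =>
    rw [Nat.succ_mul, Finset.sum_range_add, Finset.sum_range_add, ih, add_mul]
    congr 1
    have h1 : ∀ x ∈ Finset.range (2 ^ (j + 3)),
        G ((N * 2 ^ (j + 3) + x) / 2 ^ (j + 3)) * H (((N * 2 ^ (j + 3) + x) / 2 ^ j) % 8) =
          G N * H (x / 2 ^ j) := by
      intro x hx
      have hx' := Finset.mem_range.1 hx
      have e1 : (N * 2 ^ (j + 3) + x) / 2 ^ (j + 3) = N := by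
        rw [Nat.add_comm, Nat.add_mul_div_right _ _ hM, Nat.div_eq_of_lt hx', zero_add]
      have e2 : (N * 2 ^ (j + 3) + x) / 2 ^ j = N * 8 + x / 2 ^ j := by
        rw [h8, ← mul_assoc, Nat.add_comm, Nat.add_mul_div_right _ _ (by positivity : 0 < 2 ^ j)]
        omega
      have e3 : x / 2 ^ j < 8 := by
        rw [Nat.div_lt_iff_lt_mul (by positivity)]
        omega
      have e4 : (N * 8 + x / 2 ^ j) % 8 = x / 2 ^ j := by
        rw [Nat.add_comm, Nat.add_mul_mod_self_right, Nat.mod_eq_of_lt e3]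
      rw [e1, e2, e4]
    have h2 : ∀ x ∈ Finset.range (2 ^ (j + 3)), G ((N * 2 ^ (j + 3) + x) / 2 ^ (j + 3)) = G N := by
      intro x hx
      have hx' := Finset.mem_range.1 hx
      rw [Nat.add_comm, Nat.add_mul_div_right _ _ hM, Nat.div_eq_of_lt hx', zero_add]
    rw [Finset.sum_congr rfl h1, Finset.sum_congr rfl h2, ← Finset.mul_sum, Finset.sum_const,
      Finset.card_range, nsmul_eq_mul]
    have h3 := a3_inner (2 ^ j) (by positivity) 8 H
    rw [← h8] at h3
    rw [h3]
    push_cast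
    rw [pow_add]
    ring

theorem avg_prod (k0 n : ℕ) (hn : ∀ b < n, 8 * b + 3 ≤ k0) (F : ℕ → ℕ → ℝ) :
    ∑ u ∈ Finset.range (2 ^ k0), ∏ b ∈ Finset.range n, F b (oc k0 b u) =
      2 ^ k0 * ∏ b ∈ Finset.range n, ((∑ o ∈ Finset.range 8, F b o) / 8) := by
  induction n with
  | zero => simp
  | succ n ih =>
    have hn' := hn n (Nat.lt_succ_self n)
    obtain ⟨j, hj⟩ : ∃ j, k0 = 8 * n + 3 + j := ⟨k0 - (8 * n + 3), by omega⟩
    have ih' := ih (fun b hb => hn b (by omega))
    -- the product over the coarse levels depends on u / 2^(j+3)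
    have key : ∀ u : ℕ, ∏ b ∈ Finset.range n, F b (oc k0 b u) =
        (fun q => ∏ b ∈ Finset.range n, F b ((q / 2 ^ (kb k0 b - 3 - (j + 3))) % 8))
          (u / 2 ^ (j + 3)) := by
      intro u
      apply Finset.prod_congr rfl
      intro b hb
      have hb' := Finset.mem_range.1 hb
      have e : kb k0 b - 3 = (j + 3) + (kb k0 b - 3 - (j + 3)) := by
        unfold kb; omega
      congr 1
      unfold oc
      rw [Nat.div_div_eq_div_mul, ← pow_add, ← e]
    have key2 : ∀ u : ℕ, F n (oc k0 n u) = F n ((u / 2 ^ j) % 8) := by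
      intro u
      have e : kb k0 n - 3 = j := by unfold kb; omega
      unfold oc
      rw [e]
    have hpow : 2 ^ k0 = 2 ^ (8 * n) * 2 ^ (j + 3) := by
      rw [← pow_add, hj]; congr 1; omega
    have := a3_step j (2 ^ (8 * n))
      (fun q => ∏ b ∈ Finset.range n, F b ((q / 2 ^ (kb k0 b - 3 - (j + 3))) % 8)) (F n)
    rw [← hpow] at this
    simp only [Finset.prod_range_succ]
    simp only [key2]
    simp only [key] at ih' ⊢
    rw [this, ih', mul_assoc]

lemma a3_cosh (t : ℝ) : (6 + Real.exp t + Real.exp (-t)) / 8 ≤ Real.exp (t ^ 2 / 2) := by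
  have h1 := Real.cosh_le_exp_half_sq t
  rw [Real.cosh_eq] at h1
  have h2 : 1 ≤ Real.exp (t ^ 2 / 2) := Real.one_le_exp (by positivity)
  linarith

lemma a3_exp {k0 b0 b : ℕ} (hb : b < nlev k0 b0) (s : ℕ → Bool) (t : ℝ) :
    ∑ u ∈ Finset.range (2 ^ k0), Real.exp (t * ((∑ b' ∈ (Finset.range (b + 1)).filter
      (fun b' => lb b0 b' = lb b0 b), if s b' then cc k0 b' u else 0 : ℤ) : ℝ)) ≤
      2 ^ k0 * Real.exp (16 * 16 ^ lb b0 b * (t ^ 2 / 2)) := by
  have hk := lt_nlev.1 hb
  set F : ℕ → ℕ → ℝ := fun b' o => if lb b0 b' = lb b0 b ∧ s b' = true then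
    Real.exp (t * ((if o = 0 then 1 else if o = 7 then -1 else 0 : ℤ) : ℝ)) else 1 with hF
  have h1 : ∀ u ∈ Finset.range (2 ^ k0), Real.exp (t * ((∑ b' ∈ (Finset.range (b + 1)).filter
      (fun b' => lb b0 b' = lb b0 b), if s b' then cc k0 b' u else 0 : ℤ) : ℝ)) =
      ∏ b' ∈ Finset.range (b + 1), F b' (oc k0 b' u) := by
    intro u _
    rw [Int.cast_sum, Finset.mul_sum, Real.exp_sum, Finset.prod_filter]
    apply Finset.prod_congr rfl
    intro b' _
    simp only [hF]
    by_cases h : lb b0 b' = lb b0 b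
    · by_cases h' : s b' = true
      · simp only [h, h', if_true, and_self]
        rfl
      · simp [h, h']
    · simp [h]
  rw [Finset.sum_congr rfl h1, avg_prod k0 (b + 1) (fun b' hb' => by omega)]
  apply mul_le_mul_of_nonneg_left _ (by positivity)
  have h2 : ∀ b' ∈ Finset.range (b + 1), (∑ o ∈ Finset.range 8, F b' o) / 8 ≤
      if lb b0 b' = lb b0 b then Real.exp (t ^ 2 / 2) else 1 := by
    intro b' _
    simp only [hF]
    by_cases h : lb b0 b' = lb b0 b
    · by_cases h' : s b' = true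
      · simp only [h, h', if_true, and_self]
        have := a3_cosh t
        simp only [Finset.sum_range_succ, Finset.sum_range_zero]
        norm_num
        linarith
      · simp only [h, h', if_true]
        have h2 : 1 ≤ Real.exp (t ^ 2 / 2) := Real.one_le_exp (by positivity)
        norm_num
        positivity
    · simp only [h, false_and, if_false]
      norm_num
  have h3 : ∀ b' ∈ Finset.range (b + 1), 0 ≤ (∑ o ∈ Finset.range 8, F b' o) / 8 := by
    intro b' _
    apply div_nonneg _ (by norm_num)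
    apply Finset.sum_nonneg
    intro o _
    simp only [hF]
    split_ifs <;> positivity
  refine (Finset.prod_le_prod h3 h2).trans ?_
  rw [Finset.prod_ite, Finset.prod_const_one, mul_one, Finset.prod_const, ← Real.exp_nat_mul]
  apply Real.exp_le_exp.2
  apply mul_le_mul_of_nonneg_right _ (by positivity)
  -- card bound
  have hcard : ((Finset.range (b + 1)).filter (fun b' => lb b0 b' = lb b0 b)).card ≤
      16 * 16 ^ lb b0 b := by
    have hinj : Set.InjOn (fun b' : ℕ => b' + b0)
        ((Finset.range (b + 1)).filter (fun b' => lb b0 b' = lb b0 b) : Set ℕ) := by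
      intro x _ y _ hxy
      simpa using hxy
    rw [← Finset.card_image_of_injOn hinj]
    have hsub : ((Finset.range (b + 1)).filter (fun b' => lb b0 b' = lb b0 b)).image
          (fun b' : ℕ => b' + b0) ⊆ Finset.range (16 ^ (lb b0 b + 1)) := by
      intro x hx
      obtain ⟨y, hy, rfl⟩ := Finset.mem_image.1 hx
      have hy2 := (Finset.mem_filter.1 hy).2
      rw [Finset.mem_range, ← hy2]
      unfold lb
      exact Nat.lt_pow_succ_log_self (by norm_num) _
    have := Finset.card_le_card hsub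
    rw [Finset.card_range, pow_succ] at this
    omega
  exact_mod_cast hcard

theorem viol_count {k0 b0 b : ℕ} (hb : b < nlev k0 b0) (s : ℕ → Bool) :
    (((Finset.range (2 ^ k0)).filter (fun u => viol k0 b0 s u b)).card : ℝ) ≤
      2 ^ k0 * (2 * Real.exp (-((25 / 16 : ℝ) ^ lb b0 b / 32))) := by
  set i := lb b0 b with hi
  set n : ℝ := 16 * 16 ^ i with hn
  have hn0 : 0 < n := by positivity
  set t : ℝ := 5 ^ i / n with ht
  have ht0 : 0 < t := by positivity
  set S : ℕ → ℤ := fun u => ∑ b' ∈ (Finset.range (b + 1)).filter (fun b' => lb b0 b' = lb b0 b),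
    if s b' then cc k0 b' u else 0 with hS
  have e1 := a3_exp hb s t
  have e2 := a3_exp hb s (-t)
  have h1 : (((Finset.range (2 ^ k0)).filter (fun u => viol k0 b0 s u b)).card : ℝ) *
      Real.exp (t * 5 ^ i) ≤ ∑ u ∈ Finset.range (2 ^ k0), (Real.exp (t * (S u : ℝ)) +
        Real.exp (-t * (S u : ℝ))) := by
    rw [← nsmul_eq_mul, ← Finset.sum_const]
    refine le_trans (Finset.sum_le_sum ?_) (Finset.sum_le_sum_of_subset_of_nonneg
      (Finset.filter_subset _ _) (fun u _ _ => by positivity))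
    intro u hu
    have hv := (Finset.mem_filter.1 hu).2
    have hv' : ((5 : ℤ) ^ i) < |S u| := hv
    have hv2 : (5 : ℝ) ^ i ≤ |(S u : ℝ)| := by exact_mod_cast hv'.le
    rcases abs_cases (S u : ℝ) with ⟨h, _⟩ | ⟨h, _⟩
    · rw [h] at hv2
      have : Real.exp (t * 5 ^ i) ≤ Real.exp (t * (S u : ℝ)) := by
        apply Real.exp_le_exp.2; gcongr
      have h0 : 0 ≤ Real.exp (-t * (S u : ℝ)) := (Real.exp_pos _).le
      linarith
    · rw [h] at hv2
      have : Real.exp (t * 5 ^ i) ≤ Real.exp (-t * (S u : ℝ)) := by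
        apply Real.exp_le_exp.2
        rw [neg_mul, ← mul_neg]; gcongr
      have h0 : 0 ≤ Real.exp (t * (S u : ℝ)) := (Real.exp_pos _).le
      linarith
  rw [Finset.sum_add_distrib] at h1
  have e1' : ∑ u ∈ Finset.range (2 ^ k0), Real.exp (t * (S u : ℝ)) ≤
      2 ^ k0 * Real.exp (n * (t ^ 2 / 2)) := e1
  have e2' : ∑ u ∈ Finset.range (2 ^ k0), Real.exp (-t * (S u : ℝ)) ≤
      2 ^ k0 * Real.exp (n * (t ^ 2 / 2)) := by
    have := e2
    rw [neg_sq] at this
    exact this
  have h2 : (((Finset.range (2 ^ k0)).filter (fun u => viol k0 b0 s u b)).card : ℝ) *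
      Real.exp (t * 5 ^ i) ≤ 2 ^ k0 * (2 * Real.exp (n * (t ^ 2 / 2))) := by linarith
  have h3 : (((Finset.range (2 ^ k0)).filter (fun u => viol k0 b0 s u b)).card : ℝ) ≤
      2 ^ k0 * (2 * Real.exp (n * (t ^ 2 / 2))) * Real.exp (-(t * 5 ^ i)) := by
    rw [Real.exp_neg, ← div_eq_mul_inv, le_div_iff₀ (Real.exp_pos _)]
    exact h2
  refine h3.trans ?_
  rw [mul_assoc, mul_assoc, ← Real.exp_add]
  apply mul_le_mul_of_nonneg_left _ (by positivity)
  apply mul_le_mul_of_nonneg_left _ (by norm_num)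
  apply Real.exp_le_exp.2
  have h4 : n * (t ^ 2 / 2) + -(t * 5 ^ i) = -((25 / 16 : ℝ) ^ i / 32) := by
    have h5 : (25 / 16 : ℝ) ^ i = 5 ^ i * 5 ^ i / 16 ^ i := by
      rw [← mul_pow, ← div_pow]; norm_num
    rw [ht, hn, h5]
    have h6 : (16 : ℝ) ^ i ≠ 0 := by positivity
    field_simp
    ring
  rw [h4]

end Pool.H92.GFL
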