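import Pool.Agent.helper92.GFL.A4s
import Pool.Agent.helper92.GFL.A3

namespace Pool.H92.GFL

open Function Finset MeasureTheory ProbabilityTheory Pool.H92.GFF
open scoped Classical ENNReal

/-! ### scales -/

lemma a4a_eb_mono {b0 b b' : ℕ} (h : b ≤ b') : eb b0 b ≤ eb b0 b' := by
  unfold eb lb
  have := Nat.log_mono_right (b := 16) (show b + b0 ≤ b' + b0 by omega)
  omega

lemma a4a_ib_inj {k0 b0 b b' : ℕ} (hb : b < nlev k0 b0) (hb' : b' < nlev k0 b0)
    (h : ib k0 b0 b = ib k0 b0 b') : b = b' := by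
  have h1 := lt_nlev.1 hb
  have h2 := lt_nlev.1 hb'
  unfold ib at h
  rcases le_total b b' with h3 | h3
  · have := a4a_eb_mono (b0 := b0) h3
    omega
  · have := a4a_eb_mono (b0 := b0) h3
    omega

lemma a4a_ib_anti {k0 b0 b b' : ℕ} (h : b ≤ b') : ib k0 b0 b' ≤ ib k0 b0 b := by
  have := a4a_eb_mono (b0 := b0) h
  unfold ib
  omega

lemma a4a_ib_lt {k0 b0 b : ℕ} (hb : b < nlev k0 b0) : ib k0 b0 b < k0 := by
  have h1 := lt_nlev.1 hb
  unfold ib
  omega

lemma a4a_jb_le {k0 b0 b b' : ℕ} (hb' : b' < nd k0 b0 b) : jb k0 b0 b ≤ ib k0 b0 b' := by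
  unfold nd at hb'
  unfold jb
  split_ifs with h
  · exact a4a_ib_anti (by omega)
  · exact Nat.zero_le _

lemma a4a_jb_le_k0 {k0 b0 b : ℕ} : jb k0 b0 b ≤ k0 := by
  unfold jb
  split_ifs with h
  · exact (a4a_ib_lt h).le
  · exact Nat.zero_le _

lemma a4a_jb_kb {k0 b0 b b' : ℕ} (hb' : b' < nd k0 b0 b) : jb k0 b0 b ≤ kb k0 b' - 3 := by
  refine (a4a_jb_le hb').trans ?_
  have h1 : b' < nlev k0 b0 := lt_of_lt_of_le hb' (by unfold nd; omega)
  have h2 := lt_nlev.1 h1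
  unfold ib kb
  omega

lemma a4a_rdn_div {j e u : ℕ} (h : j ≤ e) : rdn j u / 2 ^ e = u / 2 ^ e := by
  obtain ⟨r, rfl⟩ := Nat.exists_eq_add_of_le h
  unfold rdn
  rw [pow_add, ← Nat.div_div_eq_div_mul, ← Nat.div_div_eq_div_mul,
    Nat.mul_div_cancel_left _ (by positivity)]

lemma a4a_rdn_le (j u : ℕ) : rdn j u ≤ u := Nat.mul_div_le u (2 ^ j)

lemma a4a_viol_congr {k0 b0 : ℕ} {s : ℕ → Bool} {u v b : ℕ}
    (h : ∀ b' < b + 1, u / 2 ^ (kb k0 b' - 3) = v / 2 ^ (kb k0 b' - 3)) :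
    viol k0 b0 s u b ↔ viol k0 b0 s v b := by
  have : ∀ b' ∈ (Finset.range (b + 1)).filter (fun b' => lb b0 b' = lb b0 b),
      (if s b' then cc k0 b' u else 0) = (if s b' then cc k0 b' v else 0) := by
    intro b' hb'
    have h1 := Finset.mem_range.1 (Finset.mem_filter.1 hb').1
    have : cc k0 b' u = cc k0 b' v := by
      unfold cc oc
      rw [h b' h1]
    rw [this]
  unfold viol
  rw [Finset.sum_congr rfl this]

lemma a4a_gd3_congr (X : ℕ → V → ℝ) {k0 b0 b u : ℕ} :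
    (∀ b' < b, Gd3 X k0 b0 b' u) ↔ ∀ b' < b, Gd3 X k0 b0 b' (rdn (jb k0 b0 b) u) := by
  have key : ∀ b' < b, (Gd3 X k0 b0 b' u ↔ Gd3 X k0 b0 b' (rdn (jb k0 b0 b) u)) := by
    intro b' hb'
    unfold Gd3
    by_cases hn : b' < nlev k0 b0
    · have hnd : ∀ c, c < b' + 1 → c < nd k0 b0 b := by
        intro c hc
        unfold nd
        omega
      have e1 : sg X k0 b0 u (b' + 1) = sg X k0 b0 (rdn (jb k0 b0 b) u) (b' + 1) := by
        apply sg_cell
        · intro c hc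
          rw [a4a_rdn_div]
          exact (a4a_jb_kb (hnd c hc)).trans (Nat.sub_le _ _)
        · intro c hc
          rw [a4a_rdn_div]
          exact a4a_jb_kb (hnd c (by omega))
      rw [e1, a4a_viol_congr (v := rdn (jb k0 b0 b) u)]
      intro c hc
      rw [a4a_rdn_div]
      exact a4a_jb_kb (hnd c hc)
    · simp [hn]
  constructor
  · intro h b' hb'
    exact (key b' hb').1 (h b' hb')
  · intro h b' hb'
    exact (key b' hb').2 (h b' hb')

/-! ### points -/

lemma a4a_hb_nonneg (k0 b0 b u : ℕ) : 0 ≤ hb k0 b0 b u := by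
  unfold hb; positivity

lemma a4a_hb_le (k0 b0 b u : ℕ) : hb k0 b0 b u ≤ 2 ^ kb k0 b := by
  unfold hb
  have h1 : (min (min (u % 2 ^ kb k0 b) (2 ^ kb k0 b / 8)) (2 ^ kb k0 b - u % 2 ^ kb k0 b) : ℕ) ≤
      2 ^ kb k0 b / 8 := (min_le_left _ _).trans (min_le_right _ _)
  have h2 : ((min (min (u % 2 ^ kb k0 b) (2 ^ kb k0 b / 8)) (2 ^ kb k0 b - u % 2 ^ kb k0 b) : ℕ) :
      ℝ) ≤ 2 ^ kb k0 b / 8 := by
    have h3 : ((2 ^ kb k0 b / 8 : ℕ) : ℝ) ≤ ((2 ^ kb k0 b : ℕ) : ℝ) / ((8 : ℕ) : ℝ) :=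
      Nat.cast_div_le
    have h4 : ((min (min (u % 2 ^ kb k0 b) (2 ^ kb k0 b / 8))
        (2 ^ kb k0 b - u % 2 ^ kb k0 b) : ℕ) : ℝ) ≤ ((2 ^ kb k0 b / 8 : ℕ) : ℝ) := by
      exact_mod_cast h1
    refine h4.trans (h3.trans (le_of_eq ?_))
    push_cast
    ring
  have h5 : (8 : ℝ) / 2 ^ eb b0 b ≤ 8 := by
    apply div_le_self (by norm_num)
    exact one_le_pow₀ (by norm_num)
  calc (8 : ℝ) / 2 ^ eb b0 b * _ ≤ 8 * (2 ^ kb k0 b / 8) := by
        apply mul_le_mul h5 h2 (by positivity) (by norm_num)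
    _ = 2 ^ kb k0 b := by ring

lemma a4a_gg_bound {k0 b0 n : ℕ} (hn : n ≤ nlev k0 b0) (s : ℕ → Bool) (u : ℕ) :
    0 ≤ gg k0 b0 n s u ∧ gg k0 b0 n s u ≤ 2 * 2 ^ k0 - 2 ^ (k0 - 8 * n + 1) + 1 := by
  induction n with
  | zero =>
    simp only [gg, Finset.range_zero, Finset.sum_empty, le_refl, true_and, mul_zero, Nat.sub_zero]
    rw [pow_succ]
    linarith
  | succ n ih =>
    obtain ⟨i1, i2⟩ := ih (by omega)
    have hk := lt_nlev.1 (show n < nlev k0 b0 by omega)
    have e : gg k0 b0 (n + 1) s u = gg k0 b0 n s u + if s n then hb k0 b0 n u else 0 := by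
      simp [gg, Finset.sum_range_succ]
    have h1 := a4a_hb_nonneg k0 b0 n u
    have h2 := a4a_hb_le k0 b0 n u
    constructor
    · rw [e]; split_ifs <;> linarith
    · have h3 : (2 : ℝ) ^ (k0 - 8 * n + 1) = 2 * 2 ^ kb k0 n := by
        unfold kb; rw [pow_succ]; ring
      have h4 : (2 : ℝ) ^ (k0 - 8 * (n + 1) + 1) ≤ 2 ^ kb k0 n ∨ 8 * (n + 1) > k0 := by
        by_cases h : 8 * (n + 1) ≤ k0
        · left
          apply pow_le_pow_right₀ (by norm_num)
          unfold kb; omega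
        · right; omega
      have h5 : (0 : ℝ) < 2 ^ kb k0 n := by positivity
      rcases h4 with h4 | h4
      · rw [e]
        split_ifs <;> linarith
      · have h6 : k0 - 8 * (n + 1) = 0 := by omega
        rw [h6]
        have h7 : (2 : ℝ) ^ 6 ≤ 2 ^ kb k0 n := by
          apply pow_le_pow_right₀ (by norm_num)
          unfold kb; omega
        rw [e]
        split_ifs <;> norm_num at h7 ⊢ <;> linarith

lemma a4a_zz_mem {k0 b0 n u : ℕ} (hn : n ≤ nlev k0 b0) (s : ℕ → Bool) (hu : u < 2 ^ k0) :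
    zz k0 b0 n s u ∈ ball (0 : V) (2 ^ (k0 + 8)) := by
  obtain ⟨h1, h2⟩ := a4a_gg_bound hn s u
  set g := gg k0 b0 n s u with hg
  have h3 : (0 : ℝ) < 2 ^ (k0 - 8 * n + 1) := by positivity
  have hu' : (u : ℝ) < 2 ^ k0 := by exact_mod_cast hu
  have hu0 : (0 : ℝ) ≤ u := by positivity
  have hk1 : (1 : ℝ) ≤ 2 ^ k0 := one_le_pow₀ (by norm_num)
  have f1 : (⌊(g - u) / 2⌋ : ℝ) ≤ (g - u) / 2 := Int.floor_le _
  have f2 : (g - u) / 2 - 1 < (⌊(g - u) / 2⌋ : ℝ) := Int.sub_one_lt_floor _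
  have f3 : (⌊(g - u) / 2⌋ : ℝ) ≤ 2 * 2 ^ k0 := by linarith
  have f4 : -(2 * 2 ^ k0 : ℝ) ≤ (⌊(g - u) / 2⌋ : ℝ) := by linarith
  have f3' : ⌊(g - u) / 2⌋ ≤ 2 * 2 ^ k0 := by exact_mod_cast f3
  have f4' : -(2 * 2 ^ k0) ≤ ⌊(g - u) / 2⌋ := by exact_mod_cast f4
  have hu2 : (u : ℤ) < 2 ^ k0 := by exact_mod_cast hu
  have hp : (2 : ℤ) ^ (k0 + 8) = 256 * 2 ^ k0 := by rw [pow_add]; ring
  have hk2 : (0 : ℤ) < 2 ^ k0 := by positivity
  rw [mem_ball]
  unfold zz pt
  rw [← hg]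
  simp only [Int.cast_natCast, Prod.fst_zero, Prod.snd_zero]
  push_cast
  rw [hp]
  refine ⟨⟨?_, ?_⟩, ?_, ?_⟩ <;> omega

/-! ### measurability -/

section meas

variable {Ω : Type} [MeasurableSpace Ω] {μ : Measure Ω} [IsProbabilityMeasure μ]
  {X : ℕ → V → Ω → ℝ} {k0 b0 : ℕ}

lemma a4a_meas (hX : IsLay k0 (ball 0 (2 ^ (k0 + 8))) μ X) {j : ℕ} (hj : j < k0) {v : V}
    (hv : v ∈ ball (0 : V) (2 ^ (k0 + 8))) : Measurable (X j v) :=
  hX.meas (⟨j, hj⟩, ⟨v, hv⟩)

lemma a4a_strip_mem {b a c : ℕ} {s : ℕ → Bool} {v : V} (hv : v ∈ strip k0 b0 b a s c) :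
    v ∈ ball (0 : V) (2 ^ (k0 + 8)) := by
  have h := (Finset.mem_filter.1 hv).1
  rw [mem_ball] at h ⊢
  have hp : (2 : ℤ) ^ (k0 + 8) = 64 * 2 ^ (k0 + 2) := by
    rw [show k0 + 8 = (k0 + 2) + 6 by ring, pow_add]; ring
  have hk2 : (0 : ℤ) < 2 ^ (k0 + 2) := by positivity
  simp only [Prod.fst_zero, Prod.snd_zero] at h ⊢
  push_cast at h ⊢
  rw [hp]
  omega

lemma a4a_meas_dec (hX : IsLay k0 (ball 0 (2 ^ (k0 + 8))) μ X) {b : ℕ} (hb : b < nlev k0 b0)
    (a : ℕ) (s : ℕ → Bool) (t : Bool) :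
    MeasurableSet {ω | dec (fun j v => X j v ω) k0 b0 b a s = t} := by
  have h1 : ∀ c, Measurable (fun ω => ∑ v ∈ strip k0 b0 b a s c, X (ib k0 b0 b) v ω) := by
    intro c
    exact Finset.measurable_sum _ (fun v hv => a4a_meas hX (a4a_ib_lt hb) (a4a_strip_mem hv))
  have h2 : MeasurableSet {ω | ∑ v ∈ strip k0 b0 b a s 1, X (ib k0 b0 b) v ω <
      ∑ v ∈ strip k0 b0 b a s 0, X (ib k0 b0 b) v ω} := measurableSet_lt (h1 1) (h1 0)
  cases t with
  | true =>
    have : {ω | dec (fun j v => X j v ω) k0 b0 b a s = true} =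
        {ω | ∑ v ∈ strip k0 b0 b a s 1, X (ib k0 b0 b) v ω <
          ∑ v ∈ strip k0 b0 b a s 0, X (ib k0 b0 b) v ω} := by
      ext ω; simp [dec]
    rw [this]; exact h2
  | false =>
    have : {ω | dec (fun j v => X j v ω) k0 b0 b a s = false} =
        {ω | ∑ v ∈ strip k0 b0 b a s 1, X (ib k0 b0 b) v ω <
          ∑ v ∈ strip k0 b0 b a s 0, X (ib k0 b0 b) v ω}ᶜ := by
      ext ω; simp [dec]
    rw [this]; exact h2.compl

lemma a4a_meas_sg (hX : IsLay k0 (ball 0 (2 ^ (k0 + 8))) μ X) {n : ℕ} (hn : n ≤ nlev k0 b0)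
    (u : ℕ) (s : ℕ → Bool) :
    MeasurableSet {ω | sg (fun j v => X j v ω) k0 b0 u n = s} := by
  induction n generalizing s with
  | zero =>
    by_cases h : (fun _ => false : ℕ → Bool) = s
    · have : {ω | sg (fun j v => X j v ω) k0 b0 u 0 = s} = Set.univ := by
        ext ω; simp [sg, h]
      rw [this]; exact MeasurableSet.univ
    · have : {ω | sg (fun j v => X j v ω) k0 b0 u 0 = s} = ∅ := by
        ext ω; simp [sg, h]
      rw [this]; exact MeasurableSet.empty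
  | succ n ih =>
    have e : {ω | sg (fun j v => X j v ω) k0 b0 u (n + 1) = s} =
        {ω | sg (fun j v => X j v ω) k0 b0 u n = Function.update s n false} ∩
        {ω | decide ((∀ b' < n, ¬ viol k0 b0 (Function.update s n false) u b') ∧
          dec (fun j v => X j v ω) k0 b0 n (u / 2 ^ kb k0 n) (Function.update s n false) = true)
            = s n} := by
      ext ω
      simp only [Set.mem_ofPred_eq, Set.mem_inter_iff, sg]
      constructor
      · intro h
        have h1 : sg (fun j v => X j v ω) k0 b0 u n = Function.update s n false := by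
          rw [← h, Function.update_idem]
          have := sg_false (fun j v => X j v ω) (k0 := k0) (b0 := b0) (u := u) (le_refl n)
          rw [← this, Function.update_eq_self]
        refine ⟨h1, ?_⟩
        have h2 := congrFun h n
        rw [Function.update_self, h1] at h2
        exact h2
      · rintro ⟨h1, h2⟩
        rw [h1, h2, Function.update_idem, Function.update_eq_self]
    rw [e]
    refine (ih (by omega) _).inter ?_
    by_cases hv : ∀ b' < n, ¬ viol k0 b0 (Function.update s n false) u b'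
    · have h2 := a4a_meas_dec hX (show n < nlev k0 b0 by omega) (u / 2 ^ kb k0 n)
        (Function.update s n false) (s n)
      have h3 : ∀ d : Bool, decide ((∀ b' < n, ¬ viol k0 b0 (Function.update s n false) u b') ∧
          d = true) = d := by
        intro d
        have h4 : ((∀ b' < n, ¬ viol k0 b0 (Function.update s n false) u b') ∧ d = true) ↔
          d = true := ⟨fun h => h.2, fun h => ⟨hv, h⟩⟩
        rw [decide_eq_decide.2 h4]
        cases d <;> rfl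
      simp only [h3]
      exact h2
    · by_cases hs : s n = false
      · convert MeasurableSet.univ using 1
        ext ω
        simp only [hv, false_and, decide_false, Set.mem_ofPred_eq, Set.mem_univ, iff_true]
        exact hs.symm
      · convert MeasurableSet.empty using 1
        ext ω
        simp only [hv, false_and, decide_false, Set.mem_ofPred_eq, Set.mem_empty_iff_false,
          iff_false]
        exact fun h => hs h.symm

lemma a4a_ext_sg (Y : ℕ → V → ℝ) {u n : ℕ} :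
    ext n (fun i : Fin n => sg Y k0 b0 u n i) = sg Y k0 b0 u n := by
  funext b
  unfold ext
  split_ifs with h
  · rfl
  · exact (sg_false Y (by omega)).symm

lemma a4a_meas_prod (hX : IsLay k0 (ball 0 (2 ^ (k0 + 8))) μ X) {n : ℕ} (hn : n ≤ nlev k0 b0)
    (u : ℕ) (f : (ℕ → Bool) → ℕ → (ball (0 : V) (2 ^ (k0 + 8)) → ℝ) → ℝ≥0∞)
    (hf : ∀ s j, Measurable (f s j)) :
    Measurable (fun ω => ∏ j ∈ Finset.range k0, f (sg (fun j v => X j v ω) k0 b0 u n) j
        (fun v => X j v ω)) := by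
  have hg : Measurable (fun ω => (fun i : Fin n => sg (fun j v => X j v ω) k0 b0 u n i)) := by
    apply measurable_to_countable'
    intro s
    have := a4a_meas_sg hX hn u (ext n s)
    convert this using 1
    ext ω
    simp only [Set.mem_preimage, Set.mem_singleton_iff, Set.mem_ofPred_eq]
    constructor
    · intro h
      rw [← h, a4a_ext_sg]
    · intro h
      funext i
      rw [h]
      simp [ext]
  have hH : ∀ s : Fin n → Bool, Measurable (fun ω => ∏ j ∈ Finset.range k0, f (ext n s) j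
        (fun v => X j v ω)) := by
    intro s
    apply Finset.measurable_prod
    intro j hj
    have hj' := Finset.mem_range.1 hj
    apply (hf (ext n s) j).comp
    apply measurable_pi_lambda
    intro v
    exact a4a_meas hX hj' v.2
  have h2 : Measurable (fun p : (Fin n → Bool) × Ω => ∏ j ∈ Finset.range k0, f (ext n p.1) j
        (fun v => X j v p.2)) := measurable_from_prod_countable_right hH
  have h3 := h2.comp (hg.prodMk measurable_id)
  convert h3 using 1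
  funext ω
  simp only [Function.comp, id]
  rw [a4a_ext_sg]

lemma a4a_markov (hX : IsLay k0 (ball 0 (2 ^ (k0 + 8))) μ X) {n : ℕ} (hn : n ≤ nlev k0 b0)
    (u : ℕ) (f : (ℕ → Bool) → ℕ → (ball (0 : V) (2 ^ (k0 + 8)) → ℝ) → ℝ≥0∞)
    (hf : ∀ s j, Measurable (f s j)) (C : ℝ≥0∞) (G E : Set Ω)
    (hE : ∀ ω ∈ E, ω ∈ G ∧ 1 ≤ C * ∏ j ∈ Finset.range k0,
      f (sg (fun j v => X j v ω) k0 b0 u n) j (fun v => X j v ω)) :
    μ E ≤ C * ∫⁻ ω in G, ∏ j ∈ Finset.range k0, f (sg (fun j v => X j v ω) k0 b0 u n) j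
        (fun v => X j v ω) ∂μ := by
  have hm := a4a_meas_prod hX hn u f hf
  have hm2 := hm.const_mul C
  have hms : MeasurableSet {ω | 1 ≤ C * ∏ j ∈ Finset.range k0,
      f (sg (fun j v => X j v ω) k0 b0 u n) j (fun v => X j v ω)} :=
    measurableSet_le measurable_const hm2
  calc μ E ≤ μ ({ω | 1 ≤ C * ∏ j ∈ Finset.range k0,
      f (sg (fun j v => X j v ω) k0 b0 u n) j (fun v => X j v ω)} ∩ G) := by
        apply measure_mono
        intro ω hω
        exact ⟨(hE ω hω).2, (hE ω hω).1⟩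
    _ = (μ.restrict G) {ω | 1 ≤ C * ∏ j ∈ Finset.range k0,
      f (sg (fun j v => X j v ω) k0 b0 u n) j (fun v => X j v ω)} :=
        (Measure.restrict_apply hms).symm
    _ ≤ ∫⁻ ω in G, C * ∏ j ∈ Finset.range k0, f (sg (fun j v => X j v ω) k0 b0 u n) j
        (fun v => X j v ω) ∂μ := by
        have := mul_meas_ge_le_lintegral (μ := μ.restrict G) hm2 1
        rwa [one_mul] at this
    _ = _ := lintegral_const_mul C hm

lemma a4a_layer (hX : IsLay k0 (ball 0 (2 ^ (k0 + 8))) μ X) {j : ℕ} (hj : j < k0) {z : V}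
    (hz : z ∈ ball (0 : V) (2 ^ (k0 + 8))) (θ : ℝ) :
    ∫⁻ ω, ENNReal.ofReal (Real.exp (θ * X j z ω)) ∂μ ≤
      ENNReal.ofReal (Real.exp (16 * θ ^ 2)) := by
  have hG := hX.gauss.hasGaussianLaw_eval (⟨j, hj⟩, ⟨z, hz⟩)
  have hm := hX.mean (⟨j, hj⟩, ⟨z, hz⟩)
  have hc := hX.cov (⟨j, hj⟩, ⟨z, hz⟩) (⟨j, hj⟩, ⟨z, hz⟩)
  have := lintegral_exp_gauss hG hm θ
  have e : ∫⁻ ω, ENNReal.ofReal (Real.exp (θ * X j z ω)) ∂μ =
    ENNReal.ofReal (Real.exp (θ ^ 2 * Var[X j z; μ] / 2)) := this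
  rw [e]
  apply ENNReal.ofReal_le_ofReal
  apply Real.exp_le_exp.2
  have hv : Var[X j z; μ] = kap j 0 := by
    rw [← covariance_self (hX.meas (⟨j, hj⟩, ⟨z, hz⟩)).aemeasurable]
    rw [show X j z = X (⟨j, hj⟩ : Fin k0) (⟨z, hz⟩ : ball (0 : V) (2 ^ (k0 + 8))) from rfl]
    rw [hc]
    simp
  rw [hv]
  have h1 := kap_zero_le j
  nlinarith [sq_nonneg θ]

end meas

/-! ### products over layers -/

lemma a4a_prodbound {k0 b0 n : ℕ} (hn : n ≤ nlev k0 b0) (T B c : ℕ → ℝ≥0∞)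
    (h1 : ∀ b' < n, T (ib k0 b0 b') ≤ B (ib k0 b0 b') * c b')
    (h2 : ∀ j < k0, (∀ b' < n, ib k0 b0 b' ≠ j) → T j ≤ B j) :
    ∏ j ∈ Finset.range k0, T j ≤ (∏ j ∈ Finset.range k0, B j) * ∏ b' ∈ Finset.range n, c b' := by
  have hmaps : ∀ b' ∈ Finset.range n, ib k0 b0 b' ∈ Finset.range k0 := by
    intro b' hb'
    exact Finset.mem_range.2 (a4a_ib_lt (lt_of_lt_of_le (Finset.mem_range.1 hb') hn))
  rw [← Finset.prod_fiberwise_of_maps_to hmaps c, ← Finset.prod_mul_distrib]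
  apply Finset.prod_le_prod'
  intro j hj
  by_cases hex : ∃ b' < n, ib k0 b0 b' = j
  · obtain ⟨b', hb', rfl⟩ := hex
    have : (Finset.range n).filter (fun i => ib k0 b0 i = ib k0 b0 b') = {b'} := by
      ext i
      simp only [Finset.mem_filter, Finset.mem_range, Finset.mem_singleton]
      constructor
      · rintro ⟨hi, he⟩
        exact a4a_ib_inj (lt_of_lt_of_le hi hn) (lt_of_lt_of_le hb' hn) he
      · rintro rfl
        exact ⟨hb', rfl⟩
    rw [this, Finset.prod_singleton]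
    exact h1 b' hb'
  · push Not at hex
    have : (Finset.range n).filter (fun i => ib k0 b0 i = j) = ∅ := by
      ext i
      simp only [Finset.mem_filter, Finset.mem_range, Finset.notMem_empty, iff_false, not_and]
      exact fun hi => hex i hi
    rw [this, Finset.prod_empty, mul_one]
    exact h2 j (Finset.mem_range.1 hj) hex

lemma a4a_card_pow (n : ℕ) (c : ℝ≥0∞) (d : ℕ → ℝ≥0∞) :
    ∑ _s : Fin n → Bool, c * ∏ b' ∈ Finset.range n, (ENNReal.ofReal (1 / 2) * d b') =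
      c * ∏ b' ∈ Finset.range n, d b' := by
  rw [Finset.sum_const, Finset.card_univ, Fintype.card_fun, Fintype.card_bool, Fintype.card_fin,
    Finset.prod_mul_distrib, Finset.prod_const, Finset.card_range, nsmul_eq_mul]
  have h : (((2 ^ n : ℕ) : ℝ≥0∞)) * ENNReal.ofReal (1 / 2) ^ n = 1 := by
    push_cast
    rw [← mul_pow]
    have : (2 : ℝ≥0∞) * ENNReal.ofReal (1 / 2) = 1 := by
      rw [show (2 : ℝ≥0∞) = ENNReal.ofReal 2 by simp, ← ENNReal.ofReal_mul (by norm_num)]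
      norm_num
    rw [this, one_pow]
  calc _ = ((((2 ^ n : ℕ) : ℝ≥0∞)) * ENNReal.ofReal (1 / 2) ^ n) *
      (c * ∏ b' ∈ Finset.range n, d b') := by ring
    _ = _ := by rw [h, one_mul]

/-- the factor of level `b'` -/
noncomputable def a4aW (k0 b0 : ℕ) (θ : ℝ) (b' o : ℕ) : ℝ :=
  1 - if o ∈ ({2, 3, 4, 5} : Finset ℕ) then θ / (200 * √(2 ^ eb b0 b')) else 0

lemma a4aW_nonneg {k0 b0 : ℕ} {θ : ℝ} (hθ : 0 < θ) (hθ1 : θ ≤ 1) (b' o : ℕ) :
    0 ≤ a4aW k0 b0 θ b' o := by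
  unfold a4aW
  have h1 : (1 : ℝ) ≤ √(2 ^ eb b0 b') := by
    rw [Real.one_le_sqrt]
    exact one_le_pow₀ (by norm_num)
  have h2 : θ / (200 * √(2 ^ eb b0 b')) ≤ 1 := by
    rw [div_le_one (by positivity)]
    linarith
  split_ifs <;> linarith

lemma a4aW_le {k0 b0 : ℕ} {θ : ℝ} (hθ : 0 < θ) (b' o : ℕ) :
    a4aW k0 b0 θ b' o ≤ 1 := by
  unfold a4aW
  have h2 : 0 ≤ θ / (200 * √(2 ^ eb b0 b')) := by positivity
  split_ifs <;> linarith

lemma a4aW_avg (k0 b0 : ℕ) (θ : ℝ) (b' : ℕ) :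
    (∑ o ∈ Finset.range 8, a4aW k0 b0 θ b' o) / 8 = 1 - θ / (400 * √(2 ^ eb b0 b')) := by
  have h1 : (1 : ℝ) ≤ √(2 ^ eb b0 b') := by
    rw [Real.one_le_sqrt]
    exact one_le_pow₀ (by norm_num)
  have h0 : √((2 : ℝ) ^ eb b0 b') ≠ 0 := by positivity
  unfold a4aW
  simp only [Finset.sum_range_succ, Finset.sum_range_zero]
  norm_num
  field_simp
  ring

lemma a4a_est1_u {k0 b0 b : ℕ} (hb0 : 16 ^ 10 ≤ b0) (hb : b ≤ nlev k0 b0) {Ω : Type}
    [MeasurableSpace Ω] {μ : Measure Ω} [IsProbabilityMeasure μ] {X : ℕ → V → Ω → ℝ}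
    (hX : IsLay k0 (ball 0 (2 ^ (k0 + 8))) μ X) {K θ : ℝ} (hθ : 0 < θ) (hθ1 : θ ≤ 1)
    {u : ℕ} (hu : u < 2 ^ k0) :
    μ {ω | (∀ b' < b, Gd3 (fun j v => X j v ω) k0 b0 b' u) ∧
        ¬ Gd1 (fun j v => X j v ω) k0 b0 K b u} ≤
      ENNReal.ofReal (Real.exp (-(θ * (K / 2 - hh b0 b)) + 16 * θ ^ 2 * ((k0 : ℝ) - jb k0 b0 b)) *
          ∏ b' ∈ Finset.range b, a4aW k0 b0 θ b' (oc k0 b' u)) := by
  set w := rdn (jb k0 b0 b) u with hw
  set n := nd k0 b0 b with hn
  have hnl : n ≤ nlev k0 b0 := by rw [hn]; unfold nd; omega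
  have hbn : b ≤ n := by rw [hn]; unfold nd; omega
  have hnb : n ≤ b + 1 := by rw [hn]; unfold nd; omega
  have hwk : w < 2 ^ k0 := lt_of_le_of_lt (a4a_rdn_le _ _) hu
  have hmem : ∀ s, zz k0 b0 n s w ∈ ball (0 : V) (2 ^ (k0 + 8)) :=
    fun s => a4a_zz_mem hnl s hwk
  set f : (ℕ → Bool) → ℕ → (ball (0 : V) (2 ^ (k0 + 8)) → ℝ) → ℝ≥0∞ := fun s j φ =>
    if jb k0 b0 b ≤ j then ENNReal.ofReal (Real.exp (θ * φ ⟨zz k0 b0 n s w, hmem s⟩)) else 1
    with hf
  have hfm : ∀ s j, Measurable (f s j) := by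
    intro s j
    simp only [hf]
    split_ifs
    · have : Measurable (fun φ : (ball (0 : V) (2 ^ (k0 + 8)) → ℝ) =>
        φ ⟨zz k0 b0 n s w, hmem s⟩) := measurable_pi_apply _
      fun_prop
    · exact measurable_const
  set C : ℝ≥0∞ := ENNReal.ofReal (Real.exp (-(θ * (K / 2 - hh b0 b)))) with hC
  set G : Set Ω := {ω | ∀ b' < b, Gd3 (fun j v => X j v ω) k0 b0 b' w} with hG
  have hmk := a4a_markov hX hnl w f hfm C G
    {ω | (∀ b' < b, Gd3 (fun j v => X j v ω) k0 b0 b' u) ∧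
        ¬ Gd1 (fun j v => X j v ω) k0 b0 K b u} (by
      rintro ω ⟨h1, h2⟩
      refine ⟨(a4a_gd3_congr _).1 h1, ?_⟩
      have e1 : ∏ j ∈ Finset.range k0, f (sg (fun j v => X j v ω) k0 b0 w n) j
          (fun v => X j v ω) = ENNReal.ofReal (Real.exp (θ *
            ∑ j ∈ Finset.Ico (jb k0 b0 b) k0, X j (loc (fun j v => X j v ω) k0 b0 b u) ω)) := by
        rw [Finset.mul_sum, Real.exp_sum, ENNReal.ofReal_prod_of_nonneg
          (fun _ _ => (Real.exp_pos _).le)]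
        simp only [hf]
        rw [← Finset.prod_filter]
        apply Finset.prod_congr
        · ext j
          simp only [Finset.mem_filter, Finset.mem_range, Finset.mem_Ico]
          tauto
        · intro j _
          rfl
      rw [e1, hC, ← ENNReal.ofReal_mul (Real.exp_pos _).le, ← Real.exp_add]
      rw [show (1 : ℝ≥0∞) = ENNReal.ofReal 1 by simp]
      apply ENNReal.ofReal_le_ofReal
      apply Real.one_le_exp
      unfold Gd1 at h2
      rw [not_le] at h2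
      have := mul_lt_mul_of_pos_left h2 hθ
      linarith)
  refine hmk.trans ?_
  have hss := sign_sum hb0 hb hwk hX f hfm
  rw [← hn] at hss
  refine (mul_le_mul_right hss C).trans ?_
  -- bound of each sign vector
  set A : ℝ≥0∞ := ENNReal.ofReal (Real.exp (16 * θ ^ 2)) with hA
  set d : ℕ → ℝ≥0∞ := fun b' => ENNReal.ofReal (a4aW k0 b0 θ b' (oc k0 b' u)) with hd
  set P : ℝ≥0∞ := ∏ j ∈ Finset.range k0, (if jb k0 b0 b ≤ j then A else 1) with hP
  have hbound : ∀ s : Fin n → Bool,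
      (if (∀ b' < b, ¬ viol k0 b0 (ext _ s) w b') then
        ∏ j ∈ Finset.range k0,
          ∫⁻ ω in {ω | ∀ b' < n, ib k0 b0 b' = j →
              dec (fun j v => X j v ω) k0 b0 b' (w / 2 ^ kb k0 b') (ext _ s) = ext _ s b'},
            f (ext _ s) j (fun v => X j v ω) ∂μ
      else 0) ≤ P * ∏ b' ∈ Finset.range n, (ENNReal.ofReal (1 / 2) * d b') := by
    intro s
    split_ifs with hv
    · apply a4a_prodbound hnl
      · intro b' hb'
        have hj : jb k0 b0 b ≤ ib k0 b0 b' := a4a_jb_le hb'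
        simp only [hj, if_true]
        have hb'l : b' < nlev k0 b0 := lt_of_lt_of_le hb' hnl
        have hdt := dec_tilt (s := ext n s) hb0 hb'l hb' hnl hwk
          (fun b'' hb'' => hv b'' (by omega)) hX hθ hθ1
        have hoc : oc k0 b' w = oc k0 b' u := by
          unfold oc
          rw [hw, a4a_rdn_div (a4a_jb_kb hb')]
        calc _ ≤ ∫⁻ ω in {ω | dec (fun j v => X j v ω) k0 b0 b' (w / 2 ^ kb k0 b') (ext n s) =
                ext n s b'}, f (ext _ s) (ib k0 b0 b') (fun v => X (ib k0 b0 b') v ω) ∂μ := by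
              apply lintegral_mono_set
              intro ω hω
              exact hω b' hb' rfl
          _ ≤ _ := by
              simp only [hf, hj, if_true]
              refine hdt.trans (le_of_eq ?_)
              rw [hoc, hA, hd]
              simp only [a4aW]
              rw [← ENNReal.ofReal_mul (by norm_num), ← ENNReal.ofReal_mul (Real.exp_pos _).le]
              congr 1
              ring
      · intro j hj _
        calc _ ≤ ∫⁻ ω, f (ext _ s) j (fun v => X j v ω) ∂μ := setLIntegral_le_lintegral _ _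
          _ ≤ _ := by
              simp only [hf]
              split_ifs with h
              · exact a4a_layer hX hj (hmem _) θ
              · simp
    · exact zero_le
  refine (mul_le_mul_right (Finset.sum_le_sum fun s _ => hbound s) C).trans ?_
  rw [a4a_card_pow]
  have hP' : P = ENNReal.ofReal (Real.exp (16 * θ ^ 2 * ((k0 : ℝ) - jb k0 b0 b))) := by
    rw [hP, ← Finset.prod_filter, Finset.prod_const]
    have hc : ((Finset.range k0).filter (fun j => jb k0 b0 b ≤ j)).card = k0 - jb k0 b0 b := by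
      rw [← Nat.card_Ico]
      congr 1
      ext j
      simp only [Finset.mem_filter, Finset.mem_range, Finset.mem_Ico]
      tauto
    rw [hc, hA, ← ENNReal.ofReal_pow (Real.exp_pos _).le, ← Real.exp_nat_mul,
      Nat.cast_sub a4a_jb_le_k0]
    congr 2
    ring
  have hd1 : ∀ b', d b' ≤ 1 := by
    intro b'
    rw [hd, show (1 : ℝ≥0∞) = ENNReal.ofReal 1 by simp]
    exact ENNReal.ofReal_le_ofReal (a4aW_le hθ _ _)
  have hprod : ∏ b' ∈ Finset.range n, d b' ≤ ∏ b' ∈ Finset.range b, d b' := by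
    rcases Nat.lt_or_ge b n with h | h
    · have : n = b + 1 := by omega
      rw [this, Finset.prod_range_succ]
      exact mul_le_of_le_one_right' (hd1 b)
    · have : n = b := by omega
      rw [this]
  calc C * (P * ∏ b' ∈ Finset.range n, d b') ≤ C * (P * ∏ b' ∈ Finset.range b, d b') := by
        gcongr
    _ = _ := by
        rw [hC, hP', hd, ← ENNReal.ofReal_prod_of_nonneg (fun b' _ => a4aW_nonneg hθ hθ1 _ _),
          ← mul_assoc, ← ENNReal.ofReal_mul (Real.exp_pos _).le, ← Real.exp_add,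
          ← ENNReal.ofReal_mul (Real.exp_pos _).le]

theorem est1 {k0 b0 b : ℕ} (hb0 : 16 ^ 10 ≤ b0) (hb : b ≤ nlev k0 b0) {Ω : Type}
    [MeasurableSpace Ω] {μ : Measure Ω} [IsProbabilityMeasure μ] {X : ℕ → V → Ω → ℝ}
    (hX : IsLay k0 (ball 0 (2 ^ (k0 + 8))) μ X) {K θ : ℝ} (hθ : 0 < θ) (hθ1 : θ ≤ 1) :
    ∑ u ∈ Finset.range (2 ^ k0),
      μ {ω | (∀ b' < b, Gd3 (fun j v => X j v ω) k0 b0 b' u) ∧
        ¬ Gd1 (fun j v => X j v ω) k0 b0 K b u} ≤
      ENNReal.ofReal (2 ^ k0 *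
        (Real.exp (-(θ * (K / 2 - hh b0 b)) + 16 * θ ^ 2 * ((k0 : ℝ) - jb k0 b0 b)) *
          ∏ b' ∈ Finset.range b, (1 - θ / (400 * √(2 ^ eb b0 b'))))) := by
  refine (Finset.sum_le_sum fun u hu => a4a_est1_u hb0 hb hX hθ hθ1
    (Finset.mem_range.1 hu)).trans ?_
  rw [← ENNReal.ofReal_sum_of_nonneg (fun u _ => mul_nonneg (Real.exp_pos _).le
    (Finset.prod_nonneg fun b' _ => a4aW_nonneg hθ hθ1 _ _))]
  apply ENNReal.ofReal_le_ofReal
  rw [← Finset.mul_sum, avg_prod k0 b (fun b' hb' => by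
    have := lt_nlev.1 (lt_of_lt_of_le hb' hb)
    omega)]
  simp only [a4aW_avg]
  apply le_of_eq
  ring

lemma a4a_est3_u {k0 b0 b : ℕ} (hb0 : 16 ^ 10 ≤ b0) (hb : b < nlev k0 b0) {Ω : Type}
    [MeasurableSpace Ω] {μ : Measure Ω} [IsProbabilityMeasure μ] {X : ℕ → V → Ω → ℝ}
    (hX : IsLay k0 (ball 0 (2 ^ (k0 + 8))) μ X) {u : ℕ} (hu : u < 2 ^ k0) :
    μ {ω | (∀ b' < b, Gd3 (fun j v => X j v ω) k0 b0 b' u) ∧
        ¬ Gd3 (fun j v => X j v ω) k0 b0 b u} ≤
      ∑ s : Fin (b + 1) → Bool, ENNReal.ofReal (1 / 2) ^ (b + 1) *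
        if viol k0 b0 (ext (b + 1) s) u b then 1 else 0 := by
  have hnd : nd k0 b0 b = b + 1 := by unfold nd; omega
  set f : (ℕ → Bool) → ℕ → (ball (0 : V) (2 ^ (k0 + 8)) → ℝ) → ℝ≥0∞ := fun s _ _ =>
    if viol k0 b0 s u b then 1 else 0 with hf
  have hfm : ∀ s j, Measurable (f s j) := fun s j => measurable_const
  have hk0 : 0 < k0 := by have := a4a_ib_lt hb; omega
  have hmk := a4a_markov hX (n := b + 1) hb u f hfm 1
    {ω | ∀ b' < b, Gd3 (fun j v => X j v ω) k0 b0 b' u}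
    {ω | (∀ b' < b, Gd3 (fun j v => X j v ω) k0 b0 b' u) ∧
        ¬ Gd3 (fun j v => X j v ω) k0 b0 b u} (by
      rintro ω ⟨h1, h2⟩
      refine ⟨h1, ?_⟩
      unfold Gd3 at h2
      have h3 : viol k0 b0 (sg (fun j v => X j v ω) k0 b0 u (b + 1)) u b := by
        by_contra h
        exact h2 (fun _ => h)
      simp [hf, h3])
  rw [one_mul] at hmk
  refine hmk.trans ?_
  have hss := sign_sum hb0 hb.le hu hX f hfm
  rw [hnd] at hss
  refine hss.trans ?_
  apply Finset.sum_le_sum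
  intro s _
  split_ifs with hv hvb hvb
  · have h1 := a4a_prodbound (n := b + 1) hb (fun j => ∫⁻ ω in {ω | ∀ b' < b + 1,
        ib k0 b0 b' = j → dec (fun j v => X j v ω) k0 b0 b' (u / 2 ^ kb k0 b') (ext _ s) =
          ext _ s b'}, f (ext _ s) j (fun v => X j v ω) ∂μ) (fun _ => 1)
        (fun _ => ENNReal.ofReal (1 / 2)) (by
          intro b' hb'
          have hdh := dec_half (s := ext (b + 1) s) hb0 (show b' < nlev k0 b0 by omega) hu
            (fun b'' hb'' => hv b'' (by omega)) hX (ext (b + 1) s b')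
          simp only [hf, hvb, if_true, lintegral_one, Measure.restrict_apply MeasurableSet.univ,
            Set.univ_inter, one_mul]
          refine (measure_mono ?_).trans hdh
          intro ω hω
          exact hω b' hb' rfl) (by
          intro j _ _
          simp only [hf, hvb, if_true, lintegral_one, Measure.restrict_apply MeasurableSet.univ,
            Set.univ_inter]
          exact prob_le_one)
    refine h1.trans (le_of_eq ?_)
    rw [Finset.prod_const_one, one_mul, Finset.prod_const, Finset.card_range, mul_one]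
  · have : ∏ j ∈ Finset.range k0, ∫⁻ ω in {ω | ∀ b' < b + 1,
        ib k0 b0 b' = j → dec (fun j v => X j v ω) k0 b0 b' (u / 2 ^ kb k0 b') (ext _ s) =
          ext _ s b'}, f (ext _ s) j (fun v => X j v ω) ∂μ = 0 := by
      apply Finset.prod_eq_zero (Finset.mem_range.2 hk0)
      simp [hf, hvb]
    rw [this]
    exact zero_le
  · exact zero_le
  · exact zero_le

theorem est3 {k0 b0 b : ℕ} (hb0 : 16 ^ 10 ≤ b0) (hb : b < nlev k0 b0) {Ω : Type}
    [MeasurableSpace Ω] {μ : Measure Ω} [IsProbabilityMeasure μ] {X : ℕ → V → Ω → ℝ}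
    (hX : IsLay k0 (ball 0 (2 ^ (k0 + 8))) μ X) :
    ∑ u ∈ Finset.range (2 ^ k0),
      μ {ω | (∀ b' < b, Gd3 (fun j v => X j v ω) k0 b0 b' u) ∧
        ¬ Gd3 (fun j v => X j v ω) k0 b0 b u} ≤
      ENNReal.ofReal (2 ^ k0 * (2 * Real.exp (-((25 / 16 : ℝ) ^ lb b0 b / 32)))) := by
  refine (Finset.sum_le_sum fun u hu => a4a_est3_u hb0 hb hX (Finset.mem_range.1 hu)).trans ?_
  rw [Finset.sum_comm]
  set Q : ℝ := 2 ^ k0 * (2 * Real.exp (-((25 / 16 : ℝ) ^ lb b0 b / 32))) with hQ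
  have h1 : ∀ s : Fin (b + 1) → Bool, ∑ u ∈ Finset.range (2 ^ k0),
      ENNReal.ofReal (1 / 2) ^ (b + 1) * (if viol k0 b0 (ext (b + 1) s) u b then 1 else 0) ≤
      ENNReal.ofReal Q * ∏ _b' ∈ Finset.range (b + 1), (ENNReal.ofReal (1 / 2) * 1) := by
    intro s
    rw [← Finset.mul_sum, Finset.sum_boole]
    simp only [mul_one]
    rw [Finset.prod_const, Finset.card_range, mul_comm]
    gcongr
    have := viol_count hb (ext (b + 1) s)
    rw [← hQ] at this
    rw [← ENNReal.ofReal_natCast]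
    exact ENNReal.ofReal_le_ofReal this
  refine (Finset.sum_le_sum fun s _ => h1 s).trans ?_
  rw [a4a_card_pow (b + 1) (ENNReal.ofReal Q) (fun _ => 1)]
  simp

end Pool.H92.GFL
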