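import Pool.Agent.helper92.GFL.A4s
import Pool.Agent.helper92.GFL.L2
import Pool.Agent.helper92.GFL.L3
import Pool.Agent.helper92.GFL.K4

namespace Pool.H92.GFL

open Function Finset MeasureTheory ProbabilityTheory Pool.H92.GFF
open scoped Classical ENNReal

/-! ### Rounding -/

lemma a4b_rdn_div {j m u : ℕ} (h : j ≤ m) : rdn j u / 2 ^ m = u / 2 ^ m := by
  unfold rdn
  obtain ⟨t, rfl⟩ := Nat.exists_eq_add_of_le h
  rw [pow_add, ← Nat.div_div_eq_div_mul, ← Nat.div_div_eq_div_mul,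
    Nat.mul_div_cancel_left _ (by positivity)]

lemma a4b_rdn_lt {j u m : ℕ} (hu : u < 2 ^ m) : rdn j u < 2 ^ m :=
  lt_of_le_of_lt (Nat.mul_div_le _ _) hu

lemma a4b_jb_le {k0 b0 b b' : ℕ} (h : b' ≤ b) :
    jb k0 b0 b ≤ kb k0 b' - 3 := by
  unfold jb ib kb
  split_ifs <;> omega

lemma a4b_jb_le' {k0 b0 b b' : ℕ} (h : b' ≤ b) :
    jb k0 b0 b ≤ kb k0 b' := (a4b_jb_le h).trans (Nat.sub_le _ _)

lemma a4b_sg (X : ℕ → V → ℝ) {k0 b0 b n u : ℕ} (hn : n ≤ b + 1) :
    sg X k0 b0 (rdn (jb k0 b0 b) u) n = sg X k0 b0 u n := by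
  refine sg_cell X ?_ ?_
  · intro b' hb'
    exact a4b_rdn_div (a4b_jb_le' (by omega))
  · intro b' hb'
    exact a4b_rdn_div (a4b_jb_le (by omega))

lemma a4b_viol {k0 b0 b b' u : ℕ} {s : ℕ → Bool} (hb : b' ≤ b) :
    viol k0 b0 s (rdn (jb k0 b0 b) u) b' ↔ viol k0 b0 s u b' := by
  have h1 : ∀ b'' ≤ b', cc k0 b'' (rdn (jb k0 b0 b) u) = cc k0 b'' u := by
    intro b'' hb''
    unfold cc oc
    rw [a4b_rdn_div (a4b_jb_le (by omega))]
  have h2 : (∑ b'' ∈ (Finset.range (b' + 1)).filter (fun b'' => lb b0 b'' = lb b0 b'),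
      if s b'' then cc k0 b'' (rdn (jb k0 b0 b) u) else 0) =
      ∑ b'' ∈ (Finset.range (b' + 1)).filter (fun b'' => lb b0 b'' = lb b0 b'),
      if s b'' then cc k0 b'' u else 0 := by
    refine Finset.sum_congr rfl (fun b'' hb'' => ?_)
    rw [h1 b'' (by simp at hb''; omega)]
  unfold viol
  rw [h2]

lemma a4b_gd3 (X : ℕ → V → ℝ) {k0 b0 b b' u : ℕ} (hb' : b' < b) :
    Gd3 X k0 b0 b' (rdn (jb k0 b0 b) u) ↔ Gd3 X k0 b0 b' u := by
  unfold Gd3
  rw [a4b_sg X (by omega), a4b_viol (by omega)]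

/-! ### Size of the positions -/

lemma a4b_hb {k0 b0 b u : ℕ} (h : b < nlev k0 b0) :
    0 ≤ hb k0 b0 b u ∧ hb k0 b0 b u ≤ 2 ^ k0 * (1 / 2) ^ b := by
  have hb' := lt_nlev.1 h
  constructor
  · unfold Pool.H92.GFL.hb
    positivity
  · have h1 : (min (min (u % 2 ^ kb k0 b) (2 ^ kb k0 b / 8)) (2 ^ kb k0 b - u % 2 ^ kb k0 b) : ℕ) ≤
        2 ^ kb k0 b / 8 := (min_le_left _ _).trans (min_le_right _ _)
    have h2 : ((min (min (u % 2 ^ kb k0 b) (2 ^ kb k0 b / 8)) (2 ^ kb k0 b - u % 2 ^ kb k0 b) : ℕ) :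
        ℝ) ≤ 2 ^ kb k0 b / 8 := by
      refine (Nat.cast_le.2 h1).trans ?_
      refine Nat.cast_div_le.trans ?_
      push_cast
      exact le_rfl
    have h3 : (8 : ℝ) / 2 ^ eb b0 b ≤ 8 := by
      refine div_le_self (by norm_num) (one_le_pow₀ (by norm_num))
    have h4 : hb k0 b0 b u ≤ 2 ^ kb k0 b := by
      unfold Pool.H92.GFL.hb
      calc _ ≤ (8 : ℝ) * (2 ^ kb k0 b / 8) := mul_le_mul h3 h2 (by positivity) (by norm_num)
        _ = _ := by ring
    refine h4.trans ?_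
    have h5 : (2 : ℝ) ^ kb k0 b * 2 ^ (8 * b) = 2 ^ k0 := by
      rw [← pow_add]
      congr 1
      unfold kb
      omega
    have h6 : (2 : ℝ) ^ b ≤ 2 ^ (8 * b) := pow_le_pow_right₀ (by norm_num) (by omega)
    rw [← h5]
    have h7 : (1 : ℝ) ≤ 2 ^ (8 * b) * (1 / 2) ^ b := by
      rw [one_div, inv_pow, ← div_eq_mul_inv, le_div_iff₀ (by positivity), one_mul]
      exact h6
    calc (2 : ℝ) ^ kb k0 b = 2 ^ kb k0 b * 1 := (mul_one _).symm
      _ ≤ 2 ^ kb k0 b * (2 ^ (8 * b) * (1 / 2) ^ b) := mul_le_mul_of_nonneg_left h7 (by positivity)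
      _ = _ := by ring

lemma a4b_gg {k0 b0 n u : ℕ} (hn : n ≤ nlev k0 b0) (s : ℕ → Bool) :
    0 ≤ gg k0 b0 n s u ∧ gg k0 b0 n s u ≤ 2 * 2 ^ k0 := by
  constructor
  · unfold gg
    refine Finset.sum_nonneg (fun b hb => ?_)
    split_ifs
    · exact (a4b_hb (lt_of_lt_of_le (Finset.mem_range.1 hb) hn)).1
    · exact le_rfl
  · unfold gg
    calc _ ≤ ∑ b ∈ Finset.range n, (2 : ℝ) ^ k0 * (1 / 2) ^ b := by
          refine Finset.sum_le_sum (fun b hb => ?_)
          split_ifs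
          · exact (a4b_hb (lt_of_lt_of_le (Finset.mem_range.1 hb) hn)).2
          · positivity
      _ = 2 ^ k0 * ∑ b ∈ Finset.range n, (1 / 2 : ℝ) ^ b := by rw [Finset.mul_sum]
      _ ≤ 2 ^ k0 * 2 := mul_le_mul_of_nonneg_left (sum_geometric_two_le n) (by positivity)
      _ = _ := by ring

lemma a4b_ball {k0 b0 n u j : ℕ} (hn : n ≤ nlev k0 b0) (s : ℕ → Bool) (hu : u < 2 ^ k0)
    (hj : j ≤ k0) : ball (zz k0 b0 n s u) (64 * 2 ^ j) ⊆ ball 0 (2 ^ (k0 + 8)) := by
  obtain ⟨h1, h2⟩ := a4b_gg (u := u) hn s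
  have h3 : (2 : ℕ) ^ j ≤ 2 ^ k0 := Nat.pow_le_pow_right (by norm_num) hj
  have h4 : (2 : ℕ) ^ (k0 + 8) = 256 * 2 ^ k0 := by rw [pow_add]; ring
  have hu' : (u : ℝ) < 2 ^ k0 := by exact_mod_cast hu
  have hu0 : (0 : ℝ) ≤ u := Nat.cast_nonneg u
  set f : ℤ := ⌊(gg k0 b0 n s u - u) / 2⌋ with hf
  have h5 : (f : ℝ) ≤ (gg k0 b0 n s u - u) / 2 := Int.floor_le _
  have h6 : (gg k0 b0 n s u - u) / 2 < f + 1 := Int.lt_floor_add_one _
  have hp : (1 : ℝ) ≤ 2 ^ k0 := one_le_pow₀ (by norm_num)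
  have h7 : f ≤ 2 ^ k0 := by
    have : (f : ℝ) ≤ 2 ^ k0 := by linarith
    exact_mod_cast this
  have h8 : -(2 * 2 ^ k0) ≤ f := by
    have : (-(2 * 2 ^ k0) : ℝ) ≤ f := by linarith
    exact_mod_cast this
  have hu2 : (u : ℤ) < 2 ^ k0 := by exact_mod_cast hu
  have h3' : (2 : ℤ) ^ j ≤ 2 ^ k0 := by exact_mod_cast h3
  intro v hv
  rw [mem_ball] at hv ⊢
  simp only [zz, pt] at hv
  rw [h4]
  push_cast at hv ⊢
  simp only [Prod.fst_zero, Prod.snd_zero]
  omega

/-! ### Measurability -/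

lemma a4b_meas_dec {k0 b0 b a : ℕ} {s : ℕ → Bool} {Ω : Type} [MeasurableSpace Ω]
    {X : ℕ → V → Ω → ℝ} (hX : ∀ j < k0, ∀ v ∈ ball (0 : V) (2 ^ (k0 + 8)), Measurable (X j v))
    (hb : b < nlev k0 b0) :
    MeasurableSet {ω | dec (fun j v => X j v ω) k0 b0 b a s = true} := by
  have hb' := lt_nlev.1 hb
  have hi : ib k0 b0 b < k0 := by
    unfold ib
    omega
  have h1 : ∀ c, Measurable (fun ω => ∑ v ∈ strip k0 b0 b a s c, X (ib k0 b0 b) v ω) := by
    intro c
    refine Finset.measurable_sum _ (fun v hv => hX _ hi v ?_)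
    have h2 : v ∈ ball (0 : V) (2 ^ (k0 + 2)) := (Finset.mem_filter.1 hv).1
    have h3 : (2 : ℤ) ^ (k0 + 2) ≤ 2 ^ (k0 + 8) := pow_le_pow_right₀ (by norm_num) (by omega)
    rw [mem_ball] at h2 ⊢
    push_cast at h2 ⊢
    omega
  have h2 : {ω | dec (fun j v => X j v ω) k0 b0 b a s = true} =
      {ω | ∑ v ∈ strip k0 b0 b a s 1, X (ib k0 b0 b) v ω <
        ∑ v ∈ strip k0 b0 b a s 0, X (ib k0 b0 b) v ω} := by
    ext ω
    simp [dec]
  rw [h2]
  exact measurableSet_lt (h1 1) (h1 0)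

lemma a4b_ext_sg (X : ℕ → V → ℝ) {k0 b0 u n : ℕ} :
    sg X k0 b0 u n = ext n (fun i => sg X k0 b0 u n i) := by
  funext b
  unfold ext
  split_ifs with h
  · rfl
  · exact sg_false X (by omega)

lemma a4b_ext_inj {n : ℕ} {s t : Fin n → Bool} (h : ext n s = ext n t) : s = t := by
  funext i
  have := congrFun h i
  simpa [ext, i.2] using this

lemma a4b_meas_sg {k0 b0 u : ℕ} {Ω : Type} [MeasurableSpace Ω] {X : ℕ → V → Ω → ℝ}
    (hX : ∀ j < k0, ∀ v ∈ ball (0 : V) (2 ^ (k0 + 8)), Measurable (X j v)) :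
    ∀ n ≤ nlev k0 b0, Measurable (fun ω => sg (fun j v => X j v ω) k0 b0 u n) := by
  intro n
  induction n with
  | zero =>
    intro _
    simp only [sg]
    exact measurable_const
  | succ n ih =>
    intro hn
    have ih' := ih (by omega)
    have hset : MeasurableSet {ω | (∀ b' < n, ¬ viol k0 b0 (sg (fun j v => X j v ω) k0 b0 u n) u b') ∧
        dec (fun j v => X j v ω) k0 b0 n (u / 2 ^ kb k0 n)
          (sg (fun j v => X j v ω) k0 b0 u n) = true} := by
      have h1 : {ω | (∀ b' < n, ¬ viol k0 b0 (sg (fun j v => X j v ω) k0 b0 u n) u b') ∧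
          dec (fun j v => X j v ω) k0 b0 n (u / 2 ^ kb k0 n)
            (sg (fun j v => X j v ω) k0 b0 u n) = true} =
          ⋃ t : Fin n → Bool, ({ω | sg (fun j v => X j v ω) k0 b0 u n = ext n t} ∩
            ({ω | ∀ b' < n, ¬ viol k0 b0 (ext n t) u b'} ∩
            {ω | dec (fun j v => X j v ω) k0 b0 n (u / 2 ^ kb k0 n) (ext n t) = true})) := by
        ext ω
        simp only [Set.mem_ofPred_eq, Set.mem_iUnion, Set.mem_inter_iff]
        constructor
        · rintro ⟨h2, h3⟩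
          refine ⟨fun i => sg (fun j v => X j v ω) k0 b0 u n i, a4b_ext_sg _, ?_, ?_⟩
          · rw [← a4b_ext_sg]; exact h2
          · rw [← a4b_ext_sg]; exact h3
        · rintro ⟨t, h2, h3, h4⟩
          rw [h2]
          exact ⟨h3, h4⟩
      rw [h1]
      refine MeasurableSet.iUnion (fun t => MeasurableSet.inter ?_ (MeasurableSet.inter ?_ ?_))
      · exact ih' (measurableSet_singleton (ext n t))
      · exact MeasurableSet.const _
      · exact a4b_meas_dec hX (by omega)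
    rw [measurable_pi_iff]
    intro b
    by_cases hbn : b = n
    · subst hbn
      have h2 : (fun ω => sg (fun j v => X j v ω) k0 b0 u (b + 1) b) = fun ω =>
          decide ((∀ b' < b, ¬ viol k0 b0 (sg (fun j v => X j v ω) k0 b0 u b) u b') ∧
            dec (fun j v => X j v ω) k0 b0 b (u / 2 ^ kb k0 b)
              (sg (fun j v => X j v ω) k0 b0 u b) = true) := by
        funext ω
        simp only [sg, Function.update_self]
      rw [h2]
      refine measurable_to_bool ?_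
      convert hset using 1
      ext ω
      simp
    · have h2 : (fun ω => sg (fun j v => X j v ω) k0 b0 u (n + 1) b) = fun ω =>
          sg (fun j v => X j v ω) k0 b0 u n b := by
        funext ω
        simp only [sg, Function.update_of_ne hbn]
      rw [h2]
      exact (measurable_pi_iff.1 ih') b

lemma a4b_meas_F {k0 b0 u n : ℕ} {Ω : Type} [MeasurableSpace Ω] {X : ℕ → V → Ω → ℝ}
    (hX : ∀ j < k0, ∀ v ∈ ball (0 : V) (2 ^ (k0 + 8)), Measurable (X j v))
    (hn : n ≤ nlev k0 b0) (F : (ℕ → Bool) → Ω → ℝ≥0∞) (hF : ∀ s, Measurable (F s)) :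
    Measurable (fun ω => F (sg (fun j v => X j v ω) k0 b0 u n) ω) := by
  have hs := a4b_meas_sg (u := u) hX n hn
  have h1 : (fun ω => F (sg (fun j v => X j v ω) k0 b0 u n) ω) = fun ω =>
      ∑ t : Fin n → Bool, if sg (fun j v => X j v ω) k0 b0 u n = ext n t then F (ext n t) ω
        else 0 := by
    funext ω
    rw [Finset.sum_eq_single (fun i : Fin n => sg (fun j v => X j v ω) k0 b0 u n i)]
    · rw [← a4b_ext_sg, if_pos rfl]
    · intro t _ ht
      rw [if_neg]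
      intro h2
      refine ht (a4b_ext_inj (n := n) ?_)
      rw [← h2, ← a4b_ext_sg]
    · intro h2
      exact absurd (Finset.mem_univ _) h2
  rw [h1]
  refine Finset.measurable_sum _ (fun t _ => Measurable.ite ?_ (hF _) measurable_const)
  exact hs (measurableSet_singleton (ext n t))

/-! ### One layer -/

/-- extension by zero -/
noncomputable def a4b_e (R : ℕ) (x : ball (0 : V) R → ℝ) (v : V) : ℝ :=
  if h : v ∈ ball (0 : V) R then x ⟨v, h⟩ else 0

lemma a4b_meas_e (R : ℕ) : Measurable (a4b_e R) := by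
  rw [measurable_pi_iff]
  intro v
  unfold a4b_e
  split_ifs with h
  · exact measurable_pi_apply _
  · exact measurable_const

lemma a4b_osc_congr {ψ ψ' : V → ℝ} {z : V} {r : ℕ} (h : ∀ v ∈ ball z r, ψ v = ψ' v) :
    osc ψ z r = osc ψ' z r := by
  unfold osc
  refine Finset.sup'_congr _ rfl (fun x hx => ?_)
  rw [h x hx, h z (by rw [mem_ball]; omega)]

lemma a4b_osc_e {ψ : V → ℝ} {z : V} {r R : ℕ} (h : ball z r ⊆ ball 0 R) :
    osc (a4b_e R (fun v => ψ v)) z r = osc ψ z r := by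
  refine a4b_osc_congr (fun v hv => ?_)
  unfold a4b_e
  rw [dif_pos (h hv)]

lemma a4b_holder {Ω : Type*} [MeasurableSpace Ω] {μ : Measure Ω} {A : Set Ω} {g : Ω → ℝ≥0∞}
    (hg : Measurable g) {w : ℝ} (hw0 : 0 ≤ w) (hw1 : w ≤ 1) :
    ∫⁻ ω in A, g ω ^ w ∂μ ≤ (μ A) ^ (1 - w) * (∫⁻ ω, g ω ∂μ) ^ w := by
  have h := ENNReal.lintegral_mul_norm_pow_le (μ := μ.restrict A) (f := fun _ => (1 : ℝ≥0∞)) (g := g)
    measurable_const.aemeasurable hg.aemeasurable (p := 1 - w) (q := w) (by linarith) hw0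
    (by ring)
  simp only [ENNReal.one_rpow, one_mul, lintegral_const, Measure.restrict_apply_univ] at h
  refine h.trans ?_
  gcongr
  exact Measure.restrict_le_self

lemma a4b_real {pr C w : ℝ} (hpr : 1 / 2 ≤ pr) (hC : 0 < C) (hw : 0 ≤ w) :
    pr ^ (1 - w) * C ^ w ≤ pr * (2 * C) ^ w := by
  have hp0 : 0 < pr := by linarith
  rw [Real.rpow_sub hp0, Real.rpow_one, Real.mul_rpow (by norm_num) hC.le, ← mul_assoc]
  refine mul_le_mul_of_nonneg_right ?_ (by positivity)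
  rw [div_le_iff₀ (by positivity), mul_assoc, ← Real.mul_rpow (by norm_num) hp0.le]
  have h1 : (1 : ℝ) ≤ (2 * pr) ^ w := Real.one_le_rpow (by linarith) hw
  nlinarith

lemma a4b_prob {Ω : Type*} [MeasurableSpace Ω] {μ : Measure Ω} {A : Set Ω} {o : Ω → ℝ}
    (ho : Measurable o) {pr C σ θ : ℝ} (hpr : 1 / 2 ≤ pr) (hC : 0 < C) (hσ : 0 < σ) (hθ : 0 ≤ θ)
    (hw1 : θ * σ ≤ 1) (hA : μ A ≤ ENNReal.ofReal pr)
    (hm : ∫⁻ ω, ENNReal.ofReal (Real.exp (o ω / σ)) ∂μ ≤ ENNReal.ofReal C) :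
    ∫⁻ ω in A, ENNReal.ofReal (Real.exp (θ * o ω)) ∂μ ≤
      ENNReal.ofReal (pr * (2 * C) ^ (θ * σ)) := by
  have h1 : ∀ ω, ENNReal.ofReal (Real.exp (θ * o ω)) =
      ENNReal.ofReal (Real.exp (o ω / σ)) ^ (θ * σ) := by
    intro ω
    rw [ENNReal.ofReal_rpow_of_pos (Real.exp_pos _), ← Real.exp_mul]
    congr 2
    field_simp
  have hw0 : 0 ≤ θ * σ := by positivity
  simp only [h1]
  refine (a4b_holder (by fun_prop) hw0 hw1).trans ?_
  have hp0 : 0 < pr := by linarith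
  calc (μ A) ^ (1 - θ * σ) * (∫⁻ ω, ENNReal.ofReal (Real.exp (o ω / σ)) ∂μ) ^ (θ * σ)
      ≤ (ENNReal.ofReal pr) ^ (1 - θ * σ) * (ENNReal.ofReal C) ^ (θ * σ) := by
        gcongr
    _ = ENNReal.ofReal (pr ^ (1 - θ * σ) * C ^ (θ * σ)) := by
        rw [ENNReal.ofReal_rpow_of_pos hp0, ENNReal.ofReal_rpow_of_pos hC,
          ← ENNReal.ofReal_mul (by positivity)]
    _ ≤ _ := ENNReal.ofReal_le_ofReal (a4b_real hpr hC hw0)

lemma a4b_nb {x w : V} (h : w ∈ nb x) : x - w ∈ nb 0 := by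
  simp only [nb, Finset.mem_insert, Finset.mem_singleton, Prod.fst_zero, Prod.snd_zero,
    zero_add, zero_sub] at h ⊢
  rcases h with rfl | rfl | rfl | rfl <;> simp [Prod.ext_iff]

/-- exponential moment of the oscillation of a layer -/
lemma a4b_moment {C : ℝ} (hC : ∀ {Ω : Type} [MeasurableSpace Ω] (μ : Measure Ω)
    [IsProbabilityMeasure μ] (z : V) (r : ℕ) (σ : ℝ) (Z : V → Ω → ℝ) (c : V → V → ℝ),
    1 ≤ r → 0 < σ → GF μ (fun v : ball z r => Z v) (fun x y => c x y) →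
    (∀ x ∈ ball z r, ∀ w ∈ nb x, w ∈ ball z r → c x x - 2 * c x w + c w w ≤ (σ / r) ^ 2) →
    ∫⁻ ω, ENNReal.ofReal (Real.exp (osc (fun v => Z v ω) z r / σ)) ∂μ ≤ ENNReal.ofReal C)
    {k0 j i R : ℕ} {z : V} (hj : j < k0) (hij : i ≤ j) (hz : ball z (64 * 2 ^ i) ⊆ ball 0 R)
    {Ω : Type} [MeasurableSpace Ω] {μ : Measure Ω} [IsProbabilityMeasure μ] {X : ℕ → V → Ω → ℝ}
    (hX : IsLay k0 (ball 0 R) μ X) :
    ∫⁻ ω, ENNReal.ofReal (Real.exp (osc (fun v => X j v ω) z (64 * 2 ^ i) /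
      (512 * (1 / 2) ^ (j - i)))) ∂μ ≤ ENNReal.ofReal C := by
  refine hC μ z (64 * 2 ^ i) (512 * (1 / 2) ^ (j - i)) (X j) (fun x y => kap j (x - y)) ?_ ?_ ?_ ?_
  · have : 0 < 2 ^ i := by positivity
    omega
  · positivity
  · have h := GF.comp hX (fun v : ball z (64 * 2 ^ i) => ((⟨j, hj⟩ : Fin k0),
      (⟨(v : V), hz v.2⟩ : ball (0 : V) R)))
    simpa using h
  · intro x _ w hw _
    have h1 := kap_grad j (a4b_nb hw)
    have h2 : ((512 : ℝ) * (1 / 2) ^ (j - i) / ((64 * 2 ^ i : ℕ) : ℝ)) ^ 2 = 64 / 4 ^ j := by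
      obtain ⟨t, rfl⟩ := Nat.exists_eq_add_of_le hij
      rw [Nat.add_sub_cancel_left]
      push_cast
      rw [div_pow, mul_pow, mul_pow, ← pow_mul, ← pow_mul, mul_comm t 2, mul_comm i 2,
        pow_mul, pow_mul, pow_add]
      rw [one_div, inv_pow, inv_pow]
      norm_num
      field_simp
      norm_num
    rw [h2]
    simp only [sub_self]
    have h3 : (64 : ℝ) / 4 ^ j = 2 * (32 / 4 ^ j) := by ring
    rw [h3]
    linarith

lemma a4b_ib {k0 b0 b b' : ℕ} (h : b < b') (h' : b' < nlev k0 b0) :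
    ib k0 b0 b' < ib k0 b0 b := by
  have h1 := lt_nlev.1 h'
  have h2 : eb b0 b ≤ eb b0 b' := by
    unfold eb lb
    have := Nat.log_mono_right (b := 16) (show b + b0 ≤ b' + b0 by omega)
    omega
  unfold ib
  omega

lemma a4b_prod {k0 b0 n : ℕ} (hn : n ≤ nlev k0 b0) :
    ∏ j ∈ Finset.range k0, (if ∃ b' < n, ib k0 b0 b' = j then (1 / 2 : ℝ) else 1) ≤ (1 / 2) ^ n := by
  rw [Finset.prod_ite, Finset.prod_const, Finset.prod_const_one, mul_one]
  refine pow_le_pow_of_le_one (by norm_num) (by norm_num) ?_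
  have h1 : ((Finset.range n).image (ib k0 b0)).card = n := by
    rw [Finset.card_image_of_injOn, Finset.card_range]
    intro x hx y hy hxy
    simp only [Finset.coe_range, Set.mem_Iio] at hx hy
    rcases lt_trichotomy x y with h | h | h
    · have := a4b_ib (k0 := k0) (b0 := b0) h (by omega)
      omega
    · exact h
    · have := a4b_ib (k0 := k0) (b0 := b0) h (by omega)
      omega
  have h2 : (Finset.range n).image (ib k0 b0) ⊆
      (Finset.range k0).filter (fun j => ∃ b' < n, ib k0 b0 b' = j) := by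
    intro j hj
    obtain ⟨b', hb', rfl⟩ := Finset.mem_image.1 hj
    rw [Finset.mem_range] at hb'
    rw [Finset.mem_filter, Finset.mem_range]
    refine ⟨?_, b', hb', rfl⟩
    have h3 := lt_nlev.1 (lt_of_lt_of_le hb' hn)
    unfold ib
    omega
  calc n = _ := h1.symm
    _ ≤ _ := Finset.card_le_card h2

lemma a4b_sum (k0 i : ℕ) :
    ∑ j ∈ Finset.range k0, (if i ≤ j then (1 / 1024 : ℝ) * (512 * (1 / 2) ^ (j - i)) else 0) ≤ 1 := by
  rw [← Finset.sum_filter]
  have h1 : (Finset.range k0).filter (fun j => i ≤ j) = Finset.Ico i k0 := by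
    ext j
    simp
    omega
  rw [h1, Finset.sum_Ico_eq_sum_range]
  have h2 : ∀ t ∈ Finset.range (k0 - i), (1 / 1024 : ℝ) * (512 * (1 / 2) ^ (i + t - i)) =
      1 / 2 * (1 / 2) ^ t := by
    intro t _
    rw [Nat.add_sub_cancel_left]
    ring
  rw [Finset.sum_congr rfl h2, ← Finset.mul_sum]
  have h3 := sum_geometric_two_le (k0 - i)
  linarith

theorem est2 : ∃ C : ℝ, 0 < C ∧ ∀ {k0 b0 b u : ℕ}, 16 ^ 10 ≤ b0 → b ≤ nlev k0 b0 → u < 2 ^ k0 →
    ∀ {Ω : Type} [MeasurableSpace Ω] {μ : Measure Ω} [IsProbabilityMeasure μ]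
      {X : ℕ → V → Ω → ℝ}, IsLay k0 (ball 0 (2 ^ (k0 + 8))) μ X → ∀ {K : ℝ},
    μ {ω | (∀ b' < b, Gd3 (fun j v => X j v ω) k0 b0 b' u) ∧
        ¬ Gd2 (fun j v => X j v ω) k0 b0 K b u} ≤
      ENNReal.ofReal (C * Real.exp (-((K / 4 + hh b0 b) / C))) := by
  obtain ⟨C₀, hC₀, hosc⟩ := osc_moment
  obtain ⟨C, hC1, hC0⟩ : ∃ C : ℝ, 1 ≤ C ∧ C₀ ≤ C := ⟨max 1 C₀, le_max_left _ _, le_max_right _ _⟩
  have hosc' : ∀ {Ω : Type} [MeasurableSpace Ω] (μ : Measure Ω)
      [IsProbabilityMeasure μ] (z : V) (r : ℕ) (σ : ℝ) (Z : V → Ω → ℝ) (c : V → V → ℝ),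
      1 ≤ r → 0 < σ → GF μ (fun v : ball z r => Z v) (fun x y => c x y) →
      (∀ x ∈ ball z r, ∀ w ∈ nb x, w ∈ ball z r → c x x - 2 * c x w + c w w ≤ (σ / r) ^ 2) →
      ∫⁻ ω, ENNReal.ofReal (Real.exp (osc (fun v => Z v ω) z r / σ)) ∂μ ≤ ENNReal.ofReal C := by
    intro Ω _ μ _ z r σ Z c h1 h2 h3 h4
    exact (hosc μ z r σ Z c h1 h2 h3 h4).trans (ENNReal.ofReal_le_ofReal hC0)
  refine ⟨max 1024 (2 * C), by positivity, ?_⟩
  intro k0 b0 b u hb0 hb hu Ω _ μ _ X hX K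
  set n := nd k0 b0 b with hn
  set i := jb k0 b0 b with hi
  set u' := rdn i u with hu'
  set R := 2 ^ (k0 + 8) with hR
  set x : ℝ := K / 4 + hh b0 b with hx
  have hn' : n ≤ nlev k0 b0 := by rw [hn]; unfold nd; exact min_le_right _ _
  have hnb : n ≤ b + 1 := by rw [hn]; unfold nd; exact min_le_left _ _
  have hik : i ≤ k0 := by
    rw [hi]; unfold jb ib; split_ifs <;> omega
  have hu'' : u' < 2 ^ k0 := a4b_rdn_lt hu
  have hmeas : ∀ j < k0, ∀ v ∈ ball (0 : V) (2 ^ (k0 + 8)), Measurable (X j v) := by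
    intro j hj v hv
    exact hX.meas (⟨j, hj⟩, ⟨v, hv⟩)
  have hball : ∀ s, ball (zz k0 b0 n s u') (64 * 2 ^ i) ⊆ ball 0 R := fun s =>
    a4b_ball hn' s hu'' hik
  -- the functions
  set f : (ℕ → Bool) → ℕ → (ball (0 : V) R → ℝ) → ℝ≥0∞ := fun s j y =>
    if i ≤ j then ENNReal.ofReal (Real.exp ((1 / 1024) *
      osc (a4b_e R y) (zz k0 b0 n s u') (64 * 2 ^ i))) else 1 with hf
  have hfm : ∀ s j, Measurable (f s j) := by
    intro s j
    simp only [hf]
    split_ifs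
    · exact ((((meas_osc _ _).comp (a4b_meas_e R)).const_mul _).exp).ennreal_ofReal
    · exact measurable_const
  have hfX : ∀ s j ω, f s j (fun v => X j v ω) = if i ≤ j then ENNReal.ofReal (Real.exp
      ((1 / 1024) * osc (fun v => X j v ω) (zz k0 b0 n s u') (64 * 2 ^ i))) else 1 := by
    intro s j ω
    simp only [hf]
    split_ifs
    · rw [a4b_osc_e (ψ := fun v => X j v ω) (hball s)]
    · rfl
  have hXm : ∀ j < k0, Measurable (fun ω (v : ball (0 : V) R) => X j v ω) := by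
    intro j hj
    rw [measurable_pi_iff]
    intro v
    exact hmeas j hj v v.2
  -- the exponential moment
  set G : Set Ω := {ω | ∀ b' < b, Gd3 (fun j v => X j v ω) k0 b0 b' u'} with hG
  set F : Ω → ℝ≥0∞ := fun ω => ∏ j ∈ Finset.range k0,
    f (sg (fun j v => X j v ω) k0 b0 u' n) j (fun v => X j v ω) with hF
  have hFm : Measurable F := by
    have := a4b_meas_F (u := u') hmeas hn'
      (fun s ω => ∏ j ∈ Finset.range k0, f s j (fun v => X j v ω)) (fun s => by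
        refine Finset.measurable_prod _ (fun j hj => ?_)
        exact (hfm s j).comp (hXm j (Finset.mem_range.1 hj)))
    exact this
  have hlay : ∀ s : Fin n → Bool, (∀ b' < b, ¬ viol k0 b0 (ext _ s) u' b') →
      ∀ j ∈ Finset.range k0,
        ∫⁻ ω in {ω | ∀ b' < n, ib k0 b0 b' = j →
              dec (fun j v => X j v ω) k0 b0 b' (u' / 2 ^ kb k0 b') (ext _ s) = ext _ s b'},
            f (ext _ s) j (fun v => X j v ω) ∂μ ≤
        ENNReal.ofReal ((if ∃ b' < n, ib k0 b0 b' = j then (1 / 2 : ℝ) else 1) *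
          (2 * C) ^ (if i ≤ j then (1 / 1024 : ℝ) * (512 * (1 / 2) ^ (j - i)) else 0)) := by
    intro s hs j hj
    have hj' := Finset.mem_range.1 hj
    have hA : μ {ω | ∀ b' < n, ib k0 b0 b' = j →
        dec (fun j v => X j v ω) k0 b0 b' (u' / 2 ^ kb k0 b') (ext _ s) = ext _ s b'} ≤
        ENNReal.ofReal (if ∃ b' < n, ib k0 b0 b' = j then (1 / 2 : ℝ) else 1) := by
      split_ifs with h
      · obtain ⟨b', hb', hbj⟩ := h
        refine (measure_mono ?_).trans (dec_half (k0 := k0) (b := b') (u := u') (s := ext _ s)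
          hb0 (lt_of_lt_of_le hb' hn') hu'' (fun b'' hb'' => hs b'' (by omega)) hX (ext _ s b'))
        intro ω hω
        exact hω b' hb' hbj
      · rw [ENNReal.ofReal_one]
        exact prob_le_one
    have hpr : (1 / 2 : ℝ) ≤ (if ∃ b' < n, ib k0 b0 b' = j then (1 / 2 : ℝ) else 1) := by
      split_ifs <;> norm_num
    by_cases hij : i ≤ j
    · simp only [hfX, if_pos hij]
      refine a4b_prob ?_ hpr (by linarith) (by positivity) (by norm_num) ?_ hA ?_
      · have h1 : (fun ω => osc (fun v => X j v ω) (zz k0 b0 n (ext n s) u') (64 * 2 ^ i)) =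
            fun ω => osc (a4b_e R (fun v => X j v ω)) (zz k0 b0 n (ext n s) u') (64 * 2 ^ i) := by
          funext ω
          rw [a4b_osc_e (ψ := fun v => X j v ω) (hball _)]
        rw [h1]
        exact ((meas_osc _ _).comp (a4b_meas_e R)).comp (hXm j hj')
      · have : (1 / 2 : ℝ) ^ (j - i) ≤ 1 := pow_le_one₀ (by norm_num) (by norm_num)
        linarith
      · exact a4b_moment hosc' hj' hij (hball _) hX
    · simp only [hfX, if_neg hij, Real.rpow_zero, mul_one]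
      rw [lintegral_const, one_mul, Measure.restrict_apply_univ]
      exact hA
  have hmain : ∫⁻ ω in G, F ω ∂μ ≤ ENNReal.ofReal (2 * C) := by
    refine (sign_sum hb0 hb hu'' hX f hfm).trans ?_
    have h1 : ∀ s ∈ (Finset.univ : Finset (Fin n → Bool)),
        (if (∀ b' < b, ¬ viol k0 b0 (ext _ s) u' b') then
        ∏ j ∈ Finset.range k0,
          ∫⁻ ω in {ω | ∀ b' < n, ib k0 b0 b' = j →
              dec (fun j v => X j v ω) k0 b0 b' (u' / 2 ^ kb k0 b') (ext _ s) = ext _ s b'},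
            f (ext _ s) j (fun v => X j v ω) ∂μ
        else 0) ≤ ENNReal.ofReal ((1 / 2) ^ n * (2 * C)) := by
      intro s _
      split_ifs with hs
      · refine (Finset.prod_le_prod' (hlay s hs)).trans ?_
        rw [← ENNReal.ofReal_prod_of_nonneg]
        · refine ENNReal.ofReal_le_ofReal ?_
          rw [Finset.prod_mul_distrib]
          refine mul_le_mul (a4b_prod hn') ?_ ?_ (by positivity)
          · rw [← Real.rpow_sum_of_pos (by linarith)]
            refine (Real.rpow_le_rpow_of_exponent_le (by linarith) (a4b_sum k0 i)).trans ?_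
            rw [Real.rpow_one]
          · refine Finset.prod_nonneg (fun j _ => ?_)
            positivity
        · intro j _
          have : (0 : ℝ) ≤ (if ∃ b' < n, ib k0 b0 b' = j then (1 / 2 : ℝ) else 1) := by
            split_ifs <;> norm_num
          positivity
      · exact zero_le
    refine (Finset.sum_le_sum h1).trans ?_
    rw [Finset.sum_const, Finset.card_univ, Fintype.card_fun, Fintype.card_bool, Fintype.card_fin,
      nsmul_eq_mul, ← ENNReal.ofReal_natCast, ← ENNReal.ofReal_mul (by positivity)]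
    refine ENNReal.ofReal_le_ofReal (le_of_eq ?_)
    push_cast
    rw [← mul_assoc, ← mul_pow]
    norm_num
  -- Markov
  have hsub : {ω | (∀ b' < b, Gd3 (fun j v => X j v ω) k0 b0 b' u) ∧
      ¬ Gd2 (fun j v => X j v ω) k0 b0 K b u} ⊆
      {ω | ENNReal.ofReal (Real.exp ((1 / 1024) * x)) ≤ F ω} ∩ G := by
    rintro ω ⟨h1, h2⟩
    refine ⟨?_, fun b' hb' => (a4b_gd3 _ hb').2 (h1 b' hb')⟩
    rw [Gd2, not_le] at h2
    simp only [Set.mem_ofPred_eq, hF, hfX]
    rw [← Finset.prod_filter]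
    have h3 : (Finset.range k0).filter (fun j => i ≤ j) = Finset.Ico i k0 := by
      ext j
      simp
      omega
    rw [h3, ← ENNReal.ofReal_prod_of_nonneg (fun _ _ => (Real.exp_pos _).le), ← Real.exp_sum,
      ← Finset.mul_sum]
    refine ENNReal.ofReal_le_ofReal (Real.exp_le_exp.2 (mul_le_mul_of_nonneg_left ?_ (by norm_num)))
    exact h2.le
  have hmark : μ {ω | (∀ b' < b, Gd3 (fun j v => X j v ω) k0 b0 b' u) ∧
      ¬ Gd2 (fun j v => X j v ω) k0 b0 K b u} ≤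
      ENNReal.ofReal (Real.exp (-((1 / 1024) * x))) * ENNReal.ofReal (2 * C) := by
    refine (measure_mono hsub).trans ?_
    rw [← Measure.restrict_apply (measurableSet_le measurable_const hFm)]
    have h1 := mul_meas_ge_le_lintegral (μ := μ.restrict G) hFm
      (ENNReal.ofReal (Real.exp ((1 / 1024) * x)))
    have h2 : ENNReal.ofReal (Real.exp (-((1 / 1024) * x))) *
        ENNReal.ofReal (Real.exp ((1 / 1024) * x)) = 1 := by
      rw [← ENNReal.ofReal_mul (Real.exp_pos _).le, ← Real.exp_add]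
      simp
    calc _ = ENNReal.ofReal (Real.exp (-((1 / 1024) * x))) *
        (ENNReal.ofReal (Real.exp ((1 / 1024) * x)) *
          (μ.restrict G) {ω | ENNReal.ofReal (Real.exp ((1 / 1024) * x)) ≤ F ω}) := by
          rw [← mul_assoc, h2, one_mul]
      _ ≤ _ := by
          gcongr
          exact h1.trans hmain
  -- conclusion
  by_cases hx0 : 0 ≤ x
  · refine hmark.trans ?_
    rw [← ENNReal.ofReal_mul (Real.exp_pos _).le]
    refine ENNReal.ofReal_le_ofReal ?_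
    rw [mul_comm]
    refine mul_le_mul (le_max_right _ _) (Real.exp_le_exp.2 ?_) (Real.exp_pos _).le (by positivity)
    rw [neg_le_neg_iff, div_le_iff₀ (by positivity)]
    have h1 : (1024 : ℝ) ≤ max 1024 (2 * C) := le_max_left _ _
    nlinarith
  · rw [not_le] at hx0
    refine prob_le_one.trans ?_
    rw [← ENNReal.ofReal_one]
    refine ENNReal.ofReal_le_ofReal ?_
    have h1 : (1024 : ℝ) ≤ max 1024 (2 * C) := le_max_left _ _
    have h2 : 1 ≤ Real.exp (-(x / max 1024 (2 * C))) := by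
      refine Real.one_le_exp ?_
      rw [Left.nonneg_neg_iff]
      exact div_nonpos_of_nonpos_of_nonneg hx0.le (by positivity)
    nlinarith

end Pool.H92.GFL
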