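import Pool.Agent.helper92.GFL.A1
import Pool.Agent.helper92.GFL.L1
import Pool.Agent.helper92.GFL.L3
import Pool.Agent.helper92.GFL.L4
import Pool.Agent.helper92.GFL.K4

namespace Pool.H92.GFL

open Function Finset MeasureTheory ProbabilityTheory Pool.H92.GFF
open scoped Classical ENNReal

/-! ### the signs -/

lemma a4d_sg_congr {X X' : ℕ → V → ℝ} {k0 b0 u n : ℕ}
    (h : ∀ l < n, ∀ v ∈ ball 0 (2 ^ (k0 + 2)), X (ib k0 b0 l) v = X' (ib k0 b0 l) v) :
    sg X k0 b0 u n = sg X' k0 b0 u n := by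
  induction n with
  | zero => rfl
  | succ n ih =>
    have h1 := ih (fun l hl => h l (by omega))
    have h2 : ∀ (s : ℕ → Bool) (c : ℕ),
        ∑ v ∈ strip k0 b0 n (u / 2 ^ kb k0 n) s c, X (ib k0 b0 n) v =
          ∑ v ∈ strip k0 b0 n (u / 2 ^ kb k0 n) s c, X' (ib k0 b0 n) v := by
      intro s c
      refine Finset.sum_congr rfl fun v hv => h n (by omega) v ?_
      unfold strip at hv
      exact (Finset.mem_filter.1 hv).1
    simp only [sg]
    rw [h1]
    unfold dec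
    simp only [h2]

lemma a4d_sg_meas {α : Type*} [MeasurableSpace α] {Y : α → ℕ → V → ℝ}
    (hY : ∀ j v, Measurable (fun x => Y x j v)) (k0 b0 u n : ℕ) (s : ℕ → Bool) :
    MeasurableSet {x | sg (Y x) k0 b0 u n = s} := by
  induction n generalizing s with
  | zero =>
    simp only [sg]
    exact MeasurableSet.const _
  | succ n ih =>
    have e : {x | sg (Y x) k0 b0 u (n + 1) = s} =
        {x | sg (Y x) k0 b0 u n = Function.update s n false} ∩
          {x | decide ((∀ b' < n, ¬ viol k0 b0 (Function.update s n false) u b') ∧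
            dec (Y x) k0 b0 n (u / 2 ^ kb k0 n) (Function.update s n false) = true) = s n} := by
      ext x
      simp only [Set.mem_inter_iff, Set.mem_ofPred_eq]
      constructor
      · intro h
        have h1 : sg (Y x) k0 b0 u n = Function.update s n false := by
          funext l
          by_cases hl : l = n
          · subst hl
            rw [sg_false (Y x) le_rfl, Function.update_self]
          · rw [Function.update_of_ne hl, ← h]
            simp only [sg]
            rw [Function.update_of_ne hl]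
        refine ⟨h1, ?_⟩
        rw [← h1]
        have h2 := congrFun h n
        simp only [sg, Function.update_self] at h2
        exact h2
      · rintro ⟨h1, h2⟩
        simp only [sg]
        rw [h1, h2]
        funext l
        by_cases hl : l = n
        · subst hl
          rw [Function.update_self]
        · rw [Function.update_of_ne hl, Function.update_of_ne hl]
    rw [e]
    refine (ih _).inter ?_
    have hd : ∀ s' : ℕ → Bool, MeasurableSet
        {x | dec (Y x) k0 b0 n (u / 2 ^ kb k0 n) s' = true} := by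
      intro s'
      unfold dec
      simp only [decide_eq_true_eq]
      exact measurableSet_lt (Finset.measurable_fun_sum _ fun v _ => hY _ v)
        (Finset.measurable_fun_sum _ fun v _ => hY _ v)
    have hm : MeasurableSet {x | (∀ b' < n, ¬ viol k0 b0 (Function.update s n false) u b') ∧
            dec (Y x) k0 b0 n (u / 2 ^ kb k0 n) (Function.update s n false) = true} :=
      (MeasurableSet.const _).inter (hd _)
    by_cases hs : s n = true
    · simp only [hs, decide_eq_true_eq]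
      exact hm
    · rw [Bool.not_eq_true] at hs
      simp only [hs, decide_eq_false_iff_not]
      exact hm.compl

/-! ### the positions -/

lemma a4d_eb_mono {b0 b b' : ℕ} (h : b' ≤ b) : eb b0 b' ≤ eb b0 b := by
  unfold eb lb
  have := Nat.log_mono_right (b := 16) (show b' + b0 ≤ b + b0 by omega)
  omega

lemma a4d_eb_ge {b0 b : ℕ} (hb0 : 16 ^ 10 ≤ b0) : 30 ≤ eb b0 b := by
  unfold eb lb
  have h1 : 10 ≤ Nat.log 16 (b + b0) := by
    apply Nat.le_log_of_pow_le (by norm_num)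
    omega
  omega

lemma a4d_hb_nonneg (k0 b0 b u : ℕ) : 0 ≤ hb k0 b0 b u := by
  unfold hb
  positivity

lemma a4d_hb_le {k0 b0 b u : ℕ} (hb0 : 16 ^ 10 ≤ b0) (hbn : b < nlev k0 b0) :
    hb k0 b0 b u ≤ 2 ^ k0 * (1 / 2 ^ (b + 1)) := by
  have h1 := lt_nlev.1 hbn
  have h2 := a4d_eb_ge (b := b) hb0
  unfold hb
  have h3 : ((min (min (u % 2 ^ kb k0 b) (2 ^ kb k0 b / 8)) (2 ^ kb k0 b - u % 2 ^ kb k0 b) : ℕ) : ℝ) ≤
      2 ^ kb k0 b := by
    have : min (min (u % 2 ^ kb k0 b) (2 ^ kb k0 b / 8)) (2 ^ kb k0 b - u % 2 ^ kb k0 b) ≤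
        2 ^ kb k0 b := (min_le_right _ _).trans (Nat.sub_le _ _)
    exact_mod_cast this
  have h4 : (8 : ℝ) / 2 ^ eb b0 b ≤ 1 := by
    rw [div_le_one (by positivity)]
    calc (8 : ℝ) = 2 ^ 3 := by norm_num
      _ ≤ 2 ^ eb b0 b := pow_le_pow_right₀ (by norm_num) (by omega)
  have h5 : (2 : ℝ) ^ kb k0 b * 2 ^ (b + 1) ≤ 2 ^ k0 * 2 := by
    rw [← pow_add, ← pow_succ]
    refine pow_le_pow_right₀ (by norm_num) ?_
    unfold kb
    omega
  have h6 : (8 : ℝ) / 2 ^ eb b0 b * 2 ≤ 1 := by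
    rw [div_mul_eq_mul_div, div_le_one (by positivity)]
    calc (8 : ℝ) * 2 = 2 ^ 4 := by norm_num
      _ ≤ 2 ^ eb b0 b := pow_le_pow_right₀ (by norm_num) (by omega)
  rw [mul_one_div, le_div_iff₀ (by positivity)]
  have h7 : (8 : ℝ) / 2 ^ eb b0 b * 2 ^ kb k0 b * 2 ^ (b + 1) ≤ 2 ^ k0 := by
    have h8 : (8 : ℝ) / 2 ^ eb b0 b * (2 ^ kb k0 b * 2 ^ (b + 1)) ≤
        8 / 2 ^ eb b0 b * (2 ^ k0 * 2) := mul_le_mul_of_nonneg_left h5 (by positivity)
    have h9 : (8 : ℝ) / 2 ^ eb b0 b * 2 * 2 ^ k0 ≤ 1 * 2 ^ k0 :=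
      mul_le_mul_of_nonneg_right h6 (by positivity)
    nlinarith [h8, h9]
  refine le_trans ?_ h7
  exact mul_le_mul_of_nonneg_right (mul_le_mul_of_nonneg_left h3 (by positivity)) (by positivity)

lemma a4d_gg {k0 b0 n u : ℕ} (hb0 : 16 ^ 10 ≤ b0) (hn : n ≤ nlev k0 b0) (s : ℕ → Bool) :
    0 ≤ gg k0 b0 n s u ∧ gg k0 b0 n s u ≤ 2 ^ k0 * (1 - 1 / 2 ^ n) := by
  unfold gg
  refine ⟨Finset.sum_nonneg fun b _ => ?_, ?_⟩
  · split_ifs
    · exact a4d_hb_nonneg _ _ _ _
    · exact le_rfl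
  · induction n with
    | zero => simp
    | succ n ih =>
      rw [Finset.sum_range_succ]
      have h1 := ih (by omega)
      have h2 : (if s n then hb k0 b0 n u else 0) ≤ 2 ^ k0 * (1 / 2 ^ (n + 1)) := by
        split_ifs
        · exact a4d_hb_le hb0 (by omega)
        · positivity
      have h3 : (2 : ℝ) ^ k0 * (1 - 1 / 2 ^ (n + 1)) =
          2 ^ k0 * (1 - 1 / 2 ^ n) + 2 ^ k0 * (1 / 2 ^ (n + 1)) := by
        rw [pow_succ]
        field_simp
        ring
      rw [h3]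
      linarith

lemma a4d_zz {k0 b0 n u : ℕ} (hb0 : 16 ^ 10 ≤ b0) (hn : n ≤ nlev k0 b0) (hu : u < 2 ^ k0)
    (s : ℕ → Bool) : zz k0 b0 n s u ∈ ball 0 (2 ^ (k0 + 2)) := by
  obtain ⟨h1, h2⟩ := a4d_gg (u := u) hb0 hn s
  have h3 : gg k0 b0 n s u ≤ 2 ^ k0 := by
    refine h2.trans ?_
    have : (0 : ℝ) ≤ 1 / 2 ^ n := by positivity
    nlinarith [show (0 : ℝ) < 2 ^ k0 by positivity]
  have hu' : (u : ℝ) < 2 ^ k0 := by exact_mod_cast hu
  have hu0 : (0 : ℝ) ≤ u := by positivity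
  unfold zz pt
  have h4 : ⌊(gg k0 b0 n s u - u) / 2⌋ ≤ (2 : ℤ) ^ k0 := by
    have := Int.floor_le ((gg k0 b0 n s u - u) / 2)
    have h5 : ((⌊(gg k0 b0 n s u - u) / 2⌋ : ℤ) : ℝ) ≤ ((2 : ℤ) ^ k0 : ℤ) := by
      push_cast
      linarith
    exact_mod_cast h5
  have h5 : -(2 : ℤ) ^ k0 ≤ ⌊(gg k0 b0 n s u - u) / 2⌋ := by
    rw [Int.le_floor]
    push_cast
    linarith
  rw [mem_ball]
  have h6 : (2 : ℤ) ^ (k0 + 2) = 4 * 2 ^ k0 := by
    rw [pow_add]
    ring
  have hu2 : (u : ℤ) < 2 ^ k0 := by exact_mod_cast hu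
  simp only [Prod.fst_zero, Prod.snd_zero, Int.cast_natCast]
  push_cast
  rw [h6]
  refine ⟨⟨?_, ?_⟩, ?_, ?_⟩ <;> omega

/-! ### independence -/

/-- covariances vanish -/
lemma a4d_far {z v v' : V} {J J' j : ℕ} (hJ : J' + 8 ≤ J) (hj : j < J')
    (hv : v ∉ ball z (2 ^ (J + c0))) (hv' : v' ∈ ball z (3 * 2 ^ (J' + c0))) :
    kap j (v - v') = 0 ∧ kap j (v' - v) = 0 := by
  have h1 : (4 : ℤ) * 2 ^ j ≤ 2 * 2 ^ J' := by
    have : (2 : ℤ) ^ (j + 1) ≤ 2 ^ J' := pow_le_pow_right₀ (by norm_num) (by omega)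
    rw [pow_succ] at this
    linarith
  have h2 : (256 : ℤ) * 2 ^ J' ≤ 2 ^ J := by
    have : (2 : ℤ) ^ (J' + 8) ≤ 2 ^ J := pow_le_pow_right₀ (by norm_num) (by omega)
    rw [pow_add] at this
    linarith
  have h0 : (0 : ℤ) < 2 ^ J' := by positivity
  rw [mem_ball] at hv hv'
  unfold c0 at hv hv'
  push_cast at hv hv'
  rw [pow_add] at hv hv'
  have key : (4 : ℤ) * 2 ^ j ≤ |v.1 - v'.1| + |v.2 - v'.2| := by
    by_contra hlt
    push Not at hlt
    apply hv
    have h5 := abs_nonneg (v.1 - v'.1)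
    have h6 := abs_nonneg (v.2 - v'.2)
    have h7 := neg_abs_le (v.1 - v'.1)
    have h8 := le_abs_self (v.1 - v'.1)
    have h9 := neg_abs_le (v.2 - v'.2)
    have h10 := le_abs_self (v.2 - v'.2)
    obtain ⟨⟨ha, hb⟩, hc, hd⟩ := hv'
    refine ⟨⟨?_, ?_⟩, ?_, ?_⟩ <;> linarith
  constructor
  · apply kap_far
    simpa using key
  · apply kap_far
    rw [abs_sub_comm v.1, abs_sub_comm v.2] at key
    simpa using key

/-- the index types of the groups of variables -/
abbrev a4d_β (k0 : ℕ) (W : Finset V) (z : V) (m : ℕ) (J : ℕ → ℕ) : Option (Fin m) → Type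
  | none => {p : Fin k0 × W // J 0 ≤ (p.1 : ℕ)}
  | some i => {v : V // v ∈ ball z (3 * 2 ^ (J i + c0)) \ ball z (2 ^ (J i + c0))}

lemma a4d_ind {k0 : ℕ} {W : Finset V} {Ω : Type} [MeasurableSpace Ω] {μ : Measure Ω}
    [IsProbabilityMeasure μ] {X : ℕ → V → Ω → ℝ} (hX : IsLay k0 W μ X) {y0 q : ℝ} {Cs m : ℕ}
    {J : ℕ → ℕ} (hJk : J 0 ≤ k0) (hJ : ∀ i, i + 1 < m → J (i + 1) + 8 ≤ J i) (z : V)
    (hz : ball z (3 * 2 ^ (J 0 + c0)) ⊆ W) (hPF : ∀ i < m, PF (J i + c0) y0 Cs q)
    (SA : Set ({p : Fin k0 × W // J 0 ≤ (p.1 : ℕ)} → ℝ)) (hSA : MeasurableSet SA) :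
    μ ({ω | (fun p : {p : Fin k0 × W // J 0 ≤ (p.1 : ℕ)} => X p.1.1 p.1.2 ω) ∈ SA} ∩
      {ω | ∀ i < m, ¬ Nice (fun v => ∑ j ∈ Finset.range (J i), X j v ω) y0 z (J i + c0) Cs}) ≤
      μ {ω | (fun p : {p : Fin k0 × W // J 0 ≤ (p.1 : ℕ)} => X p.1.1 p.1.2 ω) ∈ SA} *
        ENNReal.ofReal q ^ m := by
  -- monotonicity of the scales
  have hJm : ∀ i i' : ℕ, i < i' → i' < m → J i' + 8 ≤ J i := by
    intro i i' hii
    induction i', hii using Nat.le_induction with
    | base => intro h; exact hJ i h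
    | succ n hn ih =>
      intro h
      have h1 := ih (by omega)
      have h2 := hJ n h
      omega
  have hJ0 : ∀ i < m, J i ≤ J 0 := by
    intro i hi
    rcases Nat.eq_zero_or_pos i with h | h
    · rw [h]
    · have := hJm 0 i h hi
      omega
  have hsub : ∀ i < m, ball z (3 * 2 ^ (J i + c0)) ⊆ W := by
    intro i hi
    refine (ball_mono ?_).trans hz
    have : 2 ^ (J i + c0) ≤ 2 ^ (J 0 + c0) :=
      Nat.pow_le_pow_right (by norm_num) (by have := hJ0 i hi; omega)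
    omega
  -- the joint family
  set A : (Σ a : Option (Fin m), a4d_β k0 W z m J a) → Fin k0 × W → ℝ := fun k p =>
    match k with
    | ⟨none, p0⟩ => if p = p0.1 then 1 else 0
    | ⟨some i, v⟩ => if (p.1 : ℕ) < J i ∧ (p.2 : V) = v.1 then 1 else 0 with hA
  have hlin := GF.linear hX A
  have hfin : ∀ a, Finite (a4d_β k0 W z m J a) := by
    intro a
    rcases a with _ | i
    · show Finite {p : Fin k0 × W // J 0 ≤ (p.1 : ℕ)}
      infer_instance
    · show Finite {v : V // v ∈ ball z (3 * 2 ^ (J i + c0)) \ ball z (2 ^ (J i + c0))}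
      infer_instance
  have hindep := GF.iIndep hlin (fun (a : Option (Fin m)) (b : a4d_β k0 W z m J a) =>
    (⟨a, b⟩ : Σ a : Option (Fin m), a4d_β k0 W z m J a)) (by
      intro a a' haa b b'
      refine Finset.sum_eq_zero fun p _ => Finset.sum_eq_zero fun p' _ => ?_
      by_cases hpp : p.1 = p'.1
      swap
      · rw [if_neg hpp, mul_zero]
      rw [if_pos hpp]
      rcases a with _ | i <;> rcases a' with _ | i'
      · exact absurd rfl haa
      · simp only [hA]
        by_cases h1 : p = b.1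
        · by_cases h2 : (p'.1 : ℕ) < J i' ∧ (p'.2 : V) = b'.1
          · exfalso
            have h3 := b.2
            rw [← h1, hpp] at h3
            have h4 := hJ0 i' i'.2
            omega
          · rw [if_neg h2]; ring
        · rw [if_neg h1]; ring
      · simp only [hA]
        by_cases h1 : p' = b'.1
        · by_cases h2 : (p.1 : ℕ) < J i ∧ (p.2 : V) = b.1
          · exfalso
            have h3 := b'.2
            rw [← h1, ← hpp] at h3
            have h4 := hJ0 i i.2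
            omega
          · rw [if_neg h2]; ring
        · rw [if_neg h1]; ring
      · simp only [hA]
        by_cases h1 : (p.1 : ℕ) < J i ∧ (p.2 : V) = b.1
        swap
        · rw [if_neg h1]; ring
        by_cases h2 : (p'.1 : ℕ) < J i' ∧ (p'.2 : V) = b'.1
        swap
        · rw [if_neg h2]; ring
        have hb := Finset.mem_sdiff.1 b.2
        have hb' := Finset.mem_sdiff.1 b'.2
        have hne : (i : ℕ) ≠ i' := fun h => haa (by rw [Fin.ext h])
        rw [h1.2, h2.2]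
        rcases lt_or_gt_of_ne hne with h | h
        · have := (a4d_far (hJm i i' h i'.2) (show (p.1 : ℕ) < J i' by rw [hpp]; exact h2.1)
            hb.2 hb'.1).1
          rw [this, mul_zero]
        · have := (a4d_far (hJm i' i h i.2) h1.1 hb'.2 hb.1).2
          rw [this, mul_zero])
  -- the random variables
  have hval0 : ∀ ω (p0 : {p : Fin k0 × W // J 0 ≤ (p.1 : ℕ)}),
      ∑ p : Fin k0 × W, A ⟨none, p0⟩ p * X p.1 p.2 ω = X p0.1.1 p0.1.2 ω := by
    intro ω p0
    simp only [hA]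
    rw [Finset.sum_eq_single p0.1]
    · simp
    · intro p _ hp
      rw [if_neg hp, zero_mul]
    · intro h
      exact absurd (Finset.mem_univ _) h
  have hval1 : ∀ ω (i : Fin m)
      (v : {v : V // v ∈ ball z (3 * 2 ^ (J i + c0)) \ ball z (2 ^ (J i + c0))}),
      ∑ p : Fin k0 × W, A ⟨some i, v⟩ p * X p.1 p.2 ω =
        ∑ j ∈ Finset.range (J i), X j v.1 ω := by
    intro ω i v
    have h1 := hJ0 i i.2
    have hvW : v.1 ∈ W := hsub i i.2 (Finset.mem_sdiff.1 v.2).1
    exact sum_sel (show J i ≤ k0 by omega) hvW (fun j v => X j v ω)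
  set ex : (i : Fin m) → ({v : V // v ∈ ball z (3 * 2 ^ (J i + c0)) \ ball z (2 ^ (J i + c0))} → ℝ) →
    V → ℝ := fun i x v => if hv : v ∈ ball z (3 * 2 ^ (J i + c0)) \ ball z (2 ^ (J i + c0)) then
      x ⟨v, hv⟩ else 0 with hex
  have hexm : ∀ i, Measurable (ex i) := by
    intro i
    refine measurable_pi_iff.2 (fun v => ?_)
    rw [hex]
    by_cases hv : v ∈ ball z (3 * 2 ^ (J i + c0)) \ ball z (2 ^ (J i + c0))
    · simp only [dif_pos hv]; exact measurable_pi_apply _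
    · simp only [dif_neg hv]; exact measurable_const
  set SS : (a : Option (Fin m)) → Set (a4d_β k0 W z m J a → ℝ) := fun a =>
    match a with
    | none => SA
    | some i => {x | ¬ Nice (ex i x) y0 z (J i + c0) Cs} with hSS
  have hSSm : ∀ a, MeasurableSet (SS a) := by
    intro a
    rcases a with _ | i
    · exact hSA
    · exact (hexm i (meas_Nice y0 z (J i + c0) Cs)).compl
  have hprod := hindep.meas_iInter (s := fun a => (fun ω (b : a4d_β k0 W z m J a) =>
    ∑ p : Fin k0 × W, A ⟨a, b⟩ p * X p.1 p.2 ω) ⁻¹' SS a) (fun a => ⟨SS a, hSSm a, rfl⟩)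
  have hset0 : (fun ω (b : a4d_β k0 W z m J none) =>
      ∑ p : Fin k0 × W, A ⟨none, b⟩ p * X p.1 p.2 ω) ⁻¹' SS none =
      {ω | (fun p : {p : Fin k0 × W // J 0 ≤ (p.1 : ℕ)} => X p.1.1 p.1.2 ω) ∈ SA} := by
    ext ω
    simp only [Set.mem_preimage, Set.mem_ofPred_eq]
    have : (fun b : a4d_β k0 W z m J none => ∑ p : Fin k0 × W, A ⟨none, b⟩ p * X p.1 p.2 ω) =
        fun p : {p : Fin k0 × W // J 0 ≤ (p.1 : ℕ)} => X p.1.1 p.1.2 ω := by
      funext b
      exact hval0 ω b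
    rw [this]
  have hset1 : ∀ i : Fin m, (fun ω (b : a4d_β k0 W z m J (some i)) =>
      ∑ p : Fin k0 × W, A ⟨some i, b⟩ p * X p.1 p.2 ω) ⁻¹' SS (some i) =
      {ω | ¬ Nice (fun v => ∑ j ∈ Finset.range (J i), X j v ω) y0 z (J i + c0) Cs} := by
    intro i
    ext ω
    simp only [Set.mem_preimage, Set.mem_ofPred_eq, hSS]
    have : (fun b : a4d_β k0 W z m J (some i) => ∑ p : Fin k0 × W, A ⟨some i, b⟩ p * X p.1 p.2 ω) =
        fun v : {v : V // v ∈ ball z (3 * 2 ^ (J i + c0)) \ ball z (2 ^ (J i + c0))} =>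
          ∑ j ∈ Finset.range (J i), X j v.1 ω := by
      funext b
      exact hval1 ω i b
    rw [this]
    have hag : ∀ v, v ∈ Ann z (J i + c0) → ex i (fun v => ∑ j ∈ Finset.range (J i), X j v.1 ω) v =
        ∑ j ∈ Finset.range (J i), X j v ω := by
      intro v hv
      rw [hex]
      simp only
      rw [dif_pos (Finset.mem_sdiff.2 ⟨hv.1, hv.2⟩)]
    exact not_congr ⟨Nice.congr hag, Nice.congr (fun v hv => (hag v hv).symm)⟩
  have hinter : ({ω | (fun p : {p : Fin k0 × W // J 0 ≤ (p.1 : ℕ)} => X p.1.1 p.1.2 ω) ∈ SA} ∩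
      {ω | ∀ i < m, ¬ Nice (fun v => ∑ j ∈ Finset.range (J i), X j v ω) y0 z (J i + c0) Cs}) =
      ⋂ a : Option (Fin m), (fun ω (b : a4d_β k0 W z m J a) =>
        ∑ p : Fin k0 × W, A ⟨a, b⟩ p * X p.1 p.2 ω) ⁻¹' SS a := by
    ext ω
    rw [Set.mem_iInter, Option.forall, hset0]
    simp only [hset1, Set.mem_inter_iff, Set.mem_ofPred_eq]
    refine and_congr_right fun _ => ?_
    exact ⟨fun h i => h i i.2, fun h i hi => h ⟨i, hi⟩⟩
  rw [hinter, hprod, Fintype.prod_option, hset0]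
  gcongr
  calc _ ≤ ∏ i : Fin m, ENNReal.ofReal q := by
        refine Finset.prod_le_prod' fun i _ => ?_
        rw [hset1]
        have h1 := hJ0 i i.2
        refine PF.use (hPF i i.2) ?_
        have := lay_sum hX (show J i ≤ k0 by omega) (hsub i i.2)
        rwa [show J i + c0 - c0 = J i by omega]
    _ = ENNReal.ofReal q ^ m := by simp

theorem est4 {k0 b0 b b' u : ℕ} (hb0 : 16 ^ 10 ≤ b0) (hb : b ≤ nlev k0 b0) (hu : u < 2 ^ k0)
    {Ω : Type} [MeasurableSpace Ω] {μ : Measure Ω} [IsProbabilityMeasure μ]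
    {X : ℕ → V → Ω → ℝ} (hX : IsLay k0 (ball 0 (2 ^ (k0 + 8))) μ X) {y0 : ℝ} {Cs : ℕ}
    (hPF : ∀ k < k0 + c0, PF k y0 Cs q0) :
    μ {ω | ∀ b'', b' ≤ b'' → b'' < b → ¬ Op (fun j v => X j v ω) k0 b0 y0 Cs b b'' u} ≤
      ENNReal.ofReal ((2 * q0) ^ (b - b')) := by
  rcases le_or_gt b b' with hbb | hbb
  · rw [show b - b' = 0 by omega, pow_zero, ENNReal.ofReal_one]
    exact prob_le_one
  set W : Finset V := ball 0 (2 ^ (k0 + 8)) with hW
  set m := b - b' with hm
  set J : ℕ → ℕ := fun i => jb k0 b0 (b' + i) with hJdef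
  set u' := rdn (jb k0 b0 b) u with hu'
  have hu'u : u' ≤ u := by
    rw [hu']
    unfold rdn
    exact Nat.mul_div_le u _
  have hib : ∀ l < nlev k0 b0, ib k0 b0 l + 36 ≤ k0 := by
    intro l hl
    have h1 := lt_nlev.1 hl
    have h2 := a4d_eb_ge (b := l) hb0
    unfold ib
    omega
  have hjb : ∀ i < m, J i = ib k0 b0 (b' + i) := by
    intro i hi
    simp only [hJdef]
    unfold jb
    rw [if_pos (by omega)]
  have hJ : ∀ i, i + 1 < m → J (i + 1) + 8 ≤ J i := by
    intro i hi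
    rw [hjb i (by omega), hjb (i + 1) hi]
    have h1 := a4d_eb_mono (b0 := b0) (show b' + i ≤ b' + (i + 1) by omega)
    have h2 := lt_nlev.1 (show b' + (i + 1) < nlev k0 b0 by omega)
    unfold ib
    omega
  have hJ0 : J 0 = ib k0 b0 b' := hjb 0 (by omega)
  have hJ0k : J 0 + 36 ≤ k0 := by
    rw [hJ0]
    exact hib b' (by omega)
  have hPF' : ∀ i < m, PF (J i + c0) y0 Cs q0 := by
    intro i hi
    apply hPF
    have := hib (b' + i) (by omega)
    rw [hjb i hi]
    omega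
  -- combination of the signs
  set cmb : (Fin (b' + 1) → Bool) → (Fin m → Bool) → ℕ → Bool := fun t1 t2 l =>
    if h : l < b' + 1 then t1 ⟨l, h⟩ else
      if h' : l - (b' + 1) < m then t2 ⟨l - (b' + 1), h'⟩ else false with hcmb
  set ex1 : (Fin (b' + 1) → Bool) → ℕ → Bool := fun t1 l =>
    if h : l < b' + 1 then t1 ⟨l, h⟩ else false with hex1
  set zt : (Fin (b' + 1) → Bool) → (Fin m → Bool) → V := fun t1 t2 =>
    zz k0 b0 (nd k0 b0 b) (cmb t1 t2) u' with hzt
  -- the restricted field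
  set EX : ({p : Fin k0 × W // J 0 ≤ (p.1 : ℕ)} → ℝ) → ℕ → V → ℝ := fun x j v =>
    if h : ∃ (hj : j < k0) (hv : v ∈ W), J 0 ≤ j then
      x ⟨⟨⟨j, h.choose⟩, ⟨v, h.choose_spec.choose⟩⟩, h.choose_spec.choose_spec⟩ else 0 with hEX
  have hEXm : ∀ j v, Measurable (fun x => EX x j v) := by
    intro j v
    simp only [hEX]
    split_ifs with h
    · exact measurable_pi_apply _
    · exact measurable_const
  have hEXv : ∀ ω j v, j < k0 → v ∈ W → J 0 ≤ j →
      EX (fun p => X p.1.1 p.1.2 ω) j v = X j v ω := by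
    intro ω j v h1 h2 h3
    simp only [hEX]
    rw [dif_pos ⟨h1, h2, h3⟩]
  have hsgA : ∀ ω, sg (EX (fun p => X p.1.1 p.1.2 ω)) k0 b0 u' (b' + 1) =
      sg (fun j v => X j v ω) k0 b0 u' (b' + 1) := by
    intro ω
    refine a4d_sg_congr fun l hl v hv => ?_
    have h1 := hib l (by omega)
    refine hEXv ω _ v (by omega) ?_ ?_
    · exact ball_mono (Nat.pow_le_pow_right (by norm_num) (by omega)) hv
    · rw [hJ0]
      have h2 := a4d_eb_mono (b0 := b0) (show l ≤ b' by omega)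
      unfold ib
      omega
  set SA : (Fin (b' + 1) → Bool) → Set ({p : Fin k0 × W // J 0 ≤ (p.1 : ℕ)} → ℝ) := fun t1 =>
    {x | sg (EX x) k0 b0 u' (b' + 1) = ex1 t1} with hSA
  have hSAm : ∀ t1, MeasurableSet (SA t1) := fun t1 => a4d_sg_meas hEXm _ _ _ _ _
  -- the events
  set EA : (Fin (b' + 1) → Bool) → Set Ω := fun t1 =>
    {ω | (fun p : {p : Fin k0 × W // J 0 ≤ (p.1 : ℕ)} => X p.1.1 p.1.2 ω) ∈ SA t1} with hEA
  set EB : (Fin (b' + 1) → Bool) → (Fin m → Bool) → Set Ω := fun t1 t2 =>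
    {ω | ∀ i < m, ¬ Nice (fun v => ∑ j ∈ Finset.range (J i), X j v ω) y0 (zt t1 t2) (J i + c0) Cs}
    with hEB
  have hcover : {ω | ∀ b'', b' ≤ b'' → b'' < b → ¬ Op (fun j v => X j v ω) k0 b0 y0 Cs b b'' u} ⊆
      ⋃ t1 : Fin (b' + 1) → Bool, ⋃ t2 : Fin m → Bool, EA t1 ∩ EB t1 t2 := by
    intro ω hω
    simp only [Set.mem_iUnion]
    have hn : b' + 1 ≤ nd k0 b0 b := by
      unfold nd
      omega
    refine ⟨fun l => sg (fun j v => X j v ω) k0 b0 u' (b' + 1) l,
      fun i => sg (fun j v => X j v ω) k0 b0 u' (nd k0 b0 b) (b' + 1 + i), ?_, ?_⟩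
    · simp only [hEA, hSA, Set.mem_ofPred_eq]
      rw [hsgA ω]
      funext l
      simp only [hex1]
      split_ifs with h
      · rfl
      · exact sg_false _ (by omega)
    · simp only [hEB, Set.mem_ofPred_eq]
      intro i hi
      have h1 := hω (b' + i) (by omega) (by omega)
      unfold Op loc at h1
      have hz : zt (fun l => sg (fun j v => X j v ω) k0 b0 u' (b' + 1) l)
          (fun i => sg (fun j v => X j v ω) k0 b0 u' (nd k0 b0 b) (b' + 1 + i)) =
          zz k0 b0 (nd k0 b0 b) (sg (fun j v => X j v ω) k0 b0 u' (nd k0 b0 b)) u' := by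
        simp only [hzt]
        congr 1
        funext l
        simp only [hcmb]
        split_ifs with h2 h3
        · exact (sg_stable _ h2 hn).symm
        · congr 1
          omega
        · refine (sg_false _ ?_).symm
          unfold nd
          omega
      rw [hz]
      exact h1
  have hbound : ∀ t1 t2, μ (EA t1 ∩ EB t1 t2) ≤ μ (EA t1) * ENNReal.ofReal q0 ^ m := by
    intro t1 t2
    refine a4d_ind hX (by omega) hJ (zt t1 t2) ?_ hPF' (SA t1) (hSAm t1)
    intro v hv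
    have h1 : zt t1 t2 ∈ ball 0 (2 ^ (k0 + 2)) :=
      a4d_zz hb0 (by unfold nd; omega) (by omega) _
    refine ball_mono ?_ (mem_ball_trans h1 hv)
    have h2 : 2 ^ (J 0 + c0) ≤ 2 ^ k0 := Nat.pow_le_pow_right (by norm_num) (by unfold c0; omega)
    have h3 : 2 ^ (k0 + 2) = 4 * 2 ^ k0 := by rw [pow_add]; ring
    have h4 : 2 ^ (k0 + 8) = 256 * 2 ^ k0 := by rw [pow_add]; ring
    rw [h3, h4]
    omega
  have hEAm : ∀ t1, MeasurableSet (EA t1) := by
    intro t1
    have h1 : Measurable (fun ω (p : {p : Fin k0 × W // J 0 ≤ (p.1 : ℕ)}) => X p.1.1 p.1.2 ω) :=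
      measurable_pi_iff.2 fun p => hX.meas p.1
    exact h1 (hSAm t1)
  have hsum : ∑ t1, μ (EA t1) ≤ 1 := by
    rw [← measure_biUnion_finset]
    · exact prob_le_one
    · intro t1 _ t2 _ hne
      refine Set.disjoint_left.2 fun ω h1 h2 => hne ?_
      simp only [hEA, hSA, Set.mem_ofPred_eq] at h1 h2
      rw [h1] at h2
      funext l
      have h3 := congrFun h2 l
      simp only [hex1, Fin.is_lt, dite_true, Fin.eta] at h3
      exact h3
    · intro t1 _
      exact hEAm t1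
  calc _ ≤ ∑ t1 : Fin (b' + 1) → Bool, ∑ t2 : Fin m → Bool, μ (EA t1 ∩ EB t1 t2) := by
        refine (measure_mono hcover).trans ((measure_iUnion_fintype_le _ _).trans ?_)
        exact Finset.sum_le_sum fun t1 _ => measure_iUnion_fintype_le _ _
    _ ≤ ∑ t1 : Fin (b' + 1) → Bool, ∑ t2 : Fin m → Bool, μ (EA t1) * ENNReal.ofReal q0 ^ m :=
        Finset.sum_le_sum fun t1 _ => Finset.sum_le_sum fun t2 _ => hbound t1 t2
    _ = (∑ t1 : Fin (b' + 1) → Bool, μ (EA t1)) * (2 ^ m * ENNReal.ofReal q0 ^ m) := by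
        rw [Finset.sum_mul]
        refine Finset.sum_congr rfl fun t1 _ => ?_
        rw [Finset.sum_const, Finset.card_univ, Fintype.card_fun, Fintype.card_bool,
          Fintype.card_fin, nsmul_eq_mul]
        push_cast
        ring
    _ ≤ 1 * (2 ^ m * ENNReal.ofReal q0 ^ m) := by gcongr
    _ = ENNReal.ofReal ((2 * q0) ^ m) := by
        have hq : 0 ≤ q0 := by unfold q0; positivity
        rw [one_mul, ENNReal.ofReal_pow (by positivity), ENNReal.ofReal_mul (by norm_num), mul_pow,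
          ENNReal.ofReal_ofNat]

end Pool.H92.GFL
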