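import Pool.Agent.helper92.GFL.Defs3
import Pool.Agent.helper92.GFL.A1
import Pool.Agent.helper92.GFL.A2
import Pool.Agent.helper92.GFL.L1
import Pool.Agent.helper92.GFL.L1b

namespace Pool.H92.GFL

open Function Finset MeasureTheory ProbabilityTheory Pool.H92.GFF
open scoped Classical ENNReal

lemma a4s_sum {W S : Finset V} (hS : S ⊆ W) (F : V → ℝ) :
    ∑ i : W, (if (i : V) ∈ S then (1 : ℝ) else 0) * F i = ∑ v ∈ S, F v := by
  rw [Finset.sum_coe_sort W (fun v => (if v ∈ S then (1 : ℝ) else 0) * F v)]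
  simp only [ite_mul, one_mul, zero_mul]
  rw [Finset.sum_ite_mem, Finset.inter_eq_right.2 hS]

lemma a4s_pair {k0 j : ℕ} (hj : j < k0) {W : Finset V} {Ω : Type} [MeasurableSpace Ω]
    {μ : Measure Ω} [IsProbabilityMeasure μ] {X : ℕ → V → Ω → ℝ} (hX : IsLay k0 W μ X)
    {z : V} (hz : z ∈ W) {S T : Finset V} (hS : S ⊆ W) (hT : T ⊆ W) :
    HasGaussianLaw (fun ω => (X j z ω, ∑ v ∈ S, X j v ω - ∑ v ∈ T, X j v ω)) μ ∧
      ∫ ω, X j z ω ∂μ = 0 ∧ ∫ ω, (∑ v ∈ S, X j v ω - ∑ v ∈ T, X j v ω) ∂μ = 0 ∧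
      Var[X j z; μ] = kap j 0 ∧
      cov[X j z, fun ω => ∑ v ∈ S, X j v ω - ∑ v ∈ T, X j v ω; μ] =
        ∑ v ∈ S, kap j (z - v) - ∑ v ∈ T, kap j (z - v) ∧
      Var[fun ω => ∑ v ∈ S, X j v ω - ∑ v ∈ T, X j v ω; μ] ≤
        4 ^ j / 4 * ((S.card : ℝ) + T.card) ∧
      (∑ v ∈ S, kap j (z - v) - ∑ v ∈ T, kap j (z - v) ≠ 0 →
        0 < Var[fun ω => ∑ v ∈ S, X j v ω - ∑ v ∈ T, X j v ω; μ]) := by
  have h1 : GF μ (fun v : W => X j v) (fun x y => kap j ((x : V) - (y : V))) := by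
    have := GF.comp hX (fun v : W => ((⟨j, hj⟩ : Fin k0), v))
    simpa using this
  set A : Bool → W → ℝ := fun t i => if t then (if (i : V) ∈ ({z} : Finset V) then (1 : ℝ) else 0)
    else (if (i : V) ∈ S then (1 : ℝ) else 0) - (if (i : V) ∈ T then (1 : ℝ) else 0) with hA
  have h2 := h1.linear A
  have hz' : ({z} : Finset V) ⊆ W := by simpa using hz
  have et : ∀ F : V → ℝ, ∑ i : W, A true i * F i = F z := by
    intro F
    have := a4s_sum hz' F
    rw [Finset.sum_singleton] at this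
    rw [← this]
    rfl
  have ef : ∀ F : V → ℝ, ∑ i : W, A false i * F i = ∑ v ∈ S, F v - ∑ v ∈ T, F v := by
    intro F
    rw [← a4s_sum hS F, ← a4s_sum hT F, ← Finset.sum_sub_distrib]
    refine Finset.sum_congr rfl fun i _ => ?_
    rw [← sub_mul]
    rfl
  have e1 : (fun ω => ∑ i : W, A true i * X j i ω) = X j z := by
    funext ω; exact et (fun v => X j v ω)
  have e2 : (fun ω => ∑ i : W, A false i * X j i ω) =
      fun ω => ∑ v ∈ S, X j v ω - ∑ v ∈ T, X j v ω := by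
    funext ω; exact ef (fun v => X j v ω)
  have m1 := h2.meas true
  have m2 := h2.meas false
  have L1 := h2.memLp_L1 true
  have L2 := h2.memLp_L1 false
  have c11 := h2.cov true true
  have c12 := h2.cov true false
  have c22 := h2.cov false false
  have i1 := h2.mean true
  have i2 := h2.mean false
  have g12 := h2.gauss.hasGaussianLaw_prodMk (s := true) (t := false)
  have e3 : (fun ω => (∑ i : W, A true i * X j i ω, ∑ i : W, A false i * X j i ω)) =
      fun ω => (X j z ω, ∑ v ∈ S, X j v ω - ∑ v ∈ T, X j v ω) := by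
    funext ω
    exact Prod.ext (et (fun v => X j v ω)) (ef (fun v => X j v ω))
  simp only [e1, e2] at m1 m2 L1 L2 c11 c12 c22 i1 i2
  rw [e3] at g12
  have c12' : cov[X j z, fun ω => ∑ v ∈ S, X j v ω - ∑ v ∈ T, X j v ω; μ] =
        ∑ v ∈ S, kap j (z - v) - ∑ v ∈ T, kap j (z - v) := by
    rw [c12]
    have h6 : ∀ i : W, ∑ j' : W, A true i * A false j' * kap j ((i : V) - j') =
        A true i * (∑ v ∈ S, kap j ((i : V) - v) - ∑ v ∈ T, kap j ((i : V) - v)) := by
      intro i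
      have h5 : ∑ j' : W, A false j' * kap j ((i : V) - j') =
        ∑ v ∈ S, kap j ((i : V) - v) - ∑ v ∈ T, kap j ((i : V) - v) :=
        ef (fun v => kap j ((i : V) - v))
      rw [← h5, Finset.mul_sum]
      exact Finset.sum_congr rfl fun j' _ => by ring
    rw [Finset.sum_congr rfl (fun i _ => h6 i)]
    exact et (fun w => ∑ v ∈ S, kap j (w - v) - ∑ v ∈ T, kap j (w - v))
  refine ⟨g12, i1, i2, ?_, c12', ?_, ?_⟩
  · rw [← covariance_self m1.aemeasurable, c11]
    have h6 : ∀ i : W, ∑ j' : W, A true i * A true j' * kap j ((i : V) - j') =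
        A true i * kap j ((i : V) - z) := by
      intro i
      have h5 : ∑ j' : W, A true j' * kap j ((i : V) - j') = kap j ((i : V) - z) :=
        et (fun v => kap j ((i : V) - v))
      rw [← h5, Finset.mul_sum]
      exact Finset.sum_congr rfl fun j' _ => by ring
    rw [Finset.sum_congr rfl (fun i _ => h6 i)]
    have h7 : ∑ i : W, A true i * kap j ((i : V) - z) = kap j (z - z) :=
      et (fun w => kap j (w - z))
    rw [h7, sub_self]
  · rw [← covariance_self m2.aemeasurable, c22]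
    set a : V → ℝ := fun v => (if v ∈ S then (1 : ℝ) else 0) - (if v ∈ T then (1 : ℝ) else 0)
      with ha
    have hAa : ∀ i : W, A false i = a i := fun i => rfl
    have k1 := kap_psd_le j W a
    have k2 : ∑ i : W, ∑ j' : W, A false i * A false j' * kap j ((i : V) - j') =
        ∑ x ∈ W, ∑ y ∈ W, a x * a y * kap j (x - y) := by
      rw [← Finset.sum_coe_sort W]
      refine Finset.sum_congr rfl fun i _ => ?_
      rw [← Finset.sum_coe_sort W]
      rfl
    rw [k2]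
    refine k1.trans ?_
    refine mul_le_mul_of_nonneg_left ?_ (by positivity)
    have k3 : ∀ x, a x ^ 2 ≤ (if x ∈ S then (1 : ℝ) else 0) + (if x ∈ T then (1 : ℝ) else 0) := by
      intro x
      simp only [ha]
      split_ifs <;> norm_num
    refine (Finset.sum_le_sum fun x _ => k3 x).trans ?_
    rw [Finset.sum_add_distrib, Finset.sum_ite_mem, Finset.sum_ite_mem,
      Finset.inter_eq_right.2 hS, Finset.inter_eq_right.2 hT]
    simp
  · intro hne
    rw [← c12'] at hne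
    by_contra hcon
    have h0 : Var[fun ω => ∑ v ∈ S, X j v ω - ∑ v ∈ T, X j v ω; μ] = 0 :=
      le_antisymm (not_lt.1 hcon) (variance_nonneg _ _)
    have h3 := ae_eq_integral_of_variance_eq_zero L2 h0
    apply hne
    rw [covariance]
    rw [← integral_zero Ω ℝ (μ := μ)]
    refine integral_congr_ae ?_
    filter_upwards [h3] with ω hω
    rw [hω, sub_self, mul_zero]

lemma a4s_viol_congr {k0 b0 b u : ℕ} {s s' : ℕ → Bool} (h : ∀ b'' ≤ b, s b'' = s' b'') :
    viol k0 b0 s u b ↔ viol k0 b0 s' u b := by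
  unfold viol
  have : ∑ b' ∈ (Finset.range (b + 1)).filter (fun b' => lb b0 b' = lb b0 b),
      (if s b' then cc k0 b' u else 0) =
      ∑ b' ∈ (Finset.range (b + 1)).filter (fun b' => lb b0 b' = lb b0 b),
      (if s' b' then cc k0 b' u else 0) := by
    refine Finset.sum_congr rfl fun i hi => ?_
    rw [Finset.mem_filter, Finset.mem_range] at hi
    rw [h i (by omega)]
  rw [this]

lemma a4s_viol_cell {k0 b0 b u u' : ℕ} {s : ℕ → Bool} (h : ∀ b'' ≤ b, cc k0 b'' u = cc k0 b'' u') :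
    viol k0 b0 s u b ↔ viol k0 b0 s u' b := by
  unfold viol
  have : ∑ b' ∈ (Finset.range (b + 1)).filter (fun b' => lb b0 b' = lb b0 b),
      (if s b' then cc k0 b' u else 0) =
      ∑ b' ∈ (Finset.range (b + 1)).filter (fun b' => lb b0 b' = lb b0 b),
      (if s b' then cc k0 b' u' else 0) := by
    refine Finset.sum_congr rfl fun i hi => ?_
    rw [Finset.mem_filter, Finset.mem_range] at hi
    rw [h i (by omega)]
  rw [this]

lemma a4s_gg_congr {k0 b0 b u : ℕ} {s s' : ℕ → Bool} (h : ∀ b'' < b, s b'' = s' b'') :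
    gg k0 b0 b s u = gg k0 b0 b s' u := by
  unfold gg
  refine Finset.sum_congr rfl fun i hi => ?_
  rw [h i (Finset.mem_range.1 hi)]

lemma a4s_strip_congr {k0 b0 b a c : ℕ} {s s' : ℕ → Bool} (h : ∀ b'' < b, s b'' = s' b'') :
    strip k0 b0 b a s c = strip k0 b0 b a s' c := by
  unfold strip
  simp only [a4s_gg_congr h]

lemma a4s_dec_congr (X : ℕ → V → ℝ) {k0 b0 b a : ℕ} {s s' : ℕ → Bool}
    (h : ∀ b'' < b, s b'' = s' b'') : dec X k0 b0 b a s = dec X k0 b0 b a s' := by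
  unfold dec
  simp only [a4s_strip_congr h]

lemma a4s_strip_sub {k0 b0 b a c : ℕ} {s : ℕ → Bool} :
    strip k0 b0 b a s c ⊆ ball 0 (2 ^ (k0 + 8)) := by
  intro v hv
  unfold strip at hv
  rw [Finset.mem_filter] at hv
  have h1 := hv.1
  rw [mem_ball] at h1 ⊢
  have h2 : (2 : ℤ) ^ (k0 + 2) ≤ 2 ^ (k0 + 8) := pow_le_pow_right₀ (by norm_num) (by omega)
  simp only [Prod.fst_zero, Prod.snd_zero] at h1 ⊢
  push_cast at h1 ⊢
  omega

lemma a4s_hb {k0 b0 b u : ℕ} (hlt : b < nlev k0 b0) :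
    0 ≤ hb k0 b0 b u ∧ hb k0 b0 b u ≤ 2 ^ k0 * (1 / 256) ^ b := by
  have h1 := lt_nlev.1 hlt
  refine ⟨by unfold GFL.hb; positivity, ?_⟩
  unfold GFL.hb
  have h2 : (8 : ℝ) / 2 ^ eb b0 b ≤ 8 :=
    div_le_self (by norm_num) (one_le_pow₀ (by norm_num))
  have h3 : (min (min (u % 2 ^ kb k0 b) (2 ^ kb k0 b / 8)) (2 ^ kb k0 b - u % 2 ^ kb k0 b) : ℕ) ≤
      2 ^ kb k0 b / 8 := (min_le_left _ _).trans (min_le_right _ _)
  have h4 : 8 * ((2 ^ kb k0 b / 8 : ℕ) : ℝ) ≤ 2 ^ kb k0 b := by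
    have : 8 * (2 ^ kb k0 b / 8) ≤ 2 ^ kb k0 b := Nat.mul_div_le _ _
    exact_mod_cast this
  have h5 : (2 : ℝ) ^ kb k0 b = 2 ^ k0 * (1 / 256) ^ b := by
    have e : k0 = kb k0 b + 8 * b := by unfold kb; omega
    conv_rhs => rw [e]
    rw [pow_add, pow_mul, mul_assoc, ← mul_pow]
    norm_num
  rw [← h5]
  refine le_trans (mul_le_mul h2 (Nat.cast_le.2 h3) (by positivity) (by norm_num)) h4

lemma a4s_gg {k0 b0 n u : ℕ} {s : ℕ → Bool} (hn : n ≤ nlev k0 b0) :
    0 ≤ gg k0 b0 n s u ∧ gg k0 b0 n s u ≤ 2 * 2 ^ k0 := by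
  unfold gg
  constructor
  · refine Finset.sum_nonneg fun b hb => ?_
    split_ifs
    · exact (a4s_hb (lt_of_lt_of_le (Finset.mem_range.1 hb) hn)).1
    · exact le_rfl
  · have h1 : ∀ b ∈ Finset.range n, (if s b then hb k0 b0 b u else 0) ≤
        2 ^ k0 * (1 / 256 : ℝ) ^ b := by
      intro b hlt
      split_ifs
      · exact (a4s_hb (lt_of_lt_of_le (Finset.mem_range.1 hlt) hn)).2
      · positivity
    refine (Finset.sum_le_sum h1).trans ?_
    rw [← Finset.mul_sum, mul_comm (2 : ℝ)]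
    refine mul_le_mul_of_nonneg_left ?_ (by positivity)
    rw [geom_sum_eq (by norm_num)]
    have : (0 : ℝ) ≤ (1 / 256) ^ n := by positivity
    rw [div_le_iff_of_neg (by norm_num)]
    linarith

lemma a4s_zz {k0 b0 n u : ℕ} {s : ℕ → Bool} (hn : n ≤ nlev k0 b0) (hu : u < 2 ^ k0) :
    zz k0 b0 n s u ∈ ball 0 (2 ^ (k0 + 8)) := by
  obtain ⟨h1, h2⟩ := a4s_gg (u := u) (s := s) hn
  unfold zz pt
  set g := gg k0 b0 n s u
  have hu' : (u : ℤ) < 2 ^ k0 := by exact_mod_cast hu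
  have hu0 : (0 : ℤ) ≤ u := by positivity
  have huR : (u : ℝ) < 2 ^ k0 := by exact_mod_cast hu
  have huR0 : (0 : ℝ) ≤ u := by positivity
  have f1 := Int.floor_le ((g - (u : ℤ)) / 2)
  have f2 := Int.lt_floor_add_one ((g - (u : ℤ)) / 2)
  set F := ⌊(g - (u : ℤ)) / 2⌋ with hF
  have f3 : F ≤ 2 ^ k0 := by
    have : (F : ℝ) ≤ 2 ^ k0 := by
      push_cast at f1
      linarith
    exact_mod_cast this
  have f4 : -(2 ^ k0) ≤ F + 1 := by
    have : -(2 : ℝ) ^ k0 ≤ (F : ℝ) + 1 := by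
      push_cast at f2
      linarith
    exact_mod_cast this
  have h8 : (2 : ℤ) ^ (k0 + 8) = 256 * 2 ^ k0 := by rw [pow_add]; ring
  have h9 : (1 : ℤ) ≤ 2 ^ k0 := one_le_pow₀ (by norm_num)
  rw [mem_ball]
  simp only [Prod.fst_zero, Prod.snd_zero]
  push_cast
  rw [h8]
  omega

/-- a point in octant 2 of the same cell -/
lemma a4s_oct {k0 b0 b u : ℕ} (hb : b < nlev k0 b0) (hu : u < 2 ^ k0) :
    ∃ u' < 2 ^ k0, u' / 2 ^ kb k0 b = u / 2 ^ kb k0 b ∧ oc k0 b u' = 2 ∧
      ∀ b'' < b, cc k0 b'' u = cc k0 b'' u' := by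
  have h1 := lt_nlev.1 hb
  set k := kb k0 b with hk
  have hk6 : 6 ≤ k := by rw [hk]; unfold kb; omega
  have hk0 : k0 = k + 8 * b := by rw [hk]; unfold kb; omega
  have e8 : 2 ^ k = 8 * 2 ^ (k - 3) := by
    rw [show (8 : ℕ) = 2 ^ 3 by norm_num, ← pow_add]
    congr 1; omega
  set p := 2 ^ (k - 3) with hp
  have hp0 : 0 < p := by positivity
  set a := u / 2 ^ k with ha
  have ha1 : a < 2 ^ (8 * b) := by
    rw [ha, Nat.div_lt_iff_lt_mul (by positivity), ← pow_add]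
    rw [hk0] at hu
    rwa [add_comm]
  set u' := 2 ^ k * a + 2 * p with hu'
  have c1 : u' / 2 ^ k = a := by
    rw [hu', Nat.mul_add_div (by positivity), Nat.div_eq_of_lt (by rw [e8]; omega), add_zero]
  refine ⟨u', ?_, c1, ?_, ?_⟩
  · have : 2 ^ k * (a + 1) ≤ 2 ^ k0 := by
      rw [hk0, pow_add]
      exact Nat.mul_le_mul_left _ ha1
    have h3 : u' < 2 ^ k * (a + 1) := by
      rw [hu', Nat.mul_add, e8]; omega
    omega
  · unfold oc
    rw [← hk, ← hp, hu', e8, show 8 * p * a + 2 * p = p * (8 * a + 2) by ring,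
      Nat.mul_div_cancel_left _ hp0]
    omega
  · intro b'' hb''
    have e : 2 ^ (kb k0 b'' - 3) = 2 ^ k * 2 ^ (kb k0 b'' - 3 - k) := by
      rw [← pow_add]
      congr 1
      have : k + 8 ≤ kb k0 b'' := by rw [hk]; unfold kb; omega
      omega
    have : u / 2 ^ (kb k0 b'' - 3) = u' / 2 ^ (kb k0 b'' - 3) := by
      rw [e, ← Nat.div_div_eq_div_mul, ← Nat.div_div_eq_div_mul, c1]
    unfold cc oc
    rw [this]

/-- half space containing the decision -/
lemma a4s_dec_sub (X : ℕ → V → ℝ) {k0 b0 b a : ℕ} {s : ℕ → Bool} {t : Bool}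
    (h : dec X k0 b0 b a s = t) :
    ∑ v ∈ strip k0 b0 b a s (if t then 1 else 0), X (ib k0 b0 b) v -
      ∑ v ∈ strip k0 b0 b a s (if t then 0 else 1), X (ib k0 b0 b) v ≤ 0 := by
  unfold dec at h
  cases t
  · have h' := of_decide_eq_false h
    simp only [Bool.false_eq_true, if_false]
    linarith [not_lt.1 h']
  · have h' := of_decide_eq_true h
    simp only [if_true]
    linarith

lemma a4s_ib {k0 b0 b : ℕ} (hb : b < nlev k0 b0) : ib k0 b0 b < k0 := by
  have h1 := lt_nlev.1 hb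
  unfold ib
  omega

lemma a4s_var_pos {k0 b0 b u : ℕ} {s : ℕ → Bool} (hb0 : 16 ^ 10 ≤ b0) (hb : b < nlev k0 b0)
    (hu : u < 2 ^ k0) (hs : ∀ b' < b, ¬ viol k0 b0 s u b') {Ω : Type} [MeasurableSpace Ω]
    {μ : Measure Ω} [IsProbabilityMeasure μ] {X : ℕ → V → Ω → ℝ}
    (hX : IsLay k0 (ball 0 (2 ^ (k0 + 8))) μ X) (t : Bool) :
    0 < Var[fun ω => ∑ v ∈ strip k0 b0 b (u / 2 ^ kb k0 b) s (if t then 1 else 0),
        X (ib k0 b0 b) v ω -
      ∑ v ∈ strip k0 b0 b (u / 2 ^ kb k0 b) s (if t then 0 else 1), X (ib k0 b0 b) v ω; μ] := by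
  obtain ⟨u', hu', h1, h2, h3⟩ := a4s_oct hb hu
  have hs' : ∀ b' < b, ¬ viol k0 b0 s u' b' := by
    intro b' hb'
    rw [← a4s_viol_cell (u := u) (fun b'' hb'' => h3 b'' (by omega))]
    exact hs b' hb'
  obtain ⟨k1, k2, k3⟩ := strip_cov (n := b + 1) hb0 hb (Nat.lt_succ_self b) hb hu' hs'
  have k3' := k3 (by rw [h2]; decide)
  rw [h1] at k1 k3'
  have hz := a4s_zz (s := s) (Nat.succ_le_of_lt hb) hu'
  refine (a4s_pair (a4s_ib hb) hX hz a4s_strip_sub a4s_strip_sub).2.2.2.2.2.2 ?_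
  have h4 : (0 : ℝ) < 4 ^ ib k0 b0 b / 4 := by positivity
  cases t <;> cases hsb : s b <;> simp only [hsb, Bool.false_eq_true, if_false, if_true] at * <;>
    rw [k1, k3'] <;> simp

theorem dec_half {k0 b0 b u : ℕ} {s : ℕ → Bool} (hb0 : 16 ^ 10 ≤ b0) (hb : b < nlev k0 b0)
    (hu : u < 2 ^ k0) (hs : ∀ b' < b, ¬ viol k0 b0 s u b') {Ω : Type} [MeasurableSpace Ω]
    {μ : Measure Ω} [IsProbabilityMeasure μ] {X : ℕ → V → Ω → ℝ}
    (hX : IsLay k0 (ball 0 (2 ^ (k0 + 8))) μ X) (t : Bool) :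
    μ {ω | dec (fun j v => X j v ω) k0 b0 b (u / 2 ^ kb k0 b) s = t} ≤
      ENNReal.ofReal (1 / 2) := by
  have hv := a4s_var_pos hb0 hb hu hs hX t
  have hz := a4s_zz (s := s) (Nat.succ_le_of_lt hb) hu
  obtain ⟨p1, p2, p3, p4, p5, p6, p7⟩ := a4s_pair (a4s_ib hb) hX hz
    (a4s_strip_sub (b0 := b0) (b := b) (a := u / 2 ^ kb k0 b) (s := s)
      (c := if t then 1 else 0))
    (a4s_strip_sub (b0 := b0) (b := b) (a := u / 2 ^ kb k0 b) (s := s)
      (c := if t then 0 else 1))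
  -- use the second coordinate only: pair (g, g)
  have hgg : HasGaussianLaw (fun ω =>
      ((fun ω => ∑ v ∈ strip k0 b0 b (u / 2 ^ kb k0 b) s (if t then 1 else 0),
        X (ib k0 b0 b) v ω -
      ∑ v ∈ strip k0 b0 b (u / 2 ^ kb k0 b) s (if t then 0 else 1), X (ib k0 b0 b) v ω) ω,
      (fun ω => ∑ v ∈ strip k0 b0 b (u / 2 ^ kb k0 b) s (if t then 1 else 0),
        X (ib k0 b0 b) v ω -
      ∑ v ∈ strip k0 b0 b (u / 2 ^ kb k0 b) s (if t then 0 else 1), X (ib k0 b0 b) v ω) ω)) μ := by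
    exact p1.map ((ContinuousLinearMap.snd ℝ ℝ ℝ).prod (ContinuousLinearMap.snd ℝ ℝ ℝ))
  have key := half_girsanov (θ := 0) (β := 0) hgg p3 p3 le_rfl le_rfl hv
    (by rw [zero_mul, covariance_self p1.snd.aemeasurable]; exact variance_nonneg _ _)
    (by norm_num)
  simp only [zero_mul, Real.exp_zero, ENNReal.ofReal_one] at key
  rw [setLIntegral_one] at key
  refine (measure_mono ?_).trans (key.trans (ENNReal.ofReal_le_ofReal (by norm_num)))
  intro ω hω
  exact a4s_dec_sub (fun j v => X j v ω) hω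

theorem dec_tilt {k0 b0 b n u : ℕ} {s : ℕ → Bool} (hb0 : 16 ^ 10 ≤ b0) (hb : b < nlev k0 b0)
    (hn : b < n) (hn' : n ≤ nlev k0 b0) (hu : u < 2 ^ k0) (hs : ∀ b' < b, ¬ viol k0 b0 s u b')
    {Ω : Type} [MeasurableSpace Ω] {μ : Measure Ω} [IsProbabilityMeasure μ] {X : ℕ → V → Ω → ℝ}
    (hX : IsLay k0 (ball 0 (2 ^ (k0 + 8))) μ X) {θ : ℝ} (hθ : 0 < θ) (hθ1 : θ ≤ 1) :
    ∫⁻ ω in {ω | dec (fun j v => X j v ω) k0 b0 b (u / 2 ^ kb k0 b) s = s b},
      ENNReal.ofReal (Real.exp (θ * X (ib k0 b0 b) (zz k0 b0 n s u) ω)) ∂μ ≤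
      ENNReal.ofReal (Real.exp (16 * θ ^ 2) * (1 / 2) * (1 -
        if oc k0 b u ∈ ({2, 3, 4, 5} : Finset ℕ) then θ / (200 * √(2 ^ eb b0 b)) else 0)) := by
  have hv := a4s_var_pos hb0 hb hu hs hX (s b)
  have hz := a4s_zz (s := s) hn' hu
  obtain ⟨p1, p2, p3, p4, p5, p6, p7⟩ := a4s_pair (a4s_ib hb) hX hz
    (a4s_strip_sub (b0 := b0) (b := b) (a := u / 2 ^ kb k0 b) (s := s)
      (c := if s b then 1 else 0))
    (a4s_strip_sub (b0 := b0) (b := b) (a := u / 2 ^ kb k0 b) (s := s)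
      (c := if s b then 0 else 1))
  obtain ⟨k1, k2, k3⟩ := strip_cov hb0 hb hn hn' hu hs
  rw [k1, sub_zero] at p5
  have hlt := lt_nlev.1 hb
  -- the coefficient
  set β : ℝ := if oc k0 b u ∈ ({2, 3, 4, 5} : Finset ℕ) then 1 / (80 * √(2 ^ eb b0 b)) else 0
    with hβ
  have hsq1 : (1 : ℝ) ≤ √(2 ^ eb b0 b) := by
    rw [Real.one_le_sqrt]; exact one_le_pow₀ (by norm_num)
  have hβ0 : 0 ≤ β := by rw [hβ]; split_ifs <;> positivity
  have hβ1 : β ≤ 1 := by
    rw [hβ]; split_ifs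
    · rw [div_le_one (by positivity)]; linarith
    · norm_num
  have hc : β * √(Var[fun ω => ∑ v ∈ strip k0 b0 b (u / 2 ^ kb k0 b) s (if s b then 1 else 0),
        X (ib k0 b0 b) v ω -
      ∑ v ∈ strip k0 b0 b (u / 2 ^ kb k0 b) s (if s b then 0 else 1), X (ib k0 b0 b) v ω; μ]) ≤
      cov[X (ib k0 b0 b) (zz k0 b0 n s u), fun ω =>
        ∑ v ∈ strip k0 b0 b (u / 2 ^ kb k0 b) s (if s b then 1 else 0), X (ib k0 b0 b) v ω -
      ∑ v ∈ strip k0 b0 b (u / 2 ^ kb k0 b) s (if s b then 0 else 1), X (ib k0 b0 b) v ω; μ] := by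
    rw [p5]
    by_cases ho : oc k0 b u ∈ ({2, 3, 4, 5} : Finset ℕ)
    · rw [k3 ho, hβ, if_pos ho]
      set j := ib k0 b0 b with hj
      have hcard : ((strip k0 b0 b (u / 2 ^ kb k0 b) s (if s b then 1 else 0)).card : ℝ) +
          ((strip k0 b0 b (u / 2 ^ kb k0 b) s (if s b then 0 else 1)).card : ℝ) ≤
          22 * 2 ^ (kb k0 b + j) := by
        have c1 : ((strip k0 b0 b (u / 2 ^ kb k0 b) s (if s b then 1 else 0)).card : ℝ) ≤
            11 * 2 ^ (kb k0 b + j) := by exact_mod_cast strip_card (s := s) hb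
        have c2 : ((strip k0 b0 b (u / 2 ^ kb k0 b) s (if s b then 0 else 1)).card : ℝ) ≤
            11 * 2 ^ (kb k0 b + j) := by exact_mod_cast strip_card (s := s) hb
        linarith
      have hkb : kb k0 b = j + eb b0 b + 6 := by
        rw [hj]; unfold kb ib; omega
      have hV := p6.trans (mul_le_mul_of_nonneg_left hcard (by positivity))
      have hbd : √(Var[fun ω => ∑ v ∈ strip k0 b0 b (u / 2 ^ kb k0 b) s (if s b then 1 else 0),
        X j v ω - ∑ v ∈ strip k0 b0 b (u / 2 ^ kb k0 b) s (if s b then 0 else 1),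
          X j v ω; μ]) ≤ 20 * √(2 ^ eb b0 b) * 4 ^ j := by
        refine Real.sqrt_le_iff.2 ⟨by positivity, hV.trans ?_⟩
        have e1 : (2 : ℝ) ^ (kb k0 b + j) = 4 ^ j * 2 ^ eb b0 b * 64 := by
          rw [hkb, show j + eb b0 b + 6 + j = (2 * j) + eb b0 b + 6 by ring, pow_add, pow_add,
            pow_mul]
          norm_num
        have e2 : √((2 : ℝ) ^ eb b0 b) ^ 2 = 2 ^ eb b0 b := Real.sq_sqrt (by positivity)
        rw [e1, mul_pow, mul_pow, e2]
        have e3 : (0 : ℝ) ≤ (4 ^ j) ^ 2 * 2 ^ eb b0 b := by positivity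
        nlinarith [e3]
      calc 1 / (80 * √(2 ^ eb b0 b)) * √(Var[fun ω => ∑ v ∈ strip k0 b0 b (u / 2 ^ kb k0 b) s
            (if s b then 1 else 0), X j v ω -
            ∑ v ∈ strip k0 b0 b (u / 2 ^ kb k0 b) s (if s b then 0 else 1), X j v ω; μ])
          ≤ 1 / (80 * √(2 ^ eb b0 b)) * (20 * √(2 ^ eb b0 b) * 4 ^ j) :=
            mul_le_mul_of_nonneg_left hbd (by positivity)
        _ = 4 ^ j / 4 := by
            have : √((2 : ℝ) ^ eb b0 b) ≠ 0 := by positivity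
            field_simp
            norm_num
    · rw [hβ, if_neg ho, zero_mul]
      exact k2
  have key := half_girsanov (θ := θ) (β := β) p1 p2 p3 hθ.le hβ0 hv hc
    (by nlinarith)
  refine ((lintegral_mono_set ?_).trans key).trans (ENNReal.ofReal_le_ofReal ?_)
  · intro ω hω
    exact a4s_dec_sub (fun j v => X j v ω) hω
  · rw [p4]
    have h32 := kap_zero_le (ib k0 b0 b)
    have e1 : Real.exp (θ ^ 2 * kap (ib k0 b0 b) 0 / 2) ≤ Real.exp (16 * θ ^ 2) :=
      Real.exp_le_exp.2 (by nlinarith [sq_nonneg θ])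
    have e2 : (1 / 2 : ℝ) * (1 - if oc k0 b u ∈ ({2, 3, 4, 5} : Finset ℕ) then
        θ / (200 * √(2 ^ eb b0 b)) else 0) = 1 / 2 - θ * β / 5 := by
      rw [hβ]
      split_ifs
      · have : √((2 : ℝ) ^ eb b0 b) ≠ 0 := by positivity
        field_simp
        ring
      · simp
    rw [mul_assoc, e2]
    refine mul_le_mul_of_nonneg_right e1 ?_
    nlinarith

lemma a4s_dec_meas {k0 b0 b a : ℕ} {s : ℕ → Bool} {t : Bool} (W : Finset V) :
    MeasurableSet {x : W → ℝ |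
      decide (∑ v ∈ strip k0 b0 b a s 1, (if h : v ∈ W then x ⟨v, h⟩
          else 0) < ∑ v ∈ strip k0 b0 b a s 0, (if h : v ∈ W then
            x ⟨v, h⟩ else 0)) = t} := by
  have hm : ∀ S : Finset V, Measurable (fun x : W → ℝ =>
      ∑ v ∈ S, (if h : v ∈ W then x ⟨v, h⟩ else 0)) := by
    intro S
    refine Finset.measurable_fun_sum _ fun v _ => ?_
    split_ifs with h
    · exact measurable_pi_apply _
    · exact measurable_const
  have h1 := measurableSet_lt (hm (strip k0 b0 b a s 1)) (hm (strip k0 b0 b a s 0))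
  cases t
  · have : {x : W → ℝ |
      decide (∑ v ∈ strip k0 b0 b a s 1, (if h : v ∈ W then x ⟨v, h⟩
          else 0) < ∑ v ∈ strip k0 b0 b a s 0, (if h : v ∈ W then
            x ⟨v, h⟩ else 0)) = false} =
      {x : W → ℝ |
      ∑ v ∈ strip k0 b0 b a s 1, (if h : v ∈ W then x ⟨v, h⟩
          else 0) < ∑ v ∈ strip k0 b0 b a s 0, (if h : v ∈ W then
            x ⟨v, h⟩ else 0)}ᶜ := by
      ext x
      simp only [decide_eq_false_iff_not, Set.mem_ofPred_eq, Set.mem_compl_iff]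
    rw [this]
    exact h1.compl
  · simpa only [decide_eq_true_eq] using h1

lemma a4s_dec_eq (X : ℕ → V → ℝ) {k0 b0 b a : ℕ} {s : ℕ → Bool} {W : Finset V}
    (hW : ∀ b a s c, strip k0 b0 b a s c ⊆ W) :
    dec X k0 b0 b a s =
      decide (∑ v ∈ strip k0 b0 b a s 1, (if h : v ∈ W then
        (fun w : W => X (ib k0 b0 b) w) ⟨v, h⟩
          else 0) < ∑ v ∈ strip k0 b0 b a s 0, (if h : v ∈ W then
            (fun w : W => X (ib k0 b0 b) w) ⟨v, h⟩ else 0)) := by
  unfold dec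
  have : ∀ c, ∑ v ∈ strip k0 b0 b a s c, (if h : v ∈ W then
        (fun w : W => X (ib k0 b0 b) w) ⟨v, h⟩ else 0) =
      ∑ v ∈ strip k0 b0 b a s c, X (ib k0 b0 b) v := by
    intro c
    refine Finset.sum_congr rfl fun v hv => ?_
    rw [dif_pos (hW _ _ _ _ hv)]
  rw [this, this]

lemma a4s_ext_lt {n b : ℕ} {s : Fin n → Bool} (h : b < n) : ext n s b = s ⟨b, h⟩ := by
  unfold GFL.ext; rw [dif_pos h]

lemma a4s_decide {P : Prop} (hP : P) (d : Bool) [Decidable (P ∧ d = true)] :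
    decide (P ∧ d = true) = d := by
  simp [hP]

/-- signs of the good configurations -/
lemma a4s_cover (X : ℕ → V → ℝ) {k0 b0 b u n : ℕ} (hb : b ≤ nlev k0 b0) (hn1 : n ≤ b + 1)
    (hn3 : ∀ b' < b, b' < n) (hG : ∀ b' < b, Gd3 X k0 b0 b' u) :
    ∃ s : Fin n → Bool, (∀ b' < b, ¬ viol k0 b0 (ext _ s) u b') ∧
      ∀ b' < n, dec X k0 b0 b' (u / 2 ^ kb k0 b') (ext _ s) = ext _ s b' := by
  refine ⟨fun i => sg X k0 b0 u n i, ?_⟩
  set s : Fin n → Bool := fun i => sg X k0 b0 u n i with hs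
  have e : ∀ b' < n, ext n s b' = sg X k0 b0 u n b' := by
    intro b' hb'
    rw [a4s_ext_lt hb']
  have hv : ∀ b' < b, ¬ viol k0 b0 (ext _ s) u b' := by
    intro b' hb'
    have h1 := hG b' hb' (by omega)
    have h2 := hn3 b' hb'
    rw [a4s_viol_congr (s' := sg X k0 b0 u (b' + 1))]
    · exact h1
    · intro b'' hb''
      rw [e b'' (by omega)]
      exact sg_stable X (by omega) (by omega)
  refine ⟨hv, fun b' hb' => ?_⟩
  have hpre : ∀ b'' < b', ext n s b'' = sg X k0 b0 u b' b'' := by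
    intro b'' hb''
    rw [e b'' (by omega)]
    exact sg_stable X hb'' hb'.le
  rw [a4s_dec_congr X hpre, e b' hb', sg_stable X (Nat.lt_succ_self b') (Nat.succ_le_of_lt hb')]
  show _ = Function.update (sg X k0 b0 u b') b' _ b'
  rw [Function.update_self]
  have hv' : ∀ b'' < b', ¬ viol k0 b0 (sg X k0 b0 u b') u b'' := by
    intro b'' hb''
    rw [← a4s_viol_congr (s := ext n s) (fun b3 hb3 => hpre b3 (by omega))]
    exact hv b'' (by omega)
  exact (a4s_decide hv' _).symm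

lemma a4s_sg (X : ℕ → V → ℝ) {k0 b0 b u n : ℕ} {s : Fin n → Bool} (hn1 : n ≤ b + 1)
    (h1 : ∀ b' < b, ¬ viol k0 b0 (ext _ s) u b')
    (h2 : ∀ b' < n, dec X k0 b0 b' (u / 2 ^ kb k0 b') (ext _ s) = ext _ s b') :
    sg X k0 b0 u n = ext _ s := by
  have key : ∀ m ≤ n, ∀ b' < m, sg X k0 b0 u m b' = ext n s b' := by
    intro m
    induction m with
    | zero => intro _ b' hb'; omega
    | succ m ih =>
      intro hm b' hb'
      have ih' := ih (by omega)
      by_cases hbm : b' < m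
      · rw [sg_stable X hbm (Nat.le_succ m), ih' b' hbm]
      · have hbm' : b' = m := by omega
        subst hbm'
        show Function.update (sg X k0 b0 u b') b' _ b' = _
        rw [Function.update_self]
        have hv' : ∀ b'' < b', ¬ viol k0 b0 (sg X k0 b0 u b') u b'' := by
          intro b'' hb''
          rw [a4s_viol_congr (s' := ext n s) (fun b3 hb3 => ih' b3 (by omega))]
          exact h1 b'' (by omega)
        rw [a4s_dec_congr X (fun b3 hb3 => ih' b3 hb3), h2 b' (by omega)]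
        exact a4s_decide hv' _
  funext b'
  by_cases hb' : b' < n
  · exact key n le_rfl b' hb'
  · rw [sg_false X (not_lt.1 hb')]
    unfold GFL.ext
    rw [dif_neg hb']

theorem a4s_sign_sum {k0 b0 b u n : ℕ} {W : Finset V} (hW : ∀ b a s c, strip k0 b0 b a s c ⊆ W)
    (hb : b ≤ nlev k0 b0) (hn1 : n ≤ b + 1) (hnlev : n ≤ nlev k0 b0) (hn3 : ∀ b' < b, b' < n)
    {Ω : Type} [MeasurableSpace Ω] {μ : Measure Ω} [IsProbabilityMeasure μ] {X : ℕ → V → Ω → ℝ}
    (hX : IsLay k0 W μ X)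
    (f : (ℕ → Bool) → ℕ → (W → ℝ) → ℝ≥0∞)
    (hf : ∀ s j, Measurable (f s j)) :
    ∫⁻ ω in {ω | ∀ b' < b, Gd3 (fun j v => X j v ω) k0 b0 b' u},
      ∏ j ∈ Finset.range k0, f (sg (fun j v => X j v ω) k0 b0 u n) j
        (fun v => X j v ω) ∂μ ≤
    ∑ s : Fin n → Bool,
      if (∀ b' < b, ¬ viol k0 b0 (ext _ s) u b') then
        ∏ j ∈ Finset.range k0,
          ∫⁻ ω in {ω | ∀ b' < n, ib k0 b0 b' = j →
              dec (fun j v => X j v ω) k0 b0 b' (u / 2 ^ kb k0 b') (ext _ s) = ext _ s b'},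
            f (ext _ s) j (fun v => X j v ω) ∂μ
      else 0 := by
  -- cylinder sets of layer `j`
  set Cj : (Fin n → Bool) → ℕ → Set (W → ℝ) := fun s j => {x | ∀ b' < n, ib k0 b0 b' = j →
      decide (∑ v ∈ strip k0 b0 b' (u / 2 ^ kb k0 b') (ext n s) 1, (if h : v ∈ W then x ⟨v, h⟩
          else 0) < ∑ v ∈ strip k0 b0 b' (u / 2 ^ kb k0 b') (ext n s) 0, (if h : v ∈ W then
            x ⟨v, h⟩ else 0)) = ext n s b'} with hCj
  have hCm : ∀ s j, MeasurableSet (Cj s j) := by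
    intro s j
    have : Cj s j = ⋂ b' ∈ (Finset.range n).filter (fun b' => ib k0 b0 b' = j),
      {x : W → ℝ | decide (∑ v ∈ strip k0 b0 b' (u / 2 ^ kb k0 b') (ext n s) 1,
        (if h : v ∈ W then x ⟨v, h⟩
          else 0) < ∑ v ∈ strip k0 b0 b' (u / 2 ^ kb k0 b') (ext n s) 0, (if h : v ∈ W then
            x ⟨v, h⟩ else 0)) = ext n s b'} := by
      ext x
      simp only [hCj, Set.mem_ofPred_eq, Set.mem_iInter, Finset.mem_filter, Finset.mem_range]
      exact ⟨fun h b' hb' => h b' hb'.1 hb'.2, fun h b' h1 h2 => h b' ⟨h1, h2⟩⟩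
    rw [this]
    exact Finset.measurableSet_biInter _ (fun b' _ => a4s_dec_meas W)
  have hXm : ∀ j < k0, Measurable (fun ω (v : W) => X j v ω) := by
    intro j hj
    rw [measurable_pi_iff]
    intro v
    exact hX.meas ((⟨j, hj⟩ : Fin k0), v)
  -- the sets
  have hdec : ∀ (s : Fin n → Bool) (ω : Ω) (j : ℕ),
      (∀ b' < n, ib k0 b0 b' = j →
        dec (fun j v => X j v ω) k0 b0 b' (u / 2 ^ kb k0 b') (ext n s) = ext n s b') ↔
      (fun v : W => X j v ω) ∈ Cj s j := by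
    intro s ω j
    simp only [hCj, Set.mem_ofPred_eq]
    refine forall_congr' fun b' => forall_congr' fun hb' => forall_congr' fun hj => ?_
    rw [a4s_dec_eq (fun j v => X j v ω) hW, ← hj]
  set B : (Fin n → Bool) → Set Ω := fun s => {ω | (∀ b' < b, ¬ viol k0 b0 (ext n s) u b') ∧
      ∀ j ∈ Finset.range k0, (fun v : W => X j v ω) ∈ Cj s j} with hB
  have hBm : ∀ s, MeasurableSet (B s) := by
    intro s
    by_cases hv : ∀ b' < b, ¬ viol k0 b0 (ext n s) u b'
    · have : B s = ⋂ j ∈ Finset.range k0, (fun ω (v : W) => X j v ω) ⁻¹' Cj s j := by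
        ext ω
        simp only [hB, Set.mem_ofPred_eq, Set.mem_iInter, Set.mem_preimage]
        exact ⟨fun h => h.2, fun h => ⟨hv, h⟩⟩
      rw [this]
      exact Finset.measurableSet_biInter _ (fun j hj => hXm j (Finset.mem_range.1 hj) (hCm s j))
    · have : B s = ∅ := by
        ext ω
        simp only [hB, Set.mem_ofPred_eq, Set.mem_empty_iff_false, iff_false]
        exact fun h => hv h.1
      rw [this]
      exact MeasurableSet.empty
  have hibk : ∀ b' < n, ib k0 b0 b' ∈ Finset.range k0 := fun b' hb' =>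
    Finset.mem_range.2 (a4s_ib (by omega))
  have hBiff : ∀ s ω, ω ∈ B s ↔ (∀ b' < b, ¬ viol k0 b0 (ext n s) u b') ∧
      ∀ b' < n, dec (fun j v => X j v ω) k0 b0 b' (u / 2 ^ kb k0 b') (ext n s) = ext n s b' := by
    intro s ω
    simp only [hB, Set.mem_ofPred_eq]
    refine and_congr Iff.rfl ⟨fun h b' hb' => ?_, fun h j _ => ?_⟩
    · exact (hdec s ω (ib k0 b0 b')).2 (h _ (hibk b' hb')) b' hb' rfl
    · exact (hdec s ω j).1 (fun b' hb' _ => h b' hb')
  have hsub : {ω | ∀ b' < b, Gd3 (fun j v => X j v ω) k0 b0 b' u} ⊆ ⋃ s, B s := by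
    intro ω hω
    obtain ⟨s, h1, h2⟩ := a4s_cover (fun j v => X j v ω) hb hn1 hn3 hω
    exact Set.mem_iUnion.2 ⟨s, (hBiff s ω).2 ⟨h1, h2⟩⟩
  refine (lintegral_mono_set hsub).trans ((lintegral_iUnion_le _ _).trans ?_)
  rw [tsum_fintype]
  refine Finset.sum_le_sum fun s _ => ?_
  have hcongr : ∫⁻ ω in B s, ∏ j ∈ Finset.range k0,
      f (sg (fun j v => X j v ω) k0 b0 u n) j (fun v => X j v ω) ∂μ =
      ∫⁻ ω in B s, ∏ j ∈ Finset.range k0, f (ext n s) j (fun v => X j v ω) ∂μ := by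
    refine setLIntegral_congr_fun (hBm s) (fun ω hω => ?_)
    obtain ⟨h1, h2⟩ := (hBiff s ω).1 hω
    have := a4s_sg (fun j v => X j v ω) hn1 h1 h2
    simp only [this]
  rw [hcongr]
  split_ifs with hv
  · -- independence
    have hind := GF.iIndep hX (fun (j : Fin k0) (v : W) => (j, v)) (by
      intro a a' haa v v'
      simp only [haa, if_false])
    set h : ℕ → (W → ℝ) → ℝ≥0∞ := fun j => (Cj s j).indicator (f (ext n s) j) with hh
    have hhm : ∀ j, Measurable (h j) := fun j => (hf _ _).indicator (hCm s j)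
    have hind2 := hind.comp (fun (j : Fin k0) => h j) (fun j => hhm j)
    have hprod := lintegral_prod_eq_prod_lintegral_of_indepFun Finset.univ _ hind2
      (fun j => (hhm j).comp (hXm j j.2))
    have e1 : ∫⁻ ω in B s, ∏ j ∈ Finset.range k0, f (ext n s) j (fun v => X j v ω) ∂μ =
        ∫⁻ ω, ∏ j : Fin k0, h j (fun v => X j v ω) ∂μ := by
      rw [← lintegral_indicator (hBm s)]
      refine lintegral_congr fun ω => ?_
      by_cases hω : ω ∈ B s
      · rw [Set.indicator_of_mem hω, Finset.prod_range]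
        refine Finset.prod_congr rfl fun j _ => ?_
        rw [hh]
        simp only
        rw [Set.indicator_of_mem (hω.2 j (Finset.mem_range.2 j.2))]
      · rw [Set.indicator_of_notMem hω]
        have : ∃ j ∈ Finset.range k0, (fun v : W => X j v ω) ∉ Cj s j := by
          by_contra hcon
          push Not at hcon
          exact hω ⟨hv, hcon⟩
        obtain ⟨j, hj, hj'⟩ := this
        symm
        refine Finset.prod_eq_zero (Finset.mem_univ (⟨j, Finset.mem_range.1 hj⟩ : Fin k0)) ?_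
        rw [hh]
        simp only
        rw [Set.indicator_of_notMem hj']
    rw [e1]
    refine le_of_eq (Eq.trans hprod ?_)
    rw [Finset.prod_range]
    refine Finset.prod_congr rfl fun j _ => ?_
    have hms : MeasurableSet {ω | ∀ b' < n, ib k0 b0 b' = j →
        dec (fun j v => X j v ω) k0 b0 b' (u / 2 ^ kb k0 b') (ext n s) = ext n s b'} := by
      have : {ω | ∀ b' < n, ib k0 b0 b' = j →
        dec (fun j v => X j v ω) k0 b0 b' (u / 2 ^ kb k0 b') (ext n s) = ext n s b'} =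
        (fun ω (v : W) => X j v ω) ⁻¹' Cj s j := by
        ext ω
        exact hdec s ω j
      rw [this]
      exact hXm j j.2 (hCm s j)
    rw [← lintegral_indicator hms]
    refine lintegral_congr fun ω => ?_
    by_cases hω : (fun v : W => X j v ω) ∈ Cj s j
    · rw [Set.indicator_of_mem (show ω ∈ {ω | ∀ b' < n, ib k0 b0 b' = j →
        dec (fun j v => X j v ω) k0 b0 b' (u / 2 ^ kb k0 b') (ext n s) = ext n s b'} from
          (hdec s ω j).2 hω)]
      exact Set.indicator_of_mem hω _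
    · rw [Set.indicator_of_notMem (show ω ∉ {ω | ∀ b' < n, ib k0 b0 b' = j →
        dec (fun j v => X j v ω) k0 b0 b' (u / 2 ^ kb k0 b') (ext n s) = ext n s b'} from
          fun hh => hω ((hdec s ω j).1 hh))]
      exact Set.indicator_of_notMem hω _
  · have : B s = ∅ := by
      ext ω
      simp only [hB, Set.mem_ofPred_eq, Set.mem_empty_iff_false, iff_false]
      exact fun h => hv h.1
    rw [this]
    simp

/-- decomposition according to the signs -/
theorem sign_sum {k0 b0 b u : ℕ} (hb0 : 16 ^ 10 ≤ b0) (hb : b ≤ nlev k0 b0) (hu : u < 2 ^ k0)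
    {Ω : Type} [MeasurableSpace Ω] {μ : Measure Ω} [IsProbabilityMeasure μ] {X : ℕ → V → Ω → ℝ}
    (hX : IsLay k0 (ball 0 (2 ^ (k0 + 8))) μ X)
    (f : (ℕ → Bool) → ℕ → (ball (0 : V) (2 ^ (k0 + 8)) → ℝ) → ℝ≥0∞)
    (hf : ∀ s j, Measurable (f s j)) :
    ∫⁻ ω in {ω | ∀ b' < b, Gd3 (fun j v => X j v ω) k0 b0 b' u},
      ∏ j ∈ Finset.range k0, f (sg (fun j v => X j v ω) k0 b0 u (nd k0 b0 b)) j
        (fun v => X j v ω) ∂μ ≤
    ∑ s : Fin (nd k0 b0 b) → Bool,
      if (∀ b' < b, ¬ viol k0 b0 (ext _ s) u b') then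
        ∏ j ∈ Finset.range k0,
          ∫⁻ ω in {ω | ∀ b' < nd k0 b0 b, ib k0 b0 b' = j →
              dec (fun j v => X j v ω) k0 b0 b' (u / 2 ^ kb k0 b') (ext _ s) = ext _ s b'},
            f (ext _ s) j (fun v => X j v ω) ∂μ
      else 0 :=
  a4s_sign_sum (fun _ _ _ _ => a4s_strip_sub) hb (by unfold nd; omega) (by unfold nd; omega)
    (fun b' hb' => by unfold nd; omega) hX f hf

end Pool.H92.GFL
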