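import Pool.Agent.helper92.GFL.Defs2

namespace Pool.H92.GFL

open Function Finset MeasureTheory ProbabilityTheory Pool.H92.GFF
open scoped Classical ENNReal

/-- stretched exponentials beat powers -/
theorem a5_ev (c D α : ℝ) (hc : 0 < c) (hα : 0 < α) :
    ∀ᶠ t : ℝ in Filter.atTop, D * Real.exp (-(c * t ^ α)) ≤ 1 / (4 * t ^ 10) := by
  have h1 := tendsto_rpow_mul_exp_neg_mul_atTop_nhds_zero (10 / α) c hc
  have h2 := h1.comp (tendsto_rpow_atTop hα)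
  have h3 : Filter.Tendsto (fun t : ℝ => (4 * |D|) * ((t ^ α) ^ (10 / α) * Real.exp (-c * t ^ α)))
      Filter.atTop (nhds ((4 * |D|) * 0)) := h2.const_mul _
  rw [mul_zero] at h3
  have h4 := h3.eventually (gt_mem_nhds (show (0 : ℝ) < 1 by norm_num))
  filter_upwards [h4, Filter.eventually_ge_atTop (1 : ℝ)] with t ht ht1
  have ht0 : 0 < t := by linarith
  have e1 : (t ^ α) ^ (10 / α) = t ^ 10 := by
    rw [← Real.rpow_mul ht0.le]
    rw [show α * (10 / α) = ((10 : ℕ) : ℝ) by push_cast; field_simp]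
    exact Real.rpow_natCast t 10
  rw [e1] at ht
  rw [le_div_iff₀ (by positivity)]
  have e2 : -(c * t ^ α) = -c * t ^ α := by ring
  rw [e2]
  have e3 : D * Real.exp (-c * t ^ α) * (4 * t ^ 10) ≤
      4 * |D| * (t ^ 10 * Real.exp (-c * t ^ α)) := by
    have : D ≤ |D| := le_abs_self D
    have hp : 0 ≤ Real.exp (-c * t ^ α) * (4 * t ^ 10) := by positivity
    nlinarith [mul_le_mul_of_nonneg_right this hp]
  linarith

/-- a power with smaller exponent is eventually smaller, even with constants -/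
theorem a5_pow (a b D : ℝ) (hab : a < b) :
    ∀ᶠ t : ℝ in Filter.atTop, D * t ^ a ≤ t ^ b := by
  have h1 := tendsto_rpow_atTop (sub_pos.2 hab)
  filter_upwards [h1.eventually_ge_atTop D, Filter.eventually_gt_atTop (0 : ℝ)] with t ht ht0
  have e : t ^ b = t ^ (b - a) * t ^ a := by
    rw [← Real.rpow_add ht0]; congr 1; ring
  rw [e]
  exact mul_le_mul_of_nonneg_right ht (Real.rpow_nonneg ht0.le _)

/-- optimisation in `θ` -/
theorem a5_opt (A n M : ℝ) (hA : 0 < A) (hn : 0 < n) (h1 : 64 * n * M ≤ A ^ 2) (h2 : 2 * M ≤ A) :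
    ∃ θ : ℝ, 0 < θ ∧ θ ≤ 1 ∧ -(θ * A) + 16 * θ ^ 2 * n ≤ -M := by
  by_cases h : A ≤ 32 * n
  · refine ⟨A / (32 * n), by positivity, ?_, ?_⟩
    · rw [div_le_one (by positivity)]; exact h
    · have e : -(A / (32 * n) * A) + 16 * (A / (32 * n)) ^ 2 * n = -(A ^ 2 / (64 * n)) := by
        field_simp; ring
      rw [e]
      apply neg_le_neg
      rw [le_div_iff₀ (by positivity)]
      linarith
  · push Not at h
    exact ⟨1, one_pos, le_rfl, by linarith⟩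

theorem a5_lb (b0 b : ℕ) (hb0 : 0 < b0) :
    (2 : ℝ) ^ lb b0 b ≤ ((b : ℝ) + b0) ^ (1 / 4 : ℝ) := by
  have h0 : b + b0 ≠ 0 := by omega
  have h1 : 16 ^ lb b0 b ≤ b + b0 := Nat.pow_log_le_self 16 h0
  have h2 : (16 : ℝ) ^ lb b0 b ≤ (b : ℝ) + b0 := by exact_mod_cast h1
  have h3 : (2 : ℝ) ^ lb b0 b = ((16 : ℝ) ^ lb b0 b) ^ (1 / 4 : ℝ) := by
    rw [← Real.rpow_natCast (16 : ℝ), ← Real.rpow_mul (by norm_num), mul_comm,
      Real.rpow_mul (by norm_num), Real.rpow_natCast]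
    congr 1
    rw [show (16 : ℝ) = (2 : ℝ) ^ (4 : ℝ) by norm_num, ← Real.rpow_mul (by norm_num)]
    norm_num
  rw [h3]
  exact Real.rpow_le_rpow (by positivity) h2 (by norm_num)

theorem a5_sqrt_eb (b0 b : ℕ) (hb0 : 0 < b0) :
    √((2 : ℝ) ^ eb b0 b) ≤ ((b : ℝ) + b0) ^ (3 / 8 : ℝ) := by
  have h1 := a5_lb b0 b hb0
  have ht : (0 : ℝ) ≤ (b : ℝ) + b0 := by positivity
  have h2 : (2 : ℝ) ^ eb b0 b = ((2 : ℝ) ^ lb b0 b) ^ 3 := by
    rw [eb, mul_comm, pow_mul]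
  have h3 : (2 : ℝ) ^ eb b0 b ≤ (((b : ℝ) + b0) ^ (3 / 8 : ℝ)) ^ 2 := by
    rw [h2]
    calc ((2 : ℝ) ^ lb b0 b) ^ 3 ≤ (((b : ℝ) + b0) ^ (1 / 4 : ℝ)) ^ 3 :=
          pow_le_pow_left₀ (by positivity) h1 3
      _ = (((b : ℝ) + b0) ^ (3 / 8 : ℝ)) ^ 2 := by
          rw [← Real.rpow_natCast, ← Real.rpow_natCast, ← Real.rpow_mul ht, ← Real.rpow_mul ht]
          norm_num
  calc √((2 : ℝ) ^ eb b0 b) ≤ √((((b : ℝ) + b0) ^ (3 / 8 : ℝ)) ^ 2) := Real.sqrt_le_sqrt h3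
    _ = _ := Real.sqrt_sq (by positivity)

theorem a5_prod (b0 b : ℕ) (hb0 : 0 < b0) (θ : ℝ) (h0 : 0 < θ) (h1 : θ ≤ 1) :
    ∏ b' ∈ Finset.range b, (1 - θ / (400 * √(2 ^ eb b0 b'))) ≤
      Real.exp (-(θ * ((b : ℝ) / (400 * ((b : ℝ) + b0) ^ (3 / 8 : ℝ))))) := by
  have ht : (0 : ℝ) < (b : ℝ) + b0 := by positivity
  have hT : 0 < ((b : ℝ) + b0) ^ (3 / 8 : ℝ) := by positivity
  have key : ∀ b' ∈ Finset.range b, (1 - θ / (400 * √((2 : ℝ) ^ eb b0 b'))) ≤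
      Real.exp (-(θ / (400 * ((b : ℝ) + b0) ^ (3 / 8 : ℝ)))) := by
    intro b' hb'
    have hb'' : b' < b := Finset.mem_range.1 hb'
    have hs := a5_sqrt_eb b0 b' hb0
    have hm : ((b' : ℝ) + b0) ^ (3 / 8 : ℝ) ≤ ((b : ℝ) + b0) ^ (3 / 8 : ℝ) := by
      apply Real.rpow_le_rpow (by positivity) _ (by norm_num)
      have : (b' : ℝ) ≤ b := by exact_mod_cast hb''.le
      linarith
    have hs0 : 0 < √((2 : ℝ) ^ eb b0 b') := Real.sqrt_pos.2 (by positivity)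
    have h3 : θ / (400 * ((b : ℝ) + b0) ^ (3 / 8 : ℝ)) ≤ θ / (400 * √((2 : ℝ) ^ eb b0 b')) := by
      apply div_le_div_of_nonneg_left h0.le (by positivity)
      linarith
    have h4 := Real.add_one_le_exp (-(θ / (400 * ((b : ℝ) + b0) ^ (3 / 8 : ℝ))))
    linarith
  have nonneg : ∀ b' ∈ Finset.range b, 0 ≤ (1 - θ / (400 * √((2 : ℝ) ^ eb b0 b'))) := by
    intro b' _
    have h5 : (1 : ℝ) ≤ √((2 : ℝ) ^ eb b0 b') := by
      rw [Real.one_le_sqrt]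
      exact one_le_pow₀ (by norm_num)
    have h6 : θ / (400 * √((2 : ℝ) ^ eb b0 b')) ≤ 1 := by
      rw [div_le_one (by positivity)]
      linarith
    linarith
  calc ∏ b' ∈ Finset.range b, (1 - θ / (400 * √((2 : ℝ) ^ eb b0 b')))
      ≤ ∏ _b' ∈ Finset.range b, Real.exp (-(θ / (400 * ((b : ℝ) + b0) ^ (3 / 8 : ℝ)))) :=
        Finset.prod_le_prod nonneg key
    _ = Real.exp (-(θ * ((b : ℝ) / (400 * ((b : ℝ) + b0) ^ (3 / 8 : ℝ))))) := by
        rw [Finset.prod_const, Finset.card_range, ← Real.exp_nat_mul]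
        congr 1
        ring

theorem a5_lb2 (b0 b : ℕ) (hb0 : 0 < b0) :
    (((b : ℝ) + b0) / 16) ^ (1 / 8 : ℝ) ≤ (25 / 16 : ℝ) ^ lb b0 b := by
  have h1 : b + b0 < 16 ^ (lb b0 b + 1) := Nat.lt_pow_succ_log_self (by norm_num) _
  have h2 : ((b : ℝ) + b0) ≤ 16 * (16 : ℝ) ^ lb b0 b := by
    have : ((b + b0 : ℕ) : ℝ) ≤ ((16 ^ (lb b0 b + 1) : ℕ) : ℝ) := by exact_mod_cast h1.le
    push_cast at this
    rw [pow_succ] at this
    linarith
  have h3 : ((b : ℝ) + b0) / 16 ≤ (16 : ℝ) ^ lb b0 b := by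
    rw [div_le_iff₀ (by norm_num)]; linarith
  have h4 : (((b : ℝ) + b0) / 16) ^ (1 / 8 : ℝ) ≤ ((16 : ℝ) ^ lb b0 b) ^ (1 / 8 : ℝ) :=
    Real.rpow_le_rpow (by positivity) h3 (by norm_num)
  refine h4.trans ?_
  have h5 : (16 : ℝ) ^ lb b0 b ≤ (((25 / 16 : ℝ)) ^ lb b0 b) ^ 8 := by
    rw [← pow_mul, mul_comm, pow_mul]
    exact pow_le_pow_left₀ (by norm_num) (by norm_num) _
  calc ((16 : ℝ) ^ lb b0 b) ^ (1 / 8 : ℝ) ≤ ((((25 / 16 : ℝ)) ^ lb b0 b) ^ 8) ^ (1 / 8 : ℝ) :=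
        Real.rpow_le_rpow (by positivity) h5 (by norm_num)
    _ = (25 / 16 : ℝ) ^ lb b0 b := by
        rw [← Real.rpow_natCast, ← Real.rpow_mul (by positivity)]
        norm_num

theorem numA (C : ℝ) (hC : 0 < C) : ∃ K1 : ℝ, 1 ≤ K1 ∧ ∀ K : ℝ, K1 ≤ K → ∀ b : ℕ,
    16 ^ 10 ≤ ⌈K ^ 2⌉₊ ∧
    (∃ θ : ℝ, 0 < θ ∧ θ ≤ 1 ∧
      Real.exp (-(θ * (K / 2 - hh ⌈K ^ 2⌉₊ b)) +
          16 * θ ^ 2 * (8 * b + eb ⌈K ^ 2⌉₊ b + 6)) *
        ∏ b' ∈ Finset.range b, (1 - θ / (400 * √(2 ^ eb ⌈K ^ 2⌉₊ b'))) ≤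
          1 / (4 * ((b : ℝ) + ⌈K ^ 2⌉₊) ^ 10)) ∧
    C * Real.exp (-((K / 4 + hh ⌈K ^ 2⌉₊ b) / C)) ≤ 1 / (4 * ((b : ℝ) + ⌈K ^ 2⌉₊) ^ 10) ∧
    2 * Real.exp (-((25 / 16 : ℝ) ^ lb ⌈K ^ 2⌉₊ b / 32)) ≤
      1 / (4 * ((b : ℝ) + ⌈K ^ 2⌉₊) ^ 10) := by
  -- eventual inequalities in `t`
  have E1 := a5_ev (1 / C) C (1 / 8) (by positivity) (by norm_num)
  have E2 := a5_ev (1 / 64) 2 (1 / 8) (by norm_num) (by norm_num)
  have E3 := a5_ev (1 / 36864) 1 (1 / 20) (by norm_num) (by norm_num)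
  have E4 := a5_ev (1 / 368640000) 1 (3 / 20) (by norm_num) (by norm_num)
  have P1 := a5_pow (1 / 4) (19 / 20) 9 (by norm_num)
  have P2 := a5_pow (1 / 8) (1 / 2) 8 (by norm_num)
  have P3 := a5_pow (19 / 20) 1 2 (by norm_num)
  have P4 := a5_pow (1 / 8) (23 / 40) 800 (by norm_num)
  obtain ⟨T0, hT0⟩ := Filter.eventually_atTop.1
    (E1.and (E2.and (E3.and (E4.and (P1.and (P2.and (P3.and P4)))))))
  refine ⟨max (2 ^ 20) T0, le_trans (by norm_num) (le_max_left _ _), ?_⟩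
  intro K hK b
  have hK1 : (2 : ℝ) ^ 20 ≤ K := (le_max_left _ _).trans hK
  have hK2 : T0 ≤ K := (le_max_right _ _).trans hK
  have hK0 : (1 : ℝ) ≤ K := le_trans (by norm_num) hK1
  have hceil : K ^ 2 ≤ (⌈K ^ 2⌉₊ : ℝ) := Nat.le_ceil _
  have hceil' : (⌈K ^ 2⌉₊ : ℝ) < K ^ 2 + 1 := Nat.ceil_lt_add_one (by positivity)
  set b0 := ⌈K ^ 2⌉₊ with hb0def
  have hKsq : K ≤ K ^ 2 := by nlinarith
  have hb0R : (16 : ℝ) ^ 10 ≤ (b0 : ℝ) := by
    have : ((2 : ℝ) ^ 20) ^ 2 ≤ K ^ 2 := pow_le_pow_left₀ (by positivity) hK1 2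
    have e : (16 : ℝ) ^ 10 = ((2 : ℝ) ^ 20) ^ 2 := by norm_num
    rw [e]
    exact this.trans hceil
  have hb0N : 16 ^ 10 ≤ b0 := by exact_mod_cast hb0R
  have hb0pos : 0 < b0 := lt_of_lt_of_le (by norm_num) hb0N
  have hbR : (0 : ℝ) ≤ (b : ℝ) := Nat.cast_nonneg b
  set t : ℝ := (b : ℝ) + b0 with ht
  have htT : T0 ≤ t := by linarith
  have ht16 : (16 : ℝ) ^ 10 ≤ t := by linarith
  have ht1 : (1 : ℝ) ≤ t := le_trans (by norm_num) ht16
  have ht0 : (0 : ℝ) < t := by linarith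
  obtain ⟨f1, f2, f3, f4, p1, p2, p3, p4⟩ := hT0 t htT
  have hhh : hh b0 b = t ^ (1 / 8 : ℝ) := rfl
  refine ⟨hb0N, ?_, ?_, ?_⟩
  · -- the main estimate
    set A : ℝ := K / 2 - t ^ (1 / 8 : ℝ) + (b : ℝ) / (400 * t ^ (3 / 8 : ℝ)) with hA
    set n : ℝ := 8 * (b : ℝ) + (eb b0 b : ℝ) + 6 with hn
    have hn0 : 0 < n := by positivity
    have hq1 : (1 : ℝ) ≤ t ^ (1 / 4 : ℝ) := Real.one_le_rpow ht1 (by norm_num)
    have heb : (eb b0 b : ℝ) ≤ 3 * t ^ (1 / 4 : ℝ) := by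
      have h1 := a5_lb b0 b hb0pos
      have h2 : (lb b0 b : ℝ) ≤ 2 ^ lb b0 b := by
        exact_mod_cast (Nat.lt_two_pow_self (n := lb b0 b)).le
      have h3 : (eb b0 b : ℝ) = 3 * (lb b0 b : ℝ) := by rw [eb]; push_cast; ring
      rw [h3]
      have := h2.trans h1
      linarith
    have hsmall : (eb b0 b : ℝ) + 6 ≤ t ^ (19 / 20 : ℝ) := by linarith
    have ht95 : t ^ (19 / 20 : ℝ) ≤ t := by
      calc t ^ (19 / 20 : ℝ) ≤ t ^ (1 : ℝ) := Real.rpow_le_rpow_of_exponent_le ht1 (by norm_num)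
        _ = t := Real.rpow_one t
    have main : ∃ M : ℝ, 0 < A ∧ 64 * n * M ≤ A ^ 2 ∧ 2 * M ≤ A ∧
        Real.exp (-M) ≤ 1 / (4 * t ^ 10) := by
      by_cases hb : (b : ℝ) ≤ t ^ (19 / 20 : ℝ)
      · refine ⟨1 / 36864 * t ^ (1 / 20 : ℝ), ?_⟩
        have hsq : (t ^ (1 / 2 : ℝ)) ^ 2 = t := by
          rw [← Real.rpow_natCast, ← Real.rpow_mul ht0.le]; norm_num
        rw [Real.rpow_one] at p3
        have hKt : t / 4 ≤ K ^ 2 := by
          have h16 : (16 : ℝ) ^ 10 = 1099511627776 := by norm_num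
          rw [h16] at ht16
          linarith
        have hKt2 : t ^ (1 / 2 : ℝ) / 2 ≤ K := by
          have h0 : (t ^ (1 / 2 : ℝ) / 2) ^ 2 ≤ K ^ 2 := by
            rw [div_pow, hsq]; linarith
          exact (pow_le_pow_iff_left₀ (by positivity) (by linarith) (by norm_num)).1 h0
        have hS : 0 ≤ (b : ℝ) / (400 * t ^ (3 / 8 : ℝ)) := by positivity
        have hAge : t ^ (1 / 2 : ℝ) / 8 ≤ A := by rw [hA]; linarith
        have hr0 : 0 < t ^ (1 / 2 : ℝ) := by positivity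
        have hn9 : n ≤ 9 * t ^ (19 / 20 : ℝ) := by rw [hn]; linarith
        have hmul : t ^ (19 / 20 : ℝ) * t ^ (1 / 20 : ℝ) = t := by
          rw [← Real.rpow_add ht0]; norm_num
        have h20 : 0 < t ^ (1 / 20 : ℝ) := by positivity
        refine ⟨by linarith, ?_, ?_, ?_⟩
        · have h1 : t / 64 ≤ A ^ 2 := by
            have := pow_le_pow_left₀ (by positivity) hAge 2
            rw [div_pow, hsq] at this
            linarith
          have h2 : 64 * n * (1 / 36864 * t ^ (1 / 20 : ℝ)) ≤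
              64 * (9 * t ^ (19 / 20 : ℝ)) * (1 / 36864 * t ^ (1 / 20 : ℝ)) := by
            apply mul_le_mul_of_nonneg_right _ (by positivity)
            linarith
          have h3 : 64 * (9 * t ^ (19 / 20 : ℝ)) * (1 / 36864 * t ^ (1 / 20 : ℝ)) = t / 64 := by
            calc 64 * (9 * t ^ (19 / 20 : ℝ)) * (1 / 36864 * t ^ (1 / 20 : ℝ))
                = (t ^ (19 / 20 : ℝ) * t ^ (1 / 20 : ℝ)) / 64 := by ring
              _ = t / 64 := by rw [hmul]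
          linarith
        · have h1 : t ^ (1 / 20 : ℝ) ≤ t ^ (1 / 2 : ℝ) :=
            Real.rpow_le_rpow_of_exponent_le ht1 (by norm_num)
          linarith
        · have e : -(1 / 36864 * t ^ (1 / 20 : ℝ)) = -(1 / 36864 * t ^ (1 / 20 : ℝ)) := rfl
          linarith
      · push Not at hb
        refine ⟨1 / 368640000 * t ^ (3 / 20 : ℝ), ?_⟩
        have h38 : 0 < t ^ (3 / 8 : ℝ) := by positivity
        have hS : t ^ (23 / 40 : ℝ) / 400 ≤ (b : ℝ) / (400 * t ^ (3 / 8 : ℝ)) := by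
          rw [le_div_iff₀ (by positivity)]
          have e : t ^ (23 / 40 : ℝ) * t ^ (3 / 8 : ℝ) = t ^ (19 / 20 : ℝ) := by
            rw [← Real.rpow_add ht0]; norm_num
          calc t ^ (23 / 40 : ℝ) / 400 * (400 * t ^ (3 / 8 : ℝ))
              = t ^ (23 / 40 : ℝ) * t ^ (3 / 8 : ℝ) := by ring
            _ = t ^ (19 / 20 : ℝ) := e
            _ ≤ b := hb.le
        have hAge : t ^ (23 / 40 : ℝ) / 800 ≤ A := by rw [hA]; linarith
        have hr0 : 0 < t ^ (23 / 40 : ℝ) := by positivity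
        have hb' : (b : ℝ) ≤ t := by rw [ht]; linarith
        have hn9 : n ≤ 9 * t := by rw [hn]; linarith
        have hsq : (t ^ (23 / 40 : ℝ)) ^ 2 = t * t ^ (3 / 20 : ℝ) := by
          rw [← Real.rpow_natCast, ← Real.rpow_mul ht0.le]
          nth_rewrite 2 [← Real.rpow_one t]
          rw [← Real.rpow_add ht0]; norm_num
        have h20 : 0 < t ^ (3 / 20 : ℝ) := by positivity
        refine ⟨by linarith, ?_, ?_, ?_⟩
        · have h1 : t * t ^ (3 / 20 : ℝ) / 640000 ≤ A ^ 2 := by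
            have := pow_le_pow_left₀ (by positivity) hAge 2
            rw [div_pow, hsq] at this
            linarith
          have h2 : 64 * n * (1 / 368640000 * t ^ (3 / 20 : ℝ)) ≤
              64 * (9 * t) * (1 / 368640000 * t ^ (3 / 20 : ℝ)) := by
            apply mul_le_mul_of_nonneg_right _ (by positivity)
            linarith
          have h3 : 64 * (9 * t) * (1 / 368640000 * t ^ (3 / 20 : ℝ)) =
              t * t ^ (3 / 20 : ℝ) / 640000 := by ring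
          linarith
        · have h1 : t ^ (3 / 20 : ℝ) ≤ t ^ (23 / 40 : ℝ) :=
            Real.rpow_le_rpow_of_exponent_le ht1 (by norm_num)
          linarith
        · linarith
    obtain ⟨M, hA0, hM1, hM2, hM3⟩ := main
    obtain ⟨θ, hθ0, hθ1, hθ⟩ := a5_opt A n M hA0 hn0 hM1 hM2
    refine ⟨θ, hθ0, hθ1, ?_⟩
    have hprod := a5_prod b0 b hb0pos θ hθ0 hθ1
    rw [hhh]
    calc _ ≤ Real.exp (-(θ * (K / 2 - t ^ (1 / 8 : ℝ))) + 16 * θ ^ 2 * (8 * b + eb b0 b + 6)) *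
          Real.exp (-(θ * ((b : ℝ) / (400 * t ^ (3 / 8 : ℝ))))) :=
          mul_le_mul_of_nonneg_left hprod (Real.exp_pos _).le
      _ = Real.exp (-(θ * A) + 16 * θ ^ 2 * n) := by
          rw [← Real.exp_add]; congr 1; rw [hA, hn]; ring
      _ ≤ Real.exp (-M) := Real.exp_le_exp.2 hθ
      _ ≤ _ := hM3
  · rw [hhh]
    refine le_trans ?_ f1
    apply mul_le_mul_of_nonneg_left _ hC.le
    apply Real.exp_le_exp.2
    apply neg_le_neg
    rw [add_div]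
    have : 0 ≤ K / 4 / C := by positivity
    have e : 1 / C * t ^ (1 / 8 : ℝ) = t ^ (1 / 8 : ℝ) / C := by ring
    linarith
  · have h1 := a5_lb2 b0 b hb0pos
    refine le_trans ?_ f2
    apply mul_le_mul_of_nonneg_left _ (by norm_num)
    apply Real.exp_le_exp.2
    apply neg_le_neg
    have h2 : (t / 16) ^ (1 / 8 : ℝ) = t ^ (1 / 8 : ℝ) / 16 ^ (1 / 8 : ℝ) :=
      Real.div_rpow ht0.le (by norm_num) _
    have h3 : (16 : ℝ) ^ (1 / 8 : ℝ) ≤ 2 := by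
      have : (16 : ℝ) ^ (1 / 8 : ℝ) ≤ ((2 : ℝ) ^ (8 : ℝ)) ^ (1 / 8 : ℝ) :=
        Real.rpow_le_rpow (by norm_num) (by norm_num) (by norm_num)
      rw [← Real.rpow_mul (by norm_num)] at this
      norm_num at this
      exact this
    have h4 : t ^ (1 / 8 : ℝ) / 2 ≤ (t / 16) ^ (1 / 8 : ℝ) := by
      rw [h2]
      apply div_le_div_of_nonneg_left (by positivity) (by positivity) h3
    have h5 : (t / 16) ^ (1 / 8 : ℝ) ≤ (25 / 16 : ℝ) ^ lb b0 b := h1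
    linarith

end Pool.H92.GFL
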