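import Pool.Agent.helper92.GFL.Defs2

namespace Pool.H92.GFL

open Function Finset MeasureTheory ProbabilityTheory Pool.H92.GFF
open scoped Classical ENNReal

/-! ### paths -/

lemma Conn.a8a_mono {O O' : Set V} (h : O ⊆ O') {n : ℕ} {x y : V} (hc : Conn O n x y) :
    Conn O' n x y := by
  obtain ⟨p, h0, hn, hp, hs⟩ := hc
  exact ⟨p, h0, hn, fun i hi => h (hp i hi), hs⟩

lemma Conn.a8a_pad {O : Set V} {n m : ℕ} (h : n ≤ m) {x y : V} (hc : Conn O n x y) :
    Conn O m x y := by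
  obtain ⟨p, h0, hn, hp, hs⟩ := hc
  refine ⟨fun i => p (min i n), by simpa using h0, by simp [min_eq_right h, hn],
    fun i _ => hp _ (min_le_right _ _), fun i hi => ?_⟩
  change p (min (i + 1) n) = p (min i n) ∨ p (min (i + 1) n) ∈ nb (p (min i n))
  rcases Nat.lt_or_ge i n with h1 | h1
  · rw [min_eq_left h1.le, min_eq_left (by omega : i + 1 ≤ n)]
    exact hs i h1
  · left
    rw [min_eq_right h1, min_eq_right (by omega : n ≤ i + 1)]

lemma Conn.a8a_symm {O : Set V} {n : ℕ} {x y : V} (hc : Conn O n x y) : Conn O n y x := by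
  obtain ⟨p, h0, hn, hp, hs⟩ := hc
  refine ⟨fun i => p (n - i), by simpa using hn, by simpa using h0,
    fun i _ => hp _ (Nat.sub_le _ _), fun i hi => ?_⟩
  have h1 := hs (n - (i + 1)) (by omega)
  have h2 : n - (i + 1) + 1 = n - i := by omega
  rw [h2] at h1
  rcases h1 with h1 | h1
  · left
    exact h1.symm
  · right
    exact nb_symm.1 h1

lemma Conn.a8a_trans {O : Set V} {n m : ℕ} {x y z : V} (hc : Conn O n x y) (hc' : Conn O m y z) :
    Conn O (n + m) x z := by
  obtain ⟨p, h0, hn, hp, hs⟩ := hc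
  obtain ⟨q, g0, gn, gp, gs⟩ := hc'
  refine ⟨fun i => if i ≤ n then p i else q (i - n), by simpa using h0, ?_, ?_, ?_⟩
  · by_cases hm : m = 0
    · subst hm
      simp only [add_zero, le_refl, if_true]
      rw [hn, ← g0, gn]
    · simp only
      rw [if_neg (by omega)]
      rw [show n + m - n = m by omega]
      exact gn
  · intro i hi
    by_cases h : i ≤ n
    · simp only [if_pos h]
      exact hp i h
    · simp only [if_neg h]
      exact gp _ (by omega)
  · intro i hi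
    by_cases h : i + 1 ≤ n
    · simp only [if_pos h, if_pos (by omega : i ≤ n)]
      exact hs i h
    · by_cases h' : i ≤ n
      · have hin : i = n := by omega
        simp only [if_neg h, if_pos h']
        have h2 := gs 0 (by omega)
        rw [g0, ← hn] at h2
        rw [hin]
        rw [show n + 1 - n = 0 + 1 by omega]
        exact h2
      · simp only [if_neg h, if_neg h']
        rw [show i + 1 - n = (i - n) + 1 by omega]
        exact gs _ (by omega)

lemma a8a_refl {O : Set V} {x : V} (hx : x ∈ O) : Conn O 0 x x :=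
  ⟨fun _ => x, rfl, rfl, fun _ _ => hx, fun _ _ => Or.inl rfl⟩

lemma a8a_step {O : Set V} {x y : V} (hx : x ∈ O) (hy : y ∈ O) (h : y = x ∨ y ∈ nb x) :
    Conn O 1 x y := by
  refine ⟨fun i => if i = 0 then x else y, by simp, by simp, fun i _ => ?_, fun i hi => ?_⟩
  · by_cases h0 : i = 0
    · simpa [h0] using hx
    · simpa [h0] using hy
  · have h0 : i = 0 := by omega
    subst h0
    simpa using h

lemma Conn.a8a_left {O : Set V} {n : ℕ} {x y : V} (hc : Conn O n x y) : x ∈ O := by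
  obtain ⟨p, h0, -, hp, -⟩ := hc
  rw [← h0]
  exact hp 0 (Nat.zero_le _)

lemma Conn.a8a_right {O : Set V} {n : ℕ} {x y : V} (hc : Conn O n x y) : y ∈ O :=
  hc.a8a_symm.a8a_left

/-- a path leaving `F` does so through its inner boundary -/
lemma a8a_exit {O : Set V} {F Γ : Finset V} (hb : ∀ x ∈ F, ∀ w ∈ nb x, w ∉ F → x ∈ Γ)
    {n : ℕ} {x y : V} (hc : Conn O n x y) (hx : x ∈ F) (hy : y ∉ F) :
    ∃ g ∈ Γ, g ∈ F ∧ Conn O n x g := by
  obtain ⟨p, h0, hn, hp, hs⟩ := hc
  have hex : ∃ j, p j ∉ F := ⟨n, by rwa [hn]⟩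
  have hj := Nat.find_spec hex
  have hmin : ∀ m < Nat.find hex, ¬ p m ∉ F := fun m hm => Nat.find_min hex hm
  have hjn : Nat.find hex ≤ n := Nat.find_min' hex (by rwa [hn])
  have hj0 : Nat.find hex ≠ 0 := by
    intro h
    rw [h, h0] at hj
    exact hj hx
  obtain ⟨m, hm⟩ := Nat.exists_eq_succ_of_ne_zero hj0
  have hmF : p m ∈ F := not_not.1 (hmin m (by omega))
  rw [hm] at hj
  have hst : p (m + 1) ∈ nb (p m) := by
    rcases hs m (by omega) with h | h
    · exact absurd (by rw [Nat.succ_eq_add_one, h]; exact hmF) hj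
    · exact h
  refine ⟨p m, hb _ hmF _ hst hj, hmF, ?_⟩
  exact Conn.a8a_pad (by omega : m ≤ n) ⟨p, h0, rfl, fun i hi => hp i (by omega),
    fun i hi => hs i (by omega)⟩

lemma a8a_bound (F : Finset V) : ∃ r : ℕ, F ⊆ ball 0 r := by
  refine ⟨∑ x ∈ F, (x.1.natAbs + x.2.natAbs), fun x hx => ?_⟩
  have h := Finset.single_le_sum (f := fun x : V => x.1.natAbs + x.2.natAbs)
    (fun _ _ => Nat.zero_le _) hx
  rw [mem_ball]
  simp only [Prod.fst_zero, Prod.snd_zero]
  omega

/-- a full set containing the inner boundary of `F` contains `F` -/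
lemma a8a_sub {F Γ F' : Finset V} (hb : ∀ x ∈ F, ∀ w ∈ nb x, w ∉ F → x ∈ Γ) (hF' : Full F')
    (h : Γ ⊆ F') : F ⊆ F' := by
  intro x hx
  by_contra hxF
  obtain ⟨r, hr⟩ := a8a_bound F
  obtain ⟨n, b, hc, hbr⟩ := hF' x hxF r
  obtain ⟨g, hg, -, hcg⟩ := a8a_exit hb hc hx (fun hbF => hbr (hr hbF))
  exact hcg.a8a_right (by exact_mod_cast h hg)

/-- vertices joined to infinity outside `F` -/
def a8aEsc (F : Finset V) (x : V) : Prop :=
  ∀ r : ℕ, ∃ (n : ℕ) (b : V), Conn ((F : Set V)ᶜ) n x b ∧ b ∉ ball 0 r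

lemma a8aEsc.of_conn {F : Finset V} {x y : V} {n : ℕ} (h : a8aEsc F x)
    (hc : Conn ((F : Set V)ᶜ) n y x) : a8aEsc F y := by
  intro r
  obtain ⟨m, b, hm, hbr⟩ := h r
  exact ⟨n + m, b, hc.a8a_trans hm, hbr⟩

lemma a8aEsc.not_mem {F : Finset V} {x : V} (h : a8aEsc F x) : x ∉ F := by
  obtain ⟨n, b, hc, -⟩ := h 0
  have := hc.a8a_left
  simpa using this

lemma a8a_esc_out {F : Finset V} {z : V} {r : ℕ} (hF : F ⊆ ball z r) {x : V} (hx : x ∉ ball z r) :
    a8aEsc F x := by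
  -- a direction leading away from the ball
  have hdir : ∃ a b : ℤ, ((a = 1 ∧ b = 0) ∨ (a = -1 ∧ b = 0) ∨ (a = 0 ∧ b = 1) ∨
      (a = 0 ∧ b = -1)) ∧ ∀ i : ℕ, ((x.1 + a * i, x.2 + b * i) : V) ∉ ball z r := by
    have h := hx
    rw [mem_ball] at h
    by_cases h1 : z.1 - r ≤ x.1
    · by_cases h2 : x.1 ≤ z.1 + r
      · by_cases h3 : z.2 - r ≤ x.2
        · by_cases h4 : x.2 ≤ z.2 + r
          · exact absurd ⟨⟨h1, h2⟩, h3, h4⟩ h
          · refine ⟨0, 1, by simp, fun i => ?_⟩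
            rw [mem_ball]
            dsimp only
            omega
        · refine ⟨0, -1, by simp, fun i => ?_⟩
          rw [mem_ball]
          dsimp only
          omega
      · refine ⟨1, 0, by simp, fun i => ?_⟩
        rw [mem_ball]
        dsimp only
        omega
    · refine ⟨-1, 0, by simp, fun i => ?_⟩
      rw [mem_ball]
      dsimp only
      omega
  obtain ⟨a, b, he, hout⟩ := hdir
  intro R
  -- the straight path
  set n : ℕ := R + 1 + x.1.natAbs + x.2.natAbs with hn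
  refine ⟨n, (x.1 + a * n, x.2 + b * n), ⟨fun i => (x.1 + a * i, x.2 + b * i), by simp, rfl,
    fun i _ => ?_, fun i _ => ?_⟩, ?_⟩
  · have : ((x.1 + a * i, x.2 + b * i) : V) ∉ F := fun h => hout i (hF h)
    simpa using this
  · right
    simp only [nb, Finset.mem_insert, Finset.mem_singleton, Prod.mk.injEq]
    push_cast
    rcases he with ⟨rfl, rfl⟩ | ⟨rfl, rfl⟩ | ⟨rfl, rfl⟩ | ⟨rfl, rfl⟩ <;> omega
  · rw [mem_ball]
    simp only [Prod.fst_zero, Prod.snd_zero]
    rcases he with ⟨rfl, rfl⟩ | ⟨rfl, rfl⟩ | ⟨rfl, rfl⟩ | ⟨rfl, rfl⟩ <;> omega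

/-- filling the holes -/
theorem fill {Γ F : Finset V} {z : V} {r : ℕ} (hF : F ⊆ ball z r) (hΓ : Γ ⊆ F)
    (hb : ∀ x ∈ F, ∀ w ∈ nb x, w ∉ F → x ∈ Γ) :
    ∃ F' : Finset V, Full F' ∧ F ⊆ F' ∧ F' ⊆ ball z r ∧ ∀ x ∈ F', ∀ w ∈ nb x, w ∉ F' → x ∈ Γ := by
  have hmem : ∀ x, x ∉ (ball z r).filter (fun x => ¬ a8aEsc F x) → a8aEsc F x := by
    intro x hx
    by_cases h : x ∈ ball z r
    · by_contra h'
      exact hx (Finset.mem_filter.2 ⟨h, h'⟩)
    · exact a8a_esc_out hF h
  refine ⟨(ball z r).filter (fun x => ¬ a8aEsc F x), ?_, ?_, Finset.filter_subset _ _, ?_⟩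
  · intro x hx R
    have he := hmem x hx
    obtain ⟨n, b, ⟨p, h0, hn, hp, hs⟩, hbR⟩ := he R
    refine ⟨n, b, ⟨p, h0, hn, fun i hi => ?_, hs⟩, hbR⟩
    have hi' : a8aEsc F (p i) := by
      refine he.of_conn (n := i) (Conn.a8a_symm ⟨p, h0, rfl, fun j hj => hp j (by omega),
        fun j hj => hs j (by omega)⟩)
    simp only [Set.mem_compl_iff, Finset.mem_coe, Finset.mem_filter, not_and, not_not]
    exact fun _ => hi'
  · intro x hx
    refine Finset.mem_filter.2 ⟨hF hx, fun h => h.not_mem hx⟩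
  · intro x hx w hw hwF
    have hwe := hmem w hwF
    have hxe : ¬ a8aEsc F x := (Finset.mem_filter.1 hx).2
    by_cases hxF : x ∈ F
    · exact hb x hxF w hw hwe.not_mem
    · exfalso
      apply hxe
      refine hwe.of_conn (n := 1) (a8a_step ?_ ?_ (Or.inr hw))
      · simpa using hxF
      · simpa using hwe.not_mem

/-- two circuits with intersecting regions -/
lemma a8a_meet {O : Set V} {F Γ F' Γ' : Finset V} {d d' : ℕ}
    (hb : ∀ x ∈ F, ∀ w ∈ nb x, w ∉ F → x ∈ Γ) (hb' : ∀ x ∈ F', ∀ w ∈ nb x, w ∉ F' → x ∈ Γ')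
    (hc : ∀ x ∈ Γ, ∀ x' ∈ Γ, Conn O d x x') (hc' : ∀ x ∈ Γ', ∀ x' ∈ Γ', Conn O d' x x')
    (h : ¬ Γ ⊆ F') (h' : ¬ Γ' ⊆ F) {x : V} (hx : x ∈ F) (hx' : x ∈ F') :
    ∀ y ∈ Γ, ∀ y' ∈ Γ', Conn O (2 * d + 2 * d') y y' := by
  obtain ⟨z, hz, hmax⟩ := Finset.exists_max_image (F ∩ F') (fun v => v.1)
    ⟨x, Finset.mem_inter.2 ⟨hx, hx'⟩⟩
  have hw : ((z.1 + 1, z.2) : V) ∈ nb z := by simp [nb]
  have hwn : ((z.1 + 1, z.2) : V) ∉ F ∩ F' := by
    intro hh
    have := hmax _ hh
    simp at this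
  have hz1 := (Finset.mem_inter.1 hz).1
  have hz2 := (Finset.mem_inter.1 hz).2
  intro y hy y' hy'
  have hcase : z ∈ Γ ∨ z ∈ Γ' := by
    by_cases h1 : ((z.1 + 1, z.2) : V) ∈ F
    · right
      exact hb' z hz2 _ hw (fun h2 => hwn (Finset.mem_inter.2 ⟨h1, h2⟩))
    · left
      exact hb z hz1 _ hw h1
  rcases hcase with hzΓ | hzΓ
  · obtain ⟨a, ha, haF⟩ := Finset.not_subset.1 h
    obtain ⟨g, hg, -, hcg⟩ := a8a_exit hb' (hc z hzΓ a ha) hz2 haF
    exact Conn.a8a_pad (by omega) (((hc y hy z hzΓ).a8a_trans hcg).a8a_trans (hc' g hg y' hy'))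
  · obtain ⟨a, ha, haF⟩ := Finset.not_subset.1 h'
    obtain ⟨g, hg, -, hcg⟩ := a8a_exit hb (hc' z hzΓ a ha) hz1 haF
    exact Conn.a8a_pad (by omega)
      (((hc y hy g hg).a8a_trans hcg.a8a_symm).a8a_trans (hc' z hzΓ y' hy'))

/-- graph lemma: a path whose closed vertices are enclosed by circuits can be bypassed -/
theorem bypass (O : Set V) (p : ℕ → V) (n : ℕ)
    (hp : ∀ i < n, p (i + 1) = p i ∨ p (i + 1) ∈ nb (p i))
    (N : ℕ) (Γ F : ℕ → Finset V) (d : ℕ → ℕ) (hfull : ∀ l < N, Full (F l))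
    (hΓ : ∀ l < N, Γ l ⊆ F l) (hb : ∀ l < N, ∀ x ∈ F l, ∀ w ∈ nb x, w ∉ F l → x ∈ Γ l)
    (hc : ∀ l < N, ∀ x ∈ Γ l, ∀ x' ∈ Γ l, Conn O (d l) x x')
    (hcov : ∀ i ≤ n, p i ∈ O ∨ ∃ l < N, p i ∈ F l) :
    ∃ Λ : Finset V, (∀ x ∈ Λ, x ∈ O ∧ ((∃ i ≤ n, p i = x) ∨ ∃ l < N, x ∈ Γ l)) ∧
      (∀ x ∈ Λ, ∀ y ∈ Λ, Conn O (2 * n + 2 + 2 * ∑ l ∈ Finset.range N, (2 * d l + 2)) x y) ∧
      (∀ i ≤ n, p i ∈ Λ ∨ ∃ l < N, p i ∈ F l ∧ Γ l ⊆ Λ) := by
  -- the kept circuits
  set M : Finset ℕ := (Finset.range N).filter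
    (fun l => ∀ l' < N, F l ⊆ F l' → F l' = F l ∧ l ≤ l') with hM
  have hMN : ∀ l ∈ M, l < N := fun l hl => Finset.mem_range.1 (Finset.mem_filter.1 hl).1
  have hMmax : ∀ l ∈ M, ∀ l' < N, F l ⊆ F l' → F l' = F l ∧ l ≤ l' :=
    fun l hl => (Finset.mem_filter.1 hl).2
  have hMne : ∀ l ∈ M, ∀ l' ∈ M, l ≠ l' → ¬ Γ l ⊆ F l' := by
    intro l hl l' hl' hne h
    have hsub : F l ⊆ F l' := a8a_sub (hb l (hMN l hl)) (hfull l' (hMN l' hl')) h
    obtain ⟨he, hle⟩ := hMmax l hl l' (hMN l' hl') hsub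
    obtain ⟨-, hle'⟩ := hMmax l' hl' l (hMN l hl) (by rw [he])
    exact hne (le_antisymm hle hle')
  have hMcov : ∀ l < N, ∃ l' ∈ M, F l ⊆ F l' := by
    intro l hl
    obtain ⟨l', hl', hmax⟩ := Finset.exists_max_image
      ((Finset.range N).filter (fun l' => F l ⊆ F l'))
      (fun l' => (F l').card * (N + 1) + (N - l'))
      ⟨l, Finset.mem_filter.2 ⟨Finset.mem_range.2 hl, Finset.Subset.refl _⟩⟩
    have h1 := Finset.mem_filter.1 hl'
    have h1N := Finset.mem_range.1 h1.1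
    refine ⟨l', Finset.mem_filter.2 ⟨h1.1, fun l'' hl'' hsub => ?_⟩, h1.2⟩
    have h2 := hmax l'' (Finset.mem_filter.2 ⟨Finset.mem_range.2 hl'', h1.2.trans hsub⟩)
    have h3 : (F l').card ≤ (F l'').card := Finset.card_le_card hsub
    have h4 : (F l'').card ≤ (F l').card := by
      by_contra hlt
      push Not at hlt
      have h5 : ((F l').card + 1) * (N + 1) ≤ (F l'').card * (N + 1) :=
        Nat.mul_le_mul_right _ hlt
      have h6 : ((F l').card + 1) * (N + 1) = (F l').card * (N + 1) + (N + 1) := by ring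
      omega
    have h5 : F l' = F l'' := Finset.eq_of_subset_of_card_le hsub h4
    refine ⟨h5.symm, ?_⟩
    rw [← h5] at h2
    omega
  -- circuits visited up to time `k`, uncovered vertices
  set L : ℕ → Finset ℕ := fun k => M.filter (fun l => ∃ i ≤ k, p i ∈ F l) with hL
  have hLM : ∀ k, ∀ l ∈ L k, l ∈ M := fun k l hl => (Finset.mem_filter.1 hl).1
  have hLmem : ∀ k l, l ∈ L k ↔ l ∈ M ∧ ∃ i ≤ k, p i ∈ F l := fun k l => Finset.mem_filter
  set unc : ℕ → Prop := fun i => ∀ l ∈ M, p i ∉ F l with hunc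
  set B : ℕ → ℕ := fun k => k + ∑ l ∈ L k, (2 * d l + 2) with hB
  have huncO : ∀ i ≤ n, unc i → p i ∈ O := by
    intro i hi hu
    rcases hcov i hi with h | ⟨l, hl, h⟩
    · exact h
    · obtain ⟨l', hl', hsub⟩ := hMcov l hl
      exact absurd (hsub h) (hu l' hl')
  have hcov' : ∀ i, unc i ∨ ∃ l ∈ M, p i ∈ F l := by
    intro i
    by_cases h : unc i
    · exact Or.inl h
    · right
      simp only [hunc] at h
      push Not at h
      exact h
  have hdle : ∀ k, ∀ l ∈ L k, 2 * d l + 2 ≤ ∑ l ∈ L k, (2 * d l + 2) := fun k l hl =>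
    Finset.single_le_sum (f := fun l => 2 * d l + 2) (fun _ _ => Nat.zero_le _) hl
  have hmonoL : ∀ k, L k ⊆ L (k + 1) := by
    intro k l hl
    obtain ⟨h1, i, hi, h2⟩ := (hLmem k l).1 hl
    exact (hLmem _ l).2 ⟨h1, i, by omega, h2⟩
  have key : ∀ k ≤ n, ∀ x y : V,
      ((∃ i ≤ k, p i = x ∧ unc i) ∨ ∃ l ∈ L k, x ∈ Γ l) →
      ((∃ i ≤ k, p i = y ∧ unc i) ∨ ∃ l ∈ L k, y ∈ Γ l) → Conn O (B k) x y := by
    intro k
    induction k with
    | zero =>
      intro _ x y hx hy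
      have hl0 : ∀ l ∈ L 0, p 0 ∈ F l := by
        intro l hl
        obtain ⟨-, i, hi, h2⟩ := (hLmem 0 l).1 hl
        have : i = 0 := by omega
        rwa [this] at h2
      rcases hx with ⟨i, hi, hxi, hu⟩ | ⟨l, hl, hxl⟩
      · have hi0 : i = 0 := by omega
        subst hi0
        rcases hy with ⟨j, hj, hyj, -⟩ | ⟨l, hl, -⟩
        · have hj0 : j = 0 := by omega
          subst hj0
          rw [← hxi, ← hyj]
          exact Conn.a8a_pad (Nat.zero_le _) (a8a_refl (huncO 0 (Nat.zero_le _) hu))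
        · exact absurd (hl0 l hl) (hu l (hLM 0 l hl))
      · rcases hy with ⟨j, hj, hyj, hu⟩ | ⟨l', hl', hyl⟩
        · have hj0 : j = 0 := by omega
          subst hj0
          exact absurd (hl0 l hl) (hu l (hLM 0 l hl))
        · have h1 := hdle 0 l hl
          by_cases hll : l = l'
          · subst hll
            exact Conn.a8a_pad (by simp only [hB]; omega) (hc l (hMN l (hLM 0 l hl)) x hxl y hyl)
          · have hlM := hLM 0 l hl
            have hlM' := hLM 0 l' hl'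
            have h2 := a8a_meet (hb l (hMN l hlM)) (hb l' (hMN l' hlM')) (hc l (hMN l hlM))
              (hc l' (hMN l' hlM')) (hMne l hlM l' hlM' hll) (hMne l' hlM' l hlM (Ne.symm hll))
              (hl0 l hl) (hl0 l' hl') x hxl y hyl
            refine Conn.a8a_pad ?_ h2
            have h3 : ∑ m ∈ ({l, l'} : Finset ℕ), (2 * d m + 2) ≤ ∑ m ∈ L 0, (2 * d m + 2) :=
              Finset.sum_le_sum_of_subset (by
                intro m hm
                rcases Finset.mem_insert.1 hm with rfl | hm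
                · exact hl
                · rw [Finset.mem_singleton.1 hm]; exact hl')
            rw [Finset.sum_pair hll] at h3
            simp only [hB]
            omega
    | succ k ih =>
      intro hk
      have ihk := ih (by omega)
      have hstep := hp k (by omega)
      -- bounds
      have hBle : B k + 1 ≤ B (k + 1) := by
        have := Finset.sum_le_sum_of_subset (f := fun l => 2 * d l + 2) (hmonoL k)
        simp only [hB]
        omega
      have hBnew : ∀ l ∈ L (k + 1), l ∉ L k → B k + 1 + (2 * d l + 2) ≤ B (k + 1) := by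
        intro l hl hlk
        have h1 : insert l (L k) ⊆ L (k + 1) := Finset.insert_subset hl (hmonoL k)
        have h2 := Finset.sum_le_sum_of_subset (f := fun l => 2 * d l + 2) h1
        rw [Finset.sum_insert hlk] at h2
        simp only [hB]
        omega
      -- the station of time `k`
      have hstat : unc k ∨ ∃ l ∈ L k, p k ∈ F l := by
        rcases hcov' k with h | ⟨l, hl, h⟩
        · exact Or.inl h
        · exact Or.inr ⟨l, (hLmem k l).2 ⟨hl, k, le_refl _, h⟩, h⟩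
      -- new circuits contain `p (k+1)`
      have hnew : ∀ l ∈ L (k + 1), l ∉ L k → p (k + 1) ∈ F l ∧ p (k + 1) ∈ Γ l ∧ p k ∉ F l := by
        intro l hl hlk
        obtain ⟨hlM, i, hi, hiF⟩ := (hLmem _ l).1 hl
        have h1 : ∀ j ≤ k, p j ∉ F l := fun j hj hjF => hlk ((hLmem k l).2 ⟨hlM, j, hj, hjF⟩)
        have hik : i = k + 1 := by
          by_contra hne
          exact h1 i (by omega) hiF
        subst hik
        refine ⟨hiF, ?_, h1 k (le_refl _)⟩
        rcases hstep with h | h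
        · exact absurd (h ▸ hiF) (h1 k (le_refl _))
        · exact hb l (hMN l hlM) _ hiF (p k) (nb_symm.1 h) (h1 k (le_refl _))
      -- `p (k+1)`, if uncovered or in a new circuit, is joined to the old part
      have hjoin : ∀ dd : ℕ, (unc (k + 1) ∨ ∃ l ∈ L (k + 1), l ∉ L k ∧ dd = d l) →
          ∀ x : V, ((∃ i ≤ k, p i = x ∧ unc i) ∨ ∃ l ∈ L k, x ∈ Γ l) →
          Conn O (B k + 1 + dd) (p (k + 1)) x := by
        intro dd hdd x hx
        have hO1 : p (k + 1) ∈ O := by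
          rcases hdd with h | ⟨l, hl, hlk, -⟩
          · exact huncO _ hk h
          · exact (hc l (hMN l (hLM _ l hl)) _ (hnew l hl hlk).2.1 _ (hnew l hl hlk).2.1).a8a_left
        -- if `p k` is in the old part
        have hA : (((∃ i ≤ k, p i = p k ∧ unc i) ∨ ∃ l ∈ L k, p k ∈ Γ l)) →
            Conn O (B k + 1 + dd) (p (k + 1)) x := by
          intro hin
          have h1 := ihk (p k) x hin hx
          have h2 : Conn O 1 (p (k + 1)) (p k) :=
            (a8a_step h1.a8a_left hO1 hstep).a8a_symm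
          exact Conn.a8a_pad (by omega) (h2.a8a_trans h1)
        rcases hstat with hu | ⟨l0, hl0, hkF⟩
        · exact hA (Or.inl ⟨k, le_refl _, rfl, hu⟩)
        · have hl0M := hLM k l0 hl0
          by_cases h1F : p (k + 1) ∈ F l0
          · rcases hdd with h | ⟨l, hl, hlk, hd⟩
            · exact absurd h1F (h l0 hl0M)
            · have hlM := hLM _ l hl
              have hne : l ≠ l0 := fun h => hlk (h ▸ hl0)
              obtain ⟨a, ha, haF⟩ := Finset.not_subset.1 (hMne l hlM l0 hl0M hne)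
              obtain ⟨g, hg, -, hcg⟩ := a8a_exit (hb l0 (hMN l0 hl0M))
                (hc l (hMN l hlM) _ (hnew l hl hlk).2.1 a ha) h1F haF
              have h3 := ihk g x (Or.inr ⟨l0, hl0, hg⟩) hx
              exact Conn.a8a_pad (by omega) (hcg.a8a_trans h3)
          · have hnb : p (k + 1) ∈ nb (p k) := by
              rcases hstep with h | h
              · exact absurd (h ▸ hkF) h1F
              · exact h
            exact hA (Or.inr ⟨l0, hl0, hb l0 (hMN l0 hl0M) _ hkF _ hnb h1F⟩)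
      -- each new point is old, `p (k+1)`, or in a new circuit
      have hsplit : ∀ x : V, ((∃ i ≤ k + 1, p i = x ∧ unc i) ∨ ∃ l ∈ L (k + 1), x ∈ Γ l) →
          ((∃ i ≤ k, p i = x ∧ unc i) ∨ ∃ l ∈ L k, x ∈ Γ l) ∨ (x = p (k + 1) ∧ unc (k + 1)) ∨
            ∃ l ∈ L (k + 1), l ∉ L k ∧ x ∈ Γ l := by
        intro x hx
        rcases hx with ⟨i, hi, hix, hu⟩ | ⟨l, hl, hxl⟩
        · rcases Nat.lt_or_ge k i with h | h
          · have : i = k + 1 := by omega
            subst this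
            exact Or.inr (Or.inl ⟨hix.symm, hu⟩)
          · exact Or.inl (Or.inl ⟨i, h, hix, hu⟩)
        · by_cases hlk : l ∈ L k
          · exact Or.inl (Or.inr ⟨l, hlk, hxl⟩)
          · exact Or.inr (Or.inr ⟨l, hl, hlk, hxl⟩)
      have hcl : ∀ l ∈ L (k + 1), l ∉ L k → ∀ x ∈ Γ l, Conn O (d l) x (p (k + 1)) :=
        fun l hl hlk x hx => hc l (hMN l (hLM _ l hl)) x hx _ (hnew l hl hlk).2.1
      intro x y hx hy
      rcases hsplit x hx with hx | ⟨hx, hux⟩ | ⟨l, hl, hlk, hxl⟩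
      · rcases hsplit y hy with hy | ⟨hy, huy⟩ | ⟨l', hl', hlk', hyl⟩
        · exact Conn.a8a_pad (by omega) (ihk x y hx hy)
        · rw [hy]
          exact Conn.a8a_pad (by omega) (hjoin 0 (Or.inl huy) x hx).a8a_symm
        · have h1 := (hjoin (d l') (Or.inr ⟨l', hl', hlk', rfl⟩) x hx).a8a_symm
          have h2 := (hcl l' hl' hlk' y hyl).a8a_symm
          have h3 := hBnew l' hl' hlk'
          exact Conn.a8a_pad (by omega) (h1.a8a_trans h2)
      · rcases hsplit y hy with hy | ⟨hy, huy⟩ | ⟨l', hl', hlk', hyl⟩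
        · rw [hx]
          exact Conn.a8a_pad (by omega) (hjoin 0 (Or.inl hux) y hy)
        · rw [hx, hy]
          exact Conn.a8a_pad (Nat.zero_le _) (a8a_refl (huncO _ hk hux))
        · rw [hx]
          have h3 := hBnew l' hl' hlk'
          exact Conn.a8a_pad (by omega) (hcl l' hl' hlk' y hyl).a8a_symm
      · have h3 := hBnew l hl hlk
        rcases hsplit y hy with hy | ⟨hy, huy⟩ | ⟨l', hl', hlk', hyl⟩
        · have h1 := hjoin (d l) (Or.inr ⟨l, hl, hlk, rfl⟩) y hy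
          exact Conn.a8a_pad (by omega) ((hcl l hl hlk x hxl).a8a_trans h1)
        · rw [hy]
          exact Conn.a8a_pad (by omega) (hcl l hl hlk x hxl)
        · by_cases hll : l = l'
          · subst hll
            exact Conn.a8a_pad (by omega) (hc l (hMN l (hLM _ l hl)) x hxl y hyl)
          · have h4 : ∑ m ∈ ({l, l'} : Finset ℕ), (2 * d m + 2) ≤ ∑ m ∈ L (k + 1), (2 * d m + 2) :=
              Finset.sum_le_sum_of_subset (by
                intro m hm
                rcases Finset.mem_insert.1 hm with rfl | hm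
                · exact hl
                · rw [Finset.mem_singleton.1 hm]; exact hl')
            rw [Finset.sum_pair hll] at h4
            refine Conn.a8a_pad ?_ ((hcl l hl hlk x hxl).a8a_trans (hcl l' hl' hlk' y hyl).a8a_symm)
            simp only [hB]
            omega
  -- the set
  have hmemΛ : ∀ x : V, x ∈ ((Finset.range (n + 1)).filter unc).image p ∪ (L n).biUnion Γ ↔
      ((∃ i ≤ n, p i = x ∧ unc i) ∨ ∃ l ∈ L n, x ∈ Γ l) := by
    intro x
    rw [Finset.mem_union, Finset.mem_image, Finset.mem_biUnion]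
    constructor
    · rintro (⟨i, hi, hix⟩ | h)
      · have h1 := Finset.mem_filter.1 hi
        exact Or.inl ⟨i, by have := Finset.mem_range.1 h1.1; omega, hix, h1.2⟩
      · exact Or.inr h
    · rintro (⟨i, hi, hix, hu⟩ | h)
      · exact Or.inl ⟨i, Finset.mem_filter.2 ⟨Finset.mem_range.2 (by omega), hu⟩, hix⟩
      · exact Or.inr h
  refine ⟨((Finset.range (n + 1)).filter unc).image p ∪ (L n).biUnion Γ, ?_, ?_, ?_⟩
  · intro x hx
    rcases (hmemΛ x).1 hx with ⟨i, hi, hix, hu⟩ | ⟨l, hl, hxl⟩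
    · exact ⟨hix ▸ huncO i hi hu, Or.inl ⟨i, hi, hix⟩⟩
    · have hlN := hMN l (hLM n l hl)
      exact ⟨(hc l hlN x hxl x hxl).a8a_left, Or.inr ⟨l, hlN, hxl⟩⟩
  · intro x hx y hy
    refine Conn.a8a_pad ?_ (key n (le_refl _) x y ((hmemΛ x).1 hx) ((hmemΛ y).1 hy))
    have h1 : ∑ l ∈ L n, (2 * d l + 2) ≤ ∑ l ∈ Finset.range N, (2 * d l + 2) :=
      Finset.sum_le_sum_of_subset (fun l hl => Finset.mem_range.2 (hMN l (hLM n l hl)))
    simp only [hB]
    omega
  · intro i hi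
    rcases hcov' i with h | ⟨l, hl, h⟩
    · exact Or.inl ((hmemΛ _).2 (Or.inl ⟨i, hi, rfl, h⟩))
    · right
      refine ⟨l, hMN l hl, h, fun x hx => (hmemΛ x).2 (Or.inr ⟨l, (hLmem n l).2 ⟨hl, i, hi, h⟩, hx⟩)⟩

end Pool.H92.GFL
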