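import Pool.Agent.helper92.GFL.A1
import Pool.Agent.helper92.GFL.A8a
import Pool.Agent.helper92.GFL.L3

namespace Pool.H92.GFL

open Function Finset MeasureTheory ProbabilityTheory Pool.H92.GFF
open scoped Classical ENNReal

lemma a6_eb_mono {b0 b b' : ℕ} (h : b' ≤ b) : eb b0 b' ≤ eb b0 b := by
  unfold eb lb
  have := Nat.log_mono_right (b := 16) (show b' + b0 ≤ b + b0 by omega)
  omega

lemma a6_eb_ge {b0 b : ℕ} (hb0 : 16 ^ 10 ≤ b0) : 30 ≤ eb b0 b := by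
  unfold eb lb
  have h1 : 10 ≤ Nat.log 16 (b + b0) := by
    apply Nat.le_log_of_pow_le (by norm_num)
    omega
  omega

lemma a6_jb_anti {k0 b0 b b' : ℕ} (h : b' ≤ b) : jb k0 b0 b ≤ jb k0 b0 b' := by
  unfold jb
  have he := a6_eb_mono (b0 := b0) h
  split_ifs with h1 h2
  · unfold ib
    omega
  · omega
  · omega
  · omega

lemma a6_jb_le {k0 b0 b : ℕ} (hb0 : 16 ^ 10 ≤ b0) (hb : b < nlev k0 b0) :
    jb k0 b0 b + 36 ≤ k0 := by
  have h1 := lt_nlev.1 hb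
  have h2 := a6_eb_ge (b := b) hb0
  unfold jb
  rw [if_pos hb]
  unfold ib
  omega

lemma a6_osc {ψ : V → ℝ} {z v : V} {r : ℕ} (hv : v ∈ ball z r) : ψ v ≤ ψ z + osc ψ z r := by
  have h := Finset.le_sup' (fun x => |ψ x - ψ z|) hv
  have h2 := le_abs_self (ψ v - ψ z)
  unfold osc
  linarith

/-- the value of the field on the circuits -/
lemma a6_val (X : ℕ → V → ℝ) {k0 b0 b b' u : ℕ} {K y0 : ℝ}
    (hb0 : 16 ^ 10 ≤ b0) (hy : 4 * y0 ≤ K) (hu : u < 2 ^ k0) (hb : b ≤ nlev k0 b0) (hbb : b' < b)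
    (hG : Gd X k0 b0 K b' u) {v : V}
    (hv : v ∈ ball (loc X k0 b0 b u) (3 * 2 ^ (jb k0 b0 b' + c0)))
    (hv' : ∑ j ∈ Finset.range (jb k0 b0 b'), X j v ≤ y0) :
    ∑ j ∈ Finset.range k0, X j v ≤ K := by
  have hb' : b' < nlev k0 b0 := by omega
  have hj := a6_jb_le hb0 hb'
  have h1 := loc_close X hb0 hu hbb.le hb
  have h2 := mem_ball_trans h1 hv
  have h3 : v ∈ ball (loc X k0 b0 b' u) (64 * 2 ^ jb k0 b0 b') := by
    refine ball_mono ?_ h2
    unfold c0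
    rw [pow_add]
    omega
  have h4 : ∑ j ∈ Finset.Ico (jb k0 b0 b') k0, X j v ≤
      ∑ j ∈ Finset.Ico (jb k0 b0 b') k0, (X j (loc X k0 b0 b' u) +
        osc (X j) (loc X k0 b0 b' u) (64 * 2 ^ jb k0 b0 b')) :=
    Finset.sum_le_sum fun j _ => a6_osc h3
  rw [Finset.sum_add_distrib] at h4
  have h5 := hG.1
  have h6 := hG.2.1
  unfold Gd1 at h5
  unfold Gd2 at h6
  rw [← Finset.sum_range_add_sum_Ico _ (show jb k0 b0 b' ≤ k0 by omega)]
  linarith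

/-- triples used in the construction -/
noncomputable def a6_S (X : ℕ → V → ℝ) (k0 b0 : ℕ) (K y0 : ℝ) (Cs : ℕ) : Finset (ℕ × ℕ × ℕ) :=
  ((Finset.range (nlev k0 b0 + 1)) ×ˢ ((Finset.range (2 ^ k0)) ×ˢ
    (Finset.range (nlev k0 b0 + 1)))).filter (fun q =>
      2 ^ jb k0 b0 q.1 ∣ q.2.1 ∧ q.2.2 < q.1 ∧ FB X k0 b0 K q.1 q.2.1 ∧
      Op X k0 b0 y0 Cs q.1 q.2.2 q.2.1 ∧
      ∀ b'', q.2.2 < b'' → b'' < q.1 → ¬ Op X k0 b0 y0 Cs q.1 b'' q.2.1)

lemma a6_sum_le (X : ℕ → V → ℝ) (k0 b0 : ℕ) (K y0 : ℝ) (Cs : ℕ) :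
    ∑ q ∈ a6_S X k0 b0 K y0 Cs, (2 * ((Cs * 2 ^ (jb k0 b0 q.2.2 + c0) : ℕ) : ℝ) + 2) ≤
      cost X k0 b0 K y0 Cs := by
  unfold a6_S cost
  rw [Finset.sum_filter, Finset.sum_product]
  refine Finset.sum_le_sum fun b hb => ?_
  rw [Finset.sum_product, Finset.sum_filter]
  refine Finset.sum_le_sum fun u hu => ?_
  rw [Finset.mem_range] at hb
  by_cases hdiv : 2 ^ jb k0 b0 b ∣ u
  · rw [if_pos hdiv]
    have hsub : Finset.range b ⊆ Finset.range (nlev k0 b0 + 1) := Finset.range_subset_range.2 (by omega)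
    rw [← Finset.sum_subset hsub]
    · refine Finset.sum_le_sum fun b' hb' => ?_
      rw [Finset.mem_range] at hb'
      split_ifs with h1 h2 h2
      · push_cast
        linarith
      · exact absurd ⟨h1.2.2.1, h1.2.2.2.2⟩ h2
      · positivity
      · exact le_rfl
    · intro b' _ hb'
      rw [Finset.mem_range] at hb'
      rw [if_neg]
      rintro ⟨-, h, -⟩
      exact hb' h
  · rw [if_neg hdiv]
    refine Finset.sum_nonpos fun b' _ => ?_
    rw [if_neg]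
    rintro ⟨h, -⟩
    exact hdiv h

theorem seg_of_cost (X : ℕ → V → ℝ) {k0 b0 Cs : ℕ} {K y0 T : ℝ} (hk0 : 1 ≤ k0)
    (hb0 : 16 ^ 10 ≤ b0) (hy : 4 * y0 ≤ K) (hK : 0 ≤ K)
    (h1 : ∀ b ≤ nlev k0 b0, ∀ u < 2 ^ k0, FB X k0 b0 K b u → ∃ b' < b, Op X k0 b0 y0 Cs b b' u)
    (h2 : cost X k0 b0 K y0 Cs ≤ T) :
    Seg (fun v => ∑ j ∈ Finset.range k0, X j v) K k0 T := by
  set p : ℕ → V := fun u => if u < 2 ^ k0 then loc X k0 b0 (nlev k0 b0) u else
    ((2 ^ k0 / 2, 2 ^ k0 / 2) : V) with hp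
  have hpu : ∀ u < 2 ^ k0, p u = loc X k0 b0 (nlev k0 b0) u := fun u hu => by
    rw [hp]
    simp only [hu, if_true]
  set S := a6_S X k0 b0 K y0 Cs with hS
  -- the circuits
  have key : ∀ q : ℕ × ℕ × ℕ, ∃ Γ F : Finset V, q ∈ S →
      (Full F ∧ Γ ⊆ F ∧ (∀ x ∈ F, ∀ w ∈ nb x, w ∉ F → x ∈ Γ) ∧
      (∀ x ∈ F, ∃ i ≤ 2 ^ k0, x ∈ ball (p i) (2 ^ k0)) ∧
      (∀ x ∈ Γ, ∑ j ∈ Finset.range k0, X j x ≤ K) ∧
      ∀ x ∈ Γ, ∀ x' ∈ Γ,
        Conn {v | ∑ j ∈ Finset.range k0, X j v ≤ K ∧ ∃ i ≤ 2 ^ k0, v ∈ ball (p i) (2 ^ k0)}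
          (Cs * 2 ^ (jb k0 b0 q.2.2 + c0)) x x') ∧
      ball (loc X k0 b0 q.1 q.2.1) (2 ^ (jb k0 b0 q.2.2 + c0)) ⊆ F := by
    rintro ⟨b, u, b'⟩
    by_cases hq : (b, u, b') ∈ S
    swap
    · exact ⟨∅, ∅, fun h => absurd h hq⟩
    rw [hS] at hq
    unfold a6_S at hq
    simp only [Finset.mem_filter, Finset.mem_product, Finset.mem_range] at hq
    obtain ⟨⟨hb, hu, -⟩, hdiv, hbb, hFB, hOp, -⟩ := hq
    have hb' : b' < nlev k0 b0 := by omega
    have hj := a6_jb_le hb0 hb'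
    have hj2 : jb k0 b0 b ≤ jb k0 b0 b' := a6_jb_anti hbb.le
    have hpow : 64 * 2 ^ jb k0 b0 b' ≤ 2 ^ k0 := by
      calc 64 * 2 ^ jb k0 b0 b' = 2 ^ (6 + jb k0 b0 b') := by rw [pow_add]; norm_num
        _ ≤ 2 ^ k0 := Nat.pow_le_pow_right (by norm_num) (by omega)
    have hpow2 : 2 ^ jb k0 b0 b ≤ 2 ^ jb k0 b0 b' := Nat.pow_le_pow_right (by norm_num) hj2
    obtain ⟨Γ, F0, hF1, hF2, hΓF, -, hbd, hΓy, hconn⟩ := hOp
    obtain ⟨F, hfull, hFF, hF3, hbd'⟩ := fill hF2 hΓF hbd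
    have hval : ∀ v, v ∈ ball (loc X k0 b0 b u) (3 * 2 ^ (jb k0 b0 b' + c0)) →
        ∑ j ∈ Finset.range (jb k0 b0 b'), X j v ≤ y0 → ∑ j ∈ Finset.range k0, X j v ≤ K :=
      fun v hv hv' => a6_val X hb0 hy hu (by omega) hbb (hFB.1 b' hbb) hv hv'
    have hnear : ∀ v, v ∈ ball (loc X k0 b0 b u) (3 * 2 ^ (jb k0 b0 b' + c0)) →
        ∃ i ≤ 2 ^ k0, v ∈ ball (p i) (2 ^ k0) := by
      intro v hv
      refine ⟨u, hu.le, ?_⟩
      rw [hpu u hu]
      have h3 := loc_close X hb0 hu (show b ≤ nlev k0 b0 by omega) le_rfl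
      rw [mem_ball_symm] at h3
      refine ball_mono ?_ (mem_ball_trans h3 hv)
      unfold c0
      rw [pow_add]
      omega
    refine ⟨Γ, F, fun _ => ⟨⟨hfull, hΓF.trans hFF, hbd', fun x hx => hnear x (hF3 hx),
      fun x hx => hval x (hF2 (hΓF hx)) (hΓy x hx), ?_⟩, hF1.trans hFF⟩⟩
    intro x hx x' hx'
    refine (hconn x hx x' hx').mono_set ?_
    rintro v ⟨hv1, hv2⟩
    exact ⟨hval v hv1.1 hv2, hnear v hv1.1⟩
  choose Γ F hΓF using key
  set e := S.equivFin with he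
  have hsum : ∀ f : ℕ × ℕ × ℕ → ℝ, ∑ l ∈ Finset.range S.card,
      (if h : l < S.card then f (e.symm ⟨l, h⟩) else 0) = ∑ q ∈ S, f q := by
    intro f
    rw [Finset.sum_range]
    simp only [Fin.is_lt, dite_true, Fin.eta]
    rw [Equiv.sum_comp e.symm (fun q : S => f q), Finset.sum_coe_sort S f]
  refine ⟨p, S.card, fun l => if h : l < S.card then Γ (e.symm ⟨l, h⟩) else ∅,
    fun l => if h : l < S.card then F (e.symm ⟨l, h⟩) else ∅,
    fun l => if h : l < S.card then Cs * 2 ^ (jb k0 b0 (e.symm ⟨l, h⟩ : ℕ × ℕ × ℕ).2.2 + c0) else 0,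
    ?_, ?_, ?_, ?_, ?_, ?_, ?_⟩
  · rw [hpu 0 (by positivity), path_zero]
  · rw [hp]
    simp
  · intro i hi
    have h3 := path_adj X hk0 hb0 hi
    rw [hpu i hi]
    exact h3
  · intro i hi
    rcases hi.lt_or_eq with h | h
    · rw [hpu i h]
      exact path_uv X hb0 h
    · subst h
      rw [hp]
      simp only [lt_irrefl, if_false, sub_self]
      obtain ⟨k, rfl⟩ : ∃ k, k0 = k + 1 := ⟨k0 - 1, by omega⟩
      refine ⟨?_, by norm_num, by positivity⟩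
      push_cast
      rw [pow_succ]
      omega
  · intro l hl
    simp only [hl, dite_true]
    exact (hΓF _ (e.symm ⟨l, hl⟩).2).1
  · intro u hu
    by_cases hall : ∀ b ≤ nlev k0 b0, Gd X k0 b0 K b u
    · left
      have h3 := (hall _ le_rfl).1
      unfold Gd1 at h3
      have hj0 : jb k0 b0 (nlev k0 b0) = 0 := by
        unfold jb
        rw [if_neg (lt_irrefl _)]
      rw [hj0, ← Finset.range_eq_Ico] at h3
      have hh0 : 0 ≤ hh b0 (nlev k0 b0) := by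
        unfold hh
        positivity
      simp only [hpu u hu]
      linarith
    · right
      push Not at hall
      obtain ⟨b, ⟨hb, hbG⟩, hmin⟩ : ∃ b, (b ≤ nlev k0 b0 ∧ ¬ Gd X k0 b0 K b u) ∧
          ∀ b' < b, Gd X k0 b0 K b' u := by
        refine ⟨Nat.find hall, Nat.find_spec hall, fun b' hb' => ?_⟩
        have h3 := Nat.find_min hall hb'
        have h4 := (Nat.find_spec hall).1
        by_contra h5
        exact h3 ⟨by omega, h5⟩
      have hFB : FB X k0 b0 K b u := ⟨hmin, hbG⟩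
      obtain ⟨hloc, -, hFBr⟩ := Gd_cell X (u := u) (K := K) hb
      set u0 := rdn (jb k0 b0 b) u with hu0
      have hu0u : u0 ≤ u := by
        rw [hu0]
        unfold rdn
        exact Nat.mul_div_le u _
      have hdiv : 2 ^ jb k0 b0 b ∣ u0 := by
        rw [hu0]
        unfold rdn
        exact dvd_mul_right _ _
      have hOpiff : ∀ b', Op X k0 b0 y0 Cs b b' u0 ↔ Op X k0 b0 y0 Cs b b' u := by
        intro b'
        unfold Op
        rw [hloc]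
      -- the largest level with a circuit
      obtain ⟨b', hbb, hOp, hmax⟩ : ∃ b' < b, Op X k0 b0 y0 Cs b b' u ∧
          ∀ b'', b' < b'' → b'' < b → ¬ Op X k0 b0 y0 Cs b b'' u := by
        obtain ⟨b₁, hb₁, hOp₁⟩ := h1 b hb u hu hFB
        have hne : ((Finset.range b).filter (fun b' => Op X k0 b0 y0 Cs b b' u)).Nonempty :=
          ⟨b₁, by simp [hb₁, hOp₁]⟩
        obtain ⟨b', hb', hmax⟩ := Finset.exists_max_image _ id hne
        simp only [Finset.mem_filter, Finset.mem_range, id] at hb' hmax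
        refine ⟨b', hb'.1, hb'.2, fun b'' h3 h4 h5 => ?_⟩
        have := hmax b'' ⟨h4, h5⟩
        omega
      have hmem : (b, u0, b') ∈ S := by
        rw [hS]
        unfold a6_S
        simp only [Finset.mem_filter, Finset.mem_product, Finset.mem_range]
        refine ⟨⟨by omega, by omega, by omega⟩, hdiv, hbb, hFBr.2 hFB, (hOpiff b').2 hOp, ?_⟩
        intro b'' h3 h4 h5
        exact hmax b'' h3 h4 ((hOpiff b'').1 h5)
      refine ⟨e ⟨(b, u0, b'), hmem⟩, (e ⟨(b, u0, b'), hmem⟩).2, ?_⟩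
      simp only [Fin.is_lt, dite_true, Fin.eta, Equiv.symm_apply_apply]
      apply (hΓF _ hmem).2
      simp only
      rw [hloc, hpu u hu]
      refine ball_mono ?_ (loc_close X hb0 hu hb le_rfl)
      have hj2 : jb k0 b0 b ≤ jb k0 b0 b' := a6_jb_anti hbb.le
      have hpow2 : 2 ^ jb k0 b0 b ≤ 2 ^ jb k0 b0 b' := Nat.pow_le_pow_right (by norm_num) hj2
      unfold c0
      rw [pow_add]
      omega
  · refine le_trans (le_of_eq ?_) ((a6_sum_le X k0 b0 K y0 Cs).trans h2)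
    rw [← hS, ← hsum (fun q => 2 * ((Cs * 2 ^ (jb k0 b0 q.2.2 + c0) : ℕ) : ℝ) + 2)]
    refine Finset.sum_congr rfl fun l hl => ?_
    rw [Finset.mem_range] at hl
    simp only [hl, dite_true]

end Pool.H92.GFL
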