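import Pool.Agent.helper92.GFL.A4a
import Pool.Agent.helper92.GFL.A4b
import Pool.Agent.helper92.GFL.A4d
import Pool.Agent.helper92.GFL.A5
import Pool.Agent.helper92.GFL.A6

namespace Pool.H92.GFL

open Function Finset MeasureTheory ProbabilityTheory Pool.H92.GFF
open scoped Classical ENNReal

lemma a7_real_le {Ω : Type} [MeasurableSpace Ω] {μ : Measure Ω} {A : Set Ω} {x : ℝ}
    (hx : 0 ≤ x) (h : μ A ≤ ENNReal.ofReal x) : μ.real A ≤ x :=
  ENNReal.toReal_le_of_le_ofReal hx h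

/-- Markov without measurability -/
lemma a7_markov {Ω : Type} [MeasurableSpace Ω] {μ : Measure Ω} [IsProbabilityMeasure μ]
    {ι : Type*} (s : Finset ι) (A : ι → Set Ω) (c : ι → ℝ) (hc : ∀ i ∈ s, 0 ≤ c i) {T : ℝ}
    (hT : 0 < T) :
    μ.real {ω | T < ∑ i ∈ s, if ω ∈ A i then c i else 0} ≤
      (∑ i ∈ s, c i * μ.real (A i)) / T := by
  set f : Ω → ℝ≥0∞ := fun ω =>
    ∑ i ∈ s, ENNReal.ofReal (c i) * (toMeasurable μ (A i)).indicator 1 ω with hf
  have hfm : Measurable f := by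
    refine Finset.measurable_sum _ (fun i _ => ?_)
    exact ((measurable_const.indicator (measurableSet_toMeasurable _ _))).const_mul _
  have hint : ∫⁻ ω, f ω ∂μ = ∑ i ∈ s, ENNReal.ofReal (c i) * μ (A i) := by
    rw [hf, lintegral_finsetSum]
    · refine Finset.sum_congr rfl (fun i _ => ?_)
      rw [lintegral_const_mul]
      · rw [lintegral_indicator_one (measurableSet_toMeasurable _ _), measure_toMeasurable]
      · exact measurable_const.indicator (measurableSet_toMeasurable _ _)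
    · intro i _
      exact ((measurable_const.indicator (measurableSet_toMeasurable _ _))).const_mul _
  have hsub : {ω | T < ∑ i ∈ s, if ω ∈ A i then c i else 0} ⊆ {ω | ENNReal.ofReal T ≤ f ω} := by
    intro ω hω
    simp only [Set.mem_ofPred_eq] at hω ⊢
    calc ENNReal.ofReal T ≤ ENNReal.ofReal (∑ i ∈ s, if ω ∈ A i then c i else 0) :=
          ENNReal.ofReal_le_ofReal hω.le
      _ = ∑ i ∈ s, ENNReal.ofReal (if ω ∈ A i then c i else 0) :=
          ENNReal.ofReal_sum_of_nonneg (fun i hi => by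
            split_ifs
            · exact hc i hi
            · exact le_rfl)
      _ ≤ f ω := by
          rw [hf]
          refine Finset.sum_le_sum (fun i _ => ?_)
          split_ifs with h
          · rw [Set.indicator_of_mem (subset_toMeasurable μ (A i) h)]
            simp
          · simp
  have h1 : μ {ω | T < ∑ i ∈ s, if ω ∈ A i then c i else 0} ≤
      (∑ i ∈ s, ENNReal.ofReal (c i) * μ (A i)) / ENNReal.ofReal T := by
    refine (measure_mono hsub).trans ?_
    rw [← hint]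
    exact meas_ge_le_lintegral_div hfm.aemeasurable (by simpa using hT) ENNReal.ofReal_ne_top
  have h2 : (∑ i ∈ s, ENNReal.ofReal (c i) * μ (A i)) / ENNReal.ofReal T =
      ENNReal.ofReal ((∑ i ∈ s, c i * μ.real (A i)) / T) := by
    rw [ENNReal.ofReal_div_of_pos hT]
    congr 1
    rw [ENNReal.ofReal_sum_of_nonneg (fun i hi => mul_nonneg (hc i hi) measureReal_nonneg)]
    refine Finset.sum_congr rfl (fun i hi => ?_)
    rw [ENNReal.ofReal_mul (hc i hi), ofReal_measureReal]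
  refine a7_real_le ?_ (h1.trans h2.le)
  exact div_nonneg (Finset.sum_nonneg (fun i hi => mul_nonneg (hc i hi) measureReal_nonneg)) hT.le

lemma a7_inter {Ω : Type} [MeasurableSpace Ω] {μ : Measure Ω} [IsProbabilityMeasure μ]
    {A B : Set Ω} {t : ℝ} (ht : 0 ≤ t) (hB : μ.real B ≤ t ^ 2) :
    μ.real (A ∩ B) ≤ √(μ.real A) * t := by
  have h1 : μ.real (A ∩ B) ≤ μ.real A := measureReal_mono Set.inter_subset_left
  have h2 : μ.real (A ∩ B) ≤ t ^ 2 := (measureReal_mono Set.inter_subset_right).trans hB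
  have h0 : 0 ≤ μ.real (A ∩ B) := measureReal_nonneg
  calc μ.real (A ∩ B) = √(μ.real (A ∩ B)) * √(μ.real (A ∩ B)) := (Real.mul_self_sqrt h0).symm
    _ ≤ √(μ.real A) * √(t ^ 2) :=
        mul_le_mul (Real.sqrt_le_sqrt h1) (Real.sqrt_le_sqrt h2) (Real.sqrt_nonneg _)
          (Real.sqrt_nonneg _)
    _ = √(μ.real A) * t := by rw [Real.sqrt_sq ht]

/-- sum over a grid -/
lemma a7_grid {k0 j : ℕ} (hj : j ≤ k0) (f : ℕ → ℝ) (hf : ∀ u, f (rdn j u) = f u) :
    ∑ u ∈ Finset.range (2 ^ k0), f u =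
      2 ^ j * ∑ u ∈ (Finset.range (2 ^ k0)).filter (fun u => 2 ^ j ∣ u), f u := by
  have hpos : 0 < 2 ^ j := by positivity
  have hmap : ∀ u ∈ Finset.range (2 ^ k0),
      rdn j u ∈ (Finset.range (2 ^ k0)).filter (fun u => 2 ^ j ∣ u) := by
    intro u hu
    rw [Finset.mem_filter, Finset.mem_range]
    rw [Finset.mem_range] at hu
    refine ⟨lt_of_le_of_lt (Nat.mul_div_le u (2 ^ j)) hu, Dvd.intro _ rfl⟩
  rw [← Finset.sum_fiberwise_of_maps_to hmap, Finset.mul_sum]
  refine Finset.sum_congr rfl (fun v hv => ?_)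
  rw [Finset.mem_filter, Finset.mem_range] at hv
  obtain ⟨hv1, q, rfl⟩ := hv
  have hfib : (Finset.range (2 ^ k0)).filter (fun u => rdn j u = 2 ^ j * q) =
      Finset.Ico (2 ^ j * q) (2 ^ j * q + 2 ^ j) := by
    ext u
    rw [Finset.mem_filter, Finset.mem_range, Finset.mem_Ico]
    unfold rdn
    constructor
    · rintro ⟨_, h⟩
      have h1 : u / 2 ^ j = q := Nat.eq_of_mul_eq_mul_left hpos h
      have h2 := Nat.div_add_mod u (2 ^ j)
      have h3 := Nat.mod_lt u hpos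
      rw [h1] at h2
      omega
    · rintro ⟨h1, h2⟩
      have h3 : u / 2 ^ j = q := by
        refine le_antisymm ?_ ?_
        · rw [← Nat.lt_succ_iff, Nat.div_lt_iff_lt_mul hpos, Nat.succ_mul, mul_comm q]
          exact h2
        · rw [Nat.le_div_iff_mul_le hpos, mul_comm q]
          exact h1
      refine ⟨?_, by rw [h3]⟩
      obtain ⟨d, rfl⟩ := Nat.exists_eq_add_of_le hj
      rw [pow_add] at hv1 ⊢
      have h4 : q < 2 ^ d := lt_of_mul_lt_mul_left hv1 (Nat.zero_le _)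
      calc u < 2 ^ j * q + 2 ^ j := h2
        _ = 2 ^ j * (q + 1) := by ring
        _ ≤ 2 ^ j * 2 ^ d := Nat.mul_le_mul_left _ h4
  rw [hfib]
  have hconst : ∀ u ∈ Finset.Ico (2 ^ j * q) (2 ^ j * q + 2 ^ j), f u = f (2 ^ j * q) := by
    intro u hu
    rw [← hfib, Finset.mem_filter] at hu
    rw [← hf u, hu.2]
  rw [Finset.sum_congr rfl hconst, Finset.sum_const, Nat.card_Ico, nsmul_eq_mul]
  congr 1
  rw [Nat.add_sub_cancel_left]
  push_cast
  ring

lemma a7_jb_le (k0 b0 b : ℕ) : jb k0 b0 b ≤ k0 := by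
  unfold jb ib
  split_ifs <;> omega

lemma a7_k0_le (k0 b0 b : ℕ) : k0 ≤ jb k0 b0 b + (8 * b + eb b0 b + 6) := by
  unfold jb ib
  split_ifs with h
  · omega
  · rw [lt_nlev] at h; omega

lemma a7_lb_step (b0 b n : ℕ) : lb b0 (b + n) ≤ lb b0 b + n := by
  induction n with
  | zero => simp
  | succ n ih =>
    have h1 : lb b0 (b + (n + 1)) ≤ lb b0 (b + n) + 1 := by
      unfold lb
      by_cases h : b + n + b0 = 0
      · have : b + (n + 1) + b0 = 1 := by omega
        rw [this]; simp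
      · calc Nat.log 16 (b + (n + 1) + b0) ≤ Nat.log 16 ((b + n + b0) * 16) :=
              Nat.log_mono_right (by omega)
          _ = Nat.log 16 (b + n + b0) + 1 := Nat.log_mul_base (by norm_num) h
    omega

lemma a7_jb_diff {k0 b0 b b' : ℕ} (h : b' ≤ b) :
    jb k0 b0 b' ≤ jb k0 b0 b + 11 * (b - b') := by
  obtain ⟨n, rfl⟩ := Nat.exists_eq_add_of_le h
  have h1 := a7_lb_step b0 b' n
  have h3 := a7_k0_le k0 b0 (b' + n)
  have h4 : b' + n - b' = n := by omega
  rw [h4]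
  by_cases hb' : b' < nlev k0 b0
  · have h2 : jb k0 b0 b' = k0 - 8 * b' - eb b0 b' - 6 := by
      unfold jb ib; rw [if_pos hb']
    rw [lt_nlev] at hb'
    unfold eb at *
    omega
  · have : jb k0 b0 b' = 0 := by unfold jb; rw [if_neg hb']
    omega

lemma a7_pow_eb (b0 b : ℕ) (h : b + b0 ≠ 0) : 2 ^ eb b0 b ≤ b + b0 := by
  unfold eb
  rw [pow_mul]
  calc (2 ^ 3) ^ lb b0 b ≤ 16 ^ lb b0 b := Nat.pow_le_pow_left (by norm_num) _
    _ ≤ b + b0 := by unfold lb; exact Nat.pow_log_le_self _ h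

lemma a7_sum_inv {B : ℝ} (hB : 2 ≤ B) (n : ℕ) :
    ∑ b ∈ Finset.range n, 1 / ((b : ℝ) + B) ^ 2 ≤ 1 / (B - 1) - 1 / (B + n - 1) := by
  induction n with
  | zero => simp
  | succ n ih =>
    rw [Finset.sum_range_succ]
    have hn : (0 : ℝ) ≤ n := Nat.cast_nonneg n
    have h1 : 1 / ((n : ℝ) + B) ^ 2 ≤ 1 / (B + n - 1) - 1 / (B + (n + 1 : ℕ) - 1) := by
      push_cast
      rw [div_sub_div _ _ (by linarith) (by linarith), div_le_div_iff₀ (by positivity)
        (mul_pos (by linarith) (by linarith))]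
      nlinarith
    linarith

lemma a7_sum_inv5 {B : ℝ} (hB : 2 ≤ B) (n : ℕ) :
    ∑ b ∈ Finset.range n, 1 / ((b : ℝ) + B) ^ 5 ≤ 2 / B ^ 4 := by
  have hB0 : 0 < B := by linarith
  calc ∑ b ∈ Finset.range n, 1 / ((b : ℝ) + B) ^ 5
      ≤ ∑ b ∈ Finset.range n, 1 / B ^ 3 * (1 / ((b : ℝ) + B) ^ 2) := by
        refine Finset.sum_le_sum (fun b _ => ?_)
        have hb : (0 : ℝ) ≤ b := Nat.cast_nonneg b
        rw [div_mul_div_comm, one_mul]
        refine one_div_le_one_div_of_le (by positivity) ?_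
        calc B ^ 3 * ((b : ℝ) + B) ^ 2 ≤ ((b : ℝ) + B) ^ 3 * ((b : ℝ) + B) ^ 2 :=
              mul_le_mul_of_nonneg_right (pow_le_pow_left₀ hB0.le (by linarith) 3) (by positivity)
          _ = ((b : ℝ) + B) ^ 5 := by ring
    _ = 1 / B ^ 3 * ∑ b ∈ Finset.range n, 1 / ((b : ℝ) + B) ^ 2 := by rw [Finset.mul_sum]
    _ ≤ 1 / B ^ 3 * (2 / B) := by
        refine mul_le_mul_of_nonneg_left ?_ (by positivity)
        refine (a7_sum_inv hB n).trans ?_
        have h1 : 0 ≤ 1 / (B + n - 1) := by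
          have hn : (0 : ℝ) ≤ n := Nat.cast_nonneg n
          exact div_nonneg zero_le_one (by linarith)
        have h2 : 1 / (B - 1) ≤ 2 / B := by
          rw [div_le_div_iff₀ (by linarith) hB0]; linarith
        linarith
    _ = 2 / B ^ 4 := by
        rw [div_mul_div_comm, one_mul]; congr 1

lemma a7_FB {k0 : ℕ} {K C θ : ℝ} {b0 b : ℕ} (hb0 : 16 ^ 10 ≤ b0)
    (hb : b ≤ nlev k0 b0) (hC : 0 < C)
    (hest2 : ∀ {k0 b0 b u : ℕ}, 16 ^ 10 ≤ b0 → b ≤ nlev k0 b0 → u < 2 ^ k0 →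
      ∀ {Ω : Type} [MeasurableSpace Ω] {μ : Measure Ω} [IsProbabilityMeasure μ]
        {X : ℕ → V → Ω → ℝ}, IsLay k0 (ball 0 (2 ^ (k0 + 8))) μ X → ∀ {K : ℝ},
      μ {ω | (∀ b' < b, Gd3 (fun j v => X j v ω) k0 b0 b' u) ∧
          ¬ Gd2 (fun j v => X j v ω) k0 b0 K b u} ≤
        ENNReal.ofReal (C * Real.exp (-((K / 4 + hh b0 b) / C))))
    (hθ : 0 < θ) (hθ1 : θ ≤ 1)
    (h1 : Real.exp (-(θ * (K / 2 - hh b0 b)) +
          16 * θ ^ 2 * (8 * b + eb b0 b + 6)) *
        ∏ b' ∈ Finset.range b, (1 - θ / (400 * √(2 ^ eb b0 b'))) ≤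
          1 / (4 * ((b : ℝ) + b0) ^ 10))
    (h2 : C * Real.exp (-((K / 4 + hh b0 b) / C)) ≤ 1 / (4 * ((b : ℝ) + b0) ^ 10))
    (h3 : 2 * Real.exp (-((25 / 16 : ℝ) ^ lb b0 b / 32)) ≤
      1 / (4 * ((b : ℝ) + b0) ^ 10))
    {Ω : Type} [MeasurableSpace Ω] {μ : Measure Ω} [IsProbabilityMeasure μ]
    {X : ℕ → V → Ω → ℝ} (hX : IsLay k0 (ball 0 (2 ^ (k0 + 8))) μ X) :
    ∑ u ∈ Finset.range (2 ^ k0), μ.real {ω | FB (fun j v => X j v ω) k0 b0 K b u} ≤
      2 ^ k0 * (1 / ((b : ℝ) + b0) ^ 10) := by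
  have hb0' : (0 : ℝ) < b0 := by
    have : 0 < b0 := by omega
    exact_mod_cast this
  have hbb : (0 : ℝ) ≤ b := Nat.cast_nonneg b
  have hbB : (0 : ℝ) < (b : ℝ) + b0 := by linarith
  set p : ℝ := 1 / (4 * ((b : ℝ) + b0) ^ 10) with hp
  have hp0 : 0 ≤ p := by positivity
  have e1 : ∑ u ∈ Finset.range (2 ^ k0),
      μ {ω | (∀ b' < b, Gd3 (fun j v => X j v ω) k0 b0 b' u) ∧
        ¬ Gd1 (fun j v => X j v ω) k0 b0 K b u} ≤ ENNReal.ofReal (2 ^ k0 * p) := by
    refine (est1 hb0 hb hX hθ hθ1).trans (ENNReal.ofReal_le_ofReal ?_)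
    refine mul_le_mul_of_nonneg_left ?_ (by positivity)
    refine le_trans ?_ h1
    refine mul_le_mul_of_nonneg_right ?_ ?_
    · refine Real.exp_le_exp.mpr ?_
      have hk : (k0 : ℝ) - jb k0 b0 b ≤ 8 * b + eb b0 b + 6 := by
        have := a7_k0_le k0 b0 b
        have h' : (k0 : ℝ) ≤ jb k0 b0 b + (8 * b + eb b0 b + 6) := by exact_mod_cast this
        linarith
      have := mul_le_mul_of_nonneg_left hk (by positivity : 0 ≤ 16 * θ ^ 2)
      linarith
    · refine Finset.prod_nonneg (fun b' _ => ?_)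
      have hs : 1 ≤ √((2 : ℝ) ^ eb b0 b') := Real.one_le_sqrt.mpr (one_le_pow₀ (by norm_num))
      have : θ / (400 * √((2 : ℝ) ^ eb b0 b')) ≤ 1 := by
        rw [div_le_one (by positivity)]
        nlinarith
      linarith
  have e2 : ∑ u ∈ Finset.range (2 ^ k0),
      μ {ω | (∀ b' < b, Gd3 (fun j v => X j v ω) k0 b0 b' u) ∧
        ¬ Gd2 (fun j v => X j v ω) k0 b0 K b u} ≤ ENNReal.ofReal (2 ^ k0 * p) := by
    calc _ ≤ ∑ u ∈ Finset.range (2 ^ k0), ENNReal.ofReal p :=
          Finset.sum_le_sum (fun u hu => (hest2 hb0 hb (Finset.mem_range.mp hu) hX).trans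
            (ENNReal.ofReal_le_ofReal h2))
      _ = ENNReal.ofReal (2 ^ k0 * p) := by
          rw [Finset.sum_const, Finset.card_range, nsmul_eq_mul,
            ENNReal.ofReal_mul (by positivity)]
          congr 1
          rw [ENNReal.ofReal_pow (by norm_num)]
          push_cast
          norm_num
  have e3 : ∑ u ∈ Finset.range (2 ^ k0),
      μ {ω | (∀ b' < b, Gd3 (fun j v => X j v ω) k0 b0 b' u) ∧
        ¬ Gd3 (fun j v => X j v ω) k0 b0 b u} ≤ ENNReal.ofReal (2 ^ k0 * p) := by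
    by_cases hbn : b < nlev k0 b0
    · refine (est3 hb0 hbn hX).trans (ENNReal.ofReal_le_ofReal ?_)
      exact mul_le_mul_of_nonneg_left h3 (by positivity)
    · refine le_trans (le_of_eq ?_) zero_le
      refine Finset.sum_eq_zero (fun u _ => ?_)
      convert measure_empty (μ := μ)
      ext ω
      simp only [Set.mem_ofPred_eq, Set.mem_empty_iff_false, iff_false, not_and, not_not]
      intro _ h
      exact absurd h hbn
  have hcov : ∀ u, μ {ω | FB (fun j v => X j v ω) k0 b0 K b u} ≤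
      μ {ω | (∀ b' < b, Gd3 (fun j v => X j v ω) k0 b0 b' u) ∧
        ¬ Gd1 (fun j v => X j v ω) k0 b0 K b u} +
      μ {ω | (∀ b' < b, Gd3 (fun j v => X j v ω) k0 b0 b' u) ∧
        ¬ Gd2 (fun j v => X j v ω) k0 b0 K b u} +
      μ {ω | (∀ b' < b, Gd3 (fun j v => X j v ω) k0 b0 b' u) ∧
        ¬ Gd3 (fun j v => X j v ω) k0 b0 b u} := by
    intro u
    refine (measure_mono ?_).trans ((measure_union_le _ _).trans
      (add_le_add (measure_union_le _ _) le_rfl))
    intro ω hω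
    simp only [Set.mem_ofPred_eq, Set.mem_union] at hω ⊢
    obtain ⟨ha, hb⟩ := hω
    have ha' : ∀ b' < b, Gd3 (fun j v => X j v ω) k0 b0 b' u := fun b' hb' => (ha b' hb').2.2
    unfold Gd at hb
    by_cases g1 : Gd1 (fun j v => X j v ω) k0 b0 K b u
    · by_cases g2 : Gd2 (fun j v => X j v ω) k0 b0 K b u
      · exact Or.inr ⟨ha', fun g3 => hb ⟨g1, g2, g3⟩⟩
      · exact Or.inl (Or.inr ⟨ha', g2⟩)
    · exact Or.inl (Or.inl ⟨ha', g1⟩)
  have htot : ∑ u ∈ Finset.range (2 ^ k0), μ {ω | FB (fun j v => X j v ω) k0 b0 K b u} ≤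
      ENNReal.ofReal (2 ^ k0 * (1 / ((b : ℝ) + b0) ^ 10)) := by
    calc _ ≤ _ := Finset.sum_le_sum (fun u _ => hcov u)
      _ ≤ ENNReal.ofReal (2 ^ k0 * p) + ENNReal.ofReal (2 ^ k0 * p) +
          ENNReal.ofReal (2 ^ k0 * p) := by
          rw [Finset.sum_add_distrib, Finset.sum_add_distrib]
          exact add_le_add (add_le_add e1 e2) e3
      _ = ENNReal.ofReal (2 ^ k0 * p + 2 ^ k0 * p + 2 ^ k0 * p) := by
          rw [ENNReal.ofReal_add (by positivity) (by positivity),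
            ENNReal.ofReal_add (by positivity) (by positivity)]
      _ ≤ _ := by
          refine ENNReal.ofReal_le_ofReal ?_
          have : 1 / ((b : ℝ) + b0) ^ 10 = 4 * p := by
            rw [hp]; field_simp
          rw [this]
          have : (0 : ℝ) ≤ 2 ^ k0 * p := by positivity
          linarith
  have hconv : ∑ u ∈ Finset.range (2 ^ k0), μ.real {ω | FB (fun j v => X j v ω) k0 b0 K b u} =
      (∑ u ∈ Finset.range (2 ^ k0), μ {ω | FB (fun j v => X j v ω) k0 b0 K b u}).toReal := by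
    rw [ENNReal.toReal_sum (fun u _ => measure_ne_top _ _)]
    rfl
  rw [hconv]
  exact ENNReal.toReal_le_of_le_ofReal (by positivity) htot

/-- Cauchy-Schwarz on the grid -/
lemma a7_cs {k0 j : ℕ} (hj : j ≤ k0) (f : ℕ → ℝ) (hf : ∀ u, f (rdn j u) = f u)
    (hf0 : ∀ u, 0 ≤ f u) {B : ℝ} (hB : 0 < B)
    (h : ∑ u ∈ Finset.range (2 ^ k0), f u ≤ 2 ^ k0 * (1 / B ^ 10)) :
    2 ^ j * ∑ u ∈ (Finset.range (2 ^ k0)).filter (fun u => 2 ^ j ∣ u), √(f u) ≤
      2 ^ k0 * (1 / B ^ 5) := by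
  have h1 := a7_grid hj f hf
  have h2 := a7_grid hj (fun _ => (1 : ℝ)) (fun _ => rfl)
  simp only [Finset.sum_const, Finset.card_range, nsmul_eq_mul, mul_one] at h2
  push_cast at h2
  set G := (Finset.range (2 ^ k0)).filter (fun u => 2 ^ j ∣ u) with hG
  have h3 : (∑ u ∈ G, √(f u)) ^ 2 ≤ G.card * ∑ u ∈ G, f u := by
    have := sq_sum_le_card_mul_sum_sq (s := G) (f := fun u => √(f u))
    refine this.trans (le_of_eq ?_)
    congr 1
    exact Finset.sum_congr rfl (fun u _ => Real.sq_sqrt (hf0 u))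
  refine abs_le_of_sq_le_sq' ?_ (by positivity) |>.2
  calc (2 ^ j * ∑ u ∈ G, √(f u)) ^ 2 = (2 ^ j) ^ 2 * (∑ u ∈ G, √(f u)) ^ 2 := by ring
    _ ≤ (2 ^ j) ^ 2 * (G.card * ∑ u ∈ G, f u) := mul_le_mul_of_nonneg_left h3 (by positivity)
    _ = (2 ^ j * G.card) * (2 ^ j * ∑ u ∈ G, f u) := by ring
    _ = 2 ^ k0 * ∑ u ∈ Finset.range (2 ^ k0), f u := by rw [← h2, ← h1]
    _ ≤ 2 ^ k0 * (2 ^ k0 * (1 / B ^ 10)) := mul_le_mul_of_nonneg_left h (by positivity)
    _ = (2 ^ k0 * (1 / B ^ 5)) ^ 2 := by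
        rw [mul_pow, div_pow, ← pow_mul]; ring

lemma a7_geo (b : ℕ) :
    ∑ b' ∈ Finset.range b, (2 : ℝ) ^ (11 * (b - b')) * (1 / 2 ^ 19) ^ (b - b' - 1) ≤ 2 ^ 12 := by
  have h1 : ∀ b' ∈ Finset.range b,
      (2 : ℝ) ^ (11 * (b - b')) * (1 / 2 ^ 19) ^ (b - b' - 1) =
        2 ^ 11 * (1 / 2 ^ 8) ^ (b - 1 - b') := by
    intro b' hb'
    rw [Finset.mem_range] at hb'
    obtain ⟨m, rfl⟩ : ∃ m, b = b' + m + 1 := ⟨b - b' - 1, by omega⟩
    have e1 : b' + m + 1 - b' = m + 1 := by omega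
    have e2 : b' + m + 1 - b' - 1 = m := by omega
    have e3 : b' + m + 1 - 1 - b' = m := by omega
    rw [e1, e3, Nat.add_sub_cancel, mul_add, pow_add, mul_one, pow_mul]
    rw [mul_comm ((2 ^ 11) ^ m) _, mul_assoc, ← mul_pow]
    congr 2
    norm_num
  rw [Finset.sum_congr rfl h1, ← Finset.mul_sum,
    Finset.sum_range_reflect (fun m => (1 / 2 ^ 8 : ℝ) ^ m) b]
  have h2 : ∑ m ∈ Finset.range b, (1 / 2 ^ 8 : ℝ) ^ m ≤ 2 := by
    rw [geom_sum_eq (by norm_num)]
    have : (0 : ℝ) ≤ (1 / 2 ^ 8) ^ b := by positivity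
    rw [div_le_iff_of_neg (by norm_num)]
    linarith
  linarith

theorem seg_prob (y0 : ℝ) : ∃ K1 : ℝ, 1 ≤ K1 ∧ ∀ K : ℝ, K1 ≤ K → ∀ (k0 Cs : ℕ), 1 ≤ k0 → 1 ≤ Cs →
    (∀ k < k0 + c0, PF k y0 Cs q0) →
    ∀ {Ω : Type} [MeasurableSpace Ω] {μ : Measure Ω} [IsProbabilityMeasure μ]
      {X : ℕ → V → Ω → ℝ}, IsLay k0 (ball 0 (2 ^ (k0 + 8))) μ X →
    μ {ω | ¬ Seg (fun v => ∑ j ∈ Finset.range k0, X j v ω) K k0 (Cs * 2 ^ k0 / (40 * K ^ 7))} ≤
      ENNReal.ofReal (1 / 10 ^ 9) := by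
  obtain ⟨C, hC, hest2⟩ := est2
  obtain ⟨KA, hKA1, hKA⟩ := numA C hC
  refine ⟨max KA (max (4 * y0) (10 ^ 20)), le_trans hKA1 (le_max_left _ _), ?_⟩
  intro K hK k0 Cs hk0 hCs hPF Ω _ μ _ X hX
  have hKKA : KA ≤ K := (le_max_left _ _).trans hK
  have hKy : 4 * y0 ≤ K := ((le_max_left _ _).trans (le_max_right _ _)).trans hK
  have hK20 : (10 : ℝ) ^ 20 ≤ K := ((le_max_right _ _).trans (le_max_right _ _)).trans hK
  have hK0 : 0 < K := lt_of_lt_of_le (by positivity) hK20
  have hK1 : 1 ≤ K := le_trans (by norm_num) hK20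
  set b0 : ℕ := ⌈K ^ 2⌉₊ with hb0def
  have hb0 : 16 ^ 10 ≤ b0 := (hKA K hKKA 0).1
  have hb0K : K ^ 2 ≤ (b0 : ℝ) := Nat.le_ceil _
  have hb0r : (2 : ℝ) ≤ b0 := by
    have : 2 ≤ b0 := le_trans (by norm_num) hb0
    exact_mod_cast this
  have hCsr : (1 : ℝ) ≤ Cs := by exact_mod_cast hCs
  -- abbreviations
  set P : ℕ → ℕ → ℝ := fun b u => μ.real {ω | FB (fun j v => X j v ω) k0 b0 K b u} with hPdef
  have hPsum : ∀ b ≤ nlev k0 b0, ∑ u ∈ Finset.range (2 ^ k0), P b u ≤
      2 ^ k0 * (1 / ((b : ℝ) + b0) ^ 10) := by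
    intro b hb
    obtain ⟨_, ⟨θ, hθ, hθ1, h1⟩, h2, h3⟩ := hKA K hKKA b
    exact a7_FB hb0 hb hC hest2 hθ hθ1 h1 h2 h3 hX
  have hPrdn : ∀ b ≤ nlev k0 b0, ∀ u, P b (rdn (jb k0 b0 b) u) = P b u := by
    intro b hb u
    simp only [hPdef]
    congr 1
    ext ω
    exact (Gd_cell (fun j v => X j v ω) hb).2.2
  have hP0 : ∀ b u, 0 ≤ P b u := fun b u => measureReal_nonneg
  set G : ℕ → Finset ℕ := fun b =>
    (Finset.range (2 ^ k0)).filter (fun u => 2 ^ jb k0 b0 b ∣ u) with hG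
  have hS : ∀ b ≤ nlev k0 b0, 2 ^ jb k0 b0 b * ∑ u ∈ G b, √(P b u) ≤
      2 ^ k0 * (1 / ((b : ℝ) + b0) ^ 5) := by
    intro b hb
    have hbb : (0 : ℝ) ≤ b := Nat.cast_nonneg b
    exact a7_cs (a7_jb_le k0 b0 b) (P b) (hPrdn b hb) (hP0 b) (by linarith) (hPsum b hb)
  -- the tail events
  have htail : ∀ b ≤ nlev k0 b0, ∀ u ∈ G b, ∀ b' ≤ b,
      μ.real ({ω | FB (fun j v => X j v ω) k0 b0 K b u} ∩
        {ω | ∀ b'', b' ≤ b'' → b'' < b → ¬ Op (fun j v => X j v ω) k0 b0 y0 Cs b b'' u}) ≤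
        √(P b u) * (1 / 2 ^ 19) ^ (b - b') := by
    intro b hb u hu b' hb'
    refine a7_inter (by positivity) ?_
    have hu' : u < 2 ^ k0 := by
      rw [hG] at hu
      exact Finset.mem_range.mp (Finset.mem_filter.mp hu).1
    have h1 := a7_real_le (by unfold q0; positivity) (est4 (b' := b') hb0 hb hu' hX hPF)
    refine h1.trans ?_
    rw [← pow_mul, mul_comm (b - b') 2, pow_mul]
    refine pow_le_pow_left₀ (by unfold q0; positivity) ?_ _
    unfold q0
    norm_num
  -- first failure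
  have hF1 : μ.real {ω | ¬ ∀ b ≤ nlev k0 b0, ∀ u < 2 ^ k0, FB (fun j v => X j v ω) k0 b0 K b u →
      ∃ b' < b, Op (fun j v => X j v ω) k0 b0 y0 Cs b b' u} ≤ 1 / (2 * 10 ^ 9) := by
    have hsub : {ω | ¬ ∀ b ≤ nlev k0 b0, ∀ u < 2 ^ k0, FB (fun j v => X j v ω) k0 b0 K b u →
        ∃ b' < b, Op (fun j v => X j v ω) k0 b0 y0 Cs b b' u} ⊆
        ⋃ b ∈ Finset.range (nlev k0 b0 + 1), ⋃ u ∈ G b,
          ({ω | FB (fun j v => X j v ω) k0 b0 K b u} ∩
          {ω | ∀ b'', 0 ≤ b'' → b'' < b → ¬ Op (fun j v => X j v ω) k0 b0 y0 Cs b b'' u}) := by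
      intro ω hω
      simp only [Set.mem_ofPred_eq, not_forall, not_exists, not_and] at hω
      obtain ⟨b, hb, u, hu, hfb, hop⟩ := hω
      simp only [Set.mem_iUnion, Set.mem_inter_iff, Set.mem_ofPred_eq]
      have hc := Gd_cell (fun j v => X j v ω) (u := u) (K := K) hb
      refine ⟨b, Finset.mem_range.mpr (by omega), rdn (jb k0 b0 b) u, ?_, hc.2.2.mpr hfb, ?_⟩
      · rw [hG, Finset.mem_filter, Finset.mem_range]
        exact ⟨lt_of_le_of_lt (Nat.mul_div_le u _) hu, Dvd.intro _ rfl⟩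
      · intro b'' _ hb'' hOp
        refine hop b'' hb'' ?_
        unfold Op at hOp ⊢
        rw [hc.1] at hOp
        exact hOp
    refine (measureReal_mono hsub (measure_ne_top _ _)).trans ?_
    refine (measureReal_biUnion_finset_le _ _).trans ?_
    calc ∑ b ∈ Finset.range (nlev k0 b0 + 1), μ.real (⋃ u ∈ G b,
          ({ω | FB (fun j v => X j v ω) k0 b0 K b u} ∩
          {ω | ∀ b'', 0 ≤ b'' → b'' < b → ¬ Op (fun j v => X j v ω) k0 b0 y0 Cs b b'' u}))
        ≤ ∑ b ∈ Finset.range (nlev k0 b0 + 1), (1 / b0 ^ 4 * 64 * (1 / 2) ^ b : ℝ) := by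
          refine Finset.sum_le_sum (fun b hb => ?_)
          have hb' : b ≤ nlev k0 b0 := by rw [Finset.mem_range] at hb; omega
          have hbb : (0 : ℝ) ≤ b := Nat.cast_nonneg b
          refine (measureReal_biUnion_finset_le _ _).trans ?_
          calc ∑ u ∈ G b, μ.real ({ω | FB (fun j v => X j v ω) k0 b0 K b u} ∩
              {ω | ∀ b'', 0 ≤ b'' → b'' < b → ¬ Op (fun j v => X j v ω) k0 b0 y0 Cs b b'' u})
              ≤ ∑ u ∈ G b, √(P b u) * (1 / 2 ^ 19) ^ b := by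
                refine Finset.sum_le_sum (fun u hu => ?_)
                have := htail b hb' u hu 0 (Nat.zero_le _)
                rw [Nat.sub_zero] at this
                exact this
            _ = (∑ u ∈ G b, √(P b u)) * (1 / 2 ^ 19) ^ b := by rw [Finset.sum_mul]
            _ ≤ (2 ^ (8 * b + 6) * ((b : ℝ) + b0) * (1 / ((b : ℝ) + b0) ^ 5)) *
                (1 / 2 ^ 19) ^ b := by
                refine mul_le_mul_of_nonneg_right ?_ (by positivity)
                have h1 := hS b hb'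
                have h2 : (2 : ℝ) ^ k0 ≤ 2 ^ jb k0 b0 b *
                    (2 ^ (8 * b + 6) * ((b : ℝ) + b0)) := by
                  have h3 := a7_k0_le k0 b0 b
                  have h4 := a7_pow_eb b0 b (by omega)
                  have h5 : (2 : ℝ) ^ eb b0 b ≤ (b : ℝ) + b0 := by exact_mod_cast h4
                  calc (2 : ℝ) ^ k0 ≤ 2 ^ (jb k0 b0 b + (8 * b + eb b0 b + 6)) :=
                        pow_le_pow_right₀ (by norm_num) h3
                    _ = 2 ^ jb k0 b0 b * (2 ^ (8 * b + 6) * 2 ^ eb b0 b) := by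
                        rw [← pow_add, ← pow_add]; congr 1; ring
                    _ ≤ _ := by
                        refine mul_le_mul_of_nonneg_left ?_ (by positivity)
                        exact mul_le_mul_of_nonneg_left h5 (by positivity)
                have h6 : (0 : ℝ) < 2 ^ jb k0 b0 b := by positivity
                refine le_of_mul_le_mul_left (h1.trans ?_) h6
                calc (2 : ℝ) ^ k0 * (1 / ((b : ℝ) + b0) ^ 5)
                    ≤ (2 ^ jb k0 b0 b * (2 ^ (8 * b + 6) * ((b : ℝ) + b0))) *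
                      (1 / ((b : ℝ) + b0) ^ 5) :=
                      mul_le_mul_of_nonneg_right h2 (by positivity)
                  _ = _ := by ring
            _ = (1 / ((b : ℝ) + b0) ^ 4) * 64 * (1 / 2 ^ 11) ^ b := by
                have hne : (b : ℝ) + b0 ≠ 0 := by linarith
                have e1 : (2 : ℝ) ^ (8 * b + 6) = 64 * (2 ^ 8) ^ b := by
                  rw [pow_add, pow_mul]; ring
                have e2 : ((2 : ℝ) ^ 8) ^ b * (1 / 2 ^ 19) ^ b = (1 / 2 ^ 11) ^ b := by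
                  rw [← mul_pow]; congr 1; norm_num
                rw [e1]
                calc 64 * (2 ^ 8 : ℝ) ^ b * ((b : ℝ) + b0) * (1 / ((b : ℝ) + b0) ^ 5) *
                    (1 / 2 ^ 19) ^ b = (((b : ℝ) + b0) * (1 / ((b : ℝ) + b0) ^ 5)) * 64 *
                      (((2 : ℝ) ^ 8) ^ b * (1 / 2 ^ 19) ^ b) := by ring
                  _ = _ := by
                    rw [e2]
                    congr 2
                    field_simp
            _ ≤ 1 / b0 ^ 4 * 64 * (1 / 2) ^ b := by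
                have i1 : (1 : ℝ) / ((b : ℝ) + b0) ^ 4 ≤ 1 / b0 ^ 4 :=
                  one_div_le_one_div_of_le (by positivity)
                    (pow_le_pow_left₀ (by linarith) (by linarith) 4)
                have i2 : (1 / 2 ^ 11 : ℝ) ^ b ≤ (1 / 2) ^ b :=
                  pow_le_pow_left₀ (by positivity) (by norm_num) b
                have i3 : (0 : ℝ) ≤ (1 / 2 ^ 11 : ℝ) ^ b := by positivity
                have i4 : (0 : ℝ) ≤ 1 / b0 ^ 4 := by positivity
                exact mul_le_mul (mul_le_mul_of_nonneg_right i1 (by norm_num)) i2 i3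
                  (by positivity)
      _ = 1 / b0 ^ 4 * 64 * ∑ b ∈ Finset.range (nlev k0 b0 + 1), (1 / 2 : ℝ) ^ b := by
          rw [Finset.mul_sum]
      _ ≤ 1 / b0 ^ 4 * 64 * 2 := by
          refine mul_le_mul_of_nonneg_left ?_ (by positivity)
          have := geom_sum_eq (show (1 / 2 : ℝ) ≠ 1 by norm_num) (nlev k0 b0 + 1)
          rw [this]
          have : (0 : ℝ) ≤ (1 / 2) ^ (nlev k0 b0 + 1) := by positivity
          rw [div_le_iff_of_neg (by norm_num)]
          linarith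
      _ ≤ 1 / (2 * 10 ^ 9) := by
          have h1 : (10 : ℝ) ^ 20 ≤ b0 := hK20.trans ((by nlinarith : K ≤ K ^ 2).trans hb0K)
          have h2 : (10 : ℝ) ^ 20 ≤ (b0 : ℝ) ^ 4 := by
            calc (10 : ℝ) ^ 20 ≤ b0 := h1
              _ = (b0 : ℝ) ^ 1 := (pow_one _).symm
              _ ≤ (b0 : ℝ) ^ 4 := pow_le_pow_right₀ (by linarith) (by norm_num)
          have h3 : (1 : ℝ) / (b0 : ℝ) ^ 4 ≤ 1 / 10 ^ 20 :=
            one_div_le_one_div_of_le (by positivity) h2
          calc (1 : ℝ) / (b0 : ℝ) ^ 4 * 64 * 2 ≤ 1 / 10 ^ 20 * 64 * 2 := by linarith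
            _ ≤ _ := by norm_num
  -- second failure
  set T : ℝ := Cs * 2 ^ k0 / (40 * K ^ 7) with hT
  have hT0 : 0 < T := by positivity
  have hF2 : μ.real {ω | T < cost (fun j v => X j v ω) k0 b0 K y0 Cs} ≤ 1 / (2 * 10 ^ 9) := by
    set s : Finset ((_ : ℕ) × (ℕ × ℕ)) :=
      (Finset.range (nlev k0 b0 + 1)).sigma (fun b => G b ×ˢ Finset.range b) with hs
    set A : ((_ : ℕ) × (ℕ × ℕ)) → Set Ω := fun i =>
      {ω | FB (fun j v => X j v ω) k0 b0 K i.1 i.2.1 ∧ ∀ b'', i.2.2 < b'' → b'' < i.1 →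
        ¬ Op (fun j v => X j v ω) k0 b0 y0 Cs i.1 b'' i.2.1} with hA
    set c : ((_ : ℕ) × (ℕ × ℕ)) → ℝ := fun i =>
      2 * ((Cs : ℝ) * 2 ^ (jb k0 b0 i.2.2 + c0)) + 2 with hc
    have hcost : ∀ ω, cost (fun j v => X j v ω) k0 b0 K y0 Cs =
        ∑ i ∈ s, @ite ℝ (ω ∈ A i) (Classical.propDecidable _) (c i) 0 := by
      intro ω
      unfold cost
      rw [hs, Finset.sum_sigma]
      refine Finset.sum_congr rfl (fun b _ => ?_)
      rw [Finset.sum_product]
      refine Finset.sum_congr rfl (fun u _ => Finset.sum_congr rfl (fun b' _ => ?_))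
      by_cases h : ω ∈ A ⟨b, (u, b')⟩
      · rw [if_pos h]
        exact if_pos h
      · rw [if_neg h]
        exact if_neg h
    have hset : {ω | T < cost (fun j v => X j v ω) k0 b0 K y0 Cs} =
        {ω | T < ∑ i ∈ s, @ite ℝ (ω ∈ A i) (Classical.propDecidable _) (c i) 0} := by
      ext ω
      simp only [Set.mem_ofPred_eq]
      rw [hcost ω]
    rw [hset]
    refine (a7_markov s A c (fun i _ => by simp only [hc]; positivity) hT0).trans ?_
    have hE : ∑ i ∈ s, c i * μ.real (A i) ≤ 34 * 2 ^ 12 * Cs * 2 ^ k0 * (2 / K ^ 8) := by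
      rw [hs, Finset.sum_sigma]
      calc ∑ b ∈ Finset.range (nlev k0 b0 + 1), ∑ i ∈ G b ×ˢ Finset.range b,
            c ⟨b, i⟩ * μ.real (A ⟨b, i⟩)
          ≤ ∑ b ∈ Finset.range (nlev k0 b0 + 1),
              34 * 2 ^ 12 * Cs * 2 ^ k0 * (1 / ((b : ℝ) + b0) ^ 5) := by
            refine Finset.sum_le_sum (fun b hb => ?_)
            have hb' : b ≤ nlev k0 b0 := by rw [Finset.mem_range] at hb; omega
            have hbb : (0 : ℝ) ≤ b := Nat.cast_nonneg b
            rw [Finset.sum_product]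
            calc ∑ u ∈ G b, ∑ b' ∈ Finset.range b, c ⟨b, (u, b')⟩ * μ.real (A ⟨b, (u, b')⟩)
                ≤ ∑ u ∈ G b, √(P b u) * (34 * Cs * 2 ^ jb k0 b0 b * 2 ^ 12) := by
                  refine Finset.sum_le_sum (fun u hu => ?_)
                  calc ∑ b' ∈ Finset.range b, c ⟨b, (u, b')⟩ * μ.real (A ⟨b, (u, b')⟩)
                      ≤ ∑ b' ∈ Finset.range b, (√(P b u) * (34 * Cs * 2 ^ jb k0 b0 b)) *
                        (2 ^ (11 * (b - b')) * (1 / 2 ^ 19) ^ (b - b' - 1)) := by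
                        refine Finset.sum_le_sum (fun b' hb'' => ?_)
                        rw [Finset.mem_range] at hb''
                        have i1 : c ⟨b, (u, b')⟩ ≤
                            34 * Cs * 2 ^ jb k0 b0 b * 2 ^ (11 * (b - b')) := by
                          simp only [hc, c0]
                          have j1 := a7_jb_diff (k0 := k0) (b0 := b0) hb''.le
                          have j2 : (2 : ℝ) ^ jb k0 b0 b' ≤
                              2 ^ jb k0 b0 b * 2 ^ (11 * (b - b')) := by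
                            rw [← pow_add]
                            exact pow_le_pow_right₀ (by norm_num) j1
                          have j3 : (1 : ℝ) ≤ 2 ^ jb k0 b0 b' := one_le_pow₀ (by norm_num)
                          have j4 : (1 : ℝ) ≤ Cs * 2 ^ jb k0 b0 b' := by nlinarith
                          calc 2 * ((Cs : ℝ) * 2 ^ (jb k0 b0 b' + 4)) + 2
                              = 32 * (Cs * 2 ^ jb k0 b0 b') + 2 := by rw [pow_add]; ring
                            _ ≤ 34 * (Cs * 2 ^ jb k0 b0 b') := by linarith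
                            _ ≤ 34 * (Cs * (2 ^ jb k0 b0 b * 2 ^ (11 * (b - b')))) := by
                                refine mul_le_mul_of_nonneg_left ?_ (by norm_num)
                                exact mul_le_mul_of_nonneg_left j2 (by linarith)
                            _ = _ := by ring
                        have i2 : μ.real (A ⟨b, (u, b')⟩) ≤
                            √(P b u) * (1 / 2 ^ 19) ^ (b - b' - 1) := by
                          have := htail b hb' u hu (b' + 1) hb''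
                          rw [show b - (b' + 1) = b - b' - 1 by omega] at this
                          exact this
                        calc c ⟨b, (u, b')⟩ * μ.real (A ⟨b, (u, b')⟩)
                            ≤ (34 * Cs * 2 ^ jb k0 b0 b * 2 ^ (11 * (b - b'))) *
                              (√(P b u) * (1 / 2 ^ 19) ^ (b - b' - 1)) :=
                              mul_le_mul i1 i2 measureReal_nonneg (by positivity)
                          _ = _ := by ring
                    _ = (√(P b u) * (34 * Cs * 2 ^ jb k0 b0 b)) *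
                        ∑ b' ∈ Finset.range b,
                          (2 ^ (11 * (b - b')) * (1 / 2 ^ 19) ^ (b - b' - 1)) := by
                        rw [Finset.mul_sum]
                    _ ≤ (√(P b u) * (34 * Cs * 2 ^ jb k0 b0 b)) * 2 ^ 12 :=
                        mul_le_mul_of_nonneg_left (a7_geo b) (by positivity)
                    _ = _ := by ring
              _ = 34 * 2 ^ 12 * Cs * (2 ^ jb k0 b0 b * ∑ u ∈ G b, √(P b u)) := by
                  rw [← Finset.sum_mul]; ring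
              _ ≤ 34 * 2 ^ 12 * Cs * (2 ^ k0 * (1 / ((b : ℝ) + b0) ^ 5)) :=
                  mul_le_mul_of_nonneg_left (hS b hb') (by positivity)
              _ = _ := by ring
        _ = 34 * 2 ^ 12 * Cs * 2 ^ k0 *
              ∑ b ∈ Finset.range (nlev k0 b0 + 1), (1 / ((b : ℝ) + b0) ^ 5) := by
            rw [Finset.mul_sum]
        _ ≤ 34 * 2 ^ 12 * Cs * 2 ^ k0 * (2 / K ^ 8) := by
            refine mul_le_mul_of_nonneg_left ?_ (by positivity)
            refine (a7_sum_inv5 hb0r _).trans ?_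
            refine div_le_div_of_nonneg_left (by norm_num) (by positivity) ?_
            calc K ^ 8 = (K ^ 2) ^ 4 := by ring
              _ ≤ (b0 : ℝ) ^ 4 := pow_le_pow_left₀ (by positivity) hb0K 4
    calc (∑ i ∈ s, c i * μ.real (A i)) / T
        ≤ (34 * 2 ^ 12 * Cs * 2 ^ k0 * (2 / K ^ 8)) / T :=
          div_le_div_of_nonneg_right hE hT0.le
      _ = 34 * 2 ^ 12 * 2 * 40 / K := by
          rw [hT]
          have h1 : (Cs : ℝ) ≠ 0 := by linarith
          have h2 : K ≠ 0 := hK0.ne'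
          field_simp
      _ ≤ 34 * 2 ^ 12 * 2 * 40 / 10 ^ 20 :=
          div_le_div_of_nonneg_left (by norm_num) (by norm_num) hK20
      _ ≤ _ := by norm_num
  -- conclusion
  have hsub : {ω | ¬ Seg (fun v => ∑ j ∈ Finset.range k0, X j v ω) K k0 T} ⊆
      {ω | ¬ ∀ b ≤ nlev k0 b0, ∀ u < 2 ^ k0, FB (fun j v => X j v ω) k0 b0 K b u →
        ∃ b' < b, Op (fun j v => X j v ω) k0 b0 y0 Cs b b' u} ∪
      {ω | T < cost (fun j v => X j v ω) k0 b0 K y0 Cs} := by
    intro ω hω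
    by_contra hcon
    rw [Set.mem_union, not_or] at hcon
    obtain ⟨hc1, hc2⟩ := hcon
    simp only [Set.mem_ofPred_eq, not_not, not_lt] at hc1 hc2
    refine hω ?_
    exact seg_of_cost (fun j v => X j v ω) hk0 hb0 hKy hK0.le hc1 hc2
  have hfin : μ.real {ω | ¬ Seg (fun v => ∑ j ∈ Finset.range k0, X j v ω) K k0 T} ≤
      1 / 10 ^ 9 := by
    refine (measureReal_mono hsub).trans ((measureReal_union_le _ _).trans ?_)
    calc _ ≤ (1 : ℝ) / (2 * 10 ^ 9) + 1 / (2 * 10 ^ 9) := add_le_add hF1 hF2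
      _ = _ := by norm_num
  rw [← ofReal_measureReal (μ := μ)]
  exact ENNReal.ofReal_le_ofReal hfin

end Pool.H92.GFL
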