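import Pool.Agent.helper92.GFL.A8a
import Pool.Agent.helper92.GFL.L3

/-!
From segments to circuits.
-/

namespace Pool.H92.GFL

open Function Finset MeasureTheory ProbabilityTheory Pool.H92.GFF
open scoped Classical ENNReal

/-! ### lattice isometries -/

/-- a bijection of the lattice respecting neighbours, with its inverse -/
structure A8bIso (τ σ : V → V) : Prop where
  l : ∀ v, σ (τ v) = v
  r : ∀ v, τ (σ v) = v
  nb : ∀ v w, w ∈ nb v → τ w ∈ nb (τ v)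
  nb' : ∀ v w, w ∈ Pool.H92.GFF.nb v → σ w ∈ Pool.H92.GFF.nb (σ v)

lemma A8bIso.comp {τ σ τ' σ' : V → V} (h : A8bIso τ σ) (h' : A8bIso τ' σ') :
    A8bIso (fun v => τ (τ' v)) (fun v => σ' (σ v)) :=
  ⟨fun v => by simp only [h.l, h'.l], fun v => by simp only [h.r, h'.r],
    fun v w hw => h.nb _ _ (h'.nb _ _ hw), fun v w hw => h'.nb' _ _ (h.nb' _ _ hw)⟩

/-- inverse rotation -/
def a8bri (v : V) : V := (v.2, -v.1)

lemma a8b_rot_iso : A8bIso rot a8bri := by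
  refine ⟨fun v => by simp [a8bri, rot], fun v => by simp [a8bri, rot], ?_, ?_⟩
  · rintro ⟨a, b⟩ ⟨c, d⟩ h
    simp only [GFF.nb, rot, Finset.mem_insert, Finset.mem_singleton, Prod.mk.injEq] at h ⊢
    omega
  · rintro ⟨a, b⟩ ⟨c, d⟩ h
    simp only [GFF.nb, a8bri, Finset.mem_insert, Finset.mem_singleton, Prod.mk.injEq] at h ⊢
    omega

lemma a8b_rot_it (i : ℕ) : A8bIso (rot^[i]) (a8bri^[i]) := by
  induction i with
  | zero => exact ⟨fun _ => rfl, fun _ => rfl, fun _ _ h => h, fun _ _ h => h⟩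
  | succ i ih =>
    have h := ih.comp a8b_rot_iso
    rw [Function.iterate_succ, Function.iterate_succ']
    exact h

lemma a8b_add_iso (c : V) : A8bIso (fun v => v + c) (fun v => v - c) := by
  refine ⟨fun v => by simp, fun v => by simp, ?_, ?_⟩
  · intro v w h
    exact nb_add.2 h
  · intro v w h
    have : w + -c ∈ GFF.nb (v + -c) := nb_add.2 h
    simpa [sub_eq_add_neg] using this

lemma Conn.a8b_map {τ σ : V → V} (h : A8bIso τ σ) {O O' : Set V} (hO : ∀ v ∈ O, τ v ∈ O')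
    {n : ℕ} {x y : V} (hc : Conn O n x y) : Conn O' n (τ x) (τ y) := by
  obtain ⟨p, h0, h1, h2, h3⟩ := hc
  refine ⟨fun i => τ (p i), by simp only [h0], by simp only [h1], fun i hi => hO _ (h2 i hi),
    fun i hi => ?_⟩
  rcases h3 i hi with h' | h'
  · left; simp only [h']
  · right; exact h.nb _ _ h'

lemma a8b_mem_image {τ σ : V → V} (h : A8bIso τ σ) {F : Finset V} {x : V} :
    x ∈ F.image τ ↔ σ x ∈ F := by
  rw [Finset.mem_image]
  constructor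
  · rintro ⟨a, ha, rfl⟩
    rwa [h.l]
  · intro hx
    exact ⟨_, hx, h.r x⟩

lemma Full.a8b_map {τ σ : V → V} (h : A8bIso τ σ) {F : Finset V} (hF : Full F) :
    Full (F.image τ) := by
  intro x hx r
  obtain ⟨r', hr'⟩ := a8a_bound ((ball 0 r).image σ)
  rw [a8b_mem_image h] at hx
  obtain ⟨n, b, hc, hb⟩ := hF _ hx r'
  refine ⟨n, τ b, ?_, fun hh => hb (hr' ?_)⟩
  · have := hc.a8b_map h (O' := ((F.image τ : Finset V) : Set V)ᶜ) (fun v hv => by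
      intro hv'
      apply hv
      have h1 : τ v ∈ F.image τ := by exact_mod_cast hv'
      rw [a8b_mem_image h, h.l] at h1
      exact_mod_cast h1)
    rwa [h.r] at this
  · rw [Finset.mem_image]
    exact ⟨τ b, hh, h.l b⟩

lemma a8b_bdry_map {τ σ : V → V} (h : A8bIso τ σ) {F Γ : Finset V}
    (hb : ∀ x ∈ F, ∀ w ∈ nb x, w ∉ F → x ∈ Γ) :
    ∀ x ∈ F.image τ, ∀ w ∈ nb x, w ∉ F.image τ → x ∈ Γ.image τ := by
  intro x hx w hw hwF
  rw [a8b_mem_image h] at hx hwF ⊢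
  exact hb _ hx _ (h.nb' _ _ hw) hwF

/-- `bypass` with a finite index type -/
lemma a8b_bypass {ι : Type} [Fintype ι] (O : Set V) (p : ℕ → V) (n : ℕ)
    (hp : ∀ i < n, p (i + 1) = p i ∨ p (i + 1) ∈ nb (p i))
    (Γ F : ι → Finset V) (d : ι → ℕ) (hfull : ∀ l, Full (F l))
    (hΓ : ∀ l, Γ l ⊆ F l) (hb : ∀ l, ∀ x ∈ F l, ∀ w ∈ nb x, w ∉ F l → x ∈ Γ l)
    (hc : ∀ l, ∀ x ∈ Γ l, ∀ x' ∈ Γ l, Conn O (d l) x x')
    (hcov : ∀ i ≤ n, p i ∈ O ∨ ∃ l, p i ∈ F l) :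
    ∃ Λ : Finset V, (∀ x ∈ Λ, x ∈ O) ∧
      (∀ x ∈ Λ, ∀ y ∈ Λ, Conn O (2 * n + 2 + 2 * ∑ l, (2 * d l + 2)) x y) ∧
      (∀ i ≤ n, p i ∈ Λ ∨ ∃ l, p i ∈ F l ∧ Γ l ⊆ Λ) := by
  set e := Fintype.equivFin ι with he
  set N := Fintype.card ι with hN
  obtain ⟨Λ, h1, h2, h3⟩ := bypass O p n hp N
    (fun l => if h : l < N then Γ (e.symm ⟨l, h⟩) else ∅)
    (fun l => if h : l < N then F (e.symm ⟨l, h⟩) else ∅)
    (fun l => if h : l < N then d (e.symm ⟨l, h⟩) else 0)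
    (fun l hl => by simp only [hl, dite_true]; exact hfull _)
    (fun l hl => by simp only [hl, dite_true]; exact hΓ _)
    (fun l hl => by simp only [hl, dite_true]; exact hb _)
    (fun l hl => by simp only [hl, dite_true]; exact hc _)
    (fun i hi => by
      rcases hcov i hi with h | ⟨l, hl⟩
      · exact Or.inl h
      · refine Or.inr ⟨e l, (e l).2, ?_⟩
        simp only [(e l).2, dite_true, Fin.eta, Equiv.symm_apply_apply]
        exact hl)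
  refine ⟨Λ, fun x hx => (h1 x hx).1, fun x hx y hy => ?_, fun i hi => ?_⟩
  · have h := h2 x hx y hy
    have e1 : ∑ l ∈ Finset.range N, (2 * (if h : l < N then d (e.symm ⟨l, h⟩) else 0) + 2) =
        ∑ l, (2 * d l + 2) := by
      rw [Finset.sum_range]
      rw [← Equiv.sum_comp e.symm (fun l => 2 * d l + 2)]
      refine Finset.sum_congr rfl fun l _ => ?_
      simp only [l.2, dite_true, Fin.eta]
    rw [e1] at h
    exact h
  · rcases h3 i hi with h | ⟨l, hl, h, h'⟩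
    · exact Or.inl h
    · simp only [hl, dite_true] at h h'
      exact Or.inr ⟨_, h, h'⟩

/-! ### concatenation -/

lemma a8b_cat {α : Type} (r : α → α → Prop) (L n : ℕ) (hL : 0 < L) (w : ℕ → ℕ → α)
    (hs : ∀ q < n, ∀ t < L, r (w q t) (w q (t + 1))) (hg : ∀ q < n, w q L = w (q + 1) 0) :
    ∀ j < n * L, r (w (j / L) (j % L)) (w ((j + 1) / L) ((j + 1) % L)) := by
  intro j hj
  have hq : j / L < n := Nat.div_lt_of_lt_mul (by rwa [mul_comm])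
  have ht : j % L < L := Nat.mod_lt _ hL
  have hj' := Nat.div_add_mod j L
  have hstep := hs _ hq _ ht
  rcases Nat.lt_or_ge (j % L + 1) L with h | h
  · have e1 : (j + 1) / L = j / L := by
      rw [show j + 1 = (j % L + 1) + L * (j / L) by omega, Nat.add_mul_div_left _ _ hL,
        Nat.div_eq_of_lt h, zero_add]
    have e2 : (j + 1) % L = j % L + 1 := by
      rw [show j + 1 = (j % L + 1) + L * (j / L) by omega, Nat.add_mul_mod_self_left,
        Nat.mod_eq_of_lt h]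
    rw [e1, e2]
    exact hstep
  · have h' : j % L + 1 = L := by omega
    have e0 : j + 1 = L * (j / L + 1) := by
      rw [Nat.mul_add, mul_one]; omega
    have e1 : (j + 1) / L = j / L + 1 := by
      rw [e0, Nat.mul_div_cancel_left _ hL]
    have e2 : (j + 1) % L = 0 := by
      rw [e0, Nat.mul_mod_right]
    rw [e1, e2, ← hg _ hq]
    rw [h'] at hstep
    exact hstep


/-! ### one side -/

/-- upper left side of the diamond -/
structure A8bSide (s : ℕ) (S : ℕ → V) : Prop where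
  sum : ∀ t ≤ 80 * s, (S t).1 + (S t).2 = (t : ℤ) - 40 * s
  lo : ∀ t ≤ 80 * s, -(40 * (s : ℤ)) - 1 ≤ (S t).1 - (S t).2
  hi : ∀ t ≤ 80 * s, (S t).1 - (S t).2 ≤ -(39 * (s : ℤ))
  step : ∀ t < 80 * s, S (t + 1) ∈ nb (S t)

/-- strictly inside with respect to one side -/
def a8bIn (s : ℕ) (S : ℕ → V) (v : V) : Prop :=
  ∀ t ≤ 80 * s, v.1 + v.2 = (t : ℤ) - 40 * s → (S t).1 - (S t).2 < v.1 - v.2

lemma a8b_strict {s : ℕ} {S : ℕ → V} (hS : A8bSide s S) {v : V} (hv : a8bIn s S v)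
    (h1 : -(40 * (s : ℤ)) ≤ v.1 + v.2) (h2 : v.1 + v.2 ≤ 40 * (s : ℤ)) :
    -(40 * (s : ℤ)) + 1 ≤ v.1 - v.2 := by
  obtain ⟨t, ht⟩ : ∃ t : ℕ, (t : ℤ) = v.1 + v.2 + 40 * s :=
    ⟨(v.1 + v.2 + 40 * s).toNat, Int.toNat_of_nonneg (by omega)⟩
  have ht' : t ≤ 80 * s := by omega
  have e1 := hv t ht' (by omega)
  have e2 := hS.lo t ht'
  have e3 := hS.sum t ht'
  omega

lemma a8b_step {s : ℕ} {S : ℕ → V} (hS : A8bSide s S) {v w : V} (hv : a8bIn s S v)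
    (h1 : -(40 * (s : ℤ)) ≤ v.1 + v.2) (h2 : v.1 + v.2 ≤ 40 * (s : ℤ)) (hw : w ∈ nb v)
    (hn : ¬ a8bIn s S w) : ∃ t ≤ 80 * s, w = S t := by
  unfold a8bIn at hn
  push Not at hn
  obtain ⟨t, ht, hsum, hle⟩ := hn
  refine ⟨t, ht, ?_⟩
  have hSt := hS.sum t ht
  obtain ⟨v1, v2⟩ := v
  obtain ⟨w1, w2⟩ := w
  simp only [nb, Finset.mem_insert, Finset.mem_singleton, Prod.mk.injEq] at hw
  simp only at h1 h2 hsum hle
  rcases hst : S t with ⟨a, b⟩
  rw [hst] at hSt hle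
  simp only at hSt hle
  have hcase : v1 + v2 = (t : ℤ) + 1 - 40 * s ∨ v1 + v2 = (t : ℤ) - 1 - 40 * s := by omega
  rcases hcase with h | h
  · have ht1 : t < 80 * s := by omega
    have hstep := hS.step t ht1
    have hin := hv (t + 1) (by omega) (by push_cast; omega)
    have hsum1 := hS.sum (t + 1) (by omega)
    rcases hst1 : S (t + 1) with ⟨c, d⟩
    rw [hst, hst1] at hstep
    rw [hst1] at hin hsum1
    simp only [nb, Finset.mem_insert, Finset.mem_singleton, Prod.mk.injEq] at hstep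
    push_cast at hin hsum1
    try simp only at hin hsum1
    rw [Prod.mk.injEq]
    omega
  · obtain ⟨t', rfl⟩ : ∃ t', t = t' + 1 := ⟨t - 1, by omega⟩
    have hstep := hS.step t' (by omega)
    have hin := hv t' (by omega) (by push_cast at h; omega)
    have hsum1 := hS.sum t' (by omega)
    rcases hst1 : S t' with ⟨c, d⟩
    rw [hst, hst1] at hstep
    rw [hst1] at hin hsum1
    simp only [nb, Finset.mem_insert, Finset.mem_singleton, Prod.mk.injEq] at hstep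
    try simp only at hin hsum1
    push_cast at hsum hSt h
    rw [Prod.mk.injEq]
    omega

/-! ### the region -/

/-- the region strictly inside the four sides -/
def a8bD (s : ℕ) (S : ℕ → ℕ → V) (v : V) : Prop :=
  (-(40 * (s : ℤ)) ≤ v.1 + v.2 ∧ v.1 + v.2 ≤ 40 * (s : ℤ)) ∧
    (-(40 * (s : ℤ)) ≤ v.1 - v.2 ∧ v.1 - v.2 ≤ 40 * (s : ℤ)) ∧
    ∀ i < 4, a8bIn s (S i) (a8bri^[i] v)

lemma a8b_ri0 (v : V) : a8bri^[0] v = v := rfl
lemma a8b_ri1 (v : V) : a8bri^[1] v = (v.2, -v.1) := rfl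
lemma a8b_ri2 (v : V) : a8bri^[2] v = (-v.1, -v.2) := rfl
lemma a8b_ri3 (v : V) : a8bri^[3] v = (-v.2, v.1) := by
  show ((-v.2, - -v.1) : V) = _
  simp

lemma a8b_exit {s : ℕ} {S : ℕ → ℕ → V} (hS : ∀ i < 4, A8bSide s (S i)) {v w : V}
    (hv : a8bD s S v) (hw : w ∈ nb v) (hn : ¬ a8bD s S w) :
    ∃ i < 4, ∃ t ≤ 80 * s, w = rot^[i] (S i t) := by
  obtain ⟨⟨h1, h2⟩, ⟨h3, h4⟩, h5⟩ := hv
  have k0 := h5 0 (by norm_num)
  have k1 := h5 1 (by norm_num)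
  have k2 := h5 2 (by norm_num)
  have k3 := h5 3 (by norm_num)
  have s0 := a8b_strict (hS 0 (by norm_num)) k0 (by rw [a8b_ri0]; omega) (by rw [a8b_ri0]; omega)
  have s1 := a8b_strict (hS 1 (by norm_num)) k1 (by rw [a8b_ri1]; simp only; omega)
    (by rw [a8b_ri1]; simp only; omega)
  have s2 := a8b_strict (hS 2 (by norm_num)) k2 (by rw [a8b_ri2]; simp only; omega)
    (by rw [a8b_ri2]; simp only; omega)
  have s3 := a8b_strict (hS 3 (by norm_num)) k3 (by rw [a8b_ri3]; simp only; omega)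
    (by rw [a8b_ri3]; simp only; omega)
  rw [a8b_ri0] at s0
  rw [a8b_ri1] at s1
  rw [a8b_ri2] at s2
  rw [a8b_ri3] at s3
  simp only at s1 s2 s3
  have hw' : -(40 * (s : ℤ)) ≤ w.1 + w.2 ∧ w.1 + w.2 ≤ 40 * (s : ℤ) ∧
      -(40 * (s : ℤ)) ≤ w.1 - w.2 ∧ w.1 - w.2 ≤ 40 * (s : ℤ) := by
    obtain ⟨v1, v2⟩ := v
    obtain ⟨w1, w2⟩ := w
    simp only [nb, Finset.mem_insert, Finset.mem_singleton, Prod.mk.injEq] at hw
    simp only at *
    omega
  have hex : ∃ i < 4, ¬ a8bIn s (S i) (a8bri^[i] w) := by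
    by_contra hcon
    push Not at hcon
    exact hn ⟨⟨hw'.1, hw'.2.1⟩, ⟨hw'.2.2.1, hw'.2.2.2⟩, hcon⟩
  obtain ⟨i, hi, hin⟩ := hex
  have hrng : -(40 * (s : ℤ)) ≤ (a8bri^[i] v).1 + (a8bri^[i] v).2 ∧
      (a8bri^[i] v).1 + (a8bri^[i] v).2 ≤ 40 * (s : ℤ) := by
    interval_cases i
    · rw [a8b_ri0]; omega
    · rw [a8b_ri1]; simp only; omega
    · rw [a8b_ri2]; simp only; omega
    · rw [a8b_ri3]; simp only; omega
  obtain ⟨t, ht, he⟩ := a8b_step (hS i hi) (h5 i hi) hrng.1 hrng.2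
    ((a8b_rot_it i).nb' _ _ hw) hin
  exact ⟨i, hi, t, ht, by rw [← he, (a8b_rot_it i).r]⟩

lemma a8b_D_small {s : ℕ} {S : ℕ → ℕ → V} (hs : 0 < s) (hS : ∀ i < 4, A8bSide s (S i)) {v : V}
    (hv : v ∈ ball 0 (16 * s)) : a8bD s S v := by
  rw [mem_ball] at hv
  simp only [Prod.fst_zero, Prod.snd_zero] at hv
  push_cast at hv
  refine ⟨by omega, by omega, fun i hi t ht hsum => ?_⟩
  have h := (hS i hi).hi t ht
  interval_cases i
  · rw [a8b_ri0]; omega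
  · rw [a8b_ri1]; simp only; omega
  · rw [a8b_ri2]; simp only; omega
  · rw [a8b_ri3]; simp only; omega

lemma a8b_D_large {s : ℕ} {S : ℕ → ℕ → V} {v : V} (hv : a8bD s S v) : v ∈ ball 0 (48 * s) := by
  obtain ⟨h1, h2, -⟩ := hv
  rw [mem_ball]
  simp only [Prod.fst_zero, Prod.snd_zero]
  push_cast
  omega

/-- side number in the order of the walk -/
def a8bI (q : ℕ) : ℕ := (8 - q) % 4

/-- the closed walk -/
def a8bW (s : ℕ) (S : ℕ → ℕ → V) (j : ℕ) : V :=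
  rot^[a8bI (j / (80 * s))] (S (a8bI (j / (80 * s))) (j % (80 * s)))

lemma a8b_walk {s : ℕ} {S : ℕ → ℕ → V} (hs : 0 < s) (hS : ∀ i < 4, A8bSide s (S i))
    (h0 : ∀ i < 4, S i 0 = (-(40 * (s : ℤ)), 0)) (h1 : ∀ i < 4, S i (80 * s) = (0, 40 * (s : ℤ))) :
    ∀ j < 4 * (80 * s), a8bW s S (j + 1) ∈ nb (a8bW s S j) := by
  refine a8b_cat (fun v w => w ∈ nb v) (80 * s) 4 (by omega)
    (fun q t => rot^[a8bI q] (S (a8bI q) t)) (fun q hq t ht => ?_) (fun q hq => ?_)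
  · exact (a8b_rot_it _).nb _ _ ((hS _ (Nat.mod_lt _ (by norm_num))).step t ht)
  · have e1 := h1 (a8bI q) (Nat.mod_lt _ (by norm_num))
    have e2 := h0 (a8bI (q + 1)) (Nat.mod_lt _ (by norm_num))
    simp only [e1, e2]
    interval_cases q <;> simp [a8bI, rot, Function.iterate_succ_apply']


lemma a8bI_lt (q : ℕ) : a8bI q < 4 := Nat.mod_lt _ (by norm_num)

lemma a8bW_eq {s : ℕ} {S : ℕ → ℕ → V} (q t : ℕ) (ht : t < 80 * s) :
    a8bW s S (80 * s * q + t) = rot^[a8bI q] (S (a8bI q) t) := by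
  have hpos : 0 < 80 * s := by omega
  have e1 : (80 * s * q + t) / (80 * s) = q := by
    rw [Nat.mul_add_div hpos, Nat.div_eq_of_lt ht, add_zero]
  have e2 : (80 * s * q + t) % (80 * s) = t := by
    rw [Nat.mul_add_mod, Nat.mod_eq_of_lt ht]
  unfold a8bW
  rw [e1, e2]

lemma a8b_cover {s : ℕ} {S : ℕ → ℕ → V} (hs : 0 < s)
    (h0 : ∀ i < 4, S i 0 = (-(40 * (s : ℤ)), 0)) (h1 : ∀ i < 4, S i (80 * s) = (0, 40 * (s : ℤ)))
    {i : ℕ} (hi : i < 4) {t : ℕ} (ht : t ≤ 80 * s) :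
    ∃ j < 4 * (80 * s), rot^[i] (S i t) = a8bW s S j := by
  rcases Nat.lt_or_ge t (80 * s) with h | h
  · refine ⟨80 * s * ((8 - i) % 4) + t, ?_, ?_⟩
    · interval_cases i <;> omega
    · rw [a8bW_eq _ _ h]
      interval_cases i <;> rfl
  · have h' : t = 80 * s := by omega
    subst h'
    refine ⟨80 * s * ((9 - i) % 4) + 0, ?_, ?_⟩
    · interval_cases i <;> omega
    · rw [a8bW_eq _ _ (by omega), h1 i hi, h0 _ (a8bI_lt _)]
      interval_cases i <;> simp [a8bI, rot, Function.iterate_succ_apply']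

/-- first vertex outside a region -/
lemma a8b_first {O : Set V} {D : V → Prop} {n : ℕ} {x y : V} (hc : Conn O n x y) (hx : D x)
    (hy : ¬ D y) : ∃ (m : ℕ) (v w : V), Conn O m x w ∧ D v ∧ w ∈ nb v ∧ ¬ D w := by
  obtain ⟨p, h0, hn, hp, hs⟩ := hc
  have hex : ∃ j, ¬ D (p j) := ⟨n, by rwa [hn]⟩
  have hj := Nat.find_spec hex
  have hmin : ∀ m < Nat.find hex, ¬ ¬ D (p m) := fun m hm => Nat.find_min hex hm
  have hjn : Nat.find hex ≤ n := Nat.find_min' hex (by rwa [hn])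
  have hj0 : Nat.find hex ≠ 0 := by
    intro h
    rw [h, h0] at hj
    exact hj hx
  obtain ⟨m, hm⟩ := Nat.exists_eq_succ_of_ne_zero hj0
  rw [Nat.succ_eq_add_one] at hm
  rw [hm] at hj hmin hjn
  have hDm : D (p m) := not_not.1 (hmin m (Nat.lt_succ_self m))
  refine ⟨m + 1, p m, p (m + 1), ⟨p, h0, rfl, fun i hi => hp i (by omega),
    fun i hi => hs i (by omega)⟩, hDm, ?_, hj⟩
  rcases hs m (by omega) with h | h
  · rw [h] at hj
    exact absurd hDm hj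
  · exact h

lemma a8b_top {s : ℕ} {S : ℕ → ℕ → V} (hs : 0 < s) (hS : ∀ i < 4, A8bSide s (S i))
    (h0 : ∀ i < 4, S i 0 = (-(40 * (s : ℤ)), 0)) (h1 : ∀ i < 4, S i (80 * s) = (0, 40 * (s : ℤ)))
    {ι : Type} (Γ F : ι → Finset V) (hF : ∀ l, ∀ x ∈ F l, x ∉ ball 0 (16 * s))
    (hb : ∀ l, ∀ x ∈ F l, ∀ w ∈ nb x, w ∉ F l → x ∈ Γ l) (Λ : Finset V)
    (hΛ : ∀ x ∈ Λ, x ∈ ball 0 (48 * s) ∧ x ∉ ball 0 (16 * s))
    (hcov : ∀ j < 4 * (80 * s), a8bW s S j ∈ Λ ∨ ∃ l, a8bW s S j ∈ F l ∧ Γ l ⊆ Λ) :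
    ∃ G : Finset V, ball 0 (16 * s) ⊆ G ∧ G ⊆ ball 0 (48 * s) ∧ Λ ⊆ G ∧
      ∀ x ∈ G, ∀ w ∈ nb x, w ∉ G → x ∈ Λ := by
  refine ⟨(ball 0 (48 * s)).filter
    (fun x => ¬ ∃ (n : ℕ) (b : V), Conn ((Λ : Set V)ᶜ) n x b ∧ b ∉ ball 0 (48 * s)), ?_,
    Finset.filter_subset _ _, ?_, ?_⟩
  · intro x hx
    rw [Finset.mem_filter]
    refine ⟨?_, ?_⟩
    · rw [mem_ball] at hx ⊢
      push_cast at hx ⊢
      omega
    · rintro ⟨n, b, hc, hbb⟩
      obtain ⟨m, v, w, hcw, hDv, hw, hDw⟩ := a8b_first (D := a8bD s S) hc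
        (a8b_D_small hs hS hx) (fun h => hbb (a8b_D_large h))
      obtain ⟨i, hi, t, ht, he⟩ := a8b_exit hS hDv hw hDw
      obtain ⟨j, hj, he'⟩ := a8b_cover hs h0 h1 hi ht
      rw [he'] at he
      rcases hcov j hj with h | ⟨l, h, hl⟩
      · rw [← he] at h
        exact hcw.a8a_right (by exact_mod_cast h)
      · rw [← he] at h
        obtain ⟨g, hg, -, hcg⟩ := a8a_exit (hb l) hcw.a8a_symm h (fun hh => hF l _ hh hx)
        exact hcg.a8a_right (by exact_mod_cast hl hg)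
  · intro x hx
    rw [Finset.mem_filter]
    refine ⟨(hΛ x hx).1, ?_⟩
    rintro ⟨n, b, hc, -⟩
    exact hc.a8a_left (by exact_mod_cast hx)
  · intro x hx w hw hwG
    rw [Finset.mem_filter] at hx hwG
    by_contra hxΛ
    apply hx.2
    have hxO : x ∈ ((Λ : Set V)ᶜ) := fun h => hxΛ (by exact_mod_cast h)
    by_cases hwb : w ∈ ball 0 (48 * s)
    · have : ∃ (n : ℕ) (b : V), Conn ((Λ : Set V)ᶜ) n w b ∧ b ∉ ball 0 (48 * s) := by
        by_contra hcon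
        exact hwG ⟨hwb, hcon⟩
      obtain ⟨n, b, hc, hbb⟩ := this
      exact ⟨1 + n, b, (a8a_step hxO hc.a8a_left (Or.inr hw)).a8a_trans hc, hbb⟩
    · have hwO : w ∈ ((Λ : Set V)ᶜ) := fun h => hwb (hΛ w (by exact_mod_cast h)).1
      exact ⟨1, w, a8a_step hxO hwO (Or.inr hw), hwb⟩

/-! ### the segments -/

/-- `Seg` with `s` instead of `2 ^ k0` -/
structure A8bSeg (ψ : V → ℝ) (y : ℝ) (s : ℕ) (T : ℝ) (p : ℕ → V) (n : ℕ) (Γ F : ℕ → Finset V)
    (d : ℕ → ℕ) : Prop where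
  p0 : p 0 = 0
  ps : p s = ((s : ℤ) / 2, (s : ℤ) / 2)
  st : ∀ i < s, p (i + 1) ∈ nb (p i)
  co : ∀ i ≤ s, (p i).1 + (p i).2 = i ∧ -1 ≤ (p i).1 - (p i).2 ∧ (p i).1 - (p i).2 ≤ s
  ci : ∀ l < n, Full (F l) ∧ Γ l ⊆ F l ∧ (∀ x ∈ F l, ∀ w ∈ nb x, w ∉ F l → x ∈ Γ l) ∧
      (∀ x ∈ F l, ∃ i ≤ s, x ∈ ball (p i) s) ∧ (∀ x ∈ Γ l, ψ x ≤ y) ∧
      ∀ x ∈ Γ l, ∀ x' ∈ Γ l, Conn {v | ψ v ≤ y ∧ ∃ i ≤ s, v ∈ ball (p i) s} (d l) x x'
  cv : ∀ i < s, ψ (p i) ≤ y ∨ ∃ l < n, p i ∈ F l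
  sm : ∑ l ∈ Finset.range n, (2 * (d l : ℝ) + 2) ≤ T

lemma Seg.a8b {ψ : V → ℝ} {y : ℝ} {k0 : ℕ} {T : ℝ} (h : Seg ψ y k0 T) :
    ∃ p n Γ F d, A8bSeg ψ y (2 ^ k0) T p n Γ F d := by
  obtain ⟨p, n, Γ, F, d, h1, h2, h3, h4, h5, h6, h7⟩ := h
  refine ⟨p, n, Γ, F, d, h1, ?_, h3, ?_, h5, h6, h7⟩
  · rw [h2]; push_cast; rfl
  · intro i hi
    have := h4 i hi
    push_cast
    exact this

/-- starting point of segment `a` -/
def a8bc (h a : ℕ) : V := (-(40 * (2 * (h : ℤ))) + a * h, (a : ℤ) * h)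

/-- one side from its segments -/
def a8bS (h : ℕ) (P : ℕ → ℕ → V) (t : ℕ) : V :=
  P (t / (2 * h)) (t % (2 * h)) + a8bc h (t / (2 * h))

lemma a8b_side {h : ℕ} (hh : 0 < h) {P : ℕ → ℕ → V} (h0 : ∀ a ≤ 80, P a 0 = 0)
    (h1 : ∀ a < 80, P a (2 * h) = ((h : ℤ), (h : ℤ)))
    (h2 : ∀ a < 80, ∀ i < 2 * h, P a (i + 1) ∈ nb (P a i))
    (h3 : ∀ a < 80, ∀ i ≤ 2 * h, (P a i).1 + (P a i).2 = i ∧ -1 ≤ (P a i).1 - (P a i).2 ∧
      (P a i).1 - (P a i).2 ≤ (2 * h : ℕ)) :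
    A8bSide (2 * h) (a8bS h P) ∧ a8bS h P 0 = (-(40 * ((2 * h : ℕ) : ℤ)), 0) ∧
      a8bS h P (80 * (2 * h)) = (0, 40 * ((2 * h : ℕ) : ℤ)) := by
  have hend : a8bS h P (80 * (2 * h)) = (0, 40 * ((2 * h : ℕ) : ℤ)) := by
    have e1 : 80 * (2 * h) / (2 * h) = 80 := Nat.mul_div_cancel _ (by omega)
    have e2 : 80 * (2 * h) % (2 * h) = 0 := Nat.mul_mod_left _ _
    unfold a8bS
    rw [e1, e2, h0 80 le_rfl, zero_add]
    unfold a8bc
    push_cast
    refine Prod.ext ?_ ?_ <;> simp only <;> ring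
  have hmid : ∀ t < 80 * (2 * h), ∃ a : ℕ, a < 80 ∧ ∃ i < 2 * h, (t : ℤ) = a * (2 * h) + i ∧
      a8bS h P t = P a i + a8bc h a := by
    intro t ht
    refine ⟨t / (2 * h), Nat.div_lt_of_lt_mul (by rwa [mul_comm]), t % (2 * h),
      Nat.mod_lt _ (by omega), ?_, rfl⟩
    have := Nat.div_add_mod t (2 * h)
    have h' : ((2 * h * (t / (2 * h)) + t % (2 * h) : ℕ) : ℤ) = (t : ℤ) := by rw [this]
    push_cast at h' ⊢
    linarith [h']
  refine ⟨⟨?_, ?_, ?_, ?_⟩, ?_, hend⟩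
  · intro t ht
    rcases Nat.lt_or_ge t (80 * (2 * h)) with h' | h'
    · obtain ⟨a, ha, i, hi, e1, e2⟩ := hmid t h'
      have e3 := h3 a ha i hi.le
      rw [e2, e1]
      simp only [a8bc, Prod.fst_add, Prod.snd_add]
      push_cast
      linarith [e3.1]
    · have : t = 80 * (2 * h) := by omega
      subst this
      rw [hend]
      push_cast
      ring
  · intro t ht
    rcases Nat.lt_or_ge t (80 * (2 * h)) with h' | h'
    · obtain ⟨a, ha, i, hi, e1, e2⟩ := hmid t h'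
      have e3 := h3 a ha i hi.le
      rw [e2]
      simp only [a8bc, Prod.fst_add, Prod.snd_add]
      push_cast
      linarith [e3.2.1]
    · have : t = 80 * (2 * h) := by omega
      subst this
      rw [hend]
      push_cast
      linarith
  · intro t ht
    rcases Nat.lt_or_ge t (80 * (2 * h)) with h' | h'
    · obtain ⟨a, ha, i, hi, e1, e2⟩ := hmid t h'
      have e3 := h3 a ha i hi.le
      have e4 := e3.2.2
      rw [e2]
      simp only [a8bc, Prod.fst_add, Prod.snd_add]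
      push_cast at e4 ⊢
      linarith
    · have : t = 80 * (2 * h) := by omega
      subst this
      rw [hend]
      push_cast
      linarith
  · refine a8b_cat (fun v w => w ∈ nb v) (2 * h) 80 (by omega)
      (fun a i => P a i + a8bc h a) (fun a ha i hi => nb_add.2 (h2 a ha i hi)) (fun a ha => ?_)
    rw [h1 a ha, h0 (a + 1) (by omega), zero_add]
    unfold a8bc
    push_cast
    refine Prod.ext ?_ ?_ <;> simp only [Prod.fst_add, Prod.snd_add] <;> ring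
  · unfold a8bS
    rw [Nat.zero_div, Nat.zero_mod, h0 0 (by norm_num), zero_add]
    unfold a8bc
    push_cast
    refine Prod.ext ?_ ?_ <;> simp only <;> ring


lemma a8b_geo {h a i : ℕ} (ha : a < 80) (hi : i ≤ 2 * h) {p v : V}
    (h3 : p.1 + p.2 = i ∧ -1 ≤ p.1 - p.2 ∧ p.1 - p.2 ≤ (2 * h : ℕ)) (h0 : 0 < h)
    (hv : v ∈ ball p (2 * h)) :
    v + a8bc h a ∈ ball 0 (48 * (2 * h)) ∧ v + a8bc h a ∉ ball 0 (16 * (2 * h)) := by
  rw [mem_ball] at hv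
  have e1 : (0 : ℤ) ≤ (a : ℤ) * h := by positivity
  have e2 : (a : ℤ) * h ≤ 79 * h := by
    have : (a : ℤ) ≤ 79 := by omega
    nlinarith
  simp only [mem_ball, a8bc, Prod.fst_add, Prod.snd_add, Prod.fst_zero, Prod.snd_zero]
  generalize (a : ℤ) * h = b at *
  push_cast at *
  omega

lemma a8b_rot_ball (i : ℕ) (r : ℕ) (v : V) : rot^[i] v ∈ ball 0 r ↔ v ∈ ball 0 r := by
  induction i generalizing v with
  | zero => rfl
  | succ i ih =>
    rw [Function.iterate_succ_apply, ih]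
    simp only [rot, mem_ball, Prod.fst_zero, Prod.snd_zero]
    omega

theorem nice_of_segs {ψ : V → ℝ} {y T : ℝ} {k0 C : ℕ} (hk0 : 1 ≤ k0)
    (h : ∀ i < 4, ∀ a : ℕ, a < 80 → Seg (fun v => ψ (rot^[i] (v + ((-40 * 2 ^ k0 + a * 2 ^ (k0 - 1) : ℤ),
      (a * 2 ^ (k0 - 1) : ℤ))))) y k0 T)
    (hC : 640 * (2 : ℝ) ^ k0 + 640 * T + 4 ≤ C * 2 ^ (k0 + 4)) :
    Nice ψ y 0 (k0 + 4) C := by
  obtain ⟨k, rfl⟩ : ∃ k, k0 = k + 1 := ⟨k0 - 1, by omega⟩
  have hpow : 2 ^ (k + 1) = 2 * 2 ^ k := by rw [pow_succ]; ring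
  have hpow16 : 2 ^ (k + 1 + 4) = 16 * (2 * 2 ^ k) := by rw [pow_add, hpow]; norm_num; ring
  set H : ℕ := 2 ^ k with hH
  have hH0 : 0 < H := by positivity
  have hc : ∀ a : ℕ, (((-40 * 2 ^ (k + 1) + a * 2 ^ (k + 1 - 1) : ℤ), (a * 2 ^ (k + 1 - 1) : ℤ)) : V)
      = a8bc H a := by
    intro a
    have e1 : (2 : ℤ) ^ (k + 1) = 2 * (H : ℤ) := by
      rw [hH]; push_cast; ring
    have e2 : (2 : ℤ) ^ (k + 1 - 1) = (H : ℤ) := by
      rw [hH]; push_cast; simp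
    rw [e1, e2]
    unfold a8bc
    ring_nf
  have h' : ∀ x : Fin 4 × Fin 80, ∃ p n Γ F d,
      A8bSeg (fun v => ψ (rot^[(x.1 : ℕ)] (v + a8bc H x.2))) y (2 * H) T p n Γ F d := by
    intro x
    have h1 := (h x.1 x.1.2 x.2 x.2.2).a8b
    rw [hc, hpow] at h1
    exact h1
  choose p n Γ F d hp using h'
  -- sides
  set P : ℕ → ℕ → ℕ → V := fun i a t =>
    if hh : i < 4 ∧ a < 80 then p (⟨i, hh.1⟩, ⟨a, hh.2⟩) t else 0 with hP
  have hPe : ∀ i a, ∀ hi : i < 4, ∀ ha : a < 80, P i a = p (⟨i, hi⟩, ⟨a, ha⟩) := by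
    intro i a hi ha
    funext t
    simp only [hP]
    rw [dif_pos ⟨hi, ha⟩]
  have hside : ∀ i < 4, A8bSide (2 * H) (a8bS H (P i)) ∧
      a8bS H (P i) 0 = (-(40 * ((2 * H : ℕ) : ℤ)), 0) ∧
      a8bS H (P i) (80 * (2 * H)) = (0, 40 * ((2 * H : ℕ) : ℤ)) := by
    intro i hi
    refine a8b_side hH0 ?_ ?_ ?_ ?_
    · intro a ha
      rcases Nat.lt_or_ge a 80 with ha' | ha'
      · rw [hPe i a hi ha']
        exact (hp _).p0
      · simp only [hP]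
        rw [dif_neg (by omega)]
    · intro a ha
      rw [hPe i a hi ha, (hp _).ps]
      push_cast
      rw [show (2 * (H : ℤ)) / 2 = (H : ℤ) by omega]
    · intro a ha
      rw [hPe i a hi ha]
      exact (hp _).st
    · intro a ha
      rw [hPe i a hi ha]
      exact (hp _).co
  -- the maps
  set τ : Fin 4 × Fin 80 → V → V := fun x v => rot^[(x.1 : ℕ)] (v + a8bc H x.2) with hτ
  set σ : Fin 4 × Fin 80 → V → V := fun x v => a8bri^[(x.1 : ℕ)] v - a8bc H x.2 with hσ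
  have hiso : ∀ x, A8bIso (τ x) (σ x) := fun x => (a8b_rot_it x.1).comp (a8b_add_iso (a8bc H x.2))
  -- annulus
  have hann : ∀ x : Fin 4 × Fin 80, ∀ i ≤ 2 * H, ∀ v ∈ ball (p x i) (2 * H),
      τ x v ∈ ball 0 (48 * (2 * H)) ∧ τ x v ∉ ball 0 (16 * (2 * H)) := by
    intro x i hi v hv
    have h1 := a8b_geo (a := x.2) x.2.2 hi ((hp x).co i hi) hH0 hv
    simp only [hτ]
    rw [a8b_rot_ball, a8b_rot_ball]
    exact h1
  set O : Set V := {v | v ∈ Ann 0 (k + 1 + 4) ∧ ψ v ≤ y} with hO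
  have hAnn : ∀ v : V, v ∈ Ann 0 (k + 1 + 4) ↔
      v ∈ ball 0 (48 * (2 * H)) ∧ v ∉ ball 0 (16 * (2 * H)) := by
    intro v
    unfold Ann
    rw [Set.mem_ofPred_eq, hpow16]
    rw [show 3 * (16 * (2 * H)) = 48 * (2 * H) by ring]
  -- the walk
  set S : ℕ → ℕ → V := fun i => a8bS H (P i) with hS
  have hwalk := a8b_walk (s := 2 * H) (S := S) (by omega) (fun i hi => (hside i hi).1)
    (fun i hi => (hside i hi).2.1) (fun i hi => (hside i hi).2.2)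
  have hWp : ∀ j < 4 * (80 * (2 * H)), ∃ (x : Fin 4 × Fin 80) (i : ℕ), i < 2 * H ∧
      a8bW (2 * H) S j = τ x (p x i) := by
    intro j hj
    have hq : j / (80 * (2 * H)) < 4 := Nat.div_lt_of_lt_mul (by rwa [mul_comm])
    have ht : j % (80 * (2 * H)) < 80 * (2 * H) := Nat.mod_lt _ (by omega)
    have ha : j % (80 * (2 * H)) / (2 * H) < 80 := by
      refine Nat.div_lt_of_lt_mul ?_
      calc j % (80 * (2 * H)) < 80 * (2 * H) := ht
        _ = 2 * H * 80 := by ring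
    refine ⟨(⟨a8bI (j / (80 * (2 * H))), a8bI_lt _⟩, ⟨j % (80 * (2 * H)) / (2 * H), ha⟩),
      j % (80 * (2 * H)) % (2 * H), Nat.mod_lt _ (by omega), ?_⟩
    simp only [hτ, a8bW, hS, a8bS]
    rw [hPe _ _ (a8bI_lt _) ha]
  -- bypass
  obtain ⟨Λ, b1, b2, b3⟩ := a8b_bypass (ι := Σ x : Fin 4 × Fin 80, Fin (n x)) O
    (a8bW (2 * H) S) (4 * (80 * (2 * H)) - 1)
    (fun i hi => Or.inr (hwalk i (by omega)))
    (fun z => (Γ z.1 z.2).image (τ z.1)) (fun z => (F z.1 z.2).image (τ z.1))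
    (fun z => d z.1 z.2)
    (fun z => ((hp z.1).ci z.2 z.2.2).1.a8b_map (hiso z.1))
    (fun z => Finset.image_subset_image ((hp z.1).ci z.2 z.2.2).2.1)
    (fun z => a8b_bdry_map (hiso z.1) ((hp z.1).ci z.2 z.2.2).2.2.1)
    (fun z x hx x' hx' => by
      rw [Finset.mem_image] at hx hx'
      obtain ⟨u, hu, rfl⟩ := hx
      obtain ⟨u', hu', rfl⟩ := hx'
      refine (((hp z.1).ci z.2 z.2.2).2.2.2.2.2 u hu u' hu').a8b_map (hiso z.1) ?_
      rintro v ⟨hv1, i, hi, hv2⟩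
      exact ⟨(hAnn _).2 (hann z.1 i hi v hv2), hv1⟩)
    (fun j hj => by
      obtain ⟨x, i, hi, he⟩ := hWp j (by omega)
      rw [he]
      rcases (hp x).cv i hi with h1 | ⟨l, hl, h1⟩
      · left
        refine ⟨(hAnn _).2 (hann x i hi.le _ (mem_ball_self _ _)), h1⟩
      · right
        exact ⟨⟨x, ⟨l, hl⟩⟩, Finset.mem_image_of_mem _ h1⟩)
  have hΛ : ∀ x ∈ Λ, x ∈ ball 0 (48 * (2 * H)) ∧ x ∉ ball 0 (16 * (2 * H)) :=
    fun x hx => (hAnn x).1 (b1 x hx).1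
  obtain ⟨G, g1, g2, g3, g4⟩ := a8b_top (s := 2 * H) (S := S) (by omega)
    (fun i hi => (hside i hi).1) (fun i hi => (hside i hi).2.1) (fun i hi => (hside i hi).2.2)
    (fun z : (Σ x : Fin 4 × Fin 80, Fin (n x)) => (Γ z.1 z.2).image (τ z.1))
    (fun z => (F z.1 z.2).image (τ z.1))
    (fun z x hx => by
      rw [Finset.mem_image] at hx
      obtain ⟨u, hu, rfl⟩ := hx
      obtain ⟨i, hi, hv⟩ := ((hp z.1).ci z.2 z.2.2).2.2.2.1 u hu
      exact (hann z.1 i hi u hv).2)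
    (fun z => a8b_bdry_map (hiso z.1) ((hp z.1).ci z.2 z.2.2).2.2.1) Λ hΛ
    (fun j hj => b3 j (by omega))
  refine ⟨Λ, G, ?_, ?_, g3, ?_, g4, fun x hx => (b1 x hx).2, fun x hx x' hx' => ?_⟩
  · rw [hpow16]; exact g1
  · rw [hpow16, show 3 * (16 * (2 * H)) = 48 * (2 * H) by ring]; exact g2
  · rw [Finset.disjoint_left, hpow16]
    exact fun x hx => (hΛ x hx).2
  · refine (b2 x hx x' hx').mono_len ?_
    have hsum : (∑ z : (Σ x : Fin 4 × Fin 80, Fin (n x)), (2 * (d z.1 z.2 : ℝ) + 2)) ≤ 320 * T := by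
      rw [Fintype.sum_sigma]
      have e1 : ∀ x : Fin 4 × Fin 80, ∑ l : Fin (n x), (2 * (d x l : ℝ) + 2) ≤ T := by
        intro x
        have := (hp x).sm
        rwa [Finset.sum_range] at this
      calc (∑ x : Fin 4 × Fin 80, ∑ l : Fin (n x), (2 * (d x l : ℝ) + 2))
          ≤ ∑ x : Fin 4 × Fin 80, T := Finset.sum_le_sum fun x _ => e1 x
        _ = 320 * T := by
            rw [Finset.sum_const, Finset.card_univ, Fintype.card_prod, Fintype.card_fin,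
              Fintype.card_fin, nsmul_eq_mul]
            norm_num
    have hn : 2 * (4 * (80 * (2 * H)) - 1) + 2 = 640 * (2 * H) := by omega
    rw [hn]
    have hCr : (640 * (2 * H : ℕ) : ℝ) + 2 * ∑ z : (Σ x : Fin 4 × Fin 80, Fin (n x)),
        (2 * (d z.1 z.2 : ℝ) + 2) ≤ C * (2 : ℝ) ^ (k + 1 + 4) := by
      have e3 : ((2 * H : ℕ) : ℝ) = 2 ^ (k + 1) := by
        rw [hH]; push_cast; ring
      rw [e3]
      linarith
    have : ((640 * (2 * H) + 2 * ∑ z : (Σ x : Fin 4 × Fin 80, Fin (n x)),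
        (2 * d z.1 z.2 + 2) : ℕ) : ℝ) ≤ ((C * 2 ^ (k + 1 + 4) : ℕ) : ℝ) := by
      push_cast at hCr ⊢
      linarith
    exact_mod_cast this

end Pool.H92.GFL
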