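import Pool.Agent.helper92.GFL.G0

namespace Pool.H92.GFL

open Function Finset MeasureTheory ProbabilityTheory Pool.H92.GFF
open scoped Classical ENNReal

/-! ### paths -/

lemma c1_step_iff {u v : V} : (v = u ∨ v ∈ nb u) ↔
    (v.1 = u.1 ∧ v.2 = u.2) ∨ (v.1 = u.1 + 1 ∧ v.2 = u.2) ∨ (v.1 = u.1 - 1 ∧ v.2 = u.2) ∨
      (v.1 = u.1 ∧ v.2 = u.2 + 1) ∨ (v.1 = u.1 ∧ v.2 = u.2 - 1) := by
  obtain ⟨a, b⟩ := u
  obtain ⟨c, d⟩ := v
  simp only [nb, Finset.mem_insert, Finset.mem_singleton, Prod.mk.injEq]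

lemma Conn.c1_mono {O O' : Set V} (h : O ⊆ O') {n : ℕ} {x y : V} (hc : Conn O n x y) :
    Conn O' n x y := by
  obtain ⟨p, h0, hn, hp, hs⟩ := hc
  exact ⟨p, h0, hn, fun i hi => h (hp i hi), hs⟩

lemma Conn.c1_pad {O : Set V} {n m : ℕ} (h : n ≤ m) {x y : V} (hc : Conn O n x y) :
    Conn O m x y := by
  obtain ⟨p, h0, hn, hp, hs⟩ := hc
  refine ⟨fun i => p (min i n), by simpa using h0, by simp [min_eq_right h, hn],
    fun i _ => hp _ (min_le_right _ _), fun i hi => ?_⟩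
  change p (min (i + 1) n) = p (min i n) ∨ p (min (i + 1) n) ∈ nb (p (min i n))
  rcases Nat.lt_or_ge i n with h1 | h1
  · rw [min_eq_left h1.le, min_eq_left (by omega : i + 1 ≤ n)]
    exact hs i h1
  · left
    rw [min_eq_right h1, min_eq_right (by omega : n ≤ i + 1)]

lemma Conn.c1_symm {O : Set V} {n : ℕ} {x y : V} (hc : Conn O n x y) : Conn O n y x := by
  obtain ⟨p, h0, hn, hp, hs⟩ := hc
  refine ⟨fun i => p (n - i), by simpa using hn, by simpa using h0,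
    fun i _ => hp _ (Nat.sub_le _ _), fun i hi => ?_⟩
  have h1 := hs (n - (i + 1)) (by omega)
  have h2 : n - (i + 1) + 1 = n - i := by omega
  rw [h2] at h1
  rcases h1 with h1 | h1
  · left
    exact h1.symm
  · right
    exact nb_symm.1 h1

lemma Conn.c1_trans {O : Set V} {n m : ℕ} {x y z : V} (hc : Conn O n x y) (hc' : Conn O m y z) :
    Conn O (n + m) x z := by
  obtain ⟨p, h0, hn, hp, hs⟩ := hc
  obtain ⟨q, g0, gn, gp, gs⟩ := hc'
  refine ⟨fun i => if i ≤ n then p i else q (i - n), by simpa using h0, ?_, ?_, ?_⟩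
  · by_cases hm : m = 0
    · subst hm
      simp only [add_zero, le_refl, if_true]
      rw [hn, ← g0, gn]
    · simp only
      rw [if_neg (by omega)]
      rw [show n + m - n = m by omega]
      exact gn
  · intro i hi
    by_cases h : i ≤ n
    · simp only [if_pos h]
      exact hp i h
    · simp only [if_neg h]
      exact gp _ (by omega)
  · intro i hi
    by_cases h : i + 1 ≤ n
    · simp only [if_pos h, if_pos (by omega : i ≤ n)]
      exact hs i h
    · by_cases h' : i ≤ n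
      · have hin : i = n := by omega
        simp only [if_neg h, if_pos h']
        have h2 := gs 0 (by omega)
        rw [g0, ← hn] at h2
        rw [hin]
        rw [show n + 1 - n = 0 + 1 by omega]
        exact h2
      · simp only [if_neg h, if_neg h']
        rw [show i + 1 - n = (i - n) + 1 by omega]
        exact gs _ (by omega)

lemma c1_conn_sub {O : Set V} {n : ℕ} {p : ℕ → V} (hp : ∀ i ≤ n, p i ∈ O)
    (hs : ∀ i < n, p (i + 1) = p i ∨ p (i + 1) ∈ nb (p i)) {i j : ℕ} (hi : i ≤ n) (hj : j ≤ n) :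
    Conn O n (p i) (p j) := by
  have key : ∀ i j, i ≤ j → j ≤ n → Conn O n (p i) (p j) := by
    intro i j hij hj
    refine Conn.c1_pad (by omega : j - i ≤ n) ⟨fun k => p (i + k), by simp, by
      simp only
      rw [show i + (j - i) = j by omega], fun k hk => hp _ (by omega), fun k hk => ?_⟩
    simp only
    rw [show i + (k + 1) = i + k + 1 by omega]
    exact hs _ (by omega)
  rcases le_total i j with h | h
  · exact key i j h hj
  · exact (key j i h hi).c1_symm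

/-! ### the crossing lemma -/

/-- signed crossings, at a step from `u` to `v`, of the half line to the right of `z` between the
rows `z.2` and `z.2 + 1` -/
def c1_sc (z u v : V) : ℤ :=
  if z.1 < u.1 ∧ u.2 = z.2 ∧ v.2 = z.2 + 1 then 1
  else if z.1 < u.1 ∧ u.2 = z.2 + 1 ∧ v.2 = z.2 then -1 else 0

def c1_scs (p : ℕ → V) (n : ℕ) (z : V) : ℤ := ∑ i ∈ Finset.range n, c1_sc z (p i) (p (i + 1))

lemma c1_scs_right {p : ℕ → V} {n : ℕ} (hs : ∀ i < n, p (i + 1) = p i ∨ p (i + 1) ∈ nb (p i))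
    {z z' : V} (h1 : z'.1 = z.1 + 1) (h2 : z'.2 = z.2) (hz' : ∀ i ≤ n, p i ≠ z') :
    c1_scs p n z = c1_scs p n z' := by
  refine Finset.sum_congr rfl fun i hi => ?_
  have hi' := Finset.mem_range.1 hi
  have h3 := c1_step_iff.1 (hs i hi')
  have h4 : ¬ ((p i).1 = z'.1 ∧ (p i).2 = z'.2) := fun h => hz' i hi'.le (Prod.ext h.1 h.2)
  have h5 : ¬ ((p (i + 1)).1 = z'.1 ∧ (p (i + 1)).2 = z'.2) := fun h =>
    hz' (i + 1) hi' (Prod.ext h.1 h.2)
  unfold c1_sc
  split_ifs <;> omega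

lemma c1_scs_up {p : ℕ → V} {n : ℕ} (hs : ∀ i < n, p (i + 1) = p i ∨ p (i + 1) ∈ nb (p i))
    {z z' : V} (h1 : z'.1 = z.1) (h2 : z'.2 = z.2 + 1) (hz' : ∀ i ≤ n, p i ≠ z')
    (h0 : (p 0).2 < z'.2) (hn : z'.2 < (p n).2) :
    c1_scs p n z = c1_scs p n z' := by
  set h : V → ℤ := fun v => if v.2 = z'.2 ∧ z.1 < v.1 then 1 else 0 with hh
  have key : ∀ i < n, c1_sc z (p i) (p (i + 1)) - c1_sc z' (p i) (p (i + 1)) =
      h (p (i + 1)) - h (p i) := by
    intro i hi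
    have h3 := c1_step_iff.1 (hs i hi)
    have h4 : ¬ ((p i).1 = z'.1 ∧ (p i).2 = z'.2) := fun h => hz' i hi.le (Prod.ext h.1 h.2)
    have h5 : ¬ ((p (i + 1)).1 = z'.1 ∧ (p (i + 1)).2 = z'.2) := fun h =>
      hz' (i + 1) hi (Prod.ext h.1 h.2)
    simp only [hh, c1_sc]
    split_ifs <;> omega
  have h6 : c1_scs p n z - c1_scs p n z' = h (p n) - h (p 0) := by
    unfold c1_scs
    rw [← Finset.sum_sub_distrib, ← Finset.sum_range_sub (fun i => h (p i)) n]
    exact Finset.sum_congr rfl fun i hi => key i (Finset.mem_range.1 hi)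
  have h7 : h (p n) = 0 := by
    simp only [hh]
    rw [if_neg (by omega)]
  have h8 : h (p 0) = 0 := by
    simp only [hh]
    rw [if_neg (by omega)]
  omega

lemma c1_scs_left {p : ℕ → V} {n : ℕ} (hs : ∀ i < n, p (i + 1) = p i ∨ p (i + 1) ∈ nb (p i))
    {z : V} (hz : ∀ i ≤ n, z.1 < (p i).1) (h0 : (p 0).2 ≤ z.2) (hn : z.2 < (p n).2) :
    c1_scs p n z = 1 := by
  set h : V → ℤ := fun v => if z.2 < v.2 then 1 else 0 with hh
  have key : ∀ i < n, c1_sc z (p i) (p (i + 1)) = h (p (i + 1)) - h (p i) := by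
    intro i hi
    have h3 := c1_step_iff.1 (hs i hi)
    have h4 := hz i hi.le
    simp only [hh, c1_sc]
    split_ifs <;> omega
  have h6 : c1_scs p n z = h (p n) - h (p 0) := by
    unfold c1_scs
    rw [← Finset.sum_range_sub (fun i => h (p i)) n]
    exact Finset.sum_congr rfl fun i hi => key i (Finset.mem_range.1 hi)
  rw [h6]
  simp only [hh]
  rw [if_pos hn, if_neg (by omega)]
  norm_num

lemma c1_scs_far {p : ℕ → V} {n : ℕ} {z : V} (hz : ∀ i ≤ n, (p i).1 ≤ z.1) : c1_scs p n z = 0 := by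
  refine Finset.sum_eq_zero fun i hi => ?_
  have h1 := hz i (Finset.mem_range.1 hi).le
  unfold c1_sc
  split_ifs <;> omega

lemma c1_cross_strict {a b c d : ℤ} {p q : ℕ → V} {n m : ℕ}
    (hs : ∀ i < n, p (i + 1) = p i ∨ p (i + 1) ∈ nb (p i))
    (hs' : ∀ i < m, q (i + 1) = q i ∨ q (i + 1) ∈ nb (q i))
    (hp : ∀ i ≤ n, a ≤ (p i).1 ∧ (p i).1 ≤ b) (hp0 : (p 0).2 < c) (hpn : d < (p n).2)
    (hq : ∀ i ≤ m, c ≤ (q i).2 ∧ (q i).2 ≤ d) (hq0 : (q 0).1 < a) (hqm : b < (q m).1) :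
    ∃ i ≤ n, ∃ j ≤ m, p i = q j := by
  by_contra hcon
  push Not at hcon
  have key : ∀ j ≤ m, c1_scs p n (q j) = 1 := by
    intro j
    induction j with
    | zero =>
      intro _
      have h1 := hq 0 (Nat.zero_le _)
      exact c1_scs_left hs (fun i hi => lt_of_lt_of_le hq0 (hp i hi).1) (by omega) (by omega)
    | succ j ih =>
      intro hj
      rw [← ih (by omega)]
      have h1 := hq j (by omega)
      have h2 := hq (j + 1) hj
      have h3 : ∀ i ≤ n, p i ≠ q j := fun i hi => hcon i hi j (by omega)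
      have h4 : ∀ i ≤ n, p i ≠ q (j + 1) := fun i hi => hcon i hi (j + 1) hj
      rcases c1_step_iff.1 (hs' j (by omega)) with h | h | h | h | h
      · have : q (j + 1) = q j := Prod.ext h.1 h.2
        rw [this]
      · exact (c1_scs_right hs h.1 h.2 h4).symm
      · exact c1_scs_right hs (by omega) h.2.symm h3
      · exact (c1_scs_up hs h.1 h.2 h4 (by omega) (by omega)).symm
      · exact c1_scs_up hs h.1.symm (by omega) h3 (by omega) (by omega)
  have h1 := key m le_rfl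
  rw [c1_scs_far (fun i hi => ((hp i hi).2.trans hqm.le))] at h1
  exact absurd h1 (by norm_num)

/-- a walk extended by one step at each end -/
def c1_ext (p : ℕ → V) (n : ℕ) (u v : V) : ℕ → V :=
  fun i => if i = 0 then u else if i ≤ n + 1 then p (i - 1) else v

lemma c1_ext_step {p : ℕ → V} {n : ℕ} {u v : V}
    (hs : ∀ i < n, p (i + 1) = p i ∨ p (i + 1) ∈ nb (p i)) (hu : p 0 ∈ nb u) (hv : v ∈ nb (p n)) :
    ∀ i < n + 2, c1_ext p n u v (i + 1) = c1_ext p n u v i ∨ c1_ext p n u v (i + 1) ∈ nb (c1_ext p n u v i) := by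
  intro i hi
  unfold c1_ext
  rw [if_neg (by omega : ¬ i + 1 = 0)]
  rcases Nat.eq_zero_or_pos i with h | h
  · subst h
    right
    simpa using hu
  · rw [if_neg (by omega : ¬ i = 0)]
    by_cases h' : i + 1 ≤ n + 1
    · rw [if_pos h', if_pos (by omega)]
      have := hs (i - 1) (by omega)
      rw [show i - 1 + 1 = i by omega] at this
      simpa using this
    · right
      rw [if_neg h', if_pos (by omega)]
      rw [show i - 1 = n by omega]
      exact hv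

lemma c1_cross {a b c d : ℤ} {p q : ℕ → V} {n m : ℕ}
    (hs : ∀ i < n, p (i + 1) = p i ∨ p (i + 1) ∈ nb (p i))
    (hs' : ∀ i < m, q (i + 1) = q i ∨ q (i + 1) ∈ nb (q i))
    (hp : ∀ i ≤ n, a ≤ (p i).1 ∧ (p i).1 ≤ b) (hp0 : (p 0).2 ≤ c) (hpn : d ≤ (p n).2)
    (hq : ∀ i ≤ m, c ≤ (q i).2 ∧ (q i).2 ≤ d) (hq0 : (q 0).1 ≤ a) (hqm : b ≤ (q m).1) :
    ∃ i ≤ n, ∃ j ≤ m, p i = q j := by
  set P := c1_ext p n ((p 0).1, (p 0).2 - 1) ((p n).1, (p n).2 + 1) with hP
  set Q := c1_ext q m ((q 0).1 - 1, (q 0).2) ((q m).1 + 1, (q m).2) with hQ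
  have hP' : ∀ i ≤ n + 2, (P i = ((p 0).1, (p 0).2 - 1)) ∨ (P i = ((p n).1, (p n).2 + 1)) ∨
      ∃ k ≤ n, P i = p k := by
    intro i hi
    rw [hP]
    unfold c1_ext
    split_ifs with h1 h2
    · exact Or.inl rfl
    · exact Or.inr (Or.inr ⟨i - 1, by omega, rfl⟩)
    · exact Or.inr (Or.inl rfl)
  have hQ' : ∀ i ≤ m + 2, (Q i = ((q 0).1 - 1, (q 0).2)) ∨ (Q i = ((q m).1 + 1, (q m).2)) ∨
      ∃ k ≤ m, Q i = q k := by
    intro i hi
    rw [hQ]
    unfold c1_ext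
    split_ifs with h1 h2
    · exact Or.inl rfl
    · exact Or.inr (Or.inr ⟨i - 1, by omega, rfl⟩)
    · exact Or.inr (Or.inl rfl)
  have hp00 := hp 0 (Nat.zero_le _)
  have hpnn := hp n le_rfl
  have hq00 := hq 0 (Nat.zero_le _)
  have hqmm := hq m le_rfl
  have g1 : ∀ i ≤ n + 2, a ≤ (P i).1 ∧ (P i).1 ≤ b := by
    intro i hi
    rcases hP' i hi with h | h | ⟨k, hk, h⟩
    · rw [h]
      exact hp00
    · rw [h]
      exact hpnn
    · rw [h]
      exact hp k hk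
  have g2 : (P 0).2 < c := by
    have : P 0 = ((p 0).1, (p 0).2 - 1) := by rw [hP]; simp [c1_ext]
    rw [this]
    simp only
    omega
  have g3 : d < (P (n + 2)).2 := by
    have : P (n + 2) = ((p n).1, (p n).2 + 1) := by rw [hP]; simp [c1_ext]
    rw [this]
    simp only
    omega
  have g4 : ∀ i ≤ m + 2, c ≤ (Q i).2 ∧ (Q i).2 ≤ d := by
    intro i hi
    rcases hQ' i hi with h | h | ⟨k, hk, h⟩
    · rw [h]
      exact hq00
    · rw [h]
      exact hqmm
    · rw [h]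
      exact hq k hk
  have g5 : (Q 0).1 < a := by
    have : Q 0 = ((q 0).1 - 1, (q 0).2) := by rw [hQ]; simp [c1_ext]
    rw [this]
    simp only
    omega
  have g6 : b < (Q (m + 2)).1 := by
    have : Q (m + 2) = ((q m).1 + 1, (q m).2) := by rw [hQ]; simp [c1_ext]
    rw [this]
    simp only
    omega
  obtain ⟨i, hi, j, hj, hij⟩ := c1_cross_strict
    (c1_ext_step hs (by simp [nb]) (by simp [nb]))
    (c1_ext_step hs' (by simp [nb]) (by simp [nb])) g1 g2 g3 g4 g5 g6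
  rw [← hP, ← hQ] at hij
  rcases hP' i hi with h | h | ⟨k, hk, h⟩
  · exfalso
    rw [h] at hij
    rcases hQ' j hj with g | g | ⟨l, hl, g⟩
    · rw [g, Prod.mk.injEq] at hij
      omega
    · rw [g, Prod.mk.injEq] at hij
      omega
    · rw [g] at hij
      have h1 := hq l hl
      rw [← hij] at h1
      simp only at h1
      omega
  · exfalso
    rw [h] at hij
    rcases hQ' j hj with g | g | ⟨l, hl, g⟩
    · rw [g, Prod.mk.injEq] at hij
      omega
    · rw [g, Prod.mk.injEq] at hij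
      omega
    · rw [g] at hij
      have h1 := hq l hl
      rw [← hij] at h1
      simp only at h1
      omega
  · rw [h] at hij
    rcases hQ' j hj with g | g | ⟨l, hl, g⟩
    · exfalso
      rw [g] at hij
      have h1 := hp k hk
      rw [hij] at h1
      simp only at h1
      omega
    · exfalso
      rw [g] at hij
      have h1 := hp k hk
      rw [hij] at h1
      simp only at h1
      omega
    · rw [g] at hij
      exact ⟨k, hk, l, hl, hij⟩

/-! ### the frame -/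

lemma c1_first_exit {S : Set V} {q : ℕ → V} {m : ℕ} (h0 : q 0 ∈ S) (hm : q m ∉ S) :
    ∃ t < m, (∀ i ≤ t, q i ∈ S) ∧ q (t + 1) ∉ S := by
  have hex : ∃ k, q k ∉ S := ⟨m, hm⟩
  have h1 := Nat.find_spec hex
  have h2 : Nat.find hex ≤ m := Nat.find_min' hex hm
  have h3 : Nat.find hex ≠ 0 := by
    intro h
    rw [h] at h1
    exact h1 h0
  refine ⟨Nat.find hex - 1, by omega, fun i hi => ?_, ?_⟩
  · by_contra h
    have := Nat.find_min' hex h
    omega
  · rw [show Nat.find hex - 1 + 1 = Nat.find hex by omega]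
    exact h1

/-- four crossings of the sides of a square frame contain a circuit -/
theorem frame (w R : ℕ) (hw : 1 ≤ w) (O : Set V)
    (hT : ∃ a b : V, a.1 ≤ -(9 * w : ℤ) ∧ (9 * w : ℤ) ≤ b.1 ∧
      Conn {v | v ∈ O ∧ |v.1| ≤ 12 * w ∧ |v.2 - 8 * w| ≤ w} R a b)
    (hB : ∃ a b : V, a.1 ≤ -(9 * w : ℤ) ∧ (9 * w : ℤ) ≤ b.1 ∧
      Conn {v | v ∈ O ∧ |v.1| ≤ 12 * w ∧ |v.2 + 8 * w| ≤ w} R a b)
    (hR : ∃ a b : V, a.2 ≤ -(9 * w : ℤ) ∧ (9 * w : ℤ) ≤ b.2 ∧
      Conn {v | v ∈ O ∧ |v.2| ≤ 12 * w ∧ |v.1 - 8 * w| ≤ w} R a b)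
    (hL : ∃ a b : V, a.2 ≤ -(9 * w : ℤ) ∧ (9 * w : ℤ) ≤ b.2 ∧
      Conn {v | v ∈ O ∧ |v.2| ≤ 12 * w ∧ |v.1 + 8 * w| ≤ w} R a b) :
    ∃ Γ F : Finset V, ball 0 (4 * w) ⊆ F ∧ F ⊆ ball 0 (12 * w) ∧ Γ ⊆ F ∧
      Disjoint Γ (ball 0 (4 * w)) ∧ (∀ x ∈ F, ∀ v ∈ nb x, v ∉ F → x ∈ Γ) ∧ (∀ x ∈ Γ, x ∈ O) ∧
      ∀ x ∈ Γ, ∀ x' ∈ Γ,
        Conn {v | v ∈ O ∧ v ∈ ball 0 (12 * w) ∧ v ∉ ball 0 (4 * w)} (4 * R) x x' := by
  obtain ⟨_, _, hTa, hTb, pT, rfl, rfl, hTp, hTs⟩ := hT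
  obtain ⟨_, _, hBa, hBb, pB, rfl, rfl, hBp, hBs⟩ := hB
  obtain ⟨_, _, hRa, hRb, pR, rfl, rfl, hRp, hRs⟩ := hR
  obtain ⟨_, _, hLa, hLb, pL, rfl, rfl, hLp, hLs⟩ := hL
  -- the coordinates of the walks
  have cT : ∀ i ≤ R, pT i ∈ O ∧ (-(12 * w : ℤ) ≤ (pT i).1 ∧ (pT i).1 ≤ 12 * w) ∧
      (7 * w : ℤ) ≤ (pT i).2 ∧ (pT i).2 ≤ 9 * w := by
    intro i hi
    obtain ⟨h1, h2, h3⟩ := hTp i hi
    rw [abs_le] at h2 h3
    exact ⟨h1, h2, by omega, by omega⟩
  have cB : ∀ i ≤ R, pB i ∈ O ∧ (-(12 * w : ℤ) ≤ (pB i).1 ∧ (pB i).1 ≤ 12 * w) ∧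
      -(9 * w : ℤ) ≤ (pB i).2 ∧ (pB i).2 ≤ -(7 * w) := by
    intro i hi
    obtain ⟨h1, h2, h3⟩ := hBp i hi
    rw [abs_le] at h2 h3
    exact ⟨h1, h2, by omega, by omega⟩
  have cR : ∀ i ≤ R, pR i ∈ O ∧ (-(12 * w : ℤ) ≤ (pR i).2 ∧ (pR i).2 ≤ 12 * w) ∧
      (7 * w : ℤ) ≤ (pR i).1 ∧ (pR i).1 ≤ 9 * w := by
    intro i hi
    obtain ⟨h1, h2, h3⟩ := hRp i hi
    rw [abs_le] at h2 h3
    exact ⟨h1, h2, by omega, by omega⟩
  have cL : ∀ i ≤ R, pL i ∈ O ∧ (-(12 * w : ℤ) ≤ (pL i).2 ∧ (pL i).2 ≤ 12 * w) ∧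
      -(9 * w : ℤ) ≤ (pL i).1 ∧ (pL i).1 ≤ -(7 * w) := by
    intro i hi
    obtain ⟨h1, h2, h3⟩ := hLp i hi
    rw [abs_le] at h2 h3
    exact ⟨h1, h2, by omega, by omega⟩
  set S : Set V := {v | v ∈ O ∧ v ∈ ball 0 (12 * w) ∧ v ∉ ball 0 (4 * w)} with hS
  have memS : ∀ v : V, v ∈ O → (-(12 * w : ℤ) ≤ v.1 ∧ v.1 ≤ 12 * w) →
      (-(12 * w : ℤ) ≤ v.2 ∧ v.2 ≤ 12 * w) →
      ((7 * w : ℤ) ≤ v.1 ∨ v.1 ≤ -(7 * w) ∨ (7 * w : ℤ) ≤ v.2 ∨ v.2 ≤ -(7 * w)) → v ∈ S := by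
    intro v h1 h2 h3 h4
    refine ⟨h1, ?_, ?_⟩
    · rw [mem_ball]
      simp only [Prod.fst_zero, Prod.snd_zero, Nat.cast_mul, Nat.cast_ofNat]
      omega
    · rw [mem_ball]
      simp only [Prod.fst_zero, Prod.snd_zero, Nat.cast_mul, Nat.cast_ofNat]
      omega
  have sT : ∀ i ≤ R, pT i ∈ S := fun i hi => by
    obtain ⟨h1, h2, h3⟩ := cT i hi
    exact memS _ h1 h2 (by omega) (by omega)
  have sB : ∀ i ≤ R, pB i ∈ S := fun i hi => by
    obtain ⟨h1, h2, h3⟩ := cB i hi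
    exact memS _ h1 h2 (by omega) (by omega)
  have sR : ∀ i ≤ R, pR i ∈ S := fun i hi => by
    obtain ⟨h1, h2, h3⟩ := cR i hi
    exact memS _ h1 (by omega) h2 (by omega)
  have sL : ∀ i ≤ R, pL i ∈ S := fun i hi => by
    obtain ⟨h1, h2, h3⟩ := cL i hi
    exact memS _ h1 (by omega) h2 (by omega)
  -- the four corners
  obtain ⟨rt, hrt, tr, htr, eRT⟩ := c1_cross (a := 7 * w) (b := 9 * w) (c := 7 * w) (d := 9 * w)
    hRs hTs (fun i hi => (cR i hi).2.2) (by omega) (by omega) (fun i hi => (cT i hi).2.2)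
    (by omega) (by omega)
  obtain ⟨rb, hrb, br, hbr, eRB⟩ := c1_cross (a := 7 * w) (b := 9 * w) (c := -(9 * w))
    (d := -(7 * w)) hRs hBs (fun i hi => (cR i hi).2.2) (by omega) (by omega)
    (fun i hi => (cB i hi).2.2) (by omega) (by omega)
  obtain ⟨lt, hlt, tl, htl, eLT⟩ := c1_cross (a := -(9 * w)) (b := -(7 * w)) (c := 7 * w)
    (d := 9 * w) hLs hTs (fun i hi => (cL i hi).2.2) (by omega) (by omega)
    (fun i hi => (cT i hi).2.2) (by omega) (by omega)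
  obtain ⟨lb, hlb, bl, hbl, eLB⟩ := c1_cross (a := -(9 * w)) (b := -(7 * w)) (c := -(9 * w))
    (d := -(7 * w)) hLs hBs (fun i hi => (cL i hi).2.2) (by omega) (by omega)
    (fun i hi => (cB i hi).2.2) (by omega) (by omega)
  set Γ : Finset V := (Finset.range (R + 1)).image pT ∪ (Finset.range (R + 1)).image pB ∪
    (Finset.range (R + 1)).image pR ∪ (Finset.range (R + 1)).image pL with hΓ
  have memΓ : ∀ v, v ∈ Γ ↔ (∃ i ≤ R, pT i = v) ∨ (∃ i ≤ R, pB i = v) ∨ (∃ i ≤ R, pR i = v) ∨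
      (∃ i ≤ R, pL i = v) := by
    intro v
    rw [hΓ]
    simp only [Finset.mem_union, Finset.mem_image, Finset.mem_range, Nat.lt_succ_iff, or_assoc]
  have ΓS : ∀ v ∈ Γ, v ∈ S := by
    intro v hv
    rcases (memΓ v).1 hv with ⟨i, hi, rfl⟩ | ⟨i, hi, rfl⟩ | ⟨i, hi, rfl⟩ | ⟨i, hi, rfl⟩
    · exact sT i hi
    · exact sB i hi
    · exact sR i hi
    · exact sL i hi
  set Out : Set V := {v | ∃ (n : ℕ) (b : V), Conn {v | v ∉ Γ} n v b ∧ b ∉ ball 0 (12 * w)} with hOut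
  have hout : ∀ v ∈ ball 0 (4 * w), v ∉ Out := by
    rintro v hv ⟨n, b, ⟨q, q0, qn, hq, hqs⟩, hb⟩
    have hv' := mem_ball.1 hv
    simp only [Prod.fst_zero, Prod.snd_zero, Nat.cast_mul, Nat.cast_ofNat] at hv'
    set S2 : Set V := {v | (-(9 * w : ℤ) ≤ v.1 ∧ v.1 ≤ 9 * w) ∧ (-(9 * w : ℤ) ≤ v.2 ∧ v.2 ≤ 9 * w)}
      with hS2
    obtain ⟨t, ht, hin, hex⟩ := c1_first_exit (S := S2) (q := q) (m := n) (by
      rw [q0]
      simp only [hS2, Set.mem_ofPred_eq]
      omega) (by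
      rw [qn]
      intro h
      apply hb
      rw [mem_ball]
      simp only [hS2, Set.mem_ofPred_eq] at h
      simp only [Prod.fst_zero, Prod.snd_zero, Nat.cast_mul, Nat.cast_ofNat]
      omega)
    have hst := c1_step_iff.1 (hqs t ht)
    have htt := hin t le_rfl
    simp only [hS2, Set.mem_ofPred_eq] at hex htt
    have hs1 : ∀ i < t + 1, q (i + 1) = q i ∨ q (i + 1) ∈ nb (q i) :=
      fun i hi => hqs i (by omega)
    have hs2 : ∀ i < t + 1, (fun i => q (t + 1 - i)) (i + 1) = (fun i => q (t + 1 - i)) i ∨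
        (fun i => q (t + 1 - i)) (i + 1) ∈ nb ((fun i => q (t + 1 - i)) i) := by
      intro i hi
      simp only
      have h1 := hqs (t - i) (by omega)
      rw [show t - i + 1 = t + 1 - i by omega] at h1
      rw [show t + 1 - (i + 1) = t - i by omega]
      rcases h1 with h1 | h1
      · exact Or.inl h1.symm
      · exact Or.inr (nb_symm.1 h1)
    have hall : ∀ i ≤ t + 1, i = t + 1 ∨ ((-(9 * w : ℤ) ≤ (q i).1 ∧ (q i).1 ≤ 9 * w) ∧
        (-(9 * w : ℤ) ≤ (q i).2 ∧ (q i).2 ≤ 9 * w)) := by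
      intro i hi
      rcases Nat.lt_or_ge i (t + 1) with h | h
      · exact Or.inr (hin i (by omega))
      · exact Or.inl (by omega)
    have hcase : (9 * w : ℤ) < (q (t + 1)).1 ∨ (q (t + 1)).1 < -(9 * w : ℤ) ∨
        (9 * w : ℤ) < (q (t + 1)).2 ∨ (q (t + 1)).2 < -(9 * w : ℤ) := by omega
    rcases hcase with h | h | h | h
    · -- right
      obtain ⟨i, hi, j, hj, hij⟩ := c1_cross (a := 7 * w) (b := 9 * w) (c := -(9 * w)) (d := 9 * w)
        hRs hs1 (fun i hi => (cR i hi).2.2) (by omega) (by omega) (fun i hi => by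
          rcases hall i hi with h' | h'
          · rw [h']
            omega
          · exact h'.2) (by rw [q0]; omega) (by omega)
      exact hq j (by omega) (hij ▸ (memΓ _).2 (Or.inr (Or.inr (Or.inl ⟨i, hi, rfl⟩))))
    · -- left
      obtain ⟨i, hi, j, hj, hij⟩ := c1_cross (a := -(9 * w)) (b := -(7 * w)) (c := -(9 * w))
        (d := 9 * w) (q := fun i => q (t + 1 - i)) hLs hs2 (fun i hi => (cL i hi).2.2) (by omega)
        (by omega) (fun i hi => by
          rcases hall (t + 1 - i) (by omega) with h' | h'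
          · rw [h']
            omega
          · exact h'.2) (by simp only [Nat.sub_zero]; omega) (by
            simp only [Nat.sub_self]; rw [q0]; omega)
      exact hq (t + 1 - j) (by omega) (hij ▸ (memΓ _).2 (Or.inr (Or.inr (Or.inr ⟨i, hi, rfl⟩))))
    · -- top
      obtain ⟨i, hi, j, hj, hij⟩ := c1_cross (a := -(9 * w)) (b := 9 * w) (c := 7 * w)
        (d := 9 * w) hs1 hTs (fun i hi => by
          rcases hall i hi with h' | h'
          · rw [h']
            omega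
          · exact h'.1) (by rw [q0]; omega) (by omega) (fun i hi => (cT i hi).2.2) (by omega)
          (by omega)
      exact hq i (by omega) (hij ▸ (memΓ _).2 (Or.inl ⟨j, hj, rfl⟩))
    · -- bottom
      obtain ⟨i, hi, j, hj, hij⟩ := c1_cross (a := -(9 * w)) (b := 9 * w) (c := -(9 * w))
        (d := -(7 * w)) (p := fun i => q (t + 1 - i)) hs2 hBs (fun i hi => by
          rcases hall (t + 1 - i) (by omega) with h' | h'
          · rw [h']
            omega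
          · exact h'.1) (by simp only [Nat.sub_zero]; omega) (by
            simp only [Nat.sub_self]; rw [q0]; omega) (fun i hi => (cB i hi).2.2) (by omega)
          (by omega)
      exact hq (t + 1 - i) (by omega) (hij ▸ (memΓ _).2 (Or.inr (Or.inl ⟨j, hj, rfl⟩)))
  refine ⟨Γ, (ball 0 (12 * w)).filter (fun v => v ∉ Out), ?_, Finset.filter_subset _ _, ?_, ?_, ?_,
    fun x hx => (ΓS x hx).1, ?_⟩
  · intro v hv
    rw [Finset.mem_filter]
    refine ⟨?_, hout v hv⟩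
    rw [mem_ball] at hv ⊢
    simp only [Prod.fst_zero, Prod.snd_zero, Nat.cast_mul, Nat.cast_ofNat] at hv ⊢
    omega
  · intro v hv
    rw [Finset.mem_filter]
    refine ⟨(ΓS v hv).2.1, ?_⟩
    rintro ⟨n, b, ⟨q, q0, qn, hq, hqs⟩, hb⟩
    exact hq 0 (Nat.zero_le _) (q0 ▸ hv)
  · rw [Finset.disjoint_left]
    intro v hv
    exact (ΓS v hv).2.2
  · intro x hx v hv hvF
    by_contra hxΓ
    rw [Finset.mem_filter] at hx hvF
    apply hx.2
    have hvΓ : v ∉ Γ := by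
      intro h
      apply hvF
      refine ⟨(ΓS v h).2.1, ?_⟩
      rintro ⟨n, b, ⟨q, q0, qn, hq, hqs⟩, hb⟩
      exact hq 0 (Nat.zero_le _) (q0 ▸ h)
    have hxv : Conn {v | v ∉ Γ} 1 x v := by
      refine ⟨fun i => if i = 0 then x else v, by simp, by simp, fun i _ => ?_, fun i hi => ?_⟩
      · simp only
        split_ifs
        · exact hxΓ
        · exact hvΓ
      · have : i = 0 := by omega
        subst this
        right
        simpa using hv
    by_cases hvb : v ∈ ball 0 (12 * w)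
    · have hvO : v ∈ Out := by
        by_contra h
        exact hvF ⟨hvb, h⟩
      obtain ⟨n, b, hc, hb⟩ := hvO
      exact ⟨1 + n, b, hxv.c1_trans hc, hb⟩
    · exact ⟨1, v, hxv, hvb⟩
  · -- connections
    have cTT : ∀ i ≤ R, ∀ j ≤ R, Conn S R (pT i) (pT j) := fun i hi j hj => c1_conn_sub sT hTs hi hj
    have cBB : ∀ i ≤ R, ∀ j ≤ R, Conn S R (pB i) (pB j) := fun i hi j hj => c1_conn_sub sB hBs hi hj
    have cRR : ∀ i ≤ R, ∀ j ≤ R, Conn S R (pR i) (pR j) := fun i hi j hj => c1_conn_sub sR hRs hi hj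
    have cLL : ∀ i ≤ R, ∀ j ≤ R, Conn S R (pL i) (pL j) := fun i hi j hj => c1_conn_sub sL hLs hi hj
    have key : ∀ x ∈ Γ, Conn S (2 * R) x (pR rt) := by
      intro x hx
      rcases (memΓ x).1 hx with ⟨i, hi, rfl⟩ | ⟨i, hi, rfl⟩ | ⟨i, hi, rfl⟩ | ⟨i, hi, rfl⟩
      · rw [eRT]
        exact (cTT i hi tr htr).c1_pad (by omega)
      · have h1 := cBB i hi br hbr
        rw [← eRB] at h1
        exact (h1.c1_trans (cRR rb hrb rt hrt)).c1_pad (by omega)
      · exact (cRR i hi rt hrt).c1_pad (by omega)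
      · have h1 := cLL i hi lt hlt
        rw [eLT] at h1
        rw [eRT]
        exact (h1.c1_trans (cTT tl htl tr htr)).c1_pad (by omega)
    intro x hx x' hx'
    exact ((key x hx).c1_trans (key x' hx').c1_symm).c1_pad (by omega)

end Pool.H92.GFL
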