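import Pool.Agent.helper92.GFL.Defs2
import Pool.Agent.helper92.GFL.L1
import Pool.Agent.helper92.GFL.L3
import Pool.Agent.helper92.GFL.C1

namespace Pool.H92.GFL

open Function Finset MeasureTheory ProbabilityTheory Pool.H92.GFF
open scoped Classical ENNReal

theorem PF.mono {m C C' : ℕ} {y y' q q' : ℝ} (h : PF m y C q) (hy : y ≤ y') (hC : C ≤ C')
    (hq : q ≤ q') : PF m y' C' q' := by
  intro Ω _ μ _ φ hφ
  refine (measure_mono ?_).trans ((h Ω μ φ hφ).trans (ENNReal.ofReal_le_ofReal hq))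
  intro ω hω hN
  exact hω (hN.mono (fun v _ hv => hv.trans hy) hC)

/-- horizontal segment -/
lemma pz_hor {O : Set V} {a b c : ℤ} (hab : a ≤ b) (h : ∀ t, a ≤ t → t ≤ b → (t, c) ∈ O) :
    Conn O (b - a).toNat (a, c) (b, c) := by
  refine ⟨fun i => (a + i, c), by simp, ?_, fun i hi => h _ (by omega) (by omega), fun i _ => ?_⟩
  · simp only [Prod.mk.injEq, and_true]; omega
  · right
    simp only [nb, Finset.mem_insert, Finset.mem_singleton, Prod.mk.injEq]
    left
    refine ⟨?_, trivial⟩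
    push_cast; ring

/-- vertical segment -/
lemma pz_ver {O : Set V} {a b c : ℤ} (hab : a ≤ b) (h : ∀ t, a ≤ t → t ≤ b → (c, t) ∈ O) :
    Conn O (b - a).toNat (c, a) (c, b) := by
  refine ⟨fun i => (c, a + i), by simp, ?_, fun i hi => h _ (by omega) (by omega), fun i _ => ?_⟩
  · simp only [Prod.mk.injEq, true_and]; omega
  · right
    simp only [nb, Finset.mem_insert, Finset.mem_singleton, Prod.mk.injEq]
    right; right; left
    refine ⟨trivial, ?_⟩
    push_cast; ring

/-- every vertex of the boundary of the ball is joined to the corner -/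
lemma pz_corner {O : Set V} {R : ℕ} (hO : ∀ v : V, v ∈ ball 0 R →
      (v.1 = R ∨ v.1 = -R ∨ v.2 = R ∨ v.2 = -R) → v ∈ O) {x : V} (hx : x ∈ ball 0 R)
    (hx' : x.1 = R ∨ x.1 = -R ∨ x.2 = R ∨ x.2 = -R) :
    Conn O (4 * R) x ((R : ℤ), (R : ℤ)) := by
  obtain ⟨a, b⟩ := x
  rw [mem_ball] at hx
  simp only [Prod.fst_zero, Prod.snd_zero, zero_sub, zero_add] at hx hx'
  have hO' : ∀ s t : ℤ, -R ≤ s → s ≤ R → -R ≤ t → t ≤ R →
      (s = R ∨ s = -R ∨ t = R ∨ t = -R) → (s, t) ∈ O := by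
    intro s t h1 h2 h3 h4 h5
    refine hO (s, t) ?_ h5
    rw [mem_ball]
    simp only [Prod.fst_zero, Prod.snd_zero, zero_sub, zero_add]
    omega
  rcases hx' with h | h | h | h
  · subst h
    have := pz_ver (O := O) (a := b) (b := R) (c := R) (by omega)
      (fun t h1 h2 => hO' _ _ (by omega) (by omega) (by omega) (by omega) (by omega))
    exact this.c1_pad (by omega)
  · subst h
    have h1 := pz_ver (O := O) (a := b) (b := R) (c := -R) (by omega)
      (fun t h1 h2 => hO' _ _ (by omega) (by omega) (by omega) (by omega) (by omega))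
    have h2 := pz_hor (O := O) (a := -R) (b := R) (c := R) (by omega)
      (fun t h1 h2 => hO' _ _ (by omega) (by omega) (by omega) (by omega) (by omega))
    exact (h1.c1_trans h2).c1_pad (by omega)
  · subst h
    have := pz_hor (O := O) (a := a) (b := R) (c := R) (by omega)
      (fun t h1 h2 => hO' _ _ (by omega) (by omega) (by omega) (by omega) (by omega))
    exact this.c1_pad (by omega)
  · subst h
    have h1 := pz_hor (O := O) (a := a) (b := R) (c := -R) (by omega)
      (fun t h1 h2 => hO' _ _ (by omega) (by omega) (by omega) (by omega) (by omega))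
    have h2 := pz_ver (O := O) (a := -R) (b := R) (c := R) (by omega)
      (fun t h1 h2 => hO' _ _ (by omega) (by omega) (by omega) (by omega) (by omega))
    exact (h1.c1_trans h2).c1_pad (by omega)

/-- if the field is nonpositive, there is a nice circuit -/
lemma pz_nice {ψ : V → ℝ} {y : ℝ} {m C : ℕ} (hC : 42 ≤ C)
    (h : ∀ v ∈ ball 0 (3 * 2 ^ m), ψ v ≤ y) : Nice ψ y 0 m C := by
  set R : ℕ := 3 * 2 ^ m with hR
  have hp : 0 < 2 ^ m := by positivity
  have hlt : 2 ^ m < R := by omega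
  set Γ : Finset V := (ball 0 R).filter (fun v => v.1 = R ∨ v.1 = -R ∨ v.2 = R ∨ v.2 = -R) with hΓ
  have hΓd : ∀ v : V, (v.1 = R ∨ v.1 = -R ∨ v.2 = R ∨ v.2 = -R) → v ∉ ball 0 (2 ^ m) := by
    intro v hv hv'
    rw [mem_ball] at hv'
    simp only [Prod.fst_zero, Prod.snd_zero, zero_sub, zero_add] at hv'
    omega
  refine ⟨Γ, ball 0 R, ?_, Finset.Subset.refl _, Finset.filter_subset _ _, ?_, ?_, ?_, ?_⟩
  · intro v hv
    rw [mem_ball] at hv ⊢
    simp only [Prod.fst_zero, Prod.snd_zero, zero_sub, zero_add] at hv ⊢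
    omega
  · rw [Finset.disjoint_left]
    intro v hv
    exact hΓd v (Finset.mem_filter.1 hv).2
  · intro x hx w hw hwn
    refine Finset.mem_filter.2 ⟨hx, ?_⟩
    rw [mem_ball] at hx hwn
    simp only [nb, Finset.mem_insert, Finset.mem_singleton] at hw
    simp only [Prod.fst_zero, Prod.snd_zero, zero_sub, zero_add] at hx hwn
    rcases hw with rfl | rfl | rfl | rfl <;> simp only at hwn <;> omega
  · intro x hx
    exact h x (Finset.mem_filter.1 hx).1
  · intro x hx x' hx'
    have hx1 := Finset.mem_filter.1 hx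
    have hx2 := Finset.mem_filter.1 hx'
    have hO : ∀ v : V, v ∈ ball 0 R → (v.1 = R ∨ v.1 = -R ∨ v.2 = R ∨ v.2 = -R) →
        v ∈ {v | v ∈ Ann 0 m ∧ ψ v ≤ y} :=
      fun v hv hv' => ⟨⟨hv, hΓd v hv'⟩, h v hv⟩
    have h1 := pz_corner hO hx1.1 hx1.2
    have h2 := pz_corner hO hx2.1 hx2.2
    refine (h1.c1_trans h2.c1_symm).c1_pad ?_
    have : 42 * 2 ^ m ≤ C * 2 ^ m := Nat.mul_le_mul_right _ hC
    omega

theorem pf_zero {m C : ℕ} {y q : ℝ} (hm : m ≤ c0) (hy : 0 ≤ y) (hC : 42 ≤ C) (hq : 0 ≤ q) :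
    PF m y C q := by
  intro Ω _ μ _ φ hφ
  have hm0 : m - c0 = 0 := by omega
  rw [hm0] at hφ
  have h1 : ∀ v ∈ ball 0 (3 * 2 ^ m), ∀ᵐ ω ∂μ, φ v ω = 0 := by
    intro v hv
    have hc := hφ.cov ⟨v, hv⟩ ⟨v, hv⟩
    simp only [Finset.range_zero, Finset.sum_empty] at hc
    have hL := hφ.memLp_L1 ⟨v, hv⟩
    have hmean := hφ.mean ⟨v, hv⟩
    simp only at hL hmean
    rw [covariance_self hL.aestronglyMeasurable.aemeasurable] at hc
    have h2 := ae_eq_integral_of_variance_eq_zero hL hc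
    filter_upwards [h2] with ω hω
    rw [hω, hmean]
  have h2 : ∀ᵐ ω ∂μ, ∀ v ∈ ball 0 (3 * 2 ^ m), φ v ω = 0 :=
    (Finset.eventually_all _).2 h1
  have h3 : μ {ω | ¬ Nice (fun v => φ v ω) y 0 m C} = 0 := by
    refine measure_mono_null ?_ (ae_iff.1 h2)
    intro ω hω hω'
    exact hω (pz_nice hC (fun v hv => by rw [hω' v hv]; exact hy))
  rw [h3]
  exact bot_le

end Pool.H92.GFL
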