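import Pool.Agent.helper92.GFL.A7
import Pool.Agent.helper92.GFL.A8b
import Pool.Agent.helper92.GFL.PZ
import Pool.Agent.helper92.GFL.L4
import Pool.Agent.helper92.GFL.K4

namespace Pool.H92.GFL

open Function Finset MeasureTheory ProbabilityTheory Pool.H92.GFF
open scoped Classical ENNReal

lemma a9_transfer {n m C : ℕ} {y : ℝ} {Ω Ω' : Type*} [MeasurableSpace Ω] [MeasurableSpace Ω']
    {μ : Measure Ω} {μ' : Measure Ω'} [IsProbabilityMeasure μ] [IsProbabilityMeasure μ']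
    {φ : V → Ω → ℝ} {φ' : V → Ω' → ℝ} (hφ : IsFld n (ball 0 (3 * 2 ^ m)) μ φ)
    (hφ' : IsFld n (ball 0 (3 * 2 ^ m)) μ' φ') :
    μ {ω | ¬ Nice (fun v => φ v ω) y 0 m C} = μ' {ω | ¬ Nice (fun v => φ' v ω) y 0 m C} := by
  set W := ball (0 : V) (3 * 2 ^ m) with hW
  have hlaw := GF.law_eq hφ hφ'
  set ext : (W → ℝ) → V → ℝ := fun x v => if hv : v ∈ W then x ⟨v, hv⟩ else 0 with hext
  have hextm : Measurable ext := by
    refine measurable_pi_iff.2 (fun v => ?_)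
    rw [hext]
    by_cases hv : v ∈ W
    · simp only [dif_pos hv]; exact measurable_pi_apply _
    · simp only [dif_neg hv]; exact measurable_const
  have hS : MeasurableSet {x : W → ℝ | ¬ Nice (ext x) y 0 m C} :=
    (hextm (meas_Nice y 0 m C)).compl
  have key : ∀ ψ : V → ℝ, Nice ψ y 0 m C ↔ Nice (ext (fun v : W => ψ v)) y 0 m C := by
    intro ψ
    have hag : ∀ v, v ∈ Ann 0 m → ψ v = ext (fun v : W => ψ v) v := by
      intro v hv
      have hvW : v ∈ W := hv.1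
      rw [hext]
      simp only [dif_pos hvW]
    exact ⟨Nice.congr hag, Nice.congr (fun v hv => (hag v hv).symm)⟩
  have m1 : Measurable (fun ω (v : W) => φ v ω) := measurable_pi_iff.2 hφ.meas
  have m2 : Measurable (fun ω (v : W) => φ' v ω) := measurable_pi_iff.2 hφ'.meas
  have e1 : μ {ω | ¬ Nice (fun v => φ v ω) y 0 m C} =
      (μ.map (fun ω (v : W) => φ v ω)) {x : W → ℝ | ¬ Nice (ext x) y 0 m C} := by
    rw [Measure.map_apply m1 hS]
    congr 1
    ext ω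
    simp only [Set.mem_ofPred_eq, Set.mem_preimage]
    rw [← key (fun v => φ v ω)]
  have e2 : μ' {ω | ¬ Nice (fun v => φ' v ω) y 0 m C} =
      (μ'.map (fun ω (v : W) => φ' v ω)) {x : W → ℝ | ¬ Nice (ext x) y 0 m C} := by
    rw [Measure.map_apply m2 hS]
    congr 1
    ext ω
    simp only [Set.mem_ofPred_eq, Set.mem_preimage]
    rw [← key (fun v => φ' v ω)]
  rw [e1, hlaw, ← e2]

lemma a9_rot_sub (i : ℕ) (v w : V) : rot^[i] v - rot^[i] w = rot^[i] (v - w) := by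
  induction i with
  | zero => rfl
  | succ i ih =>
    rw [Function.iterate_succ_apply', Function.iterate_succ_apply', Function.iterate_succ_apply',
      ← ih]
    ext
    · simp only [rot, Prod.fst_sub, Prod.snd_sub]; ring
    · simp only [rot, Prod.fst_sub, Prod.snd_sub]

lemma a9_kap_rot (j i : ℕ) (v : V) : kap j (rot^[i] v) = kap j v := by
  induction i with
  | zero => rfl
  | succ i ih =>
    rw [Function.iterate_succ_apply', ← ih]
    set w := rot^[i] v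
    unfold kap rot
    rw [kz_refl (cpol j) (w.2, w.1), kz_swap]

lemma a9_rot_ball (i : ℕ) (r : ℕ) (v : V) (hv : v ∈ ball 0 r) : rot^[i] v ∈ ball 0 r := by
  induction i with
  | zero => exact hv
  | succ i ih =>
    rw [Function.iterate_succ_apply']
    rw [mem_ball] at ih ⊢
    simp only [rot, Prod.fst_zero, Prod.snd_zero] at ih ⊢
    omega

lemma a9_lay {J : ℕ} {W W' : Finset V} {Ω : Type*} [MeasurableSpace Ω] {μ : Measure Ω}
    {X : ℕ → V → Ω → ℝ} (h : IsLay J W μ X) (i : ℕ) (s : V)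
    (hs : ∀ v ∈ W', rot^[i] (v + s) ∈ W) :
    IsLay J W' μ (fun j v => X j (rot^[i] (v + s))) := by
  have h1 := GF.comp h (fun p : Fin J × W' => (p.1, (⟨rot^[i] ((p.2 : V) + s), hs p.2 p.2.2⟩ : W)))
  have e : (fun p q : Fin J × W' => if p.1 = q.1 then
      kap p.1 (rot^[i] ((p.2 : V) + s) - rot^[i] ((q.2 : V) + s)) else 0) =
      (fun p q : Fin J × W' => if p.1 = q.1 then kap p.1 ((p.2 : V) - (q.2 : V)) else 0) := by
    funext p q
    rw [a9_rot_sub, add_sub_add_right_eq_sub, a9_kap_rot]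
  unfold IsLay
  rw [← e]
  exact h1

theorem thmA (y0 : ℝ) : ∃ K1 : ℝ, 1 ≤ K1 ∧ ∀ K : ℝ, K1 ≤ K → ∀ (m Cs : ℕ), 1 ≤ Cs →
    (∀ k < m, PF k y0 Cs q0) → PF m K (42 + ⌈Cs / K ^ 7⌉₊) q1 := by
  obtain ⟨K1, hK1, hseg⟩ := seg_prob y0
  refine ⟨K1, hK1, fun K hK m Cs hCs hPF => ?_⟩
  have hK0 : 1 ≤ K := hK1.trans hK
  rcases Nat.lt_or_ge c0 m with hm | hm
  swap
  · exact pf_zero hm (by linarith) (Nat.le_add_right _ _) (by unfold q1; positivity)
  obtain ⟨k0, hk0, rfl⟩ : ∃ k0, 1 ≤ k0 ∧ m = k0 + c0 := ⟨m - c0, by omega, by omega⟩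
  intro Ω _ μ _ φ hφ
  rw [Nat.add_sub_cancel] at hφ
  obtain ⟨Ω', mΩ', μ', hμ', X, hX, hXm⟩ := exists_lay k0 (ball 0 (2 ^ (k0 + 9)))
  have hc0 : k0 + c0 = k0 + 4 := rfl
  have hW : ball (0 : V) (3 * 2 ^ (k0 + c0)) ⊆ ball 0 (2 ^ (k0 + 9)) := by
    refine ball_mono ?_
    rw [hc0, pow_add, pow_add]
    have : 0 < 2 ^ k0 := by positivity
    omega
  have hsum := lay_sum hX le_rfl hW
  rw [a9_transfer hφ hsum]
  set T : ℝ := Cs * 2 ^ k0 / (40 * K ^ 7) with hT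
  -- the bad events
  set bad : ℕ × ℕ → Set Ω' := fun p => {ω | ¬ Seg (fun v => ∑ j ∈ Finset.range k0,
    X j (rot^[p.1] (v + ((-40 * 2 ^ k0 + p.2 * 2 ^ (k0 - 1) : ℤ),
      (p.2 * 2 ^ (k0 - 1) : ℤ)))) ω) K k0 T} with hbad
  have hbound : ∀ p ∈ Finset.range 4 ×ˢ Finset.range 80, μ' (bad p) ≤
      ENNReal.ofReal (1 / 10 ^ 9) := by
    intro p hp
    rw [Finset.mem_product, Finset.mem_range, Finset.mem_range] at hp
    refine hseg K hK k0 Cs hk0 hCs hPF (a9_lay hX p.1 _ (fun v hv => ?_))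
    refine a9_rot_ball _ _ _ ?_
    have h1 : (2 : ℤ) ^ k0 = 2 * 2 ^ (k0 - 1) := by
      rw [← pow_succ']
      congr 1
      omega
    have h2 : (0 : ℤ) < 2 ^ (k0 - 1) := by positivity
    have h3 : (2 : ℤ) ^ (k0 + 8) = 512 * 2 ^ (k0 - 1) := by
      rw [pow_add, h1]; ring
    have h4 : (2 : ℤ) ^ (k0 + 9) = 1024 * 2 ^ (k0 - 1) := by
      rw [pow_add, h1]; ring
    have h5 : (p.2 : ℤ) * 2 ^ (k0 - 1) ≤ 79 * 2 ^ (k0 - 1) := by
      have : (p.2 : ℤ) ≤ 79 := by omega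
      exact mul_le_mul_of_nonneg_right this h2.le
    have h6 : 0 ≤ (p.2 : ℤ) * 2 ^ (k0 - 1) := by positivity
    rw [mem_ball] at hv ⊢
    simp only [Prod.fst_add, Prod.snd_add, Prod.fst_zero, Prod.snd_zero] at hv ⊢
    push_cast at hv ⊢
    rw [h3] at hv
    rw [h4, h1]
    omega
  have hsub : {ω | ¬ Nice (fun v => ∑ j ∈ Finset.range k0, X j v ω) K 0 (k0 + c0)
        (42 + ⌈Cs / K ^ 7⌉₊)} ⊆ ⋃ p ∈ Finset.range 4 ×ˢ Finset.range 80, bad p := by
    intro ω hω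
    by_contra hcon
    apply hω
    rw [hc0]
    refine nice_of_segs (T := T) hk0 (fun i hi a ha => ?_) ?_
    · by_contra hs
      apply hcon
      simp only [Set.mem_iUnion]
      exact ⟨(i, a), Finset.mem_product.2 ⟨Finset.mem_range.2 hi, Finset.mem_range.2 ha⟩, hs⟩
    · have h1 : (Cs : ℝ) / K ^ 7 ≤ (⌈(Cs : ℝ) / K ^ 7⌉₊ : ℝ) := Nat.le_ceil _
      have h2 : (0 : ℝ) < 2 ^ k0 := by positivity
      have h3 : (1 : ℝ) ≤ 2 ^ k0 := one_le_pow₀ (by norm_num)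
      have h4 : 640 * T = 16 * 2 ^ k0 * ((Cs : ℝ) / K ^ 7) := by
        rw [hT]
        have : K ^ 7 ≠ 0 := by positivity
        field_simp
        ring
      have h5 : 16 * (2 : ℝ) ^ k0 * ((Cs : ℝ) / K ^ 7) ≤
          16 * (2 : ℝ) ^ k0 * (⌈(Cs : ℝ) / K ^ 7⌉₊ : ℝ) :=
        mul_le_mul_of_nonneg_left h1 (by positivity)
      rw [h4, pow_add]
      push_cast
      nlinarith
  refine (measure_mono hsub).trans ?_
  calc μ' (⋃ p ∈ Finset.range 4 ×ˢ Finset.range 80, bad p)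
      ≤ ∑ p ∈ Finset.range 4 ×ˢ Finset.range 80, μ' (bad p) := measure_biUnion_finset_le _ _
    _ ≤ ∑ p ∈ Finset.range 4 ×ˢ Finset.range 80, ENNReal.ofReal (1 / 10 ^ 9) :=
        Finset.sum_le_sum hbound
    _ = ENNReal.ofReal (320 * (1 / 10 ^ 9)) := by
        rw [Finset.sum_const, Finset.card_product, Finset.card_range, Finset.card_range,
          nsmul_eq_mul, ENNReal.ofReal_mul (by norm_num)]
        norm_num
    _ ≤ ENNReal.ofReal q1 := by
        refine ENNReal.ofReal_le_ofReal ?_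
        unfold q1
        norm_num

end Pool.H92.GFL
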