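import Pool.Agent.helper92.GFL.Defs2

namespace Pool.H92.GFL

open Function Finset MeasureTheory ProbabilityTheory Pool.H92.GFF
open scoped Classical ENNReal

theorem Bs_conn {U S : Finset V} {o : V → Prop} {t : ℕ} {a : V} (ha : a ∈ Bs U S o t) :
    ∃ (n : ℕ) (b : V), b ∈ S ∧ Conn (Bs U S o t : Set V) n a b := by
  induction t generalizing a with
  | zero =>
    rw [Bs_zero] at ha ⊢
    exact ⟨0, a, ha, fun _ => a, rfl, rfl, fun _ _ => by simpa using ha, fun i hi => by omega⟩
  | succ t ih =>
    by_cases h : a ∈ Bs U S o t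
    · obtain ⟨n, b, hb, p, p0, pn, p1, p2⟩ := ih h
      refine ⟨n, b, hb, p, p0, pn, fun i hi => ?_, p2⟩
      exact Finset.coe_subset.mpr (Bs_mono_succ t) (p1 i hi)
    · have h1 : a ∈ (Fs U S o t).biUnion nb := by
        rw [Bs_succ, Finset.mem_union] at ha
        rcases ha with ha | ha
        · exact absurd ha h
        · exact (Finset.mem_inter.1 ha).1
      obtain ⟨w, hw, haw⟩ := Finset.mem_biUnion.1 h1
      obtain ⟨n, b, hb, p, p0, pn, p1, p2⟩ := ih (Fs_subset t hw)
      refine ⟨n + 1, b, hb, fun i => if i = 0 then a else p (i - 1), by simp, ?_, ?_, ?_⟩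
      · simpa using pn
      · intro i hi
        by_cases hi0 : i = 0
        · subst hi0
          simpa using ha
        · simp only [hi0, if_false]
          exact Finset.coe_subset.mpr (Bs_mono_succ t) (p1 (i - 1) (by omega))
      · intro i hi
        by_cases hi0 : i = 0
        · subst hi0
          right
          simp only [zero_add, one_ne_zero, ↓reduceIte, tsub_self, p0]
          exact nb_symm.1 haw
        · have h3 := p2 (i - 1) (by omega)
          have e : i - 1 + 1 = i + 1 - 1 := by omega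
          rw [e] at h3
          simpa only [hi0, if_false, Nat.add_eq_zero_iff, one_ne_zero, and_false] using h3

theorem Fs_cross {U S : Finset V} {o : V → Prop} {Γ F : Finset V} (hS : Disjoint S F)
    (hb : ∀ x ∈ F, ∀ w ∈ nb x, w ∉ F → x ∈ Γ) {t : ℕ} {v : V} (hv : v ∈ Fs U S o t)
    (hvF : v ∈ F) : ∃ t' ≤ t, ∃ w ∈ Γ, w ∈ Fs U S o t' := by
  induction t generalizing v with
  | zero =>
    rw [Fs_zero] at hv
    exact absurd hvF (Finset.disjoint_left.1 hS (Finset.mem_filter.1 hv).1)
  | succ t ih =>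
    have hv' := hv
    rw [Fs_succ] at hv
    have h0 := Finset.mem_sdiff.1 (Finset.mem_filter.1 hv).1
    have h1 : v ∈ (Fs U S o t).biUnion nb := by
      have h2 := h0.1
      rw [Bs_succ, Finset.mem_union] at h2
      rcases h2 with h2 | h2
      · exact absurd h2 h0.2
      · exact (Finset.mem_inter.1 h2).1
    obtain ⟨w, hw, hvw⟩ := Finset.mem_biUnion.1 h1
    by_cases hwF : w ∈ F
    · obtain ⟨t', ht', w', hw', hw''⟩ := ih hw hwF
      exact ⟨t', by omega, w', hw', hw''⟩
    · exact ⟨t + 1, le_rfl, v, hb v hvF w (nb_symm.1 hvw) hwF, hv'⟩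

theorem Bs_of_conn {U S : Finset V} {o : V → Prop} {t n : ℕ} {w w' : V} {O : Set V}
    (_hS : S ⊆ U) (hO : ∀ v ∈ O, v ∈ U ∧ o v) (hw : w ∈ Bs U S o t) (hc : Conn O n w w') :
    w' ∈ Bs U S o (t + n) := by
  obtain ⟨p, p0, pn, p1, p2⟩ := hc
  have key : ∀ i, i ≤ n → p i ∈ Bs U S o (t + i) := by
    intro i
    induction i with
    | zero => intro _; simpa [p0] using hw
    | succ i ih =>
      intro hi
      have h1 := ih (by omega)
      obtain ⟨s, hs, hs'⟩ := mem_Fs_of_open h1 (hO _ (p1 i (by omega))).2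
      rcases p2 i (by omega) with h2 | h2
      · rw [h2]
        exact Bs_mono (by omega) h1
      · have h3 : p (i + 1) ∈ Bs U S o (s + 1) := by
          rw [Bs_succ]
          refine Finset.mem_union_right _ (Finset.mem_inter.2 ⟨?_, (hO _ (p1 (i + 1) hi)).1⟩)
          exact Finset.mem_biUnion.2 ⟨_, hs', h2⟩
        exact Bs_mono (by omega) h3
  rw [← pn]
  exact key n le_rfl

end Pool.H92.GFL
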