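import Pool.Agent.helper92.GFL.Defs2

namespace Pool.H92.GFL

open Function Finset MeasureTheory ProbabilityTheory Pool.H92.GFF
open scoped Classical ENNReal

lemma ac2_lap_eqp_nonneg {I B : Finset V} {v : V} (hv : v ∈ I) : 0 ≤ lap (eqp I B) v := by
  by_cases hB : v ∈ B
  · exact qw_nonneg hB
  · rw [lap_eqp hv hB]

lemma ac2_hx_le {I B E : Finset V} (hE : E ⊆ I) (v : V) : hx I E (eqp I B) v ≤ eqp I B v := by
  refine cmp (I \ E) (fun v hv => ?_) (fun v hv => ?_) v
  · rw [Finset.mem_sdiff] at hv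
    rw [lap_hx hv.1 hv.2]
    exact ac2_lap_eqp_nonneg hv.1
  · by_cases hvE : v ∈ E
    · rw [hx_on hvE]
    · have hvI : v ∉ I := fun h => hv (by simp [h, hvE])
      rw [hx_out hE hvI]
      exact eqp_nonneg _ _ _

theorem gE_nonneg {I B E : Finset V} (hB : B ⊆ I) (hE : E ⊆ I) (v : V) : 0 ≤ gE I B E v := by
  unfold gE
  linarith [ac2_hx_le (B := B) hE v]

theorem gE_le_one {I B E : Finset V} (hB : B ⊆ I) (hE : E ⊆ I) (v : V) : gE I B E v ≤ 1 := by
  unfold gE
  have h1 := hx_nonneg (I := I) (E := E) (b := eqp I B) (fun v _ => eqp_nonneg _ _ _) v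
  linarith [eqp_le_one I B v]

theorem gE_on {I B E : Finset V} {v : V} (hv : v ∈ E) : gE I B E v = 0 := by
  unfold gE
  rw [hx_on hv, sub_self]

theorem gE_out {I B E : Finset V} (hB : B ⊆ I) (hE : E ⊆ I) {v : V} (hv : v ∉ I) :
    gE I B E v = 0 := by
  unfold gE
  rw [hx_out hE hv, eqp_zero hB hv, sub_self]

theorem gE_anti {I B E E' : Finset V} (hB : B ⊆ I) (h : E ⊆ E') (hE : E' ⊆ I) (v : V) :
    gE I B E' v ≤ gE I B E v := by
  have key : hx I E (eqp I B) v ≤ hx I E' (eqp I B) v := by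
    refine cmp (I \ E) (fun v hv => ?_) (fun v hv => ?_) v
    · rw [Finset.mem_sdiff] at hv
      rw [lap_hx hv.1 hv.2]
      by_cases hvE : v ∈ E'
      · -- on E' the extension touches the superharmonic function from below
        have h0 : hx I E' (eqp I B) v = eqp I B v := hx_on hvE
        have h1 := ac2_lap_eqp_nonneg (B := B) hv.1
        rw [lap_eq_sum] at h1 ⊢
        rw [h0]
        have h2 : ∑ w ∈ nb v, hx I E' (eqp I B) w ≤ ∑ w ∈ nb v, eqp I B w :=
          Finset.sum_le_sum (fun w _ => ac2_hx_le hE w)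
        linarith
      · rw [lap_hx hv.1 hvE]
    · by_cases hvE : v ∈ E
      · rw [hx_on hvE, hx_on (h hvE)]
      · have hvI : v ∉ I := fun h => hv (by simp [h, hvE])
        rw [hx_out (h.trans hE) hvI, hx_out hE hvI]
  unfold gE
  linarith

lemma ac2_lap_gE (I B E : Finset V) (v : V) :
    lap (gE I B E) v = lap (eqp I B) v - lap (hx I E (eqp I B)) v := by
  have : gE I B E = fun v => eqp I B v - hx I E (eqp I B) v := rfl
  rw [this, lap_sub]

theorem lap_gE {I B E : Finset V} {v : V} (hv : v ∈ I) (hE : v ∉ E) (hB : v ∉ B) :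
    lap (gE I B E) v = 0 := by
  rw [ac2_lap_gE, lap_eqp hv hB, lap_hx hv hE, sub_self]

theorem lap_hx_eqp {I B E : Finset V} (hB : B ⊆ I) (hE : E ⊆ I) {v : V} (hv : v ∈ E) :
    lap (hx I E (eqp I B)) v = (if v ∈ B then qw I B v else 0) + ∑ w ∈ nb v, gE I B E w := by
  have h1 : lap (hx I E (eqp I B)) v = lap (eqp I B) v - lap (gE I B E) v := by
    rw [ac2_lap_gE]; ring
  rw [h1, lap_eq_sum (gE I B E), gE_on hv]
  have h2 : lap (eqp I B) v = if v ∈ B then qw I B v else 0 := by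
    split_ifs with h
    · rfl
    · exact lap_eqp (hE hv) h
  rw [h2]; ring

theorem sum_lap_hx {I B E : Finset V} (hB : B ⊆ I) (hE : E ⊆ I) {w : V → ℝ}
    (hw : ∀ v ∉ I, w v = 0) (hwB : ∀ v ∈ B, w v = 0) :
    ∑ v ∈ E, lap (hx I E (eqp I B)) v * w v = - ∑ v ∈ I \ E, gE I B E v * lap w v := by
  have h1 : ∑ v ∈ E, lap (hx I E (eqp I B)) v * w v = ∑ v ∈ I, lap (hx I E (eqp I B)) v * w v := by
    apply Finset.sum_subset hE
    intro v hv hvE
    rw [lap_hx hv hvE, zero_mul]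
  have h2 : ∑ v ∈ I, lap (hx I E (eqp I B)) v * w v =
      ∑ v ∈ I, lap (eqp I B) v * w v - ∑ v ∈ I, lap (gE I B E) v * w v := by
    rw [← Finset.sum_sub_distrib]
    refine Finset.sum_congr rfl (fun v _ => ?_)
    rw [ac2_lap_gE]; ring
  have h3 : ∑ v ∈ I, lap (eqp I B) v * w v = 0 := by
    apply Finset.sum_eq_zero
    intro v hv
    by_cases hvB : v ∈ B
    · rw [hwB v hvB, mul_zero]
    · rw [lap_eqp hv hvB, zero_mul]
  have h4 : ∑ v ∈ I, lap (gE I B E) v * w v = ∑ v ∈ I, lap w v * gE I B E v := by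
    rw [← D_eq_sum hw, D_comm, D_eq_sum (W := I) (fun v hv => gE_out hB hE hv)]
  have h5 : ∑ v ∈ I, lap w v * gE I B E v = ∑ v ∈ I \ E, gE I B E v * lap w v := by
    symm
    rw [← Finset.sum_subset (Finset.sdiff_subset : I \ E ⊆ I)]
    · exact Finset.sum_congr rfl (fun v _ => mul_comm _ _)
    · intro v hv hvE
      have : v ∈ E := by
        by_contra h
        exact hvE (Finset.mem_sdiff.2 ⟨hv, h⟩)
      rw [gE_on this, mul_zero]
  rw [h1, h2, h3, h4, h5, zero_sub]

theorem flux {I B E S W : Finset V} (hB : B ⊆ I) (hE : E ⊆ I) (hS : S ⊆ E) (hSW : S ⊆ W)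
    (hW : W ⊆ I) {χ : V → ℝ} (hχ0 : ∀ v, 0 ≤ χ v) (hχ1 : ∀ v, χ v ≤ 1) (hχW : ∀ v ∈ W, χ v = 0) :
    ∑ v ∈ B, qw I B v * eqp W S v ≤ ∑ v ∈ E, lap (hx I E (eqp I B)) v * (1 - χ v) := by
  rw [← D_hx_symm hE (eqp I B) (fun v => 1 - χ v), ← D_hx_left hE (fun v hv => eqp_zero hB hv),
    D_eqp hB (fun v hv => hx_out hE hv)]
  refine Finset.sum_le_sum (fun v hv => ?_)
  apply mul_le_mul_of_nonneg_left _ (qw_nonneg hv)
  refine cmp (I \ E) (fun v hv => ?_) (fun v hv => ?_) v
  · rw [Finset.mem_sdiff] at hv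
    rw [lap_hx hv.1 hv.2]
    have hvS : v ∉ S := fun h => hv.2 (hS h)
    by_cases hvW : v ∈ W
    · rw [lap_eqp hvW hvS]
    · rw [lap_eq_sum, eqp_zero hSW hvW]
      have : 0 ≤ ∑ w ∈ nb v, eqp W S w := Finset.sum_nonneg (fun w _ => eqp_nonneg _ _ _)
      linarith
  · by_cases hvE : v ∈ E
    · rw [hx_on hvE]
      by_cases hvW : v ∈ W
      · rw [hχW v hvW, sub_zero]
        exact eqp_le_one _ _ _
      · rw [eqp_zero hSW hvW]
        linarith [hχ1 v]
    · have hvI : v ∉ I := fun h => hv (by simp [h, hvE])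
      rw [hx_out hE hvI, eqp_zero hSW (fun h => hvI (hW h))]

/-- the region enclosed by an explored circuit carries no potential -/
theorem gE_region {I B E Γ F : Finset V} (hB : B ⊆ I) (hE : E ⊆ I) (hF : F ⊆ I)
    (hFB : Disjoint F B) (hb : ∀ x ∈ F, ∀ w ∈ nb x, w ∉ F → x ∈ Γ) (hΓ : Γ ⊆ E) {v : V}
    (hv : v ∈ F) : gE I B E v = 0 := by
  have key := eq_zero_of_lap (F \ E) (fun v => if v ∈ F then gE I B E v else 0)
    (fun v hv => ?_) (fun v hv => ?_) v
  · simpa [hv] using key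
  · rw [Finset.mem_sdiff] at hv
    have hvΓ : v ∉ Γ := fun h => hv.2 (hΓ h)
    have h1 : lap (fun v => if v ∈ F then gE I B E v else 0) v = lap (gE I B E) v := by
      apply lap_congr
      · simp [hv.1]
      · intro w hw
        have hwF : w ∈ F := by
          by_contra h
          exact hvΓ (hb v hv.1 w hw h)
        simp [hwF]
    rw [h1]
    exact lap_gE (hF hv.1) hv.2 (Finset.disjoint_left.1 hFB hv.1)
  · by_cases hvF : v ∈ F
    · have : v ∈ E := by
        by_contra h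
        exact hv (Finset.mem_sdiff.2 ⟨hvF, h⟩)
      simp only [if_pos hvF]
      exact gE_on this
    · simp only [if_neg hvF]

lemma ac2_var {I B E : Finset V} (hE : E ⊆ I) {f : V → ℝ} (hf : ∀ v ∉ I, f v = 0)
    (hfE : ∀ v ∈ E, f v = eqp I B v) :
    D (hx I E (eqp I B)) (hx I E (eqp I B)) ≤ D f f := by
  have hfs := fin_of_zero_off hf
  have hhs := fin_of_zero_off (W := I) (f := hx I E (eqp I B)) (fun v hv => hx_out hE hv)
  have h1 := D_sub_self hfs hhs
  have h2 := D_self_nonneg (fun v => f v - hx I E (eqp I B) v)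
  have h3 : D f (hx I E (eqp I B)) = D (hx I E (eqp I B)) (hx I E (eqp I B)) := by
    rw [D_comm f, D_eq_sum (W := I) hf,
      D_eq_sum (W := I) (g := hx I E (eqp I B)) (fun v hv => hx_out hE hv)]
    refine Finset.sum_congr rfl (fun v hv => ?_)
    by_cases hvE : v ∈ E
    · rw [hfE v hvE, hx_on hvE]
    · rw [lap_hx hv hvE, zero_mul, zero_mul]
  rw [h1, h3] at h2
  linarith

lemma ac2_incr {I B E E' : Finset V} (h : E ⊆ E') (hE' : E' ⊆ I) :
    D (hx I E (eqp I B)) (hx I E (eqp I B)) +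
      (1 / 8) * ∑ v ∈ E' \ E, lap (hx I E' (eqp I B)) v ^ 2 ≤
      D (hx I E' (eqp I B)) (hx I E' (eqp I B)) := by
  set f := hx I E' (eqp I B) with hfdef
  set g : V → ℝ := fun v => if v ∈ E' \ E then lap f v / 8 else 0 with hgdef
  have hg0 : ∀ v ∉ I, g v = 0 := by
    intro v hv
    have : v ∉ E' \ E := fun hh => hv (hE' (Finset.mem_sdiff.1 hh).1)
    simp only [hgdef, if_neg this]
  have hf0 : ∀ v ∉ I, f v = 0 := fun v hv => hx_out hE' hv
  have hgs := fin_of_zero_off hg0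
  have hfs := fin_of_zero_off hf0
  have h1 := D_sub_self hfs hgs
  have h2 : D (hx I E (eqp I B)) (hx I E (eqp I B)) ≤
      D (fun v => f v - g v) (fun v => f v - g v) := by
    refine ac2_var (h.trans hE') (fun v hv => ?_) (fun v hv => ?_)
    · simp only [hf0 v hv, hg0 v hv, sub_zero]
    · have hv' : v ∉ E' \ E := by simp [hv]
      have : g v = 0 := by simp only [hgdef, if_neg hv']
      simp only [this, sub_zero]
      exact hx_on (h hv)
  have h3 : D f g = (1 / 8) * ∑ v ∈ E' \ E, lap f v ^ 2 := by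
    rw [D_eq_sum (W := I) hg0, Finset.mul_sum]
    rw [← Finset.sum_subset ((Finset.sdiff_subset : E' \ E ⊆ E').trans hE')]
    · refine Finset.sum_congr rfl (fun v hv => ?_)
      simp only [hgdef, if_pos hv]; ring
    · intro v _ hv
      simp only [hgdef, if_neg hv]; simp
  have h4 : D g g ≤ 8 * ((1 / 64) * ∑ v ∈ E' \ E, lap f v ^ 2) := by
    refine (D_le_eight hgs).trans ?_
    rw [tsum_eq_sum (s := E' \ E)]
    · apply mul_le_mul_of_nonneg_left _ (by norm_num)
      rw [Finset.mul_sum]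
      refine Finset.sum_le_sum (fun v hv => ?_)
      simp only [hgdef, if_pos hv]
      apply le_of_eq; ring
    · intro v hv
      simp only [hgdef, if_neg hv]; simp
  rw [h1, h3] at h2
  linarith

lemma ac2_le_cp {I B E : Finset V} (hB : B ⊆ I) (hE : E ⊆ I) :
    D (hx I E (eqp I B)) (hx I E (eqp I B)) ≤ cp I B :=
  ac2_var hE (fun v hv => eqp_zero hB hv) (fun _ _ => rfl)

theorem sumsq {I B : Finset V} (hB : B ⊆ I) (E : ℕ → Finset V) (hmono : Monotone E)
    (hE : ∀ t, E t ⊆ I) (R : ℕ) :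
    ∑ t ∈ Finset.Icc 1 R, ∑ v ∈ E t \ E (t - 1), lap (hx I (E t) (eqp I B)) v ^ 2
      ≤ 8 * cp I B := by
  have key : ∀ R : ℕ, ∑ t ∈ Finset.Icc 1 R, ∑ v ∈ E t \ E (t - 1),
      lap (hx I (E t) (eqp I B)) v ^ 2 ≤
      8 * (D (hx I (E R) (eqp I B)) (hx I (E R) (eqp I B)) -
        D (hx I (E 0) (eqp I B)) (hx I (E 0) (eqp I B))) := by
    intro R
    induction R with
    | zero => simp
    | succ n ih =>
      rw [Finset.sum_Icc_succ_top (by omega)]
      have h1 := ac2_incr (B := B) (hmono (Nat.le_succ n)) (hE (n + 1))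
      simp only [Nat.add_sub_cancel]
      simp only [Nat.succ_eq_add_one] at h1
      linarith
  have h0 := D_self_nonneg (hx I (E 0) (eqp I B))
  have h1 := ac2_le_cp hB (hE R)
  linarith [key R]

end Pool.H92.GFL
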