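import Pool.Agent.helper92.GFL.Defs2

namespace Pool.H92.GFL

open Function Finset MeasureTheory ProbabilityTheory Pool.H92.GFF
open scoped Classical ENNReal

/-- clamp to `[0,1]` -/
noncomputable def AC3c (x : ℝ) : ℝ := max 0 (min x 1)

/-- smoothstep -/
noncomputable def AC3S (x : ℝ) : ℝ := 3 * (AC3c x) ^ 2 - 2 * (AC3c x) ^ 3

lemma AC3c_nonneg (x : ℝ) : 0 ≤ AC3c x := le_max_left _ _

lemma AC3c_le (x : ℝ) : AC3c x ≤ 1 := max_le zero_le_one (min_le_right _ _)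

lemma AC3c_of_le {x : ℝ} (h : x ≤ 0) : AC3c x = 0 := by
  unfold AC3c
  rw [max_eq_left]
  exact (min_le_left _ _).trans h

lemma AC3c_of_ge {x : ℝ} (h : 1 ≤ x) : AC3c x = 1 := by
  unfold AC3c
  rw [min_eq_right h]; exact max_eq_right zero_le_one

lemma AC3c_mid {x : ℝ} (h0 : 0 ≤ x) (h1 : x ≤ 1) : AC3c x = x := by
  unfold AC3c
  rw [min_eq_left h1, max_eq_right h0]

lemma AC3S_of_le {x : ℝ} (h : x ≤ 0) : AC3S x = 0 := by
  unfold AC3S; rw [AC3c_of_le h]; norm_num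

lemma AC3S_of_ge {x : ℝ} (h : 1 ≤ x) : AC3S x = 1 := by
  unfold AC3S; rw [AC3c_of_ge h]; norm_num

lemma AC3S_mid {x : ℝ} (h0 : 0 ≤ x) (h1 : x ≤ 1) : AC3S x = 3 * x ^ 2 - 2 * x ^ 3 := by
  unfold AC3S; rw [AC3c_mid h0 h1]

lemma AC3S_bd (x : ℝ) : 0 ≤ AC3S x ∧ AC3S x ≤ 1 := by
  unfold AC3S
  have h0 := AC3c_nonneg x
  have h1 := AC3c_le x
  set c := AC3c x
  constructor
  · have : 3 * c ^ 2 - 2 * c ^ 3 = c ^ 2 * (3 - 2 * c) := by ring
    rw [this]; exact mul_nonneg (sq_nonneg _) (by linarith)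
  · have : 1 - (3 * c ^ 2 - 2 * c ^ 3) = (1 - c) ^ 2 * (1 + 2 * c) := by ring
    have h2 : 0 ≤ (1 - c) ^ 2 * (1 + 2 * c) := mul_nonneg (sq_nonneg _) (by linarith)
    linarith

lemma AC3c_lip (x h : ℝ) (h0 : 0 ≤ h) : 0 ≤ AC3c (x + h) - AC3c x ∧ AC3c (x + h) - AC3c x ≤ h := by
  unfold AC3c
  rcases le_total x 0 with hx | hx
  · rw [max_eq_left ((min_le_left _ _).trans hx)]
    refine ⟨by simp, ?_⟩
    rw [sub_zero]
    exact max_le h0 ((min_le_left _ _).trans (by linarith))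
  · rcases le_total x 1 with hx1 | hx1
    · rw [min_eq_left hx1, max_eq_right hx]
      refine ⟨?_, ?_⟩
      · have : x ≤ max 0 (min (x + h) 1) := le_max_of_le_right (le_min (by linarith) hx1)
        linarith
      · have : max 0 (min (x + h) 1) ≤ x + h := max_le (by linarith) (min_le_left _ _)
        linarith
    · rw [min_eq_right hx1, min_eq_right (by linarith : (1 : ℝ) ≤ x + h)]
      simp [h0]

lemma AC3S_first (x h : ℝ) (h0 : 0 ≤ h) : |AC3S (x + h) - AC3S x| ≤ 4 * h := by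
  obtain ⟨h1, h2⟩ := AC3c_lip x h h0
  have a0 := AC3c_nonneg x
  have a1 := AC3c_le x
  have b0 := AC3c_nonneg (x + h)
  have b1 := AC3c_le (x + h)
  unfold AC3S
  set c := AC3c x
  set d := AC3c (x + h)
  have e : 3 * d ^ 2 - 2 * d ^ 3 - (3 * c ^ 2 - 2 * c ^ 3)
      = (d - c) * (3 * (c + d) - 2 * (c ^ 2 + c * d + d ^ 2)) := by ring
  rw [e, abs_mul, abs_of_nonneg h1]
  have h3 : |3 * (c + d) - 2 * (c ^ 2 + c * d + d ^ 2)| ≤ 4 := by
    rw [abs_le]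
    constructor
    · nlinarith [mul_nonneg a0 b0, mul_nonneg a0 (sub_nonneg.2 a1), mul_nonneg b0 (sub_nonneg.2 b1),
        mul_nonneg a0 (sub_nonneg.2 b1), mul_nonneg b0 (sub_nonneg.2 a1)]
    · nlinarith [sq_nonneg (c - d), sq_nonneg (c + d - 1)]
  calc (d - c) * |3 * (c + d) - 2 * (c ^ 2 + c * d + d ^ 2)| ≤ h * 4 :=
        mul_le_mul h2 h3 (abs_nonneg _) h0
    _ = 4 * h := by ring

lemma AC3S_second (x h : ℝ) (h0 : 0 < h) :
    |AC3S (x + h) + AC3S (x - h) - 2 * AC3S x| ≤ 16 * h ^ 2 := by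
  rcases le_total (1 / 2) h with hh | hh
  · obtain ⟨p1, p2⟩ := AC3S_bd (x + h)
    obtain ⟨q1, q2⟩ := AC3S_bd (x - h)
    obtain ⟨r1, r2⟩ := AC3S_bd x
    have : (1 : ℝ) / 4 ≤ h ^ 2 := by nlinarith
    rw [abs_le]; constructor <;> linarith
  · -- small h
    rcases le_total (x + h) 0 with c1 | c1
    · rw [AC3S_of_le c1, AC3S_of_le (by linarith : x - h ≤ 0), AC3S_of_le (by linarith : x ≤ 0)]
      simp; positivity
    rcases le_total 1 (x - h) with c2 | c2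
    · rw [AC3S_of_ge c2, AC3S_of_ge (by linarith : 1 ≤ x + h), AC3S_of_ge (by linarith : 1 ≤ x)]
      norm_num; positivity
    rcases le_total (x - h) 0 with c3 | c3
    · rw [AC3S_of_le c3, AC3S_mid c1 (by linarith)]
      rcases le_total x 0 with c4 | c4
      · rw [AC3S_of_le c4, abs_le]
        have : (x + h) ^ 2 ≤ h ^ 2 := by nlinarith
        have h3 : 0 ≤ (x + h) ^ 3 := by positivity
        have h4 : (x + h) ^ 3 ≤ (x + h) ^ 2 := by nlinarith [sq_nonneg (x + h)]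
        constructor <;> nlinarith [sq_nonneg (x + h)]
      · rw [AC3S_mid c4 (by linarith)]
        have e : 3 * (x + h) ^ 2 - 2 * (x + h) ^ 3 + 0 - 2 * (3 * x ^ 2 - 2 * x ^ 3)
          = (6 - 12 * x) * h ^ 2 - (3 * (h - x) ^ 2 + 2 * (h - x) ^ 3) := by ring
        rw [e]
        have y0 : 0 ≤ h - x := by linarith
        have y1 : h - x ≤ h := by linarith
        have y2 : (h - x) ^ 2 ≤ h ^ 2 := by nlinarith
        have y3 : (h - x) ^ 3 ≤ h ^ 2 := by nlinarith [sq_nonneg (h - x)]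
        have y4 : 0 ≤ (h - x) ^ 3 := by positivity
        have y5 : 0 ≤ (h - x) ^ 2 := by positivity
        have y6 : (6 - 12 * x) * h ^ 2 ≤ 6 * h ^ 2 := by nlinarith [sq_nonneg h]
        have y7 : -6 * h ^ 2 ≤ (6 - 12 * x) * h ^ 2 := by
          have : x ≤ 1 := by linarith
          nlinarith [sq_nonneg h]
        rw [abs_le]; constructor <;> nlinarith
    rcases le_total (x + h) 1 with c4 | c4
    · rw [AC3S_mid c1 c4, AC3S_mid c3 c2, AC3S_mid (by linarith : 0 ≤ x) (by linarith : x ≤ 1)]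
      have e : 3 * (x + h) ^ 2 - 2 * (x + h) ^ 3 + (3 * (x - h) ^ 2 - 2 * (x - h) ^ 3)
          - 2 * (3 * x ^ 2 - 2 * x ^ 3) = (6 - 12 * x) * h ^ 2 := by ring
      rw [e, abs_mul, abs_of_nonneg (sq_nonneg h)]
      refine mul_le_mul_of_nonneg_right ?_ (sq_nonneg h)
      rw [abs_le]; constructor <;> linarith
    · rw [AC3S_of_ge c4, AC3S_mid c3 c2]
      rcases le_total 1 x with c5 | c5
      · rw [AC3S_of_ge c5]
        have e : 1 + (3 * (x - h) ^ 2 - 2 * (x - h) ^ 3) - 2 * 1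
          = -(3 * (1 - (x - h)) ^ 2 - 2 * (1 - (x - h)) ^ 3) := by ring
        rw [e, abs_neg]
        have y0 : 0 ≤ 1 - (x - h) := by linarith
        have y1 : 1 - (x - h) ≤ h := by linarith
        set y := 1 - (x - h)
        have y2 : y ^ 2 ≤ h ^ 2 := by nlinarith
        have y3 : 0 ≤ y ^ 3 := by positivity
        have y4 : y ^ 3 ≤ y ^ 2 := by nlinarith [sq_nonneg y]
        rw [abs_le]; constructor <;> nlinarith [sq_nonneg y]
      · rw [AC3S_mid (by linarith) c5]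
        have e : 1 + (3 * (x - h) ^ 2 - 2 * (x - h) ^ 3) - 2 * (3 * x ^ 2 - 2 * x ^ 3)
          = (6 - 12 * x) * h ^ 2 + (3 * (x + h - 1) ^ 2 + 2 * (x + h - 1) ^ 3) := by ring
        rw [e]
        have y0 : 0 ≤ x + h - 1 := by linarith
        have y1 : x + h - 1 ≤ h := by linarith
        set y := x + h - 1
        have y2 : y ^ 2 ≤ h ^ 2 := by nlinarith
        have y3 : y ^ 3 ≤ h ^ 2 := by nlinarith [sq_nonneg y]
        have y4 : 0 ≤ y ^ 3 := by positivity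
        have y5 : 0 ≤ y ^ 2 := by positivity
        have y6 : (6 - 12 * x) * h ^ 2 ≤ 6 * h ^ 2 := by nlinarith [sq_nonneg h]
        have y7 : -6 * h ^ 2 ≤ (6 - 12 * x) * h ^ 2 := by nlinarith [sq_nonneg h]
        rw [abs_le]; constructor <;> nlinarith

theorem ramp : ∃ ϑ : ℕ → ℤ → ℝ, ∀ r : ℕ, 1 ≤ r → (∀ t, 0 ≤ ϑ r t ∧ ϑ r t ≤ 1) ∧
    (∀ t ≤ 0, ϑ r t = 0) ∧ (∀ t, (r : ℤ) ≤ t → ϑ r t = 1) ∧
    (∀ t, |ϑ r (t + 1) - ϑ r t| ≤ 4 / r) ∧
    (∀ t, |ϑ r (t + 1) + ϑ r (t - 1) - 2 * ϑ r t| ≤ 16 / (r : ℝ) ^ 2) := by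
  refine ⟨fun r t => AC3S ((t : ℝ) / r), fun r hr => ?_⟩
  have hr0 : (0 : ℝ) < r := by exact_mod_cast hr
  have hr1 : (1 : ℝ) ≤ r := by exact_mod_cast hr
  refine ⟨fun t => AC3S_bd _, fun t ht => ?_, fun t ht => ?_, fun t => ?_, fun t => ?_⟩
  · apply AC3S_of_le
    have : (t : ℝ) ≤ 0 := by exact_mod_cast ht
    exact div_nonpos_of_nonpos_of_nonneg this hr0.le
  · apply AC3S_of_ge
    have : (r : ℝ) ≤ t := by exact_mod_cast ht
    rwa [one_le_div hr0]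
  · have e : ((t + 1 : ℤ) : ℝ) / r = (t : ℝ) / r + 1 / r := by push_cast; ring
    have := AC3S_first ((t : ℝ) / r) (1 / r) (by positivity)
    simp only [e]
    calc _ ≤ 4 * (1 / (r : ℝ)) := this
      _ = 4 / r := by ring
  · have e : ((t + 1 : ℤ) : ℝ) / r = (t : ℝ) / r + 1 / r := by push_cast; ring
    have e' : ((t - 1 : ℤ) : ℝ) / r = (t : ℝ) / r - 1 / r := by push_cast; ring
    have := AC3S_second ((t : ℝ) / r) (1 / r) (by positivity)
    simp only [e, e']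
    calc _ ≤ 16 * (1 / (r : ℝ)) ^ 2 := this
      _ = 16 / (r : ℝ) ^ 2 := by ring

/-- one dimensional bump -/
lemma AC3_bump (ρ : ℕ) (hρ : 1 ≤ ρ) (α β : ℤ) (h : α + 2 * ρ ≤ β) :
    ∃ F : ℤ → ℝ, (∀ t, 0 ≤ F t ∧ F t ≤ 1) ∧ (∀ t, t ≤ α ∨ β ≤ t → F t = 0) ∧
      (∀ t, α + ρ ≤ t → t + ρ ≤ β → F t = 1) ∧ (∀ t, |F (t + 1) - F t| ≤ 8 / ρ) ∧
      (∀ t, |F (t + 1) + F (t - 1) - 2 * F t| ≤ 32 / (ρ : ℝ) ^ 2) := by
  obtain ⟨ϑ, hϑ⟩ := ramp
  obtain ⟨hb, h0, h1, hd, hs⟩ := hϑ ρ hρ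
  have key : ∀ t, ϑ ρ (t - α) * ϑ ρ (β - t) = ϑ ρ (t - α) + ϑ ρ (β - t) - 1 := by
    intro t
    rcases le_total (ρ : ℤ) (t - α) with hc | hc
    · rw [h1 _ hc]; ring
    · rw [h1 (β - t) (by omega)]; ring
  refine ⟨fun t => ϑ ρ (t - α) * ϑ ρ (β - t), fun t => ?_, fun t ht => ?_, fun t ht1 ht2 => ?_,
    fun t => ?_, fun t => ?_⟩
  · exact ⟨mul_nonneg (hb _).1 (hb _).1, mul_le_one₀ (hb _).2 (hb _).1 (hb _).2⟩
  · rcases ht with ht | ht
    · simp only [h0 (t - α) (by omega), zero_mul]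
    · simp only [h0 (β - t) (by omega), mul_zero]
  · simp only [h1 (t - α) (by omega), h1 (β - t) (by omega), mul_one]
  · simp only [key]
    have e1 := hd (t - α)
    have e2 := hd (β - (t + 1))
    have e3 : t + 1 - α = t - α + 1 := by ring
    have e4 : β - (t + 1) + 1 = β - t := by ring
    rw [e4] at e2
    rw [e3]
    have e5 : (8 : ℝ) / ρ = 4 / ρ + 4 / ρ := by ring
    rw [e5, abs_le]
    rw [abs_le] at e1 e2
    constructor <;> linarith [e1.1, e1.2, e2.1, e2.2]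
  · simp only [key]
    have e1 := hs (t - α)
    have e2 := hs (β - t)
    have e3 : t + 1 - α = t - α + 1 := by ring
    have e4 : t - 1 - α = t - α - 1 := by ring
    have e5 : β - (t + 1) = β - t - 1 := by ring
    have e6 : β - (t - 1) = β - t + 1 := by ring
    rw [e3, e4, e5, e6]
    have e7 : (32 : ℝ) / (ρ : ℝ) ^ 2 = 16 / (ρ : ℝ) ^ 2 + 16 / (ρ : ℝ) ^ 2 := by ring
    rw [e7, abs_le]
    rw [abs_le] at e1 e2
    constructor <;> linarith [e1.1, e1.2, e2.1, e2.2]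

/-- product of two one dimensional functions -/
lemma AC3_two (F G : ℤ → ℝ) (hF : ∀ t, 0 ≤ F t ∧ F t ≤ 1) (hG : ∀ t, 0 ≤ G t ∧ G t ≤ 1) (d s : ℝ)
    (hdF : ∀ t, |F (t + 1) - F t| ≤ d) (hdG : ∀ t, |G (t + 1) - G t| ≤ d)
    (hsF : ∀ t, |F (t + 1) + F (t - 1) - 2 * F t| ≤ s)
    (hsG : ∀ t, |G (t + 1) + G (t - 1) - 2 * G t| ≤ s) :
    (∀ v : V, ∀ w ∈ nb v, |F w.1 * G w.2 - F v.1 * G v.2| ≤ d) ∧
      (∀ v : V, |lap (fun v => F v.1 * G v.2) v| ≤ 2 * s) := by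
  have hd0 : 0 ≤ d := (abs_nonneg _).trans (hdF 0)
  constructor
  · intro v w hw
    have hdF' : |F (v.1 - 1) - F v.1| ≤ d := by
      have := hdF (v.1 - 1)
      rw [sub_add_cancel, abs_sub_comm] at this; exact this
    have hdG' : |G (v.2 - 1) - G v.2| ≤ d := by
      have := hdG (v.2 - 1)
      rw [sub_add_cancel, abs_sub_comm] at this; exact this
    simp only [nb, Finset.mem_insert, Finset.mem_singleton] at hw
    have aux : ∀ x y : ℝ, |x| ≤ d → 0 ≤ y ∧ y ≤ 1 → |x * y| ≤ d := by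
      intro x y hx hy
      rw [abs_mul, abs_of_nonneg hy.1]
      calc |x| * y ≤ d * 1 := mul_le_mul hx hy.2 hy.1 hd0
        _ = d := mul_one _
    rcases hw with rfl | rfl | rfl | rfl
    · have e : F (v.1 + 1) * G v.2 - F v.1 * G v.2 = (F (v.1 + 1) - F v.1) * G v.2 := by ring
      simp only [e]; exact aux _ _ (hdF _) (hG _)
    · have e : F (v.1 - 1) * G v.2 - F v.1 * G v.2 = (F (v.1 - 1) - F v.1) * G v.2 := by ring
      simp only [e]; exact aux _ _ hdF' (hG _)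
    · have e : F v.1 * G (v.2 + 1) - F v.1 * G v.2 = (G (v.2 + 1) - G v.2) * F v.1 := by ring
      simp only [e]; exact aux _ _ (hdG _) (hF _)
    · have e : F v.1 * G (v.2 - 1) - F v.1 * G v.2 = (G (v.2 - 1) - G v.2) * F v.1 := by ring
      simp only [e]; exact aux _ _ hdG' (hF _)
  · intro v
    have hs0 : 0 ≤ s := (abs_nonneg _).trans (hsF 0)
    have e : lap (fun v : V => F v.1 * G v.2) v
        = -((F (v.1 + 1) + F (v.1 - 1) - 2 * F v.1) * G v.2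
          + (G (v.2 + 1) + G (v.2 - 1) - 2 * G v.2) * F v.1) := by
      unfold lap; ring
    rw [e, abs_neg]
    have aux : ∀ x y : ℝ, |x| ≤ s → 0 ≤ y ∧ y ≤ 1 → |x * y| ≤ s := by
      intro x y hx hy
      rw [abs_mul, abs_of_nonneg hy.1]
      calc |x| * y ≤ s * 1 := mul_le_mul hx hy.2 hy.1 hs0
        _ = s := mul_one _
    refine (abs_add_le _ _).trans ?_
    have := aux _ _ (hsF v.1) (hG v.2)
    have := aux _ _ (hsG v.2) (hF v.1)
    linarith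

/-- cutoff near the complement of a rectangle -/
theorem box_cut (a b : V) (r : ℕ) (hr : 1 ≤ r) (h1 : a.1 + 4 * r ≤ b.1) (h2 : a.2 + 4 * r ≤ b.2) :
    ∃ χ : V → ℝ, (∀ v, 0 ≤ χ v ∧ χ v ≤ 1) ∧
      (∀ v, ¬ ball v r ⊆ Finset.Icc a.1 b.1 ×ˢ Finset.Icc a.2 b.2 → χ v = 1) ∧
      (∀ v, ball v (2 * r) ⊆ Finset.Icc a.1 b.1 ×ˢ Finset.Icc a.2 b.2 → χ v = 0) ∧
      (∀ v, ∀ w ∈ nb v, |χ w - χ v| ≤ 8 / r) ∧ (∀ v, |lap χ v| ≤ 64 / (r : ℝ) ^ 2) := by
  obtain ⟨F, hF, hF0, hF1, hFd, hFs⟩ := AC3_bump r hr (a.1 + r) (b.1 - r) (by omega)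
  obtain ⟨G, hG, hG0, hG1, hGd, hGs⟩ := AC3_bump r hr (a.2 + r) (b.2 - r) (by omega)
  obtain ⟨hd, hs⟩ := AC3_two F G hF hG _ _ hFd hGd hFs hGs
  refine ⟨fun v => 1 - F v.1 * G v.2, fun v => ⟨?_, ?_⟩, fun v hv => ?_, fun v hv => ?_,
    fun v w hw => ?_, fun v => ?_⟩
  · have : F v.1 * G v.2 ≤ 1 := mul_le_one₀ (hF _).2 (hG _).1 (hG _).2
    linarith
  · have : 0 ≤ F v.1 * G v.2 := mul_nonneg (hF _).1 (hG _).1
    linarith
  · by_cases c1 : v.1 ≤ a.1 + r ∨ b.1 - r ≤ v.1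
    · simp only [hF0 v.1 c1, zero_mul, sub_zero]
    by_cases c2 : v.2 ≤ a.2 + r ∨ b.2 - r ≤ v.2
    · simp only [hG0 v.2 c2, mul_zero, sub_zero]
    exfalso
    apply hv
    intro w hw
    rw [mem_ball] at hw
    simp only [Finset.mem_product, Finset.mem_Icc]
    omega
  · have m1 : ((v.1 - (2 * r : ℕ), v.2 - (2 * r : ℕ)) : V) ∈ ball v (2 * r) := by
      rw [mem_ball]; simp only; omega
    have m2 : ((v.1 + (2 * r : ℕ), v.2 + (2 * r : ℕ)) : V) ∈ ball v (2 * r) := by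
      rw [mem_ball]; simp only; omega
    have n1 := hv m1
    have n2 := hv m2
    simp only [Finset.mem_product, Finset.mem_Icc] at n1 n2
    push_cast at n1 n2
    simp only [hF1 v.1 (by omega) (by omega), hG1 v.2 (by omega) (by omega), mul_one, sub_self]
  · have := hd v w hw
    have e : 1 - F w.1 * G w.2 - (1 - F v.1 * G v.2) = -(F w.1 * G w.2 - F v.1 * G v.2) := by ring
    simp only [e, abs_neg]; exact this
  · have e : lap (fun v : V => 1 - F v.1 * G v.2) v = -lap (fun v : V => F v.1 * G v.2) v := by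
      unfold lap; ring
    rw [e, abs_neg]
    refine (hs v).trans (le_of_eq ?_)
    ring

/-- cutoff around a cell -/
theorem cell_cut (c : V) (r : ℕ) (hr : 1 ≤ r) :
    ∃ χ : V → ℝ, (∀ v, 0 ≤ χ v ∧ χ v ≤ 1) ∧ (∀ v ∈ ball c (2 * r), χ v = 1) ∧
      (∀ v ∉ ball c (4 * r - 1), χ v = 0) ∧
      (∀ v, ∀ w ∈ nb v, |χ w - χ v| ≤ 8 / r) ∧ (∀ v, |lap χ v| ≤ 64 / (r : ℝ) ^ 2) := by
  obtain ⟨F, hF, hF0, hF1, hFd, hFs⟩ := AC3_bump (2 * r) (by omega) (c.1 - 4 * r) (c.1 + 4 * r)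
    (by push_cast; omega)
  obtain ⟨G, hG, hG0, hG1, hGd, hGs⟩ := AC3_bump (2 * r) (by omega) (c.2 - 4 * r) (c.2 + 4 * r)
    (by push_cast; omega)
  obtain ⟨hd, hs⟩ := AC3_two F G hF hG _ _ hFd hGd hFs hGs
  have hr0 : (0 : ℝ) < r := by exact_mod_cast hr
  refine ⟨fun v => F v.1 * G v.2, fun v => ⟨?_, ?_⟩, fun v hv => ?_, fun v hv => ?_,
    fun v w hw => ?_, fun v => ?_⟩
  · exact mul_nonneg (hF _).1 (hG _).1
  · exact mul_le_one₀ (hF _).2 (hG _).1 (hG _).2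
  · rw [mem_ball] at hv
    push_cast at hv
    simp only [hF1 v.1 (by push_cast; omega) (by push_cast; omega),
      hG1 v.2 (by push_cast; omega) (by push_cast; omega), mul_one]
  · by_cases c1 : v.1 ≤ c.1 - 4 * r ∨ c.1 + 4 * r ≤ v.1
    · simp only [hF0 v.1 c1, zero_mul]
    by_cases c2 : v.2 ≤ c.2 - 4 * r ∨ c.2 + 4 * r ≤ v.2
    · simp only [hG0 v.2 c2, mul_zero]
    exfalso
    apply hv
    rw [mem_ball]
    omega
  · refine (hd v w hw).trans ?_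
    push_cast
    rw [div_le_div_iff₀ (by positivity) hr0]
    nlinarith
  · refine (hs v).trans ?_
    push_cast
    rw [mul_div_assoc', div_le_div_iff₀ (by positivity) (by positivity)]
    nlinarith [sq_nonneg (r : ℝ)]

lemma AC3_prod {ι : Type*} (T : Finset ι) (a : ι → ℝ) (ha : ∀ i ∈ T, 0 ≤ a i ∧ a i ≤ 1) :
    ∃ c : ι → ℝ, (∀ i ∈ T, 0 ≤ c i ∧ c i ≤ 1) ∧ (0 ≤ ∏ i ∈ T, a i ∧ ∏ i ∈ T, a i ≤ 1) ∧
      ∀ b : ι → ℝ, (∀ i ∈ T, 0 ≤ b i ∧ b i ≤ 1) →
      |∏ i ∈ T, b i - ∏ i ∈ T, a i| ≤ ∑ i ∈ T, |b i - a i| ∧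
      |∏ i ∈ T, b i - ∏ i ∈ T, a i - ∑ i ∈ T, c i * (b i - a i)| ≤
        (∑ i ∈ T, |b i - a i|) ^ 2 / 2 := by
  induction T using Finset.induction_on with
  | empty => exact ⟨fun _ => 0, by simp, by simp, by simp⟩
  | insert k T hk ih =>
    obtain ⟨c, hc, ⟨hA0, hA1⟩, hb⟩ := ih (fun i hi => ha i (Finset.mem_insert_of_mem hi))
    have hak := ha k (Finset.mem_insert_self _ _)
    refine ⟨fun i => if i = k then ∏ j ∈ T, a j else a k * c i, ?_, ?_, ?_⟩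
    · intro i hi
      by_cases hik : i = k
      · simp only [hik, if_true]; exact ⟨hA0, hA1⟩
      · simp only [hik, if_false]
        have hi' : i ∈ T := by
          rcases Finset.mem_insert.1 hi with h | h
          · exact absurd h hik
          · exact h
        exact ⟨mul_nonneg hak.1 (hc i hi').1, mul_le_one₀ hak.2 (hc i hi').1 (hc i hi').2⟩
    · rw [Finset.prod_insert hk]
      exact ⟨mul_nonneg hak.1 hA0, mul_le_one₀ hak.2 hA0 hA1⟩
    · intro b hb'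
      obtain ⟨i1, i2⟩ := hb b (fun i hi => hb' i (Finset.mem_insert_of_mem hi))
      have hbk := hb' k (Finset.mem_insert_self _ _)
      rw [Finset.prod_insert hk, Finset.prod_insert hk, Finset.sum_insert hk, Finset.sum_insert hk]
      beta_reduce
      have e1 : ∑ i ∈ T, (if i = k then ∏ j ∈ T, a j else a k * c i) * (b i - a i)
          = a k * ∑ i ∈ T, c i * (b i - a i) := by
        rw [Finset.mul_sum]
        refine Finset.sum_congr rfl fun i hi => ?_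
        have : i ≠ k := fun h => hk (h ▸ hi)
        rw [if_neg this]; ring
      rw [if_pos rfl, e1]
      set A := ∏ i ∈ T, a i
      set B := ∏ i ∈ T, b i
      set L := ∑ i ∈ T, c i * (b i - a i)
      set S := ∑ i ∈ T, |b i - a i|
      have hS0 : 0 ≤ S := Finset.sum_nonneg fun i _ => abs_nonneg _
      constructor
      · have e2 : b k * B - a k * A = b k * (B - A) + (b k - a k) * A := by ring
        rw [e2]
        refine (abs_add_le _ _).trans ?_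
        rw [abs_mul, abs_mul, abs_of_nonneg hbk.1, abs_of_nonneg hA0]
        have p1 : b k * |B - A| ≤ 1 * S := mul_le_mul hbk.2 i1 (abs_nonneg _) zero_le_one
        have p2 : |b k - a k| * A ≤ |b k - a k| * 1 :=
          mul_le_mul_of_nonneg_left hA1 (abs_nonneg _)
        linarith
      · have e2 : b k * B - a k * A - (A * (b k - a k) + a k * L)
            = a k * (B - A - L) + (b k - a k) * (B - A) := by ring
        rw [e2]
        refine (abs_add_le _ _).trans ?_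
        rw [abs_mul, abs_mul, abs_of_nonneg hak.1]
        have p1 : a k * |B - A - L| ≤ 1 * (S ^ 2 / 2) :=
          mul_le_mul hak.2 i2 (abs_nonneg _) zero_le_one
        have p2 : |b k - a k| * |B - A| ≤ |b k - a k| * S :=
          mul_le_mul_of_nonneg_left i1 (abs_nonneg _)
        nlinarith [sq_nonneg (|b k - a k|)]

/-- products of cutoffs -/
theorem prod_cut {ι : Type*} (T : Finset ι) (f : ι → V → ℝ) (hf : ∀ i ∈ T, ∀ v, 0 ≤ f i v ∧ f i v ≤ 1)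
    (v : V) (a : ι → ℝ) (ha : ∀ i ∈ T, ∀ w ∈ nb v, |f i w - f i v| ≤ a i) :
    (∀ w ∈ nb v, |∏ i ∈ T, f i w - ∏ i ∈ T, f i v| ≤ ∑ i ∈ T, a i) ∧
      |lap (fun v => ∏ i ∈ T, f i v) v| ≤ ∑ i ∈ T, |lap (f i) v| + 2 * (∑ i ∈ T, a i) ^ 2 := by
  obtain ⟨c, hc, -, hb⟩ := AC3_prod T (fun i => f i v) (fun i hi => hf i hi v)
  have hsum : ∀ w ∈ nb v, ∑ i ∈ T, |f i w - f i v| ≤ ∑ i ∈ T, a i := fun w hw =>
    Finset.sum_le_sum fun i hi => ha i hi w hw
  have hsum0 : ∀ w : V, 0 ≤ ∑ i ∈ T, |f i w - f i v| := fun w =>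
    Finset.sum_nonneg fun i _ => abs_nonneg _
  refine ⟨fun w hw => ?_, ?_⟩
  · exact ((hb (fun i => f i w) (fun i hi => hf i hi w)).1).trans (hsum w hw)
  · have hE : ∀ w ∈ nb v, |∏ i ∈ T, f i w - ∏ i ∈ T, f i v - ∑ i ∈ T, c i * (f i w - f i v)|
        ≤ (∑ i ∈ T, a i) ^ 2 / 2 := fun w hw =>
      ((hb (fun i => f i w) (fun i hi => hf i hi w)).2).trans (by
        have := pow_le_pow_left₀ (hsum0 w) (hsum w hw) 2
        linarith)
    have m1 : ((v.1 + 1, v.2) : V) ∈ nb v := by simp [nb]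
    have m2 : ((v.1 - 1, v.2) : V) ∈ nb v := by simp [nb]
    have m3 : ((v.1, v.2 + 1) : V) ∈ nb v := by simp [nb]
    have m4 : ((v.1, v.2 - 1) : V) ∈ nb v := by simp [nb]
    have E1 := hE _ m1
    have E2 := hE _ m2
    have E3 := hE _ m3
    have E4 := hE _ m4
    have hL : ∑ i ∈ T, c i * lap (f i) v
        = -(∑ i ∈ T, c i * (f i (v.1 + 1, v.2) - f i v) + ∑ i ∈ T, c i * (f i (v.1 - 1, v.2) - f i v)
          + ∑ i ∈ T, c i * (f i (v.1, v.2 + 1) - f i v)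
          + ∑ i ∈ T, c i * (f i (v.1, v.2 - 1) - f i v)) := by
      rw [← Finset.sum_add_distrib, ← Finset.sum_add_distrib, ← Finset.sum_add_distrib,
        ← Finset.sum_neg_distrib]
      refine Finset.sum_congr rfl fun i _ => ?_
      unfold lap; ring
    have hLb : |∑ i ∈ T, c i * lap (f i) v| ≤ ∑ i ∈ T, |lap (f i) v| := by
      refine (Finset.abs_sum_le_sum_abs _ _).trans (Finset.sum_le_sum fun i hi => ?_)
      rw [abs_mul, abs_of_nonneg (hc i hi).1]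
      exact mul_le_of_le_one_left (abs_nonneg _) (hc i hi).2
    have hlap : lap (fun v => ∏ i ∈ T, f i v) v
        = 4 * ∏ i ∈ T, f i v - (∏ i ∈ T, f i (v.1 + 1, v.2) + ∏ i ∈ T, f i (v.1 - 1, v.2)
          + ∏ i ∈ T, f i (v.1, v.2 + 1) + ∏ i ∈ T, f i (v.1, v.2 - 1)) := rfl
    rw [hlap]
    rw [abs_le] at E1 E2 E3 E4 hLb ⊢
    constructor <;> linarith [E1.1, E1.2, E2.1, E2.2, E3.1, E3.2, E4.1, E4.2, hLb.1, hLb.2]

end Pool.H92.GFL
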