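import Pool.Agent.helper92.GFL.Defs2
import Pool.Agent.helper92.GFL.K6

namespace Pool.H92.GFL

open Function Finset MeasureTheory ProbabilityTheory Pool.H92.GFF
open scoped Classical ENNReal

lemma ac5_step : ∃ C : ℝ, 0 < C ∧ ∀ (N L : ℕ), N ≤ 2 ^ L → ∀ (E : Finset V), E ⊆ inn N →
    ∀ (u : V → ℝ) (s : ℝ), (∀ v ∉ inn N, u v = 0) → (∀ v ∈ inn N, v ∉ E → lap u v = 0) →
    (∀ y ∈ inn N, |u y| ≤ s * ((L : ℝ) + 2 - Nat.log 2 (rad (inn N \ E) y))) →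
    ∀ (v : V), v ∈ inn N → v ∉ E → 0 ≤ s ∧ 4 ≤ (L : ℝ) + 4 - Nat.log 2 (rad (inn N \ E) v) ∧
    ∀ e ∈ nb (0 : V), |u (v + e) - u v| ≤
      C * s * (((L : ℝ) + 4 - Nat.log 2 (rad (inn N \ E) v)) / rad (inn N \ E) v) := by
  obtain ⟨Cg, hCg, hgrad⟩ := harm_grad
  refine ⟨96 + 32 * Cg, by positivity, ?_⟩
  intro N L hNL E hE u s hu0 hlap hlog v hv hvE
  set W := inn N \ E with hW
  set ρ := rad W v with hρ
  have hvW : v ∈ W := by rw [hW, Finset.mem_sdiff]; exact ⟨hv, hvE⟩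
  have hρ1 : 1 ≤ ρ := rad_pos.2 hvW
  have hball : ball v (ρ - 1) ⊆ W := lt_rad.1 (by omega)
  have hρN : ρ ≤ N := by
    have h1 : (v.1 + ((ρ - 1 : ℕ) : ℤ), v.2) ∈ W := hball (by rw [mem_ball]; simp only; omega)
    have h2 : (v.1 - ((ρ - 1 : ℕ) : ℤ), v.2) ∈ W := hball (by rw [mem_ball]; simp only; omega)
    have h3 := (Finset.mem_sdiff.1 h1).1
    have h4 := (Finset.mem_sdiff.1 h2).1
    rw [mem_inn] at h3 h4
    simp only at h3 h4
    omega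
  have hlogL : Nat.log 2 ρ ≤ L := by
    calc Nat.log 2 ρ ≤ Nat.log 2 (2 ^ L) := Nat.log_mono_right (hρN.trans hNL)
      _ = L := Nat.log_pow (by norm_num) L
  have hlogL' : (Nat.log 2 ρ : ℝ) ≤ L := by exact_mod_cast hlogL
  have hs : 0 ≤ s := by
    have h1 := (abs_nonneg _).trans (hlog v hv)
    by_contra hcon
    push Not at hcon
    have h2 : (0 : ℝ) < (L : ℝ) + 2 - Nat.log 2 (rad W v) := by
      rw [← hρ]; linarith
    nlinarith
  refine ⟨hs, by linarith, fun e he => ?_⟩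
  have hρr : (1 : ℝ) ≤ ρ := by exact_mod_cast hρ1
  set ℓ : ℝ := (L : ℝ) + 4 - Nat.log 2 ρ with hℓ
  have hℓ4 : 4 ≤ ℓ := by rw [hℓ]; linarith
  have huv : |u v| ≤ s * ℓ := by
    refine (hlog v hv).trans (mul_le_mul_of_nonneg_left ?_ hs)
    rw [hℓ]; rw [← hρ]; linarith
  have hsl : 0 ≤ s * (ℓ / ρ) := by positivity
  by_cases hcase : ρ < 32
  · have hlog4 : Nat.log 2 ρ ≤ 4 := by
      have : Nat.log 2 ρ < 5 := Nat.log_lt_of_lt_pow (by omega) (by norm_num; omega)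
      omega
    have hlog4' : (Nat.log 2 ρ : ℝ) ≤ 4 := by exact_mod_cast hlog4
    have huw : |u (v + e)| ≤ s * (2 * ℓ) := by
      by_cases hw : v + e ∈ inn N
      · refine (hlog _ hw).trans (mul_le_mul_of_nonneg_left ?_ hs)
        have : (0 : ℝ) ≤ Nat.log 2 (rad W (v + e)) := by positivity
        rw [hℓ]; linarith
      · rw [hu0 _ hw, abs_zero]; positivity
    have h3 : |u (v + e) - u v| ≤ s * (3 * ℓ) := by
      refine (abs_sub _ _).trans ?_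
      linarith
    refine h3.trans ?_
    have hρ32 : (ρ : ℝ) ≤ 32 := by exact_mod_cast hcase.le
    have h4 : s * (3 * ℓ) ≤ 96 * (s * (ℓ / ρ)) := by
      have h5 : ℓ ≤ 32 * (ℓ / ρ) := by
        rw [mul_div_assoc', le_div_iff₀ (by linarith)]
        nlinarith
      have h6 := mul_le_mul_of_nonneg_left h5 hs
      linarith
    have h7 : 0 ≤ 32 * Cg * (s * (ℓ / ρ)) := by positivity
    calc s * (3 * ℓ) ≤ 96 * (s * (ℓ / ρ)) := h4
      _ ≤ (96 + 32 * Cg) * (s * (ℓ / ρ)) := by linarith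
      _ = (96 + 32 * Cg) * s * (ℓ / ρ) := by ring
  · push Not at hcase
    set j := Nat.log 2 ((ρ - 1) / 8) with hj
    have hj1 : 2 ^ j ≤ (ρ - 1) / 8 := Nat.pow_log_le_self 2 (by omega)
    have hj2 : (ρ - 1) / 8 < 2 ^ (j + 1) := Nat.lt_pow_succ_log_self (by norm_num) _
    have hj3 : 8 * 2 ^ j ≤ ρ - 1 := by omega
    have hj4 : ρ - 1 < 16 * 2 ^ j := by
      rw [pow_succ] at hj2; omega
    have hsub : ball v (4 * 2 ^ j) ⊆ W := (ball_mono (by omega)).trans hball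
    have hg := hgrad j v u (s * ℓ) (fun w hw => by
      have := hsub hw
      rw [hW, Finset.mem_sdiff] at this
      exact hlap w this.1 this.2) (fun w hw => by
      have hwW := hsub hw
      have hwI : w ∈ inn N := by rw [hW, Finset.mem_sdiff] at hwW; exact hwW.1
      refine (hlog w hwI).trans (mul_le_mul_of_nonneg_left ?_ hs)
      have h1 : ball w (ρ - 1 - 4 * 2 ^ j) ⊆ W := by
        refine subset_trans (fun z hz => ?_) hball
        have := mem_ball_trans hw hz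
        refine ball_mono (by omega) this
      have h2 : ρ - 1 - 4 * 2 ^ j < rad W w := lt_rad.2 h1
      have h3 : ρ ≤ 2 * rad W w := by omega
      have h4 : Nat.log 2 ρ ≤ Nat.log 2 (rad W w) + 1 := by
        calc Nat.log 2 ρ ≤ Nat.log 2 (2 * rad W w) := Nat.log_mono_right h3
          _ = Nat.log 2 (rad W w) + 1 := by
            rw [mul_comm]; exact Nat.log_mul_base (by norm_num) (by omega)
      have h5 : (Nat.log 2 ρ : ℝ) ≤ Nat.log 2 (rad W w) + 1 := by exact_mod_cast h4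
      rw [hℓ]; linarith) e he
    refine hg.trans ?_
    have h2j : (0 : ℝ) < 2 ^ j := by positivity
    have h6 : (ρ : ℝ) ≤ 32 * 2 ^ j := by
      have : ρ ≤ 32 * 2 ^ j := by omega
      exact_mod_cast this
    have h7 : Cg / 2 ^ j ≤ 32 * Cg / ρ := by
      rw [div_le_div_iff₀ h2j (by linarith)]
      nlinarith
    calc Cg / 2 ^ j * (s * ℓ) ≤ 32 * Cg / ρ * (s * ℓ) :=
          mul_le_mul_of_nonneg_right h7 (by positivity)
      _ = 32 * Cg * (s * (ℓ / ρ)) := by ring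
      _ ≤ (96 + 32 * Cg) * (s * (ℓ / ρ)) := by linarith
      _ = (96 + 32 * Cg) * s * (ℓ / ρ) := by ring

theorem lap_mul_bound : ∃ C : ℝ, 0 < C ∧ ∀ (N L : ℕ), N ≤ 2 ^ L → ∀ (E : Finset V), E ⊆ inn N →
    ∀ (u : V → ℝ) (s : ℝ), (∀ v ∉ inn N, u v = 0) → (∀ v ∈ inn N, v ∉ E → lap u v = 0) →
    (∀ y ∈ inn N, |u y| ≤ s * ((L : ℝ) + 2 - Nat.log 2 (rad (inn N \ E) y))) →
    ∀ (Ψ : V → ℝ) (v : V) (a A : ℝ), v ∈ inn N → v ∉ E → 0 ≤ a → 0 ≤ A →
    a * rad (inn N \ E) v ≤ A → (∀ w ∈ nb v, |Ψ w - Ψ v| ≤ a) → |lap Ψ v| ≤ a ^ 2 →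
    |lap (fun v => Ψ v * u v) v| ≤
      C * (1 + A) * s * a * (((L : ℝ) + 4 - Nat.log 2 (rad (inn N \ E) v)) / rad (inn N \ E) v) := by
  obtain ⟨C', hC', hstep⟩ := ac5_step
  refine ⟨1 + 4 * C', by positivity, ?_⟩
  intro N L hNL E hE u s hu0 hlap hlog Ψ v a A hv hvE ha hA haA hΨ hlapΨ
  obtain ⟨hs, hℓ4, hst⟩ := hstep N L hNL E hE u s hu0 hlap hlog v hv hvE
  have hlogv := hlog v hv
  have hρ1 : 1 ≤ rad (inn N \ E) v := rad_pos.2 (by rw [Finset.mem_sdiff]; exact ⟨hv, hvE⟩)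
  set ρ := rad (inn N \ E) v with hρ
  set ℓ : ℝ := (L : ℝ) + 4 - Nat.log 2 ρ with hℓ
  have hρr : (1 : ℝ) ≤ ρ := by exact_mod_cast hρ1
  have hid : lap (fun v => Ψ v * u v) v = u v * lap Ψ v + Ψ v * lap u v
      - ((Ψ (v.1 + 1, v.2) - Ψ v) * (u (v.1 + 1, v.2) - u v)
        + (Ψ (v.1 - 1, v.2) - Ψ v) * (u (v.1 - 1, v.2) - u v)
        + (Ψ (v.1, v.2 + 1) - Ψ v) * (u (v.1, v.2 + 1) - u v)
        + (Ψ (v.1, v.2 - 1) - Ψ v) * (u (v.1, v.2 - 1) - u v)) := by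
    simp only [lap]; ring
  rw [hid, hlap v hv hvE, mul_zero, add_zero]
  have hX : 0 ≤ s * (ℓ / ρ) := by positivity
  have hterm : ∀ w, w ∈ nb v → |(Ψ w - Ψ v) * (u w - u v)| ≤ a * (C' * s * (ℓ / ρ)) := by
    intro w hw
    rw [abs_mul]
    refine mul_le_mul (hΨ w hw) ?_ (abs_nonneg _) ha
    have he : w - v ∈ nb (0 : V) := by
      obtain ⟨p, q⟩ := v
      obtain ⟨c, d⟩ := w
      simp only [nb, Finset.mem_insert, Finset.mem_singleton, Prod.mk.injEq, Prod.mk_sub_mk,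
        Prod.fst_zero, Prod.snd_zero] at hw ⊢
      omega
    have := hst (w - v) he
    rwa [add_sub_cancel] at this
  have hu1 : |u v * lap Ψ v| ≤ A * (s * a * (ℓ / ρ)) := by
    rw [abs_mul]
    have h1 : |u v| ≤ s * ℓ := by
      refine hlogv.trans (mul_le_mul_of_nonneg_left ?_ hs)
      rw [hℓ]; linarith
    have h2 : a ≤ A / ρ := by rw [le_div_iff₀ (by linarith)]; exact haA
    calc |u v| * |lap Ψ v| ≤ (s * ℓ) * a ^ 2 := mul_le_mul h1 hlapΨ (abs_nonneg _) (by positivity)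
      _ = (s * ℓ * a) * a := by ring
      _ ≤ (s * ℓ * a) * (A / ρ) := mul_le_mul_of_nonneg_left h2 (by positivity)
      _ = A * (s * a * (ℓ / ρ)) := by ring
  have t1 := hterm (v.1 + 1, v.2) (by simp [nb])
  have t2 := hterm (v.1 - 1, v.2) (by simp [nb])
  have t3 := hterm (v.1, v.2 + 1) (by simp [nb])
  have t4 := hterm (v.1, v.2 - 1) (by simp [nb])
  have hsum : |(Ψ (v.1 + 1, v.2) - Ψ v) * (u (v.1 + 1, v.2) - u v)
        + (Ψ (v.1 - 1, v.2) - Ψ v) * (u (v.1 - 1, v.2) - u v)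
        + (Ψ (v.1, v.2 + 1) - Ψ v) * (u (v.1, v.2 + 1) - u v)
        + (Ψ (v.1, v.2 - 1) - Ψ v) * (u (v.1, v.2 - 1) - u v)| ≤ 4 * (a * (C' * s * (ℓ / ρ))) := by
    refine (abs_add_le _ _).trans ?_
    have h1 := abs_add_le ((Ψ (v.1 + 1, v.2) - Ψ v) * (u (v.1 + 1, v.2) - u v)
        + (Ψ (v.1 - 1, v.2) - Ψ v) * (u (v.1 - 1, v.2) - u v))
        ((Ψ (v.1, v.2 + 1) - Ψ v) * (u (v.1, v.2 + 1) - u v))
    have h2 := abs_add_le ((Ψ (v.1 + 1, v.2) - Ψ v) * (u (v.1 + 1, v.2) - u v))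
        ((Ψ (v.1 - 1, v.2) - Ψ v) * (u (v.1 - 1, v.2) - u v))
    linarith
  refine (abs_sub _ _).trans ((add_le_add hu1 hsum).trans ?_)
  have hY : 0 ≤ s * a * (ℓ / ρ) := by positivity
  have : (1 + 4 * C') * (1 + A) * s * a * (ℓ / ρ)
      = A * (s * a * (ℓ / ρ)) + 4 * (a * (C' * s * (ℓ / ρ))) + s * a * (ℓ / ρ)
        + 4 * C' * A * (s * a * (ℓ / ρ)) := by ring
  rw [this]
  have h9 : 0 ≤ 4 * C' * A * (s * a * (ℓ / ρ)) := by positivity
  linarith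

end Pool.H92.GFL
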