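import Pool.Agent.helper92.GFL.P4
import Pool.Agent.helper92.GFL.G0

namespace Pool.H92.GFL

open Function Finset MeasureTheory ProbabilityTheory Pool.H92.GFF
open scoped Classical ENNReal

namespace P5m

/-- square of the positive part -/
noncomputable def sqp (u : ℝ) : ℝ := (max u 0) ^ 2

lemma sqp_d2 (u h : ℝ) : |sqp (u + h) + sqp (u - h) - 2 * sqp u| ≤ 2 * h ^ 2 := by
  unfold sqp
  rcases le_total (u + h) 0 with h1 | h1 <;> rcases le_total (u - h) 0 with h2 | h2 <;>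
    rcases le_total u 0 with h3 | h3 <;>
    simp only [max_eq_left, max_eq_right, h1, h2, h3] <;> rw [abs_le] <;> constructor <;> nlinarith

/-- quadratic smooth step -/
noncomputable def sst (u : ℝ) : ℝ := 2 * (sqp u - 2 * sqp (u - 1 / 2) + sqp (u - 1))

lemma sst_neg {u : ℝ} (h : u ≤ 0) : sst u = 0 := by
  unfold sst sqp
  rw [max_eq_right h, max_eq_right (by linarith), max_eq_right (by linarith)]; ring

lemma sst_one {u : ℝ} (h : 1 ≤ u) : sst u = 1 := by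
  unfold sst sqp
  rw [max_eq_left (by linarith), max_eq_left (by linarith), max_eq_left (by linarith)]; ring

lemma sst_mem (u : ℝ) : 0 ≤ sst u ∧ sst u ≤ 1 := by
  rcases le_total u 0 with h0 | h0
  · rw [sst_neg h0]; norm_num
  rcases le_total 1 u with h1 | h1
  · rw [sst_one h1]; norm_num
  unfold sst sqp
  rw [max_eq_left h0, max_eq_right (show u - 1 ≤ 0 by linarith)]
  rcases le_total u (1 / 2) with h2 | h2
  · rw [max_eq_right (show u - 1 / 2 ≤ 0 by linarith)]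
    constructor <;> nlinarith
  · rw [max_eq_left (show 0 ≤ u - 1 / 2 by linarith)]
    constructor <;> nlinarith

lemma sst_d2 (u h : ℝ) : |sst (u + h) + sst (u - h) - 2 * sst u| ≤ 16 * h ^ 2 := by
  have h1 := abs_le.1 (sqp_d2 u h)
  have h2 := abs_le.1 (sqp_d2 (u - 1 / 2) h)
  have h3 := abs_le.1 (sqp_d2 (u - 1) h)
  have e2 : u - 1 / 2 + h = u + h - 1 / 2 := by ring
  have e2' : u - 1 / 2 - h = u - h - 1 / 2 := by ring
  have e3 : u - 1 + h = u + h - 1 := by ring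
  have e3' : u - 1 - h = u - h - 1 := by ring
  rw [e2, e2'] at h2
  rw [e3, e3'] at h3
  unfold sst
  rw [abs_le]
  constructor <;> linarith [h1.1, h1.2, h2.1, h2.2, h3.1, h3.2]

/-- one dimensional cutoff: `1` on `[-n, n]`, `0` off `(-n-r, n+r)` -/
noncomputable def ph (n r x : ℝ) : ℝ := 1 - sst ((x - n) / r) - sst ((-x - n) / r)

lemma ph_one {n r x : ℝ} (hr : 0 < r) (hx : |x| ≤ n) : ph n r x = 1 := by
  rw [abs_le] at hx
  unfold ph
  rw [sst_neg (div_nonpos_of_nonpos_of_nonneg (by linarith) hr.le),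
    sst_neg (div_nonpos_of_nonpos_of_nonneg (by linarith) hr.le)]
  ring

lemma ph_zero {n r x : ℝ} (hr : 0 < r) (hn : 0 ≤ n) (hx : n + r ≤ |x|) : ph n r x = 0 := by
  unfold ph
  rcases le_total 0 x with h | h
  · rw [abs_of_nonneg h] at hx
    rw [sst_one (by rw [le_div_iff₀ hr]; linarith),
      sst_neg (div_nonpos_of_nonpos_of_nonneg (by linarith) hr.le)]
    ring
  · rw [abs_of_nonpos h] at hx
    rw [sst_neg (div_nonpos_of_nonpos_of_nonneg (by linarith) hr.le),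
      sst_one (by rw [le_div_iff₀ hr]; linarith)]
    ring

lemma ph_mem {n r : ℝ} (hr : 0 < r) (hn : 0 ≤ n) (x : ℝ) : 0 ≤ ph n r x ∧ ph n r x ≤ 1 := by
  unfold ph
  rcases le_total 0 x with h | h
  · rw [sst_neg (u := (-x - n) / r) (div_nonpos_of_nonpos_of_nonneg (by linarith) hr.le)]
    constructor <;> linarith [(sst_mem ((x - n) / r)).1, (sst_mem ((x - n) / r)).2]
  · rw [sst_neg (u := (x - n) / r) (div_nonpos_of_nonpos_of_nonneg (by linarith) hr.le)]
    constructor <;> linarith [(sst_mem ((-x - n) / r)).1, (sst_mem ((-x - n) / r)).2]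

lemma ph_d2 {n r : ℝ} (x : ℝ) :
    |ph n r (x + 1) + ph n r (x - 1) - 2 * ph n r x| ≤ 32 / r ^ 2 := by
  have h1 := abs_le.1 (sst_d2 ((x - n) / r) (1 / r))
  have h2 := abs_le.1 (sst_d2 ((-x - n) / r) (1 / r))
  have e1 : (x - n) / r + 1 / r = (x + 1 - n) / r := by ring
  have e1' : (x - n) / r - 1 / r = (x - 1 - n) / r := by ring
  have e2 : (-x - n) / r + 1 / r = (-(x - 1) - n) / r := by ring
  have e2' : (-x - n) / r - 1 / r = (-(x + 1) - n) / r := by ring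
  have e3 : (1 / r) ^ 2 = 1 / r ^ 2 := by rw [div_pow, one_pow]
  have e4 : 32 / r ^ 2 = 32 * (1 / r ^ 2) := by ring
  rw [e1, e1', e3] at h1
  rw [e2, e2', e3] at h2
  unfold ph
  rw [abs_le, e4]
  constructor <;> linarith [h1.1, h1.2, h2.1, h2.2]

/-- two dimensional cutoff -/
noncomputable def chi (z : V) (ρ : ℕ) (v : V) : ℝ :=
  ph (ρ + 1) (ρ - 2) ((v.1 - z.1 : ℤ) : ℝ) * ph (ρ + 1) (ρ - 2) ((v.2 - z.2 : ℤ) : ℝ)

lemma chi_mem {z : V} {ρ : ℕ} (hρ : 3 ≤ ρ) (v : V) : 0 ≤ chi z ρ v ∧ chi z ρ v ≤ 1 := by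
  have hρ' : (3 : ℝ) ≤ ρ := by exact_mod_cast hρ
  have h1 := ph_mem (n := (ρ : ℝ) + 1) (r := (ρ : ℝ) - 2) (by linarith) (by linarith)
    ((v.1 - z.1 : ℤ) : ℝ)
  have h2 := ph_mem (n := (ρ : ℝ) + 1) (r := (ρ : ℝ) - 2) (by linarith) (by linarith)
    ((v.2 - z.2 : ℤ) : ℝ)
  exact ⟨mul_nonneg h1.1 h2.1, mul_le_one₀ h1.2 h2.1 h2.2⟩

lemma chi_one {z : V} {ρ : ℕ} (hρ : 3 ≤ ρ) {v : V} (hv : v ∈ ball z (ρ + 1)) :
    chi z ρ v = 1 := by
  have hρ' : (3 : ℝ) ≤ ρ := by exact_mod_cast hρ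
  rw [mem_ball] at hv
  push_cast at hv
  have h1 : |((v.1 - z.1 : ℤ) : ℝ)| ≤ (ρ : ℝ) + 1 := by
    have : |v.1 - z.1| ≤ (ρ : ℤ) + 1 := by rw [abs_le]; constructor <;> omega
    exact_mod_cast this
  have h2 : |((v.2 - z.2 : ℤ) : ℝ)| ≤ (ρ : ℝ) + 1 := by
    have : |v.2 - z.2| ≤ (ρ : ℤ) + 1 := by rw [abs_le]; constructor <;> omega
    exact_mod_cast this
  unfold chi
  rw [ph_one (by linarith) h1, ph_one (by linarith) h2, one_mul]

lemma chi_zero {z : V} {ρ : ℕ} (hρ : 3 ≤ ρ) {v : V} (hv : v ∉ ball z (2 * ρ - 2)) :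
    chi z ρ v = 0 := by
  have hρ' : (3 : ℝ) ≤ ρ := by exact_mod_cast hρ
  unfold chi
  rw [mem_ball] at hv
  have hc : (((2 * ρ - 2 : ℕ)) : ℤ) = 2 * (ρ : ℤ) - 2 := by omega
  rw [hc] at hv
  have h12 : 2 * (ρ : ℤ) - 1 ≤ |v.1 - z.1| ∨ 2 * (ρ : ℤ) - 1 ≤ |v.2 - z.2| := by
    by_contra hcon
    push Not at hcon
    rw [abs_lt, abs_lt] at hcon
    exact hv ⟨⟨by omega, by omega⟩, ⟨by omega, by omega⟩⟩
  rcases h12 with h | h
  · have : (ρ : ℝ) + 1 + (ρ - 2) ≤ |((v.1 - z.1 : ℤ) : ℝ)| := by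
      have : ((2 * (ρ : ℤ) - 1 : ℤ) : ℝ) ≤ ((|v.1 - z.1| : ℤ) : ℝ) := by exact_mod_cast h
      rw [Int.cast_abs] at this
      push_cast at this ⊢
      linarith
    rw [ph_zero (by linarith) (by linarith) this, zero_mul]
  · have : (ρ : ℝ) + 1 + (ρ - 2) ≤ |((v.2 - z.2 : ℤ) : ℝ)| := by
      have : ((2 * (ρ : ℤ) - 1 : ℤ) : ℝ) ≤ ((|v.2 - z.2| : ℤ) : ℝ) := by exact_mod_cast h
      rw [Int.cast_abs] at this
      push_cast at this ⊢
      linarith
    rw [ph_zero (by linarith) (by linarith) this, mul_zero]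

lemma lap_chi {z : V} {ρ : ℕ} (hρ : 8 ≤ ρ) (v : V) : |lap (chi z ρ) v| ≤ 114 / (ρ : ℝ) ^ 2 := by
  have hρ' : (8 : ℝ) ≤ ρ := by exact_mod_cast hρ
  have hr : (0 : ℝ) < ρ - 2 := by linarith
  set n : ℝ := ρ + 1 with hn
  set r : ℝ := ρ - 2 with hr'
  set x : ℝ := ((v.1 - z.1 : ℤ) : ℝ) with hx
  set y : ℝ := ((v.2 - z.2 : ℤ) : ℝ) with hy
  have e1 : ((v.1 + 1 - z.1 : ℤ) : ℝ) = x + 1 := by rw [hx]; push_cast; ring
  have e2 : ((v.1 - 1 - z.1 : ℤ) : ℝ) = x - 1 := by rw [hx]; push_cast; ring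
  have e3 : ((v.2 + 1 - z.2 : ℤ) : ℝ) = y + 1 := by rw [hy]; push_cast; ring
  have e4 : ((v.2 - 1 - z.2 : ℤ) : ℝ) = y - 1 := by rw [hy]; push_cast; ring
  have key : lap (chi z ρ) v = -((ph n r (x + 1) + ph n r (x - 1) - 2 * ph n r x) * ph n r y)
      - ph n r x * (ph n r (y + 1) + ph n r (y - 1) - 2 * ph n r y) := by
    unfold lap chi
    simp only [e1, e2, e3, e4, ← hx, ← hy, ← hn, ← hr']
    ring
  have h1 := ph_d2 (n := n) (r := r) x
  have h2 := ph_d2 (n := n) (r := r) y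
  have m1 := ph_mem (n := n) (r := r) hr (by linarith) x
  have m2 := ph_mem (n := n) (r := r) hr (by linarith) y
  have hb : 32 / r ^ 2 ≤ 57 / (ρ : ℝ) ^ 2 := by
    rw [div_le_div_iff₀ (by positivity) (by positivity)]
    nlinarith
  have t1 : |(ph n r (x + 1) + ph n r (x - 1) - 2 * ph n r x) * ph n r y| ≤ 32 / r ^ 2 := by
    rw [abs_mul, abs_of_nonneg m2.1]
    calc _ ≤ (32 / r ^ 2) * 1 := mul_le_mul h1 m2.2 m2.1 (by positivity)
      _ = _ := mul_one _
  have t2 : |ph n r x * (ph n r (y + 1) + ph n r (y - 1) - 2 * ph n r y)| ≤ 32 / r ^ 2 := by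
    rw [abs_mul, abs_of_nonneg m1.1]
    calc _ ≤ 1 * (32 / r ^ 2) := mul_le_mul m1.2 h2 (abs_nonneg _) (by norm_num)
      _ = _ := one_mul _
  rw [key]
  rw [abs_le] at t1 t2 ⊢
  have : 114 / (ρ : ℝ) ^ 2 = 57 / (ρ : ℝ) ^ 2 + 57 / (ρ : ℝ) ^ 2 := by ring
  rw [this]
  constructor <;> linarith [t1.1, t1.2, t2.1, t2.2]

/-- the quadratic comparison function, cut at `0` -/
noncomputable def qd (a : V) (R : ℕ) (v : V) : ℝ :=
  max (((R + 1 : ℝ) ^ 2 - ((v.1 - a.1 : ℤ) : ℝ) ^ 2) / 2) 0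

lemma qd_nonneg (a : V) (R : ℕ) (v : V) : 0 ≤ qd a R v := le_max_right _ _

lemma qd_le (a : V) (R : ℕ) (v : V) : qd a R v ≤ (R + 1 : ℝ) ^ 2 / 2 := by
  unfold qd
  refine max_le ?_ (by positivity)
  have := sq_nonneg (((v.1 - a.1 : ℤ) : ℝ))
  linarith

lemma qd_eq {a : V} {R : ℕ} {v : V} (h : |v.1 - a.1| ≤ (R : ℤ) + 1) :
    qd a R v = ((R + 1 : ℝ) ^ 2 - ((v.1 - a.1 : ℤ) : ℝ) ^ 2) / 2 := by
  unfold qd
  refine max_eq_left ?_
  have h1 : |((v.1 - a.1 : ℤ) : ℝ)| ≤ (R : ℝ) + 1 := by exact_mod_cast h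
  have h2 : ((v.1 - a.1 : ℤ) : ℝ) ^ 2 ≤ ((R : ℝ) + 1) ^ 2 := by
    rw [← sq_abs]
    exact pow_le_pow_left₀ (abs_nonneg _) h1 2
  linarith

lemma lap_qd {a : V} {R : ℕ} {v : V} (h : v ∈ ball a R) : lap (qd a R) v = 1 := by
  rw [mem_ball] at h
  unfold lap
  rw [qd_eq (v := v) (by rw [abs_le]; constructor <;> omega),
    qd_eq (v := (v.1 + 1, v.2)) (by simp only; rw [abs_le]; constructor <;> omega),
    qd_eq (v := (v.1 - 1, v.2)) (by simp only; rw [abs_le]; constructor <;> omega),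
    qd_eq (v := (v.1, v.2 + 1)) (by simp only; rw [abs_le]; constructor <;> omega),
    qd_eq (v := (v.1, v.2 - 1)) (by simp only; rw [abs_le]; constructor <;> omega)]
  push_cast
  ring

lemma card_ball (z : V) (r : ℕ) : ((ball z r).card : ℝ) = (2 * r + 1) ^ 2 := by
  unfold ball
  rw [Finset.card_product, Int.card_Icc, Int.card_Icc]
  have h1 : (z.1 + r + 1 - (z.1 - r)).toNat = 2 * r + 1 := by omega
  have h2 : (z.2 + r + 1 - (z.2 - r)).toNat = 2 * r + 1 := by omega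
  rw [h1, h2]
  push_cast
  ring

end P5m

open P5m in
/-- occupation lemma -/
theorem occ : ∃ C : ℝ, 0 < C ∧ ∀ (E : Finset V) (z : V) (ρ j : ℕ) (g : V → ℝ) (Gm : ℝ), 1 ≤ ρ →
    (∀ v, 0 ≤ g v) → (∀ v ∈ E, g v = 0) → (∀ v ∈ ball z (2 * ρ), v ∉ E → lap g v = 0) →
    (∀ v ∈ ball z (2 * ρ + 1), g v ≤ Gm) → (∀ a ∈ E, a ∈ ball z (2 * ρ) → Reaches E a (2 ^ j)) →
    ∑ x ∈ (ball z ρ).filter (fun x => x ∉ E ∧ ¬ Disjoint (ball x (2 ^ j)) E), g x
      ≤ C * 4 ^ j * Gm := by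
  obtain ⟨c, hc, hhit⟩ := hitting
  refine ⟨289 + 2200 * (545 / c), by positivity, ?_⟩
  intro E z ρ j g Gm hρ hg0 hgE hgh hgm hreach
  have hGm : 0 ≤ Gm := (hg0 z).trans (hgm z (mem_ball_self _ _))
  have h4j : (4 : ℝ) ^ j = (2 ^ j) ^ 2 := by rw [← pow_mul, mul_comm, pow_mul]; norm_num
  have h2j : (1 : ℝ) ≤ 2 ^ j := one_le_pow₀ (by norm_num)
  set S := (ball z ρ).filter (fun x => x ∉ E ∧ ¬ Disjoint (ball x (2 ^ j)) E) with hS
  by_cases hcase : ρ < 8 * 2 ^ j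
  · -- trivial case
    have h1 : ∑ x ∈ S, g x ≤ ∑ x ∈ ball z ρ, Gm := by
      refine (Finset.sum_le_sum_of_subset_of_nonneg (Finset.filter_subset _ _)
        (fun x _ _ => hg0 x)).trans (Finset.sum_le_sum (fun x hx => ?_))
      exact hgm x (ball_mono (by omega) hx)
    rw [Finset.sum_const, nsmul_eq_mul, card_ball] at h1
    have h2 : (ρ : ℝ) ≤ 8 * 2 ^ j := by exact_mod_cast hcase.le
    have h3 : (2 * (ρ : ℝ) + 1) ^ 2 ≤ 289 * 4 ^ j := by
      have : 2 * (ρ : ℝ) + 1 ≤ 17 * 2 ^ j := by linarith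
      calc (2 * (ρ : ℝ) + 1) ^ 2 ≤ (17 * 2 ^ j) ^ 2 := pow_le_pow_left₀ (by positivity) this 2
        _ = 289 * 4 ^ j := by rw [h4j]; ring
    calc ∑ x ∈ S, g x ≤ (2 * (ρ : ℝ) + 1) ^ 2 * Gm := h1
      _ ≤ (289 * 4 ^ j) * Gm := mul_le_mul_of_nonneg_right h3 hGm
      _ ≤ _ := by
          have : 0 ≤ 2200 * (545 / c) * 4 ^ j * Gm := by positivity
          nlinarith
  push Not at hcase
  have hρ8 : 8 ≤ ρ := le_trans (by have := Nat.one_le_two_pow (n := j); omega) hcase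
  have hρ8' : (8 : ℝ) ≤ ρ := by exact_mod_cast hρ8
  rcases S.eq_empty_or_nonempty with hSe | hSne
  · rw [hSe, Finset.sum_empty]; positivity
  -- the expected occupation time
  set Wd := ball z (2 * ρ) \ E with hWd
  obtain ⟨w, hw0, hw1⟩ := exists_dirichlet Wd (fun _ => 0) (fun v => if v ∈ S then 1 else 0)
  have hSW : S ⊆ Wd := by
    intro x hx
    rw [hS, Finset.mem_filter] at hx
    rw [hWd, Finset.mem_sdiff]
    exact ⟨ball_mono (by omega) hx.1, hx.2.1⟩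
  have hwnn : ∀ v, 0 ≤ w v := max_principle Wd w (fun v hv => by
    rw [hw1 v hv]; split_ifs <;> norm_num) (fun v hv => by rw [hw0 v hv])
  obtain ⟨x0, hx0S, hx0⟩ := S.exists_max_image w hSne
  set m := w x0 with hm
  have hmnn : 0 ≤ m := hwnn x0
  have hwm : ∀ v, w v ≤ m := by
    refine cmp (Wd \ S) (g := fun _ => m) (fun v hv => ?_) (fun v hv => ?_)
    · rw [Finset.mem_sdiff] at hv
      rw [hw1 v hv.1, if_neg hv.2]
      unfold lap
      simp only
      linarith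
    · by_cases hvS : v ∈ S
      · exact hx0 v hvS
      · have : v ∉ Wd := fun h => hv (Finset.mem_sdiff.2 ⟨h, hvS⟩)
        rw [hw0 v this]; exact hmnn
  -- bound on `m`
  have hmle : m ≤ 545 / c * 4 ^ j := by
    have hx0' := hx0S
    rw [hS, Finset.mem_filter] at hx0'
    obtain ⟨hx0b, hx0E, hdis⟩ := hx0'
    rw [Finset.not_disjoint_iff] at hdis
    obtain ⟨a, ha1, haE⟩ := hdis
    have haz : a ∈ ball z (2 * ρ) := by
      refine ball_mono (by omega) (mem_ball_trans hx0b ha1)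
    have hR := hhit a (2 ^ j) E Nat.one_le_two_pow (hreach a haE haz) x0
      (ball_mono (by omega) (mem_ball_symm.1 ha1))
    set W' := ball a (32 * 2 ^ j) with hW'
    have hcmp : w x0 ≤ qd a (32 * 2 ^ j) x0 + m * (1 - eqp W' (E ∩ W') x0) := by
      refine cmp (W' ∩ Wd) (g := fun v => qd a (32 * 2 ^ j) v + m * (1 - eqp W' (E ∩ W') v))
        (fun v hv => ?_) (fun v hv => ?_) x0
      · rw [Finset.mem_inter] at hv
        have hvE : v ∉ E ∩ W' := by
          intro h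
          have h1 := hv.2
          rw [hWd, Finset.mem_sdiff] at h1
          exact h1.2 (Finset.mem_inter.1 h).1
        have l1 : lap (fun v => qd a (32 * 2 ^ j) v + m * (1 - eqp W' (E ∩ W') v)) v
            = lap (qd a (32 * 2 ^ j)) v - m * lap (eqp W' (E ∩ W')) v := by
          unfold lap; ring
        rw [l1, lap_qd hv.1, lap_eqp hv.1 hvE, mul_zero, sub_zero, hw1 v hv.2]
        split_ifs <;> norm_num
      · by_cases hvW : v ∈ Wd
        · have hvW' : v ∉ W' := fun h => hv (Finset.mem_inter.2 ⟨h, hvW⟩)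
          rw [eqp_zero Finset.inter_subset_right hvW']
          have := qd_nonneg a (32 * 2 ^ j) v
          linarith [hwm v]
        · rw [hw0 v hvW]
          have h1 := qd_nonneg a (32 * 2 ^ j) v
          have h2 := eqp_le_one W' (E ∩ W') v
          have h3 : 0 ≤ m * (1 - eqp W' (E ∩ W') v) := mul_nonneg hmnn (by linarith)
          linarith
    have h1 := qd_le a (32 * 2 ^ j) x0
    have h2 : ((32 * 2 ^ j : ℕ) + 1 : ℝ) ^ 2 / 2 ≤ 545 * 4 ^ j := by
      have : ((32 * 2 ^ j : ℕ) + 1 : ℝ) ≤ 33 * 2 ^ j := by push_cast; linarith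
      have h5 : ((32 * 2 ^ j : ℕ) + 1 : ℝ) ^ 2 ≤ (33 * 2 ^ j) ^ 2 :=
        pow_le_pow_left₀ (by positivity) this 2
      rw [h4j]
      nlinarith [sq_nonneg ((2 : ℝ) ^ j)]
    have h3 : m * (1 - eqp W' (E ∩ W') x0) ≤ m * (1 - c) :=
      mul_le_mul_of_nonneg_left (by linarith) hmnn
    have h4 : m * c ≤ 545 * 4 ^ j := by
      rw [← hm] at hcmp
      nlinarith
    rw [div_mul_eq_mul_div, le_div_iff₀ hc]
    exact h4
  -- the cutoff argument
  set ζ : V → ℝ := fun v => min (w v) (m * chi z ρ v) with hζ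
  set g' : V → ℝ := fun v => if v ∈ ball z (2 * ρ + 1) then g v else 0 with hg'
  have hχ : ∀ v, 0 ≤ chi z ρ v ∧ chi z ρ v ≤ 1 := fun v => chi_mem (by omega) v
  have hζnn : ∀ v, 0 ≤ ζ v := fun v => le_min (hwnn v) (mul_nonneg hmnn (hχ v).1)
  have hζE : ∀ v ∉ Wd, ζ v = 0 := by
    intro v hv
    refine le_antisymm ((min_le_left _ _).trans (by rw [hw0 v hv])) (hζnn v)
  have hζo : ∀ v ∉ ball z (2 * ρ - 2), ζ v = 0 := by
    intro v hv
    refine le_antisymm ((min_le_right _ _).trans (by rw [chi_zero (by omega) hv, mul_zero]))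
      (hζnn v)
  have hζi : ∀ v ∈ ball z (ρ + 1), ζ v = w v := by
    intro v hv
    simp only [hζ]
    rw [chi_one (by omega) hv, mul_one]
    exact min_eq_left (hwm v)
  have hlapg' : ∀ v ∈ ball z (2 * ρ), lap g' v = lap g v := by
    intro v hv
    refine lap_congr ?_ (fun w hw => ?_)
    · simp only [hg']; rw [if_pos (ball_mono (by omega) hv)]
    · simp only [hg']; rw [if_pos (mem_ball_trans hv (nb_ball hw))]
  have hLHS : D g' ζ = 0 := by
    rw [D_eq_sum (W := ball z (2 * ρ - 2)) hζo]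
    refine Finset.sum_eq_zero (fun v hv => ?_)
    by_cases hvE : v ∈ E
    · rw [hζE v (by rw [hWd, Finset.mem_sdiff]; exact fun h => h.2 hvE), mul_zero]
    · rw [hlapg' v (ball_mono (by omega) hv), hgh v (ball_mono (by omega) hv) hvE, zero_mul]
  have hRHS : D ζ g' = ∑ v ∈ ball z (2 * ρ + 1), lap ζ v * g v := by
    rw [D_eq_sum (W := ball z (2 * ρ + 1)) (fun v hv => by simp only [hg']; rw [if_neg hv])]
    refine Finset.sum_congr rfl (fun v hv => ?_)
    simp only [hg']; rw [if_pos hv]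
  rw [D_comm, hRHS] at hLHS
  have hpt : ∀ v ∈ ball z (2 * ρ + 1),
      (if v ∈ S then g v else 0) - m * (114 / (ρ : ℝ) ^ 2) * Gm ≤ lap ζ v * g v := by
    intro v hv
    have hpos : 0 ≤ m * (114 / (ρ : ℝ) ^ 2) * Gm := by positivity
    by_cases hvE : v ∈ E
    · have hvS : v ∉ S := fun h => (Finset.mem_filter.1 h).2.1 hvE
      rw [if_neg hvS, hgE v hvE, mul_zero]; linarith
    by_cases hvS : v ∈ S
    · have hvb : v ∈ ball z ρ := (Finset.mem_filter.1 hvS).1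
      have : lap ζ v = lap w v := lap_congr (hζi v (ball_mono (by omega) hvb))
        (fun w hw => hζi w (mem_ball_trans hvb (nb_ball hw)))
      rw [if_pos hvS, this, hw1 v (hSW hvS), if_pos hvS, one_mul]
      linarith
    rw [if_neg hvS]
    have hgv := hg0 v
    have hgv' := hgm v hv
    have hlow : -(m * (114 / (ρ : ℝ) ^ 2)) ≤ lap ζ v := by
      by_cases hvW : v ∈ Wd
      · rcases le_total (w v) (m * chi z ρ v) with hle | hle
        · have h1 : ζ v = w v := min_eq_left hle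
          have h2 : lap w v ≤ lap ζ v := by
            rw [lap_eq_sum, lap_eq_sum, h1]
            have : ∑ u ∈ nb v, ζ u ≤ ∑ u ∈ nb v, w u :=
              Finset.sum_le_sum (fun u _ => min_le_left _ _)
            linarith
          rw [hw1 v hvW, if_neg hvS] at h2
          have : 0 ≤ m * (114 / (ρ : ℝ) ^ 2) := by positivity
          linarith
        · have h1 : ζ v = m * chi z ρ v := min_eq_right hle
          have h2 : m * lap (chi z ρ) v ≤ lap ζ v := by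
            rw [← lap_smul, lap_eq_sum, lap_eq_sum, h1]
            have : ∑ u ∈ nb v, ζ u ≤ ∑ u ∈ nb v, m * chi z ρ u :=
              Finset.sum_le_sum (fun u _ => min_le_right _ _)
            linarith
          have h3 := (abs_le.1 (lap_chi (z := z) hρ8 v)).1
          have h4 : m * (-(114 / (ρ : ℝ) ^ 2)) ≤ m * lap (chi z ρ) v :=
            mul_le_mul_of_nonneg_left h3 hmnn
          linarith
      · have hvb : v ∉ ball z (2 * ρ) := fun h => hvW (by
          rw [hWd, Finset.mem_sdiff]; exact ⟨h, hvE⟩)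
        have h1 : lap ζ v = 0 := by
          rw [lap_eq_sum, hζE v hvW, Finset.sum_eq_zero, mul_zero, sub_zero]
          intro u hu
          refine hζo u (fun h => hvb ?_)
          exact ball_mono (by omega) (mem_ball_trans h (nb_ball (nb_symm.1 hu)))
        rw [h1]
        have : 0 ≤ m * (114 / (ρ : ℝ) ^ 2) := by positivity
        linarith
    have h5 : -(m * (114 / (ρ : ℝ) ^ 2)) * g v ≤ lap ζ v * g v :=
      mul_le_mul_of_nonneg_right hlow hgv
    have h6 : m * (114 / (ρ : ℝ) ^ 2) * g v ≤ m * (114 / (ρ : ℝ) ^ 2) * Gm :=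
      mul_le_mul_of_nonneg_left hgv' (by positivity)
    linarith
  have hsum := Finset.sum_le_sum hpt
  rw [hLHS, Finset.sum_sub_distrib, Finset.sum_const, nsmul_eq_mul, card_ball,
    Finset.sum_ite_mem] at hsum
  have hinter : ball z (2 * ρ + 1) ∩ S = S := by
    apply Finset.inter_eq_right.2
    intro x hx
    exact ball_mono (by omega) (Finset.mem_filter.1 hx).1
  rw [hinter] at hsum
  have hcard : (2 * ((2 * ρ + 1 : ℕ) : ℝ) + 1) ^ 2 * (m * (114 / (ρ : ℝ) ^ 2) * Gm)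
      ≤ 2200 * m * Gm := by
    have h1 : (2 * ((2 * ρ + 1 : ℕ) : ℝ) + 1) ^ 2 * (114 / (ρ : ℝ) ^ 2) ≤ 2200 := by
      rw [mul_div_assoc', div_le_iff₀ (by positivity)]
      push_cast
      nlinarith
    calc _ = ((2 * ((2 * ρ + 1 : ℕ) : ℝ) + 1) ^ 2 * (114 / (ρ : ℝ) ^ 2)) * (m * Gm) := by ring
      _ ≤ 2200 * (m * Gm) := mul_le_mul_of_nonneg_right h1 (by positivity)
      _ = _ := by ring
  have hfin : 2200 * m * Gm ≤ 2200 * (545 / c * 4 ^ j) * Gm := by
    refine mul_le_mul_of_nonneg_right ?_ hGm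
    linarith
  have h289 : 0 ≤ 289 * (4 : ℝ) ^ j * Gm := by positivity
  calc ∑ x ∈ S, g x ≤ 2200 * (545 / c * 4 ^ j) * Gm := by linarith
    _ ≤ _ := by linarith

end Pool.H92.GFL
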