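import Pool.Agent.helper92.GFL.Defs2
import Pool.Agent.helper92.GFL.P5

namespace Pool.H92.GFL

open Function Finset MeasureTheory ProbabilityTheory Pool.H92.GFF
open scoped Classical ENNReal

lemma ac6_dyadic (L m : ℕ) : ∑ j ∈ Finset.range m, (2 : ℝ) ^ j * ((L : ℝ) + 4 - j)
    ≤ 2 ^ m * ((L : ℝ) + 6 - m) := by
  induction m with
  | zero =>
    simp only [Finset.range_zero, Finset.sum_empty, pow_zero, one_mul, Nat.cast_zero, sub_zero]
    positivity
  | succ m ih =>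
    rw [Finset.sum_range_succ, pow_succ]
    push_cast
    nlinarith

lemma ac6_ball_sub {c v : V} {a b n : ℕ} (hv : v ∈ ball c a) (h : a + b ≤ n) :
    ball v b ⊆ ball c n := by
  intro x hx
  rw [mem_ball] at *
  have : (a : ℤ) + b ≤ n := by exact_mod_cast h
  omega

lemma ac6_mono {v : V} {a b : ℕ} (h : a ≤ b) : ball v a ⊆ ball v b :=
  ac6_ball_sub (mem_ball_self v 0) (by omega)

theorem occ_sum : ∃ C : ℝ, 0 < C ∧ ∀ (L k N : ℕ) (c : V) (E : Finset V) (g : V → ℝ) (Gm : ℝ),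
    k ≤ L → N ≤ 2 ^ L → ball c (16 * 2 ^ k) ⊆ inn N → E ⊆ inn N → (∀ v, 0 ≤ g v) →
    (∀ v ∈ E, g v = 0) → (∀ v ∈ ball c (8 * 2 ^ k), v ∉ E → lap g v = 0) →
    (∀ v ∈ ball c (8 * 2 ^ k + 1), g v ≤ Gm) →
    (∀ a ∈ E, a ∈ ball c (8 * 2 ^ k) → Reaches E a (2 ^ (k + 3))) →
    ∑ v ∈ (ball c (4 * 2 ^ k)).filter (fun v => v ∉ E), g v *
      (((L : ℝ) + 4 - Nat.log 2 (rad (inn N \ E) v)) / rad (inn N \ E) v) ≤
        C * 2 ^ k * Gm * ((L : ℝ) - k + 1) := by
  obtain ⟨C₀, hC₀, hocc⟩ := occ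
  refine ⟨64 * C₀ + 41, by positivity, ?_⟩
  intro L k N c E g Gm hkL _hN hball _hE hg0 hgE hlap hgm hreach
  have hGm : 0 ≤ Gm := (hg0 c).trans (hgm c (mem_ball_self _ _))
  have hkL' : (k : ℝ) ≤ L := by exact_mod_cast hkL
  have h2k : (1 : ℝ) ≤ 2 ^ k := one_le_pow₀ (by norm_num)
  have h2kn : 1 ≤ 2 ^ k := Nat.one_le_two_pow
  set W := inn N \ E with hW
  set T := (ball c (4 * 2 ^ k)).filter (fun v => v ∉ E) with hT
  -- basic facts on the radius
  have hrad : ∀ v ∈ T, 0 < rad W v := by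
    intro v hv
    rw [hT, Finset.mem_filter] at hv
    rw [rad_pos, hW, Finset.mem_sdiff]
    exact ⟨hball (ac6_mono (by omega) hv.1), hv.2⟩
  have hlog : ∀ v ∈ T, 2 ^ Nat.log 2 (rad W v) ≤ rad W v ∧
      rad W v < 2 ^ (Nat.log 2 (rad W v) + 1) := fun v hv =>
    ⟨Nat.pow_log_le_self 2 (hrad v hv).ne', Nat.lt_pow_succ_log_self (by norm_num) _⟩
  rw [← Finset.sum_filter_add_sum_filter_not T (fun v => Nat.log 2 (rad W v) < k + 2)]
  have hA : ∑ v ∈ T.filter (fun v => Nat.log 2 (rad W v) < k + 2), g v *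
      (((L : ℝ) + 4 - Nat.log 2 (rad W v)) / rad W v) ≤ 64 * C₀ * 2 ^ k * Gm * ((L : ℝ) - k + 1) := by
    rw [← Finset.sum_fiberwise_of_maps_to (s := T.filter (fun v => Nat.log 2 (rad W v) < k + 2))
      (t := Finset.range (k + 2)) (g := fun v => Nat.log 2 (rad W v))
      (fun v hv => Finset.mem_range.2 (Finset.mem_filter.1 hv).2)]
    have hj : ∀ j ∈ Finset.range (k + 2),
        ∑ v ∈ (T.filter (fun v => Nat.log 2 (rad W v) < k + 2)).filter
          (fun v => Nat.log 2 (rad W v) = j), g v *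
          (((L : ℝ) + 4 - Nat.log 2 (rad W v)) / rad W v)
        ≤ 4 * C₀ * Gm * (2 ^ j * ((L : ℝ) + 4 - j)) := by
      intro j hj
      have hjk : j < k + 2 := Finset.mem_range.1 hj
      have hjL : (j : ℝ) ≤ (L : ℝ) + 1 := by
        have : j ≤ L + 1 := by omega
        exact_mod_cast this
      have hw : (0 : ℝ) ≤ (L : ℝ) + 4 - j := by linarith
      have hpj : (0 : ℝ) < 2 ^ j := by positivity
      have hpjn : 2 ^ (j + 1) ≤ 4 * 2 ^ k := by
        calc 2 ^ (j + 1) ≤ 2 ^ (k + 2) := Nat.pow_le_pow_right (by norm_num) (by omega)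
          _ = 4 * 2 ^ k := by rw [pow_add]; ring
      -- the sum of g
      have hocc' := hocc E c (4 * 2 ^ k) (j + 1) g Gm (by omega) hg0 hgE
        (fun v hv hvE => hlap v (by
          have e : 2 * (4 * 2 ^ k) = 8 * 2 ^ k := by ring
          rwa [e] at hv) hvE)
        (fun v hv => hgm v (by
          have e : 2 * (4 * 2 ^ k) + 1 = 8 * 2 ^ k + 1 := by ring
          rwa [e] at hv))
        (fun a ha hac => by
          have e : 2 * (4 * 2 ^ k) = 8 * 2 ^ k := by ring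
          rw [e] at hac
          obtain ⟨n, b, hb, hb'⟩ := hreach a ha hac
          refine ⟨n, b, hb, fun h => hb' (ac6_mono ?_ h)⟩
          exact Nat.pow_le_pow_right (by norm_num) (by omega))
      have hsub : (T.filter (fun v => Nat.log 2 (rad W v) < k + 2)).filter
          (fun v => Nat.log 2 (rad W v) = j) ⊆
          (ball c (4 * 2 ^ k)).filter (fun x => x ∉ E ∧ ¬ Disjoint (ball x (2 ^ (j + 1))) E) := by
        intro v hv
        rw [Finset.mem_filter, Finset.mem_filter] at hv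
        obtain ⟨⟨hvT, -⟩, hvj⟩ := hv
        have hl := hlog v hvT
        rw [hvj] at hl
        have hvT' := hvT
        rw [hT, Finset.mem_filter] at hvT'
        refine Finset.mem_filter.2 ⟨hvT'.1, hvT'.2, fun hdis => ?_⟩
        have h1 : ¬ rad W v < rad W v := lt_irrefl _
        refine h1 (lt_rad.2 fun x hx => ?_)
        rw [hW, Finset.mem_sdiff]
        refine ⟨hball (ac6_ball_sub hvT'.1 (by omega) hx), fun hxE => ?_⟩
        exact Finset.disjoint_left.1 hdis (ac6_mono hl.2.le hx) hxE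
      set F := (T.filter (fun v => Nat.log 2 (rad W v) < k + 2)).filter
        (fun v => Nat.log 2 (rad W v) = j) with hF
      calc ∑ v ∈ F, g v * (((L : ℝ) + 4 - Nat.log 2 (rad W v)) / rad W v)
          ≤ ∑ v ∈ F, g v * (((L : ℝ) + 4 - j) / 2 ^ j) := by
            refine Finset.sum_le_sum fun v hv => ?_
            rw [hF, Finset.mem_filter, Finset.mem_filter] at hv
            obtain ⟨⟨hvT, -⟩, hvj⟩ := hv
            rw [hvj]
            refine mul_le_mul_of_nonneg_left ?_ (hg0 v)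
            have hl := (hlog v hvT).1
            rw [hvj] at hl
            have hl' : (2 : ℝ) ^ j ≤ rad W v := by exact_mod_cast hl
            exact div_le_div_of_nonneg_left hw hpj hl'
        _ = (∑ v ∈ F, g v) * (((L : ℝ) + 4 - j) / 2 ^ j) := by
            rw [Finset.sum_mul]
        _ ≤ (C₀ * 4 ^ (j + 1) * Gm) * (((L : ℝ) + 4 - j) / 2 ^ j) := by
            refine mul_le_mul_of_nonneg_right ?_ (div_nonneg hw hpj.le)
            exact (Finset.sum_le_sum_of_subset_of_nonneg hsub fun v _ _ => hg0 v).trans hocc'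
        _ = 4 * C₀ * Gm * (2 ^ j * ((L : ℝ) + 4 - j)) := by
            have e : (4 : ℝ) ^ (j + 1) = 4 * (2 ^ j * 2 ^ j) := by
              rw [pow_succ, ← mul_pow]
              norm_num
              ring
            rw [e]
            field_simp
    refine (Finset.sum_le_sum hj).trans ?_
    rw [← Finset.mul_sum]
    have h1 := ac6_dyadic L (k + 2)
    have h2 : (2 : ℝ) ^ (k + 2) * ((L : ℝ) + 6 - ((k + 2 : ℕ) : ℝ))
        ≤ 16 * 2 ^ k * ((L : ℝ) - k + 1) := by
      rw [pow_add]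
      push_cast
      nlinarith
    have h3 : 0 ≤ 4 * C₀ * Gm := by positivity
    calc 4 * C₀ * Gm * ∑ j ∈ Finset.range (k + 2), (2 : ℝ) ^ j * ((L : ℝ) + 4 - j)
        ≤ 4 * C₀ * Gm * (16 * 2 ^ k * ((L : ℝ) - k + 1)) :=
          mul_le_mul_of_nonneg_left (h1.trans h2) h3
      _ = 64 * C₀ * 2 ^ k * Gm * ((L : ℝ) - k + 1) := by ring
  have hB : ∑ v ∈ T.filter (fun v => ¬ Nat.log 2 (rad W v) < k + 2), g v *
      (((L : ℝ) + 4 - Nat.log 2 (rad W v)) / rad W v) ≤ 41 * 2 ^ k * Gm * ((L : ℝ) - k + 1) := by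
    have hb0 : 0 ≤ Gm * (((L : ℝ) - k + 2) / (4 * 2 ^ k)) :=
      mul_nonneg hGm (div_nonneg (by linarith) (by positivity))
    have h1 : ∀ v ∈ T.filter (fun v => ¬ Nat.log 2 (rad W v) < k + 2), g v *
        (((L : ℝ) + 4 - Nat.log 2 (rad W v)) / rad W v)
        ≤ Gm * (((L : ℝ) - k + 2) / (4 * 2 ^ k)) := by
      intro v hv
      rw [Finset.mem_filter, not_lt] at hv
      obtain ⟨hvT, hvj⟩ := hv
      have hvT' := hvT
      rw [hT, Finset.mem_filter] at hvT'
      have hl := (hlog v hvT).1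
      have hl2 : 4 * 2 ^ k ≤ rad W v := by
        calc 4 * 2 ^ k = 2 ^ (k + 2) := by rw [pow_add]; ring
          _ ≤ 2 ^ Nat.log 2 (rad W v) := Nat.pow_le_pow_right (by norm_num) hvj
          _ ≤ rad W v := hl
      have hl3 : (4 : ℝ) * 2 ^ k ≤ rad W v := by exact_mod_cast hl2
      have hj' : ((k : ℝ) + 2) ≤ (Nat.log 2 (rad W v) : ℝ) := by exact_mod_cast hvj
      have hg1 : g v ≤ Gm := hgm v (ac6_mono (by omega) hvT'.1)
      have hr0 : (0 : ℝ) < rad W v := lt_of_lt_of_le (by positivity) hl3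
      rcases le_or_gt 0 ((L : ℝ) + 4 - Nat.log 2 (rad W v)) with hs | hs
      · refine mul_le_mul hg1 ?_ (div_nonneg hs hr0.le) hGm
        exact div_le_div₀ (by linarith) (by linarith) (by positivity) hl3
      · refine le_trans ?_ hb0
        exact mul_nonpos_of_nonneg_of_nonpos (hg0 v) (div_nonpos_of_nonpos_of_nonneg hs.le hr0.le)
    refine (Finset.sum_le_sum h1).trans ?_
    rw [Finset.sum_const, nsmul_eq_mul]
    have hcard : ((T.filter (fun v => ¬ Nat.log 2 (rad W v) < k + 2)).card : ℝ)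
        ≤ (2 * ((4 * 2 ^ k : ℕ) : ℝ) + 1) ^ 2 := by
      rw [← P5m.card_ball c (4 * 2 ^ k)]
      exact_mod_cast Finset.card_le_card ((Finset.filter_subset _ _).trans
        (by rw [hT]; exact Finset.filter_subset _ _))
    have hc2 : (2 * ((4 * 2 ^ k : ℕ) : ℝ) + 1) ^ 2 ≤ 81 * (2 ^ k * 2 ^ k) := by
      push_cast
      nlinarith
    have h3 : (0 : ℝ) ≤ (L : ℝ) - k := by linarith
    calc ((T.filter (fun v => ¬ Nat.log 2 (rad W v) < k + 2)).card : ℝ) *
          (Gm * (((L : ℝ) - k + 2) / (4 * 2 ^ k)))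
        ≤ (81 * (2 ^ k * 2 ^ k)) * (Gm * (((L : ℝ) - k + 2) / (4 * 2 ^ k))) :=
          mul_le_mul_of_nonneg_right (hcard.trans hc2) hb0
      _ = 81 / 4 * 2 ^ k * Gm * ((L : ℝ) - k + 2) := by
          field_simp
      _ ≤ 41 * 2 ^ k * Gm * ((L : ℝ) - k + 1) := by
          have h4 : 0 ≤ 2 ^ k * Gm := by positivity
          nlinarith [mul_nonneg h4 h3]
  calc _ ≤ 64 * C₀ * 2 ^ k * Gm * ((L : ℝ) - k + 1) + 41 * 2 ^ k * Gm * ((L : ℝ) - k + 1) :=
        add_le_add hA hB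
    _ = (64 * C₀ + 41) * 2 ^ k * Gm * ((L : ℝ) - k + 1) := by ring

end Pool.H92.GFL
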