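import Pool.Agent.helper92.GFL.P3
import Pool.Agent.helper92.GFL.K5
import Pool.Agent.helper92.GFL.G0

namespace Pool.H92.GFL

open Function Finset MeasureTheory ProbabilityTheory Pool.H92.GFF
open scoped Classical ENNReal

namespace P6

lemma lap_phi_nonneg {I B : Finset V} {v : V} (hv : v ∈ I) : 0 ≤ lap (eqp I B) v := by
  by_cases h : v ∈ B
  · exact qw_nonneg h
  · exact (lap_eqp hv h).ge

lemma f_le {I B E : Finset V} (hB : B ⊆ I) (hE : E ⊆ I) (v : V) :
    hx I E (eqp I B) v ≤ eqp I B v := by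
  refine cmp (I \ E) (fun v hv => ?_) (fun v hv => ?_) v
  · rw [Finset.mem_sdiff] at hv
    rw [lap_hx hv.1 hv.2]; exact lap_phi_nonneg hv.1
  · by_cases hvE : v ∈ E
    · rw [hx_on hvE]
    · have hvI : v ∉ I := fun h => hv (by simp [h, hvE])
      rw [hx_out hE hvI, eqp_zero hB hvI]

lemma f_nonneg (I B E : Finset V) (v : V) : 0 ≤ hx I E (eqp I B) v :=
  hx_nonneg (fun v _ => eqp_nonneg I B v) v

lemma f_mono {I B E E' : Finset V} (hB : B ⊆ I) (h : E ⊆ E') (hE' : E' ⊆ I) (v : V) :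
    hx I E (eqp I B) v ≤ hx I E' (eqp I B) v := by
  refine cmp (I \ E') (fun v hv => ?_) (fun v hv => ?_) v
  · rw [Finset.mem_sdiff] at hv
    rw [lap_hx hv.1 hv.2, lap_hx hv.1 (fun hh => hv.2 (h hh))]
  · by_cases hvE : v ∈ E'
    · rw [hx_on hvE]; exact f_le hB (h.trans hE') v
    · have hvI : v ∉ I := fun h => hv (by simp [h, hvE])
      rw [hx_out (h.trans hE') hvI, hx_out hE' hvI]

lemma f_submod {I B X Y : Finset V} (hB : B ⊆ I) (hX : X ⊆ I) (hY : Y ⊆ I) (v : V) :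
    hx I (X ∪ Y) (eqp I B) v + hx I (X ∩ Y) (eqp I B) v ≤
      hx I X (eqp I B) v + hx I Y (eqp I B) v := by
  have hXY : X ∪ Y ⊆ I := Finset.union_subset hX hY
  have hXY' : X ∩ Y ⊆ I := Finset.inter_subset_left.trans hX
  refine cmp (I \ (X ∪ Y)) (f := fun v => hx I (X ∪ Y) (eqp I B) v + hx I (X ∩ Y) (eqp I B) v)
    (g := fun v => hx I X (eqp I B) v + hx I Y (eqp I B) v) (fun v hv => ?_) (fun v hv => ?_) v
  · rw [Finset.mem_sdiff, Finset.mem_union, not_or] at hv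
    rw [lap_add, lap_add, lap_hx hv.1 (by simp [hv.2.1, hv.2.2]),
      lap_hx hv.1 (by simp [hv.2.1]), lap_hx hv.1 hv.2.1, lap_hx hv.1 hv.2.2]
  · by_cases h1 : v ∈ X
    · rw [hx_on (E := X ∪ Y) (by simp [h1]), hx_on (E := X) h1]
      have := f_mono hB (Finset.inter_subset_right : X ∩ Y ⊆ Y) hY v
      linarith
    · by_cases h2 : v ∈ Y
      · rw [hx_on (E := X ∪ Y) (by simp [h2]), hx_on (E := Y) h2]
        have := f_mono hB (Finset.inter_subset_left : X ∩ Y ⊆ X) hX v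
        linarith
      · have hvI : v ∉ I := fun h => hv (by simp [h, h1, h2])
        rw [hx_out hXY hvI, hx_out hXY' hvI, hx_out hX hvI, hx_out hY hvI]

/-- energy of the projection -/
noncomputable def Fe (I B E : Finset V) : ℝ := ∑ v ∈ B, qw I B v * hx I E (eqp I B) v

lemma Fe_eq {I B E : Finset V} (hB : B ⊆ I) (hE : E ⊆ I) :
    D (eqp I B) (hx I E (eqp I B)) = Fe I B E := D_eqp hB (fun _ hv => hx_out hE hv)

lemma Fe_eq' {I B E : Finset V} (hB : B ⊆ I) (hE : E ⊆ I) :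
    D (hx I E (eqp I B)) (hx I E (eqp I B)) = Fe I B E := by
  rw [← D_hx_left hE (fun v hv => eqp_zero hB hv), Fe_eq hB hE]

lemma Fe_cross {I B E E' : Finset V} (hB : B ⊆ I) (h : E' ⊆ E) (hE : E ⊆ I) :
    D (hx I E (eqp I B)) (hx I E' (eqp I B)) = Fe I B E' := by
  have hE' := h.trans hE
  rw [D_hx_left hE' (fun v hv => hx_out hE hv)]
  have : hx I E' (hx I E (eqp I B)) = hx I E' (eqp I B) := by
    funext v
    refine (hx_unique hE' (fun v hv => ?_) (fun v hv => hx_out hE' hv)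
      (fun v hv hv' => lap_hx hv hv') v).symm
    rw [hx_on hv, hx_on (h hv)]
  rw [this, Fe_eq' hB hE']

lemma fin_hx {I E : Finset V} (hE : E ⊆ I) (b : V → ℝ) : (support (hx I E b)).Finite :=
  fin_of_zero_off (W := I) (fun _ hv => hx_out hE hv)

lemma Fe_diff {I B E E' : Finset V} (hB : B ⊆ I) (h : E' ⊆ E) (hE : E ⊆ I) :
    D (fun v => hx I E (eqp I B) v - hx I E' (eqp I B) v)
      (fun v => hx I E (eqp I B) v - hx I E' (eqp I B) v) = Fe I B E - Fe I B E' := by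
  rw [D_sub_self (fin_hx hE _) (fin_hx (h.trans hE) _), Fe_eq' hB hE, Fe_cross hB h hE,
    Fe_eq' hB (h.trans hE)]
  ring

lemma Fe_submod {I B X Y : Finset V} (hB : B ⊆ I) (hX : X ⊆ I) (hY : Y ⊆ I) :
    Fe I B (X ∪ Y) + Fe I B (X ∩ Y) ≤ Fe I B X + Fe I B Y := by
  unfold Fe
  rw [← Finset.sum_add_distrib, ← Finset.sum_add_distrib]
  refine Finset.sum_le_sum (fun v hv => ?_)
  have h1 := f_submod hB hX hY v
  have h2 := qw_nonneg (I := I) hv
  nlinarith

lemma Fe_le {I B E : Finset V} (hB : B ⊆ I) (hE : E ⊆ I) : Fe I B E ≤ cp I B := by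
  rw [cp_eq hB]
  unfold Fe
  refine Finset.sum_le_sum (fun v hv => ?_)
  have h1 := f_le hB hE v
  rw [eqp_one hv] at h1
  have h2 := qw_nonneg (I := I) hv
  nlinarith

lemma Fe_empty (I B : Finset V) : Fe I B ∅ = 0 := by
  unfold Fe
  refine Finset.sum_eq_zero (fun v _ => ?_)
  have : hx I ∅ (eqp I B) v = 0 := by
    refine (hx_unique (E := ∅) (Finset.empty_subset I) (f := fun _ => 0) (fun v hv => ?_)
      (fun v hv => rfl) (fun v hv hv' => ?_) v).symm
    · exact absurd hv (Finset.notMem_empty v)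
    · unfold lap; norm_num
  rw [this, mul_zero]

lemma chain_sum {I B : Finset V} (hB : B ⊆ I) {ι : Type} (E b : ι → Finset V) (T : Finset ι) :
    (∀ i ∈ T, E i ⊆ I) → (∀ i ∈ T, ∀ j ∈ T, E i ⊆ E j ∨ E j ⊆ E i) →
    (∀ i ∈ T, ∀ j ∈ T, i ≠ j → Disjoint (b i) (b j)) →
    ∑ i ∈ T, (Fe I B (E i) - Fe I B (E i \ b i)) ≤ Fe I B (T.biUnion (fun i => E i ∩ b i)) := by
  refine Finset.induction_on_max_value (fun i => (E i).card)
    (motive := fun T => (∀ i ∈ T, E i ⊆ I) → (∀ i ∈ T, ∀ j ∈ T, E i ⊆ E j ∨ E j ⊆ E i) →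
      (∀ i ∈ T, ∀ j ∈ T, i ≠ j → Disjoint (b i) (b j)) →
      ∑ i ∈ T, (Fe I B (E i) - Fe I B (E i \ b i)) ≤ Fe I B (T.biUnion (fun i => E i ∩ b i)))
    T ?_ ?_
  · intro _ _ _
    simp [Fe_empty]
  · intro a s has hmax ih h1 h2 h3
    have ih' := ih (fun i hi => h1 i (Finset.mem_insert_of_mem hi))
      (fun i hi j hj => h2 i (Finset.mem_insert_of_mem hi) j (Finset.mem_insert_of_mem hj))
      (fun i hi j hj => h3 i (Finset.mem_insert_of_mem hi) j (Finset.mem_insert_of_mem hj))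
    rw [Finset.sum_insert has, Finset.biUnion_insert]
    set X := s.biUnion (fun i => E i ∩ b i) with hX
    have hEa := h1 a (Finset.mem_insert_self a s)
    have hsub : ∀ i ∈ s, E i ⊆ E a := by
      intro i hi
      rcases h2 i (Finset.mem_insert_of_mem hi) a (Finset.mem_insert_self a s) with h | h
      · exact h
      · exact (Finset.eq_of_subset_of_card_le h (hmax i hi)).ge
    have hXs : X ⊆ E a \ b a := by
      intro v hv
      rw [hX, Finset.mem_biUnion] at hv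
      obtain ⟨i, hi, hv⟩ := hv
      rw [Finset.mem_inter] at hv
      rw [Finset.mem_sdiff]
      refine ⟨hsub i hi hv.1, fun hva => ?_⟩
      have hne : i ≠ a := fun h => has (h ▸ hi)
      have := h3 i (Finset.mem_insert_of_mem hi) a (Finset.mem_insert_self a s) hne
      exact Finset.disjoint_left.1 this hv.2 hva
    have hXI : X ⊆ I := hXs.trans (Finset.sdiff_subset.trans hEa)
    have hKI : E a ∩ b a ⊆ I := Finset.inter_subset_left.trans hEa
    have key := Fe_submod hB (X := E a \ b a) (Y := X ∪ (E a ∩ b a))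
      (Finset.sdiff_subset.trans hEa) (Finset.union_subset hXI hKI)
    have e1 : (E a \ b a) ∪ (X ∪ (E a ∩ b a)) = E a := by
      ext v
      simp only [Finset.mem_union, Finset.mem_sdiff, Finset.mem_inter]
      constructor
      · rintro (h | h | h)
        · exact h.1
        · exact (Finset.mem_sdiff.1 (hXs h)).1
        · exact h.1
      · intro h
        by_cases hb : v ∈ b a
        · exact Or.inr (Or.inr ⟨h, hb⟩)
        · exact Or.inl ⟨h, hb⟩
    have e2 : (E a \ b a) ∩ (X ∪ (E a ∩ b a)) = X := by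
      ext v
      simp only [Finset.mem_union, Finset.mem_sdiff, Finset.mem_inter]
      constructor
      · rintro ⟨h, h' | h'⟩
        · exact h'
        · exact absurd h'.2 h.2
      · intro h
        exact ⟨Finset.mem_sdiff.1 (hXs h), Or.inl h⟩
    rw [e1, e2, Finset.union_comm X] at key
    linarith

/-! ### points on a path -/

lemma points_aux {E : Finset V} {a : V} {r m : ℕ} {p : ℕ → V} (h0 : p 0 = a)
    (hE : ∀ i < m, p i ∈ E) (hb : ∀ i < m, p i ∈ ball a r)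
    (hstep : ∀ i < m, p (i + 1) = p i ∨ p (i + 1) ∈ nb (p i)) (g : V → ℤ) (hg0 : g a = 0)
    (hg1 : ∀ v w, ∀ d : ℕ, v ∈ ball w d → g v - g w ≤ d) (hg : (r : ℤ) < g (p m)) :
    ∃ x : ℕ → V, ∀ i < r, x i ∈ E ∧ x i ∈ ball a r ∧
      ∀ j < r, ∀ d : ℕ, x i ∈ ball (x j) d → (i : ℤ) - j ≤ d := by
  have key : ∀ t : ℕ, t < r → ∃ i < m, g (p i) = t := by
    intro t ht
    have hex : ∃ n, (t : ℤ) < g (p n) := ⟨m, by omega⟩
    set n0 := Nat.find hex with hn0
    have h1 : (t : ℤ) < g (p n0) := Nat.find_spec hex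
    have h2 : n0 ≤ m := Nat.find_min' hex (by omega)
    have h3 : n0 ≠ 0 := by
      intro h
      rw [h, h0, hg0] at h1
      omega
    obtain ⟨i, hi⟩ := Nat.exists_eq_succ_of_ne_zero h3
    have him : i < m := by omega
    have h4 : ¬ (t : ℤ) < g (p i) := Nat.find_min hex (by omega)
    refine ⟨i, him, ?_⟩
    have h5 : g (p (i + 1)) - g (p i) ≤ 1 := by
      rcases hstep i him with h | h
      · rw [h]; omega
      · exact_mod_cast hg1 _ _ 1 (nb_ball h)
    rw [hi] at h1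
    simp only [Nat.succ_eq_add_one] at h1
    omega
  choose! i hi1 hi2 using key
  refine ⟨fun t => p (i t), fun t ht => ⟨hE _ (hi1 t ht), hb _ (hi1 t ht), fun s hs d hd => ?_⟩⟩
  have := hg1 _ _ d hd
  rw [hi2 t ht, hi2 s hs] at this
  exact this

lemma exists_points {E : Finset V} {a : V} {r : ℕ} (h : Reaches E a r) :
    ∃ x : ℕ → V, ∀ i < r, x i ∈ E ∧ x i ∈ ball a r ∧
      ∀ j < r, ∀ d : ℕ, x i ∈ ball (x j) d → (i : ℤ) - j ≤ d := by
  obtain ⟨n, b, ⟨p, hp0, hpn, hpE, hps⟩, hb⟩ := h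
  have hex : ∃ m, p m ∉ ball a r := ⟨n, by rw [hpn]; exact hb⟩
  set m := Nat.find hex with hm
  have h1 : p m ∉ ball a r := Nat.find_spec hex
  have h2 : m ≤ n := Nat.find_min' hex (by rw [hpn]; exact hb)
  have h3 : ∀ i < m, p i ∈ ball a r := fun i hi => by
    have := Nat.find_min hex hi
    exact not_not.1 this
  have hE' : ∀ i < m, p i ∈ E := fun i hi => by
    have := hpE i (by omega)
    exact_mod_cast this
  have hs' : ∀ i < m, p (i + 1) = p i ∨ p (i + 1) ∈ nb (p i) := fun i hi => hps i (by omega)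
  by_cases c1 : (r : ℤ) < (p m).1 - a.1
  · exact points_aux hp0 hE' h3 hs' (fun v => v.1 - a.1) (by simp)
      (fun v w d hv => by rw [mem_ball] at hv; omega) c1
  by_cases c2 : (r : ℤ) < a.1 - (p m).1
  · exact points_aux hp0 hE' h3 hs' (fun v => a.1 - v.1) (by simp)
      (fun v w d hv => by rw [mem_ball] at hv; omega) c2
  by_cases c3 : (r : ℤ) < (p m).2 - a.2
  · exact points_aux hp0 hE' h3 hs' (fun v => v.2 - a.2) (by simp)
      (fun v w d hv => by rw [mem_ball] at hv; omega) c3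
  by_cases c4 : (r : ℤ) < a.2 - (p m).2
  · exact points_aux hp0 hE' h3 hs' (fun v => a.2 - v.2) (by simp)
      (fun v w d hv => by rw [mem_ball] at hv; omega) c4
  exact absurd (by rw [mem_ball]; omega) h1

/-! ### energy of the point charges -/

lemma D_smul_left (t : ℝ) (f g : V → ℝ) : D (fun v => t * f v) g = t * D f g := by
  unfold D
  rw [← tsum_mul_left]
  congr 1
  ext v
  ring

lemma D_smul_right (t : ℝ) (f g : V → ℝ) : D f (fun v => t * g v) = t * D f g := by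
  rw [D_comm, D_smul_left, D_comm]

lemma fin_smul {f : V → ℝ} (hf : (support f).Finite) (t : ℝ) :
    (support (fun v => t * f v)).Finite :=
  hf.subset (fun v hv => by
    simp only [mem_support, ne_eq, mul_eq_zero, not_or] at hv ⊢
    exact hv.2)

lemma D_cs {f g : V → ℝ} (hf : (support f).Finite) (hg : (support g).Finite) :
    D f g ^ 2 ≤ D f f * D g g := by
  have key : ∀ t : ℝ, 0 ≤ D g g * (t * t) + (-2 * D f g) * t + D f f := by
    intro t
    have h1 := D_self_nonneg (fun v => f v - t * g v)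
    rw [D_sub_self hf (fin_smul hg t), D_smul_right, D_smul_left, D_smul_right] at h1
    linarith
  have h2 := discrim_le_zero key
  unfold discrim at h2
  nlinarith

lemma card_near (r i d : ℕ) :
    ((Finset.range r).filter (fun j : ℕ => (i : ℤ) - j ≤ d ∧ (j : ℤ) - i ≤ d)).card ≤ 2 * d + 1 := by
  calc ((Finset.range r).filter (fun j : ℕ => (i : ℤ) - j ≤ d ∧ (j : ℤ) - i ≤ d)).card
      ≤ (Finset.Icc (i - d) (i + d)).card := by
        apply Finset.card_le_card
        intro j hj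
        rw [Finset.mem_filter] at hj
        rw [Finset.mem_Icc]
        omega
    _ ≤ 2 * d + 1 := by
        rw [Nat.card_Icc]; omega

/-- number of scales at which two points are near -/
noncomputable def cnt (N i j : ℕ) : ℕ :=
  ((Finset.range (N + 1)).filter (fun m => (i : ℤ) - j ≤ 2 ^ m ∧ (j : ℤ) - i ≤ 2 ^ m)).card

lemma sum_cnt (N : ℕ) : ∑ i ∈ Finset.range (2 ^ N), ∑ j ∈ Finset.range (2 ^ N), (cnt N i j : ℝ) ≤
    5 * 4 ^ N := by
  have h1 : ∀ i, ∑ j ∈ Finset.range (2 ^ N), cnt N i j ≤ 5 * 2 ^ N := by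
    intro i
    unfold cnt
    simp only [Finset.card_filter]
    rw [Finset.sum_comm]
    calc ∑ m ∈ Finset.range (N + 1), ∑ j ∈ Finset.range (2 ^ N),
          (if (i : ℤ) - j ≤ 2 ^ m ∧ (j : ℤ) - i ≤ 2 ^ m then 1 else 0)
        ≤ ∑ m ∈ Finset.range (N + 1), (2 * 2 ^ m + 1) := by
          refine Finset.sum_le_sum (fun m _ => ?_)
          rw [← Finset.card_filter]
          have := card_near (2 ^ N) i (2 ^ m)
          push_cast at this
          exact this
      _ = 2 * (2 ^ (N + 1) - 1) + (N + 1) := by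
          rw [Finset.sum_add_distrib, ← Finset.mul_sum]
          have : ∑ m ∈ Finset.range (N + 1), 2 ^ m = 2 ^ (N + 1) - 1 := by
            have := Nat.geomSum_eq (m := 2) (by norm_num) (N + 1)
            simpa using this
          rw [this]
          simp
      _ ≤ 5 * 2 ^ N := by
          have h2 : N < 2 ^ N := Nat.lt_two_pow_self
          rw [pow_succ]
          omega
  have h2 : ∑ i ∈ Finset.range (2 ^ N), ∑ j ∈ Finset.range (2 ^ N), cnt N i j ≤
      2 ^ N * (5 * 2 ^ N) := by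
    refine (Finset.sum_le_sum (fun i _ => h1 i)).trans ?_
    simp
  have h3 : (∑ i ∈ Finset.range (2 ^ N), ∑ j ∈ Finset.range (2 ^ N), (cnt N i j : ℝ)) ≤
      2 ^ N * (5 * 2 ^ N) := by exact_mod_cast h2
  refine h3.trans (le_of_eq ?_)
  have : (4 : ℝ) = 2 * 2 := by norm_num
  rw [this, mul_pow]; ring

lemma gr_pair {C : ℝ} (hC : 0 < C) (hup : ∀ (L j : ℕ) (c : V) (I : Finset V), I ⊆ ball c (2 ^ L) →
      j ≤ L → ∀ x y : V, (j = 0 ∨ x ∉ ball y (2 ^ j)) → gr I y x ≤ C * ((L : ℝ) - j + 1))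
    {L N : ℕ} (hN : N ≤ L) {c : V} {I : Finset V} (hI : I ⊆ ball c (2 ^ L)) {x : ℕ → V}
    (hx : ∀ i < 2 ^ N, ∀ j < 2 ^ N, ∀ d : ℕ, x i ∈ ball (x j) d → (i : ℤ) - j ≤ d)
    {i j : ℕ} (hi : i < 2 ^ N) (hj : j < 2 ^ N) :
    gr I (x i) (x j) ≤ C * ((L : ℝ) - N + 1 + cnt N i j) := by
  have hex : ∃ m, (i : ℤ) - j ≤ 2 ^ m ∧ (j : ℤ) - i ≤ 2 ^ m := by
    refine ⟨N, ?_, ?_⟩
    · have : (i : ℤ) < 2 ^ N := by exact_mod_cast hi
      omega
    · have : (j : ℤ) < 2 ^ N := by exact_mod_cast hj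
      omega
  set m0 := Nat.find hex with hm0
  obtain ⟨h1, h2⟩ := Nat.find_spec hex
  rw [← hm0] at h1 h2
  have hm0N : m0 ≤ N := by
    refine Nat.find_min' hex ⟨?_, ?_⟩
    · have : (i : ℤ) < 2 ^ N := by exact_mod_cast hi
      omega
    · have : (j : ℤ) < 2 ^ N := by exact_mod_cast hj
      omega
  have hcnt : N + 1 - m0 ≤ cnt N i j := by
    unfold cnt
    rw [← Nat.card_Ico]
    apply Finset.card_le_card
    intro m hm
    rw [Finset.mem_Ico] at hm
    rw [Finset.mem_filter, Finset.mem_range]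
    have h3 : (2 : ℤ) ^ m0 ≤ 2 ^ m := pow_le_pow_right₀ (by norm_num) hm.1
    exact ⟨hm.2, h1.trans h3, h2.trans h3⟩
  have hcnt' : (N : ℝ) + 1 - m0 ≤ cnt N i j := by
    have : N + 1 ≤ cnt N i j + m0 := by omega
    have : ((N + 1 : ℕ) : ℝ) ≤ ((cnt N i j + m0 : ℕ) : ℝ) := by exact_mod_cast this
    push_cast at this
    linarith
  by_cases h0 : m0 = 0
  · have h3 := hup L 0 c I hI (Nat.zero_le _) (x j) (x i) (Or.inl rfl)
    refine h3.trans ?_
    apply mul_le_mul_of_nonneg_left _ hC.le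
    rw [h0] at hcnt'
    push_cast at hcnt' ⊢
    linarith
  · obtain ⟨m, hm⟩ := Nat.exists_eq_succ_of_ne_zero h0
    have hmlt : m < Nat.find hex := by omega
    have h4 := Nat.find_min hex hmlt
    have h5 : x j ∉ ball (x i) (2 ^ m) := by
      intro hmem
      apply h4
      constructor
      · have := hx i hi j hj (2 ^ m) (mem_ball_symm.1 hmem)
        push_cast at this
        exact this
      · have := hx j hj i hi (2 ^ m) hmem
        push_cast at this
        exact this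
    have h3 := hup L m c I hI (by omega) (x j) (x i) (Or.inr h5)
    refine h3.trans ?_
    apply mul_le_mul_of_nonneg_left _ hC.le
    have : (m0 : ℝ) = m + 1 := by rw [hm]; push_cast; ring
    linarith

/-- potential of the point charges -/
noncomputable def pot (I : Finset V) (r : ℕ) (x : ℕ → V) (v : V) : ℝ :=
  ∑ j ∈ Finset.range r, gr I (x j) v

lemma lap_sum {ι : Type*} (s : Finset ι) (f : ι → V → ℝ) (v : V) :
    lap (fun v => ∑ j ∈ s, f j v) v = ∑ j ∈ s, lap (f j) v := by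
  unfold lap
  simp only [Finset.sum_sub_distrib, Finset.sum_add_distrib, Finset.mul_sum]

lemma pot_out {I : Finset V} {r : ℕ} {x : ℕ → V} {v : V} (hv : v ∉ I) : pot I r x v = 0 :=
  Finset.sum_eq_zero (fun _ _ => gr_out hv)

lemma D_pot {I : Finset V} {r : ℕ} {x : ℕ → V} (hx : ∀ j < r, x j ∈ I) {w : V → ℝ}
    (hw : ∀ v ∉ I, w v = 0) : D (pot I r x) w = ∑ j ∈ Finset.range r, w (x j) := by
  rw [D_eq_sum hw]
  have h1 : ∀ v ∈ I, lap (pot I r x) v * w v =
      ∑ j ∈ Finset.range r, (if v = x j then w v else 0) := by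
    intro v hv
    unfold pot
    rw [lap_sum, Finset.sum_mul]
    refine Finset.sum_congr rfl (fun j _ => ?_)
    rw [lap_gr hv]
    split_ifs <;> simp
  rw [Finset.sum_congr rfl h1, Finset.sum_comm]
  refine Finset.sum_congr rfl (fun j hj => ?_)
  rw [Finset.sum_ite_eq' I (x j) w, if_pos (hx j (Finset.mem_range.1 hj))]

lemma D_pot_le {C : ℝ} (hC : 0 < C) (hup : ∀ (L j : ℕ) (c : V) (I : Finset V), I ⊆ ball c (2 ^ L) →
      j ≤ L → ∀ x y : V, (j = 0 ∨ x ∉ ball y (2 ^ j)) → gr I y x ≤ C * ((L : ℝ) - j + 1))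
    {L N : ℕ} (hN : N ≤ L) {c : V} {I : Finset V} (hI : I ⊆ ball c (2 ^ L)) {x : ℕ → V}
    (hx : ∀ i < 2 ^ N, ∀ j < 2 ^ N, ∀ d : ℕ, x i ∈ ball (x j) d → (i : ℤ) - j ≤ d)
    (hxI : ∀ j < 2 ^ N, x j ∈ I) :
    D (pot I (2 ^ N) x) (pot I (2 ^ N) x) ≤ 6 * C * 4 ^ N * ((L : ℝ) - N + 1) := by
  rw [D_pot hxI (fun v hv => pot_out hv)]
  unfold pot
  have h1 : ∑ i ∈ Finset.range (2 ^ N), ∑ j ∈ Finset.range (2 ^ N), gr I (x j) (x i) ≤
      ∑ i ∈ Finset.range (2 ^ N), ∑ j ∈ Finset.range (2 ^ N),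
        (C * ((L : ℝ) - N + 1) + C * (cnt N i j : ℝ)) := by
    refine Finset.sum_le_sum (fun i hi => Finset.sum_le_sum (fun j hj => ?_))
    rw [Finset.mem_range] at hi hj
    rw [gr_symm]
    have := gr_pair hC hup hN hI hx hi hj
    linarith
  refine h1.trans ?_
  have h2 := sum_cnt N
  simp only [Finset.sum_add_distrib, ← Finset.mul_sum]
  simp only [Finset.sum_const, Finset.card_range, nsmul_eq_mul]
  have h4 : (4 : ℝ) ^ N = 2 ^ N * 2 ^ N := by
    rw [← mul_pow]; norm_num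
  push_cast
  have hL : (0 : ℝ) ≤ (L : ℝ) - N := by
    have : (N : ℝ) ≤ L := by exact_mod_cast hN
    linarith
  have h5 := mul_le_mul_of_nonneg_left h2 hC.le
  have h6 : (0 : ℝ) ≤ C * 4 ^ N := by positivity
  have h7 : (2 : ℝ) ^ N * (2 ^ N * (C * ((L : ℝ) - N + 1))) = C * 4 ^ N * ((L : ℝ) - N + 1) := by
    rw [h4]; ring
  nlinarith

end P6

/-- energy inequality for explored sets -/
theorem energy : ∃ C : ℝ, 0 < C ∧ ∀ (L k : ℕ) (c : V) (I B : Finset V), I ⊆ ball c (2 ^ L) →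
    B ⊆ I → k ≤ L → ∀ {ι : Type} (T : Finset ι) (E : ι → Finset V) (z y : ι → V),
    (∀ i ∈ T, E i ⊆ I) → (∀ i ∈ T, ∀ j ∈ T, E i ⊆ E j ∨ E j ⊆ E i) →
    (∀ i ∈ T, ∀ j ∈ T, i ≠ j → Disjoint (ball (z i) (2 ^ (k + 9))) (ball (z j) (2 ^ (k + 9)))) →
    (∀ i ∈ T, ball (z i) (2 ^ (k + 9)) ⊆ I) →
    (∀ i ∈ T, Disjoint (ball (z i) (2 ^ (k + 9))) B) →
    (∀ i ∈ T, ∃ a ∈ E i, a ∈ ball (z i) (2 ^ k) ∧ Reaches (E i) a (2 ^ (k + 3))) →
    (∀ i ∈ T, y i ∈ ball (z i) (2 ^ (k + 4))) →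
    ∑ i ∈ T, (eqp I B (y i) - hx I (E i) (eqp I B) (y i)) ^ 2 ≤
      C * ((L : ℝ) - k + 1) * cp I B := by
  obtain ⟨C1, hC1, hup⟩ := gr_upper
  obtain ⟨C2, hC2, hhar⟩ := harnack
  refine ⟨6 * C1 * C2 ^ 2, by positivity, ?_⟩
  intro L k c I B hI hB hkL ι T E z y hE htot hdisj hbI hbB hreach hy
  set b : ι → Finset V := fun i => ball (z i) (2 ^ (k + 9)) with hb
  have hkey : ∀ i ∈ T, (eqp I B (y i) - hx I (E i) (eqp I B) (y i)) ^ 2 ≤
      6 * C1 * C2 ^ 2 * ((L : ℝ) - k + 1) * (P6.Fe I B (E i) - P6.Fe I B (E i \ b i)) := by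
    intro i hi
    have hEi := hE i hi
    obtain ⟨a, haE, haz, hR⟩ := hreach i hi
    obtain ⟨x, hx'⟩ := P6.exists_points hR
    have hEb : E i \ b i ⊆ E i := Finset.sdiff_subset
    set w : V → ℝ := fun v => hx I (E i) (eqp I B) v - hx I (E i \ b i) (eqp I B) v with hw
    have hw0 : ∀ v ∉ I, w v = 0 := fun v hv => by
      simp only [hw]
      rw [hx_out hEi hv, hx_out (hEb.trans hEi) hv]; ring
    have hDw : D w w = P6.Fe I B (E i) - P6.Fe I B (E i \ b i) := P6.Fe_diff hB hEb hEi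
    set g : V → ℝ := fun v => eqp I B v - hx I (E i \ b i) (eqp I B) v with hg
    have hgn : ∀ v, 0 ≤ g v := fun v => by
      have := P6.f_le hB (hEb.trans hEi) v
      simp only [hg]; linarith
    have hgh : ∀ v ∈ ball (z i) (32 * 2 ^ (k + 4)), lap g v = 0 := by
      intro v hv
      have hv' : v ∈ ball (z i) (2 ^ (k + 9)) := by
        have : 32 * 2 ^ (k + 4) = 2 ^ (k + 9) := by
          rw [show k + 9 = 5 + (k + 4) by ring, pow_add 2 5]
          norm_num
        rwa [this] at hv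
      have hvI := hbI i hi hv'
      have hvB : v ∉ B := Finset.disjoint_left.1 (hbB i hi) hv'
      simp only [hg]
      rw [lap_sub, lap_eqp hvI hvB, lap_hx hvI (by simp [hb, hv'])]
      ring
    have hyg : ∀ v ∈ ball (z i) (2 ^ (k + 4)), g (y i) ≤ C2 * g v := fun v hv =>
      hhar (z i) (2 ^ (k + 4)) g Nat.one_le_two_pow hgn hgh (y i) (hy i hi) v hv
    have hle : eqp I B (y i) - hx I (E i) (eqp I B) (y i) ≤ g (y i) := by
      have := P6.f_mono hB hEb hEi (y i)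
      simp only [hg]; linarith
    have hge : 0 ≤ eqp I B (y i) - hx I (E i) (eqp I B) (y i) := by
      have := P6.f_le hB hEi (y i)
      linarith
    set h := eqp I B (y i) - hx I (E i) (eqp I B) (y i) with hh
    have hN : k + 3 ≤ L := by
      by_contra hcon
      have h1 : ball (z i) (2 ^ (k + 9)) ⊆ ball c (2 ^ L) := (hbI i hi).trans hI
      have h2 : ((z i).1 + 2 ^ (k + 9), (z i).2) ∈ ball c (2 ^ L) := h1 (by
        have h0 : (0 : ℤ) < 2 ^ (k + 9) := by positivity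
        rw [mem_ball]; push_cast; omega)
      have h3 : ((z i).1 - 2 ^ (k + 9), (z i).2) ∈ ball c (2 ^ L) := h1 (by
        have h0 : (0 : ℤ) < 2 ^ (k + 9) := by positivity
        rw [mem_ball]; push_cast; omega)
      rw [mem_ball] at h2 h3
      push_cast at h2 h3
      have h4 : (2 : ℤ) ^ (k + 9) = 64 * 2 ^ (k + 3) := by
        rw [show k + 9 = 6 + (k + 3) by ring, pow_add 2 6]
        norm_num
      have h5 : (2 : ℤ) ^ L ≤ 2 ^ (k + 3) := pow_le_pow_right₀ (by norm_num) (by omega)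
      have h6 : (0 : ℤ) < 2 ^ (k + 3) := by positivity
      omega
    have hxI : ∀ j < 2 ^ (k + 3), x j ∈ I := fun j hj => hEi (hx' j hj).1
    have hxb : ∀ j < 2 ^ (k + 3), x j ∈ ball (z i) (2 ^ (k + 4)) := by
      intro j hj
      have h1 := mem_ball_trans haz (hx' j hj).2.1
      refine ball_mono ?_ h1
      have e3 : 2 ^ (k + 3) = 8 * 2 ^ k := by rw [pow_add]; ring
      have e4 : 2 ^ (k + 4) = 16 * 2 ^ k := by rw [pow_add]; ring
      rw [e3, e4]
      omega
    have hwx : ∀ j < 2 ^ (k + 3), h ≤ C2 * w (x j) := by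
      intro j hj
      have h1 := hyg (x j) (hxb j hj)
      have h2 : g (x j) = w (x j) := by
        simp only [hg, hw]
        rw [hx_on (hx' j hj).1]
      rw [← h2]
      linarith
    have hDP := P6.D_pot_le hC1 hup hN hI (x := x)
      (fun i hi j hj d hd => (hx' i hi).2.2 j hj d hd) hxI
    have hfin1 : (support (P6.pot I (2 ^ (k + 3)) x)).Finite :=
      fin_of_zero_off (W := I) (fun _ hv => P6.pot_out hv)
    have hfin2 : (support w).Finite := fin_of_zero_off (W := I) hw0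
    have hcs := P6.D_cs hfin1 hfin2
    rw [P6.D_pot hxI hw0] at hcs
    have hsum : 2 ^ (k + 3) * h ≤ C2 * ∑ j ∈ Finset.range (2 ^ (k + 3)), w (x j) := by
      rw [Finset.mul_sum]
      calc (2 : ℝ) ^ (k + 3) * h = ∑ j ∈ Finset.range (2 ^ (k + 3)), h := by simp
        _ ≤ _ := Finset.sum_le_sum (fun j hj => hwx j (Finset.mem_range.1 hj))
    rw [← hDw]
    set S := ∑ j ∈ Finset.range (2 ^ (k + 3)), w (x j) with hS
    have hDw0 : 0 ≤ D w w := D_self_nonneg w
    have h8 : (2 ^ (k + 3) * h) ^ 2 ≤ (C2 * S) ^ 2 :=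
      pow_le_pow_left₀ (by positivity) hsum 2
    have h9 : (C2 * S) ^ 2 ≤ C2 ^ 2 *
        ((6 * C1 * 4 ^ (k + 3) * ((L : ℝ) - (k + 3 : ℕ) + 1)) * D w w) := by
      rw [mul_pow]
      apply mul_le_mul_of_nonneg_left _ (by positivity)
      exact hcs.trans (mul_le_mul_of_nonneg_right hDP hDw0)
    have h10 : ((2 : ℝ) ^ (k + 3)) ^ 2 = 4 ^ (k + 3) := by
      rw [← pow_mul, mul_comm, pow_mul]; norm_num
    have h11 : (4 : ℝ) ^ (k + 3) * h ^ 2 ≤
        4 ^ (k + 3) * (6 * C1 * C2 ^ 2 * ((L : ℝ) - (k + 3 : ℕ) + 1) * D w w) := by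
      calc (4 : ℝ) ^ (k + 3) * h ^ 2 = (2 ^ (k + 3) * h) ^ 2 := by rw [mul_pow, h10]
        _ ≤ _ := h8.trans h9
        _ = _ := by ring
    have h12 : h ^ 2 ≤ 6 * C1 * C2 ^ 2 * ((L : ℝ) - (k + 3 : ℕ) + 1) * D w w :=
      le_of_mul_le_mul_left h11 (by positivity)
    refine h12.trans ?_
    apply mul_le_mul_of_nonneg_right _ hDw0
    apply mul_le_mul_of_nonneg_left _ (by positivity)
    push_cast
    linarith
  have hL : (0 : ℝ) ≤ (L : ℝ) - k := by
    have : (k : ℝ) ≤ L := by exact_mod_cast hkL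
    linarith
  calc ∑ i ∈ T, (eqp I B (y i) - hx I (E i) (eqp I B) (y i)) ^ 2
      ≤ ∑ i ∈ T, 6 * C1 * C2 ^ 2 * ((L : ℝ) - k + 1) *
          (P6.Fe I B (E i) - P6.Fe I B (E i \ b i)) := Finset.sum_le_sum hkey
    _ = 6 * C1 * C2 ^ 2 * ((L : ℝ) - k + 1) *
          ∑ i ∈ T, (P6.Fe I B (E i) - P6.Fe I B (E i \ b i)) := by rw [Finset.mul_sum]
    _ ≤ 6 * C1 * C2 ^ 2 * ((L : ℝ) - k + 1) * cp I B := by
        apply mul_le_mul_of_nonneg_left _ (by positivity)
        refine (P6.chain_sum hB E b T hE htot hdisj).trans (P6.Fe_le hB ?_)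
        intro v hv
        rw [Finset.mem_biUnion] at hv
        obtain ⟨i, hi, hv⟩ := hv
        exact hE i hi (Finset.mem_inter.1 hv).1

end Pool.H92.GFL
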