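import Pool.Agent.helper92.GFL.Defs3
import Pool.Agent.helper92.GFL.AC1
import Pool.Agent.helper92.GFL.AC2
import Pool.Agent.helper92.GFL.P6
import Pool.Agent.helper92.GFL.E1

namespace Pool.H92.GFL

open Function Finset MeasureTheory ProbabilityTheory Pool.H92.GFF
open scoped Classical ENNReal

lemma ac7b_cen_zero (v : V) : cen 0 v = v := by
  unfold cen
  ext <;> simp

lemma ac7b_mem_cen (k : ℕ) (v : V) : v ∈ ball (cen k v) (2 ^ k) := by
  rw [mem_ball]
  unfold cen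
  have h0 : (0 : ℤ) < 2 ^ k := by positivity
  have h1 := Int.emod_add_mul_ediv v.1 (2 ^ k)
  have h2 := Int.emod_nonneg v.1 h0.ne'
  have h3 := Int.emod_lt_of_pos v.1 h0
  have h4 := Int.emod_add_mul_ediv v.2 (2 ^ k)
  have h5 := Int.emod_nonneg v.2 h0.ne'
  have h6 := Int.emod_lt_of_pos v.2 h0
  push_cast
  generalize (2 : ℤ) ^ k * (v.1 / 2 ^ k) = q1 at *
  generalize (2 : ℤ) ^ k * (v.2 / 2 ^ k) = q2 at *
  generalize (2 : ℤ) ^ k = a at *
  omega

lemma ac7b_div_cen {a q : ℤ} (ha : 0 < a) : (a * q + a / 2) / a = q := by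
  rw [Int.add_comm, Int.add_mul_ediv_left _ _ ha.ne']
  have : a / 2 / a = 0 := Int.ediv_eq_zero_of_lt (by omega) (by omega)
  omega

lemma ac7b_cen_cen {k k' : ℕ} (h : k ≤ k') (v : V) : cen k' (cen k v) = cen k' v := by
  obtain ⟨m, rfl⟩ := Nat.exists_eq_add_of_le h
  have h0 : (0 : ℤ) < 2 ^ k := by positivity
  have key : ∀ y : ℤ, (2 ^ k * (y / 2 ^ k) + 2 ^ k / 2) / 2 ^ (k + m) = y / 2 ^ (k + m) := by
    intro y
    rw [pow_add, ← Int.ediv_ediv_of_nonneg h0.le, ← Int.ediv_ediv_of_nonneg h0.le,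
      ac7b_div_cen h0]
  unfold cen
  simp only [key]

lemma ac7b_kmx_spec {U T : Finset V} {x : V → ℝ} {lam : ℝ} {C1 M : ℕ} (hM : 0 < M) {v : V}
    (hv : Allw U T 0 v) :
    Allw U T (kmx U T x lam C1 M v) (cen (kmx U T x lam C1 M v) v) ∧
    (kmx U T x lam C1 M v ≠ 0 →
      Nice x lam (cen (kmx U T x lam C1 M v) v) (kmx U T x lam C1 M v) C1) ∧
    (∀ k' > kmx U T x lam C1 M v, k' < M → Allw U T k' (cen k' v) →
      ¬ Nice x lam (cen k' v) k' C1) ∧ kmx U T x lam C1 M v < M := by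
  set s := (Finset.range M).filter
    (fun k => Allw U T k (cen k v) ∧ Nice x lam (cen k v) k C1) with hs
  have hk : kmx U T x lam C1 M v = s.sup id := rfl
  have h3 : ∀ k' > kmx U T x lam C1 M v, k' < M → Allw U T k' (cen k' v) →
      ¬ Nice x lam (cen k' v) k' C1 := by
    intro k' hk' hM' ha hn
    have h1 : k' ∈ s := by
      rw [hs, Finset.mem_filter, Finset.mem_range]; exact ⟨hM', ha, hn⟩
    have h2 : k' ≤ s.sup id := Finset.le_sup (f := id) h1
    rw [hk] at hk'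
    omega
  by_cases hne : s.Nonempty
  · obtain ⟨i, hi, hi'⟩ := Finset.exists_mem_eq_sup s hne id
    rw [← hk] at hi'
    simp only [id] at hi'
    rw [hi'] at h3 ⊢
    rw [hs, Finset.mem_filter, Finset.mem_range] at hi
    exact ⟨hi.2.1, fun _ => hi.2.2, h3, hi.1⟩
  · rw [Finset.not_nonempty_iff_eq_empty] at hne
    have h0 : kmx U T x lam C1 M v = 0 := by rw [hk, hne]; rfl
    rw [h0] at h3 ⊢
    refine ⟨by rw [ac7b_cen_zero]; exact hv, fun h => absurd rfl h, h3, hM⟩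

/-- the allowed bad cells -/
noncomputable def ac7b_NBs (U T : Finset V) (x : V → ℝ) (lam : ℝ) (C1 k : ℕ) : Finset V :=
  (U.image (cen k)).filter (fun c => Allw U T k c ∧ Bad U T x lam C1 k c)

lemma ac7b_mem_Act {I B U T : Finset V} {x : V → ℝ} {lam : ℝ} {C1 M : ℕ} {E F : Finset V}
    {k : ℕ} {c : V} (h : (k, c) ∈ Act I B U T x lam C1 M E F) :
    ∃ v ∈ F, Allw U T 0 v ∧ 0 < lap (hx I E (eqp I B)) v ∧ k = kmx U T x lam C1 M v ∧
      c = cen k v := by
  unfold Act at h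
  rw [Finset.mem_image] at h
  obtain ⟨v, hv, he⟩ := h
  rw [Finset.mem_filter] at hv
  rw [Prod.mk.injEq] at he
  refine ⟨v, hv.1, hv.2.1, hv.2.2, he.1.symm, ?_⟩
  rw [← he.2, ← he.1]

lemma ac7b_bad {I B U S T : Finset V} {x : V → ℝ} {lam : ℝ} {C1 M : ℕ} (hM : 0 < M)
    (hAM : ∀ k c, Allw U T k c → k < M) (hS : S ⊆ U) (hST : S ⊆ T) {t k : ℕ} {c : V}
    (h : (k, c) ∈ Act I B U T x lam C1 M (Bs U S (fun v => x v ≤ lam) t)
      (Fs U S (fun v => x v ≤ lam) t)) :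
    k < M ∧ c ∈ ac7b_NBs U T x lam C1 k ∧
      ∃ v ∈ Fs U S (fun v => x v ≤ lam) t, v ∈ ball c (2 ^ k) := by
  obtain ⟨v, hvF, hv0, hvl, hk, hc⟩ := ac7b_mem_Act h
  obtain ⟨h1, h2, h3, h4⟩ := ac7b_kmx_spec (x := x) (lam := lam) (C1 := C1) hM hv0
  rw [← hk] at h1 h2 h3 h4
  rw [← hc] at h1 h2
  have hvb : v ∈ ball c (2 ^ k) := by rw [hc]; exact ac7b_mem_cen k v
  refine ⟨h4, ?_, v, hvF, hvb⟩
  unfold ac7b_NBs
  rw [Finset.mem_filter]
  refine ⟨Finset.mem_image.2 ⟨v, Bs_subset hS t (Fs_subset t hvF), hc.symm⟩, h1, ?_⟩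
  intro k' hk' ha
  have hcc : cen k' c = cen k' v := by rw [hc]; exact ac7b_cen_cen hk'.le v
  rw [hcc] at ha ⊢
  refine ⟨h3 k' hk' (hAM _ _ ha) ha, ?_⟩
  rintro ⟨Γ, F, hb1, hb2, hb3, hb4, hb5, hb6⟩
  have hFb : F ⊆ ball (cen k' v) (2 ^ (k' + 9)) := by
    refine hb2.trans (ball_mono ?_)
    have : 2 ^ (k' + 9) = 512 * 2 ^ k' := by rw [pow_add]; ring
    omega
  have hSF : Disjoint S F := by
    rw [Finset.disjoint_left]
    intro w hw hwF
    exact Finset.disjoint_left.1 ha.2 (hFb hwF) (hST hw)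
  obtain ⟨t', _, w, hwΓ, hw⟩ := Fs_cross (o := fun v => x v ≤ lam) hSF hb5 hvF
    (hb1 (ac7b_mem_cen k' v))
  have := Fs_open hw
  exact absurd (hb6 w hwΓ) (not_lt.2 this)

/-- the active times of a cell lie in a short interval -/
lemma ac7b_time {I B U S T : Finset V} {x : V → ℝ} {lam : ℝ} {C1 M : ℕ} (hM : 0 < M)
    (hC1 : 1 ≤ C1) (hS : S ⊆ U) (hST : S ⊆ T) (hBT : B ⊆ T) (hBU : B ⊆ U) (hUI : U ⊆ I)
    (k : ℕ) (c : V) :
    ∃ t1, ∀ t, (k, c) ∈ Act I B U T x lam C1 M (Bs U S (fun v => x v ≤ lam) t)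
      (Fs U S (fun v => x v ≤ lam) t) → t1 ≤ t ∧ t < t1 + C1 * 2 ^ k := by
  set o : V → Prop := fun v => x v ≤ lam with ho
  by_cases hex : ∃ t, (k, c) ∈ Act I B U T x lam C1 M (Bs U S o t) (Fs U S o t)
  swap
  · exact ⟨0, fun t ht => absurd ⟨t, ht⟩ hex⟩
  rcases Nat.eq_zero_or_pos k with hk0 | hk0
  · subst hk0
    obtain ⟨t1, ht1⟩ := hex
    obtain ⟨v, hvF, _, _, _, hc⟩ := ac7b_mem_Act ht1
    rw [ac7b_cen_zero] at hc
    subst hc
    refine ⟨t1, fun t ht => ?_⟩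
    obtain ⟨v', hvF', _, _, _, hc'⟩ := ac7b_mem_Act ht
    rw [ac7b_cen_zero] at hc'
    subst hc'
    have hEq : t = t1 := by
      rcases lt_trichotomy t t1 with h | h | h
      · exact absurd hvF (Finset.disjoint_left.1 (frontier_disjoint h) hvF')
      · exact h
      · exact absurd hvF' (Finset.disjoint_left.1 (frontier_disjoint h) hvF)
    subst hEq
    simp only [pow_zero, mul_one]
    omega
  · -- nice circuit
    have hspec : Allw U T k c ∧ Nice x lam c k C1 := by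
      obtain ⟨t1, ht1⟩ := hex
      obtain ⟨v, hvF, hv0, _, hk, hc⟩ := ac7b_mem_Act ht1
      obtain ⟨h1, h2, h3, h4⟩ := ac7b_kmx_spec (x := x) (lam := lam) (C1 := C1) hM hv0
      rw [← hk] at h1 h2
      rw [← hc] at h1 h2
      exact ⟨h1, h2 (by omega)⟩
    obtain ⟨hA, Γ, F, hb1, hb2, hb3, hb4, hb5, hb6, hb7⟩ := hspec
    have hFb : F ⊆ ball c (2 ^ (k + 9)) := by
      refine hb2.trans (ball_mono ?_)
      have : 2 ^ (k + 9) = 512 * 2 ^ k := by rw [pow_add]; ring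
      omega
    have hFU : F ⊆ U := hFb.trans hA.1
    have hSF : Disjoint S F := by
      rw [Finset.disjoint_left]
      intro w hw hwF
      exact Finset.disjoint_left.1 hA.2 (hFb hwF) (hST hw)
    have hFB : Disjoint F B := by
      rw [Finset.disjoint_left]
      intro w hw hwB
      exact Finset.disjoint_left.1 hA.2 (hFb hw) (hBT hwB)
    have hcross : ∀ t, (k, c) ∈ Act I B U T x lam C1 M (Bs U S o t) (Fs U S o t) →
        ∃ t' ≤ t, ∃ w ∈ Γ, w ∈ Fs U S o t' := by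
      intro t ht
      obtain ⟨v, hvF, hv0, _, hk, hc⟩ := ac7b_mem_Act ht
      refine Fs_cross hSF hb5 hvF (hb1 ?_)
      rw [hc]; exact ac7b_mem_cen k v
    have hex2 : ∃ t', ∃ w ∈ Γ, w ∈ Fs U S o t' := by
      obtain ⟨t, ht⟩ := hex
      obtain ⟨t', _, h⟩ := hcross t ht
      exact ⟨t', h⟩
    set t1 := Nat.find hex2 with ht1
    obtain ⟨w, hwΓ, hw⟩ := Nat.find_spec hex2
    rw [← ht1] at hw
    refine ⟨t1, fun t ht => ?_⟩
    obtain ⟨t', ht', h'⟩ := hcross t ht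
    have hle : t1 ≤ t := (Nat.find_min' hex2 h').trans ht'
    refine ⟨hle, ?_⟩
    by_contra hcon
    rw [not_lt] at hcon
    have hΓE : Γ ⊆ Bs U S o t := by
      intro w' hw'
      refine Bs_mono hcon ?_
      refine Bs_of_conn (O := {v | v ∈ Ann c k ∧ x v ≤ lam}) hS ?_ (Fs_subset t1 hw)
        (hb7 w hwΓ w' hw')
      rintro v ⟨hv1, hv2⟩
      refine ⟨hA.1 (ball_mono ?_ hv1.1), hv2⟩
      have : 2 ^ (k + 9) = 512 * 2 ^ k := by rw [pow_add]; ring
      omega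
    have hEI : Bs U S o t ⊆ I := (Bs_subset hS t).trans hUI
    have hg : ∀ v ∈ F, gE I B (Bs U S o t) v = 0 := fun v hv =>
      gE_region (hBU.trans hUI) hEI (hFU.trans hUI) hFB hb5 hΓE hv
    obtain ⟨v, hvF, hv0, hvl, hk, hc⟩ := ac7b_mem_Act ht
    have hvb : v ∈ ball c (2 ^ k) := by rw [hc]; exact ac7b_mem_cen k v
    have hvF' : v ∈ F := hb1 hvb
    have hvΓ : v ∉ Γ := fun h => Finset.disjoint_left.1 hb4 h hvb
    rw [lap_hx_eqp (hBU.trans hUI) hEI (Fs_subset t hvF),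
      if_neg (Finset.disjoint_left.1 hFB hvF')] at hvl
    rw [Finset.sum_eq_zero] at hvl
    · linarith
    · intro w hw
      refine hg w ?_
      by_contra hwF
      exact hvΓ (hb5 v hvF' w hw hwF)

lemma ac7b_inn {N L : ℕ} (hN : N ≤ 2 ^ L) : inn N ⊆ ball 0 (2 ^ L) := by
  intro v hv
  rw [mem_inn] at hv
  rw [mem_ball]
  simp only [Prod.fst_zero, Prod.snd_zero]
  push_cast
  have h : (N : ℤ) ≤ 2 ^ L := by exact_mod_cast hN
  generalize (2 : ℤ) ^ L = a at *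
  omega

lemma ac7b_Allw_lt {N L : ℕ} (hN : N ≤ 2 ^ L) {U T : Finset V} (hU : U ⊆ inn N) {k : ℕ} {c : V}
    (h : Allw U T k c) : k < L := by
  by_contra hcon
  rw [not_lt] at hcon
  have h0 : (0 : ℤ) < 2 ^ (k + 9) := by positivity
  have h1 : (c.1 + 2 ^ (k + 9), c.2) ∈ inn N := hU (h.1 (by
    rw [mem_ball]; push_cast; omega))
  have h2 : (c.1 - 2 ^ (k + 9), c.2) ∈ inn N := hU (h.1 (by
    rw [mem_ball]; push_cast; omega))
  rw [mem_inn] at h1 h2
  simp only at h1 h2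
  have h3 : (N : ℤ) ≤ 2 ^ L := by exact_mod_cast hN
  have h4 : (2 : ℤ) ^ L ≤ 2 ^ (k + 9) := pow_le_pow_right₀ (by norm_num) (by omega)
  generalize (2 : ℤ) ^ L = a at *
  generalize (2 : ℤ) ^ (k + 9) = b at *
  omega

/-- colour of a cell -/
def ac7b_col (k : ℕ) (c : V) : ℤ × ℤ := ((c.1 / 2 ^ k) % 2 ^ 11, (c.2 / 2 ^ k) % 2 ^ 11)

lemma ac7b_col_disj {k : ℕ} {v v' : V} (hne : cen k v ≠ cen k v')
    (hcol : ac7b_col k (cen k v) = ac7b_col k (cen k v')) :
    Disjoint (ball (cen k v) (2 ^ (k + 9))) (ball (cen k v') (2 ^ (k + 9))) := by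
  have h0 : (0 : ℤ) < 2 ^ k := by positivity
  unfold ac7b_col cen at hcol
  simp only [ac7b_div_cen h0, Prod.mk.injEq] at hcol
  rw [Finset.disjoint_left]
  intro w hw hw'
  rw [mem_ball] at hw hw'
  unfold cen at hw hw'
  simp only at hw hw'
  push_cast at hw hw'
  apply hne
  unfold cen
  have e9 : (2 : ℤ) ^ (k + 9) = 512 * 2 ^ k := by rw [pow_add]; ring
  rw [e9] at hw hw'
  have key : ∀ q q' y : ℤ, 2 ^ k * q + 2 ^ k / 2 - 512 * 2 ^ k ≤ y →
      y ≤ 2 ^ k * q + 2 ^ k / 2 + 512 * 2 ^ k → 2 ^ k * q' + 2 ^ k / 2 - 512 * 2 ^ k ≤ y →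
      y ≤ 2 ^ k * q' + 2 ^ k / 2 + 512 * 2 ^ k → q % 2 ^ 11 = q' % 2 ^ 11 → q = q' := by
    intro q q' y h1 h2 h3 h4 h5
    have h6 : (2 : ℤ) ^ k * (q - q') ≤ 2 ^ k * 1024 := by linarith
    have h7 : (2 : ℤ) ^ k * (q' - q) ≤ 2 ^ k * 1024 := by linarith
    have h8 := le_of_mul_le_mul_left h6 h0
    have h9 := le_of_mul_le_mul_left h7 h0
    norm_num at h5
    omega
  have k1 := key _ _ _ hw.1.1 hw.1.2 hw'.1.1 hw'.1.2 hcol.1
  have k2 := key _ _ _ hw.2.1 hw.2.2 hw'.2.1 hw'.2.2 hcol.2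
  rw [k1, k2]

/-- the active cells over all times -/
theorem count_bound (n0 : ℕ) : ∃ C : ℝ, 0 < C ∧
    ∀ (κ N : ℕ) (U : Finset V) (p e : V) (n : ℕ), 16 ≤ κ → Geo n0 κ N U p e n →
    ∀ (S B : Finset V), S = ball p (2 ^ (κ - 2)) → B = ball (p + n • e) (2 ^ (κ - 2)) →
    ∀ (x : V → ℝ) (lam : ℝ) (R C1 : ℕ), 1 ≤ C1 → ¬ Reach U S B x lam R →
    ∑ t ∈ Finset.Icc 1 R, ∑ Q ∈ Act (inn N) B U (S ∪ B) x lam C1 (κ + n0)
        (Bs U S (fun v => x v ≤ lam) t) (Fs U S (fun v => x v ≤ lam) t),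
      Gh (inn N) B (Bs U S (fun v => x v ≤ lam) t) Q * ((κ + n0 : ℝ) - Q.1 + 1) ≤
    C * C1 * ∑ k ∈ Finset.range (κ + n0), 2 ^ k *
        √(NB U (S ∪ B) x lam C1 k : ℝ) * ((κ + n0 : ℝ) - k + 1) ^ 2 := by
  obtain ⟨C2, hC2, hen⟩ := energy
  obtain ⟨C3, hC3, hcp⟩ := cp_corridor
  refine ⟨2 ^ 22 * √(C2 * C3), by positivity, ?_⟩
  intro κ N U p e n hκ hG S B hSdef hBdef x lam R C1 hC1 hR
  set o : V → Prop := fun v => x v ≤ lam with ho
  set L := κ + n0 with hL
  set I := inn N with hI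
  set T := S ∪ B with hT
  have hST : S ⊆ T := Finset.subset_union_left
  have hBT : B ⊆ T := Finset.subset_union_right
  have hκ2 : 2 ^ (κ - 2) ≤ 2 ^ κ := Nat.pow_le_pow_right (by norm_num) (by omega)
  have hS : S ⊆ U := by
    rw [hSdef]
    have := hG.hseg 0 (Nat.zero_le _)
    rw [zero_smul, add_zero] at this
    exact (ball_mono hκ2).trans this
  have hBU : B ⊆ U := by
    rw [hBdef]
    exact (ball_mono hκ2).trans (hG.hseg n le_rfl)
  have hUI : U ⊆ I := hG.hUI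
  have hBI : B ⊆ I := hBU.trans hUI
  have hcpB : cp I B ≤ C3 := by
    rw [hBdef]
    exact hcp N κ _ (by omega) ((hG.hseg n le_rfl).trans hUI)
  have hIb : I ⊆ ball 0 (2 ^ L) := ac7b_inn hG.hN
  have hAM : ∀ k c, Allw U T k c → k < L := fun k c h => ac7b_Allw_lt hG.hN hUI h
  have hM : 0 < L := by omega
  set E : ℕ → Finset V := fun t => Bs U S o t with hE
  set A : ℕ → Finset (ℕ × V) := fun t => Act I B U T x lam C1 L (Bs U S o t) (Fs U S o t) with hA
  have hEI : ∀ t, E t ⊆ I := fun t => (Bs_subset hS t).trans hUI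
  have hbad : ∀ t k c, (k, c) ∈ A t → k < L ∧ c ∈ ac7b_NBs U T x lam C1 k ∧
      ∃ v ∈ Fs U S o t, v ∈ ball c (2 ^ k) := fun t k c h => ac7b_bad hM hAM hS hST h
  have htime : ∀ k c, ∃ t1, ∀ t, (k, c) ∈ A t → t1 ≤ t ∧ t < t1 + C1 * 2 ^ k := fun k c =>
    ac7b_time hM hC1 hS hST hBT hBU hUI k c
  choose t1 ht1 using htime
  have hGh0 : ∀ t Q, 0 ≤ Gh I B (E t) Q := by
    intro t Q
    unfold Gh
    exact (gE_nonneg hBI (hEI t) Q.2).trans (Finset.le_sup' (gE I B (E t)) (mem_ball_self _ _))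
  -- the fixed time shift
  have hclass : ∀ k < L, ∀ τ : ℕ,
      ∑ c ∈ (ac7b_NBs U T x lam C1 k).filter (fun c => (k, c) ∈ A (t1 k c + τ)),
        Gh I B (E (t1 k c + τ)) (k, c) ≤
      2 ^ 22 * √(C2 * C3) * (√(NB U T x lam C1 k : ℝ) * ((L : ℝ) - k + 1)) := by
    intro k hk τ
    set Tt := (ac7b_NBs U T x lam C1 k).filter (fun c => (k, c) ∈ A (t1 k c + τ)) with hTt
    obtain ⟨Cols, hcard, hmaps⟩ : ∃ Cols : Finset (ℤ × ℤ), Cols.card = 2 ^ 22 ∧
        ∀ c ∈ Tt, ac7b_col k c ∈ Cols := by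
      refine ⟨Finset.Ico 0 (2 ^ 11) ×ˢ Finset.Ico 0 (2 ^ 11), ?_, fun c _ => ?_⟩
      · have h11 : ((2 : ℤ) ^ 11 - 0).toNat = 2 ^ 11 := by norm_num [Int.toNat]
        rw [Finset.card_product, Int.card_Ico, h11]
        norm_num
      · rw [Finset.mem_product, Finset.mem_Ico, Finset.mem_Ico]
        unfold ac7b_col
        exact ⟨⟨Int.emod_nonneg _ (by norm_num), Int.emod_lt_of_pos _ (by norm_num)⟩,
          ⟨Int.emod_nonneg _ (by norm_num), Int.emod_lt_of_pos _ (by norm_num)⟩⟩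
    rw [← Finset.sum_fiberwise_of_maps_to hmaps]
    have hLk : (1 : ℝ) ≤ (L : ℝ) - k + 1 := by
      have : (k : ℝ) < L := by exact_mod_cast hk
      linarith
    have hone : ∀ q ∈ Cols, ∑ c ∈ Tt.filter (fun c => ac7b_col k c = q),
        Gh I B (E (t1 k c + τ)) (k, c) ≤
        √(C2 * C3) * (√(NB U T x lam C1 k : ℝ) * ((L : ℝ) - k + 1)) := by
      intro q _
      set T' := Tt.filter (fun c => ac7b_col k c = q) with hT'
      have hmemT' : ∀ c ∈ T', c ∈ ac7b_NBs U T x lam C1 k ∧ (k, c) ∈ A (t1 k c + τ) ∧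
          ac7b_col k c = q := by
        intro c hc
        rw [hT', Finset.mem_filter, hTt, Finset.mem_filter] at hc
        exact ⟨hc.1.1, hc.1.2, hc.2⟩
      have hcenT' : ∀ c ∈ T', ∃ v, cen k v = c := by
        intro c hc
        have := (hmemT' c hc).1
        unfold ac7b_NBs at this
        rw [Finset.mem_filter, Finset.mem_image] at this
        obtain ⟨⟨v, _, hv⟩, _⟩ := this
        exact ⟨v, hv⟩
      have hAllT' : ∀ c ∈ T', Allw U T k c := by
        intro c hc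
        have := (hmemT' c hc).1
        unfold ac7b_NBs at this
        rw [Finset.mem_filter] at this
        exact this.2.1
      have hy : ∀ c : V, ∃ y ∈ ball c (8 * 2 ^ k + 1),
          Gh I B (E (t1 k c + τ)) (k, c) = gE I B (E (t1 k c + τ)) y := fun c =>
        Finset.exists_mem_eq_sup' ⟨c, mem_ball_self _ _⟩ (gE I B (E (t1 k c + τ)))
      choose y hy1 hy2 using hy
      have hen' := hen L k 0 I B hIb hBI hk.le T' (fun c => E (t1 k c + τ)) (fun c => c) y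
        (fun c _ => hEI _)
        (fun c _ c' _ => by
          rcases le_total (t1 k c + τ) (t1 k c' + τ) with h | h
          · exact Or.inl (Bs_mono h)
          · exact Or.inr (Bs_mono h))
        (fun c hc c' hc' hne => by
          obtain ⟨v, rfl⟩ := hcenT' c hc
          obtain ⟨v', rfl⟩ := hcenT' c' hc'
          exact ac7b_col_disj hne ((hmemT' _ hc).2.2.trans (hmemT' _ hc').2.2.symm))
        (fun c hc => (hAllT' c hc).1.trans hUI)
        (fun c hc => (hAllT' c hc).2.mono_right hBT)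
        (fun c hc => by
          obtain ⟨_, _, v, hvF, hvb⟩ := hbad _ k c (hmemT' c hc).2.1
          have hvE : v ∈ E (t1 k c + τ) := Fs_subset _ hvF
          refine ⟨v, hvE, hvb, ?_⟩
          obtain ⟨m, b, hbS, hconn⟩ := Bs_conn hvE
          refine ⟨m, b, hconn, fun hb => ?_⟩
          refine Finset.disjoint_left.1 (hAllT' c hc).2 ?_ (hST hbS)
          refine ball_mono ?_ (mem_ball_trans hvb hb)
          have e3 : 2 ^ (k + 3) = 8 * 2 ^ k := by rw [pow_add]; ring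
          have e9 : 2 ^ (k + 9) = 512 * 2 ^ k := by rw [pow_add]; ring
          omega)
        (fun c _ => by
          refine ball_mono ?_ (hy1 c)
          have e4 : 2 ^ (k + 4) = 16 * 2 ^ k := by rw [pow_add]; ring
          have : 0 < 2 ^ k := by positivity
          omega)
      have hsq : ∑ c ∈ T', Gh I B (E (t1 k c + τ)) (k, c) ^ 2 ≤
          C2 * ((L : ℝ) - k + 1) * C3 := by
        calc ∑ c ∈ T', Gh I B (E (t1 k c + τ)) (k, c) ^ 2
            = ∑ c ∈ T', (eqp I B (y c) - hx I (E (t1 k c + τ)) (eqp I B) (y c)) ^ 2 := by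
              refine Finset.sum_congr rfl (fun c _ => ?_)
              rw [hy2 c]; rfl
          _ ≤ C2 * ((L : ℝ) - k + 1) * cp I B := hen'
          _ ≤ C2 * ((L : ℝ) - k + 1) * C3 :=
              mul_le_mul_of_nonneg_left hcpB (by positivity)
      have hcardT' : (T'.card : ℝ) ≤ (NB U T x lam C1 k : ℝ) := by
        have : T' ⊆ ac7b_NBs U T x lam C1 k := fun c hc => (hmemT' c hc).1
        exact_mod_cast Finset.card_le_card this
      have hcs : (∑ c ∈ T', Gh I B (E (t1 k c + τ)) (k, c)) ^ 2 ≤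
          (C2 * C3) * ((NB U T x lam C1 k : ℝ) * ((L : ℝ) - k + 1) ^ 2) := by
        calc (∑ c ∈ T', Gh I B (E (t1 k c + τ)) (k, c)) ^ 2
            ≤ T'.card * ∑ c ∈ T', Gh I B (E (t1 k c + τ)) (k, c) ^ 2 :=
              sq_sum_le_card_mul_sum_sq
          _ ≤ (NB U T x lam C1 k : ℝ) * (C2 * ((L : ℝ) - k + 1) * C3) :=
              mul_le_mul hcardT' hsq (Finset.sum_nonneg (fun _ _ => sq_nonneg _))
                (Nat.cast_nonneg _)
          _ = (C2 * C3) * ((NB U T x lam C1 k : ℝ) * ((L : ℝ) - k + 1)) := by ring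
          _ ≤ (C2 * C3) * ((NB U T x lam C1 k : ℝ) * ((L : ℝ) - k + 1) ^ 2) := by
              apply mul_le_mul_of_nonneg_left _ (by positivity)
              apply mul_le_mul_of_nonneg_left _ (Nat.cast_nonneg _)
              nlinarith
      refine ((le_abs_self _).trans (Real.abs_le_sqrt hcs)).trans (le_of_eq ?_)
      rw [Real.sqrt_mul (by positivity), Real.sqrt_mul (Nat.cast_nonneg _),
        Real.sqrt_sq (by linarith)]
    calc ∑ q ∈ Cols, ∑ c ∈ Tt.filter (fun c => ac7b_col k c = q),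
          Gh I B (E (t1 k c + τ)) (k, c)
        ≤ ∑ q ∈ Cols, √(C2 * C3) * (√(NB U T x lam C1 k : ℝ) * ((L : ℝ) - k + 1)) :=
          Finset.sum_le_sum hone
      _ = 2 ^ 22 * √(C2 * C3) * (√(NB U T x lam C1 k : ℝ) * ((L : ℝ) - k + 1)) := by
          rw [Finset.sum_const, hcard, nsmul_eq_mul]
          push_cast; ring
  -- the sum over the times, for a fixed cell
  have hcell : ∀ k c, ∑ t ∈ (Finset.Icc 1 R).filter (fun t => (k, c) ∈ A t),
      Gh I B (E t) (k, c) ≤ ∑ τ ∈ Finset.range (C1 * 2 ^ k),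
        if (k, c) ∈ A (t1 k c + τ) then Gh I B (E (t1 k c + τ)) (k, c) else 0 := by
    intro k c
    rw [← Finset.sum_filter]
    have himg : ∀ t ∈ (Finset.Icc 1 R).filter (fun t => (k, c) ∈ A t),
        t ∈ ((Finset.range (C1 * 2 ^ k)).filter (fun τ => (k, c) ∈ A (t1 k c + τ))).image
          (fun τ => t1 k c + τ) := by
      intro t ht
      rw [Finset.mem_filter] at ht
      obtain ⟨h1, h2⟩ := ht1 k c t ht.2
      rw [Finset.mem_image]
      refine ⟨t - t1 k c, ?_, by omega⟩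
      rw [Finset.mem_filter, Finset.mem_range]
      refine ⟨by omega, ?_⟩
      have : t1 k c + (t - t1 k c) = t := by omega
      rw [this]; exact ht.2
    calc ∑ t ∈ (Finset.Icc 1 R).filter (fun t => (k, c) ∈ A t), Gh I B (E t) (k, c)
        ≤ ∑ t ∈ ((Finset.range (C1 * 2 ^ k)).filter (fun τ => (k, c) ∈ A (t1 k c + τ))).image
          (fun τ => t1 k c + τ), Gh I B (E t) (k, c) :=
          Finset.sum_le_sum_of_subset_of_nonneg himg (fun t _ _ => hGh0 t _)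
      _ = _ := by
          rw [Finset.sum_image (fun a _ b _ hab => by simpa using hab)]
  -- assembly
  have hk : ∀ k < L, ∑ t ∈ Finset.Icc 1 R, ∑ Q ∈ (A t).filter (fun Q => Q.1 = k),
      Gh I B (E t) Q ≤ C1 * 2 ^ k *
        (2 ^ 22 * √(C2 * C3) * (√(NB U T x lam C1 k : ℝ) * ((L : ℝ) - k + 1))) := by
    intro k hk
    have h1 : ∀ t, ∑ Q ∈ (A t).filter (fun Q => Q.1 = k), Gh I B (E t) Q =
        ∑ c ∈ ac7b_NBs U T x lam C1 k, if (k, c) ∈ A t then Gh I B (E t) (k, c) else 0 := by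
      intro t
      rw [← Finset.sum_filter]
      have : (A t).filter (fun Q => Q.1 = k) =
          ((ac7b_NBs U T x lam C1 k).filter (fun c => (k, c) ∈ A t)).image (fun c => (k, c)) := by
        ext Q
        obtain ⟨k', c⟩ := Q
        rw [Finset.mem_filter, Finset.mem_image]
        constructor
        · rintro ⟨hQ, rfl⟩
          exact ⟨c, Finset.mem_filter.2 ⟨(hbad t _ c hQ).2.1, hQ⟩, rfl⟩
        · rintro ⟨c', hc', he⟩
          rw [Prod.mk.injEq] at he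
          obtain ⟨rfl, rfl⟩ := he
          exact ⟨(Finset.mem_filter.1 hc').2, rfl⟩
      rw [this, Finset.sum_image (fun a _ b _ hab => by simpa using hab)]
    simp only [h1]
    rw [Finset.sum_comm]
    calc ∑ c ∈ ac7b_NBs U T x lam C1 k, ∑ t ∈ Finset.Icc 1 R,
          (if (k, c) ∈ A t then Gh I B (E t) (k, c) else 0)
        ≤ ∑ c ∈ ac7b_NBs U T x lam C1 k, ∑ τ ∈ Finset.range (C1 * 2 ^ k),
          (if (k, c) ∈ A (t1 k c + τ) then Gh I B (E (t1 k c + τ)) (k, c) else 0) := by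
          refine Finset.sum_le_sum (fun c _ => ?_)
          rw [← Finset.sum_filter]
          exact hcell k c
      _ = ∑ τ ∈ Finset.range (C1 * 2 ^ k), ∑ c ∈ ac7b_NBs U T x lam C1 k,
          (if (k, c) ∈ A (t1 k c + τ) then Gh I B (E (t1 k c + τ)) (k, c) else 0) :=
          Finset.sum_comm
      _ ≤ ∑ τ ∈ Finset.range (C1 * 2 ^ k),
          2 ^ 22 * √(C2 * C3) * (√(NB U T x lam C1 k : ℝ) * ((L : ℝ) - k + 1)) := by
          refine Finset.sum_le_sum (fun τ _ => ?_)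
          rw [← Finset.sum_filter]
          exact hclass k hk τ
      _ = _ := by
          rw [Finset.sum_const, Finset.card_range, nsmul_eq_mul]
          push_cast; ring
  have hLc : ((κ : ℝ) + n0) = (L : ℝ) := by rw [hL]; push_cast; ring
  rw [hLc]
  have hmaps : ∀ t, ∀ Q ∈ A t, Q.1 ∈ Finset.range L := by
    intro t Q hQ
    obtain ⟨k, c⟩ := Q
    exact Finset.mem_range.2 (hbad t k c hQ).1
  calc ∑ t ∈ Finset.Icc 1 R, ∑ Q ∈ A t, Gh I B (E t) Q * ((L : ℝ) - Q.1 + 1)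
      = ∑ t ∈ Finset.Icc 1 R, ∑ k ∈ Finset.range L, ∑ Q ∈ (A t).filter (fun Q => Q.1 = k),
          Gh I B (E t) Q * ((L : ℝ) - Q.1 + 1) := by
        refine Finset.sum_congr rfl (fun t _ => ?_)
        exact (Finset.sum_fiberwise_of_maps_to (hmaps t) _).symm
    _ = ∑ k ∈ Finset.range L, ∑ t ∈ Finset.Icc 1 R, ∑ Q ∈ (A t).filter (fun Q => Q.1 = k),
          Gh I B (E t) Q * ((L : ℝ) - Q.1 + 1) := Finset.sum_comm
    _ = ∑ k ∈ Finset.range L, (∑ t ∈ Finset.Icc 1 R, ∑ Q ∈ (A t).filter (fun Q => Q.1 = k),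
          Gh I B (E t) Q) * ((L : ℝ) - k + 1) := by
        refine Finset.sum_congr rfl (fun k _ => ?_)
        rw [Finset.sum_mul]
        refine Finset.sum_congr rfl (fun t _ => ?_)
        rw [Finset.sum_mul]
        refine Finset.sum_congr rfl (fun Q hQ => ?_)
        rw [(Finset.mem_filter.1 hQ).2]
    _ ≤ ∑ k ∈ Finset.range L, (C1 * 2 ^ k *
        (2 ^ 22 * √(C2 * C3) * (√(NB U T x lam C1 k : ℝ) * ((L : ℝ) - k + 1)))) *
          ((L : ℝ) - k + 1) := by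
        refine Finset.sum_le_sum (fun k hk' => ?_)
        rw [Finset.mem_range] at hk'
        refine mul_le_mul_of_nonneg_right (hk k hk') ?_
        have : (k : ℝ) < L := by exact_mod_cast hk'
        linarith
    _ = 2 ^ 22 * √(C2 * C3) * C1 * ∑ k ∈ Finset.range L, 2 ^ k *
        √(NB U T x lam C1 k : ℝ) * ((L : ℝ) - k + 1) ^ 2 := by
        rw [Finset.mul_sum]
        refine Finset.sum_congr rfl (fun k _ => ?_)
        ring

end Pool.H92.GFL
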