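import Pool.Agent.helper92.GFL.Defs3
import Pool.Agent.helper92.GFL.AC2
import Pool.Agent.helper92.GFL.E1

namespace Pool.H92.GFL

open Function Finset MeasureTheory ProbabilityTheory Pool.H92.GFF
open scoped Classical ENNReal

lemma ac7c_ball_mono {z : V} {r s : ℕ} (h : r ≤ s) : ball z r ⊆ ball z s := by
  intro v hv
  rw [mem_ball] at hv ⊢
  omega

lemma ac7c_card_ball (z : V) (r : ℕ) : (ball z r).card = (2 * r + 1) ^ 2 := by
  unfold ball
  rw [Finset.card_product, Int.card_Icc, Int.card_Icc]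
  have h1 : (z.1 + r + 1 - (z.1 - r)).toNat = 2 * r + 1 := by omega
  have h2 : (z.2 + r + 1 - (z.2 - r)).toNat = 2 * r + 1 := by omega
  rw [h1, h2]
  ring

lemma ac7c_ring (z : V) (κ : ℕ) (hκ : 16 ≤ κ) :
    (ball z (2 ^ (κ - 2) + 512) \ ball z (2 ^ (κ - 2))).card ≤ 2 ^ (κ + 11) := by
  rw [Finset.card_sdiff_of_subset (ac7c_ball_mono (by omega)), ac7c_card_ball, ac7c_card_ball]
  obtain ⟨m, rfl⟩ : ∃ m, κ = m + 16 := ⟨κ - 16, by omega⟩
  have h1 : 2 ^ (m + 16 - 2) = 2 ^ 14 * 2 ^ m := by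
    rw [show m + 16 - 2 = 14 + m by omega, pow_add]
  have h2 : 2 ^ (m + 16 + 11) = 2 ^ 27 * 2 ^ m := by
    rw [show m + 16 + 11 = 27 + m by omega, pow_add]
  rw [h1, h2]
  have h3 : 1 ≤ 2 ^ m := Nat.one_le_two_pow
  generalize 2 ^ m = y at h3
  rw [Nat.sub_le_iff_le_add]
  nlinarith

lemma ac7c_near {z v : V} {r : ℕ} (hv : ¬ Disjoint (ball v 512) (ball z r)) :
    v ∈ ball z (r + 512) := by
  rw [Finset.not_disjoint_iff] at hv
  obtain ⟨w, hw, hw'⟩ := hv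
  rw [mem_ball] at hw hw' ⊢
  push_cast
  push_cast at hw hw'
  omega

lemma ac7c_pow (κ : ℕ) (hκ : 16 ≤ κ) : (κ : ℝ) ≤ √((2 : ℝ) ^ κ) := by
  refine Real.le_sqrt_of_sq_le ?_
  have h : κ ^ 2 ≤ 2 ^ κ := by
    induction κ, hκ using Nat.le_induction with
    | base => norm_num
    | succ k hk ih =>
      rw [pow_succ 2 k]
      nlinarith
  exact_mod_cast h

/-- frontier vertices next to `S` or `B` -/
theorem dir_bound (n0 : ℕ) : ∃ C : ℝ, 0 < C ∧
    ∀ (κ N : ℕ) (U : Finset V) (p e : V) (n : ℕ), 16 ≤ κ → Geo n0 κ N U p e n →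
    ∀ (S B : Finset V), S = ball p (2 ^ (κ - 2)) → B = ball (p + n • e) (2 ^ (κ - 2)) →
    ∀ (x : V → ℝ) (lam s : ℝ) (R : ℕ), 0 < lam → 0 ≤ s → ¬ Reach U S B x lam R →
    (lam + s * ((κ + n0 : ℝ) + 2)) * ∑ t ∈ Finset.Icc 1 R,
      ∑ v ∈ (Fs U S (fun v => x v ≤ lam) t).filter
          (fun v => ¬ Allw U (S ∪ B) 0 v ∧ ball v (2 ^ (κ - 3)) ⊆ U),
        lap (hx (inn N) (Bs U S (fun v => x v ≤ lam) t) (eqp (inn N) B)) v ≤
    C * (lam + s) * 2 ^ κ := by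
  obtain ⟨C1, hC1, hcp⟩ := cp_corridor
  refine ⟨(n0 + 3) * √(2 ^ 15 * C1), by positivity, ?_⟩
  intro κ N U p e n hκ hG S B hS hB x lam s R hlam hs hR
  have hpow : 2 ^ (κ - 2) ≤ 2 ^ κ := Nat.pow_le_pow_right (by norm_num) (by omega)
  have hqU : ball (p + n • e) (2 ^ κ) ⊆ U := hG.hseg n le_rfl
  have hpU : ball p (2 ^ κ) ⊆ U := by
    have := hG.hseg 0 (Nat.zero_le _)
    simpa using this
  have hSU : S ⊆ U := hS ▸ (ac7c_ball_mono hpow).trans hpU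
  have hBU : B ⊆ U := hB ▸ (ac7c_ball_mono hpow).trans hqU
  have hBI : B ⊆ inn N := hBU.trans hG.hUI
  have hcpB : cp (inn N) B ≤ C1 := by
    rw [hB]
    exact hcp N κ _ (by omega) (hqU.trans hG.hUI)
  set o : V → Prop := fun v => x v ≤ lam with ho
  set G : ℕ → Finset V := fun t => (Fs U S o t).filter
          (fun v => ¬ Allw U (S ∪ B) 0 v ∧ ball v (2 ^ (κ - 3)) ⊆ U) with hGdef
  set h : ℕ → V → ℝ := fun t v => lap (hx (inn N) (Bs U S o t) (eqp (inn N) B)) v with hh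
  have hsub : ∀ t ∈ Finset.Icc 1 R, G t ⊆ Bs U S o t \ Bs U S o (t - 1) := by
    intro t ht v hv
    rw [Finset.mem_Icc] at ht
    obtain ⟨t', rfl⟩ : ∃ t', t = t' + 1 := ⟨t - 1, by omega⟩
    have hv := (Finset.mem_filter.1 hv).1
    rw [Fs_succ] at hv
    exact (Finset.mem_filter.1 hv).1
  have hsq : ∑ t ∈ Finset.Icc 1 R, ∑ v ∈ G t, h t v ^ 2 ≤ 8 * C1 := by
    have h1 := sumsq hBI (fun t => Bs U S o t) (fun a b hab => Bs_mono hab)
      (fun t => (Bs_subset hSU t).trans hG.hUI) R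
    have h2 : ∑ t ∈ Finset.Icc 1 R, ∑ v ∈ G t, h t v ^ 2 ≤
        ∑ t ∈ Finset.Icc 1 R, ∑ v ∈ Bs U S o t \ Bs U S o (t - 1), h t v ^ 2 :=
      Finset.sum_le_sum (fun t ht =>
        Finset.sum_le_sum_of_subset_of_nonneg (hsub t ht) (fun _ _ _ => sq_nonneg _))
    have h3 : ∑ t ∈ Finset.Icc 1 R, ∑ v ∈ Bs U S o t \ Bs U S o (t - 1), h t v ^ 2
        ≤ 8 * cp (inn N) B := h1
    linarith
  -- the union of the sets `G t`
  set A : Finset V := (ball p (2 ^ (κ - 2) + 512) \ ball p (2 ^ (κ - 2))) ∪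
    (ball (p + n • e) (2 ^ (κ - 2) + 512) \ ball (p + n • e) (2 ^ (κ - 2))) with hA
  have hAc : A.card ≤ 2 ^ (κ + 12) := by
    refine (Finset.card_union_le _ _).trans ?_
    have h1 := ac7c_ring p κ hκ
    have h2 := ac7c_ring (p + n • e) κ hκ
    rw [show κ + 12 = (κ + 11) + 1 by omega, pow_succ]
    omega
  have hGA : ∀ t ∈ Finset.Icc 1 R, G t ⊆ A := by
    intro t ht v hv
    have hvd := hsub t ht hv
    have ht' := Finset.mem_Icc.1 ht
    obtain ⟨hvF, hvA, hvU⟩ := Finset.mem_filter.1 hv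
    have hvS : v ∉ S := fun hh => (Finset.mem_sdiff.1 hvd).2
      (Bs_mono (U := U) (S := S) (o := o) (Nat.zero_le (t - 1)) hh)
    have hvB : v ∉ B := fun hh =>
      Finset.disjoint_left.1 (disjoint_of_not_reach hR t ht'.2) hvF hh
    have h512 : ball v (2 ^ (0 + 9)) ⊆ U := by
      refine (ac7c_ball_mono ?_).trans hvU
      exact Nat.pow_le_pow_right (by norm_num) (by omega)
    have hnd : ¬ Disjoint (ball v (2 ^ (0 + 9))) (S ∪ B) := fun hd => hvA ⟨h512, hd⟩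
    rw [Finset.disjoint_union_right, not_and_or] at hnd
    rw [hA, Finset.mem_union, Finset.mem_sdiff, Finset.mem_sdiff, ← hS, ← hB]
    norm_num at hnd
    rcases hnd with hd | hd
    · left
      refine ⟨?_, hvS⟩
      rw [hS] at hd
      exact ac7c_near hd
    · right
      refine ⟨?_, hvB⟩
      rw [hB] at hd
      exact ac7c_near hd
  have hcard : ∑ t ∈ Finset.Icc 1 R, (G t).card ≤ 2 ^ (κ + 12) := by
    rw [← Finset.card_biUnion]
    · refine (Finset.card_le_card ?_).trans hAc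
      exact Finset.biUnion_subset.2 hGA
    · intro a _ b _ hab
      rcases lt_or_gt_of_ne hab with hlt | hlt
      · exact Finset.disjoint_of_subset_left (Finset.filter_subset _ _)
          (Finset.disjoint_of_subset_right (Finset.filter_subset _ _) (frontier_disjoint hlt))
      · exact (Finset.disjoint_of_subset_left (Finset.filter_subset _ _)
          (Finset.disjoint_of_subset_right (Finset.filter_subset _ _)
            (frontier_disjoint hlt))).symm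
  set X : ℝ := ∑ t ∈ Finset.Icc 1 R, ∑ v ∈ G t, h t v with hX
  have hXsq : X ^ 2 ≤ 2 ^ 15 * C1 * 2 ^ κ := by
    rw [hX, Finset.sum_sigma']
    refine (sq_sum_le_card_mul_sum_sq).trans ?_
    rw [Finset.card_sigma, ← Finset.sum_sigma' (Finset.Icc 1 R) G (fun t v => h t v ^ 2)]
    have h1 : ((∑ t ∈ Finset.Icc 1 R, (G t).card : ℕ) : ℝ) ≤ 2 ^ (κ + 12) := by
      exact_mod_cast hcard
    have h0 : 0 ≤ ∑ t ∈ Finset.Icc 1 R, ∑ v ∈ G t, h t v ^ 2 :=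
      Finset.sum_nonneg (fun _ _ => Finset.sum_nonneg (fun _ _ => sq_nonneg _))
    calc ((∑ t ∈ Finset.Icc 1 R, (G t).card : ℕ) : ℝ) *
          ∑ t ∈ Finset.Icc 1 R, ∑ v ∈ G t, h t v ^ 2
        ≤ 2 ^ (κ + 12) * (8 * C1) := mul_le_mul h1 hsq h0 (by positivity)
      _ = 2 ^ 15 * C1 * 2 ^ κ := by rw [pow_add]; ring
  have hXle : X ≤ √(2 ^ 15 * C1) * √((2 : ℝ) ^ κ) := by
    rw [← Real.sqrt_mul (by positivity)]
    exact Real.le_sqrt_of_sq_le hXsq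
  have hpos : 0 ≤ √(2 ^ 15 * C1) * √((2 : ℝ) ^ κ) := by positivity
  have hk := ac7c_pow κ hκ
  have hκ1 : (16 : ℝ) ≤ κ := by exact_mod_cast hκ
  have hn0 : (0 : ℝ) ≤ n0 := Nat.cast_nonneg _
  have hlog : (κ + n0 : ℝ) + 2 ≤ (n0 + 3) * √((2 : ℝ) ^ κ) := by
    have : (κ + n0 : ℝ) + 2 ≤ (n0 + 3) * κ := by nlinarith
    exact this.trans (mul_le_mul_of_nonneg_left hk (by positivity))
  have hfac : lam + s * ((κ + n0 : ℝ) + 2) ≤ (lam + s) * ((κ + n0 : ℝ) + 2) := by nlinarith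
  have hfac0 : 0 ≤ lam + s * ((κ + n0 : ℝ) + 2) := by positivity
  have hsqq : √((2 : ℝ) ^ κ) * √((2 : ℝ) ^ κ) = 2 ^ κ := Real.mul_self_sqrt (by positivity)
  calc (lam + s * ((κ + n0 : ℝ) + 2)) * X
      ≤ (lam + s * ((κ + n0 : ℝ) + 2)) * (√(2 ^ 15 * C1) * √((2 : ℝ) ^ κ)) :=
        mul_le_mul_of_nonneg_left hXle hfac0
    _ ≤ ((lam + s) * ((κ + n0 : ℝ) + 2)) * (√(2 ^ 15 * C1) * √((2 : ℝ) ^ κ)) :=
        mul_le_mul_of_nonneg_right hfac hpos
    _ ≤ ((lam + s) * ((n0 + 3) * √((2 : ℝ) ^ κ))) * (√(2 ^ 15 * C1) * √((2 : ℝ) ^ κ)) := by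
        refine mul_le_mul_of_nonneg_right ?_ hpos
        exact mul_le_mul_of_nonneg_left hlog (by positivity)
    _ = (n0 + 3) * √(2 ^ 15 * C1) * (lam + s) * (√((2 : ℝ) ^ κ) * √((2 : ℝ) ^ κ)) := by ring
    _ = (n0 + 3) * √(2 ^ 15 * C1) * (lam + s) * 2 ^ κ := by rw [hsqq]

end Pool.H92.GFL
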