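import Pool.Agent.helper92.GFL.AC7a
import Pool.Agent.helper92.GFL.AC7b
import Pool.Agent.helper92.GFL.AC7c

namespace Pool.H92.GFL

open Function Finset MeasureTheory ProbabilityTheory Pool.H92.GFF
open scoped Classical ENNReal

theorem accounting (n0 : ℕ) : ∃ Ca Cb : ℝ, 0 < Ca ∧ 0 < Cb ∧
    ∀ (κ N : ℕ) (U : Finset V) (p e : V) (n : ℕ), 16 ≤ κ → Geo n0 κ N U p e n →
    ∀ (x : V → ℝ) (lam s : ℝ) (R C1 : ℕ), 0 < lam → 0 ≤ s → 1 ≤ C1 →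
    ¬ Reach U (ball p (2 ^ (κ - 2))) (ball (p + n • e) (2 ^ (κ - 2))) x lam R →
    LogB N (κ + n0) U (ball p (2 ^ (κ - 2))) x lam R s →
    R * (lam * kap1 N κ U p e n - Ca * s) ≤
      ∑ t ∈ Finset.Icc 1 R, Mx (inn N) (Bs U (ball p (2 ^ (κ - 2))) (fun v => x v ≤ lam) t)
        (eqp (inn N) (ball (p + n • e) (2 ^ (κ - 2)))) x +
      Cb * C1 * (lam + s) * (2 ^ κ + ∑ k ∈ Finset.range (κ + n0), 2 ^ k *
        √(NB U (ball p (2 ^ (κ - 2)) ∪ ball (p + n • e) (2 ^ (κ - 2))) x lam C1 k : ℝ) *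
        ((κ + n0 : ℝ) - k + 1) ^ 2) := by
  obtain ⟨Ca, Cb, hCa, hCb, hstep⟩ := step_bound n0
  obtain ⟨C2, hC2, hcount⟩ := count_bound n0
  obtain ⟨C3, hC3, hdir⟩ := dir_bound n0
  refine ⟨Ca, Cb * C2 + C3, hCa, by positivity, ?_⟩
  intro κ N U p e n hκ hG x lam s R C1 hlam hs hC1 hR hL
  have h1 := hcount κ N U p e n hκ hG _ _ rfl rfl x lam R C1 hC1 hR
  have h2 := hdir κ N U p e n hκ hG _ _ rfl rfl x lam s R hlam hs hR
  have h3 : ∀ t ∈ Finset.Icc 1 R, _ := fun t (ht : t ∈ Finset.Icc 1 R) =>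
    hstep κ N U p e n hκ hG _ _ rfl rfl x lam s R C1 t hlam hs (Finset.mem_Icc.1 ht).2 hR hL
      _ _ rfl rfl
  have h4 := Finset.sum_le_sum h3
  rw [Finset.sum_const, Nat.card_Icc, Nat.add_sub_cancel, nsmul_eq_mul,
    Finset.sum_add_distrib, Finset.sum_add_distrib, ← Finset.mul_sum, ← Finset.mul_sum] at h4
  refine h4.trans ?_
  have hC1' : (1 : ℝ) ≤ C1 := by exact_mod_cast hC1
  have hZ : 0 ≤ ∑ k ∈ Finset.range (κ + n0), (2 : ℝ) ^ k *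
        √(NB U (ball p (2 ^ (κ - 2)) ∪ ball (p + n • e) (2 ^ (κ - 2))) x lam C1 k : ℝ) *
        ((κ + n0 : ℝ) - k + 1) ^ 2 :=
    Finset.sum_nonneg (fun k _ => by positivity)
  set Z := ∑ k ∈ Finset.range (κ + n0), (2 : ℝ) ^ k *
        √(NB U (ball p (2 ^ (κ - 2)) ∪ ball (p + n • e) (2 ^ (κ - 2))) x lam C1 k : ℝ) *
        ((κ + n0 : ℝ) - k + 1) ^ 2 with hZdef
  have h5 := mul_le_mul_of_nonneg_left h1 (show 0 ≤ Cb * (lam + s) by positivity)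
  have hpk : (0 : ℝ) ≤ 2 ^ κ := by positivity
  have hls : 0 ≤ lam + s := by positivity
  have h6 : C3 * (lam + s) * 2 ^ κ ≤ C3 * C1 * (lam + s) * (2 ^ κ + Z) := by
    have e1 : C3 * (lam + s) * 2 ^ κ ≤ C3 * (lam + s) * (C1 * (2 ^ κ + Z)) := by
      refine mul_le_mul_of_nonneg_left ?_ (by positivity)
      nlinarith
    linarith
  have h7 : Cb * (lam + s) * (C2 * C1 * Z) ≤ Cb * C2 * C1 * (lam + s) * (2 ^ κ + Z) := by
    have e1 : Cb * C2 * C1 * (lam + s) * Z ≤ Cb * C2 * C1 * (lam + s) * (2 ^ κ + Z) :=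
      mul_le_mul_of_nonneg_left (by linarith) (by positivity)
    linarith
  have h8 : (Cb * C2 + C3) * C1 * (lam + s) * (2 ^ κ + Z) =
      Cb * C2 * C1 * (lam + s) * (2 ^ κ + Z) + C3 * C1 * (lam + s) * (2 ^ κ + Z) := by ring
  rw [h8]
  linarith

end Pool.H92.GFL
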