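import Pool.Agent.helper92.GFL.Defs3
import Pool.Agent.helper92.GFL.AC1
import Pool.Agent.helper92.GFL.AC2
import Pool.Agent.helper92.GFL.AC3
import Pool.Agent.helper92.GFL.AC5
import Pool.Agent.helper92.GFL.AC6

namespace Pool.H92.GFL

open Function Finset MeasureTheory ProbabilityTheory Pool.H92.GFF
open scoped Classical ENNReal

lemma ac7a_prod {ι : Type*} (T : Finset ι) (f : ι → ℝ) (hf : ∀ i ∈ T, 0 ≤ f i ∧ f i ≤ 1) :
    0 ≤ ∏ i ∈ T, (1 - f i) ∧ ∏ i ∈ T, (1 - f i) ≤ 1 ∧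
      1 - ∑ i ∈ T, f i ≤ ∏ i ∈ T, (1 - f i) := by
  induction T using Finset.induction_on with
  | empty => simp
  | insert j T hj ih =>
    rw [Finset.prod_insert hj, Finset.sum_insert hj]
    have h1 := hf j (Finset.mem_insert_self _ _)
    obtain ⟨h2, h3, h4⟩ := ih (fun i hi => hf i (Finset.mem_insert_of_mem hi))
    refine ⟨mul_nonneg (by linarith) h2, ?_, ?_⟩
    · nlinarith
    · nlinarith

lemma ac7a_div (v : ℤ) (k : ℕ) : (2 : ℤ) ^ k * (v / 2 ^ k) ≤ v ∧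
    v < (2 : ℤ) ^ k * (v / 2 ^ k) + 2 ^ k := by
  have h := Int.mul_ediv_add_emod v (2 ^ k)
  have h1 := Int.emod_nonneg v (show (2 : ℤ) ^ k ≠ 0 by positivity)
  have h2 := Int.emod_lt_of_pos v (show (0 : ℤ) < 2 ^ k by positivity)
  constructor <;> linarith

lemma ac7a_cell (k : ℕ) (v : V) : v ∈ ball (cen k v) (2 ^ k) := by
  rw [mem_ball]
  have h1 := ac7a_div v.1 k
  have h2 := ac7a_div v.2 k
  have h3 : (0 : ℤ) < 2 ^ k := by positivity
  unfold cen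
  push_cast
  generalize (2 : ℤ) ^ k * (v.1 / 2 ^ k) = a at *
  generalize (2 : ℤ) ^ k * (v.2 / 2 ^ k) = b at *
  generalize (2 : ℤ) ^ k = M at *
  omega

lemma ac7a_cen_zero (v : V) : cen 0 v = v := by
  unfold cen
  ext <;> simp

lemma ac7a_act {I B U T : Finset V} {x : V → ℝ} {lam : ℝ} {C1 M : ℕ} {E F : Finset V}
    (hM : 0 < M) {Q : ℕ × V} (hQ : Q ∈ Act I B U T x lam C1 M E F) :
    Q.1 < M ∧ Allw U T Q.1 Q.2 ∧ ∃ v ∈ F, Q.2 = cen Q.1 v ∧ v ∈ ball Q.2 (2 ^ Q.1) := by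
  unfold Act at hQ
  obtain ⟨v, hv, rfl⟩ := Finset.mem_image.1 hQ
  obtain ⟨hvF, hA, -⟩ := Finset.mem_filter.1 hv
  have key : kmx U T x lam C1 M v < M ∧ Allw U T (kmx U T x lam C1 M v)
      (cen (kmx U T x lam C1 M v) v) := by
    by_cases hne : ((Finset.range M).filter
        (fun k => Allw U T k (cen k v) ∧ Nice x lam (cen k v) k C1)).Nonempty
    · obtain ⟨k, hk, hk'⟩ := Finset.exists_mem_eq_sup _ hne id
      have e : kmx U T x lam C1 M v = k := hk'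
      rw [e]
      obtain ⟨h1, h2, -⟩ := Finset.mem_filter.1 hk
      exact ⟨Finset.mem_range.1 h1, h2⟩
    · rw [Finset.not_nonempty_iff_eq_empty] at hne
      have e : kmx U T x lam C1 M v = 0 := by
        unfold kmx
        rw [hne]
        simp
      rw [e, ac7a_cen_zero]
      exact ⟨hM, hA⟩
  exact ⟨key.1, key.2, v, hvF, rfl, ac7a_cell _ _⟩

lemma ac7a_card_ball (z : V) (r : ℕ) : (ball z r).card = (2 * r + 1) ^ 2 := by
  unfold ball
  rw [Finset.card_product, Int.card_Icc, Int.card_Icc]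
  have h1 : (z.1 + r + 1 - (z.1 - r)).toNat = 2 * r + 1 := by omega
  have h2 : (z.2 + r + 1 - (z.2 - r)).toNat = 2 * r + 1 := by omega
  rw [h1, h2]
  ring

/-- at most 81 cells of a given scale are close to a point -/
lemma ac7a_count (A : Finset (ℕ × V)) (k : ℕ) (v : V) (hA : ∀ Q ∈ A, Q.1 = k ∧
    (∃ v', Q.2 = cen k v') ∧ v ∈ ball Q.2 (4 * 2 ^ k)) : A.card ≤ 81 := by
  set J : Finset (ℤ × ℤ) := Finset.Icc (v.1 / 2 ^ k - 4) (v.1 / 2 ^ k + 4) ×ˢ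
    Finset.Icc (v.2 / 2 ^ k - 4) (v.2 / 2 ^ k + 4) with hJ
  have hsub : A ⊆ J.image (fun m => (k, ((2 ^ k * m.1 + 2 ^ k / 2, 2 ^ k * m.2 + 2 ^ k / 2) : V))) := by
    intro Q hQ
    obtain ⟨h1, ⟨v', h2⟩, h3⟩ := hA Q hQ
    rw [Finset.mem_image]
    refine ⟨(v'.1 / 2 ^ k, v'.2 / 2 ^ k), ?_, ?_⟩
    · have d1 := ac7a_div v.1 k
      have d2 := ac7a_div v.2 k
      rw [h2, mem_ball] at h3
      unfold cen at h3
      push_cast at h3
      have hp : (0 : ℤ) < 2 ^ k := by positivity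
      have hh : (0 : ℤ) ≤ 2 ^ k / 2 ∧ (2 : ℤ) ^ k / 2 < 2 ^ k := by omega
      rw [hJ, Finset.mem_product, Finset.mem_Icc, Finset.mem_Icc]
      simp only
      obtain ⟨⟨a1, a2⟩, a3, a4⟩ := h3
      obtain ⟨b1, b2⟩ := d1
      obtain ⟨b3, b4⟩ := d2
      obtain ⟨c1, c2⟩ := hh
      refine ⟨⟨?_, ?_⟩, ?_, ?_⟩
      · have : (2 : ℤ) ^ k * (v.1 / 2 ^ k - 5) < 2 ^ k * (v'.1 / 2 ^ k) := by nlinarith
        have := lt_of_mul_lt_mul_left this hp.le
        omega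
      · have : (2 : ℤ) ^ k * (v'.1 / 2 ^ k) < 2 ^ k * (v.1 / 2 ^ k + 5) := by nlinarith
        have := lt_of_mul_lt_mul_left this hp.le
        omega
      · have : (2 : ℤ) ^ k * (v.2 / 2 ^ k - 5) < 2 ^ k * (v'.2 / 2 ^ k) := by nlinarith
        have := lt_of_mul_lt_mul_left this hp.le
        omega
      · have : (2 : ℤ) ^ k * (v'.2 / 2 ^ k) < 2 ^ k * (v.2 / 2 ^ k + 5) := by nlinarith
        have := lt_of_mul_lt_mul_left this hp.le
        omega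
    · apply Prod.ext
      · exact h1.symm
      · rw [h2]; rfl
  refine (Finset.card_le_card hsub).trans (Finset.card_image_le.trans ?_)
  rw [hJ, Finset.card_product, Int.card_Icc, Int.card_Icc]
  have e1 : (v.1 / 2 ^ k + 4 + 1 - (v.1 / 2 ^ k - 4)).toNat = 9 := by omega
  have e2 : (v.2 / 2 ^ k + 4 + 1 - (v.2 / 2 ^ k - 4)).toNat = 9 := by omega
  rw [e1, e2]

lemma ac7a_geom0 (k0 L : ℕ) : ∑ k ∈ Finset.range L, (if k0 ≤ k then (1 / 2 : ℝ) ^ k else 0)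
    ≤ 2 * (1 / 2 : ℝ) ^ k0 - 2 * (1 / 2 : ℝ) ^ (max k0 L) := by
  induction L with
  | zero => simp
  | succ L ih =>
    rw [Finset.sum_range_succ]
    by_cases h : k0 ≤ L
    · rw [if_pos h, Nat.max_eq_right (by omega)]
      rw [Nat.max_eq_right h] at ih
      rw [pow_succ]
      linarith
    · rw [if_neg h, Nat.max_eq_left (by omega)]
      rw [Nat.max_eq_left (by omega)] at ih
      linarith

lemma ac7a_geom (ρ L : ℕ) : ∑ k ∈ Finset.range L, (if ρ ≤ 5 * 2 ^ k then (ρ : ℝ) / 2 ^ k else 0)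
    ≤ 10 := by
  have hex : ∃ k, ρ ≤ 5 * 2 ^ k := ⟨ρ, by
    have := Nat.lt_two_pow_self (n := ρ)
    omega⟩
  set k0 := Nat.find hex with hk0
  have h1 : ρ ≤ 5 * 2 ^ k0 := Nat.find_spec hex
  have h2 : ∀ k ∈ Finset.range L, (if ρ ≤ 5 * 2 ^ k then (ρ : ℝ) / 2 ^ k else 0) ≤
      (ρ : ℝ) * (if k0 ≤ k then (1 / 2 : ℝ) ^ k else 0) := by
    intro k _
    by_cases h : ρ ≤ 5 * 2 ^ k
    · rw [if_pos h, if_pos (Nat.find_min' hex h), one_div, inv_pow]
      exact le_of_eq (div_eq_mul_inv _ _)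
    · rw [if_neg h]
      refine mul_nonneg (Nat.cast_nonneg _) ?_
      split_ifs <;> positivity
  refine (Finset.sum_le_sum h2).trans ?_
  rw [← Finset.mul_sum]
  have h3 := ac7a_geom0 k0 L
  have h4 : (0 : ℝ) ≤ 2 * (1 / 2 : ℝ) ^ (max k0 L) := by positivity
  have h5 : (ρ : ℝ) ≤ 5 * 2 ^ k0 := by exact_mod_cast h1
  have h6 : (1 / 2 : ℝ) ^ k0 * 2 ^ k0 = 1 := by
    rw [← mul_pow]; norm_num
  calc (ρ : ℝ) * ∑ k ∈ Finset.range L, (if k0 ≤ k then (1 / 2 : ℝ) ^ k else 0)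
      ≤ (5 * 2 ^ k0) * (2 * (1 / 2 : ℝ) ^ k0) := by
        refine mul_le_mul h5 (by linarith) ?_ (by positivity)
        exact Finset.sum_nonneg (fun k _ => by split_ifs <;> positivity)
    _ = 10 * ((1 / 2 : ℝ) ^ k0 * 2 ^ k0) := by ring
    _ = 10 := by rw [h6]; norm_num

/-- the cutoff slopes are at most `C / rad` -/
lemma ac7a_sigma (A : Finset (ℕ × V)) (L : ℕ) (v : V) (ρ : ℕ)
    (h1 : ∀ Q ∈ A, Q.1 < L ∧ ∃ v', Q.2 = cen Q.1 v')
    (h2 : ∀ Q ∈ A, v ∈ ball Q.2 (4 * 2 ^ Q.1) → ρ ≤ 5 * 2 ^ Q.1) :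
    (∑ Q ∈ A, if v ∈ ball Q.2 (4 * 2 ^ Q.1) then (8 : ℝ) / 2 ^ Q.1 else 0) * ρ ≤ 6480 := by
  rw [← Finset.sum_filter]
  set A' := A.filter (fun Q => v ∈ ball Q.2 (4 * 2 ^ Q.1)) with hA'
  have hm : ∀ Q ∈ A', Q.1 ∈ Finset.range L := fun Q hQ =>
    Finset.mem_range.2 (h1 Q (Finset.mem_filter.1 hQ).1).1
  rw [← Finset.sum_fiberwise_of_maps_to hm, Finset.sum_mul]
  have h3 : ∀ k ∈ Finset.range L, (∑ Q ∈ A' with Q.1 = k, (8 : ℝ) / 2 ^ Q.1) * ρ ≤
      648 * (if ρ ≤ 5 * 2 ^ k then (ρ : ℝ) / 2 ^ k else 0) := by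
    intro k _
    have e1 : ∑ Q ∈ A' with Q.1 = k, (8 : ℝ) / 2 ^ Q.1 =
        ((A'.filter (fun Q => Q.1 = k)).card : ℝ) * (8 / 2 ^ k) := by
      rw [Finset.sum_congr rfl (g := fun _ => (8 : ℝ) / 2 ^ k), Finset.sum_const, nsmul_eq_mul]
      intro Q hQ
      rw [(Finset.mem_filter.1 hQ).2]
    rw [e1]
    by_cases hne : (A'.filter (fun Q => Q.1 = k)).Nonempty
    · obtain ⟨Q, hQ⟩ := hne
      obtain ⟨hQ1, hQ2⟩ := Finset.mem_filter.1 hQ
      obtain ⟨hQ3, hQ4⟩ := Finset.mem_filter.1 hQ1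
      have hρ := h2 Q hQ3 hQ4
      rw [hQ2] at hρ
      rw [if_pos hρ]
      have hc : ((A'.filter (fun Q => Q.1 = k)).card : ℝ) ≤ 81 := by
        have := ac7a_count (A'.filter (fun Q => Q.1 = k)) k v (fun Q' hQ' => by
          obtain ⟨a1, a2⟩ := Finset.mem_filter.1 hQ'
          obtain ⟨a3, a4⟩ := Finset.mem_filter.1 a1
          obtain ⟨a5, v', a6⟩ := h1 Q' a3
          refine ⟨a2, ⟨v', ?_⟩, ?_⟩
          · rw [a6, a2]
          · rw [a2] at a4; exact a4)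
        exact_mod_cast this
      have hp : (0 : ℝ) ≤ 8 / 2 ^ k * ρ := by positivity
      calc ((A'.filter (fun Q => Q.1 = k)).card : ℝ) * (8 / 2 ^ k) * ρ
          = ((A'.filter (fun Q => Q.1 = k)).card : ℝ) * (8 / 2 ^ k * ρ) := by ring
        _ ≤ 81 * (8 / 2 ^ k * ρ) := mul_le_mul_of_nonneg_right hc hp
        _ = 648 * ((ρ : ℝ) / 2 ^ k) := by ring
    · rw [Finset.not_nonempty_iff_eq_empty] at hne
      rw [hne]
      simp only [Finset.card_empty, Nat.cast_zero, zero_mul]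
      refine mul_nonneg (by norm_num) ?_
      split_ifs <;> positivity
  refine (Finset.sum_le_sum h3).trans ?_
  rw [← Finset.mul_sum]
  have := ac7a_geom ρ L
  linarith


lemma ac7a_Gh_ge {I B E : Finset V} {k : ℕ} {c v : V} (hv : v ∈ ball c (8 * 2 ^ k + 1)) :
    gE I B E v ≤ Gh I B E (k, c) :=
  Finset.le_sup' (gE I B E) hv

lemma ac7a_Gh_nonneg {I B E : Finset V} (hB : B ⊆ I) (hE : E ⊆ I) (Q : ℕ × V) :
    0 ≤ Gh I B E Q :=
  (gE_nonneg hB hE Q.2).trans (ac7a_Gh_ge (k := Q.1) (c := Q.2) (mem_ball_self _ _))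

lemma ac7a_lap_zero {f : V → ℝ} {v : V} (h0 : f v = 0) (h : ∀ w ∈ nb v, f w = 0) :
    lap f v = 0 := by
  rw [lap_eq_sum, h0, Finset.sum_eq_zero h]; ring

lemma ac7a_out {c : V} {r : ℕ} (hr : 1 ≤ r) {v : V} (hv : v ∉ ball c r) :
    ∀ w ∈ nb v, w ∉ ball c (r - 1) := by
  intro w hw hwc
  apply hv
  have h1 := mem_ball_trans hwc (nb_ball (nb_symm.1 hw))
  rwa [Nat.sub_add_cancel hr] at h1

lemma ac7a_out' {c : V} {r : ℕ} {v : V} (hv : v ∉ ball c r) : v ∉ ball c (r - 1) :=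
  fun h => hv (ball_mono (Nat.sub_le _ _) h)

/-- weight of the cutoff of an active cell -/
lemma ac7a_hchi {I B E : Finset V} (hB : B ⊆ I) (hE : E ⊆ I) {k : ℕ} {c : V}
    (hI : ball c (2 ^ (k + 9)) ⊆ I) (hdB : Disjoint (ball c (2 ^ (k + 9))) B) {χ : V → ℝ}
    (h0 : ∀ v ∉ ball c (4 * 2 ^ k - 1), χ v = 0)
    (h1 : ∀ v, |lap χ v| ≤ 64 / ((2 : ℝ) ^ k) ^ 2) :
    ∑ v ∈ E, lap (hx I E (eqp I B)) v * χ v ≤ 5184 * Gh I B E (k, c) := by
  have hp : 0 < 2 ^ k := by positivity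
  have hle : 4 * 2 ^ k - 1 ≤ 2 ^ (k + 9) := by rw [pow_add]; omega
  have hsub : ball c (4 * 2 ^ k - 1) ⊆ ball c (2 ^ (k + 9)) := ball_mono hle
  rw [sum_lap_hx hB hE (w := χ) (fun v hv => h0 v (fun h => hv (hI (hsub h))))
    (fun v hv => h0 v (fun h => Finset.disjoint_left.1 hdB (hsub h) hv)), ← Finset.sum_neg_distrib]
  set Gm := Gh I B E (k, c) with hGm
  have hG0 : 0 ≤ Gm := ac7a_Gh_nonneg hB hE _
  have h2 : ∀ v ∈ I \ E, -(gE I B E v * lap χ v) ≤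
      if v ∈ ball c (4 * 2 ^ k) then Gm * (64 / ((2 : ℝ) ^ k) ^ 2) else 0 := by
    intro v _
    by_cases hv : v ∈ ball c (4 * 2 ^ k)
    · rw [if_pos hv]
      have h3 : gE I B E v ≤ Gm := ac7a_Gh_ge (ball_mono (by omega) hv)
      have h4 := gE_nonneg hB hE v
      calc -(gE I B E v * lap χ v) = gE I B E v * (-lap χ v) := by ring
        _ ≤ gE I B E v * (64 / ((2 : ℝ) ^ k) ^ 2) :=
          mul_le_mul_of_nonneg_left ((neg_le_abs _).trans (h1 v)) h4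
        _ ≤ Gm * (64 / ((2 : ℝ) ^ k) ^ 2) := mul_le_mul_of_nonneg_right h3 (by positivity)
    · rw [if_neg hv, ac7a_lap_zero (h0 v (ac7a_out' hv)) (fun w hw => h0 w
        (ac7a_out (by omega) hv w hw))]
      simp
  refine (Finset.sum_le_sum h2).trans ?_
  rw [← Finset.sum_filter, Finset.sum_const, nsmul_eq_mul]
  have h5 : (((I \ E).filter (fun v => v ∈ ball c (4 * 2 ^ k))).card : ℝ) ≤
      (9 * (2 : ℝ) ^ k) ^ 2 := by
    have e1 : ((I \ E).filter (fun v => v ∈ ball c (4 * 2 ^ k))).card ≤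
        (9 * 2 ^ k) ^ 2 := by
      refine (Finset.card_le_card (fun v hv => (Finset.mem_filter.1 hv).2)).trans ?_
      rw [ac7a_card_ball]
      exact Nat.pow_le_pow_left (by omega) 2
    exact_mod_cast e1
  have hq : (0 : ℝ) < 2 ^ k := by positivity
  calc (((I \ E).filter (fun v => v ∈ ball c (4 * 2 ^ k))).card : ℝ) *
        (Gm * (64 / ((2 : ℝ) ^ k) ^ 2))
      ≤ (9 * (2 : ℝ) ^ k) ^ 2 * (Gm * (64 / ((2 : ℝ) ^ k) ^ 2)) :=
        mul_le_mul_of_nonneg_right h5 (by positivity)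
    _ = 5184 * Gm := by field_simp; ring

lemma ac7a_reaches {U S : Finset V} {o : V → Prop} {t : ℕ} {a c : V} {r1 r2 : ℕ}
    (ha : a ∈ Bs U S o t) (hac : a ∈ ball c r1) (hd : Disjoint (ball c (r1 + r2)) S) :
    Reaches (Bs U S o t) a r2 := by
  obtain ⟨n, b, hb, hc⟩ := Bs_conn ha
  refine ⟨n, b, hc, fun h => ?_⟩
  exact Finset.disjoint_left.1 hd (mem_ball_trans hac h) hb

lemma ac7a_rad_le {N : ℕ} {E : Finset V} {v : V} (hv : v ∈ inn N) :
    rad (inn N \ E) v ≤ N := by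
  by_contra hcon
  rw [not_le, lt_rad] at hcon
  have h1 : ((v.1 + N, v.2) : V) ∈ ball v N := by rw [mem_ball]; simp only; omega
  have h2 := (Finset.mem_sdiff.1 (hcon h1)).1
  rw [mem_inn] at h2 hv
  simp only at h2
  omega

lemma ac7a_rad_le' {W : Finset V} {v a : V} {r : ℕ} (ha : a ∉ W) (hav : a ∈ ball v r) :
    rad W v ≤ r := by
  by_contra hcon
  rw [not_le, lt_rad] at hcon
  exact ha (hcon hav)

/-- the weights in the second term are nonnegative -/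
lemma ac7a_w_nonneg {N L : ℕ} (hN : N ≤ 2 ^ L) {E : Finset V} {v : V} (hv : v ∈ inn N) :
    0 ≤ ((L : ℝ) + 4 - Nat.log 2 (rad (inn N \ E) v)) / rad (inn N \ E) v := by
  refine div_nonneg ?_ (Nat.cast_nonneg _)
  have h1 : Nat.log 2 (rad (inn N \ E) v) ≤ L := by
    have h2 := (ac7a_rad_le (E := E) hv).trans hN
    calc Nat.log 2 (rad (inn N \ E) v) ≤ Nat.log 2 (2 ^ L) := Nat.log_mono_right h2
      _ = L := Nat.log_pow (by norm_num) L
  have h2 : (Nat.log 2 (rad (inn N \ E) v) : ℝ) ≤ L := by exact_mod_cast h1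
  linarith


/-- the statement of `occ_sum` for a given constant -/
def ac7aOcc (C : ℝ) : Prop :=
  ∀ (L k N : ℕ) (c : V) (E : Finset V) (g : V → ℝ) (Gm : ℝ),
    k ≤ L → N ≤ 2 ^ L → ball c (16 * 2 ^ k) ⊆ inn N → E ⊆ inn N → (∀ v, 0 ≤ g v) →
    (∀ v ∈ E, g v = 0) → (∀ v ∈ ball c (8 * 2 ^ k), v ∉ E → lap g v = 0) →
    (∀ v ∈ ball c (8 * 2 ^ k + 1), g v ≤ Gm) →
    (∀ a ∈ E, a ∈ ball c (8 * 2 ^ k) → Reaches E a (2 ^ (k + 3))) →
    ∑ v ∈ (ball c (4 * 2 ^ k)).filter (fun v => v ∉ E), g v *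
      (((L : ℝ) + 4 - Nat.log 2 (rad (inn N \ E) v)) / rad (inn N \ E) v) ≤
        C * 2 ^ k * Gm * ((L : ℝ) - k + 1)

lemma ac7a_Qsum {C6 : ℝ} (h6 : ac7aOcc C6) {L N : ℕ} {U S B : Finset V} {o : V → Prop} {t : ℕ}
    (hN : N ≤ 2 ^ L) (hU : U ⊆ inn N) (hSU : S ⊆ U) (hBU : B ⊆ U) {k : ℕ} {c : V} (hk : k ≤ L)
    (hI : ball c (16 * 2 ^ k) ⊆ U) (hdS : Disjoint (ball c (16 * 2 ^ k)) S)
    (hdB : Disjoint (ball c (16 * 2 ^ k)) B) {Gm : ℝ}
    (hG : ∀ v ∈ ball c (8 * 2 ^ k + 1), gE (inn N) B (Bs U S o t) v ≤ Gm) :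
    ∑ v ∈ (ball c (4 * 2 ^ k)).filter (fun v => v ∉ Bs U S o t), gE (inn N) B (Bs U S o t) v *
      (((L : ℝ) + 4 - Nat.log 2 (rad (inn N \ Bs U S o t) v)) / rad (inn N \ Bs U S o t) v) ≤
        C6 * 2 ^ k * Gm * ((L : ℝ) - k + 1) := by
  have hBI : B ⊆ inn N := hBU.trans hU
  have hEI : Bs U S o t ⊆ inn N := (Bs_subset hSU t).trans hU
  have h8 : ball c (8 * 2 ^ k) ⊆ ball c (16 * 2 ^ k) := ball_mono (by omega)
  refine h6 L k N c (Bs U S o t) (gE (inn N) B (Bs U S o t)) Gm hk hN (hI.trans hU) hEI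
    (gE_nonneg hBI hEI) (fun v hv => gE_on hv) (fun v hv hvE => ?_) hG (fun a ha hac => ?_)
  · refine lap_gE (hU (hI (h8 hv))) hvE (fun hvB => ?_)
    exact Finset.disjoint_left.1 hdB (h8 hv) hvB
  · refine ac7a_reaches ha hac ?_
    have e : 8 * 2 ^ k + 2 ^ (k + 3) = 16 * 2 ^ k := by rw [pow_add]; ring
    rw [e]; exact hdS

lemma ac7a_Z {C6 : ℝ} (hC6 : 0 < C6) (h6 : ac7aOcc C6) {n0 κ N : ℕ} {U S B : Finset V}
    {o : V → Prop} {t : ℕ} (hκ : 16 ≤ κ) (hN : N ≤ 2 ^ (κ + n0)) (hU : U ⊆ inn N) (hSU : S ⊆ U)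
    (hBU : B ⊆ U) (Z : Finset V) (hZ1 : ∀ c ∈ Z, ball c (2 ^ (κ - 4)) ⊆ U)
    (hZ2 : ∀ c ∈ Z, Disjoint (ball c (2 ^ (κ - 4))) S)
    (hZ3 : ∀ c ∈ Z, Disjoint (ball c (2 ^ (κ - 4))) B) :
    ∑ v ∈ inn N \ Bs U S o t, (if v ∈ Z then gE (inn N) B (Bs U S o t) v *
      ((((κ + n0 : ℕ) : ℝ) + 4 - Nat.log 2 (rad (inn N \ Bs U S o t) v)) /
        rad (inn N \ Bs U S o t) v) else 0) ≤
      (2 ^ (n0 + 7) + 1) ^ 2 * (C6 * 2 ^ (κ - 8) * ((n0 : ℝ) + 9)) := by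
  have hBI : B ⊆ inn N := hBU.trans hU
  have hEI : Bs U S o t ⊆ inn N := (Bs_subset hSU t).trans hU
  rw [← Finset.sum_filter]
  set E := Bs U S o t with hE
  set Z' := (inn N \ E).filter (fun v => v ∈ Z) with hZ'
  set W : V → ℝ := fun v => gE (inn N) B E v *
      ((((κ + n0 : ℕ) : ℝ) + 4 - Nat.log 2 (rad (inn N \ E) v)) / rad (inn N \ E) v) with hW
  have hW0 : ∀ v ∈ inn N, 0 ≤ W v := fun v hv =>
    mul_nonneg (gE_nonneg hBI hEI v) (ac7a_w_nonneg hN hv)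
  set cell : V → V := fun v => (v.1 / 2 ^ (κ - 6), v.2 / 2 ^ (κ - 6)) with hcell
  set J := Z'.image cell with hJ
  have hm : ∀ v ∈ Z', cell v ∈ J := fun v hv => Finset.mem_image_of_mem _ hv
  rw [← Finset.sum_fiberwise_of_maps_to hm]
  have e46 : 4 * 2 ^ (κ - 8) = 2 ^ (κ - 6) := by
    have : κ - 6 = (κ - 8) + 2 := by omega
    rw [this, pow_add]; ring
  have e16 : 16 * 2 ^ (κ - 8) = 2 ^ (κ - 4) := by
    have : κ - 4 = (κ - 8) + 4 := by omega
    rw [this, pow_add]; ring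
  have h1 : ∀ m ∈ J, ∑ v ∈ Z' with cell v = m, W v ≤ C6 * 2 ^ (κ - 8) * ((n0 : ℝ) + 9) := by
    intro m hm
    obtain ⟨c, hc, rfl⟩ := Finset.mem_image.1 hm
    have hcZ : c ∈ Z := (Finset.mem_filter.1 hc).2
    have h2 := ac7a_Qsum h6 (L := κ + n0) (o := o) (t := t) hN hU hSU hBU (k := κ - 8) (c := c)
      (by omega) (by rw [e16]; exact hZ1 c hcZ) (by rw [e16]; exact hZ2 c hcZ)
      (by rw [e16]; exact hZ3 c hcZ) (Gm := 1) (fun v _ => gE_le_one hBI hEI v)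
    rw [← hE] at h2
    have h3 : ∑ v ∈ Z' with cell v = cell c, W v ≤
        ∑ v ∈ (ball c (4 * 2 ^ (κ - 8))).filter (fun v => v ∉ E), W v := by
      refine Finset.sum_le_sum_of_subset_of_nonneg ?_ (fun v hv _ => ?_)
      · intro v hv
        obtain ⟨hv1, hv2⟩ := Finset.mem_filter.1 hv
        have hv3 := (Finset.mem_sdiff.1 (Finset.mem_filter.1 hv1).1).2
        refine Finset.mem_filter.2 ⟨?_, hv3⟩
        rw [e46, mem_ball]
        have e1 : v.1 / 2 ^ (κ - 6) = c.1 / 2 ^ (κ - 6) := congrArg Prod.fst hv2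
        have e2 : v.2 / 2 ^ (κ - 6) = c.2 / 2 ^ (κ - 6) := congrArg Prod.snd hv2
        have a1 := ac7a_div v.1 (κ - 6)
        have a2 := ac7a_div v.2 (κ - 6)
        have a3 := ac7a_div c.1 (κ - 6)
        have a4 := ac7a_div c.2 (κ - 6)
        rw [e1] at a1
        rw [e2] at a2
        push_cast
        refine ⟨⟨?_, ?_⟩, ?_, ?_⟩ <;> linarith [a1.1, a1.2, a2.1, a2.2, a3.1, a3.2, a4.1, a4.2]
      · refine hW0 v (hU (hZ1 c hcZ ?_))
        rw [← e16]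
        exact ball_mono (by omega) (Finset.mem_filter.1 hv).1
    refine h3.trans (h2.trans (le_of_eq ?_))
    have e3 : ((κ - 8 : ℕ) : ℝ) = (κ : ℝ) - 8 := by
      rw [Nat.cast_sub (by omega)]; norm_num
    rw [e3]
    push_cast
    ring
  refine (Finset.sum_le_sum h1).trans ?_
  rw [Finset.sum_const, nsmul_eq_mul]
  refine mul_le_mul_of_nonneg_right ?_ (by positivity)
  have h4 : J ⊆ Finset.Icc (-(2 ^ (n0 + 6) : ℤ)) (2 ^ (n0 + 6)) ×ˢ
      Finset.Icc (-(2 ^ (n0 + 6) : ℤ)) (2 ^ (n0 + 6)) := by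
    intro m hm
    obtain ⟨c, hc, rfl⟩ := Finset.mem_image.1 hm
    have hcI : c ∈ inn N := (Finset.mem_sdiff.1 (Finset.mem_filter.1 hc).1).1
    rw [mem_inn] at hcI
    have hN' : (N : ℤ) ≤ 2 ^ (κ - 6) * 2 ^ (n0 + 6) := by
      rw [← pow_add]
      have : κ - 6 + (n0 + 6) = κ + n0 := by omega
      rw [this]
      exact_mod_cast hN
    have hp : (0 : ℤ) < 2 ^ (κ - 6) := by positivity
    have hq : (0 : ℤ) < 2 ^ (n0 + 6) := by positivity
    have b1 : -((2 : ℤ) ^ (κ - 6) * 2 ^ (n0 + 6)) ≤ c.1 ∧ c.1 ≤ 2 ^ (κ - 6) * 2 ^ (n0 + 6) := by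
      generalize (2 : ℤ) ^ (κ - 6) * 2 ^ (n0 + 6) = M at *
      omega
    have b2 : -((2 : ℤ) ^ (κ - 6) * 2 ^ (n0 + 6)) ≤ c.2 ∧ c.2 ≤ 2 ^ (κ - 6) * 2 ^ (n0 + 6) := by
      generalize (2 : ℤ) ^ (κ - 6) * 2 ^ (n0 + 6) = M at *
      omega
    have key : ∀ z : ℤ, -((2 : ℤ) ^ (κ - 6) * 2 ^ (n0 + 6)) ≤ z → z ≤ 2 ^ (κ - 6) * 2 ^ (n0 + 6) →
        -(2 : ℤ) ^ (n0 + 6) ≤ z / 2 ^ (κ - 6) ∧ z / 2 ^ (κ - 6) ≤ 2 ^ (n0 + 6) := by
      intro z hz1 hz2
      constructor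
      · rw [Int.le_ediv_iff_mul_le hp]; linarith
      · have := Int.ediv_le_ediv hp hz2
        rwa [Int.mul_ediv_cancel_left _ hp.ne'] at this
    rw [hcell, Finset.mem_product, Finset.mem_Icc, Finset.mem_Icc]
    exact ⟨key c.1 b1.1 b1.2, key c.2 b2.1 b2.2⟩
  have h5 : J.card ≤ (2 ^ (n0 + 7) + 1) ^ 2 := by
    refine (Finset.card_le_card h4).trans ?_
    rw [Finset.card_product, Int.card_Icc]
    have e : ((2 : ℤ) ^ (n0 + 6) + 1 - -2 ^ (n0 + 6)).toNat = 2 ^ (n0 + 7) + 1 := by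
      have e1 : (2 : ℤ) ^ (n0 + 6) + 1 - -2 ^ (n0 + 6) = ((2 ^ (n0 + 7) + 1 : ℕ) : ℤ) := by
        push_cast
        rw [show n0 + 7 = (n0 + 6) + 1 by omega, pow_succ]
        ring
      rw [e1, Int.toNat_natCast]
    rw [e]
    exact le_of_eq (sq _).symm
  exact_mod_cast h5

lemma ac7a_psi {A : Finset (ℕ × V)} {χ0 : V → ℝ} {χ : ℕ × V → V → ℝ}
    (hχ0 : ∀ v, 0 ≤ χ0 v ∧ χ0 v ≤ 1) (hχ : ∀ Q ∈ A, ∀ v, 0 ≤ χ Q v ∧ χ Q v ≤ 1) (v : V)
    (a0 : ℝ) (ha0 : 0 ≤ a0) (h0d : ∀ w ∈ nb v, |χ0 w - χ0 v| ≤ a0) (h0l : |lap χ0 v| ≤ a0 ^ 2)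
    (a : ℕ × V → ℝ) (ha : ∀ Q ∈ A, 0 ≤ a Q) (hd : ∀ Q ∈ A, ∀ w ∈ nb v, |χ Q w - χ Q v| ≤ a Q)
    (hl : ∀ Q ∈ A, |lap (χ Q) v| ≤ a Q ^ 2) :
    (∀ w ∈ nb v, |(1 - (1 - χ0 w) * ∏ Q ∈ A, (1 - χ Q w)) -
      (1 - (1 - χ0 v) * ∏ Q ∈ A, (1 - χ Q v))| ≤ 2 * (∑ Q ∈ A, a Q + a0)) ∧
      |lap (fun v => 1 - (1 - χ0 v) * ∏ Q ∈ A, (1 - χ Q v)) v| ≤
        (2 * (∑ Q ∈ A, a Q + a0)) ^ 2 := by
  set f : Option (ℕ × V) → V → ℝ := fun i v => 1 - (Option.elim i χ0 χ) v with hf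
  set b : Option (ℕ × V) → ℝ := fun i => Option.elim i a0 a with hb
  have hlapc : ∀ (g : V → ℝ), lap (fun v => 1 - g v) v = - lap g v := by
    intro g; unfold lap; ring
  have hp := prod_cut (insertNone A) f (fun i hi v => by
    rcases i with _ | Q
    · have := hχ0 v
      simp only [hf, Option.elim]
      constructor <;> linarith
    · have := hχ Q (Finset.some_mem_insertNone.1 hi) v
      simp only [hf, Option.elim]
      constructor <;> linarith) v b (fun i hi w hw => by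
    rcases i with _ | Q
    · have := h0d w hw
      simp only [hf, hb, Option.elim]
      rw [show 1 - χ0 w - (1 - χ0 v) = -(χ0 w - χ0 v) by ring, abs_neg]
      exact this
    · have := hd Q (Finset.some_mem_insertNone.1 hi) w hw
      simp only [hf, hb, Option.elim]
      rw [show 1 - χ Q w - (1 - χ Q v) = -(χ Q w - χ Q v) by ring, abs_neg]
      exact this)
  have e1 : ∀ w, ∏ i ∈ insertNone A, f i w = (1 - χ0 w) * ∏ Q ∈ A, (1 - χ Q w) := by
    intro w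
    rw [Finset.prod_insertNone]
    simp only [hf, Option.elim]
  have e2 : ∑ i ∈ insertNone A, b i = ∑ Q ∈ A, a Q + a0 := by
    rw [Finset.sum_insertNone]
    simp only [hb, Option.elim]
    ring
  have e3 : ∑ i ∈ insertNone A, |lap (f i) v| ≤ ∑ i ∈ insertNone A, b i ^ 2 := by
    refine Finset.sum_le_sum (fun i hi => ?_)
    rcases i with _ | Q
    · simp only [hf, hb, Option.elim]
      rw [hlapc, abs_neg]
      exact h0l
    · simp only [hf, hb, Option.elim]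
      rw [hlapc, abs_neg]
      exact hl Q (Finset.some_mem_insertNone.1 hi)
  have hb0 : ∀ i ∈ insertNone A, 0 ≤ b i := by
    intro i hi
    rcases i with _ | Q
    · exact ha0
    · exact ha Q (Finset.some_mem_insertNone.1 hi)
  have e4 : ∑ i ∈ insertNone A, b i ^ 2 ≤ (∑ i ∈ insertNone A, b i) ^ 2 :=
    Finset.sum_sq_le_sq_sum_of_nonneg hb0
  simp only [e1, e2] at hp e4

  constructor
  · intro w hw
    rw [show (1 - (1 - χ0 w) * ∏ Q ∈ A, (1 - χ Q w)) - (1 - (1 - χ0 v) * ∏ Q ∈ A, (1 - χ Q v)) =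
      -((1 - χ0 w) * ∏ Q ∈ A, (1 - χ Q w) - (1 - χ0 v) * ∏ Q ∈ A, (1 - χ Q v)) by ring, abs_neg]
    have h0 : 0 ≤ ∑ Q ∈ A, a Q + a0 := add_nonneg (Finset.sum_nonneg ha) ha0
    linarith [hp.1 w hw]
  · rw [hlapc, abs_neg]
    have h0 : 0 ≤ (∑ Q ∈ A, a Q + a0) ^ 2 := sq_nonneg _
    have := hp.2
    nlinarith [this, e3, e4]


lemma ac7a_lap_const {f : V → ℝ} {v : V} (h : ∀ w ∈ nb v, f w = f v) : lap f v = 0 := by
  unfold lap
  rw [h (v.1 + 1, v.2) (by simp [nb]), h (v.1 - 1, v.2) (by simp [nb]),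
    h (v.1, v.2 + 1) (by simp [nb]), h (v.1, v.2 - 1) (by simp [nb])]
  ring

/-- estimate at one time of the exploration -/
theorem step_bound (n0 : ℕ) : ∃ Ca Cb : ℝ, 0 < Ca ∧ 0 < Cb ∧
    ∀ (κ N : ℕ) (U : Finset V) (p e : V) (n : ℕ), 16 ≤ κ → Geo n0 κ N U p e n →
    ∀ (S B : Finset V), S = ball p (2 ^ (κ - 2)) → B = ball (p + n • e) (2 ^ (κ - 2)) →
    ∀ (x : V → ℝ) (lam s : ℝ) (R C1 t : ℕ), 0 < lam → 0 ≤ s → t ≤ R →
    ¬ Reach U S B x lam R → LogB N (κ + n0) U S x lam R s →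
    ∀ (E F : Finset V), E = Bs U S (fun v => x v ≤ lam) t → F = Fs U S (fun v => x v ≤ lam) t →
    lam * kap1 N κ U p e n - Ca * s ≤ Mx (inn N) E (eqp (inn N) B) x +
      Cb * (lam + s) * ∑ Q ∈ Act (inn N) B U (S ∪ B) x lam C1 (κ + n0) E F,
        Gh (inn N) B E Q * ((κ + n0 : ℝ) - Q.1 + 1) +
      (lam + s * ((κ + n0 : ℝ) + 2)) *
        ∑ v ∈ F.filter (fun v => ¬ Allw U (S ∪ B) 0 v ∧ ball v (2 ^ (κ - 3)) ⊆ U),
          lap (hx (inn N) E (eqp (inn N) B)) v := by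
  obtain ⟨C5, hC5, h5⟩ := lap_mul_bound
  obtain ⟨C6, hC6, h6⟩ := occ_sum
  set A0 : ℝ := 2 * (6480 + 2 ^ (n0 + 6)) with hA0
  have hA0p : 0 < A0 := by positivity
  set KZ : ℝ := (2 ^ (n0 + 7) + 1) ^ 2 * (C6 * ((n0 : ℝ) + 9)) with hKZ
  have hKZp : 0 < KZ := by positivity
  refine ⟨C5 * (1 + A0) * 2 * KZ, 5184 + C5 * (1 + A0) * 2 * (8 * C6), by positivity,
    by positivity, ?_⟩
  intro κ N U p e n hκ hgeo S B hS hB x lam s R C1 t hlam hs ht hno hlog E F hE hF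
  have hNL : N ≤ 2 ^ (κ + n0) := hgeo.hN
  -- geometry
  have hκ1 : (2 : ℕ) ^ κ = 4 * 2 ^ (κ - 2) := by
    have : κ = (κ - 2) + 2 := by omega
    conv_lhs => rw [this]
    rw [pow_add]; ring
  have hκ2 : (2 : ℕ) ^ (κ - 2) = 2 * 2 ^ (κ - 3) := by
    have : κ - 2 = (κ - 3) + 1 := by omega
    rw [this, pow_add]; ring
  have hκ3 : (2 : ℕ) ^ (κ - 3) = 2 * 2 ^ (κ - 4) := by
    have : κ - 3 = (κ - 4) + 1 := by omega
    rw [this, pow_add]; ring
  have hκ4 : (2 : ℕ) ≤ 2 ^ (κ - 4) := by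
    calc 2 = 2 ^ 1 := rfl
      _ ≤ 2 ^ (κ - 4) := Nat.pow_le_pow_right (by norm_num) (by omega)
  set r : ℕ := 2 ^ (κ - 3) with hr
  have hpU : ball p (2 ^ κ) ⊆ U := by
    have := hgeo.hseg 0 (Nat.zero_le _)
    simpa using this
  have hqU : ball (p + n • e) (2 ^ κ) ⊆ U := hgeo.hseg n le_rfl
  have hSU : S ⊆ U := by rw [hS]; exact (ball_mono (by omega)).trans hpU
  have hBU : B ⊆ U := by rw [hB]; exact (ball_mono (by omega)).trans hqU
  have hUI := hgeo.hUI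
  have hBI : B ⊆ inn N := hBU.trans hUI
  have hEU : E ⊆ U := by rw [hE]; exact Bs_subset hSU t
  have hEI : E ⊆ inn N := hEU.trans hUI
  have hSE : S ⊆ E := by rw [hE]; exact Bs_mono (Nat.zero_le t)
  have hFE : F ⊆ E := by rw [hE, hF]; exact Fs_subset t
  have hcoreU : core U κ ⊆ U := Finset.filter_subset _ _
  have hScore : S ⊆ core U κ := by
    intro v hv
    refine Finset.mem_filter.2 ⟨hSU hv, fun w hw => hpU ?_⟩
    rw [hS] at hv
    exact ball_mono (by omega) (mem_ball_trans hv hw)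
  have hBcore : B ⊆ core U κ := by
    intro v hv
    refine Finset.mem_filter.2 ⟨hBU hv, fun w hw => hqU ?_⟩
    rw [hB] at hv
    exact ball_mono (by omega) (mem_ball_trans hv hw)
  obtain ⟨a, b, hab⟩ := hgeo.hU
  have hcorner : a.1 + 4 * (r : ℤ) ≤ b.1 ∧ a.2 + 4 * (r : ℤ) ≤ b.2 := by
    have m1 : ((p.1 - (2 ^ κ : ℕ), p.2) : V) ∈ U := hpU (by rw [mem_ball]; simp only; omega)
    have m2 : ((p.1 + (2 ^ κ : ℕ), p.2) : V) ∈ U := hpU (by rw [mem_ball]; simp only; omega)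
    have m3 : ((p.1, p.2 - (2 ^ κ : ℕ)) : V) ∈ U := hpU (by rw [mem_ball]; simp only; omega)
    have m4 : ((p.1, p.2 + (2 ^ κ : ℕ)) : V) ∈ U := hpU (by rw [mem_ball]; simp only; omega)
    rw [hab, Finset.mem_product, Finset.mem_Icc, Finset.mem_Icc] at m1 m2 m3 m4
    simp only at m1 m2 m3 m4
    constructor <;> omega
  obtain ⟨χ0, hχ0, hχ1, hχ2, hχ3, hχ4⟩ := box_cut a b r (by omega) hcorner.1 hcorner.2
  rw [← hab] at hχ1 hχ2
  have hχcore : ∀ v ∈ core U κ, χ0 v = 0 := by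
    intro v hv
    refine hχ2 v ?_
    have := (Finset.mem_filter.1 hv).2
    rwa [hκ2] at this
  have hcell : ∀ Q : ℕ × V, ∃ χ : V → ℝ, (∀ v, 0 ≤ χ v ∧ χ v ≤ 1) ∧
      (∀ v ∈ ball Q.2 (2 * 2 ^ Q.1), χ v = 1) ∧
      (∀ v ∉ ball Q.2 (4 * 2 ^ Q.1 - 1), χ v = 0) ∧
      (∀ v, ∀ w ∈ nb v, |χ w - χ v| ≤ 8 / 2 ^ Q.1) ∧
      (∀ v, |lap χ v| ≤ 64 / ((2 : ℝ) ^ Q.1) ^ 2) := by
    intro Q
    obtain ⟨χ, c1, c2, c3, c4, c5⟩ := cell_cut Q.2 (2 ^ Q.1) Nat.one_le_two_pow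
    refine ⟨χ, c1, c2, c3, ?_, ?_⟩
    · push_cast at c4; exact c4
    · push_cast at c5; exact c5
  choose χ hc1 hc2 hc3 hc4 hc5 using hcell
  set A := Act (inn N) B U (S ∪ B) x lam C1 (κ + n0) E F with hA
  have hAct : ∀ Q ∈ A, Q.1 < κ + n0 ∧ ball Q.2 (2 ^ (Q.1 + 9)) ⊆ U ∧
      Disjoint (ball Q.2 (2 ^ (Q.1 + 9))) S ∧ Disjoint (ball Q.2 (2 ^ (Q.1 + 9))) B ∧
      ∃ v ∈ F, Q.2 = cen Q.1 v ∧ v ∈ ball Q.2 (2 ^ Q.1) := by
    intro Q hQ
    obtain ⟨q1, ⟨q2, q3⟩, q4⟩ := ac7a_act (by omega) hQ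
    rw [Finset.disjoint_union_right] at q3
    exact ⟨q1, q2, q3.1, q3.2, q4⟩
  have h512 : ∀ k : ℕ, 4 * 2 ^ k - 1 ≤ 2 ^ (k + 9) ∧ 16 * 2 ^ k ≤ 2 ^ (k + 9) ∧
      4 * 2 ^ k ≤ 2 ^ (k + 9) := by
    intro k; rw [pow_add]; omega
  set h : V → ℝ := fun v => lap (hx (inn N) E (eqp (inn N) B)) v with hh
  set g : V → ℝ := gE (inn N) B E with hg
  set u : V → ℝ := hx (inn N) E x with hu
  set P : V → ℝ := fun v => ∏ Q ∈ A, (1 - χ Q v) with hP
  set Ψ : V → ℝ := fun v => 1 - (1 - χ0 v) * P v with hΨ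
  have hPb : ∀ v, 0 ≤ P v ∧ P v ≤ 1 ∧ 1 - ∑ Q ∈ A, χ Q v ≤ P v := fun v =>
    ac7a_prod A (fun Q => χ Q v) (fun Q _ => hc1 Q v)
  have hΨb : ∀ v, 0 ≤ Ψ v ∧ Ψ v ≤ 1 := by
    intro v
    obtain ⟨p1, p2, -⟩ := hPb v
    obtain ⟨p3, p4⟩ := hχ0 v
    simp only [hΨ]
    constructor
    · nlinarith
    · nlinarith
  have hΨB : ∀ v ∈ B, Ψ v = 0 := by
    intro v hv
    have e1 : P v = 1 := by
      refine Finset.prod_eq_one (fun Q hQ => ?_)
      rw [hc3 Q v (fun hvc => ?_)]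
      · ring
      · exact Finset.disjoint_left.1 (hAct Q hQ).2.2.2.1 (ball_mono (h512 Q.1).1 hvc) hv
    simp only [hΨ]
    rw [e1, hχcore v (hBcore hv)]
    ring
  have hh0 : ∀ v ∈ E, 0 ≤ h v := by
    intro v hv
    simp only [hh]
    rw [lap_hx_eqp hBI hEI hv]
    refine add_nonneg ?_ (Finset.sum_nonneg (fun w _ => gE_nonneg hBI hEI w))
    split_ifs with hvB
    · exact qw_nonneg hvB
    · exact le_rfl
  have hL2 : 0 ≤ s * ((κ + n0 : ℝ) + 2) := by positivity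
  -- first term
  have hfirst : ∀ v ∈ E, lam * (h v * (1 - Ψ v)) -
      (if v ∈ F.filter (fun v => ¬ Allw U (S ∪ B) 0 v ∧ ball v (2 ^ (κ - 3)) ⊆ U) then
        (lam + s * ((κ + n0 : ℝ) + 2)) * h v else 0) ≤ h v * (1 - Ψ v) * x v := by
    intro v hv
    have a1 := hh0 v hv
    obtain ⟨a2, a3⟩ := hΨb v
    have a4 : 0 ≤ h v * (1 - Ψ v) := mul_nonneg a1 (by linarith)
    have a5 : 0 ≤ (if v ∈ F.filter (fun v => ¬ Allw U (S ∪ B) 0 v ∧ ball v (2 ^ (κ - 3)) ⊆ U) then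
        (lam + s * ((κ + n0 : ℝ) + 2)) * h v else 0) := by
      split_ifs
      · exact mul_nonneg (by linarith) a1
      · exact le_rfl
    by_cases hxv : lam < x v
    · nlinarith
    rw [not_lt] at hxv
    rcases eq_or_lt_of_le a4 with h00 | hpos
    · rw [← h00]; linarith
    have hhv : 0 < h v := by
      rcases eq_or_lt_of_le a1 with h00 | h01
      · rw [← h00] at hpos; simp at hpos
      · exact h01
    have hΨv : Ψ v < 1 := by
      by_contra hcon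
      have : Ψ v = 1 := le_antisymm a3 (not_lt.1 hcon)
      rw [this] at hpos; simp at hpos
    have hχv : χ0 v ≠ 1 := by
      intro hcon
      apply hΨv.ne
      simp only [hΨ]; rw [hcon]; ring
    have hballv : ball v r ⊆ U := by
      by_contra hcon
      exact hχv (hχ1 v hcon)
    have hvE : v ∈ Bs U S (fun v => x v ≤ lam) t := by rw [← hE]; exact hv
    obtain ⟨s', hs', hvs⟩ := mem_Fs_of_open hvE hxv
    have hvB : v ∉ B := Finset.disjoint_left.1 (disjoint_of_not_reach hno s' (hs'.trans ht)) hvs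
    have hst : s' = t := by
      by_contra hne
      have hlt : s' < t := lt_of_le_of_ne hs' hne
      have hnb : nb v ⊆ E := by
        rw [hE]
        refine Finset.Subset.trans ?_ (Bs_mono (show s' + 1 ≤ t by omega))
        rw [Bs_succ]
        intro w hw
        refine Finset.mem_union_right _ (Finset.mem_inter.2 ⟨Finset.mem_biUnion.2 ⟨v, hvs, hw⟩, ?_⟩)
        exact hballv (ball_mono (by omega) (nb_ball hw))
      have : h v = 0 := by
        simp only [hh]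
        rw [lap_hx_eqp hBI hEI hv, if_neg hvB, Finset.sum_eq_zero (fun w hw => gE_on (hnb hw))]
        ring
      exact hhv.ne' this
    have hvF : v ∈ F := by rw [hF, ← hst]; exact hvs
    have hnA : ¬ Allw U (S ∪ B) 0 v := by
      intro hAl
      set Q : ℕ × V := (kmx U (S ∪ B) x lam C1 (κ + n0) v,
        cen (kmx U (S ∪ B) x lam C1 (κ + n0) v) v) with hQ
      have hQA : Q ∈ A := by
        rw [hA, Act]
        exact Finset.mem_image_of_mem _ (Finset.mem_filter.2 ⟨hvF, hAl, hhv⟩)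
      have hv1 : χ Q v = 1 := hc2 Q v (ball_mono (show 2 ^ Q.1 ≤ 2 * 2 ^ Q.1 by omega)
        (ac7a_cell Q.1 v))
      have hP0 : P v = 0 := Finset.prod_eq_zero hQA (by rw [hv1]; ring)
      apply hΨv.ne
      simp only [hΨ]; rw [hP0]; ring
    have hfil : v ∈ F.filter (fun v => ¬ Allw U (S ∪ B) 0 v ∧ ball v (2 ^ (κ - 3)) ⊆ U) :=
      Finset.mem_filter.2 ⟨hvF, hnA, hballv⟩
    rw [if_pos hfil]
    have hxlow : -(s * ((κ + n0 : ℝ) + 2)) ≤ x v := by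
      have h1 := hlog t ht v (hEI hv)
      rw [← hE, hx_on hv] at h1
      have h2 : rad (inn N \ E) v = 0 := by
        by_contra hcon
        exact (Finset.mem_sdiff.1 (rad_pos.1 (Nat.pos_of_ne_zero hcon))).2 hv
      rw [h2] at h1
      simp only [Nat.log_zero_right, Nat.cast_zero, sub_zero] at h1
      push_cast at h1
      linarith [neg_abs_le (x v)]
    have h3 : h v * (1 - Ψ v) * (lam + s * ((κ + n0 : ℝ) + 2)) ≤
        (lam + s * ((κ + n0 : ℝ) + 2)) * h v := by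
      have : h v * (1 - Ψ v) ≤ h v := by nlinarith
      have := mul_le_mul_of_nonneg_right this (show 0 ≤ lam + s * ((κ + n0 : ℝ) + 2) by linarith)
      linarith
    have h4 := mul_le_mul_of_nonneg_left hxlow a4
    linarith
  have hfirstsum := Finset.sum_le_sum hfirst
  rw [Finset.sum_sub_distrib, ← Finset.mul_sum, Finset.sum_ite_mem, ← Finset.mul_sum,
    Finset.inter_eq_right.2 ((Finset.filter_subset _ _).trans hFE)] at hfirstsum
  -- flux
  have hflux : kap1 N κ U p e n ≤ ∑ v ∈ E, h v * (1 - χ0 v) := by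
    have := flux (I := inn N) (B := B) (E := E) (S := S) (W := core U κ) hBI hEI hSE hScore
      (hcoreU.trans hUI) (χ := χ0) (fun v => (hχ0 v).1) (fun v => (hχ0 v).2) hχcore
    refine le_trans (le_of_eq ?_) this
    unfold kap1
    rw [← hB, ← hS]
  have hchi : ∀ Q ∈ A, ∑ v ∈ E, h v * χ Q v ≤ 5184 * Gh (inn N) B E Q := by
    intro Q hQ
    obtain ⟨q1, q2, q3, q4, -⟩ := hAct Q hQ
    exact ac7a_hchi hBI hEI (k := Q.1) (c := Q.2) (q2.trans hUI) q4 (hc3 Q) (hc5 Q)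
  have hsumΨ : kap1 N κ U p e n - 5184 * ∑ Q ∈ A, Gh (inn N) B E Q ≤
      ∑ v ∈ E, h v * (1 - Ψ v) := by
    have h1 : ∑ v ∈ E, (h v * (1 - χ0 v) - ∑ Q ∈ A, h v * χ Q v) ≤ ∑ v ∈ E, h v * (1 - Ψ v) := by
      refine Finset.sum_le_sum (fun v hv => ?_)
      obtain ⟨p1, p2, p3⟩ := hPb v
      obtain ⟨p4, p5⟩ := hχ0 v
      have p6 : 0 ≤ ∑ Q ∈ A, χ Q v := Finset.sum_nonneg (fun Q _ => (hc1 Q v).1)
      rw [← Finset.mul_sum, ← mul_sub]
      refine mul_le_mul_of_nonneg_left ?_ (hh0 v hv)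
      simp only [hΨ]
      nlinarith
    rw [Finset.sum_sub_distrib, Finset.sum_comm] at h1
    have h2 := Finset.sum_le_sum hchi
    rw [← Finset.mul_sum] at h2
    linarith
  -- second term
  set Z : Finset V := (inn N).filter (fun v => ball v (r - 1) ⊆ U ∧ ¬ ball v (2 * r + 1) ⊆ U)
    with hZ
  have hr1 : 1 ≤ r := by omega
  have hrR : (0 : ℝ) < r := by exact_mod_cast hr1
  set w : V → ℝ := fun v => ((((κ + n0 : ℕ) : ℝ) + 4 - Nat.log 2 (rad (inn N \ E) v)) /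
    rad (inn N \ E) v) with hw
  have hw0 : ∀ v ∈ inn N, 0 ≤ w v := fun v hv => ac7a_w_nonneg hNL hv
  have hχZ : ∀ v ∈ inn N, v ∉ Z → ∀ w ∈ nb v, χ0 w = χ0 v := by
    intro v hv hvZ w hwv
    by_cases c1 : ball v (r - 1) ⊆ U
    · have c2 : ball v (2 * r + 1) ⊆ U := by
        by_contra hcon
        exact hvZ (Finset.mem_filter.2 ⟨hv, c1, hcon⟩)
      rw [hχ2 v ((ball_mono (by omega)).trans c2), hχ2 w (fun z hz => c2 ?_)]
      exact ball_mono (by omega) (mem_ball_trans (nb_ball hwv) hz)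
    · rw [hχ1 v (fun hcon => c1 ((ball_mono (by omega)).trans hcon)),
        hχ1 w (fun hcon => c1 (fun z hz => hcon ?_))]
      exact ball_mono (by omega) (mem_ball_trans (nb_ball (nb_symm.1 hwv)) hz)
  have hpt : ∀ v ∈ inn N \ E, |lap (fun v => Ψ v * u v) v| ≤ C5 * (1 + A0) * s *
      (2 * ((∑ Q ∈ A, if v ∈ ball Q.2 (4 * 2 ^ Q.1) then (8 : ℝ) / 2 ^ Q.1 else 0) +
        (if v ∈ Z then 8 / (r : ℝ) else 0))) * w v := by
    intro v hv
    obtain ⟨hvI, hvE⟩ := Finset.mem_sdiff.1 hv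
    have b0 : 0 ≤ (if v ∈ Z then 8 / (r : ℝ) else 0) := by split_ifs <;> positivity
    have bQ : ∀ Q ∈ A, 0 ≤ (if v ∈ ball Q.2 (4 * 2 ^ Q.1) then (8 : ℝ) / 2 ^ Q.1 else 0) := by
      intro Q _; split_ifs <;> positivity
    obtain ⟨k1, k2⟩ := ac7a_psi (A := A) (χ0 := χ0) (χ := χ) hχ0 (fun Q _ => hc1 Q) v
      (if v ∈ Z then 8 / (r : ℝ) else 0) b0
      (by
        intro w hwv
        by_cases hvZ : v ∈ Z
        · rw [if_pos hvZ]; exact hχ3 v w hwv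
        · rw [if_neg hvZ, hχZ v hvI hvZ w hwv]; simp)
      (by
        by_cases hvZ : v ∈ Z
        · rw [if_pos hvZ]
          refine (hχ4 v).trans (le_of_eq ?_)
          ring
        · rw [if_neg hvZ, ac7a_lap_const (hχZ v hvI hvZ)]; simp)
      (fun Q => if v ∈ ball Q.2 (4 * 2 ^ Q.1) then (8 : ℝ) / 2 ^ Q.1 else 0) bQ
      (by
        intro Q hQ w hwv
        by_cases hvc : v ∈ ball Q.2 (4 * 2 ^ Q.1)
        · simp only [if_pos hvc]; exact hc4 Q v w hwv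
        · simp only [if_neg hvc]
          rw [hc3 Q v (ac7a_out' hvc), hc3 Q w (ac7a_out (Nat.succ_le_of_lt (by positivity)) hvc w hwv)]; simp)
      (by
        intro Q hQ
        by_cases hvc : v ∈ ball Q.2 (4 * 2 ^ Q.1)
        · simp only [if_pos hvc]
          refine (hc5 Q v).trans (le_of_eq ?_)
          ring
        · simp only [if_neg hvc]
          rw [ac7a_lap_zero (hc3 Q v (ac7a_out' hvc)) (fun w hwv => hc3 Q w
            (ac7a_out (Nat.succ_le_of_lt (by positivity)) hvc w hwv))]; simp)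
    refine h5 N (κ + n0) hNL E hEI u s (fun v hv => hx_out hEI hv) (fun v hv hv' => lap_hx hv hv')
      ?_ Ψ v _ A0 hvI hvE ?_ hA0p.le ?_ k1 k2
    · intro y hy
      have h1 := hlog t ht y hy
      rw [← hE] at h1
      exact h1
    · exact mul_nonneg (by norm_num) (add_nonneg (Finset.sum_nonneg bQ) b0)
    · have s1 := ac7a_sigma A (κ + n0) v (rad (inn N \ E) v)
        (fun Q hQ => by
          obtain ⟨q1, -, -, -, v', -, q2, -⟩ := hAct Q hQ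
          exact ⟨q1, v', q2⟩)
        (fun Q hQ hvc => by
          obtain ⟨-, -, -, -, v', q1, -, q2⟩ := hAct Q hQ
          refine ac7a_rad_le' (a := v') (fun hcon => (Finset.mem_sdiff.1 hcon).2 (hFE q1)) ?_
          have := mem_ball_trans (mem_ball_symm.1 hvc) q2
          exact ball_mono (by omega) this)
      have s2 : (if v ∈ Z then 8 / (r : ℝ) else 0) * rad (inn N \ E) v ≤ 2 ^ (n0 + 6) := by
        have s3 : (rad (inn N \ E) v : ℝ) ≤ 2 ^ (n0 + 3) * r := by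
          have s4 : rad (inn N \ E) v ≤ 2 ^ (n0 + 3) * r := by
            refine (ac7a_rad_le hvI).trans (hNL.trans (le_of_eq ?_))
            rw [hr, ← pow_add]
            congr 1; omega
          exact_mod_cast s4
        have s5 : (0 : ℝ) ≤ rad (inn N \ E) v := Nat.cast_nonneg _
        split_ifs
        · calc 8 / (r : ℝ) * rad (inn N \ E) v ≤ 8 / (r : ℝ) * (2 ^ (n0 + 3) * r) :=
              mul_le_mul_of_nonneg_left s3 (by positivity)
            _ = 2 ^ (n0 + 6) := by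
              field_simp
              rw [show n0 + 6 = (n0 + 3) + 3 by omega, pow_add]; ring
        · rw [zero_mul]; positivity
      rw [hA0, mul_assoc, add_mul]
      linarith
  have hsecond : ∑ v ∈ inn N \ E, g v * lap (fun v => Ψ v * u v) v ≤
      C5 * (1 + A0) * s * 2 * (8 * C6 * ∑ Q ∈ A, Gh (inn N) B E Q * ((κ + n0 : ℝ) - Q.1 + 1) +
        KZ) := by
    have c1 : ∀ v ∈ inn N \ E, g v * lap (fun v => Ψ v * u v) v ≤ C5 * (1 + A0) * s * 2 *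
        (∑ Q ∈ A, (8 : ℝ) / 2 ^ Q.1 * (if v ∈ ball Q.2 (4 * 2 ^ Q.1) then g v * w v else 0) +
          8 / (r : ℝ) * (if v ∈ Z then g v * w v else 0)) := by
      intro v hv
      have c2 := hpt v hv
      have c3 := gE_nonneg hBI hEI v
      have c4 := mul_le_mul_of_nonneg_left ((le_abs_self _).trans c2) c3
      refine c4.trans (le_of_eq ?_)
      have c5 : ∑ Q ∈ A, (8 : ℝ) / 2 ^ Q.1 * (if v ∈ ball Q.2 (4 * 2 ^ Q.1) then g v * w v else 0) =
          (∑ Q ∈ A, if v ∈ ball Q.2 (4 * 2 ^ Q.1) then (8 : ℝ) / 2 ^ Q.1 else 0) * (g v * w v) := by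
        rw [Finset.sum_mul]
        refine Finset.sum_congr rfl (fun Q _ => ?_)
        split_ifs <;> ring
      have c6 : 8 / (r : ℝ) * (if v ∈ Z then g v * w v else 0) =
          (if v ∈ Z then 8 / (r : ℝ) else 0) * (g v * w v) := by
        split_ifs <;> ring
      rw [c5, c6]
      ring
    refine (Finset.sum_le_sum c1).trans ?_
    rw [← Finset.mul_sum, Finset.sum_add_distrib, Finset.sum_comm, ← Finset.mul_sum]
    refine mul_le_mul_of_nonneg_left (add_le_add ?_ ?_) (by positivity)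
    · rw [Finset.mul_sum]
      refine Finset.sum_le_sum (fun Q hQ => ?_)
      obtain ⟨q1, q2, q3, q4, -⟩ := hAct Q hQ
      rw [← Finset.mul_sum, ← Finset.sum_filter]
      have d1 := ac7a_Qsum h6 (L := κ + n0) (o := fun v => x v ≤ lam) (t := t) hNL hUI hSU hBU
        (k := Q.1) (c := Q.2) q1.le ((ball_mono (h512 Q.1).2.1).trans q2)
        (q3.mono_left (ball_mono (h512 Q.1).2.1)) (q4.mono_left (ball_mono (h512 Q.1).2.1))
        (Gm := Gh (inn N) B E Q) (fun v hv => by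
          rw [← hE]
          exact ac7a_Gh_ge (k := Q.1) (c := Q.2) hv)
      rw [← hE] at d1
      have d2 : (inn N \ E).filter (fun v => v ∈ ball Q.2 (4 * 2 ^ Q.1)) ⊆
          (ball Q.2 (4 * 2 ^ Q.1)).filter (fun v => v ∉ E) := by
        intro v hv
        obtain ⟨d3, d4⟩ := Finset.mem_filter.1 hv
        exact Finset.mem_filter.2 ⟨d4, (Finset.mem_sdiff.1 d3).2⟩
      have d5 : ∑ v ∈ (inn N \ E).filter (fun v => v ∈ ball Q.2 (4 * 2 ^ Q.1)), g v * w v ≤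
          ∑ v ∈ (ball Q.2 (4 * 2 ^ Q.1)).filter (fun v => v ∉ E), g v * w v := by
        refine Finset.sum_le_sum_of_subset_of_nonneg d2 (fun v hv _ => ?_)
        refine mul_nonneg (gE_nonneg hBI hEI v) (hw0 v (hUI (q2 ?_)))
        exact ball_mono (h512 Q.1).2.2 (Finset.mem_filter.1 hv).1
      have d6 : (0 : ℝ) < 2 ^ Q.1 := by positivity
      calc (8 : ℝ) / 2 ^ Q.1 *
            ∑ v ∈ (inn N \ E).filter (fun v => v ∈ ball Q.2 (4 * 2 ^ Q.1)), g v * w v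
          ≤ (8 : ℝ) / 2 ^ Q.1 * (C6 * 2 ^ Q.1 * Gh (inn N) B E Q *
              (((κ + n0 : ℕ) : ℝ) - Q.1 + 1)) :=
            mul_le_mul_of_nonneg_left (d5.trans d1) (by positivity)
        _ = 8 * C6 * (Gh (inn N) B E Q * ((κ + n0 : ℝ) - Q.1 + 1)) := by
            push_cast; field_simp
    · have z1 : ∀ c ∈ Z, ball c (2 ^ (κ - 4)) ⊆ U := by
        intro c hc
        exact (ball_mono (by omega)).trans (Finset.mem_filter.1 hc).2.1
      have z0 : ∀ q : V, ball q (2 ^ κ) ⊆ U → ∀ c ∈ Z,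
          Disjoint (ball c (2 ^ (κ - 4))) (ball q (2 ^ (κ - 2))) := by
        intro q hq c hc
        rw [Finset.disjoint_left]
        intro v hv hv'
        apply (Finset.mem_filter.1 hc).2.2
        intro z hz
        refine hq ?_
        have := mem_ball_trans (mem_ball_trans hv' (mem_ball_symm.1 hv)) hz
        exact ball_mono (by omega) this
      have z2 := ac7a_Z hC6 h6 (o := fun v => x v ≤ lam) (t := t) hκ hNL hUI hSU hBU Z z1
        (fun c hc => by rw [hS]; exact z0 p hpU c hc)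
        (fun c hc => by rw [hB]; exact z0 _ hqU c hc)
      rw [← hE] at z2
      have z3 : 8 / (r : ℝ) * 2 ^ (κ - 8) ≤ 1 := by
        rw [div_mul_eq_mul_div, div_le_one hrR]
        have : 8 * 2 ^ (κ - 8) ≤ r := by
          have e : κ - 3 = (κ - 8) + 5 := by omega
          rw [hr, e, pow_add]; omega
        exact_mod_cast this
      calc 8 / (r : ℝ) * ∑ v ∈ inn N \ E, (if v ∈ Z then g v * w v else 0)
          ≤ 8 / (r : ℝ) * ((2 ^ (n0 + 7) + 1) ^ 2 * (C6 * 2 ^ (κ - 8) * ((n0 : ℝ) + 9))) :=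
            mul_le_mul_of_nonneg_left z2 (by positivity)
        _ = (8 / (r : ℝ) * 2 ^ (κ - 8)) * KZ := by rw [hKZ]; ring
        _ ≤ 1 * KZ := mul_le_mul_of_nonneg_right z3 hKZp.le
        _ = KZ := one_mul _
  -- combination
  have hsplit : Mx (inn N) E (eqp (inn N) B) x = ∑ v ∈ E, h v * (1 - Ψ v) * x v -
      ∑ v ∈ inn N \ E, g v * lap (fun v => Ψ v * u v) v := by
    have h1 := sum_lap_hx (I := inn N) (B := B) (E := E) hBI hEI (w := fun v => Ψ v * u v)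
      (fun v hv => by simp only [hu]; rw [hx_out hEI hv, mul_zero])
      (fun v hv => by rw [hΨB v hv, zero_mul])
    have h2 : Mx (inn N) E (eqp (inn N) B) x = ∑ v ∈ E, h v * (1 - Ψ v) * x v +
        ∑ v ∈ E, lap (hx (inn N) E (eqp (inn N) B)) v * (Ψ v * u v) := by
      unfold Mx
      rw [← Finset.sum_add_distrib]
      refine Finset.sum_congr rfl (fun v hv => ?_)
      have : u v = x v := hx_on hv
      rw [this]
      simp only [hh]
      ring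
    rw [h2, h1]
    ring
  have hGh : ∑ Q ∈ A, Gh (inn N) B E Q ≤
      ∑ Q ∈ A, Gh (inn N) B E Q * ((κ + n0 : ℝ) - Q.1 + 1) := by
    refine Finset.sum_le_sum (fun Q hQ => ?_)
    have h1 := ac7a_Gh_nonneg hBI hEI Q
    have h2 : (Q.1 : ℝ) ≤ (κ + n0 : ℝ) := by exact_mod_cast (hAct Q hQ).1.le
    nlinarith
  have hG0 : 0 ≤ ∑ Q ∈ A, Gh (inn N) B E Q :=
    Finset.sum_nonneg (fun Q _ => ac7a_Gh_nonneg hBI hEI Q)
  rw [hsplit]
  set SG := ∑ Q ∈ A, Gh (inn N) B E Q * ((κ + n0 : ℝ) - Q.1 + 1) with hSG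
  set S1 := ∑ Q ∈ A, Gh (inn N) B E Q with hS1
  set FI := ∑ v ∈ F.filter (fun v => ¬ Allw U (S ∪ B) 0 v ∧ ball v (2 ^ (κ - 3)) ⊆ U), h v with hFI
  have f1 := mul_le_mul_of_nonneg_left hsumΨ hlam.le
  have f2 : 0 ≤ C5 * (1 + A0) * 2 * (8 * C6) := by positivity
  have f3 : 0 ≤ SG := hG0.trans hGh
  have f4 : 0 ≤ lam * (5184 * (SG - S1)) := by
    have : 0 ≤ SG - S1 := by linarith
    positivity
  have f5 : 0 ≤ lam * (C5 * (1 + A0) * 2 * (8 * C6)) * SG := by positivity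
  have f6 : 0 ≤ s * 5184 * SG := by positivity
  have f7 : (5184 + C5 * (1 + A0) * 2 * (8 * C6)) * (lam + s) * SG =
      lam * (5184 * SG) + lam * (C5 * (1 + A0) * 2 * (8 * C6)) * SG + s * 5184 * SG +
        C5 * (1 + A0) * s * 2 * (8 * C6 * SG) := by ring
  have f8 : C5 * (1 + A0) * s * 2 * (8 * C6 * SG + KZ) = C5 * (1 + A0) * s * 2 * (8 * C6 * SG) +
      C5 * (1 + A0) * 2 * KZ * s := by ring
  rw [f8] at hsecond
  rw [f7]
  have f9 : lam * (kap1 N κ U p e n - 5184 * S1) = lam * kap1 N κ U p e n - lam * (5184 * SG) +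
      lam * (5184 * (SG - S1)) := by ring
  rw [f9] at f1
  linarith

end Pool.H92.GFL
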