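import Pool.Agent.helper92.GFL.GB
import Pool.Agent.helper92.GFL.BG
import Pool.Agent.helper92.GFL.BL
import Pool.Agent.helper92.GFL.PZ
import Pool.Agent.helper92.GFL.L2
import Pool.Agent.helper92.GFL.L4

namespace Pool.H92.GFL

open Function Finset MeasureTheory ProbabilityTheory Pool.H92.GFF
open scoped Classical ENNReal

/-- transfer of the event that there is no nice circuit between fields with the same law -/
lemma bc_transfer {Ω Ω' : Type*} [MeasurableSpace Ω] [MeasurableSpace Ω'] {μ : Measure Ω}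
    {μ' : Measure Ω'} {m C : ℕ} {y : ℝ} {φ : V → Ω → ℝ} {φ' : V → Ω' → ℝ}
    (h1 : ∀ v : ball (0 : V) (3 * 2 ^ m), Measurable (φ v))
    (h2 : ∀ v : ball (0 : V) (3 * 2 ^ m), Measurable (φ' v))
    (hlaw : μ.map (fun ω (v : ball (0 : V) (3 * 2 ^ m)) => φ v ω) =
      μ'.map (fun ω (v : ball (0 : V) (3 * 2 ^ m)) => φ' v ω)) :
    μ {ω | ¬ Nice (fun v => φ v ω) y 0 m C} = μ' {ω | ¬ Nice (fun v => φ' v ω) y 0 m C} := by
  set W := ball (0 : V) (3 * 2 ^ m) with hW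
  set ext : (W → ℝ) → V → ℝ := fun x v => if hv : v ∈ W then x ⟨v, hv⟩ else 0 with hext
  have hextm : Measurable ext := by
    refine measurable_pi_iff.2 (fun v => ?_)
    rw [hext]
    by_cases hv : v ∈ W
    · simp only [dif_pos hv]; exact measurable_pi_apply _
    · simp only [dif_neg hv]; exact measurable_const
  have hS : MeasurableSet {x : W → ℝ | ¬ Nice (ext x) y 0 m C} :=
    (hextm (meas_Nice y 0 m C)).compl
  have key : ∀ ψ : V → ℝ, Nice ψ y 0 m C ↔ Nice (ext (fun v : W => ψ v)) y 0 m C := by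
    intro ψ
    have hag : ∀ v, v ∈ Ann 0 m → ψ v = ext (fun v : W => ψ v) v := by
      intro v hv
      have hvW : v ∈ W := hv.1
      rw [hext]
      simp only [dif_pos hvW]
    exact ⟨Nice.congr hag, Nice.congr (fun v hv => (hag v hv).symm)⟩
  have m1 : Measurable (fun ω (v : W) => φ v ω) := measurable_pi_iff.2 h1
  have m2 : Measurable (fun ω (v : W) => φ' v ω) := measurable_pi_iff.2 h2
  have e1 : μ {ω | ¬ Nice (fun v => φ v ω) y 0 m C} =
      (μ.map (fun ω (v : W) => φ v ω)) {x : W → ℝ | ¬ Nice (ext x) y 0 m C} := by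
    rw [Measure.map_apply m1 hS]
    congr 1
    ext ω
    simp only [Set.mem_ofPred_eq, Set.mem_preimage]
    rw [← key (fun v => φ v ω)]
  have e2 : μ' {ω | ¬ Nice (fun v => φ' v ω) y 0 m C} =
      (μ'.map (fun ω (v : W) => φ' v ω)) {x : W → ℝ | ¬ Nice (ext x) y 0 m C} := by
    rw [Measure.map_apply m2 hS]
    congr 1
    ext ω
    simp only [Set.mem_ofPred_eq, Set.mem_preimage]
    rw [← key (fun v => φ' v ω)]
  rw [e1, hlaw, ← e2]

/-- choice of the level -/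
lemma bc_level {Cg c lam0 V0 Co : ℝ} (hc : 0 < c) (hV : 0 < V0) :
    ∃ y1 : ℝ, 1 ≤ y1 ∧ lam0 ≤ y1 / 2 ∧ 4 * (Cg * Real.exp (-(c * (y1 / 2) ^ 2))) ≤ q0 / 4 ∧
      2 * Real.exp (-((y1 / 4) ^ 2 / (2 * V0))) ≤ q0 / 4 ∧
      Co * Real.exp (-(y1 / 4 / 544)) ≤ q0 / 4 := by
  have hq : 0 < q0 / 4 := by unfold q0; positivity
  have t0 : Filter.Tendsto (fun y : ℝ => y) Filter.atTop Filter.atTop := Filter.tendsto_id
  have t1 : Filter.Tendsto (fun y : ℝ => 4 * (Cg * Real.exp (-(c * (y / 2) ^ 2))))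
      Filter.atTop (nhds (4 * (Cg * 0))) := by
    refine Filter.Tendsto.const_mul _ (Filter.Tendsto.const_mul _ ?_)
    refine Real.tendsto_exp_atBot.comp (Filter.tendsto_neg_atTop_atBot.comp ?_)
    refine Filter.Tendsto.const_mul_atTop hc ?_
    refine (Filter.tendsto_pow_atTop two_ne_zero).comp ?_
    exact t0.atTop_div_const two_pos
  have t2 : Filter.Tendsto (fun y : ℝ => 2 * Real.exp (-((y / 4) ^ 2 / (2 * V0))))
      Filter.atTop (nhds (2 * 0)) := by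
    refine Filter.Tendsto.const_mul _ ?_
    refine Real.tendsto_exp_atBot.comp (Filter.tendsto_neg_atTop_atBot.comp ?_)
    refine Filter.Tendsto.atTop_div_const (by positivity) ?_
    refine (Filter.tendsto_pow_atTop two_ne_zero).comp ?_
    exact t0.atTop_div_const four_pos
  have t3 : Filter.Tendsto (fun y : ℝ => Co * Real.exp (-(y / 4 / 544)))
      Filter.atTop (nhds (Co * 0)) := by
    refine Filter.Tendsto.const_mul _ ?_
    refine Real.tendsto_exp_atBot.comp (Filter.tendsto_neg_atTop_atBot.comp ?_)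
    exact (t0.atTop_div_const four_pos).atTop_div_const (by norm_num)
  simp only [mul_zero] at t1 t2 t3
  have h1 := t1.eventually (eventually_le_nhds hq)
  have h2 := t2.eventually (eventually_le_nhds hq)
  have h3 := t3.eventually (eventually_le_nhds hq)
  obtain ⟨y, ⟨⟨⟨g1, g2⟩, g3⟩, g4⟩, g5⟩ := ((((Filter.eventually_ge_atTop (1 : ℝ)).and
    (Filter.eventually_ge_atTop (2 * lam0))).and h1).and h2).and h3 |>.exists
  exact ⟨y, g1, by linarith, g3, g4, g5⟩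

theorem thmBC : ∃ (y1 C2 K0 : ℝ), 1 ≤ y1 ∧ 1 ≤ C2 ∧ 1 ≤ K0 ∧ ∀ K : ℝ, K0 ≤ K →
    ∀ (C1 m : ℕ), 1 ≤ C1 → (∀ k ≤ m, PF k K C1 q1) → PF m y1 (⌈C2 * K ^ 6⌉₊ * C1) q0 := by
  obtain ⟨K0, Cg, c, lam0, hc, hCg, hK0, hlam0, hGB⟩ := GB 5
  obtain ⟨CL, hCL, hlay⟩ := dgff_layers
  obtain ⟨Co, hCo, hosc⟩ := osc_moment
  set V0 : ℝ := CL * 4 ^ 7 with hV0
  have hV0p : 0 < V0 := by positivity
  obtain ⟨y1, hy1, hyl, hb1, hb2, hb3⟩ := bc_level (Cg := Cg) (lam0 := lam0) (Co := Co) hc hV0p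
  have hq : 0 < q0 := by unfold q0; positivity
  refine ⟨y1, max 42 (16 * Cg / q0), K0, hy1, le_trans (by norm_num) (le_max_left _ _), hK0, ?_⟩
  set C2 : ℝ := max 42 (16 * Cg / q0) with hC2
  have hC42 : 42 ≤ C2 := le_max_left _ _
  have hC2g : 4 * (Cg / C2) ≤ q0 / 4 := by
    have h1 : 16 * Cg / q0 ≤ C2 := le_max_right _ _
    rw [div_le_iff₀ hq] at h1
    have hC2p : 0 < C2 := by linarith
    rw [← mul_div_assoc, div_le_iff₀ hC2p]
    linarith
  intro K hK C1 m hC1 hPF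
  have hK1 : 1 ≤ K := hK0.trans hK
  have hK6 : 1 ≤ K ^ 6 := one_le_pow₀ hK1
  set M : ℕ := ⌈C2 * K ^ 6⌉₊ with hM
  have hMr : C2 * K ^ 6 ≤ M := Nat.le_ceil _
  have hM42 : 42 ≤ M := by
    have : (42 : ℝ) ≤ M := by nlinarith
    exact_mod_cast this
  by_cases hm : m ≤ c0
  · exact pf_zero hm (by linarith) (by nlinarith) hq.le
  have hm5 : 5 ≤ m := by unfold c0 at hm; omega
  intro Ω mΩ μ hμ φ hφ
  obtain ⟨Ωη, mΩη, μη, hμη, η, hη, hηm⟩ := exists_dgff (2 ^ (m + 3))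
  obtain ⟨Ω', mΩ', μ', hμ', X, Y, Rc, hLR, hXm, hYm, hRc1, hRc2, hlaw⟩ :=
    hlay (2 ^ (m + 3)) (m - c0) (m + 3) 0 (3 * 2 ^ m) le_rfl (by
      intro x hx v hv
      rw [mem_ball] at hx hv
      rw [mem_inn]
      obtain ⟨k, rfl⟩ : ∃ k, m = k + 4 := ⟨m - 4, by omega⟩
      have e1 : k + 4 - c0 = k := by unfold c0; omega
      rw [e1] at hv
      have e2 : ((3 * 2 ^ (k + 4) : ℕ) : ℤ) = 48 * 2 ^ k := by push_cast; ring
      have e3 : ((4 * 2 ^ k : ℕ) : ℤ) = 4 * 2 ^ k := by push_cast; ring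
      have e4 : ((2 ^ (k + 4 + 3) : ℕ) : ℤ) = 128 * 2 ^ k := by push_cast; ring
      rw [e2] at hx
      rw [e3] at hv
      rw [e4]
      have h2k : (0 : ℤ) < 2 ^ k := by positivity
      simp at hx
      omega)
  set J := m - c0 with hJ
  set W := ball (0 : V) (3 * 2 ^ m) with hW
  have hYG : GF μ' (fun v : W => Y v) (fun x y => Rc x y) := GF.comp hLR Sum.inr
  have hXG : IsLay J W μ' X := GF.comp hLR Sum.inl
  have hXF : IsFld J W μ' (fun v ω => ∑ j ∈ Finset.range J, X j v ω) :=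
    lay_sum hXG le_rfl (subset_refl W)
  have hsumm : ∀ v, Measurable (fun ω => ∑ j ∈ Finset.range J, X j v ω) := fun v =>
    Finset.measurable_fun_sum _ fun j _ => hXm j v
  have t1 : μ {ω | ¬ Nice (fun v => φ v ω) y1 0 m (M * C1)} =
      μ' {ω | ¬ Nice (fun v => ∑ j ∈ Finset.range J, X j v ω) y1 0 m (M * C1)} :=
    bc_transfer (φ := φ) (φ' := fun v ω => ∑ j ∈ Finset.range J, X j v ω)
      (fun v => hφ.meas v) (fun v => hsumm v) (GF.law_eq hφ hXF)
  have t2 : μη {ω | ¬ Nice (fun v => η v ω) (y1 / 2) 0 m (M * C1)} =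
      μ' {ω | ¬ Nice (fun v => ∑ j ∈ Finset.range J, X j v ω + Y v ω) (y1 / 2) 0 m (M * C1)} :=
    bc_transfer (φ := η) (φ' := fun v ω => ∑ j ∈ Finset.range J, X j v ω + Y v ω)
      (fun v => hηm v) (fun v => (hsumm v).add (hYm v)) (hlaw μη η hη hηm)
  -- the four corridors
  have hcor : ∀ i : Fin 4, μη {ω | ¬ Reach (cU m i) (ball (cpt m i) (2 ^ (m - 2 - 2)))
      (ball (cpt m i + (20 * 2 ^ (m - 2) : ℕ) • cdir i) (2 ^ (m - 2 - 2)))
      (fun v => η v ω) (y1 / 2) (M * C1 * 2 ^ (m - 2))} ≤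
      ENNReal.ofReal (Cg * Real.exp (-(c * (y1 / 2) ^ 2)) + Cg / C2) := by
    intro i
    have hR1 : 1 ≤ M * C1 * 2 ^ (m - 2) := Nat.one_le_iff_ne_zero.2 (by
      have : 0 < 2 ^ (m - 2) := by positivity
      have h1 : 0 < M := by omega
      have h2 : 0 < C1 := by omega
      positivity)
    refine (hGB K hK C1 (m - 2) (2 ^ (m + 3)) (cU m i) (cpt m i) (cdir i) (20 * 2 ^ (m - 2)) hC1
      (by omega) (fun k hk => ?_) (cor_geo (by omega) i) μη η hη hηm (y1 / 2)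
      (M * C1 * 2 ^ (m - 2)) hyl hR1).trans ?_
    · obtain ⟨c', hc'⟩ := hk
      exact hPF k (cor_small hc')
    · apply ENNReal.ofReal_le_ofReal
      have hp : (0 : ℝ) < C1 * 2 ^ (m - 2) := by
        have : (0 : ℝ) < C1 := by exact_mod_cast hC1
        positivity
      have hMp : (0 : ℝ) < M := by
        have : 0 < M := by omega
        exact_mod_cast this
      have e1 : Cg * C1 * K ^ 6 * 2 ^ (m - 2) / ((M * C1 * 2 ^ (m - 2) : ℕ) : ℝ) =
          Cg * K ^ 6 / M := by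
        push_cast
        rw [show Cg * (C1 : ℝ) * K ^ 6 * 2 ^ (m - 2) = Cg * K ^ 6 * (C1 * 2 ^ (m - 2)) by ring,
          mul_assoc (M : ℝ), mul_div_mul_right _ _ hp.ne']
      rw [e1]
      have e2 : Cg * K ^ 6 / M ≤ Cg / C2 := by
        rw [div_le_div_iff₀ hMp (by linarith)]
        nlinarith
      linarith
  have hη4 : μη {ω | ¬ Nice (fun v => η v ω) (y1 / 2) 0 m (M * C1)} ≤
      ENNReal.ofReal (q0 / 2) := by
    have hsub : {ω | ¬ Nice (fun v => η v ω) (y1 / 2) 0 m (M * C1)} ⊆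
        ⋃ i : Fin 4, {ω | ¬ Reach (cU m i) (ball (cpt m i) (2 ^ (m - 2 - 2)))
        (ball (cpt m i + (20 * 2 ^ (m - 2) : ℕ) • cdir i) (2 ^ (m - 2 - 2)))
        (fun v => η v ω) (y1 / 2) (M * C1 * 2 ^ (m - 2))} := by
      intro ω hω
      by_contra hcon
      apply hω
      apply nice_of_reach (by omega)
      intro i
      by_contra hi
      exact hcon (Set.mem_iUnion.2 ⟨i, hi⟩)
    refine (measure_mono hsub).trans ((measure_iUnion_le _).trans ?_)
    rw [tsum_fintype]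
    refine (Finset.sum_le_sum (fun i _ => hcor i)).trans ?_
    rw [Finset.sum_const, Finset.card_univ, Fintype.card_fin, nsmul_eq_mul]
    rw [show ((4 : ℕ) : ℝ≥0∞) = ENNReal.ofReal 4 by simp, ← ENNReal.ofReal_mul (by norm_num)]
    apply ENNReal.ofReal_le_ofReal
    linarith
  -- the remainder
  have h0W : (0 : V) ∈ W := by rw [hW, mem_ball]; simp
  have hgY : HasGaussianLaw (Y 0) μ' := hYG.gauss.hasGaussianLaw_eval (⟨0, h0W⟩ : W)
  have hmY : ∫ ω, Y 0 ω ∂μ' = 0 := hYG.mean (⟨0, h0W⟩ : W)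
  have hvY : Var[Y 0; μ'] ≤ V0 := by
    rw [← covariance_self (hYm 0).aemeasurable]
    have h1 : cov[Y 0, Y 0; μ'] = Rc 0 0 := hYG.cov (⟨0, h0W⟩ : W) (⟨0, h0W⟩ : W)
    rw [h1]
    refine (hRc1 0).trans (le_of_eq ?_)
    rw [hV0]
    obtain ⟨k, rfl⟩ : ∃ k, m = k + 4 := ⟨m - 4, by omega⟩
    have e1 : J = k := by rw [hJ]; unfold c0; omega
    rw [e1, div_eq_iff (by positivity)]
    ring
  have hy40 : ¬ y1 / 4 < 0 := by linarith
  have hY0 : μ' {ω | y1 / 4 ≤ Y 0 ω} ≤ ENNReal.ofReal (Real.exp (-((y1 / 4) ^ 2 / (2 * V0)))) :=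
    (chernoff hgY (hYm 0) hmY hV0p hvY).resolve_right hy40
  have hY0' : μ' {ω | y1 / 4 ≤ -Y 0 ω} ≤
      ENNReal.ofReal (Real.exp (-((y1 / 4) ^ 2 / (2 * V0)))) := by
    refine (chernoff (Y := fun ω => -Y 0 ω) hgY.fun_neg (hYm 0).neg ?_ hV0p ?_).resolve_right hy40
    · rw [integral_neg, hmY, neg_zero]
    · rw [variance_fun_neg]
      exact hvY
  have hYo : μ' {ω | y1 / 4 ≤ osc (fun v => Y v ω) 0 (3 * 2 ^ m)} ≤
      ENNReal.ofReal (Co * Real.exp (-(y1 / 4 / 544))) := by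
    have h1 := hosc μ' 0 (3 * 2 ^ m) 544 Y Rc (by
      have : 0 < 2 ^ m := by positivity
      omega) (by norm_num) hYG (by
      intro x hx w hw _
      refine (hRc2 x hx w hw).trans ?_
      obtain ⟨k, rfl⟩ : ∃ k, m = k + 4 := ⟨m - 4, by omega⟩
      have e1 : J = k := by rw [hJ]; unfold c0; omega
      rw [e1]
      push_cast
      rw [div_pow, div_le_div_iff₀ (by positivity) (by positivity)]
      have e2 : (3 * (2 : ℝ) ^ (k + 4)) ^ 2 = 2304 * 4 ^ k := by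
        rw [show (4 : ℝ) ^ k = (2 ^ k) ^ 2 by rw [← pow_mul, mul_comm, pow_mul]; norm_num]
        ring
      rw [e2]
      have : (0 : ℝ) < 4 ^ k := by positivity
      nlinarith)
    have hmo : Measurable (fun ω => osc (fun v => Y v ω) 0 (3 * 2 ^ m)) :=
      (meas_osc 0 (3 * 2 ^ m)).comp (measurable_pi_iff.2 hYm)
    have hme : Measurable (fun ω =>
        ENNReal.ofReal (Real.exp (osc (fun v => Y v ω) 0 (3 * 2 ^ m) / 544))) :=
      ENNReal.measurable_ofReal.comp (Real.measurable_exp.comp (hmo.div_const _))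
    have h2 := mul_meas_ge_le_lintegral hme (μ := μ') (ENNReal.ofReal (Real.exp (y1 / 4 / 544)))
    have h3 : {ω | y1 / 4 ≤ osc (fun v => Y v ω) 0 (3 * 2 ^ m)} ⊆
        {ω | ENNReal.ofReal (Real.exp (y1 / 4 / 544)) ≤
          ENNReal.ofReal (Real.exp (osc (fun v => Y v ω) 0 (3 * 2 ^ m) / 544))} := by
      intro ω hω
      apply ENNReal.ofReal_le_ofReal
      apply Real.exp_le_exp.2
      have : y1 / 4 ≤ osc (fun v => Y v ω) 0 (3 * 2 ^ m) := hω
      linarith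
    have h4 : ENNReal.ofReal (Real.exp (y1 / 4 / 544)) *
        μ' {ω | y1 / 4 ≤ osc (fun v => Y v ω) 0 (3 * 2 ^ m)} ≤ ENNReal.ofReal Co :=
      (mul_le_mul_right (measure_mono h3) _).trans (h2.trans h1)
    have h5 : μ' {ω | y1 / 4 ≤ osc (fun v => Y v ω) 0 (3 * 2 ^ m)} =
        ENNReal.ofReal (Real.exp (-(y1 / 4 / 544))) * (ENNReal.ofReal (Real.exp (y1 / 4 / 544)) *
        μ' {ω | y1 / 4 ≤ osc (fun v => Y v ω) 0 (3 * 2 ^ m)}) := by
      rw [← mul_assoc, ← ENNReal.ofReal_mul (Real.exp_pos _).le, ← Real.exp_add, neg_add_cancel,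
        Real.exp_zero, ENNReal.ofReal_one, one_mul]
    rw [h5, mul_comm Co, ENNReal.ofReal_mul (Real.exp_pos _).le]
    exact mul_le_mul_right h4 _
  have hsub : {ω | ¬ Nice (fun v => ∑ j ∈ Finset.range J, X j v ω) y1 0 m (M * C1)} ⊆
      {ω | ¬ Nice (fun v => ∑ j ∈ Finset.range J, X j v ω + Y v ω) (y1 / 2) 0 m (M * C1)} ∪
        ({ω | y1 / 4 ≤ Y 0 ω} ∪ ({ω | y1 / 4 ≤ -Y 0 ω} ∪
          {ω | y1 / 4 ≤ osc (fun v => Y v ω) 0 (3 * 2 ^ m)})) := by
    intro ω hω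
    by_contra hcon
    simp only [Set.mem_union, Set.mem_ofPred_eq, not_or, not_not, not_le] at hcon
    obtain ⟨g1, g2, g3, g4⟩ := hcon
    apply hω
    refine g1.mono (fun v hv hle => ?_) le_rfl
    have hvW : v ∈ W := hv.1
    have h5 : |Y v ω - Y 0 ω| ≤ osc (fun v => Y v ω) 0 (3 * 2 ^ m) :=
      Finset.le_sup' (fun x => |Y x ω - Y 0 ω|) hvW
    have h6 := abs_le.1 h5
    linarith [h6.1, h6.2]
  show μ {ω | ¬ Nice (fun v => φ v ω) y1 0 m (M * C1)} ≤ ENNReal.ofReal q0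
  rw [t1]
  refine (measure_mono hsub).trans ?_
  refine (measure_union_le _ _).trans ((add_le_add le_rfl ((measure_union_le _ _).trans
    (add_le_add le_rfl (measure_union_le _ _)))).trans ?_)
  rw [← t2]
  refine (add_le_add hη4 (add_le_add hY0 (add_le_add hY0' hYo))).trans ?_
  have p1 := (Real.exp_pos (-((y1 / 4) ^ 2 / (2 * V0)))).le
  have p2 : 0 ≤ Co * Real.exp (-(y1 / 4 / 544)) := by positivity
  rw [← ENNReal.ofReal_add p1 p2, ← ENNReal.ofReal_add p1 (by positivity),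
    ← ENNReal.ofReal_add (by positivity) (by positivity)]
  apply ENNReal.ofReal_le_ofReal
  linarith

end Pool.H92.GFL
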