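import Pool.Agent.helper92.GFL.Defs2

namespace Pool.H92.GFL

open Function Finset MeasureTheory ProbabilityTheory Pool.H92.GFF
open scoped Classical ENNReal

theorem three_union {Ω : Type*} [MeasurableSpace Ω] (μ : Measure Ω) [IsProbabilityMeasure μ]
    (n : ℕ) (A : Fin n → Fin 3 → Set Ω)
    (h : ∀ (c : Fin 3) (T : Finset (Fin n)),
      μ (⋂ i ∈ T, A i c) ≤ ENNReal.ofReal ((1 / 216) ^ T.card)) :
    μ (⋂ i, ⋃ c, A i c) ≤ ENNReal.ofReal ((1 / 2) ^ n) := by
  have h1 : (⋂ i, ⋃ c, A i c) ⊆ ⋃ f : Fin n → Fin 3, ⋂ i, A i (f i) := by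
    intro ω hω
    simp only [Set.mem_iInter, Set.mem_iUnion] at hω ⊢
    choose f hf using hω
    exact ⟨f, hf⟩
  have h2 : ∀ f : Fin n → Fin 3, μ (⋂ i, A i (f i)) ≤ ENNReal.ofReal ((1 / 6) ^ n) := by
    intro f
    obtain ⟨c, hc⟩ : ∃ c : Fin 3, n ≤ 3 * (Finset.univ.filter (fun i => f i = c)).card := by
      by_contra hcon
      push Not at hcon
      have h3 : ∑ c : Fin 3, (Finset.univ.filter (fun i => f i = c)).card = n := by
        rw [← Finset.card_eq_sum_card_fiberwise (s := Finset.univ) (t := Finset.univ) (f := f)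
          (fun _ _ => by simp)]
        simp
      have h4 := hcon 0
      have h5 := hcon 1
      have h6 := hcon 2
      rw [Fin.sum_univ_three] at h3
      omega
    refine (measure_mono (?_ : _ ⊆ ⋂ i ∈ Finset.univ.filter (fun i => f i = c), A i c)).trans
      ((h c _).trans (ENNReal.ofReal_le_ofReal ?_))
    · intro ω hω
      simp only [Set.mem_iInter] at hω ⊢
      intro i hi
      have := hω i
      rw [(Finset.mem_filter.mp hi).2] at this
      exact this
    · have h7 : ((1 : ℝ) / 216) = (1 / 6) ^ 3 := by norm_num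
      rw [h7, ← pow_mul]
      exact pow_le_pow_of_le_one (by norm_num) (by norm_num) hc
  refine (measure_mono h1).trans ((measure_iUnion_le _).trans ?_)
  rw [tsum_fintype]
  refine (Finset.sum_le_sum fun f _ => h2 f).trans ?_
  rw [Finset.sum_const, Finset.card_univ, Fintype.card_fun, Fintype.card_fin, Fintype.card_fin,
    nsmul_eq_mul]
  have h8 : ((3 ^ n : ℕ) : ℝ≥0∞) = ENNReal.ofReal (3 ^ n) := by
    rw [ENNReal.ofReal_pow (by norm_num)]
    push_cast
    norm_num
  rw [h8, ← ENNReal.ofReal_mul (by positivity), ← mul_pow]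
  refine ENNReal.ofReal_le_ofReal (le_of_eq ?_)
  norm_num

end Pool.H92.GFL
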