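import Pool.Agent.helper92.GFF.Final

/-!
Definitions for the linear bound on the chemical distance in level sets of the planar DGFF.
-/

namespace Pool.H92.GFL

open Function Finset MeasureTheory ProbabilityTheory Pool.H92.GFF
open scoped Classical ENNReal

/-! ### Geometry -/

/-- sup-norm ball -/
noncomputable def ball (z : V) (r : ℕ) : Finset V :=
  Finset.Icc (z.1 - r) (z.1 + r) ×ˢ Finset.Icc (z.2 - r) (z.2 + r)

lemma mem_ball {z v : V} {r : ℕ} : v ∈ ball z r ↔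
    (z.1 - r ≤ v.1 ∧ v.1 ≤ z.1 + r) ∧ (z.2 - r ≤ v.2 ∧ v.2 ≤ z.2 + r) := by
  simp [ball]

/-- `x` and `y` are joined in `O` by a (lazy) nearest neighbour path of length `n` -/
def Conn (O : Set V) (n : ℕ) (x y : V) : Prop :=
  ∃ p : ℕ → V, p 0 = x ∧ p n = y ∧ (∀ i ≤ n, p i ∈ O) ∧
    ∀ i < n, p (i + 1) = p i ∨ p (i + 1) ∈ nb (p i)

/-- there is a path in `E` from `a` to a vertex outside `ball a r` -/
def Reaches (E : Finset V) (a : V) (r : ℕ) : Prop :=
  ∃ (n : ℕ) (b : V), Conn (E : Set V) n a b ∧ b ∉ ball a r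

/-- the annulus of scale `k` around `z` -/
def Ann (z : V) (k : ℕ) : Set V := {v | v ∈ ball z (3 * 2 ^ k) ∧ v ∉ ball z (2 ^ k)}

/-- the annulus of scale `k` around `z` contains a circuit `Γ` of vertices with `ψ ≤ y` around
`ball z (2^k)`, any two points of which are joined in the annulus by a path of vertices with
`ψ ≤ y` of length at most `C 2^k`. `F` is the region enclosed by (and including) `Γ`. -/
def Nice (ψ : V → ℝ) (y : ℝ) (z : V) (k C : ℕ) : Prop :=
  ∃ Γ F : Finset V, ball z (2 ^ k) ⊆ F ∧ F ⊆ ball z (3 * 2 ^ k) ∧ Γ ⊆ F ∧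
    Disjoint Γ (ball z (2 ^ k)) ∧ (∀ x ∈ F, ∀ w ∈ nb x, w ∉ F → x ∈ Γ) ∧ (∀ x ∈ Γ, ψ x ≤ y) ∧
    ∀ x ∈ Γ, ∀ x' ∈ Γ, Conn {v | v ∈ Ann z k ∧ ψ v ≤ y} (C * 2 ^ k) x x'

/-- the annulus of scale `k` around `z` contains a circuit of vertices with `ψ > y`. -/
def Blk (ψ : V → ℝ) (y : ℝ) (z : V) (k : ℕ) : Prop :=
  ∃ Γ F : Finset V, ball z (2 ^ k) ⊆ F ∧ F ⊆ ball z (3 * 2 ^ k) ∧ Γ ⊆ F ∧
    Disjoint Γ (ball z (2 ^ k)) ∧ (∀ x ∈ F, ∀ w ∈ nb x, w ∉ F → x ∈ Γ) ∧ (∀ x ∈ Γ, y < ψ x)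

/-- oscillation around the centre -/
noncomputable def osc (ψ : V → ℝ) (z : V) (r : ℕ) : ℝ :=
  (ball z r).sup' ⟨z, by rw [mem_ball]; omega⟩ (fun x => |ψ x - ψ z|)

/-- least `r` such that `ball y r` is not contained in `W` (`0` if `y ∉ W`) -/
noncomputable def rad (W : Finset V) (y : V) : ℕ := sInf {r : ℕ | ¬ ball y r ⊆ W}

/-! ### Kernels -/

/-- `T_{2^j}` -/
noncomputable def Tp : ℕ → Polynomial ℝ
  | 0 => Polynomial.X
  | (j + 1) => 2 * (Tp j) ^ 2 - 1

/-- `E_j = Π_{i<j} (1 + T_{2^i})/2 = (1 - T_{2^j})/(4^j (1 - X))` -/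
noncomputable def Ep : ℕ → Polynomial ℝ
  | 0 => 1
  | (j + 1) => Polynomial.C (1 / 2) * (Ep j * (1 + Tp j))

/-- `4 (1 - X) cpol j = E_j ^ 2 - E_{j+1} ^ 2` -/
noncomputable def cpol (j : ℕ) : Polynomial ℝ :=
  Polynomial.C ((4 : ℝ) ^ j / 8) * ((Ep j) ^ 2 * (Ep j + Ep (j + 1)))

/-- the step distribution of simple random walk, in the group algebra -/
noncomputable def PP : AddMonoidAlgebra ℝ V :=
  (1 / 4 : ℝ) • (AddMonoidAlgebra.single ((1, 0) : V) 1 + AddMonoidAlgebra.single ((-1, 0) : V) 1 +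
    AddMonoidAlgebra.single ((0, 1) : V) 1 + AddMonoidAlgebra.single ((0, -1) : V) 1)

/-- full plane kernel of `p(P)` -/
noncomputable def kz (p : Polynomial ℝ) (x : V) : ℝ := (Polynomial.aeval PP p).coeff x

/-- layer covariance -/
noncomputable def kap (j : ℕ) (x : V) : ℝ := kz (cpol j) x

/-- averaging kernel of scale `2^j` -/
noncomputable def ek (j : ℕ) (x : V) : ℝ := kz (Ep j ^ 2) x

/-- killed transition matrix -/
noncomputable def PM (I : Finset V) : Matrix I I ℝ :=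
  fun x y => if (y : V) ∈ nb (x : V) then 1 / 4 else 0

/-- kernel of `p(P_I)`, extended by zero -/
noncomputable def kI (I : Finset V) (p : Polynomial ℝ) (x y : V) : ℝ :=
  if h : x ∈ I ∧ y ∈ I then (Polynomial.aeval (PM I) p) ⟨x, h.1⟩ ⟨y, h.2⟩ else 0

/-! ### Potential theory -/

/-- Green function of `W` with pole `y`: `lap (gr W y) = 1_y` on `W`, `0` outside `W` -/
noncomputable def gr (W : Finset V) (y : V) : V → ℝ :=
  Classical.choose (exists_dirichlet W (fun _ => 0) (fun v => if v = y then 1 else 0))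

lemma gr_spec (W : Finset V) (y : V) : (∀ v ∉ W, gr W y v = 0) ∧
    ∀ v ∈ W, lap (gr W y) v = if v = y then 1 else 0 :=
  Classical.choose_spec (exists_dirichlet W (fun _ => 0) (fun v => if v = y then 1 else 0))

/-- harmonic extension: `b` on `E`, `0` outside `I ∪ E`, harmonic on `I \ E` -/
noncomputable def hx (I E : Finset V) (b : V → ℝ) : V → ℝ :=
  Classical.choose (exists_dirichlet (I \ E) (fun v => if v ∈ E then b v else 0) (fun _ => 0))

lemma hx_spec (I E : Finset V) (b : V → ℝ) :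
    (∀ v ∉ I \ E, hx I E b v = if v ∈ E then b v else 0) ∧
      ∀ v ∈ I \ E, lap (hx I E b) v = 0 :=
  Classical.choose_spec
    (exists_dirichlet (I \ E) (fun v => if v ∈ E then b v else 0) (fun _ => 0))

/-- conditional expectation of `X_F` given the field on `E` -/
noncomputable def Mx (I E : Finset V) (F x : V → ℝ) : ℝ := ∑ v ∈ E, lap (hx I E F) v * x v

/-! ### Gaussian families -/

/-- centred Gaussian family with covariance `c` -/
structure GF {Ω : Type*} [MeasurableSpace Ω] (μ : Measure Ω) {ι : Type*} (Z : ι → Ω → ℝ)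
    (c : ι → ι → ℝ) : Prop where
  gauss : IsGaussianProcess Z μ
  meas : ∀ i, Measurable (Z i)
  mean : ∀ i, ∫ ω, Z i ω ∂μ = 0
  cov : ∀ i j, cov[Z i, Z j; μ] = c i j

/-- field on `W` with `n` layers -/
def IsFld (n : ℕ) (W : Finset V) {Ω : Type*} [MeasurableSpace Ω] (μ : Measure Ω)
    (φ : V → Ω → ℝ) : Prop :=
  GF μ (fun v : W => φ v) (fun x y => ∑ j ∈ Finset.range n, kap j ((x : V) - (y : V)))

/-- independent layers `0, ..., J-1` on `W` -/
def IsLay (J : ℕ) (W : Finset V) {Ω : Type*} [MeasurableSpace Ω] (μ : Measure Ω)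
    (X : ℕ → V → Ω → ℝ) : Prop :=
  GF μ (fun p : Fin J × W => X p.1 p.2)
    (fun p q => if p.1 = q.1 then kap p.1 ((p.2 : V) - (q.2 : V)) else 0)

/-- scale offset -/
def c0 : ℕ := 4

/-- nice circuits of level `y` and length constant `C` in the annulus of scale `m` exist with
probability at least `1 - q` -/
def PF (m : ℕ) (y : ℝ) (C : ℕ) (q : ℝ) : Prop :=
  ∀ (Ω : Type) [MeasurableSpace Ω] (μ : Measure Ω) [IsProbabilityMeasure μ] (φ : V → Ω → ℝ),
    IsFld (m - c0) (ball 0 (3 * 2 ^ m)) μ φ →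
      μ {ω | ¬ Nice (fun v => φ v ω) y 0 m C} ≤ ENNReal.ofReal q

end Pool.H92.GFL
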