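import Pool.Agent.helper92.GFL.G0

/-!
Definitions, second part: cells, accounting, path construction.
-/

namespace Pool.H92.GFL

open Function Finset MeasureTheory ProbabilityTheory Pool.H92.GFF
open scoped Classical ENNReal

/-! ### Cells and geometry of a corridor -/

/-- centre of the dyadic cell of side `2^k` containing `v` -/
def cen (k : ℕ) (v : V) : V :=
  (2 ^ k * (v.1 / 2 ^ k) + 2 ^ k / 2, 2 ^ k * (v.2 / 2 ^ k) + 2 ^ k / 2)

/-- a corridor `U` in the box `N`, of half width at least `2^κ`, around the segment from `p` to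
`p + n e` -/
structure Geo (n0 κ N : ℕ) (U : Finset V) (p e : V) (n : ℕ) : Prop where
  hN : N ≤ 2 ^ (κ + n0)
  hU : ∃ a b : V, U = Finset.Icc a.1 b.1 ×ˢ Finset.Icc a.2 b.2
  hUI : U ⊆ inn N
  he : e = (1, 0) ∨ e = (0, 1)
  hn : 2 ^ κ ≤ n
  hseg : ∀ i ≤ n, ball (p + i • e) (2 ^ κ) ⊆ U

/-- points of `U` at distance more than `2^(κ-2)` from the complement -/
noncomputable def core (U : Finset V) (κ : ℕ) : Finset V :=
  U.filter (fun v => ball v (2 ^ (κ - 2)) ⊆ U)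

/-- the cell of scale `k` and centre `c` is allowed -/
def Allw (U T : Finset V) (k : ℕ) (c : V) : Prop :=
  ball c (2 ^ (k + 9)) ⊆ U ∧ Disjoint (ball c (2 ^ (k + 9))) T

/-- at all allowed scales above `k` there is neither a nice circuit nor a blocking circuit -/
def Bad (U T : Finset V) (x : V → ℝ) (lam : ℝ) (C1 k : ℕ) (c : V) : Prop :=
  ∀ k' > k, Allw U T k' (cen k' c) →
    ¬ Nice x lam (cen k' c) k' C1 ∧ ¬ Blk x lam (cen k' c) k'

/-- number of bad cells of scale `k` -/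
noncomputable def NB (U T : Finset V) (x : V → ℝ) (lam : ℝ) (C1 k : ℕ) : ℕ :=
  ((U.image (cen k)).filter (fun c => Allw U T k c ∧ Bad U T x lam C1 k c)).card

/-- logarithmic bound for the harmonic extensions of the explored field -/
def LogB (N L : ℕ) (U S : Finset V) (x : V → ℝ) (lam : ℝ) (R : ℕ) (s : ℝ) : Prop :=
  ∀ t ≤ R, ∀ y ∈ inn N, |hx (inn N) (Bs U S (fun v => x v ≤ lam) t) x y| ≤
    s * ((L : ℝ) + 2 - Nat.log 2 (rad (inn N \ Bs U S (fun v => x v ≤ lam) t) y))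

/-- `φ - f_E` -/
noncomputable def gE (I B E : Finset V) (v : V) : ℝ := eqp I B v - hx I E (eqp I B) v

/-! ### Path construction -/

/-- lattice point with `x + y = u` and `x - y ≈ g` -/
noncomputable def pt (u : ℤ) (g : ℝ) : V := (u + ⌊(g - u) / 2⌋, -⌊(g - u) / 2⌋)

/-- block index of level `b` -/
def lb (b0 b : ℕ) : ℕ := Nat.log 16 (b + b0)

/-- `2^(-eb)` is the slope parameter of level `b` -/
def eb (b0 b : ℕ) : ℕ := 3 * lb b0 b

/-- cell size exponent -/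
def kb (k0 b : ℕ) : ℕ := k0 - 8 * b

/-- decision layer -/
def ib (k0 b0 b : ℕ) : ℕ := k0 - 8 * b - eb b0 b - 6

/-- number of levels -/
noncomputable def nlev (k0 b0 : ℕ) : ℕ :=
  ((Finset.range (k0 + 1)).filter (fun b => 8 * b + eb b0 b + 6 ≤ k0)).card

/-- trapezoid of level `b`: height `2^(kb - eb)`, ramps on the first and last eighth of the cell -/
noncomputable def hb (k0 b0 b : ℕ) (u : ℕ) : ℝ :=
  8 / 2 ^ eb b0 b * (min (min (u % 2 ^ kb k0 b) (2 ^ kb k0 b / 8)) (2 ^ kb k0 b - u % 2 ^ kb k0 b) : ℕ)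

/-- the curve with signs `s`, using the levels `< n` -/
noncomputable def gg (k0 b0 n : ℕ) (s : ℕ → Bool) (u : ℕ) : ℝ :=
  ∑ b ∈ Finset.range n, if s b then hb k0 b0 b u else 0

/-- octant of `u` in its cell of level `b` -/
def oc (k0 b u : ℕ) : ℕ := (u / 2 ^ (kb k0 b - 3)) % 8

/-- sign of the slope of `hb` -/
def cc (k0 b u : ℕ) : ℤ := if oc k0 b u = 0 then 1 else if oc k0 b u = 7 then -1 else 0

/-- slope violation at level `b` -/
def viol (k0 b0 : ℕ) (s : ℕ → Bool) (u b : ℕ) : Prop :=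
  (5 : ℤ) ^ lb b0 b < |∑ b' ∈ (Finset.range (b + 1)).filter (fun b' => lb b0 b' = lb b0 b),
    if s b' then cc k0 b' u else 0|

/-- the strip of candidate `c` (`0` or `1`) in cell number `a` of level `b` with prefix `s` -/
noncomputable def strip (k0 b0 b a : ℕ) (s : ℕ → Bool) (c : ℕ) : Finset V :=
  (ball 0 (2 ^ (k0 + 2))).filter (fun v => ∃ u : ℕ,
    a * 2 ^ kb k0 b + 3 * 2 ^ kb k0 b / 16 ≤ u ∧ u < a * 2 ^ kb k0 b + 13 * 2 ^ kb k0 b / 16 ∧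
    v.1 + v.2 = u ∧
    |((v.1 - v.2 : ℤ) : ℝ) - (gg k0 b0 b s u + c * 2 ^ (kb k0 b - eb b0 b))| ≤
      16 * 2 ^ ib k0 b0 b)

/-- the decision of level `b` in cell `a` with prefix `s`: shift iff the sum over the shifted
strip is smaller -/
noncomputable def dec (X : ℕ → V → ℝ) (k0 b0 b a : ℕ) (s : ℕ → Bool) : Bool :=
  decide (∑ v ∈ strip k0 b0 b a s 1, X (ib k0 b0 b) v < ∑ v ∈ strip k0 b0 b a s 0, X (ib k0 b0 b) v)

/-- signs seen from `u` after `n` decisions; no shift after a slope violation -/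
noncomputable def sg (X : ℕ → V → ℝ) (k0 b0 u : ℕ) : ℕ → ℕ → Bool
  | 0 => fun _ => false
  | (b + 1) => Function.update (sg X k0 b0 u b) b
      (decide ((∀ b' < b, ¬ viol k0 b0 (sg X k0 b0 u b) u b') ∧
        dec X k0 b0 b (u / 2 ^ kb k0 b) (sg X k0 b0 u b) = true))

/-- scale of level `b` (last level: `0`) -/
noncomputable def jb (k0 b0 b : ℕ) : ℕ := if b < nlev k0 b0 then ib k0 b0 b else 0

/-- number of decisions used at level `b` -/
noncomputable def nd (k0 b0 b : ℕ) : ℕ := min (b + 1) (nlev k0 b0)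

/-- position with given signs -/
noncomputable def zz (k0 b0 n : ℕ) (s : ℕ → Bool) (u : ℕ) : V := pt u (gg k0 b0 n s u)

/-- round `u` down to a multiple of `2^j` -/
def rdn (j u : ℕ) : ℕ := 2 ^ j * (u / 2 ^ j)

/-- position of level `b` seen from `u` -/
noncomputable def loc (X : ℕ → V → ℝ) (k0 b0 b u : ℕ) : V :=
  zz k0 b0 (nd k0 b0 b) (sg X k0 b0 (rdn (jb k0 b0 b) u) (nd k0 b0 b)) (rdn (jb k0 b0 b) u)

/-- slack function -/
noncomputable def hh (b0 b : ℕ) : ℝ := ((b : ℝ) + b0) ^ (1 / 8 : ℝ)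

/-- no holes: every vertex outside `F` is connected to infinity outside `F` -/
def Full (F : Finset V) : Prop :=
  ∀ x ∉ F, ∀ r : ℕ, ∃ (n : ℕ) (b : V), Conn ((F : Set V)ᶜ) n x b ∧ b ∉ ball 0 r

/-- a piece of path of `u`-length `2^k0` starting at `0` whose closed vertices are enclosed by
circuits of total length `T` -/
def Seg (ψ : V → ℝ) (y : ℝ) (k0 : ℕ) (T : ℝ) : Prop :=
  ∃ (p : ℕ → V) (n : ℕ) (Γ F : ℕ → Finset V) (d : ℕ → ℕ),
    p 0 = 0 ∧ p (2 ^ k0) = (2 ^ k0 / 2, 2 ^ k0 / 2) ∧ (∀ i < 2 ^ k0, p (i + 1) ∈ nb (p i)) ∧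
    (∀ i ≤ 2 ^ k0, (p i).1 + (p i).2 = i ∧ -1 ≤ (p i).1 - (p i).2 ∧
      (p i).1 - (p i).2 ≤ 2 ^ k0) ∧
    (∀ l < n, Full (F l) ∧ Γ l ⊆ F l ∧ (∀ x ∈ F l, ∀ w ∈ nb x, w ∉ F l → x ∈ Γ l) ∧
      (∀ x ∈ F l, ∃ i ≤ 2 ^ k0, x ∈ ball (p i) (2 ^ k0)) ∧ (∀ x ∈ Γ l, ψ x ≤ y) ∧
      ∀ x ∈ Γ l, ∀ x' ∈ Γ l,
        Conn {v | ψ v ≤ y ∧ ∃ i ≤ 2 ^ k0, v ∈ ball (p i) (2 ^ k0)} (d l) x x') ∧
    (∀ i < 2 ^ k0, ψ (p i) ≤ y ∨ ∃ l < n, p i ∈ F l) ∧
    ∑ l ∈ Finset.range n, (2 * (d l : ℝ) + 2) ≤ T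

/-- level `b` is good seen from `u`: coarse field -/
def Gd1 (X : ℕ → V → ℝ) (k0 b0 : ℕ) (K : ℝ) (b u : ℕ) : Prop :=
  ∑ j ∈ Finset.Ico (jb k0 b0 b) k0, X j (loc X k0 b0 b u) ≤ K / 2 - hh b0 b

/-- level `b` is good seen from `u`: oscillations -/
def Gd2 (X : ℕ → V → ℝ) (k0 b0 : ℕ) (K : ℝ) (b u : ℕ) : Prop :=
  ∑ j ∈ Finset.Ico (jb k0 b0 b) k0, osc (X j) (loc X k0 b0 b u) (64 * 2 ^ jb k0 b0 b)
    ≤ K / 4 + hh b0 b

/-- level `b` is good seen from `u`: slopes -/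
def Gd3 (X : ℕ → V → ℝ) (k0 b0 : ℕ) (b u : ℕ) : Prop :=
  b < nlev k0 b0 → ¬ viol k0 b0 (sg X k0 b0 u (b + 1)) u b

def Gd (X : ℕ → V → ℝ) (k0 b0 : ℕ) (K : ℝ) (b u : ℕ) : Prop :=
  Gd1 X k0 b0 K b u ∧ Gd2 X k0 b0 K b u ∧ Gd3 X k0 b0 b u

/-- first bad level -/
def FB (X : ℕ → V → ℝ) (k0 b0 : ℕ) (K : ℝ) (b u : ℕ) : Prop :=
  (∀ b' < b, Gd X k0 b0 K b' u) ∧ ¬ Gd X k0 b0 K b u

/-- circuit of the scale of level `b'` around the position of level `b` -/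
def Op (X : ℕ → V → ℝ) (k0 b0 : ℕ) (y0 : ℝ) (Cs b b' u : ℕ) : Prop :=
  Nice (fun v => ∑ j ∈ Finset.range (jb k0 b0 b'), X j v) y0 (loc X k0 b0 b u)
    (jb k0 b0 b' + c0) Cs

/-- total cost of the circuits -/
noncomputable def cost (X : ℕ → V → ℝ) (k0 b0 : ℕ) (K y0 : ℝ) (Cs : ℕ) : ℝ :=
  ∑ b ∈ Finset.range (nlev k0 b0 + 1),
    ∑ u ∈ (Finset.range (2 ^ k0)).filter (fun u => 2 ^ jb k0 b0 b ∣ u),
      ∑ b' ∈ Finset.range b,
        if FB X k0 b0 K b u ∧ ∀ b'', b' < b'' → b'' < b → ¬ Op X k0 b0 y0 Cs b b'' u then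
          2 * ((Cs : ℝ) * 2 ^ (jb k0 b0 b' + c0)) + 2 else 0

/-- rotation by 90 degrees -/
def rot (v : V) : V := (-v.2, v.1)

/-- failure probability of the circuits of level `y₀` -/
noncomputable def q0 : ℝ := 1 / 2 ^ 40

/-- failure probability of the circuits of level `K` -/
noncomputable def q1 : ℝ := 1 / 10 ^ 6

end Pool.H92.GFL
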