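import Pool.Agent.helper92.GFL.Defs

/-!
The polynomials `Tp`, `Ep`, `cpol` (module K1, proofs by helper53).
-/

namespace Pool.H92.GFL

open Function Finset MeasureTheory ProbabilityTheory Pool.H92.GFF
open scoped Classical ENNReal

lemma Tp_eval_succ (j : ℕ) (x : ℝ) : (Tp (j + 1)).eval x = 2 * ((Tp j).eval x) ^ 2 - 1 := by
  simp [Tp]

lemma Ep_eval_succ (j : ℕ) (x : ℝ) :
    (Ep (j + 1)).eval x = (Ep j).eval x * (1 + (Tp j).eval x) / 2 := by
  simp [Ep]; ring

theorem Tp_abs_le (j : ℕ) {x : ℝ} (hx : |x| ≤ 1) : |(Tp j).eval x| ≤ 1 := by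
  induction j with
  | zero => simpa [Tp] using hx
  | succ j ih =>
    rw [Tp_eval_succ]
    rw [abs_le] at ih ⊢
    constructor <;> nlinarith [ih.1, ih.2]

theorem Ep_one_sub (j : ℕ) :
    Polynomial.C ((4 : ℝ) ^ j) * ((1 - Polynomial.X) * Ep j) = 1 - Tp j := by
  induction j with
  | zero => simp [Ep, Tp]
  | succ j ih =>
    have h1 : Polynomial.C ((4 : ℝ) ^ (j + 1)) * ((1 - Polynomial.X) * Ep (j + 1)) =
        Polynomial.C 4 * Polynomial.C (1 / 2) * (1 + Tp j) *
          (Polynomial.C ((4 : ℝ) ^ j) * ((1 - Polynomial.X) * Ep j)) := by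
      rw [pow_succ, Polynomial.C_mul]
      simp only [Ep]
      ring
    rw [h1, ih, ← Polynomial.C_mul]
    have h2 : (4 : ℝ) * (1 / 2) = 2 := by norm_num
    rw [h2]
    simp only [Tp]
    have h3 : (Polynomial.C (2 : ℝ)) = 2 := rfl
    rw [h3]
    ring

theorem Ep_nonneg (j : ℕ) {x : ℝ} (hx : |x| ≤ 1) : 0 ≤ (Ep j).eval x := by
  induction j with
  | zero => simp [Ep]
  | succ j ih =>
    rw [Ep_eval_succ]
    have := (abs_le.1 (Tp_abs_le j hx)).1
    have : 0 ≤ (Ep j).eval x * (1 + (Tp j).eval x) := mul_nonneg ih (by linarith)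
    linarith

theorem Ep_succ_le (j : ℕ) {x : ℝ} (hx : |x| ≤ 1) : (Ep (j + 1)).eval x ≤ (Ep j).eval x := by
  rw [Ep_eval_succ]
  have h1 := (abs_le.1 (Tp_abs_le j hx)).2
  have h2 := Ep_nonneg j hx
  have : (Ep j).eval x * (1 + (Tp j).eval x) ≤ (Ep j).eval x * 2 :=
    mul_le_mul_of_nonneg_left (by linarith) h2
  linarith

theorem Ep_le_one (j : ℕ) {x : ℝ} (hx : |x| ≤ 1) : (Ep j).eval x ≤ 1 := by
  induction j with
  | zero => simp [Ep]
  | succ j ih => exact (Ep_succ_le j hx).trans ih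

lemma Ep_one_sub_eval (j : ℕ) (x : ℝ) :
    4 ^ j * ((1 - x) * (Ep j).eval x) = 1 - (Tp j).eval x := by
  have := congrArg (Polynomial.eval x) (Ep_one_sub j)
  simpa using this

theorem Ep_mul_le (j : ℕ) {x : ℝ} (hx : |x| ≤ 1) : (Ep j).eval x * (1 - x) ≤ 2 / 4 ^ j := by
  rw [le_div_iff₀ (by positivity)]
  have h1 := Ep_one_sub_eval j x
  have h2 := (abs_le.1 (Tp_abs_le j hx)).1
  nlinarith

lemma Tp_eval_one (j : ℕ) : (Tp j).eval 1 = 1 := by
  induction j with
  | zero => simp [Tp]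
  | succ j ih => rw [Tp_eval_succ, ih]; norm_num

theorem Ep_eval_one (j : ℕ) : (Ep j).eval 1 = 1 := by
  induction j with
  | zero => simp [Ep]
  | succ j ih => rw [Ep_eval_succ, ih, Tp_eval_one]; norm_num

lemma natDegree_Tp_le (j : ℕ) : (Tp j).natDegree ≤ 2 ^ j := by
  induction j with
  | zero => simp [Tp]
  | succ j ih =>
    simp only [Tp]
    refine (Polynomial.natDegree_sub_le _ _).trans ?_
    refine max_le ?_ (by simp)
    refine (Polynomial.natDegree_mul_le).trans ?_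
    have h2 : (2 : Polynomial ℝ).natDegree = 0 := Polynomial.natDegree_ofNat 2
    have h3 : ((Tp j) ^ 2).natDegree ≤ 2 * 2 ^ j :=
      (Polynomial.natDegree_pow_le).trans (Nat.mul_le_mul_left 2 ih)
    rw [h2, pow_succ 2 j]
    omega

theorem natDegree_Ep_lt (j : ℕ) : (Ep j).natDegree < 2 ^ j := by
  induction j with
  | zero => simp [Ep]
  | succ j ih =>
    simp only [Ep]
    refine lt_of_le_of_lt (Polynomial.natDegree_C_mul_le _ _) ?_
    refine lt_of_le_of_lt (Polynomial.natDegree_mul_le) ?_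
    have h1 : (1 + Tp j).natDegree ≤ 2 ^ j := by
      refine (Polynomial.natDegree_add_le _ _).trans ?_
      exact max_le (by simp) (natDegree_Tp_le j)
    rw [pow_succ]
    omega

theorem natDegree_cpol_lt (j : ℕ) : (cpol j).natDegree < 4 * 2 ^ j := by
  unfold cpol
  refine lt_of_le_of_lt (Polynomial.natDegree_C_mul_le _ _) ?_
  refine lt_of_le_of_lt (Polynomial.natDegree_mul_le) ?_
  have h1 := natDegree_Ep_lt j
  have h2 := natDegree_Ep_lt (j + 1)
  rw [pow_succ] at h2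
  have h3 : ((Ep j) ^ 2).natDegree ≤ 2 * (Ep j).natDegree := Polynomial.natDegree_pow_le
  have h4 : (Ep j + Ep (j + 1)).natDegree ≤ max (Ep j).natDegree (Ep (j + 1)).natDegree :=
    Polynomial.natDegree_add_le _ _
  have h5 : max (Ep j).natDegree (Ep (j + 1)).natDegree < 2 ^ j * 2 := max_lt (by omega) h2
  omega

theorem cpol_lap (j : ℕ) :
    4 * ((1 - Polynomial.X) * cpol j) = (Ep j) ^ 2 - (Ep (j + 1)) ^ 2 := by
  have h1 := Ep_one_sub j
  have h2 : (Ep (j + 1)) = Polynomial.C (1 / 2) * (Ep j * (1 + Tp j)) := rfl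
  have h3 : Polynomial.C ((4 : ℝ) ^ j / 8) =
      Polynomial.C ((4 : ℝ) ^ j) * Polynomial.C (1 / 8) := by
    rw [← Polynomial.C_mul]; congr 1; ring
  unfold cpol
  rw [h3]
  have h4 : 4 * ((1 - Polynomial.X) * (Polynomial.C ((4 : ℝ) ^ j) * Polynomial.C (1 / 8) *
      ((Ep j) ^ 2 * (Ep j + Ep (j + 1))))) =
      4 * Polynomial.C (1 / 8) * (Polynomial.C ((4 : ℝ) ^ j) * ((1 - Polynomial.X) * Ep j)) *
        (Ep j * (Ep j + Ep (j + 1))) := by ring
  rw [h4, h1]
  have h5 : (4 : Polynomial ℝ) * Polynomial.C (1 / 8) = Polynomial.C (1 / 2) := by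
    have : (4 : Polynomial ℝ) = Polynomial.C 4 := rfl
    rw [this, ← Polynomial.C_mul]; congr 1; norm_num
  rw [h5]
  have h6 : Polynomial.C (1 / 2 : ℝ) * (1 - Tp j) * Ep j = Ep j - Ep (j + 1) := by
    rw [h2]
    have h7 : (Polynomial.C (1 / 2 : ℝ)) + Polynomial.C (1 / 2 : ℝ) = 1 := by
      rw [← Polynomial.C_add]; norm_num
    linear_combination (Ep j) * h7
  calc Polynomial.C (1 / 2 : ℝ) * (1 - Tp j) * (Ep j * (Ep j + Ep (j + 1)))
      = (Polynomial.C (1 / 2 : ℝ) * (1 - Tp j) * Ep j) * (Ep j + Ep (j + 1)) := by ring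
    _ = (Ep j - Ep (j + 1)) * (Ep j + Ep (j + 1)) := by rw [h6]
    _ = (Ep j) ^ 2 - (Ep (j + 1)) ^ 2 := by ring

lemma cpol_eval (j : ℕ) (x : ℝ) : (cpol j).eval x =
    4 ^ j / 8 * (((Ep j).eval x) ^ 2 * ((Ep j).eval x + (Ep (j + 1)).eval x)) := by
  simp [cpol]

theorem cpol_nonneg (j : ℕ) {x : ℝ} (hx : |x| ≤ 1) : 0 ≤ (cpol j).eval x := by
  rw [cpol_eval]
  have h1 := Ep_nonneg j hx
  have h2 := Ep_nonneg (j + 1) hx
  positivity

theorem cpol_le (j : ℕ) {x : ℝ} (hx : |x| ≤ 1) :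
    (cpol j).eval x ≤ 4 ^ j / 4 * ((Ep j) ^ 2).eval x := by
  rw [cpol_eval, Polynomial.eval_pow]
  have h1 := Ep_le_one j hx
  have h2 := Ep_le_one (j + 1) hx
  have h3 : ((Ep j).eval x) ^ 2 * ((Ep j).eval x + (Ep (j + 1)).eval x) ≤
      ((Ep j).eval x) ^ 2 * 2 := mul_le_mul_of_nonneg_left (by linarith) (by positivity)
  have h4 : (4 : ℝ) ^ j / 8 * (((Ep j).eval x) ^ 2 * ((Ep j).eval x + (Ep (j + 1)).eval x)) ≤
      4 ^ j / 8 * (((Ep j).eval x) ^ 2 * 2) := mul_le_mul_of_nonneg_left h3 (by positivity)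
  linarith

theorem cpol_le' (j : ℕ) {x : ℝ} (hx : |x| ≤ 1) : (cpol j).eval x ≤ 4 ^ j / 4 := by
  refine (cpol_le j hx).trans ?_
  rw [Polynomial.eval_pow]
  have h1 := Ep_le_one j hx
  have h2 := Ep_nonneg j hx
  have h3 : ((Ep j).eval x) ^ 2 ≤ 1 := pow_le_one₀ h2 h1
  have h4 : (4 : ℝ) ^ j / 4 * ((Ep j).eval x) ^ 2 ≤ 4 ^ j / 4 * 1 :=
    mul_le_mul_of_nonneg_left h3 (by positivity)
  linarith

theorem Ep_le_avg (j : ℕ) {x : ℝ} (hx : |x| ≤ 1) :
    (Ep j).eval x ≤ 8 / 4 ^ j * ∑ t ∈ Finset.range (4 ^ j), x ^ (2 * t) := by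
  have hT : (0 : ℝ) < 4 ^ j := by positivity
  have hpos : ∀ t : ℕ, 0 ≤ x ^ (2 * t) := fun t => by rw [pow_mul]; positivity
  have hxx := abs_le.1 hx
  have hE := Ep_mul_le j hx
  rw [le_div_iff₀ hT] at hE
  have hE0 := Ep_nonneg j hx
  have hE1 := Ep_le_one j hx
  rw [div_mul_eq_mul_div, le_div_iff₀ hT]
  rcases le_total x 0 with h0 | h0
  · have h1 : (1 : ℝ) ≤ ∑ t ∈ Finset.range (4 ^ j), x ^ (2 * t) := by
      have := Finset.single_le_sum (f := fun t => x ^ (2 * t)) (s := Finset.range (4 ^ j))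
        (fun t _ => hpos t) (Finset.mem_range.2 (show 0 < 4 ^ j by positivity))
      simpa using this
    have h2 : (Ep j).eval x * 4 ^ j ≤ (Ep j).eval x * (1 - x) * 4 ^ j := by
      have : (Ep j).eval x * 4 ^ j * 1 ≤ (Ep j).eval x * 4 ^ j * (1 - x) :=
        mul_le_mul_of_nonneg_left (by linarith) (by positivity)
      linarith
    linarith
  · rcases lt_or_ge ((4 : ℝ) ^ j * (1 - x)) 1 with h1 | h1
    · rcases j with _ | j
      · simp [Ep]
      · have h2 : (4 : ℝ) ^ j * (1 / 2) ≤ ∑ t ∈ Finset.range (4 ^ (j + 1)), x ^ (2 * t) := by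
          calc (4 : ℝ) ^ j * (1 / 2) = ∑ t ∈ Finset.range (4 ^ j), (1 / 2 : ℝ) := by
                rw [Finset.sum_const, Finset.card_range, nsmul_eq_mul]; push_cast; ring
            _ ≤ ∑ t ∈ Finset.range (4 ^ j), x ^ (2 * t) := by
                refine Finset.sum_le_sum (fun t ht => ?_)
                have ht' : (t : ℝ) ≤ 4 ^ j := by
                  have := (Finset.mem_range.1 ht).le
                  exact_mod_cast this
                have h3 := one_add_mul_le_pow (a := x - 1) (by linarith) (2 * t)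
                have h4 : (1 : ℝ) + (x - 1) = x := by ring
                rw [h4] at h3
                refine le_trans ?_ h3
                push_cast
                have h5 : (t : ℝ) * (1 - x) ≤ 4 ^ j * (1 - x) :=
                  mul_le_mul_of_nonneg_right ht' (by linarith)
                rw [pow_succ] at h1
                nlinarith
            _ ≤ ∑ t ∈ Finset.range (4 ^ (j + 1)), x ^ (2 * t) := by
                refine Finset.sum_le_sum_of_subset_of_nonneg ?_ (fun t _ _ => hpos t)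
                apply Finset.range_subset_range.2
                exact Nat.pow_le_pow_right (by norm_num) (Nat.le_succ j)
        have h6 : (Ep (j + 1)).eval x * 4 ^ (j + 1) ≤ 1 * 4 ^ (j + 1) :=
          mul_le_mul_of_nonneg_right hE1 (by positivity)
        rw [pow_succ] at h6 ⊢
        linarith
    · have hd : 0 < 1 - x := by
        by_contra hcon
        push Not at hcon
        have := mul_nonpos_of_nonneg_of_nonpos hT.le hcon
        linarith
      -- x ^ (4 ^ j) ≤ 1 / 2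
      have hb : x ^ (4 ^ j) ≤ 1 / 2 := by
        have h2 := one_add_mul_le_pow (a := 1 - x) (by linarith) (4 ^ j)
        have h3 : x ^ (4 ^ j) * (1 + (1 - x)) ^ (4 ^ j) ≤ 1 := by
          rw [← mul_pow]
          apply pow_le_one₀
          · nlinarith
          · nlinarith
        have h4 : (0 : ℝ) ≤ x ^ (4 ^ j) := pow_nonneg h0 _
        have h5 : x ^ (4 ^ j) * 2 ≤ x ^ (4 ^ j) * (1 + (1 - x)) ^ (4 ^ j) := by
          apply mul_le_mul_of_nonneg_left _ h4
          refine le_trans ?_ h2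
          push_cast
          linarith
        linarith
      have hb2 : (x ^ 2) ^ (4 ^ j) ≤ 1 / 2 := by
        rw [← pow_mul, mul_comm, pow_mul]
        have h4 : (0 : ℝ) ≤ x ^ (4 ^ j) := pow_nonneg h0 _
        nlinarith
      have hg : (∑ t ∈ Finset.range (4 ^ j), x ^ (2 * t)) * (1 - x ^ 2) =
          1 - (x ^ 2) ^ (4 ^ j) := by
        have := geom_sum_mul_neg (x ^ 2) (4 ^ j)
        rw [← this]
        congr 1
        exact Finset.sum_congr rfl (fun t _ => by rw [pow_mul])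
      set S := ∑ t ∈ Finset.range (4 ^ j), x ^ (2 * t) with hS
      have hS0 : 0 ≤ S := Finset.sum_nonneg (fun t _ => hpos t)
      have h6 : S * (1 - x ^ 2) ≤ S * (2 * (1 - x)) :=
        mul_le_mul_of_nonneg_left (by nlinarith) hS0
      have h7 : 1 / 2 ≤ S * (2 * (1 - x)) := by linarith
      -- (Ep) * 4^j * (1-x) ≤ 2 ≤ 8 * S * (1-x)
      have h8 : (Ep j).eval x * 4 ^ j * (1 - x) ≤ 8 * S * (1 - x) := by linarith
      exact le_of_mul_le_mul_right h8 hd

end Pool.H92.GFL
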