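import Pool.Agent.helper92.GFL.Defs

namespace Pool.H92.GFL

open Function Finset MeasureTheory ProbabilityTheory Pool.H92.GFF
open scoped Classical ENNReal

/-! auxiliary: polynomials of a symmetric matrix with spectrum in `[-1, 1]` -/

lemma k2_aeval_diagonal {n : Type*} [Fintype n] [DecidableEq n] (d : n → ℝ) (p : Polynomial ℝ) :
    Polynomial.aeval (Matrix.diagonal d) p = Matrix.diagonal (fun i => p.eval (d i)) := by
  have h := Polynomial.aeval_algHom_apply (Matrix.diagonalAlgHom ℝ (n := n) (α := ℝ)) d p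
  have h1 : (Matrix.diagonalAlgHom ℝ (n := n) (α := ℝ)) d = Matrix.diagonal d := rfl
  rw [h1] at h
  rw [h]
  show Matrix.diagonal (Polynomial.aeval d p) = _
  congr 1
  funext i
  have h2 := Polynomial.aeval_algHom_apply (Pi.evalAlgHom ℝ (fun _ : n => ℝ) i) d p
  rw [Polynomial.coe_aeval_eq_eval] at h2
  exact h2.symm

lemma k2_posSemidef {n : Type*} [Fintype n] [DecidableEq n] (A : Matrix n n ℝ)
    (hA : A.IsHermitian) (hb : ∀ v : n → ℝ, |v ⬝ᵥ A.mulVec v| ≤ v ⬝ᵥ v) (p : Polynomial ℝ)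
    (hp : ∀ x : ℝ, |x| ≤ 1 → 0 ≤ p.eval x) : (Polynomial.aeval A p).PosSemidef := by
  have hev : ∀ i, |hA.eigenvalues i| ≤ 1 := by
    intro i
    rw [hA.eigenvalues_eq i]
    have h1 := hb (⇑(hA.eigenvectorBasis i))
    have h2 : (⇑(hA.eigenvectorBasis i) : n → ℝ) ⬝ᵥ ⇑(hA.eigenvectorBasis i) = 1 := by
      have h3 := hA.eigenvectorBasis.orthonormal.1 i
      have h4 : ‖hA.eigenvectorBasis i‖ ^ 2 = 1 := by rw [h3]; norm_num
      rw [EuclideanSpace.norm_sq_eq] at h4
      rw [← h4]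
      simp [dotProduct, pow_two]
    rw [h2] at h1
    simpa using h1
  have h := hA.spectral_theorem
  have h1 : Polynomial.aeval A p = Unitary.conjStarAlgAut ℝ _ hA.eigenvectorUnitary
      (Matrix.diagonal (fun i => p.eval (hA.eigenvalues i))) := by
    conv_lhs => rw [h]
    rw [Polynomial.aeval_algHom_apply]
    congr 1
    exact k2_aeval_diagonal _ p
  rw [h1, Unitary.conjStarAlgAut_apply]
  have h2 : (Matrix.diagonal (fun i => p.eval (hA.eigenvalues i))).PosSemidef :=
    Matrix.PosSemidef.diagonal (fun i => hp _ (hev i))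
  exact h2.mul_mul_conjTranspose_same _

lemma k2_mem_nb {v w : V} : w ∈ nb v ↔
    w = (v.1 + 1, v.2) ∨ w = (v.1 - 1, v.2) ∨ w = (v.1, v.2 + 1) ∨ w = (v.1, v.2 - 1) := by
  simp [nb]

lemma k2_nb_comm {v w : V} : w ∈ nb v ↔ v ∈ nb w := by
  rcases v with ⟨a, b⟩
  rcases w with ⟨c, d⟩
  simp only [k2_mem_nb, Prod.mk.injEq]
  omega

lemma k2_PM_symm (I : Finset V) : (PM I).transpose = PM I := by
  ext x y
  simp only [Matrix.transpose_apply, PM]
  simp only [k2_nb_comm (v := (y : V)) (w := (x : V))]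

lemma k2_PM_herm (I : Finset V) : (PM I).IsHermitian := by
  unfold Matrix.IsHermitian
  rw [Matrix.conjTranspose_eq_transpose_of_trivial]
  exact k2_PM_symm I

lemma k2_row (I : Finset V) (x : I) : ∑ y : I, PM I x y ≤ 1 := by
  have h : ∑ y : I, PM I x y = ∑ y ∈ I, (if y ∈ nb (x : V) then (1 / 4 : ℝ) else 0) := by
    rw [← Finset.sum_coe_sort I (fun y => if y ∈ nb (x : V) then (1 / 4 : ℝ) else 0)]
    rfl
  rw [h, ← Finset.sum_filter, Finset.sum_const, nsmul_eq_mul]
  have h1 : (I.filter (fun y => y ∈ nb (x : V))).card ≤ 4 := by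
    refine (Finset.card_le_card (t := nb (x : V)) ?_).trans Finset.card_le_four
    intro y hy
    exact (Finset.mem_filter.1 hy).2
  have h2 : ((I.filter (fun y => y ∈ nb (x : V))).card : ℝ) ≤ 4 := by exact_mod_cast h1
  linarith

lemma k2_PM_nonneg (I : Finset V) (x y : I) : 0 ≤ PM I x y := by
  unfold PM
  split_ifs <;> norm_num

lemma k2_PM_apply_symm (I : Finset V) (x y : I) : PM I x y = PM I y x := by
  have := congrFun (congrFun (k2_PM_symm I) y) x
  exact this

lemma k2_PM_bound (I : Finset V) (v : I → ℝ) :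
    |v ⬝ᵥ (PM I).mulVec v| ≤ v ⬝ᵥ v := by
  have h1 : v ⬝ᵥ (PM I).mulVec v = ∑ x : I, ∑ y : I, PM I x y * (v x * v y) := by
    simp only [dotProduct, Matrix.mulVec, Finset.mul_sum]
    exact Finset.sum_congr rfl fun x _ => Finset.sum_congr rfl fun y _ => by ring
  have h2 : ∑ x : I, ∑ y : I, PM I x y * ((v x ^ 2 + v y ^ 2) / 2) ≤ v ⬝ᵥ v := by
    have h3 : ∑ x : I, ∑ y : I, PM I x y * ((v x ^ 2 + v y ^ 2) / 2) =
        ∑ x : I, v x ^ 2 * ∑ y : I, PM I x y := by
      have h4 : ∑ x : I, ∑ y : I, PM I x y * (v y ^ 2) = ∑ x : I, ∑ y : I, PM I x y * (v x ^ 2) := by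
        rw [Finset.sum_comm]
        exact Finset.sum_congr rfl fun x _ => Finset.sum_congr rfl fun y _ => by
          rw [k2_PM_apply_symm]
      have h5 : ∑ x : I, ∑ y : I, PM I x y * ((v x ^ 2 + v y ^ 2) / 2) =
          (∑ x : I, ∑ y : I, PM I x y * (v x ^ 2) + ∑ x : I, ∑ y : I, PM I x y * (v y ^ 2)) / 2 := by
        rw [← Finset.sum_add_distrib, Finset.sum_div]
        refine Finset.sum_congr rfl fun x _ => ?_
        rw [← Finset.sum_add_distrib, Finset.sum_div]
        exact Finset.sum_congr rfl fun y _ => by ring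
      rw [h5, h4]
      have h6 : ∑ x : I, ∑ y : I, PM I x y * (v x ^ 2) = ∑ x : I, v x ^ 2 * ∑ y : I, PM I x y := by
        refine Finset.sum_congr rfl fun x _ => ?_
        rw [Finset.mul_sum]
        exact Finset.sum_congr rfl fun y _ => by ring
      rw [h6]
      ring
    rw [h3]
    unfold dotProduct
    refine Finset.sum_le_sum fun x _ => ?_
    have := k2_row I x
    nlinarith [sq_nonneg (v x)]
  rw [h1]
  refine (Finset.abs_sum_le_sum_abs _ _).trans (le_trans ?_ h2)
  refine Finset.sum_le_sum fun x _ => ?_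
  refine (Finset.abs_sum_le_sum_abs _ _).trans ?_
  refine Finset.sum_le_sum fun y _ => ?_
  rw [abs_mul, abs_of_nonneg (k2_PM_nonneg I x y)]
  refine mul_le_mul_of_nonneg_left ?_ (k2_PM_nonneg I x y)
  rw [abs_le]
  constructor <;> nlinarith [sq_nonneg (v x + v y), sq_nonneg (v x - v y)]

lemma k2_aeval_symm (I : Finset V) (p : Polynomial ℝ) :
    (Polynomial.aeval (PM I) p).transpose = Polynomial.aeval (PM I) p := by
  rw [Polynomial.aeval_eq_sum_range, Matrix.transpose_sum]
  refine Finset.sum_congr rfl fun i _ => ?_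
  rw [Matrix.transpose_smul, Matrix.transpose_pow, k2_PM_symm]

lemma k2_kI_in (I : Finset V) (p : Polynomial ℝ) {x y : V} (hx : x ∈ I) (hy : y ∈ I) :
    kI I p x y = (Polynomial.aeval (PM I) p) ⟨x, hx⟩ ⟨y, hy⟩ := by
  unfold kI
  rw [dif_pos ⟨hx, hy⟩]

theorem kI_symm (I : Finset V) (p : Polynomial ℝ) (x y : V) : kI I p x y = kI I p y x := by
  by_cases h : x ∈ I ∧ y ∈ I
  · rw [k2_kI_in I p h.1 h.2, k2_kI_in I p h.2 h.1]
    exact congrFun (congrFun (k2_aeval_symm I p) ⟨y, h.2⟩) ⟨x, h.1⟩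
  · unfold kI
    rw [dif_neg h, dif_neg (fun h' => h ⟨h'.2, h'.1⟩)]

theorem kI_out (I : Finset V) (p : Polynomial ℝ) {x y : V} (h : x ∉ I ∨ y ∉ I) :
    kI I p x y = 0 := by
  unfold kI
  rw [dif_neg]
  rintro ⟨h1, h2⟩
  rcases h with h | h
  · exact h h1
  · exact h h2

theorem kI_one (I : Finset V) (x y : V) :
    kI I 1 x y = if x = y ∧ x ∈ I then 1 else 0 := by
  by_cases h : x ∈ I ∧ y ∈ I
  · rw [k2_kI_in I 1 h.1 h.2, map_one, Matrix.one_apply]
    by_cases hxy : x = y
    · subst hxy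
      simp [h.1]
    · have : (⟨x, h.1⟩ : I) ≠ ⟨y, h.2⟩ := fun h' => hxy (congrArg Subtype.val h')
      simp [hxy]
  · rw [kI_out I 1 (by tauto)]
    rw [if_neg]
    rintro ⟨rfl, h2⟩
    exact h ⟨h2, h2⟩

theorem kI_add (I : Finset V) (p q : Polynomial ℝ) (x y : V) :
    kI I (p + q) x y = kI I p x y + kI I q x y := by
  by_cases h : x ∈ I ∧ y ∈ I
  · rw [k2_kI_in I _ h.1 h.2, k2_kI_in I _ h.1 h.2, k2_kI_in I _ h.1 h.2, map_add,
      Matrix.add_apply]
  · rw [kI_out I _ (by tauto), kI_out I _ (by tauto), kI_out I _ (by tauto), add_zero]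

theorem kI_sub (I : Finset V) (p q : Polynomial ℝ) (x y : V) :
    kI I (p - q) x y = kI I p x y - kI I q x y := by
  by_cases h : x ∈ I ∧ y ∈ I
  · rw [k2_kI_in I _ h.1 h.2, k2_kI_in I _ h.1 h.2, k2_kI_in I _ h.1 h.2, map_sub,
      Matrix.sub_apply]
  · rw [kI_out I _ (by tauto), kI_out I _ (by tauto), kI_out I _ (by tauto), sub_zero]

theorem kI_C_mul (I : Finset V) (c : ℝ) (p : Polynomial ℝ) (x y : V) :
    kI I (Polynomial.C c * p) x y = c * kI I p x y := by
  by_cases h : x ∈ I ∧ y ∈ I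
  · rw [k2_kI_in I _ h.1 h.2, k2_kI_in I _ h.1 h.2, map_mul, Polynomial.aeval_C,
      Algebra.algebraMap_eq_smul_one, smul_mul_assoc, one_mul, Matrix.smul_apply, smul_eq_mul]
  · rw [kI_out I _ (by tauto), kI_out I _ (by tauto), mul_zero]

theorem kI_sum (I : Finset V) {ι : Type*} (s : Finset ι) (p : ι → Polynomial ℝ) (x y : V) :
    kI I (∑ i ∈ s, p i) x y = ∑ i ∈ s, kI I (p i) x y := by
  by_cases h : x ∈ I ∧ y ∈ I
  · rw [k2_kI_in I _ h.1 h.2, map_sum, Matrix.sum_apply]
    exact Finset.sum_congr rfl fun i _ => (k2_kI_in I _ h.1 h.2).symm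
  · rw [kI_out I _ (by tauto)]
    exact (Finset.sum_eq_zero fun i _ => kI_out I _ (by tauto)).symm

theorem kI_mul (I : Finset V) (p q : Polynomial ℝ) (x y : V) :
    ∑ z ∈ I, kI I p x z * kI I q z y = kI I (p * q) x y := by
  by_cases h : x ∈ I ∧ y ∈ I
  · rw [k2_kI_in I _ h.1 h.2, map_mul, Matrix.mul_apply,
      ← Finset.sum_coe_sort I (fun z => kI I p x z * kI I q z y)]
    exact Finset.sum_congr rfl fun z _ => by
      rw [k2_kI_in I _ h.1 z.2, k2_kI_in I _ z.2 h.2]
  · rw [kI_out I _ (by tauto)]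
    refine Finset.sum_eq_zero fun z _ => ?_
    rcases not_and_or.1 h with h | h
    · rw [kI_out I p (Or.inl h), zero_mul]
    · rw [kI_out I q (Or.inr h), mul_zero]

theorem kI_psd (I : Finset V) (p : Polynomial ℝ) (hp : ∀ x : ℝ, |x| ≤ 1 → 0 ≤ p.eval x)
    (a : V → ℝ) : 0 ≤ ∑ x ∈ I, ∑ y ∈ I, a x * a y * kI I p x y := by
  have h := k2_posSemidef (PM I) (k2_PM_herm I) (k2_PM_bound I) p hp
  have h1 := h.dotProduct_mulVec_nonneg (fun x : I => a x)
  have h2 : star (fun x : I => a x) ⬝ᵥ (Polynomial.aeval (PM I) p).mulVec (fun x : I => a x) =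
      ∑ x ∈ I, ∑ y ∈ I, a x * a y * kI I p x y := by
    rw [← Finset.sum_coe_sort I (fun x => ∑ y ∈ I, a x * a y * kI I p x y)]
    simp only [dotProduct, Matrix.mulVec]
    refine Finset.sum_congr rfl fun x _ => ?_
    rw [← Finset.sum_coe_sort I (fun y => a x * a y * kI I p x y), Finset.mul_sum]
    refine Finset.sum_congr rfl fun y _ => ?_
    rw [k2_kI_in I p x.2 y.2]
    simp only [Pi.star_apply, star_trivial]
    ring
  rw [h2] at h1
  exact h1

lemma k2_diag_nonneg (I : Finset V) (p : Polynomial ℝ) (hp : ∀ x : ℝ, |x| ≤ 1 → 0 ≤ p.eval x)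
    (x : V) : 0 ≤ kI I p x x := by
  by_cases hx : x ∈ I
  · have h := kI_psd I p hp (fun z => if z = x then 1 else 0)
    have h1 : ∑ u ∈ I, ∑ v ∈ I, (if u = x then (1 : ℝ) else 0) * (if v = x then 1 else 0) *
        kI I p u v = kI I p x x := by
      rw [Finset.sum_eq_single x]
      · rw [Finset.sum_eq_single x]
        · simp
        · intro b _ hb
          simp [hb]
        · intro h'; exact absurd hx h'
      · intro b _ hb
        simp [hb]
      · intro h'; exact absurd hx h'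
    rw [h1] at h
    exact h
  · rw [kI_out I p (Or.inl hx)]

theorem kI_diag_mono (I : Finset V) (p q : Polynomial ℝ)
    (hp : ∀ x : ℝ, |x| ≤ 1 → p.eval x ≤ q.eval x) (x : V) : kI I p x x ≤ kI I q x x := by
  have h := k2_diag_nonneg I (q - p) (fun z hz => by
    rw [Polynomial.eval_sub]
    have := hp z hz
    linarith) x
  rw [kI_sub] at h
  linarith

theorem kI_abs_le (I : Finset V) (p : Polynomial ℝ) (hp : ∀ x : ℝ, |x| ≤ 1 → 0 ≤ p.eval x)
    {M : ℝ} (hM : ∀ x, kI I p x x ≤ M) (x y : V) : |kI I p x y| ≤ M := by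
  have hM0 : 0 ≤ M := (k2_diag_nonneg I p hp x).trans (hM x)
  by_cases h : x ∈ I ∧ y ∈ I
  swap
  · rw [kI_out I p (by tauto), abs_zero]
    exact hM0
  by_cases hxy : x = y
  · subst hxy
    rw [abs_of_nonneg (k2_diag_nonneg I p hp x)]
    exact hM x
  have key : ∀ s : ℝ, s = 1 ∨ s = -1 → 0 ≤ kI I p x x + kI I p y y + 2 * s * kI I p x y := by
    intro s hs
    have hpos := kI_psd I p hp (fun z => (if z = x then 1 else 0) + s * (if z = y then 1 else 0))
    have hsum : ∀ g : V → ℝ, ∑ v ∈ I, ((if v = x then (1 : ℝ) else 0) +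
        s * (if v = y then 1 else 0)) * g v = g x + s * g y := by
      intro g
      have e1 : ∑ v ∈ I, ((if v = x then (1 : ℝ) else 0) +
        s * (if v = y then 1 else 0)) * g v = ∑ v ∈ I, ((if v = x then g v else 0) +
          (if v = y then s * g v else 0)) := by
        refine Finset.sum_congr rfl fun v _ => ?_
        split_ifs <;> ring
      rw [e1, Finset.sum_add_distrib, Finset.sum_ite_eq' I x, Finset.sum_ite_eq' I y,
        if_pos h.1, if_pos h.2]
    have e2 : ∑ u ∈ I, ∑ v ∈ I, ((if u = x then (1 : ℝ) else 0) + s * (if u = y then 1 else 0)) *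
        ((if v = x then (1 : ℝ) else 0) + s * (if v = y then 1 else 0)) * kI I p u v =
        kI I p x x + kI I p y y + 2 * s * kI I p x y := by
      have e3 : ∀ u ∈ I, ∑ v ∈ I, ((if u = x then (1 : ℝ) else 0) + s * (if u = y then 1 else 0)) *
        ((if v = x then (1 : ℝ) else 0) + s * (if v = y then 1 else 0)) * kI I p u v =
          ((if u = x then (1 : ℝ) else 0) + s * (if u = y then 1 else 0)) *
            (kI I p u x + s * kI I p u y) := by
        intro u _
        rw [← hsum (fun v => kI I p u v), Finset.mul_sum]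
        exact Finset.sum_congr rfl fun v _ => by ring
      rw [Finset.sum_congr rfl e3, hsum (fun u => kI I p u x + s * kI I p u y),
        kI_symm I p y x]
      rcases hs with rfl | rfl <;> ring
    rw [e2] at hpos
    exact hpos
  have k1 := key 1 (Or.inl rfl)
  have k2 := key (-1) (Or.inr rfl)
  have m1 := hM x
  have m2 := hM y
  rw [abs_le]
  constructor <;> linarith

/-! recurrences -/

lemma k2_kI_X_mul (I : Finset V) (p : Polynomial ℝ) {x : V} (hx : x ∈ I) (y : V) :
    kI I (Polynomial.X * p) x y = 1 / 4 * (kI I p (x.1 + 1, x.2) y + kI I p (x.1 - 1, x.2) y +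
      kI I p (x.1, x.2 + 1) y + kI I p (x.1, x.2 - 1) y) := by
  rw [← kI_mul]
  have h1 : ∀ z ∈ I, kI I Polynomial.X x z = if z ∈ nb x then 1 / 4 else 0 := by
    intro z hz
    rw [k2_kI_in I _ hx hz, Polynomial.aeval_X]
    rfl
  have h2 : ∑ z ∈ I, kI I Polynomial.X x z * kI I p z y =
      ∑ z ∈ I ∪ nb x, (if z ∈ nb x then 1 / 4 * kI I p z y else 0) := by
    rw [← Finset.sum_subset (Finset.subset_union_left (s₁ := I) (s₂ := nb x))]
    · refine Finset.sum_congr rfl fun z hz => ?_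
      rw [h1 z hz]
      split_ifs <;> simp
    · intro z _ hz
      rw [kI_out I p (Or.inl hz)]
      simp
  rw [h2, ← Finset.sum_filter]
  have h3 : (I ∪ nb x).filter (fun z => z ∈ nb x) = nb x := by
    ext z
    simp only [Finset.mem_filter, Finset.mem_union]
    tauto
  rw [h3, ← Finset.mul_sum]
  congr 1
  unfold nb
  rw [Finset.sum_insert, Finset.sum_insert, Finset.sum_insert, Finset.sum_singleton]
  · ring
  · simp only [Finset.mem_singleton, Prod.mk.injEq]; omega
  · simp only [Finset.mem_insert, Finset.mem_singleton, Prod.mk.injEq]; omega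
  · simp only [Finset.mem_insert, Finset.mem_singleton, Prod.mk.injEq]; omega

theorem kI_lap (I : Finset V) (p : Polynomial ℝ) {x : V} (hx : x ∈ I) (y : V) :
    lap (fun v => kI I p v y) x = 4 * kI I ((1 - Polynomial.X) * p) x y := by
  rw [sub_mul, one_mul, kI_sub, k2_kI_X_mul I p hx y]
  unfold lap
  ring

lemma k2_kz_add (p q : Polynomial ℝ) (x : V) : kz (p + q) x = kz p x + kz q x := by
  unfold kz
  rw [map_add, AddMonoidAlgebra.coeff_add]
  rfl

lemma k2_kz_C_mul (c : ℝ) (p : Polynomial ℝ) (x : V) :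
    kz (Polynomial.C c * p) x = c * kz p x := by
  unfold kz
  rw [map_mul, Polynomial.aeval_C, Algebra.algebraMap_eq_smul_one, smul_mul_assoc, one_mul]
  rfl

lemma k2_kz_sum {ι : Type*} (s : Finset ι) (p : ι → Polynomial ℝ) (x : V) :
    kz (∑ i ∈ s, p i) x = ∑ i ∈ s, kz (p i) x := by
  unfold kz
  rw [map_sum, AddMonoidAlgebra.coeff_sum, Finsupp.finsetSum_apply]

lemma k2_kz_one (x : V) : kz 1 x = if x = 0 then 1 else 0 := by
  unfold kz
  rw [map_one, AddMonoidAlgebra.one_def, AddMonoidAlgebra.coeff_single, Finsupp.single_apply]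
  simp only [eq_comm]

lemma k2_kz_X_mul (p : Polynomial ℝ) (x : V) :
    kz (Polynomial.X * p) x = 1 / 4 * (kz p (x.1 + 1, x.2) + kz p (x.1 - 1, x.2) +
      kz p (x.1, x.2 + 1) + kz p (x.1, x.2 - 1)) := by
  have h : ∀ e : V, (AddMonoidAlgebra.single e (1 : ℝ) * Polynomial.aeval PP p).coeff x =
      kz p (-e + x) := by
    intro e
    rw [AddMonoidAlgebra.coeff_single_mul_apply, one_mul]
    rfl
  have h1 : kz (Polynomial.X * p) x = 1 / 4 * (kz p (-(1, 0) + x) + kz p (-(-1, 0) + x) +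
      kz p (-(0, 1) + x) + kz p (-(0, -1) + x)) := by
    rw [← h, ← h, ← h, ← h]
    unfold kz
    rw [map_mul, Polynomial.aeval_X]
    unfold PP
    rw [smul_mul_assoc, add_mul, add_mul, add_mul]
    rfl
  rw [h1]
  have e1 : -((1, 0) : V) + x = (x.1 - 1, x.2) := by
    ext <;> simp; ring
  have e2 : -((-1, 0) : V) + x = (x.1 + 1, x.2) := by
    ext <;> simp; ring
  have e3 : -((0, 1) : V) + x = (x.1, x.2 - 1) := by
    ext <;> simp; ring
  have e4 : -((0, -1) : V) + x = (x.1, x.2 + 1) := by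
    ext <;> simp; ring
  rw [e1, e2, e3, e4]
  ring

lemma k2_kI_pow_far (I : Finset V) (n : ℕ) : ∀ {x y : V},
    (n : ℤ) < |x.1 - y.1| + |x.2 - y.2| → kI I (Polynomial.X ^ n) x y = 0 := by
  induction n with
  | zero =>
    intro x y h
    rw [pow_zero, kI_one, if_neg]
    rintro ⟨rfl, -⟩
    simp at h
  | succ n ih =>
    intro x y h
    by_cases hx : x ∈ I
    · rw [pow_succ', k2_kI_X_mul I _ hx, ih, ih, ih, ih]
      · simp
      all_goals
        push_cast at h
        simp only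
        have a1 := abs_cases (x.1 - y.1)
        have a2 := abs_cases (x.2 - y.2)
        have a3 := abs_cases (x.1 + 1 - y.1)
        have a4 := abs_cases (x.1 - 1 - y.1)
        have a5 := abs_cases (x.2 + 1 - y.2)
        have a6 := abs_cases (x.2 - 1 - y.2)
        omega
    · exact kI_out I _ (Or.inl hx)

lemma k2_kz_pow_far (n : ℕ) : ∀ {x : V},
    (n : ℤ) < |x.1| + |x.2| → kz (Polynomial.X ^ n) x = 0 := by
  induction n with
  | zero =>
    intro x h
    rw [pow_zero, k2_kz_one, if_neg]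
    rintro rfl
    simp at h
  | succ n ih =>
    intro x h
    rw [pow_succ', k2_kz_X_mul, ih, ih, ih, ih]
    · simp
    all_goals
      push_cast at h
      simp only
      have a1 := abs_cases x.1
      have a2 := abs_cases x.2
      have a3 := abs_cases (x.1 + 1)
      have a4 := abs_cases (x.1 - 1)
      have a5 := abs_cases (x.2 + 1)
      have a6 := abs_cases (x.2 - 1)
      omega

theorem kI_far (I : Finset V) (p : Polynomial ℝ) {x y : V}
    (h : (p.natDegree : ℤ) < |x.1 - y.1| + |x.2 - y.2|) : kI I p x y = 0 := by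
  rw [p.as_sum_range_C_mul_X_pow, kI_sum]
  refine Finset.sum_eq_zero fun i hi => ?_
  rw [kI_C_mul, k2_kI_pow_far I i, mul_zero]
  have := Finset.mem_range.1 hi
  omega

theorem kz_far (p : Polynomial ℝ) {x : V}
    (h : (p.natDegree : ℤ) < |x.1| + |x.2|) : kz p x = 0 := by
  rw [p.as_sum_range_C_mul_X_pow, k2_kz_sum]
  refine Finset.sum_eq_zero fun i hi => ?_
  rw [k2_kz_C_mul, k2_kz_pow_far i, mul_zero]
  have := Finset.mem_range.1 hi
  omega

lemma k2_bulk_pow (I : Finset V) (n : ℕ) : ∀ {x : V},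
    (∀ v : V, |v.1 - x.1| + |v.2 - x.2| ≤ (n : ℤ) → v ∈ I) → ∀ y : V,
    kI I (Polynomial.X ^ n) x y = kz (Polynomial.X ^ n) (x - y) := by
  induction n with
  | zero =>
    intro x h y
    have hx : x ∈ I := h x (by simp)
    rw [pow_zero, kI_one, k2_kz_one]
    by_cases hxy : x = y
    · subst hxy
      simp [hx]
    · rw [if_neg (fun h' => hxy h'.1), if_neg (fun h' => hxy (sub_eq_zero.1 h'))]
  | succ n ih =>
    intro x h y
    have hx : x ∈ I := h x (by simp; positivity)
    have hnb : ∀ w : V, |w.1 - x.1| + |w.2 - x.2| ≤ 1 →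
        kI I (Polynomial.X ^ n) w y = kz (Polynomial.X ^ n) (w - y) := by
      intro w hw
      apply ih
      intro v hv
      apply h
      push_cast
      have a1 := abs_sub_le v.1 w.1 x.1
      have a2 := abs_sub_le v.2 w.2 x.2
      linarith
    have e1 : ((x.1 + 1, x.2) : V) - y = ((x - y).1 + 1, (x - y).2) := by
      ext <;> simp; ring
    have e2 : ((x.1 - 1, x.2) : V) - y = ((x - y).1 - 1, (x - y).2) := by
      ext <;> simp; ring
    have e3 : ((x.1, x.2 + 1) : V) - y = ((x - y).1, (x - y).2 + 1) := by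
      ext <;> simp; ring
    have e4 : ((x.1, x.2 - 1) : V) - y = ((x - y).1, (x - y).2 - 1) := by
      ext <;> simp; ring
    rw [pow_succ', k2_kI_X_mul I _ hx, k2_kz_X_mul, hnb, hnb, hnb, hnb, e1, e2, e3, e4]
    all_goals simp

/-- away from the complement of `I` the kernel is the full plane kernel -/
theorem kI_bulk (I : Finset V) (p : Polynomial ℝ) {x : V}
    (h : ∀ v : V, |v.1 - x.1| + |v.2 - x.2| ≤ (p.natDegree : ℤ) → v ∈ I) (y : V) :
    kI I p x y = kz p (x - y) := by
  rw [p.as_sum_range_C_mul_X_pow, kI_sum, k2_kz_sum]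
  refine Finset.sum_congr rfl fun i hi => ?_
  rw [kI_C_mul, k2_kz_C_mul, k2_bulk_pow I i]
  intro v hv
  apply h
  have := Finset.mem_range.1 hi
  omega

end Pool.H92.GFL
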