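import Pool.Agent.helper92.GFL.K1
import Pool.Agent.helper92.GFL.K2

/-!
Return probability bound for the killed walk and diagonal bounds of the kernels
(module K3, proofs by helper53).
-/

namespace Pool.H92.GFL

open Function Finset MeasureTheory ProbabilityTheory Pool.H92.GFF
open scoped Classical ENNReal

/-- one dimensional simple random walk kernel -/
noncomputable def rwA : ℕ → ℤ → ℝ
  | 0 => fun u => if u = 0 then 1 else 0
  | (t + 1) => fun u => (rwA t (u - 1) + rwA t (u + 1)) / 2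

lemma rwA_nonneg (t : ℕ) (u : ℤ) : 0 ≤ rwA t u := by
  induction t generalizing u with
  | zero => simp only [rwA]; split_ifs <;> norm_num
  | succ t ih => simp only [rwA]; linarith [ih (u - 1), ih (u + 1)]

lemma rwA_neg_out (t : ℕ) (u : ℤ) (h : u < -(t : ℤ)) : rwA t u = 0 := by
  induction t generalizing u with
  | zero => simp only [rwA]; rw [if_neg]; intro h0; rw [h0] at h; simp at h
  | succ t ih =>
    simp only [rwA]
    rw [ih (u - 1) (by push_cast at h; omega), ih (u + 1) (by push_cast at h; omega)]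
    norm_num

lemma rwA_formula (t : ℕ) (k : ℕ) : rwA t (2 * k - t) = (t.choose k : ℝ) / 2 ^ t := by
  induction t generalizing k with
  | zero =>
    simp only [rwA]
    rcases k with _ | k
    · simp
    · rw [if_neg (by push_cast; omega)]; simp
  | succ t ih =>
    simp only [rwA]
    rcases k with _ | k
    · have h1 : (2 * ((0 : ℕ) : ℤ) - ((t + 1 : ℕ) : ℤ) - 1) = -(t : ℤ) - 2 := by push_cast; ring
      have h2 : (2 * ((0 : ℕ) : ℤ) - ((t + 1 : ℕ) : ℤ) + 1) = 2 * ((0 : ℕ) : ℤ) - t := by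
        push_cast; ring
      rw [h1, h2, ih 0, rwA_neg_out t _ (by omega)]
      simp only [Nat.choose_zero_right, Nat.cast_one]
      rw [pow_succ]
      field_simp
      ring
    · have h1 : (2 * ((k + 1 : ℕ) : ℤ) - ((t + 1 : ℕ) : ℤ) - 1) = 2 * (k : ℤ) - t := by
        push_cast; ring
      have h2 : (2 * ((k + 1 : ℕ) : ℤ) - ((t + 1 : ℕ) : ℤ) + 1) = 2 * ((k + 1 : ℕ) : ℤ) - t := by
        push_cast; ring
      rw [h1, h2, ih k, ih (k + 1), Nat.choose_succ_succ]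
      push_cast
      rw [pow_succ]
      field_simp

lemma kI_X_K3 (I : Finset V) (x z : V) :
    kI I Polynomial.X x z = if x ∈ I ∧ z ∈ I ∧ z ∈ nb x then 1 / 4 else 0 := by
  unfold kI
  by_cases h : x ∈ I ∧ z ∈ I
  · rw [dif_pos h, Polynomial.aeval_X]
    unfold PM
    by_cases h2 : z ∈ nb x
    · rw [if_pos h2, if_pos ⟨h.1, h.2, h2⟩]
    · rw [if_neg h2, if_neg (fun h3 => h2 h3.2.2)]
  · rw [dif_neg h, if_neg (fun h3 => h ⟨h3.1, h3.2.1⟩)]

/-- product kernel in rotated coordinates -/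
noncomputable def rwB (t : ℕ) (v : V) : ℝ := rwA t (v.1 + v.2) * rwA t (v.1 - v.2)

lemma rwB_nonneg (t : ℕ) (v : V) : 0 ≤ rwB t v := mul_nonneg (rwA_nonneg _ _) (rwA_nonneg _ _)

lemma sum_nb_K3 (x : V) (f : V → ℝ) : ∑ z ∈ nb x, f z =
    f (x.1 + 1, x.2) + f (x.1 - 1, x.2) + f (x.1, x.2 + 1) + f (x.1, x.2 - 1) := by
  unfold nb
  rw [Finset.sum_insert, Finset.sum_insert, Finset.sum_insert, Finset.sum_singleton]
  · ring
  · simp only [Finset.mem_singleton, Prod.mk.injEq]; omega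
  · simp only [Finset.mem_insert, Finset.mem_singleton, Prod.mk.injEq]; omega
  · simp only [Finset.mem_insert, Finset.mem_singleton, Prod.mk.injEq]; omega

lemma rwB_step (t : ℕ) (x y : V) :
    1 / 4 * ∑ z ∈ nb x, rwB t (z - y) = rwB (t + 1) (x - y) := by
  rw [sum_nb_K3]
  unfold rwB
  simp only [rwA, Prod.fst_sub, Prod.snd_sub]
  have e1 : x.1 + 1 - y.1 + (x.2 - y.2) = x.1 - y.1 + (x.2 - y.2) + 1 := by ring
  have e2 : x.1 + 1 - y.1 - (x.2 - y.2) = x.1 - y.1 - (x.2 - y.2) + 1 := by ring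
  have e3 : x.1 - 1 - y.1 + (x.2 - y.2) = x.1 - y.1 + (x.2 - y.2) - 1 := by ring
  have e4 : x.1 - 1 - y.1 - (x.2 - y.2) = x.1 - y.1 - (x.2 - y.2) - 1 := by ring
  have e5 : x.1 - y.1 + (x.2 + 1 - y.2) = x.1 - y.1 + (x.2 - y.2) + 1 := by ring
  have e6 : x.1 - y.1 - (x.2 + 1 - y.2) = x.1 - y.1 - (x.2 - y.2) - 1 := by ring
  have e7 : x.1 - y.1 + (x.2 - 1 - y.2) = x.1 - y.1 + (x.2 - y.2) - 1 := by ring
  have e8 : x.1 - y.1 - (x.2 - 1 - y.2) = x.1 - y.1 - (x.2 - y.2) + 1 := by ring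
  rw [e1, e2, e3, e4, e5, e6, e7, e8]
  ring

lemma kI_pow_le_K3 (I : Finset V) (t : ℕ) (x y : V) :
    kI I (Polynomial.X ^ t) x y ≤ rwB t (x - y) := by
  induction t generalizing x with
  | zero =>
    rw [pow_zero, kI_one]
    by_cases h : x = y ∧ x ∈ I
    · rw [if_pos h, h.1]
      simp [rwB, rwA]
    · rw [if_neg h]; exact rwB_nonneg _ _
  | succ t ih =>
    rw [pow_succ', ← kI_mul, ← rwB_step, Finset.mul_sum]
    calc ∑ z ∈ I, kI I Polynomial.X x z * kI I (Polynomial.X ^ t) z y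
        ≤ ∑ z ∈ I, (if z ∈ nb x then 1 / 4 * rwB t (z - y) else 0) := by
          refine Finset.sum_le_sum (fun z hz => ?_)
          rw [kI_X_K3]
          by_cases h : z ∈ nb x
          · rw [if_pos h]
            by_cases hx : x ∈ I
            · rw [if_pos ⟨hx, hz, h⟩]
              exact mul_le_mul_of_nonneg_left (ih z) (by norm_num)
            · rw [if_neg (fun h3 => hx h3.1), zero_mul]
              exact mul_nonneg (by norm_num) (rwB_nonneg _ _)
          · rw [if_neg h, if_neg (fun h3 => h h3.2.2), zero_mul]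
      _ = ∑ z ∈ I ∩ nb x, 1 / 4 * rwB t (z - y) := by
          rw [← Finset.sum_filter]
          refine Finset.sum_congr ?_ (fun _ _ => rfl)
          ext z; simp
      _ ≤ ∑ z ∈ nb x, 1 / 4 * rwB t (z - y) :=
          Finset.sum_le_sum_of_subset_of_nonneg Finset.inter_subset_right
            (fun z _ _ => mul_nonneg (by norm_num) (rwB_nonneg _ _))

lemma centralBinom_sq_le_K3 (t : ℕ) : (2 * (t : ℝ) + 1) * (t.centralBinom : ℝ) ^ 2 ≤ 16 ^ t := by
  induction t with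
  | zero => simp
  | succ t ih =>
    have h1 : ((t : ℝ) + 1) * ((t + 1).centralBinom : ℝ) = 2 * (2 * t + 1) * t.centralBinom := by
      exact_mod_cast Nat.succ_mul_centralBinom_succ t
    have ht : (0 : ℝ) ≤ t := Nat.cast_nonneg t
    have h2 : ((t : ℝ) + 1) ^ 2 * ((t + 1).centralBinom : ℝ) ^ 2 =
        4 * (2 * t + 1) * ((2 * t + 1) * (t.centralBinom : ℝ) ^ 2) := by
      rw [← mul_pow, h1]; ring
    have h3 : ((t : ℝ) + 1) ^ 2 * ((2 * ((t : ℝ) + 1) + 1) * ((t + 1).centralBinom : ℝ) ^ 2) ≤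
        ((t : ℝ) + 1) ^ 2 * 16 ^ (t + 1) := by
      calc ((t : ℝ) + 1) ^ 2 * ((2 * ((t : ℝ) + 1) + 1) * ((t + 1).centralBinom : ℝ) ^ 2)
          = (2 * ((t : ℝ) + 1) + 1) *
              (((t : ℝ) + 1) ^ 2 * ((t + 1).centralBinom : ℝ) ^ 2) := by ring
        _ = (2 * ((t : ℝ) + 1) + 1) *
              (4 * (2 * t + 1) * ((2 * t + 1) * (t.centralBinom : ℝ) ^ 2)) := by rw [h2]
        _ ≤ (2 * ((t : ℝ) + 1) + 1) * (4 * (2 * t + 1) * 16 ^ t) := by
            apply mul_le_mul_of_nonneg_left _ (by positivity)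
            apply mul_le_mul_of_nonneg_left ih (by positivity)
        _ = (4 * ((2 * ((t : ℝ) + 1) + 1) * (2 * t + 1))) * 16 ^ t := by ring
        _ ≤ (16 * ((t : ℝ) + 1) ^ 2) * 16 ^ t := by
            apply mul_le_mul_of_nonneg_right _ (by positivity)
            nlinarith
        _ = ((t : ℝ) + 1) ^ 2 * 16 ^ (t + 1) := by rw [pow_succ]; ring
    have h4 := le_of_mul_le_mul_left h3 (by positivity)
    push_cast
    exact h4

theorem kI_return (I : Finset V) (t : ℕ) (x : V) :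
    kI I (Polynomial.X ^ (2 * t)) x x ≤ 1 / (2 * t + 1) := by
  refine (kI_pow_le_K3 I (2 * t) x x).trans ?_
  rw [sub_self]
  unfold rwB
  have h1 : rwA (2 * t) 0 = (t.centralBinom : ℝ) / 4 ^ t := by
    have := rwA_formula (2 * t) t
    have e : (2 * (t : ℤ) - ((2 * t : ℕ) : ℤ)) = 0 := by push_cast; ring
    rw [e] at this
    rw [this, Nat.centralBinom_eq_two_mul_choose, pow_mul]
    norm_num
  simp only [Prod.fst_zero, Prod.snd_zero, add_zero, sub_zero]
  rw [h1, div_mul_div_comm, ← mul_pow]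
  norm_num
  have h2 := centralBinom_sq_le_K3 t
  have ht : (0 : ℝ) ≤ t := Nat.cast_nonneg t
  rw [div_le_iff₀ (by positivity), inv_mul_eq_div, le_div_iff₀ (by positivity)]
  nlinarith

lemma sum_sum_inv_le_K3 (T : ℕ) : ∑ s ∈ range T, ∑ t ∈ range T, (1 : ℝ) / (2 * ((s + t : ℕ) : ℝ) + 1)
    ≤ 2 * T := by
  induction T with
  | zero => simp
  | succ T ih =>
    rw [Finset.sum_range_succ]
    have h1 : ∑ s ∈ range T, ∑ t ∈ range (T + 1), (1 : ℝ) / (2 * ((s + t : ℕ) : ℝ) + 1) =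
        ∑ s ∈ range T, ∑ t ∈ range T, (1 : ℝ) / (2 * ((s + t : ℕ) : ℝ) + 1) +
        ∑ s ∈ range T, (1 : ℝ) / (2 * ((s + T : ℕ) : ℝ) + 1) := by
      rw [← Finset.sum_add_distrib]
      exact Finset.sum_congr rfl (fun s _ => Finset.sum_range_succ _ _)
    rw [h1, Finset.sum_range_succ]
    have hT : (0 : ℝ) ≤ T := Nat.cast_nonneg T
    have h2 : ∑ s ∈ range T, (1 : ℝ) / (2 * ((s + T : ℕ) : ℝ) + 1) ≤
        ∑ s ∈ range T, (1 : ℝ) / (2 * T + 1) := by
      refine Finset.sum_le_sum (fun s _ => ?_)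
      push_cast
      have : (0 : ℝ) ≤ s := Nat.cast_nonneg s
      apply one_div_le_one_div_of_le (by positivity)
      linarith
    have h3 : ∑ t ∈ range T, (1 : ℝ) / (2 * ((T + t : ℕ) : ℝ) + 1) ≤
        ∑ s ∈ range T, (1 : ℝ) / (2 * T + 1) := by
      refine Finset.sum_le_sum (fun s _ => ?_)
      push_cast
      have : (0 : ℝ) ≤ s := Nat.cast_nonneg s
      apply one_div_le_one_div_of_le (by positivity)
      linarith
    have h4 : ∑ s ∈ range T, (1 : ℝ) / (2 * T + 1) = T / (2 * T + 1) := by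
      rw [Finset.sum_const, Finset.card_range, nsmul_eq_mul]; ring
    have h5 : (T : ℝ) / (2 * T + 1) ≤ 1 / 2 := by
      rw [div_le_div_iff₀ (by positivity) (by norm_num)]; linarith
    have h6 : (1 : ℝ) / (2 * ((T + T : ℕ) : ℝ) + 1) ≤ 1 := by
      rw [div_le_one (by positivity)]
      push_cast; linarith
    push_cast at *
    linarith

theorem kI_Ep_diag (I : Finset V) (j : ℕ) (x : V) : kI I ((Ep j) ^ 2) x x ≤ 128 / 4 ^ j := by
  set Q : Polynomial ℝ := Polynomial.C (8 / 4 ^ j) *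
    ∑ t ∈ range (4 ^ j), Polynomial.X ^ (2 * t) with hQ
  have hQe : ∀ x : ℝ, Q.eval x = 8 / 4 ^ j * ∑ t ∈ range (4 ^ j), x ^ (2 * t) := by
    intro x
    rw [hQ, Polynomial.eval_mul, Polynomial.eval_C, Polynomial.eval_finsetSum]
    simp
  have h1 : kI I ((Ep j) ^ 2) x x ≤ kI I (Q ^ 2) x x := by
    refine kI_diag_mono I _ _ (fun y hy => ?_) x
    rw [Polynomial.eval_pow, Polynomial.eval_pow]
    refine pow_le_pow_left₀ (Ep_nonneg j hy) ?_ 2
    rw [hQe]
    exact Ep_le_avg j hy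
  refine h1.trans ?_
  have h2 : Q ^ 2 = Polynomial.C ((8 / 4 ^ j) ^ 2) *
      ∑ s ∈ range (4 ^ j), ∑ t ∈ range (4 ^ j), Polynomial.X ^ (2 * (s + t)) := by
    rw [hQ, mul_pow, ← Polynomial.C_pow, sq (∑ t ∈ range (4 ^ j), (Polynomial.X : Polynomial ℝ) ^ (2 * t)),
      Finset.sum_mul_sum]
    congr 1
    refine Finset.sum_congr rfl (fun s _ => Finset.sum_congr rfl (fun t _ => ?_))
    rw [← pow_add]; congr 1; ring
  rw [h2, kI_C_mul, kI_sum]
  have h3 : ∑ s ∈ range (4 ^ j), kI I (∑ t ∈ range (4 ^ j), Polynomial.X ^ (2 * (s + t))) x x ≤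
      2 * ((4 ^ j : ℕ) : ℝ) := by
    refine le_trans ?_ (sum_sum_inv_le_K3 (4 ^ j))
    refine Finset.sum_le_sum (fun s _ => ?_)
    rw [kI_sum]
    exact Finset.sum_le_sum (fun t _ => kI_return I (s + t) x)
  calc (8 / 4 ^ j : ℝ) ^ 2 * _ ≤ (8 / 4 ^ j : ℝ) ^ 2 * (2 * ((4 ^ j : ℕ) : ℝ)) :=
        mul_le_mul_of_nonneg_left h3 (by positivity)
    _ = 128 / 4 ^ j := by
        push_cast
        have : (4 : ℝ) ^ j ≠ 0 := by positivity
        field_simp
        norm_num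

theorem kI_cpol_diag (I : Finset V) (j : ℕ) (x : V) : kI I (cpol j) x x ≤ 32 := by
  have h1 : kI I (cpol j) x x ≤ kI I (Polynomial.C (4 ^ j / 4) * (Ep j) ^ 2) x x := by
    refine kI_diag_mono I _ _ (fun y hy => ?_) x
    rw [Polynomial.eval_mul, Polynomial.eval_C]
    exact cpol_le j hy
  rw [kI_C_mul] at h1
  have h2 := kI_Ep_diag I j x
  have h3 : (4 : ℝ) ^ j / 4 * kI I ((Ep j) ^ 2) x x ≤ 4 ^ j / 4 * (128 / 4 ^ j) :=
    mul_le_mul_of_nonneg_left h2 (by positivity)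
  have h4 : (4 : ℝ) ^ j / 4 * (128 / 4 ^ j) = 32 := by
    have : (4 : ℝ) ^ j ≠ 0 := by positivity
    field_simp
    norm_num
  linarith

end Pool.H92.GFL
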