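import Pool.Agent.helper92.GFL.K5
import Pool.Agent.helper92.GFL.P2
import Pool.Agent.helper92.GFL.G0

namespace Pool.H92.GFL

open Function Finset MeasureTheory ProbabilityTheory Pool.H92.GFF
open scoped Classical ENNReal

/-- Harnack inequality -/
theorem harnack : ∃ C : ℝ, 0 < C ∧ ∀ (z : V) (r : ℕ) (g : V → ℝ), 1 ≤ r →
    (∀ v, 0 ≤ g v) → (∀ v ∈ ball z (32 * r), lap g v = 0) →
    ∀ x ∈ ball z r, ∀ y ∈ ball z r, g x ≤ C * g y := by
  obtain ⟨C1, hC1, hup⟩ := gr_upper
  obtain ⟨c, hc, hlow⟩ := gr_lower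
  refine ⟨8 * C1 / c, by positivity, ?_⟩
  intro z r g hr hg0 hgl x hxr y hyr
  set W : Finset V := ball z (32 * r) with hW
  set B : Finset V := ball z (2 * r) with hB
  have hBW : B ⊆ W := ball_mono (by omega)
  set h : V → ℝ := hx W B g with hh
  -- `h ≤ g`
  have hle : ∀ v, h v ≤ g v := by
    refine cmp (W \ B) (fun v hv => ?_) (fun v hv => ?_)
    · rw [Finset.mem_sdiff] at hv
      rw [hh, lap_hx hv.1 hv.2, hgl v hv.1]
    · by_cases hvB : v ∈ B
      · rw [hh, hx_on hvB]
      · have hvW : v ∉ W := fun h' => hv (by simp [h', hvB])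
        rw [hh, hx_out hBW hvW]
        exact hg0 v
  have hB' : ∀ v ∈ B, h v = g v := fun v hv => by rw [hh, hx_on hv]
  have hnn : ∀ v ∈ W, 0 ≤ lap h v := by
    intro v hv
    by_cases hvB : v ∈ B
    · have h1 : lap g v = 0 := hgl v hv
      rw [lap_eq_sum] at h1 ⊢
      have h2 : ∑ w ∈ nb v, h w ≤ ∑ w ∈ nb v, g w := Finset.sum_le_sum (fun w _ => hle w)
      rw [hB' v hvB]
      linarith
    · rw [hh, lap_hx hv hvB]
  have hbd : ∀ v ∈ W, lap h v ≠ 0 → v ∈ B ∧ ∃ w ∈ nb v, w ∉ B := by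
    intro v hv hne
    have hvB : v ∈ B := by
      by_contra hvB
      exact hne (by rw [hh, lap_hx hv hvB])
    refine ⟨hvB, ?_⟩
    by_contra hcon
    push Not at hcon
    apply hne
    rw [← hgl v hv]
    exact lap_congr (hB' v hvB) (fun w hw => hB' w (hcon w hw))
  have hrep : ∀ u ∈ ball z r, g u = ∑ v ∈ W, gr W v u * lap h v := by
    intro u hu
    have huB : u ∈ B := ball_mono (by omega) hu
    rw [← hB' u huB]
    exact gr_repr (fun v hv => by rw [hh, hx_out hBW hv]) u
  -- upper bound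
  have hU : ∀ u ∈ ball z r, g u ≤ 8 * C1 * ∑ v ∈ W, lap h v := by
    intro u hu
    rw [hrep u hu, Finset.mul_sum]
    refine Finset.sum_le_sum (fun v hv => ?_)
    by_cases h0 : lap h v = 0
    · rw [h0, mul_zero, mul_zero]
    · obtain ⟨hvB, w, hw, hwB⟩ := hbd v hv h0
      refine mul_le_mul_of_nonneg_right ?_ (hnn v hv)
      set m := Nat.log 2 r with hm
      have hm1 : 2 ^ m ≤ r := Nat.pow_log_le_self 2 (by omega)
      have hm2 : r < 2 ^ (m + 1) := Nat.lt_pow_succ_log_self (by norm_num) r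
      have hWL : W ⊆ ball z (2 ^ (m + 6)) := by
        apply ball_mono
        have : 2 ^ (m + 6) = 32 * 2 ^ (m + 1) := by ring
        omega
      have hju : m - 1 = 0 ∨ u ∉ ball v (2 ^ (m - 1)) := by
        by_cases hm0 : m = 0
        · left; omega
        · right
          have h3 : 2 ^ m = 2 * 2 ^ (m - 1) := by
            rw [← pow_succ']; congr 1; omega
          have h4 : 2 * 2 ^ (m - 1) ≤ r := h3 ▸ hm1
          have h5 := nb_ball hw
          intro hcon
          apply hwB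
          rw [hB]
          rw [mem_ball] at hu hcon h5 ⊢
          push_cast at hu hcon h5 ⊢
          have h6 : (2 : ℤ) * 2 ^ (m - 1) ≤ r := by exact_mod_cast h4
          have h7 : (1 : ℤ) ≤ 2 ^ (m - 1) := one_le_pow₀ (by norm_num)
          omega
      have h8 := hup (m + 6) (m - 1) z W hWL (by omega) u v hju
      refine h8.trans ?_
      have h9 : ((m + 6 : ℕ) : ℝ) - ((m - 1 : ℕ) : ℝ) + 1 ≤ 8 := by
        rcases Nat.eq_zero_or_pos m with h0 | h0
        · rw [h0]; norm_num
        · have : ((m - 1 : ℕ) : ℝ) = (m : ℝ) - 1 := by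
            rw [Nat.cast_sub h0]; norm_num
          rw [this]; push_cast; linarith
      calc C1 * (((m + 6 : ℕ) : ℝ) - ((m - 1 : ℕ) : ℝ) + 1) ≤ C1 * 8 :=
            mul_le_mul_of_nonneg_left h9 hC1.le
        _ = 8 * C1 := by ring
  -- lower bound
  have hL : ∀ u ∈ ball z r, c * ∑ v ∈ W, lap h v ≤ g u := by
    intro u hu
    rw [hrep u hu, Finset.mul_sum]
    refine Finset.sum_le_sum (fun v hv => ?_)
    by_cases h0 : lap h v = 0
    · rw [h0, mul_zero, mul_zero]
    · obtain ⟨hvB, -⟩ := hbd v hv h0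
      refine mul_le_mul_of_nonneg_right ?_ (hnn v hv)
      have h1 := hlow z (2 * r) (by omega) u (ball_mono (by omega) hu) v hvB
      have h2 : 16 * (2 * r) = 32 * r := by ring
      rw [h2] at h1
      exact h1
  have h1 := hU x hxr
  have h2 := hL y hyr
  have h3 : ∑ v ∈ W, lap h v ≤ g y / c := by
    rw [le_div_iff₀ hc, mul_comm]
    exact h2
  calc g x ≤ 8 * C1 * ∑ v ∈ W, lap h v := h1
    _ ≤ 8 * C1 * (g y / c) := mul_le_mul_of_nonneg_left h3 (by positivity)
    _ = 8 * C1 / c * g y := by ring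

end Pool.H92.GFL
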