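import Pool.Agent.helper92.GFL.A9
import Pool.Agent.helper92.GFL.BC

/-!
Nice circuits at all scales.
-/

namespace Pool.H92.GFL

open Function Finset MeasureTheory ProbabilityTheory Pool.H92.GFF
open scoped Classical ENNReal

theorem thmPF (K0 : ℝ) : ∃ (K : ℝ) (C1 : ℕ), K0 ≤ K ∧ 1 ≤ C1 ∧ ∀ m, PF m K C1 q1 := by
  obtain ⟨y1, C2, K0', hy1, hC2, hK0', HB⟩ := thmBC
  obtain ⟨K1, hK1, HA⟩ := thmA y1
  set K : ℝ := max K0 (max K0' (max K1 (200 * C2))) with hK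
  have a1 : K0 ≤ K := le_max_left _ _
  have a2 : K0' ≤ K := (le_max_left _ _).trans (le_max_right _ _)
  have a3 : K1 ≤ K := (le_max_left _ _).trans ((le_max_right _ _).trans (le_max_right _ _))
  have a4 : 200 * C2 ≤ K := (le_max_right _ _).trans ((le_max_right _ _).trans (le_max_right _ _))
  have a5 : 1 ≤ K := hK1.trans a3
  refine ⟨K, 44, a1, by norm_num, ?_⟩
  intro m
  induction m using Nat.strong_induction_on with
  | _ m ih =>
    set Cs : ℕ := ⌈C2 * K ^ 6⌉₊ * 44 with hCs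
    have hK6 : (1 : ℝ) ≤ K ^ 6 := one_le_pow₀ a5
    have h6 : 0 < C2 * K ^ 6 := by positivity
    have hCs1 : 1 ≤ Cs := by
      have : 1 ≤ ⌈C2 * K ^ 6⌉₊ := Nat.one_le_iff_ne_zero.2 (Nat.ceil_pos.2 h6).ne'
      omega
    have h1 : ∀ k < m, PF k y1 Cs q0 := by
      intro k hk
      exact HB K a2 44 k (by norm_num) (fun k' hk' => ih k' (lt_of_le_of_lt hk' hk))
    have h2 := HA K a3 m Cs hCs1 h1
    refine h2.mono le_rfl ?_ le_rfl
    have h3 : ⌈(Cs : ℝ) / K ^ 7⌉₊ ≤ 1 := by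
      rw [Nat.ceil_le]
      have h4 : (⌈C2 * K ^ 6⌉₊ : ℝ) ≤ C2 * K ^ 6 + 1 := (Nat.ceil_lt_add_one h6.le).le
      have h5 : (Cs : ℝ) = (⌈C2 * K ^ 6⌉₊ : ℝ) * 44 := by rw [hCs]; push_cast; ring
      rw [h5, div_le_iff₀ (by positivity)]
      have h7 : K ^ 7 = K * K ^ 6 := by ring
      rw [h7]
      push_cast
      have h8 : 200 * C2 * K ^ 6 ≤ K * K ^ 6 := mul_le_mul_of_nonneg_right a4 (by positivity)
      nlinarith
    omega

end Pool.H92.GFL
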